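import Pool.Agent.Helper25.ETCNormal

/-!
# The compositum of all finite Galois extensions of `p`-power degree
-/

set_option autoImplicit false

namespace Pool.Agent.Helper25.ETC

open Polynomial

section tf

variable {F K : Type*} [Field F] [Field K] [Algebra F K]

theorem pow_le_fix {σ : K ≃ₐ[F] K} {p a b : ℕ} (h : a ≤ b) {x : K}
    (hx : (σ ^ (p ^ a)) x = x) : (σ ^ (p ^ b)) x = x := by
  obtain ⟨c, rfl⟩ := Nat.exists_eq_add_of_le h
  rw [pow_add, pow_mul]
  have : (σ ^ (p ^ a)) ∈ MulAction.stabilizer (K ≃ₐ[F] K) x := hx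
  exact (MulAction.stabilizer (K ≃ₐ[F] K) x).pow_mem this (p ^ c)

/-- elements of finite `p`-power orbit under `σ`. -/
def tf (p : ℕ) (σ : K ≃ₐ[F] K) : IntermediateField F K where
  carrier := {x | ∃ k : ℕ, (σ ^ (p ^ k)) x = x}
  mul_mem' := by
    rintro x y ⟨a, ha⟩ ⟨b, hb⟩
    refine ⟨max a b, ?_⟩
    rw [map_mul, pow_le_fix (le_max_left a b) ha, pow_le_fix (le_max_right a b) hb]
  add_mem' := by
    rintro x y ⟨a, ha⟩ ⟨b, hb⟩
    refine ⟨max a b, ?_⟩
    rw [map_add, pow_le_fix (le_max_left a b) ha, pow_le_fix (le_max_right a b) hb]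
  algebraMap_mem' := fun r => ⟨0, AlgEquiv.commutes _ r⟩
  inv_mem' := by
    rintro x ⟨a, ha⟩
    exact ⟨a, by rw [map_inv₀, ha]⟩

theorem mem_tf {p : ℕ} {σ : K ≃ₐ[F] K} {x : K} : x ∈ tf p σ ↔ ∃ k : ℕ, (σ ^ (p ^ k)) x = x :=
  Iff.rfl

end tf

section

variable {F : Type*} [Field F] {Ω : Type*} [Field Ω] [Algebra F Ω]

/-- finite Galois subextensions of `p`-power degree. -/
def LL (p : ℕ) (F Ω : Type*) [Field F] [Field Ω] [Algebra F Ω] : Set (IntermediateField F Ω) :=
  {L | FiniteDimensional F L ∧ IsGalois F L ∧ ∃ k : ℕ, Module.finrank F L = p ^ k}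

theorem card_of_tf {p : ℕ} (hp : p.Prime) {N : Type*} [Field N] [Algebra F N]
    [FiniteDimensional F N] [IsGalois F N] (h : ∀ τ : N ≃ₐ[F] N, tf p τ = ⊤) :
    ∃ k : ℕ, Module.finrank F N = p ^ k := by
  have : Fact p.Prime := ⟨hp⟩
  have hP : IsPGroup p (N ≃ₐ[F] N) := by
    intro τ
    obtain ⟨θ, hθ⟩ := Field.exists_primitive_element F N
    have h1 : θ ∈ tf p τ := by rw [h τ]; exact IntermediateField.mem_top
    obtain ⟨k, hk⟩ := h1
    refine ⟨k, ?_⟩
    have h4 : IntermediateField.adjoin F {θ} ≤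
        IntermediateField.fixedField (Subgroup.zpowers (τ ^ (p ^ k))) := by
      rw [IntermediateField.adjoin_simple_le_iff, IntermediateField.mem_fixedField_iff]
      intro f hf
      obtain ⟨m, rfl⟩ := Subgroup.mem_zpowers_iff.mp hf
      have h5 : (τ ^ (p ^ k)) ∈ MulAction.stabilizer (N ≃ₐ[F] N) θ := hk
      exact (MulAction.stabilizer (N ≃ₐ[F] N) θ).zpow_mem h5 m
    rw [hθ] at h4
    ext x
    have h6 := h4 (IntermediateField.mem_top : x ∈ _)
    rw [IntermediateField.mem_fixedField_iff] at h6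
    rw [h6 _ (Subgroup.mem_zpowers _)]
    rfl
  obtain ⟨n, hn⟩ := IsPGroup.iff_card.mp hP
  exact ⟨n, by rw [← IsGalois.card_aut_eq_finrank, hn]⟩

variable [Normal F Ω]

omit [Normal F Ω] in
/-- an automorphism of `Ω` has `p`-power order on every member of `LL`. -/
theorem le_tf_of_LL {p : ℕ} {L : IntermediateField F Ω} (hL : L ∈ LL p F Ω)
    (σ : Ω ≃ₐ[F] Ω) : ∃ k : ℕ, ∀ x ∈ L, (σ ^ (p ^ k)) x = x := by
  obtain ⟨h1, h2, k, hk⟩ := hL
  refine ⟨k, fun x hx => ?_⟩
  have h3 : (AlgEquiv.restrictNormalHom L σ) ^ (p ^ k) = 1 := by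
    rw [← hk, ← IsGalois.card_aut_eq_finrank]
    exact pow_card_eq_one'
  rw [← map_pow] at h3
  have h4 := AlgEquiv.restrictNormal_commutes (σ ^ (p ^ k)) L ⟨x, hx⟩
  have h5 : (σ ^ (p ^ k)).restrictNormal L = 1 := h3
  rw [h5] at h4
  exact h4.symm

theorem tf_lift {p : ℕ} {N : IntermediateField F Ω} (τ : N ≃ₐ[F] N)
    (h : N ≤ tf p (τ.liftNormal Ω)) : tf p τ = ⊤ := by
  rw [eq_top_iff]
  intro x _
  obtain ⟨k, hk⟩ := h x.2
  refine ⟨k, ?_⟩
  apply Subtype.ext
  have key : ∀ n : ℕ, ∀ y : N, ((τ.liftNormal Ω) ^ n) (y : Ω) = ((τ ^ n) y : N) := by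
    intro n
    induction n with
    | zero => intro y; rfl
    | succ n ih =>
      intro y
      rw [pow_succ, pow_succ]
      have h1 : (τ.liftNormal Ω) (y : Ω) = (τ y : N) := AlgEquiv.liftNormal_commutes τ Ω y
      change ((τ.liftNormal Ω) ^ n) ((τ.liftNormal Ω) (y : Ω)) = _
      rw [h1, ih]
      rfl
  rw [← key]; exact hk

theorem mem_LL_of_tf {p : ℕ} (hp : p.Prime) {N : IntermediateField F Ω}
    (h1 : FiniteDimensional F N) (h2 : IsGalois F N)
    (h : ∀ σ : Ω ≃ₐ[F] Ω, N ≤ tf p σ) : N ∈ LL p F Ω :=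
  ⟨h1, h2, card_of_tf hp (fun τ => tf_lift τ (h _))⟩

theorem sup_mem_LL {p : ℕ} (hp : p.Prime) {L L' : IntermediateField F Ω}
    (hL : L ∈ LL p F Ω) (hL' : L' ∈ LL p F Ω) : L ⊔ L' ∈ LL p F Ω := by
  have h1 := hL.1
  have h2 := hL.2.1
  have h1' := hL'.1
  have h2' := hL'.2.1
  have := h2.to_isSeparable
  have := h2'.to_isSeparable
  have := h2.to_normal
  have := h2'.to_normal
  refine mem_LL_of_tf hp (IntermediateField.finiteDimensional_sup L L') ?_ ?_
  · exact IsGalois.mk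
  · intro σ
    rw [sup_le_iff]
    constructor
    · obtain ⟨k, hk⟩ := le_tf_of_LL hL σ
      exact fun x hx => ⟨k, hk x hx⟩
    · obtain ⟨k, hk⟩ := le_tf_of_LL hL' σ
      exact fun x hx => ⟨k, hk x hx⟩

omit [Normal F Ω] in
theorem bot_mem_LL {p : ℕ} : (⊥ : IntermediateField F Ω) ∈ LL p F Ω := by
  refine ⟨inferInstance, inferInstance, 0, ?_⟩
  rw [pow_zero, IntermediateField.finrank_bot]

theorem mem_sSup_LL {p : ℕ} (hp : p.Prime) {x : Ω} (hx : x ∈ sSup (LL p F Ω)) :
    ∃ L ∈ LL p F Ω, x ∈ L := by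
  rw [sSup_eq_iSup'] at hx
  have : Nonempty (LL p F Ω) := ⟨⟨⊥, bot_mem_LL⟩⟩
  have hdir : Directed (· ≤ ·) (fun L : LL p F Ω => (L : IntermediateField F Ω)) := by
    intro L L'
    exact ⟨⟨L.1 ⊔ L'.1, sup_mem_LL hp L.2 L'.2⟩, le_sup_left, le_sup_right⟩
  rw [← SetLike.mem_coe, IntermediateField.coe_iSup_of_directed hdir, Set.mem_iUnion] at hx
  obtain ⟨L, hL⟩ := hx
  exact ⟨L, L.2, hL⟩

theorem exists_root_LL {p : ℕ} (hp : p.Prime) {ζ : F} (hζ : IsPrimitiveRoot ζ p) {y : Ω}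
    {L : IntermediateField F Ω} (hL : L ∈ LL p F Ω) (hy : y ^ p ∈ L) :
    ∃ N ∈ LL p F Ω, y ∈ N := by
  have hfd := hL.1
  have hgal := hL.2.1
  have hsepL := hgal.to_isSeparable
  have hnorL := hgal.to_normal
  have : NeZero p := ⟨hp.ne_zero⟩
  have hpF : (p : F) ≠ 0 := by
    have := hζ.neZero' (n := p)
    exact this.out
  rcases eq_or_ne y 0 with rfl | hy0
  · exact ⟨⊥, bot_mem_LL, zero_mem _⟩
  have hsepy : IsSeparable F y := by
    have h1 : IsSeparable L y := by
      have hpL : (p : L) ≠ 0 := by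
        intro h
        apply hpF
        have : algebraMap F L (p : F) = 0 := by rw [map_natCast]; exact h
        exact (map_eq_zero _).mp this
      have h2 : (X ^ p - C (⟨y ^ p, hy⟩ : L)).Separable := by
        apply separable_X_pow_sub_C _ hpL
        intro h
        exact pow_ne_zero p hy0 (congrArg Subtype.val h)
      refine h2.of_dvd (minpoly.dvd L y ?_)
      simp
    exact IsSeparable.of_algebra_isSeparable_of_isSeparable F h1
  set A : IntermediateField F Ω := L ⊔ IntermediateField.adjoin F {y} with hA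
  have hint : IsIntegral F y := Algebra.IsIntegral.isIntegral y
  have : FiniteDimensional F (IntermediateField.adjoin F {y}) :=
    IntermediateField.adjoin.finiteDimensional hint
  have hAfd : FiniteDimensional F A := IntermediateField.finiteDimensional_sup _ _
  have hAsep : A ≤ separableClosure F Ω := by
    rw [hA, sup_le_iff]
    constructor
    · rw [le_separableClosure_iff]; infer_instance
    · rw [IntermediateField.adjoin_simple_le_iff, mem_separableClosure_iff]; exact hsepy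
  set N : IntermediateField F Ω := IntermediateField.normalClosure F A Ω with hN
  have hNsep : Algebra.IsSeparable F N := by
    rw [← le_separableClosure_iff, ← separableClosure.normalClosure_eq_self]
    exact IntermediateField.normalClosure_mono _ _ hAsep
  have hNgal : IsGalois F N := IsGalois.mk
  refine ⟨N, mem_LL_of_tf hp inferInstance hNgal ?_, IntermediateField.le_normalClosure A
    ((le_sup_right : IntermediateField.adjoin F {y} ≤ _)
      (IntermediateField.mem_adjoin_simple_self F y))⟩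
  intro σ
  obtain ⟨k, hk⟩ := le_tf_of_LL hL σ
  rw [hN, IntermediateField.normalClosure_def'', iSup_le_iff]
  intro f
  have hfL : ∀ x ∈ L, f x ∈ L := by
    intro x hx
    have h4 := AlgEquiv.restrictNormal_commutes f L ⟨x, hx⟩
    have h5 : f x = ((f.restrictNormal L ⟨x, hx⟩ : L) : Ω) := h4.symm
    rw [h5]
    exact Subtype.mem _
  rw [hA, IntermediateField.map_sup, sup_le_iff]
  constructor
  · rintro _ ⟨x, hx, rfl⟩
    exact ⟨k, hk _ (hfL x hx)⟩
  · rw [IntermediateField.adjoin_map, Set.image_singleton,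
      IntermediateField.adjoin_simple_le_iff]
    refine ⟨k + 1, ?_⟩
    have h1 : ((σ ^ (p ^ k)) (f y)) ^ p = (f y) ^ p := by
      rw [← map_pow, ← map_pow]
      exact hk _ (hfL _ hy)
    have hζΩ : IsPrimitiveRoot (algebraMap F Ω ζ) p := hζ.map_of_injective
      (algebraMap F Ω).injective
    obtain ⟨j, -, hj⟩ := exists_zeta_pow hp.pos hζΩ h1
    have h2 : ∀ m : ℕ, ((σ ^ (p ^ k)) ^ m) (f y) = (algebraMap F Ω ζ ^ j) ^ m * f y := by
      intro m
      induction m with
      | zero => simp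
      | succ m ih =>
        rw [pow_succ']
        change (σ ^ (p ^ k)) (((σ ^ (p ^ k)) ^ m) (f y)) = _
        rw [ih, map_mul, hj, map_pow, map_pow, AlgEquiv.commutes]
        ring
    have h3 := h2 p
    have h4 : (algebraMap F Ω ζ ^ j) ^ p = 1 := by
      rw [← pow_mul, mul_comm j p, pow_mul, hζΩ.pow_eq_one, one_pow]
    rw [h4, one_mul, ← pow_mul, ← pow_succ] at h3
    exact h3

/-- the abstract properties of the maximal `p`-extension. -/
theorem pcl_of_eq [IsAlgClosed Ω] {p : ℕ} (hp : p.Prime) {ζ : F} (hζ : IsPrimitiveRoot ζ p)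
    {K : IntermediateField F Ω} (hK : K = sSup (LL p F Ω)) : PCl p F K where
  gal := by
    rw [hK, sSup_eq_iSup']
    have h1 : ∀ L : LL p F Ω, Normal F (L : IntermediateField F Ω) := fun L => L.2.2.1.to_normal
    have h2 : ∀ L : LL p F Ω, Algebra.IsSeparable F (L : IntermediateField F Ω) :=
      fun L => L.2.2.1.to_isSeparable
    exact IsGalois.mk
  tors := by
    intro σ x
    have hx : (x : Ω) ∈ sSup (LL p F Ω) := by rw [← hK]; exact x.2
    obtain ⟨L, hL, hxL⟩ := mem_sSup_LL hp hx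
    obtain ⟨k, hk⟩ := le_tf_of_LL hL (σ.liftNormal Ω)
    have h1 : K ≤ K := le_rfl
    have h2 : tf p σ = ⊤ := by
      apply tf_lift
      intro z hz
      rw [hK] at hz
      obtain ⟨L, hL, hzL⟩ := mem_sSup_LL hp hz
      obtain ⟨k, hk⟩ := le_tf_of_LL hL (σ.liftNormal Ω)
      exact ⟨k, hk z hzL⟩
    have h3 : x ∈ tf p σ := by rw [h2]; exact IntermediateField.mem_top
    exact h3
  root := by
    intro x
    have hx : (x : Ω) ∈ sSup (LL p F Ω) := by rw [← hK]; exact x.2
    obtain ⟨L, hL, hxL⟩ := mem_sSup_LL hp hx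
    obtain ⟨y, hy⟩ := IsAlgClosed.exists_pow_nat_eq (x : Ω) hp.pos
    obtain ⟨N, hN, hyN⟩ := exists_root_LL hp hζ hL (by rw [hy]; exact hxL)
    have hyK : y ∈ K := by
      rw [hK]
      exact le_sSup hN hyN
    exact ⟨⟨y, hyK⟩, Subtype.ext hy⟩

end

end Pool.Agent.Helper25.ETC
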