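import Pool.Agent.Helper25.ETCHens

/-!
# Towers of Kummer steps in the maximal `p`-extension
-/

set_option autoImplicit false

namespace Pool.Agent.Helper25.ETC

open Polynomial Finset

/-- abstract properties of `K = F(p)`. -/
structure PCl (p : ℕ) (F K : Type*) [Field F] [Field K] [Algebra F K] : Prop where
  gal : IsGalois F K
  tors : ∀ (σ : K ≃ₐ[F] K) (x : K), ∃ k : ℕ, (σ ^ (p ^ k)) x = x
  root : ∀ x : K, ∃ y : K, y ^ p = x

theorem exists_index_p {P : Type*} [Group P] [Finite P] {p : ℕ} (hp : p.Prime)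
    (hP : IsPGroup p P) (P' : Subgroup P) (h : P' ≠ ⊤) :
    ∃ M : Subgroup P, P' ≤ M ∧ M.Normal ∧ M.index = p := by
  have : Fact p.Prime := ⟨hp⟩
  obtain ⟨n, hn⟩ := IsPGroup.iff_card.mp hP
  obtain ⟨a, ha⟩ := IsPGroup.iff_card.mp (hP.to_subgroup P')
  have hlt : Nat.card P' < Nat.card P := by
    refine lt_of_le_of_ne (Subgroup.card_le_card_group P') ?_
    intro he
    exact h (Subgroup.eq_top_of_card_eq P' he)
  rw [hn, ha] at hlt
  have han : a < n := (Nat.pow_lt_pow_iff_right hp.one_lt).mp hlt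
  obtain ⟨M, hM, hPM⟩ := Sylow.exists_subgroup_card_pow_prime_le p (m := n - 1)
    (by rw [hn]; exact pow_dvd_pow p (Nat.sub_le n 1)) P' ha (by omega)
  have hidx : M.index = p := by
    have h1 := M.card_mul_index
    rw [hM, hn] at h1
    have h2 : p ^ n = p ^ (n - 1) * p := by rw [← pow_succ]; congr 1; omega
    rw [h2] at h1
    exact Nat.eq_of_mul_eq_mul_left (pow_pos hp.pos _) h1
  refine ⟨M, hPM, ?_, hidx⟩
  apply Subgroup.normal_of_index_eq_minFac_card
  rw [hidx, hn, hp.pow_minFac (by omega)]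

variable {F K : Type*} [Field F] [Field K] [Algebra F K]

theorem isPGroup_of_PCl {p : ℕ} (PC : PCl p F K) (N : IntermediateField F K)
    [FiniteDimensional F N] [IsGalois F N] : IsPGroup p (N ≃ₐ[F] N) := by
  have := PC.gal
  intro τ
  obtain ⟨σ, hσ⟩ := AlgEquiv.restrictNormalHom_surjective (F := F) (K₁ := N) K τ
  obtain ⟨θ, hθ⟩ := Field.exists_primitive_element F N
  obtain ⟨k, hk⟩ := PC.tors σ (θ : K)
  refine ⟨k, ?_⟩
  have h1 : (τ ^ (p ^ k)) θ = θ := by
    apply Subtype.ext
    have h2 := AlgEquiv.restrictNormal_commutes (σ ^ (p ^ k)) N θ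
    have h3 : (σ ^ (p ^ k)).restrictNormal N = τ ^ (p ^ k) := by
      have : AlgEquiv.restrictNormalHom N (σ ^ (p ^ k)) = τ ^ (p ^ k) := by
        rw [map_pow, hσ]
      exact this
    rw [h3] at h2
    exact h2.trans hk
  have h4 : IntermediateField.adjoin F {θ} ≤
      IntermediateField.fixedField (Subgroup.zpowers (τ ^ (p ^ k))) := by
    rw [IntermediateField.adjoin_simple_le_iff, IntermediateField.mem_fixedField_iff]
    intro f hf
    obtain ⟨m, rfl⟩ := Subgroup.mem_zpowers_iff.mp hf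
    have h5 : (τ ^ (p ^ k)) ∈ MulAction.stabilizer (N ≃ₐ[F] N) θ := h1
    exact (MulAction.stabilizer (N ≃ₐ[F] N) θ).zpow_mem h5 m
  rw [hθ] at h4
  ext x
  have h6 := h4 (IntermediateField.mem_top : x ∈ _)
  rw [IntermediateField.mem_fixedField_iff] at h6
  rw [h6 _ (Subgroup.mem_zpowers _)]
  rfl

theorem exists_root_between {p : ℕ} (hp : p.Prime) {ζ : K} (hζ : IsPrimitiveRoot ζ p)
    (PC : PCl p F K) {E E' : IntermediateField F K} (hζE : ζ ∈ E) (hle : E ≤ E')
    (hne : E ≠ E') [FiniteDimensional F E'] : ∃ β ∈ E', β ∉ E ∧ β ^ p ∈ E := by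
  have := PC.gal
  set N : IntermediateField F K := IntermediateField.normalClosure F E' K with hN
  have hE'N : E' ≤ N := IntermediateField.le_normalClosure E'
  set U := E.fixingSubgroup with hU
  set U' := E'.fixingSubgroup with hU'
  let φ : U →* (N ≃ₐ[F] N) := (AlgEquiv.restrictNormalHom N).comp U.subtype
  have hφ : ∀ (u : U) (x : N), ((φ u x : N) : K) = (u : K ≃ₐ[F] K) x := by
    intro u x
    exact AlgEquiv.restrictNormal_commutes (u : K ≃ₐ[F] K) N x
  have hP : IsPGroup p φ.range := (isPGroup_of_PCl PC N).to_subgroup _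
  have : Finite φ.range := inferInstance
  have hU'U : U' ≤ U := IntermediateField.fixingSubgroup_antitone hle
  have hUU' : ¬ U ≤ U' := by
    intro h
    apply hne
    apply le_antisymm hle
    have := IntermediateField.fixedField_antitone h
    rwa [InfiniteGalois.fixedField_fixingSubgroup, InfiniteGalois.fixedField_fixingSubgroup]
      at this
  have hP' : (U'.subgroupOf U).map φ.rangeRestrict ≠ ⊤ := by
    intro h
    apply hUU'
    intro u hu
    have h1 : φ.rangeRestrict ⟨u, hu⟩ ∈ (U'.subgroupOf U).map φ.rangeRestrict := by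
      rw [h]; exact Subgroup.mem_top _
    obtain ⟨u', hu', h2⟩ := h1
    have h3 : φ u' = φ ⟨u, hu⟩ := congrArg Subtype.val h2
    have hu'2 : (u' : K ≃ₐ[F] K) ∈ U' := hu'
    rw [hU', IntermediateField.mem_fixingSubgroup_iff] at hu'2 ⊢
    intro x hx
    have h4 := hφ ⟨u, hu⟩ ⟨x, hE'N hx⟩
    rw [← h3, hφ] at h4
    exact (h4.symm.trans (hu'2 x hx) : u x = x)
  obtain ⟨Mb, hMb1, hMb2, hMb3⟩ := exists_index_p hp hP _ hP'
  set M0 : Subgroup U := Mb.comap φ.rangeRestrict with hM0
  have hM0n : M0.Normal := hMb2.comap _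
  have hM0i : M0.index = p := by
    rw [hM0, Subgroup.index_comap_of_surjective _ φ.rangeRestrict_surjective, hMb3]
  have hM0U' : ∀ u : U, (u : K ≃ₐ[F] K) ∈ U' → u ∈ M0 := by
    intro u hu
    exact hMb1 (Subgroup.mem_map_of_mem _ hu)
  -- an element fixed by `M0` but not by `U`
  set M1 : Subgroup (N ≃ₐ[F] N) := Mb.map φ.range.subtype with hM1
  have hex : ∃ g ∈ φ.range, g ∉ M1 := by
    by_contra hcon
    push Not at hcon
    have : Mb = ⊤ := by
      rw [eq_top_iff]
      intro g _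
      obtain ⟨m, hm, hmg⟩ := hcon g g.2
      have : m = g := Subtype.ext hmg
      rwa [← this]
    rw [this, Subgroup.index_top] at hMb3
    exact hp.one_lt.ne hMb3
  obtain ⟨g, ⟨u0, rfl⟩, hg⟩ := hex
  rw [← IntermediateField.fixingSubgroup_fixedField M1,
    IntermediateField.mem_fixingSubgroup_iff] at hg
  push Not at hg
  obtain ⟨x, hx, hgx⟩ := hg
  rw [IntermediateField.mem_fixedField_iff] at hx
  set σ : K ≃ₐ[F] K := u0.1 with hσ
  have f1 : ∀ τ : U, τ ∈ M0 → (τ : K ≃ₐ[F] K) (x : K) = x := by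
    intro τ hτ
    rw [← hφ]
    congr 1
    apply hx
    exact ⟨φ.rangeRestrict τ, hτ, rfl⟩
  have f2 : σ (x : K) ≠ x := by
    intro h
    apply hgx
    apply Subtype.ext
    rw [hφ]; exact h
  have hu0 : u0 ∉ M0 := fun h => f2 (f1 u0 h)
  have f3 : ∀ τ : U, τ ∈ M0 → ∀ j : ℕ, (τ : K ≃ₐ[F] K) ((σ ^ j) (x : K)) = (σ ^ j) (x : K) := by
    intro τ hτ j
    have h1 := hM0n.conj_mem τ hτ (u0 ^ j)⁻¹
    have h2 := f1 _ h1
    have h3 : (((u0 ^ j)⁻¹ * τ * (u0 ^ j)⁻¹⁻¹ : U) : K ≃ₐ[F] K) = (σ ^ j)⁻¹ * τ * σ ^ j := by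
      push_cast
      rw [inv_inv]
    rw [h3, AlgEquiv.mul_apply, AlgEquiv.mul_apply] at h2
    have h4 := congrArg (σ ^ j) h2
    rw [← AlgEquiv.mul_apply, mul_inv_cancel, AlgEquiv.one_apply] at h4
    exact h4
  have f4 : (σ ^ p) (x : K) = x := by
    have h1 : u0 ^ p ∈ M0 := by
      have := M0.pow_index_mem u0
      rwa [hM0i] at this
    have := f1 _ h1
    rwa [Subgroup.coe_pow] at this
  have f5 : ∀ y : K, (∀ τ : U, τ ∈ M0 → (τ : K ≃ₐ[F] K) y = y) → σ y = y → y ∈ E := by
    intro y hy1 hy2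
    rw [← InfiniteGalois.fixedField_fixingSubgroup E, IntermediateField.mem_fixedField_iff]
    let St : Subgroup U := (MulAction.stabilizer (K ≃ₐ[F] K) y).comap U.subtype
    have hSt : M0 ≤ St := fun τ hτ => hy1 τ hτ
    have h1 := Subgroup.relIndex_mul_index hSt
    rw [hM0i] at h1
    have h2 : St.index = 1 := by
      have hd : St.index ∣ p := Dvd.intro_left _ h1
      rcases (Nat.dvd_prime hp).mp hd with h | h
      · exact h
      · exfalso
        rw [h] at h1
        have h3 : M0.relIndex St = 1 := by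
          have hpp := hp.pos
          exact Nat.eq_of_mul_eq_mul_right hpp (by rw [h1, one_mul])
        rw [Subgroup.relIndex_eq_one] at h3
        exact hu0 (h3 (show u0 ∈ St from hy2))
    rw [Subgroup.index_eq_one] at h2
    intro f hf
    have : (⟨f, hf⟩ : U) ∈ St := by rw [h2]; exact Subgroup.mem_top _
    exact this
  -- resolvents
  have hζ0 : ζ ≠ 0 := hζ.ne_zero hp.ne_zero
  have hpK : (p : K) ≠ 0 := by
    have : NeZero p := ⟨hp.ne_zero⟩
    exact (hζ.neZero').out
  have hUζ : ∀ τ : U, (τ : K ≃ₐ[F] K) ζ = ζ := fun τ =>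
    (IntermediateField.mem_fixingSubgroup_iff E _).mp τ.2 ζ hζE
  set B : ℕ → K := fun m => ∑ j ∈ range p, (ζ⁻¹) ^ (m * j) * (σ ^ j) (x : K) with hB
  have hσB : ∀ m, σ (B m) = ζ ^ m * B m := by
    intro m
    simp only [hB]
    rw [map_sum, mul_sum]
    have e1 : ∀ j ∈ range p, σ ((ζ⁻¹) ^ (m * j) * (σ ^ j) (x : K))
        = ζ ^ m * ((ζ⁻¹) ^ (m * (j + 1)) * (σ ^ (j + 1)) (x : K)) := by
      intro j _
      rw [map_mul, map_pow, map_inv₀, hUζ u0, ← AlgEquiv.mul_apply, ← pow_succ']
      have : (ζ⁻¹) ^ (m * (j + 1)) = (ζ⁻¹) ^ (m * j) * (ζ ^ m)⁻¹ := by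
        rw [mul_add, mul_one, pow_add, inv_pow ζ m]
      rw [this]
      field_simp
    rw [sum_congr rfl e1, ← mul_sum, ← mul_sum]
    congr 1
    have h3 := sum_range_succ (fun j => (ζ⁻¹) ^ (m * j) * (σ ^ j) (x : K)) p
    have h4 := sum_range_succ' (fun j => (ζ⁻¹) ^ (m * j) * (σ ^ j) (x : K)) p
    rw [h3] at h4
    simp only [mul_zero, pow_zero, one_mul, AlgEquiv.one_apply] at h4
    rw [f4] at h4
    have h5 : (ζ⁻¹) ^ (m * p) = 1 := by
      rw [mul_comm, pow_mul, inv_pow, hζ.pow_eq_one, inv_one, one_pow]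
    rw [h5, one_mul] at h4
    exact (add_right_cancel h4).symm
  have hsum : ∑ m ∈ range p, B m = p * (x : K) := by
    simp only [hB]
    rw [sum_comm]
    have e1 : ∀ j ∈ range p, ∑ m ∈ range p, (ζ⁻¹) ^ (m * j) * (σ ^ j) (x : K)
        = if j = 0 then p * (x : K) else 0 := by
      intro j hj
      rw [← sum_mul]
      by_cases hj0 : j = 0
      · simp [hj0]
      · rw [if_neg hj0]
        have hw : (ζ⁻¹) ^ j ≠ 1 := by
          intro h
          rw [inv_pow, inv_eq_one] at h
          exact hζ.pow_ne_one_of_pos_of_lt hj0 (mem_range.mp hj) h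
        have h1 := mul_geom_sum ((ζ⁻¹) ^ j) p
        rw [← pow_mul _ j p, mul_comm j p, pow_mul _ p j, inv_pow ζ p, hζ.pow_eq_one, inv_one,
          one_pow, sub_self] at h1
        have h2 := (mul_eq_zero.mp h1).resolve_left (sub_ne_zero.mpr hw)
        have h3 : ∑ m ∈ range p, (ζ⁻¹) ^ (m * j) = 0 := by
          rw [← h2]
          apply sum_congr rfl
          intro m _
          rw [← pow_mul, mul_comm]
        rw [h3, zero_mul]
    rw [sum_congr rfl e1, sum_ite_eq' (range p) 0]
    simp [hp.pos]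
  have hexB : ∃ m, 0 < m ∧ m < p ∧ B m ≠ 0 := by
    by_contra hcon
    push Not at hcon
    apply f2
    have h1 : ∑ m ∈ range p, B m = B 0 := by
      rw [sum_eq_single 0]
      · intro m hm hm0
        exact hcon m (Nat.pos_of_ne_zero hm0) (mem_range.mp hm)
      · intro h; exact absurd (mem_range.mpr hp.pos) h
    rw [hsum] at h1
    have h2 := hσB 0
    rw [pow_zero, one_mul, ← h1, map_mul, map_natCast] at h2
    exact mul_left_cancel₀ hpK h2
  obtain ⟨m, hm0, hmp, hBm⟩ := hexB
  have hMB : ∀ τ : U, τ ∈ M0 → (τ : K ≃ₐ[F] K) (B m) = B m := by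
    intro τ hτ
    simp only [hB]
    rw [map_sum]
    apply sum_congr rfl
    intro j _
    rw [map_mul, map_pow, map_inv₀, hUζ τ, f3 τ hτ]
  have hζm : ζ ^ m ≠ 1 := hζ.pow_ne_one_of_pos_of_lt hm0.ne' hmp
  refine ⟨B m, ?_, ?_, ?_⟩
  · rw [← InfiniteGalois.fixedField_fixingSubgroup E', IntermediateField.mem_fixedField_iff]
    intro f hf
    exact hMB ⟨f, hU'U hf⟩ (hM0U' _ hf)
  · intro h
    have h1 := (IntermediateField.mem_fixingSubgroup_iff E _).mp u0.2 _ h
    have h2 := hσB m
    rw [hσ, h1] at h2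
    apply hζm
    have h3 : (ζ ^ m - 1) * B m = 0 := by rw [sub_mul, ← h2]; ring
    exact sub_eq_zero.mp ((mul_eq_zero.mp h3).resolve_right hBm)
  · apply f5
    · intro τ hτ; rw [map_pow, hMB τ hτ]
    · rw [map_pow, hσB, mul_pow, ← pow_mul, mul_comm m p, pow_mul, hζ.pow_eq_one, one_pow,
        one_mul]

/-- induction along towers of Kummer steps. -/
theorem tower_induction {p : ℕ} (hp : p.Prime) {ζ : K} (hζ : IsPrimitiveRoot ζ p)
    (PC : PCl p F K) {E E' : IntermediateField F K} (hζE : ζ ∈ E) (hle : E ≤ E')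
    [FiniteDimensional F E'] (P : IntermediateField F K → Prop) (hE : P E)
    (hstep : ∀ (A B : IntermediateField F K) (β : K), E ≤ A → B ≤ E' → Step p A B β → P A → P B) :
    P E' := by
  have key : ∀ n : ℕ, ∀ A : IntermediateField F K, E ≤ A → A ≤ E' → P A →
      Module.finrank F E' ≤ Module.finrank F A + n → P E' := by
    intro n
    induction n with
    | zero =>
      intro A hEA hAE' hA h
      have : A = E' := IntermediateField.eq_of_le_of_finrank_le hAE' (by simpa using h)
      rwa [← this]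
    | succ n ih =>
      intro A hEA hAE' hA h
      by_cases hne : A = E'
      · rwa [← hne]
      obtain ⟨β, hβ, hβA, hβp⟩ := exists_root_between hp hζ PC (hEA hζE) hAE' hne
      obtain ⟨B, hB, hBmin⟩ := exists_step hp.ne_zero A hβA hβp
      have hBE' := hBmin E' hAE' hβ
      have : FiniteDimensional F B := Module.Finite.of_injective
        (IntermediateField.inclusion hBE').toLinearMap (IntermediateField.inclusion_injective hBE')
      refine ih B (hEA.trans hB.le) hBE' (hstep A B β hEA hBE' hB hA) ?_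
      have h1 : Module.finrank F A < Module.finrank F B := by
        refine lt_of_le_of_ne (IntermediateField.finrank_le_of_le_right hB.le) ?_
        intro he
        have := IntermediateField.eq_of_le_of_finrank_eq hB.le he
        exact hβA (this ▸ hB.mem)
      omega
  exact key (Module.finrank F E') E le_rfl hle hE (Nat.le_add_left _ _)

theorem Hn.mono {p : ℕ} (hp : p.Prime) {ζ : K} (hζ : IsPrimitiveRoot ζ p)
    (PC : PCl p F K) {E E' : IntermediateField F K} (hζE : ζ ∈ E) (hle : E ≤ E')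
    [FiniteDimensional F E'] {O : ValuationSubring K} (H : Hn p E O) : Hn p E' O := by
  have := PC.gal
  exact tower_induction hp hζ PC hζE hle (fun A => Hn p A O) H
    (fun A B β hEA _ St HA => HA.step hp hζ (hEA hζE) St)

/-- two valuation rings of `K` agreeing on `E` agree. -/
theorem agree {p : ℕ} (hp : p.Prime) {ζ : K} (hζ : IsPrimitiveRoot ζ p)
    (PC : PCl p F K) {E : IntermediateField F K} (hζE : ζ ∈ E) [FiniteDimensional F E]
    {O O' : ValuationSubring K} (H : Hn p E O) (h : ∀ x ∈ E, x ∈ O ↔ x ∈ O') : O = O' := by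
  have := PC.gal
  ext x
  have hx : IsIntegral F x := Algebra.IsIntegral.isIntegral x
  have : FiniteDimensional F (IntermediateField.adjoin F {x}) :=
    IntermediateField.adjoin.finiteDimensional hx
  have : FiniteDimensional F ↥(E ⊔ IntermediateField.adjoin F {x}) :=
    IntermediateField.finiteDimensional_sup _ _
  have key := tower_induction hp hζ PC hζE (le_sup_left : E ≤ E ⊔ IntermediateField.adjoin F {x})
    (fun A => Hn p A O ∧ ∀ y ∈ A, y ∈ O ↔ y ∈ O') ⟨H, h⟩
    (fun A B β hEA _ St HA => ⟨HA.1.step hp hζ (hEA hζE) St,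
      agree_step hp hζ (hEA hζE) HA.1 St HA.2⟩)
  exact key.2 x ((le_sup_right : IntermediateField.adjoin F {x} ≤ _)
    (IntermediateField.mem_adjoin_simple_self F x))

end Pool.Agent.Helper25.ETC
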