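import Pool.Agent.Helper25.ETCQ

/-!
# Canonical valuation rings
-/

set_option autoImplicit false

namespace Pool.Agent.Helper25.ETC

variable {k : Type*} [Field k]

/-- conclusion of the valuation theorem. -/
structure GoodRing (p : ℕ) (O : ValuationSubring k) : Prop where
  hens : ∀ x : k, O.valuation x < 1 → ∃ y : k, y ^ p = 1 - x
  unit : O.valuation (p : k) = 1
  ndiv : ∃ z : k, z ≠ 0 ∧ ∀ y : k, O.valuation (z * y ^ p) ≠ 1

theorem val_lt_one_iff {O : ValuationSubring k} {x : k} :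
    O.valuation x < 1 ↔ (x = 0 ∨ x⁻¹ ∉ O) := by
  by_cases h0 : x = 0
  · simp [h0]
  · rw [← O.valuation_le_one_iff, map_inv₀, not_le,
      one_lt_inv₀ ((Valuation.pos_iff _).mpr h0)]
    simp [h0]

theorem val_eq_one_iff {O : ValuationSubring k} {x : k} (h0 : x ≠ 0) :
    O.valuation x = 1 ↔ (x ∈ O ∧ x⁻¹ ∈ O) := by
  rw [← O.valuation_le_one_iff, ← O.valuation_le_one_iff, map_inv₀,
    inv_le_one₀ ((Valuation.pos_iff _).mpr h0)]
  exact le_antisymm_iff

theorem VD.p_unit {p : ℕ} (hp : p.Prime) {H : Set k} (D : VD (pw p k) H) (Q : QQ (pw p k) H)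
    (hp0 : (p : k) ≠ 0) :
    (D.ring Q).valuation (p : k) = 1 := by
  set O := D.ring Q with hO
  set v := O.valuation with hv
  have hle : ∀ x : k, v x ≤ 1 ↔ x ∈ O := fun x => O.valuation_le_one_iff x
  have hpO : v (p : k) ≤ 1 := by rw [hle]; exact natCast_mem O p
  by_contra hcon
  have hp1 : v (p : k) < 1 := lt_of_le_of_ne hpO hcon
  have hvp : 0 < v (p : k) := (Valuation.pos_iff _).mpr hp0
  have hA : ∀ w : k, w ≠ 0 → w ∉ H → (w ∈ AA (pw p k) H ↔ v w ≤ 1) := by
    intro w h0 hw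
    rw [hle, hO, D.mem_ring_notMem Q hw h0]
  have claim : ∀ w ∈ AA (pw p k) H, v w < v (p : k) := by
    intro w hw
    have hw0 := hw.1
    have hvw : v w < 1 := by
      rw [hv, val_lt_one_iff]
      right
      rw [hO, D.mem_ring_notMem Q (D.inv_notMem hw.2.1) (inv_ne_zero hw0)]
      exact D.inv_notMem_AA hw
    obtain ⟨-, c, hc⟩ := hw.2.2
    have hvc : v c = 1 := by
      have h1 : v (c ^ p) = 1 := by rw [hc]; exact Valuation.map_one_sub_of_lt v hvw
      rw [map_pow] at h1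
      exact (pow_eq_one_iff_of_nonneg zero_le hp.ne_zero).mp h1
    have hd : v (c - 1) ≤ 1 := by
      refine (v.map_sub _ _).trans ?_
      rw [hvc, map_one, max_self]
    set d : k := c - 1 with hdd
    obtain ⟨r, hr⟩ := exists_add_pow_prime_eq (R := O) hp 1 ⟨d, (hle d).mp hd⟩
    have hr' : c ^ p = 1 + d ^ p + p * d * (r : k) := by
      have := congrArg (fun t : O => (t : k)) hr
      push_cast at this
      rw [hdd, add_sub_cancel] at this
      rw [this, hdd]; ring
    have hrv : v (r : k) ≤ 1 := by rw [hle]; exact r.2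
    have hpr : v ((p : k) * (r : k)) ≤ v (p : k) := by
      rw [map_mul]; exact mul_le_of_le_one_right' hrv
    have hw' : w = -(d ^ p + p * d * r) := by rw [hc] at hr'; linear_combination -hr'
    have hd0 : d ≠ 0 := by
      intro e; apply hw0; rw [hw', e, zero_pow hp.ne_zero]; ring
    have hvd0 : 0 < v d := (Valuation.pos_iff _).mpr hd0
    -- v d < 1
    have hd1 : v d < 1 := by
      have h1 : v (d ^ p) < 1 := by
        have e : d ^ p = -w + -(p * r * d) := by rw [hw']; ring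
        rw [e]
        apply Valuation.map_add_lt
        · rw [Valuation.map_neg]; exact hvw
        · rw [Valuation.map_neg, map_mul]
          exact lt_of_le_of_lt (mul_le_mul' hpr hd) (by rw [mul_one]; exact hp1)
      rw [map_pow] at h1
      exact (pow_lt_one_iff_of_nonneg zero_le hp.ne_zero).mp h1
    -- v (d^(p-1)) ≤ v p
    have hdp : v (d ^ (p - 1)) ≤ v (p : k) := by
      by_contra hlt
      rw [not_le] at hlt
      have hq : v ((p : k) * r / d ^ (p - 1)) < 1 := by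
        rw [map_div₀, div_lt_one₀ (lt_trans hvp hlt)]
        exact lt_of_le_of_lt hpr hlt
      have h2 : 1 - -((p : k) * r / d ^ (p - 1)) ∈ pw p k := by
        apply D.one_sub_mem Q
        rw [← val_lt_one_iff, Valuation.map_neg]
        exact hq
      have e : w = -1 * (d ^ p * (1 - -((p : k) * r / d ^ (p - 1)))) := by
        have hpp : d ^ p = d ^ (p - 1) * d := by
          rw [← pow_succ, Nat.sub_add_cancel hp.one_le]
        rw [hw', hpp]
        field_simp
        ring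
      apply hw.2.1
      rw [e]
      exact D.sub (D.mT.mul D.neg (D.mT.mul (pow_mem_pw hd0) h2))
    have e : w = -(d * (d ^ (p - 1) + p * r)) := by
      have hpp : d ^ p = d ^ (p - 1) * d := by
        rw [← pow_succ, Nat.sub_add_cancel hp.one_le]
      rw [hw', hpp]; ring
    have h3 : v (d ^ (p - 1) + p * r) ≤ v (p : k) := by
      refine (v.map_add _ _).trans ?_
      exact max_le hdp hpr
    rw [e, Valuation.map_neg, map_mul]
    calc v d * v (d ^ (p - 1) + p * r) ≤ v d * v (p : k) := by gcongr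
      _ < 1 * v (p : k) := by
        exact mul_lt_mul_of_pos_right hd1 hvp
      _ = v (p : k) := one_mul _
  by_cases hpH : (p : k) ∈ H
  · have h1 : (p : k)⁻¹ ∈ O := by
      rw [hO]
      refine Or.inr (Or.inr ⟨D.mH.inv hpH, fun w hw => ?_⟩)
      rw [hA _ (mul_ne_zero (inv_ne_zero hp0) hw.1)
        (by rw [D.mH.mul_left (D.mH.inv hpH)]; exact hw.2.1)]
      have := claim w hw
      rw [map_mul, map_inv₀, mul_comm, ← div_eq_mul_inv]
      exact (div_le_one₀ hvp).mpr this.le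
    rw [← hle, map_inv₀, inv_le_one₀ hvp] at h1
    exact absurd hp1 (not_lt.mpr h1)
  · have h1 := (hA _ hp0 hpH).mpr hpO
    exact lt_irrefl _ (claim _ h1)

theorem VD.goodRing {p : ℕ} (hp : p.Prime) {H : Set k} (D : VD (pw p k) H) (Q : QQ (pw p k) H)
    (hp0 : (p : k) ≠ 0) (hH : ∃ z : k, z ≠ 0 ∧ z ∉ H) : GoodRing p (D.ring Q) where
  hens := by
    intro x hx
    rw [val_lt_one_iff] at hx
    exact (D.one_sub_mem Q hx).2
  unit := D.p_unit hp Q hp0
  ndiv := by
    obtain ⟨z, hz, hzH⟩ := hH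
    refine ⟨z, hz, fun y hy => ?_⟩
    have hy0 : z * y ^ p ≠ 0 := by
      intro h; rw [h, map_zero] at hy; exact zero_ne_one hy
    rw [val_eq_one_iff hy0] at hy
    have h1 := D.unit_mem Q hy0 hy.1 hy.2
    have hyp : y ≠ 0 := by
      rintro rfl; apply hy0; rw [zero_pow hp.ne_zero, mul_zero]
    rw [D.mH.mul_right (D.sub (pow_mem_pw hyp))] at h1
    exact hzH h1

/-- invariance under automorphisms. -/
theorem VD.ring_invariant {p : ℕ} {H : Set k} (D : VD (pw p k) H) (Q : QQ (pw p k) H)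
    (hσ : ∀ σ : k ≃+* k, ∀ x ∈ H, σ x ∈ H) (σ : k ≃+* k) {x : k} (hx : x ∈ D.ring Q) :
    σ x ∈ D.ring Q := by
  have hT : ∀ (τ : k ≃+* k) (y : k), y ∈ pw p k → τ y ∈ pw p k := by
    rintro τ y ⟨hy, a, rfl⟩
    exact ⟨by simpa using hy, τ a, by rw [map_pow]⟩
  have hH : ∀ (τ : k ≃+* k) (y : k), τ y ∈ H → y ∈ H := by
    intro τ y hy
    have := hσ τ.symm _ hy
    rwa [RingEquiv.symm_apply_apply] at this
  have hA : ∀ (τ : k ≃+* k) (y : k), y ∈ AA (pw p k) H → τ y ∈ AA (pw p k) H := by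
    rintro τ y ⟨h0, h1, h2⟩
    refine ⟨by simpa using h0, fun h => h1 (hH τ y h), ?_⟩
    have := hT τ _ h2
    rwa [map_sub, map_one] at this
  rcases hx with rfl | hx | ⟨hxH, hxA⟩
  · exact Or.inl (map_zero σ)
  · exact Or.inr (Or.inl (hA σ x hx))
  · refine Or.inr (Or.inr ⟨hσ σ x hxH, fun w hw => ?_⟩)
    have := hA σ _ (hxA _ (hA σ.symm w hw))
    rwa [map_mul, RingEquiv.apply_symm_apply] at this

/-- subgroup generated by a set together with `T`. -/
def gen (T S : Set k) : Set k :=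
  {z | z ≠ 0 ∧ ∀ H : Set k, IsMG H → T ⊆ H → (∀ s ∈ S, s ∈ H) → z ∈ H}

theorem gen_isMG {T : Set k} (S : Set k) : IsMG (gen T S) where
  zero := fun h => h.1 rfl
  one := ⟨one_ne_zero, fun _ hH _ _ => hH.one⟩
  mul := fun hx hy => ⟨mul_ne_zero hx.1 hy.1,
    fun H hH h1 h2 => hH.mul (hx.2 H hH h1 h2) (hy.2 H hH h1 h2)⟩
  inv := fun hx => ⟨inv_ne_zero hx.1, fun H hH h1 h2 => hH.inv (hx.2 H hH h1 h2)⟩

theorem sub_gen {T : Set k} (hT : IsMG T) (S : Set k) : T ⊆ gen T S :=
  fun _ hx => ⟨hT.ne_zero hx, fun _ _ h1 _ => h1 hx⟩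

theorem mem_gen {T S : Set k} {s : k} (hs : s ∈ S) (h0 : s ≠ 0) : s ∈ gen T S :=
  ⟨h0, fun _ _ _ h2 => h2 s hs⟩

theorem pw_map {p : ℕ} (τ : k ≃+* k) {y : k} (h : y ∈ pw p k) : τ y ∈ pw p k := by
  obtain ⟨hy, a, rfl⟩ := h
  exact ⟨by simpa using hy, τ a, by rw [map_pow]⟩

theorem pw_map_iff {p : ℕ} (τ : k ≃+* k) {y : k} : τ y ∈ pw p k ↔ y ∈ pw p k := by
  constructor
  · intro h; have := pw_map τ.symm h; rwa [RingEquiv.symm_apply_apply] at this
  · exact pw_map τ

theorem NS_map {p : ℕ} (τ : k ≃+* k) {y : k} (h : y ∈ NS (pw p k)) : τ y ∈ NS (pw p k) := by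
  obtain ⟨h0, h1, h2, h3⟩ := h
  refine ⟨by simpa using h0, by rwa [pw_map_iff], ?_, ?_⟩
  · intro hc; apply h2; rw [← pw_map_iff τ, map_sub, map_one]; exact hc
  · intro hc; apply h3; rw [← pw_map_iff τ, map_mul, map_sub, map_one, map_inv₀]; exact hc

theorem AA_map {p : ℕ} (τ : k ≃+* k) {y : k} (h : y ∈ AA (pw p k) (pw p k)) :
    τ y ∈ AA (pw p k) (pw p k) := by
  obtain ⟨h0, h1, h2⟩ := h
  refine ⟨by simpa using h0, by rwa [pw_map_iff], ?_⟩
  rw [← pw_map_iff τ, map_sub, map_one] at h2; exact h2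

theorem IIa_map {p : ℕ} (τ : k ≃+* k) {y : k} (h : y ∈ IIa (pw p k)) : τ y ∈ IIa (pw p k) := by
  obtain ⟨h0, h1⟩ := h
  refine ⟨AA_map τ h0, fun b hb hby => ?_⟩
  have hb' := AA_map τ.symm hb
  have := h1 _ hb' (by
    rw [← pw_map_iff τ, map_mul, map_inv₀, RingEquiv.apply_symm_apply]; exact hby)
  have := AA_map τ this
  rwa [map_mul, map_inv₀, RingEquiv.apply_symm_apply] at this

theorem gen_map {p : ℕ} {S : Set k} (hS : ∀ τ : k ≃+* k, ∀ x ∈ S, τ x ∈ S) (σ : k ≃+* k)
    {x : k} (hx : x ∈ gen (pw p k) S) : σ x ∈ gen (pw p k) S := by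
  refine ⟨by simpa using hx.1, fun H hH h1 h2 => ?_⟩
  have := hx.2 (σ ⁻¹' H) ⟨?_, ?_, ?_, ?_⟩ ?_ ?_
  · exact this
  · simpa using hH.zero
  · simpa using hH.one
  · intro x y hx hy
    simp only [Set.mem_preimage, map_mul] at *
    exact hH.mul hx hy
  · intro x hx
    simp only [Set.mem_preimage, map_inv₀] at *
    exact hH.inv hx
  · intro x hx; exact h1 (pw_map σ hx)
  · intro s hs; exact h2 _ (hS σ s hs)

/-- **Canonical valuation.** -/
theorem exists_canonical {p : ℕ} (hp : p.Prime) (hp0 : (p : k) ≠ 0)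
    (hneg : (-1 : k) ∈ pw p k)
    (h1 : ∃ z : k, z ≠ 0 ∧ z ∉ gen (pw p k) (NS (pw p k)))
    (h2 : p = 2 → ∃ x y : k, x ≠ 0 ∧ y ≠ 0 ∧ x ∉ pw p k ∧ y ∉ pw p k ∧ y * x⁻¹ ∉ pw p k) :
    ∃ O : ValuationSubring k, GoodRing p O ∧ ∀ (σ : k ≃+* k) (x : k), x ∈ O → σ x ∈ O := by
  have hT : IsMG (pw p k) := pw_isMG
  set H := gen (pw p k) (NS (pw p k)) with hH
  have hHm : IsMG H := gen_isMG _
  have hsub : pw p k ⊆ H := sub_gen hT _
  have hstr : ∀ z : k, z ≠ 0 → z ∉ H → 1 - z ∈ pw p k ∨ (1 - z) * z⁻¹ ∈ pw p k := by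
    intro z hz hzH
    by_contra hcon
    rw [not_or] at hcon
    exact hzH (mem_gen ⟨hz, fun h => hzH (hsub h), hcon.1, hcon.2⟩ hz)
  have D : VD (pw p k) H := ⟨hT, hHm, hsub, hneg, hstr⟩
  have hHσ : ∀ σ : k ≃+* k, ∀ x ∈ H, σ x ∈ H := by
    intro σ x hx
    exact gen_map (fun τ y hy => NS_map τ hy) σ hx
  rcases hp.eq_two_or_odd' with h | hodd
  · -- p = 2
    have sq : ∀ x : k, x ≠ 0 → x * x ∈ pw p k := by
      intro x hx; rw [h, ← pow_two]; exact pow_mem_pw hx
    by_cases hNS : ∃ b : k, b ∈ NS (pw p k)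
    · obtain ⟨b, hb⟩ := hNS
      have Q := D.QQ_of_NS sq (mem_gen hb hb.1) hb
      exact ⟨D.ring Q, D.goodRing hp Q hp0 h1, fun σ x hx => D.ring_invariant Q hHσ σ hx⟩
    · push Not at hNS
      have D0 : VD (pw p k) (pw p k) := by
        refine ⟨hT, hT, subset_rfl, hneg, fun z hz hzT => ?_⟩
        by_contra hcon
        rw [not_or] at hcon
        exact hNS z ⟨hz, hzT, hcon.1, hcon.2⟩
      obtain ⟨x, y, hx0, hy0, hx, hy, hyx⟩ := h2 h
      by_cases hII : ∃ b : k, b ∈ IIa (pw p k)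
      · obtain ⟨b, hb⟩ := hII
        have hb0 := hb.1.1
        have D2 := VD_dbl D0 hb0 (sq b hb0)
        have Q2 := QQ_dbl D0 sq hb
        refine ⟨D2.ring Q2, D2.goodRing hp Q2 hp0 ?_, fun σ z hz => D2.ring_invariant Q2 ?_ σ hz⟩
        · -- some element is outside `T ∪ bT`
          by_cases hxb : x * b⁻¹ ∈ pw p k
          · refine ⟨y, hy0, ?_⟩
            rintro (hc | hc)
            · exact hy hc
            · apply hyx
              have e : y * x⁻¹ = y * b⁻¹ / (x * b⁻¹) := by field_simp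
              rw [e]; exact hT.div hc hxb
          · refine ⟨x, hx0, ?_⟩
            rintro (hc | hc)
            · exact hx hc
            · exact hxb hc
        · intro τ z hz
          rcases hz with hz | hz
          · exact Or.inl (pw_map τ hz)
          · right
            have h3 : τ b * b⁻¹ ∈ pw p k := by
              by_contra hc
              have hτb := IIa_map τ hb
              have h4 := hb.2 _ hτb.1 hc
              have h5 : b * (τ b)⁻¹ ∉ pw p k := by
                intro hcc; apply hc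
                have := hT.inv hcc
                rwa [mul_inv, inv_inv, mul_comm] at this
              have h6 := hτb.2 _ hb.1 h5
              apply D0.inv_notMem_AA h4
              rwa [mul_inv, inv_inv, mul_comm]
            have h4 := pw_map τ hz
            rw [map_mul, map_inv₀] at h4
            have h5 := hT.mul h4 h3
            have hτ0 : τ b ≠ 0 := by simpa using hb0
            have e : τ z * (τ b)⁻¹ * (τ b * b⁻¹) = τ z * b⁻¹ := by field_simp
            rwa [e] at h5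
      · push Not at hII
        have Q0 := QQ_TT D0 hII
        exact ⟨D0.ring Q0, D0.goodRing hp Q0 hp0 ⟨x, hx0, hx⟩,
          fun σ z hz => D0.ring_invariant Q0 (fun τ y hy => pw_map τ hy) σ hz⟩
  · -- p odd
    have hodd2 : ∀ x : k, x ≠ 0 → x * x ∈ H → x ∈ H := by
      intro x hx hxx
      obtain ⟨m, hm⟩ := hodd
      have e : x ^ p = (x * x) ^ m * x := by rw [hm, ← pow_two, ← pow_mul, pow_succ]
      have h3 : (x * x) ^ m * x ∈ H := by rw [← e]; exact hsub (pow_mem_pw hx)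
      rwa [hHm.mul_left (hHm.pow hxx m)] at h3
    have Q := D.QQ_of_odd hodd2
    exact ⟨D.ring Q, D.goodRing hp Q hp0 h1, fun σ x hx => D.ring_invariant Q hHσ σ hx⟩

/-- existence of a good ring gives the hypothesis on `NS`. -/
theorem GoodRing.gen_ne {p : ℕ} (hp : p.Prime) (hneg : (-1 : k) ∈ pw p k)
    {O : ValuationSubring k} (hO : GoodRing p O) :
    ∃ z : k, z ≠ 0 ∧ z ∉ gen (pw p k) (NS (pw p k)) := by
  have hT : IsMG (pw p k) := pw_isMG
  obtain ⟨z, hz0, hz⟩ := hO.ndiv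
  refine ⟨z, hz0, fun hc => ?_⟩
  -- the subgroup of elements with value in `p`-th powers
  have key := hc.2 {x | x ≠ 0 ∧ ∃ y : k, O.valuation (x * y ^ p) = 1} ⟨?_, ?_, ?_, ?_⟩ ?_ ?_
  · obtain ⟨-, y, hy⟩ := key
    exact hz y hy
  · rintro ⟨h, -⟩; exact h rfl
  · exact ⟨one_ne_zero, 1, by simp⟩
  · rintro x y ⟨hx, a, ha⟩ ⟨hy, b, hb⟩
    refine ⟨mul_ne_zero hx hy, a * b, ?_⟩
    have e : x * y * (a * b) ^ p = x * a ^ p * (y * b ^ p) := by ring
    rw [e, map_mul, ha, hb, one_mul]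
  · rintro x ⟨hx, a, ha⟩
    refine ⟨inv_ne_zero hx, a⁻¹, ?_⟩
    have e : x⁻¹ * a⁻¹ ^ p = (x * a ^ p)⁻¹ := by rw [mul_inv, inv_pow]
    rw [e, map_inv₀, ha, inv_one]
  · rintro x ⟨hx, a, rfl⟩
    refine ⟨hx, a⁻¹, ?_⟩
    rw [← mul_pow, mul_inv_cancel₀, one_pow, map_one]
    rintro rfl; exact hx (zero_pow hp.ne_zero)
  · rintro s ⟨hs0, hsT, hs1, hs2⟩
    refine ⟨hs0, 1, ?_⟩
    rw [one_pow, mul_one]
    by_contra hne
    rcases lt_or_gt_of_ne hne with h | h
    · apply hs1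
      obtain ⟨y, hy⟩ := hO.hens s h
      refine ⟨?_, y, hy⟩
      intro e
      have : s = 1 := by linear_combination -e
      rw [this, map_one] at h; exact lt_irrefl _ h
    · apply hs2
      have h' : O.valuation s⁻¹ < 1 := by
        rw [map_inv₀]; exact inv_lt_one_of_one_lt₀ h
      obtain ⟨y, hy⟩ := hO.hens s⁻¹ h'
      have h3 : 1 - s⁻¹ ∈ pw p k := by
        refine ⟨?_, y, hy⟩
        intro e
        have : s⁻¹ = 1 := by linear_combination -e
        rw [this, map_one] at h'; exact lt_irrefl _ h'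
      have e : (1 - s) * s⁻¹ = -1 * (1 - s⁻¹) := by field_simp; ring
      rw [e]; exact hT.mul hneg h3

end Pool.Agent.Helper25.ETC
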