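import Pool.Agent.Helper25.ETCFrozen

/-!
# The conclusion of the conjecture from a Galois-invariant valuation ring
-/

set_option autoImplicit false

namespace Pool.Agent.Helper25.ETC

theorem etc_of_concl {p : ℕ} {F : Type} [Field F] {K : IntermediateField F (AlgebraicClosure F)}
    (hC : Concl F K) :
      ∃ (n : ℕ) (H : Fin n → Subgroup (↥K ≃ₐ[F] ↥K)), n = 1 ∧ (∀ i, H i = ⊤) ∧
        (∀ i, IsClosed (H i : Set (↥K ≃ₐ[F] ↥K))) ∧
        (∀ (P : Type) [Group P] [Finite P], (∃ k : ℕ, Nat.card P = p ^ k) →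
          ∀ φ : (i : Fin n) → (H i →* P), (∀ i, IsOpen ((φ i).ker : Set (H i))) →
            ∃! ψ : (↥K ≃ₐ[F] ↥K) →* P,
              IsOpen (ψ.ker : Set (↥K ≃ₐ[F] ↥K)) ∧
              ∀ i, ∀ x : H i, ψ (x : ↥K ≃ₐ[F] ↥K) = φ i x) ∧
        (∀ i, ∃ (Γ : Type) (_ : LinearOrderedCommGroupWithZero Γ) (w : Valuation (↥K) Γ),
            (∀ σ : ↥K ≃ₐ[F] ↥K, σ ∈ H i ↔ ∀ x : ↥K, (w (σ x) ≤ 1 ↔ w x ≤ 1)) ∧
            ∃ σ ∈ H i, σ ≠ 1 ∧ ∀ x : ↥K, w x ≤ 1 → w (σ x - x) < 1) := by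
  obtain ⟨O, hO, σ, hσ1, hσ⟩ := hC
  refine ⟨1, fun _ => ⊤, rfl, fun _ => rfl, fun _ => isClosed_univ, ?_, fun _ => ?_⟩
  · intro P _ _ _ φ hφ
    refine ⟨(φ 0).comp (Subgroup.topEquiv.symm.toMonoidHom), ⟨?_, ?_⟩, ?_⟩
    · have h1 : IsOpen (Subtype.val '' ((φ 0).ker : Set (⊤ : Subgroup (↥K ≃ₐ[F] ↥K)))) :=
        (isOpen_univ.isOpenEmbedding_subtypeVal).isOpenMap _ (hφ 0)
      convert h1
      ext x
      constructor
      · intro hx
        exact ⟨⟨x, Subgroup.mem_top x⟩, hx, rfl⟩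
      · rintro ⟨y, hy, rfl⟩
        exact hy
    · intro i x
      rw [Subsingleton.elim i 0]
      rfl
    · rintro ψ ⟨-, hψ⟩
      ext x
      exact hψ 0 ⟨x, Subgroup.mem_top x⟩
  · refine ⟨O.ValueGroup, inferInstance, O.valuation, fun τ => ?_, σ, Subgroup.mem_top σ, hσ1,
      fun x hx => ?_⟩
    · simp only [Subgroup.mem_top, true_iff]
      intro x
      rw [O.valuation_le_one_iff, O.valuation_le_one_iff]
      exact (hO τ x).symm
    · exact hσ x ((O.valuation_le_one_iff x).mp hx)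

end Pool.Agent.Helper25.ETC
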