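import Mathlib

/-!
# Counting alternating forms that vanish on a plane through every point
-/

set_option autoImplicit false

namespace Pool.Agent.Helper25.ETC

open Finset Module

variable {k V : Type*} [Field k] [AddCommGroup V] [Module k V]

/-- the space of alternating forms. -/
def AltF (k V : Type*) [Field k] [AddCommGroup V] [Module k V] : Submodule k (V → V → k) where
  carrier := {B | (∀ x y z, B (x + y) z = B x z + B y z) ∧ (∀ (c : k) x z, B (c • x) z = c * B x z) ∧
    (∀ x y z, B x (y + z) = B x y + B x z) ∧ (∀ (c : k) x z, B x (c • z) = c * B x z) ∧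
    ∀ x, B x x = 0}
  add_mem' := by
    rintro B C ⟨h1, h2, h3, h4, h5⟩ ⟨g1, g2, g3, g4, g5⟩
    refine ⟨fun x y z => ?_, fun c x z => ?_, fun x y z => ?_, fun c x z => ?_, fun x => ?_⟩
    · simp only [Pi.add_apply]; rw [h1, g1]; ring
    · simp only [Pi.add_apply]; rw [h2, g2]; ring
    · simp only [Pi.add_apply]; rw [h3, g3]; ring
    · simp only [Pi.add_apply]; rw [h4, g4]; ring
    · simp only [Pi.add_apply]; rw [h5, g5]; ring
  zero_mem' := ⟨by intros; simp, by intros; simp, by intros; simp, by intros; simp,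
    by intros; simp⟩
  smul_mem' := by
    rintro r B ⟨h1, h2, h3, h4, h5⟩
    refine ⟨fun x y z => ?_, fun c x z => ?_, fun x y z => ?_, fun c x z => ?_, fun x => ?_⟩
    · simp only [Pi.smul_apply, smul_eq_mul]; rw [h1]; ring
    · simp only [Pi.smul_apply, smul_eq_mul]; rw [h2]; ring
    · simp only [Pi.smul_apply, smul_eq_mul]; rw [h3]; ring
    · simp only [Pi.smul_apply, smul_eq_mul]; rw [h4]; ring
    · simp only [Pi.smul_apply, smul_eq_mul]; rw [h5]; ring

theorem altF_neg {B : V → V → k} (hB : B ∈ AltF k V) (x y : V) : B x y = - B y x := by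
  obtain ⟨h1, h2, h3, h4, h5⟩ := hB
  have h := h5 (x + y)
  rw [h1, h3, h3, h5, h5, zero_add, add_zero] at h
  exact eq_neg_of_add_eq_zero_left h

theorem finrank_altF [FiniteDimensional k V] :
    finrank k (AltF k V) ≤ (finrank k V).choose 2 := by
  set n := finrank k V with hn
  let b : Basis (Fin n) k V := finBasis k V
  let f : AltF k V →ₗ[k] ((i : Fin n) × Fin i → k) :=
    { toFun := fun B s => (B : V → V → k) (b s.1) (b ⟨s.2, s.2.2.trans s.1.2⟩)
      map_add' := by intro B C; funext s; simp
      map_smul' := by intro c B; funext s; simp }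
  have hf : Function.Injective f := by
    rw [injective_iff_map_eq_zero]
    intro B hB
    have h0 := B.2
    obtain ⟨h1, h2, h3, h4, h5⟩ := h0
    let B' : V →ₗ[k] V →ₗ[k] k := LinearMap.mk₂ k (B : V → V → k) h1 (by intro c x z; rw [h2]; simp)
      h3 (by intro c x z; rw [h4]; simp)
    have hB' : B' = 0 := by
      apply b.ext
      intro i
      apply b.ext
      intro j
      have key : ∀ i j : Fin n, j < i → (B : V → V → k) (b i) (b j) = 0 := by
        intro i j hij
        have := congrFun hB ⟨i, ⟨j, hij⟩⟩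
        exact this
      have key2 : (B : V → V → k) (b i) (b j) = 0 := by
        rcases lt_trichotomy i j with h | h | h
        · rw [altF_neg B.2, key j i h, neg_zero]
        · rw [h, h5]
        · exact key i j h
      exact key2
    apply Subtype.ext
    funext x y
    have := LinearMap.congr_fun (LinearMap.congr_fun hB' x) y
    exact this
  have h1 := LinearMap.finrank_le_finrank_of_injective hf
  refine h1.trans (le_of_eq ?_)
  rw [finrank_fintype_fun_eq_card, Fintype.card_sigma]
  simp only [Fintype.card_fin]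
  rw [Fin.sum_univ_eq_sum_range (fun i => i) n, Finset.sum_range_id, Nat.choose_two_right]

/-- wedge of two functionals. -/
def wdg (φ ψ : V →ₗ[k] k) : V → V → k := fun x y => φ x * ψ y - φ y * ψ x

theorem wdg_apply (φ ψ : V →ₗ[k] k) (x y : V) : wdg φ ψ x y = φ x * ψ y - φ y * ψ x := rfl

theorem wdg_mem (φ ψ : V →ₗ[k] k) : wdg φ ψ ∈ AltF k V := by
  refine ⟨fun x y z => ?_, fun c x z => ?_, fun x y z => ?_, fun c x z => ?_, fun x => ?_⟩ <;>
    simp only [wdg_apply, map_add, map_smul, smul_eq_mul] <;> ring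

/-- evaluation at a pair, as a functional on alternating forms. -/
def evp (a b : V) : AltF k V →ₗ[k] k where
  toFun := fun B => (B : V → V → k) a b
  map_add' := by intro B C; simp
  map_smul' := by intro c B; simp

theorem evp_apply (a b : V) (B : AltF k V) : evp a b B = (B : V → V → k) a b := rfl

/-- if `ev(a,b)` is a multiple of a nonzero multiple of `ev(a',b')` then `a'` is in the plane
spanned by `a` and `b`. -/
theorem mem_plane {a b a' b' : V} (hb' : b' ∉ Submodule.span k {a'}) {c c' : k} (hc' : c' ≠ 0)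
    (h : c • (evp a b : AltF k V →ₗ[k] k) = c' • evp a' b') : a' ∈ Submodule.span k {a, b} := by
  by_contra ha'
  obtain ⟨φ, hφ1, hφ2⟩ := Submodule.exists_le_ker_of_notMem ha'
  obtain ⟨ψ, hψ1, hψ2⟩ := Submodule.exists_le_ker_of_notMem hb'
  have hφa : φ a = 0 := hφ2 (Submodule.subset_span (by simp))
  have hφb : φ b = 0 := hφ2 (Submodule.subset_span (by simp))
  have hψa' : ψ a' = 0 := hψ2 (Submodule.subset_span (by simp))
  have h1 := LinearMap.congr_fun h ⟨wdg φ ψ, wdg_mem φ ψ⟩
  simp only [LinearMap.smul_apply, evp_apply, wdg_apply, hφa, hφb, hψa', zero_mul, mul_zero,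
    sub_zero, smul_eq_mul] at h1
  exact mul_ne_zero hc' (mul_ne_zero hφ1 hψ1) h1.symm

theorem evp_ne {a b : V} (ha : a ≠ 0) (hb : b ∉ Submodule.span k {a}) :
    (evp a b : AltF k V →ₗ[k] k) ≠ 0 := by
  intro h
  have h1 : a ∈ Submodule.span k {(0 : V), 0} := by
    refine mem_plane (a := 0) (b := 0) hb (c := 0) (c' := 1) one_ne_zero ?_
    rw [h]; simp
  simp at h1
  exact ha h1

theorem numeric {q n r : ℕ} (hq : 2 ≤ q) (hn : 2 ≤ n) (hr : r ≤ n - 2)
    (h : (q ^ n - 1) * (q - 1) ≤ (q ^ 2 - 1) * (q ^ r - 1)) : False := by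
  obtain ⟨m, rfl⟩ : ∃ m, n = m + 2 := ⟨n - 2, by omega⟩
  have hr' : r ≤ m := by omega
  obtain ⟨s, rfl⟩ : ∃ s, q = s + 1 := ⟨q - 1, by omega⟩
  have hs : 1 ≤ s := by omega
  have h1 : (s + 1) ^ r ≤ (s + 1) ^ m := Nat.pow_le_pow_right (by omega) hr'
  have h2 : 1 ≤ (s + 1) ^ m := Nat.one_le_pow _ _ (by omega)
  have h2' : 1 ≤ (s + 1) ^ r := Nat.one_le_pow _ _ (by omega)
  obtain ⟨t, ht⟩ : ∃ t, (s + 1) ^ m = t + 1 := ⟨(s + 1) ^ m - 1, by omega⟩
  obtain ⟨u, hu⟩ : ∃ u, (s + 1) ^ r = u + 1 := ⟨(s + 1) ^ r - 1, by omega⟩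
  have hut : u ≤ t := by omega
  have e1 : (s + 1) ^ (m + 2) - 1 = (t + 1) * (s + 1) ^ 2 - 1 := by rw [pow_add, ht]
  have e2 : (s + 1) ^ 2 - 1 = s * (s + 2) := by
    have : (s + 1) ^ 2 = s * (s + 2) + 1 := by ring
    omega
  have e3 : (t + 1) * (s + 1) ^ 2 - 1 = t * (s + 1) ^ 2 + s * (s + 2) := by
    have : (t + 1) * (s + 1) ^ 2 = t * (s + 1) ^ 2 + s * (s + 2) + 1 := by ring
    omega
  rw [e1, e3, hu, e2, Nat.add_sub_cancel, Nat.add_sub_cancel] at h
  have h3 : s * (s + 2) * u ≤ s * (s + 2) * t := Nat.mul_le_mul_left _ hut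
  nlinarith [Nat.zero_le t, Nat.zero_le s, mul_pos (by omega : 0 < s) (by omega : 0 < s + 2)]

/-- **Counting theorem.** -/
theorem count_forms [Fintype k] [FiniteDimensional k V] (A : Submodule k (V → V → k))
    (hA : A ≤ AltF k V)
    (hcov : ∀ a : V, a ≠ 0 → ∃ b, b ∉ Submodule.span k {a} ∧ ∀ B ∈ A, B a b = 0)
    (hn : 1 ≤ finrank k V) : finrank k A ≤ (finrank k V - 1).choose 2 := by
  classical
  by_contra hcon
  push Not at hcon
  set n := finrank k V with hn'
  set q := Fintype.card k with hq
  have hq2 : 2 ≤ q := Fintype.one_lt_card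
  have : Finite V := Module.finite_of_finite k
  have := Fintype.ofFinite V
  set W : Submodule k (AltF k V) := A.comap (AltF k V).subtype with hW
  have hWA : finrank k W = finrank k A :=
    (Submodule.comapSubtypeEquivOfLe hA).finrank_eq
  set R := W.dualAnnihilator with hR
  have h1 : finrank k W + finrank k R = finrank k (AltF k V) :=
    Subspace.finrank_add_finrank_dualAnnihilator_eq W
  have h2 := finrank_altF (k := k) (V := V)
  rw [← hn'] at h2
  have h3 : n.choose 2 = (n - 1).choose 2 + (n - 1) := by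
    obtain ⟨m, hm⟩ : ∃ m, n = m + 1 := ⟨n - 1, by omega⟩
    rw [hm, Nat.add_sub_cancel, Nat.choose_succ_succ' m 1, Nat.choose_one_right, add_comm]
  have h4 : finrank k R + 2 ≤ n := by omega
  -- choose partners
  have hch : ∀ a : {a : V // a ≠ 0}, ∃ b, b ∉ Submodule.span k {(a : V)} ∧
      ∀ B ∈ A, B a b = 0 := fun a => hcov a a.2
  choose b hb hbA using hch
  have hmem : ∀ a : {a : V // a ≠ 0}, ∀ c : kˣ, (c : k) • (evp (a : V) (b a) : AltF k V →ₗ[k] k)
      ∈ R := by
    intro a c
    apply R.smul_mem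
    rw [hR, Submodule.mem_dualAnnihilator]
    intro B hB
    exact hbA a B hB
  have hne : ∀ a : {a : V // a ≠ 0}, ∀ c : kˣ,
      (⟨(c : k) • evp (a : V) (b a), hmem a c⟩ : R) ≠ 0 := by
    intro a c h
    have h5 := congrArg Subtype.val h
    exact smul_ne_zero c.ne_zero (evp_ne a.2 (hb a)) h5
  have : Finite (AltF k V) := Module.finite_of_finite k
  have : Finite R := Module.finite_of_finite k
  have := Fintype.ofFinite R
  let g : {a : V // a ≠ 0} × kˣ → {r : R // r ≠ 0} := fun s =>
    ⟨⟨(s.2 : k) • evp (s.1 : V) (b s.1), hmem s.1 s.2⟩, hne s.1 s.2⟩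
  have hfib : ∀ r : {r : R // r ≠ 0}, #{s : {a : V // a ≠ 0} × kˣ | g s = r} ≤ q ^ 2 - 1 := by
    intro r
    rcases Finset.eq_empty_or_nonempty {s : {a : V // a ≠ 0} × kˣ | g s = r} with h0 | ⟨s0, hs0⟩
    · rw [h0]; simp
    · rw [mem_filter] at hs0
      set P := Submodule.span k {(s0.1 : V), b s0.1} with hP
      have : Finite P := Module.finite_of_finite k
      have := Fintype.ofFinite P
      have hcardP : Fintype.card P ≤ q ^ 2 := by
        rw [Module.card_eq_pow_finrank (K := k) (V := P)]
        apply Nat.pow_le_pow_right (by omega)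
        have h6 := finrank_span_finset_le_card (R := k) ({(s0.1 : V), b s0.1} : Finset V)
        rw [Finset.coe_pair] at h6
        exact h6.trans (Finset.card_le_two)
      have hinj : #{s : {a : V // a ≠ 0} × kˣ | g s = r} ≤ Fintype.card {x : P // x ≠ 0} := by
        have hmemP : ∀ s : {a : V // a ≠ 0} × kˣ, g s = r → (s.1 : V) ∈ P := by
          intro s hs
          have h7 : g s0 = g s := hs0.2.trans hs.symm
          have h8 := congrArg (fun z : {r : R // r ≠ 0} => ((z : R) : Dual k (AltF k V))) h7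
          exact mem_plane (hb s.1) s.2.ne_zero h8
        rw [← Fintype.card_coe]
        let e : {s // s ∈ ({s : {a : V // a ≠ 0} × kˣ | g s = r} : Finset _)} →
            {x : P // x ≠ 0} := fun s =>
          ⟨⟨(s.1.1 : V), hmemP s.1 (mem_filter.mp s.2).2⟩, fun h => s.1.1.2 (by
            have := congrArg Subtype.val h; exact this)⟩
        apply Fintype.card_le_of_injective e
        intro s s' hss
        have h9 : (s.1.1 : V) = s'.1.1 := congrArg (fun z : {x : P // x ≠ 0} => ((z : P) : V)) hss
        have h10 : s.1.1 = s'.1.1 := Subtype.ext h9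
        have h11 : g s.1 = g s'.1 := (mem_filter.mp s.2).2.trans (mem_filter.mp s'.2).2.symm
        have h12 := congrArg (fun z : {r : R // r ≠ 0} => ((z : R) : Dual k (AltF k V))) h11
        have h14 : (s.1.2 : k) = s'.1.2 := by
          have hne' := evp_ne (k := k) s.1.1.2 (hb s.1.1)
          obtain ⟨B, hB⟩ : ∃ B : AltF k V, evp (s.1.1 : V) (b s.1.1) B ≠ 0 := by
            by_contra hall
            push Not at hall
            exact hne' (LinearMap.ext hall)
          simp only [g] at h12
          rw [← h10] at h12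
          have h13 := LinearMap.congr_fun h12 B
          rw [LinearMap.smul_apply, LinearMap.smul_apply, smul_eq_mul, smul_eq_mul] at h13
          exact mul_right_cancel₀ hB h13
        apply Subtype.ext
        exact Prod.ext h10 (Units.ext h14)
      refine hinj.trans ?_
      have h15 : Fintype.card {x : P // x ≠ 0} = Fintype.card P - 1 := by
        rw [Fintype.card_subtype_compl, Fintype.card_subtype_eq]
      rw [h15]
      omega
  have hcount := Finset.card_le_mul_card_image_of_maps_to (f := g)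
    (s := (univ : Finset ({a : V // a ≠ 0} × kˣ))) (t := univ) (fun _ _ => mem_univ _)
    (q ^ 2 - 1) (fun r _ => hfib r)
  rw [Finset.card_univ, Finset.card_univ, Fintype.card_prod, Fintype.card_units,
    Fintype.card_subtype_compl, Fintype.card_subtype_eq, Fintype.card_subtype_compl,
    Fintype.card_subtype_eq, Module.card_eq_pow_finrank (K := k) (V := V),
    Module.card_eq_pow_finrank (K := k) (V := R)] at hcount
  exact numeric hq2 (by omega) (by omega : finrank k R ≤ n - 2) hcount

end Pool.Agent.Helper25.ETC
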