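import Pool.Agent.Helper25.ETCRigid

/-!
# Transfer between `E` and `K`
-/

set_option autoImplicit false

namespace Pool.Agent.Helper25.ETC

open Polynomial Finset

variable {F K : Type*} [Field F] [Field K] [Algebra F K] {p : ℕ} {ζ : K}

/-- extension of a valuation ring from a subfield. -/
theorem exists_extension (E : IntermediateField F K) (OE : ValuationSubring E) :
    ∃ O : ValuationSubring K, ∀ x : E, (x : K) ∈ O ↔ x ∈ OE := by
  let f : OE →+* K := (algebraMap E K).comp OE.subtype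
  obtain ⟨A, hA, hloc⟩ := IsLocalRing.exists_factor_valuationRing f
  refine ⟨A, fun x => ⟨fun hx => ?_, fun hx => hA ⟨x, hx⟩⟩⟩
  by_contra hcon
  have hx0 : x ≠ 0 := by rintro rfl; exact hcon OE.zero_mem
  have hinv : x⁻¹ ∈ OE := (OE.mem_or_inv_mem x).resolve_left hcon
  have hu : IsUnit ((f.codRestrict A.toSubring hA) ⟨x⁻¹, hinv⟩) := by
    rw [isUnit_iff_exists_inv]
    refine ⟨⟨(x : K), hx⟩, ?_⟩
    apply Subtype.ext
    have : ((x⁻¹ : E) : K) * (x : K) = 1 := by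
      rw [← IntermediateField.coe_mul, inv_mul_cancel₀ hx0]; rfl
    exact this
  have hu2 : IsUnit (⟨x⁻¹, hinv⟩ : OE) := hloc.map_nonunit _ hu
  obtain ⟨y, hy⟩ := isUnit_iff_exists_inv.mp hu2
  have h1 : x⁻¹ * (y : E) = 1 := congrArg Subtype.val hy
  have h2 : (y : E) = x := by
    have := congrArg (fun t => x * t) h1
    simp only [mul_one, mul_inv_cancel_left₀ hx0] at this
    exact this
  apply hcon
  rw [← h2]; exact y.2

theorem mem_pw_iff {E : IntermediateField F K} {z : E} : z ∈ pw p E ↔ (z : K) ∈ TT p E := by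
  constructor
  · rintro ⟨hz, y, rfl⟩
    refine ⟨?_, (y : K), y.2, by push_cast; rfl⟩
    intro h; apply hz; exact_mod_cast h
  · rintro ⟨hz, y, hy, hyz⟩
    refine ⟨?_, ⟨y, hy⟩, ?_⟩
    · rintro rfl; exact hz rfl
    · apply Subtype.ext; push_cast; exact hyz

theorem val_lt_iff {E : IntermediateField F K} {OE : ValuationSubring E} {O : ValuationSubring K}
    (h : ∀ x : E, (x : K) ∈ O ↔ x ∈ OE) (x : E) :
    O.valuation (x : K) < 1 ↔ OE.valuation x < 1 := by
  rw [val_lt_one_iff, val_lt_one_iff, ← h]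
  push_cast
  rw [ZeroMemClass.coe_eq_zero]

theorem val_eq_iff {E : IntermediateField F K} {OE : ValuationSubring E} {O : ValuationSubring K}
    (h : ∀ x : E, (x : K) ∈ O ↔ x ∈ OE) (x : E) :
    O.valuation (x : K) = 1 ↔ OE.valuation x = 1 := by
  by_cases h0 : x = 0
  · rw [h0]; simp
  · rw [val_eq_one_iff h0, val_eq_one_iff (by exact_mod_cast h0), ← h, ← h]
    push_cast
    rfl

/-- some value is not divisible by `p`. -/
def Nd (p : ℕ) (E : IntermediateField F K) (O : ValuationSubring K) : Prop :=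
  ∃ z ∈ E, z ≠ 0 ∧ ∀ y ∈ E, O.valuation (z * y ^ p) ≠ 1

theorem goodRing_iff {E : IntermediateField F K} {OE : ValuationSubring E}
    {O : ValuationSubring K} (h : ∀ x : E, (x : K) ∈ O ↔ x ∈ OE) :
    GoodRing p OE ↔ (Hn p E O ∧ Nd p E O) := by
  constructor
  · rintro ⟨h1, h2, z, hz0, hz⟩
    refine ⟨⟨?_, ?_⟩, (z : K), z.2, by exact_mod_cast hz0, ?_⟩
    · have := (val_eq_iff h (p : E)).mpr h2
      push_cast at this; exact this
    · intro x hx hv
      obtain ⟨y, hy⟩ := h1 ⟨x, hx⟩ ((val_lt_iff h ⟨x, hx⟩).mp hv)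
      refine ⟨(y : K), y.2, ?_⟩
      have := congrArg (fun t : E => (t : K)) hy
      push_cast at this
      exact this
    · intro y hy hv
      apply hz ⟨y, hy⟩
      rw [← val_eq_iff h]
      push_cast
      exact hv
  · rintro ⟨⟨h1, h2⟩, z, hzE, hz0, hz⟩
    refine ⟨?_, ?_, ⟨z, hzE⟩, ?_, ?_⟩
    · intro x hx
      obtain ⟨y, hy, hyx⟩ := h2 x x.2 ((val_lt_iff h x).mpr hx)
      refine ⟨⟨y, hy⟩, ?_⟩
      apply Subtype.ext
      push_cast
      exact hyx
    · rw [← val_eq_iff h]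
      push_cast
      exact h1
    · intro h0; exact hz0 (congrArg Subtype.val h0)
    · intro y hy
      apply hz y y.2
      rw [← val_eq_iff h] at hy
      push_cast at hy
      exact hy

section

variable {E L : IntermediateField F K} {α : K}

/-- independence is preserved in a Kummer step. -/
theorem ind_step (Cx : Ctx p F K ζ) (hζE : ζ ∈ E) (hneg : (-1 : K) ∈ TT p E)
    (St : Step p E L α) {c : K} (hc : c ∈ E) (hc0 : c ≠ 0)
    (hcα : ∀ j : ℤ, ¬ cg (TT p E) c ((α ^ p) ^ j)) : Ind p (TT p L) c α := by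
  have hp := Cx.hp
  have hTL : IsMG (TT p L) := TT_isMG
  have hα0 : α ≠ 0 := by rintro rfl; exact St.notMem E.zero_mem
  refine ⟨hc0, hα0, fun a b hab => ?_⟩
  have hb : (p : ℤ) ∣ b := by
    by_contra hb
    exact smul_notMem_HH Cx hζE hneg St (zpow_mem hc a) (zpow_ne_zero _ hc0) hb
      (TT_sub_HH Cx hab)
  refine ⟨?_, hb⟩
  by_contra ha
  rw [hTL.mul_right (TT_zpow St.mem hα0 hb)] at hab
  have hcL : c ∈ TT p L := hTL.root hp hc0 (pow_mem_TT (St.le hc) hc0) ha hab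
  obtain ⟨-, y, hy, hyc⟩ := hcL
  obtain ⟨i, -, d, hd, hdd⟩ := kummer_mem Cx hζE St hy (by rw [hyc]; exact hc)
  apply hcα i
  unfold cg
  have hd0 : d ≠ 0 := by
    rintro rfl
    apply hc0
    rw [← hyc, hdd, mul_zero, zero_pow hp.ne_zero]
  have e : c / (α ^ p) ^ (i : ℤ) = d ^ p := by
    rw [← hyc, hdd, zpow_natCast, mul_pow]
    have : (α ^ p) ^ i ≠ 0 := pow_ne_zero _ (pow_ne_zero _ hα0)
    field_simp
    ring
  rw [e]; exact pow_mem_TT hd hd0

/-- two independent classes exist. -/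
def Dim2 (p : ℕ) (E : IntermediateField F K) : Prop :=
  ∃ x ∈ E, ∃ y ∈ E, Ind p (TT p E) x y

theorem Dim2.step (Cx : Ctx p F K ζ) (hζE : ζ ∈ E) (hneg : (-1 : K) ∈ TT p E)
    (St : Step p E L α) (h : Dim2 p E) : Dim2 p L := by
  obtain ⟨x, hx, y, hy, hi⟩ := h
  have hTE : IsMG (TT p E) := TT_isMG
  have hα0 : α ≠ 0 := by rintro rfl; exact St.notMem E.zero_mem
  have key : ∃ c ∈ E, c ≠ 0 ∧ ∀ j : ℤ, ¬ cg (TT p E) c ((α ^ p) ^ j) := by
    by_contra hcon
    push Not at hcon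
    obtain ⟨i, hi1⟩ := hcon x hx hi.1
    obtain ⟨j, hj1⟩ := hcon y hy hi.2.1
    have h1 := cg.zpow hTE hi1 j
    have h2 := cg.zpow hTE hj1 (-i)
    have h3 := cg.mul hTE h1 h2
    rw [← zpow_mul, ← zpow_mul, ← zpow_add₀ (pow_ne_zero _ hα0)] at h3
    have e : i * j + j * -i = 0 := by ring
    rw [e, zpow_zero] at h3
    unfold cg at h3
    rw [div_one] at h3
    have h4 := hi.2.2 _ _ h3
    apply hi.left hTE Cx.hp
    have h5 : (p : ℤ) ∣ i := (Int.dvd_neg).mp h4.2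
    rw [hi1.mem_iff hTE]
    exact TT_zpow St.pow_mem (pow_ne_zero _ hα0) h5
  obtain ⟨c, hc, hc0, hcα⟩ := key
  exact ⟨c, St.le hc, α, St.mem, ind_step Cx hζE hneg St hc hc0 hcα⟩

theorem Dim2.mono (Cx : Ctx p F K ζ) {E' : IntermediateField F K} (hζE : ζ ∈ E)
    (hneg : (-1 : K) ∈ TT p E) (hle : E ≤ E') [FiniteDimensional F E'] (h : Dim2 p E) :
    Dim2 p E' :=
  tower_induction Cx.hp Cx.hζ Cx.pc hζE hle (fun A => Dim2 p A) h
    (fun _ _ _ hEA _ St HA => HA.step Cx (hEA hζE) (TT_mono hEA hneg) St)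

/-- above a rigid element the canonical subgroup is proper. -/
theorem gen_ne_of_rig (Cx : Ctx p F K ζ) (hζE : ζ ∈ E) (hneg : (-1 : K) ∈ TT p E)
    (St : Step p E L α) (R : Rig p E ζ (α ^ p)) {c : K} (hc : c ∈ E) (hc0 : c ≠ 0)
    (hcα : ∀ j : ℤ, ¬ cg (TT p E) c ((α ^ p) ^ j)) :
    ∃ z : L, z ≠ 0 ∧ z ∉ gen (pw p L) (NS (pw p L)) := by
  have hp := Cx.hp
  have : Fact p.Prime := ⟨hp⟩
  have hTL : IsMG (TT p L) := TT_isMG
  have hζL := St.le hζE
  have hnegL : (-1 : K) ∈ TT p L := TT_mono St.le hneg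
  have hα0 : α ≠ 0 := by rintro rfl; exact St.notMem E.zero_mem
  have hcL : c ∈ L := St.le hc
  have hind := ind_step Cx hζE hneg St hc hc0 hcα
  have hpwMG : IsMG (pw p L) := pw_isMG
  have hneg' : (-1 : L) ∈ pw p L := by rw [mem_pw_iff]; push_cast; exact hnegL
  by_cases hcase : ∃ w : L, w ∈ NS (pw p L) ∧ (w : K) ∉ HH p E L
  · obtain ⟨w, hw, hwH⟩ := hcase
    have hw' := hw
    obtain ⟨hw0, hwT, hw1, hw2⟩ := hw
    have hw0K : (w : K) ≠ 0 := by exact_mod_cast hw0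
    have Rw := rig_up Cx hζE hneg St R w.2 hw0K hwH
    rw [mem_pw_iff] at hwT hw1 hw2
    push_cast at hw1 hw2
    have h1w : 1 - (w : K) ≠ 0 := by
      intro h
      apply hwT
      have : (w : K) = 1 := by linear_combination -h
      rw [this]; exact hTL.one
    obtain ⟨i, hi⟩ := Rw.rig _ (one_sub_mem_ZZ Cx w.2 h1w)
    have hi0 : ¬ (p : ℤ) ∣ i := by
      intro hd
      apply hw1
      rw [hi.mem_iff hTL]
      exact TT_zpow w.2 hw0K hd
    have hi1 : ¬ (p : ℤ) ∣ 1 - i := by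
      intro hd
      apply hw2
      have h3 : cg (TT p L) ((1 - (w : K)) * (w : K)⁻¹) ((w : K) ^ (i - 1)) := by
        rw [zpow_sub₀ hw0K, zpow_one, div_eq_mul_inv]
        exact cg.mul hTL hi (cg.refl hTL (inv_ne_zero hw0K))
      rw [h3.mem_iff hTL]
      apply TT_zpow w.2 hw0K
      have := (Int.dvd_neg).mpr hd
      rwa [neg_sub] at this
    have tot : ∀ z : L, z ≠ 0 → z ∉ pw p L → ∃ i : ℤ, Io (pw p L) z i := by
      intro z hz0 hzT
      rw [mem_pw_iff] at hzT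
      obtain ⟨j, hj⟩ := tot_of_rig Cx hζL hnegL Rw hi hi0 hi1 z.2 (by exact_mod_cast hz0) hzT
      refine ⟨j, ?_⟩
      unfold Io cg
      rw [mem_pw_iff]
      push_cast
      exact hj
    have hkap : ∀ z ∈ NS (pw p L), ∃ j : ℤ, z * w ^ j ∈ pw p L := by
      intro z hz
      exact kappa_lemma hpwMG hneg' (fun x hx => pow_mem_pw hx) tot hw' hz
    -- the cyclic group generated by `w`
    set Cy : Set L := {z | z ≠ 0 ∧ ∃ j : ℤ, z * w ^ j ∈ pw p L} with hCy
    have hCyMG : IsMG Cy := by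
      refine ⟨fun h => h.1 rfl, ⟨one_ne_zero, 0, by simpa using hpwMG.one⟩, ?_, ?_⟩
      · rintro x y ⟨hx, i, hxi⟩ ⟨hy, j, hyj⟩
        refine ⟨mul_ne_zero hx hy, i + j, ?_⟩
        have e : x * y * w ^ (i + j) = x * w ^ i * (y * w ^ j) := by
          rw [zpow_add₀ hw0]; ring
        rw [e]; exact hpwMG.mul hxi hyj
      · rintro x ⟨hx, i, hxi⟩
        refine ⟨inv_ne_zero hx, -i, ?_⟩
        have e : x⁻¹ * w ^ (-i) = (x * w ^ i)⁻¹ := by rw [zpow_neg, mul_inv]
        rw [e]; exact hpwMG.inv hxi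
    have hgen : ∀ z ∈ gen (pw p L) (NS (pw p L)), z ∈ Cy := by
      intro z hz
      refine hz.2 Cy hCyMG ?_ ?_
      · intro t ht; exact ⟨hpwMG.ne_zero ht, 0, by simpa using ht⟩
      · intro s hs; exact ⟨hs.1, hkap s hs⟩
    by_contra hcon
    push Not at hcon
    have hc' : (⟨c, hcL⟩ : L) ≠ 0 := fun h => hc0 (congrArg Subtype.val h)
    have hα' : (⟨α, St.mem⟩ : L) ≠ 0 := fun h => hα0 (congrArg Subtype.val h)
    obtain ⟨-, j, hj⟩ := hgen _ (hcon _ hc')
    obtain ⟨-, l, hl⟩ := hgen _ (hcon _ hα')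
    rw [mem_pw_iff] at hj hl
    replace hj : c * (w : K) ^ j ∈ TT p L := hj
    replace hl : α * (w : K) ^ l ∈ TT p L := hl
    have h5 : c ^ l * α ^ (-j) ∈ TT p L := by
      have e : c ^ l * α ^ (-j) = (c * (w : K) ^ j) ^ l * (α * (w : K) ^ l) ^ (-j) := by
        rw [mul_zpow, mul_zpow, ← zpow_mul, ← zpow_mul]
        have : (w : K) ^ (l * -j) = ((w : K) ^ (j * l))⁻¹ := by
          rw [← zpow_neg]; congr 1; ring
        rw [this]
        have := zpow_ne_zero (j * l) hw0K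
        field_simp
      rw [e]; exact hTL.mul (hTL.zpow hj l) (hTL.zpow hl (-j))
    have h6 := hind.2.2 _ _ h5
    apply hind.left hTL hp
    have h7 : (p : ℤ) ∣ j := (Int.dvd_neg).mp h6.2
    rwa [hTL.mul_right (TT_zpow w.2 hw0K h7)] at hj
  · push Not at hcase
    refine ⟨⟨α, St.mem⟩, fun h => hα0 (congrArg Subtype.val h), fun hcon => ?_⟩
    have hHH : IsMG (HH p E L) := HH_isMG
    have h1p : ¬ (p : ℤ) ∣ 1 := by
      intro h
      exact hp.one_lt.ne' (by exact_mod_cast Int.eq_one_of_dvd_one (by positivity) h)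
    have := hcon.2 {z : L | (z : K) ∈ HH p E L} ⟨?_, ?_, ?_, ?_⟩ ?_ ?_
    · have h2 := smul_notMem_HH Cx hζE hneg St E.one_mem one_ne_zero h1p
      rw [one_mul, zpow_one] at h2
      exact h2 this
    · intro h; exact hHH.zero h
    · exact hHH.one
    · intro x y hx hy; exact hHH.mul hx hy
    · intro x hx; exact hHH.inv hx
    · intro t ht; exact TT_sub_HH Cx (mem_pw_iff.mp ht)
    · intro s hs; exact hcase s hs

end

end Pool.Agent.Helper25.ETC
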