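import Mathlib

/-!
# A lemma on modules over `ℤ[X]/(X^p - 1)`
-/

set_option autoImplicit false

namespace Pool.Agent.Helper25.ETC

open Polynomial Finset

theorem poly_identity {p : ℕ} (hp : p.Prime) :
    ∃ h : ℤ[X], (X - 1 : ℤ[X]) ^ (p - 1) = ∑ i ∈ range p, X ^ i + C (p : ℤ) * h := by
  have : Fact p.Prime := ⟨hp⟩
  have key : (X - 1 : (ZMod p)[X]) ^ (p - 1) = ∑ i ∈ range p, X ^ i := by
    rw [← cyclotomic_prime (ZMod p) p]
    have := cyclotomic_mul_prime_eq_pow_of_not_dvd (ZMod p) (p := p) (n := 1)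
      (by rw [Nat.dvd_one]; exact hp.ne_one)
    rw [one_mul, cyclotomic_one] at this
    rw [this]
  have h2 : C (p : ℤ) ∣ (X - 1 : ℤ[X]) ^ (p - 1) - ∑ i ∈ range p, X ^ i := by
    rw [C_dvd_iff_dvd_coeff]
    intro i
    have h3 : (((X - 1 : ℤ[X]) ^ (p - 1) - ∑ i ∈ range p, X ^ i).map
        (Int.castRingHom (ZMod p))) = 0 := by
      simp only [Polynomial.map_sub, Polynomial.map_pow, map_X, Polynomial.map_one,
        Polynomial.map_sum]
      rw [key, sub_self]
    have h4 := congrArg (fun q => q.coeff i) h3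
    simp only [coeff_map, coeff_zero] at h4
    exact (ZMod.intCast_zmod_eq_zero_iff_dvd _ p).mp h4
  obtain ⟨h, hh⟩ := h2
  exact ⟨h, by rw [← hh]; ring⟩

/-- additive version -/
theorem module_lemma {M : Type*} [AddCommGroup M] {p : ℕ} (hp : p.Prime) (f : Module.End ℤ M)
    (A S : AddSubgroup M) (hA : ∀ x ∈ A, f x ∈ A) (hS : ∀ x ∈ S, f x ∈ S)
    (h : ∀ x ∈ A, ∃ s ∈ S, ∃ y ∈ A, x = s + (f y - y))
    (hN : ∀ x ∈ A, ∑ j ∈ range p, (f ^ j) x ∈ S) (hpow : ∀ x ∈ A, p • x ∈ S) :
    ∀ x ∈ A, x ∈ S := by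
  have step : ∀ n : ℕ, ∀ x ∈ A, ∃ s ∈ S, ∃ y ∈ A, x = s + ((f - 1) ^ n) y := by
    intro n
    induction n with
    | zero => intro x hx; exact ⟨0, S.zero_mem, x, hx, by simp⟩
    | succ n ih =>
      intro x hx
      obtain ⟨s, hs, y, hy, rfl⟩ := ih x hx
      obtain ⟨t, ht, z, hz, rfl⟩ := h y hy
      refine ⟨s + ((f - 1) ^ n) t, S.add_mem hs ?_, z, hz, ?_⟩
      · clear hx
        induction n with
        | zero => simpa using ht
        | succ n ih2 =>
          have : ∀ m : ℕ, ((f - 1) ^ m) t ∈ S := by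
            intro m
            induction m with
            | zero => simpa using ht
            | succ m ih3 =>
              rw [pow_succ', Module.End.mul_apply]
              exact S.sub_mem (hS _ ih3) ih3
          exact this _
      · rw [map_add, pow_succ, Module.End.mul_apply, ← add_assoc]; rfl
  intro x hx
  obtain ⟨s, hs, y, hy, rfl⟩ := step (p - 1) x hx
  obtain ⟨q, hq⟩ := poly_identity hp
  have h1 := congrArg (fun P => (aeval f P) y) hq
  simp only [map_pow, map_sub, map_one, aeval_X, map_add, map_sum, map_mul, aeval_C] at h1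
  have hA' : ∀ P : ℤ[X], (aeval f P) y ∈ A := by
    intro P
    induction P using Polynomial.induction_on' with
    | add P Q hP hQ => rw [map_add]; exact A.add_mem hP hQ
    | monomial n a =>
      rw [aeval_monomial]
      have : ∀ m : ℕ, (f ^ m) y ∈ A := by
        intro m
        induction m with
        | zero => simpa using hy
        | succ m ih => rw [pow_succ', Module.End.mul_apply]; exact hA _ ih
      have h5 : ((algebraMap ℤ (Module.End ℤ M)) a * f ^ n) y = a • ((f ^ n) y) := rfl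
      rw [h5]
      exact A.zsmul_mem (this n) a
  rw [h1]
  apply S.add_mem hs
  have h6 : (∑ i ∈ range p, f ^ i + (algebraMap ℤ (Module.End ℤ M)) (p : ℤ) * aeval f q) y
      = ∑ i ∈ range p, (f ^ i) y + p • ((aeval f q) y) := by
    rw [LinearMap.add_apply, LinearMap.sum_apply]
    congr 1
    have : ((algebraMap ℤ (Module.End ℤ M)) (p : ℤ) * aeval f q) y
      = (p : ℤ) • ((aeval f q) y) := rfl
    rw [this, natCast_zsmul]
  rw [h6]
  exact S.add_mem (hN y hy) (hpow _ (hA' q))

/-- multiplicative version -/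
theorem group_lemma {G : Type*} [CommGroup G] {p : ℕ} (hp : p.Prime) (f : G →* G)
    (A S : Subgroup G) (hA : ∀ x ∈ A, f x ∈ A) (hS : ∀ x ∈ S, f x ∈ S)
    (h : ∀ x ∈ A, ∃ s ∈ S, ∃ y ∈ A, x = s * (f y / y))
    (hN : ∀ x ∈ A, ∏ j ∈ range p, (f^[j]) x ∈ S) (hpow : ∀ x ∈ A, x ^ p ∈ S) :
    ∀ x ∈ A, x ∈ S := by
  set g : Module.End ℤ (Additive G) := (MonoidHom.toAdditive f).toIntLinearMap with hg
  have hit : ∀ (j : ℕ) (x : G), (g ^ j) (Additive.ofMul x) = Additive.ofMul ((f^[j]) x) := by
    intro j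
    induction j with
    | zero => intro x; rfl
    | succ j ih =>
      intro x
      rw [pow_succ, Module.End.mul_apply, Function.iterate_succ_apply]
      exact ih (f x)
  intro x hx
  refine module_lemma hp g (Subgroup.toAddSubgroup A) (Subgroup.toAddSubgroup S)
    (fun y hy => hA y hy) (fun y hy => hS y hy) ?_ ?_ (fun y hy => hpow y hy)
    (Additive.ofMul x) hx
  · intro y hy
    obtain ⟨s, hs, z, hz, hyz⟩ := h y.toMul hy
    exact ⟨Additive.ofMul s, hs, Additive.ofMul z, hz, congrArg Additive.ofMul hyz⟩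
  · intro y hy
    have := hN y.toMul hy
    have e : ∑ j ∈ range p, (g ^ j) y = Additive.ofMul (∏ j ∈ range p, (f^[j]) y.toMul) := by
      rw [ofMul_prod]
      apply sum_congr rfl
      intro j _
      exact hit j y.toMul
    rw [e]
    exact this

end Pool.Agent.Helper25.ETC
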