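import Pool.Agent.Helper25.ETCRel
import Pool.Agent.Helper25.ETCGroup

/-!
# Growth of the number of `p`-power classes in Kummer steps
-/

set_option autoImplicit false

namespace Pool.Agent.Helper25.ETC

open Polynomial Finset Module

theorem pow_pred_eq {p : ℕ} (hp : p.Prime) {M : Type*} [AddCommGroup M] (hM : ∀ x : M, p • x = 0)
    (f : Module.End ℤ M) : (f - 1) ^ (p - 1) = ∑ j ∈ range p, f ^ j := by
  obtain ⟨q, hq⟩ := poly_identity hp
  have h1 := congrArg (fun P => aeval f P) hq
  simp only [map_pow, map_sub, map_one, aeval_X, map_add, map_sum, map_mul, aeval_C] at h1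
  rw [h1]
  ext x
  rw [LinearMap.add_apply]
  have : ((algebraMap ℤ (Module.End ℤ M)) (p : ℤ) * aeval f q) x
      = (p : ℤ) • ((aeval f q) x) := rfl
  rw [this, natCast_zsmul, hM, add_zero]

theorem growth_lemma {p : ℕ} [Fact p.Prime] {Q M : Type*} [AddCommGroup Q] [AddCommGroup M]
    [Module (ZMod p) Q] [Module (ZMod p) M] [FiniteDimensional (ZMod p) Q]
    [FiniteDimensional (ZMod p) M] (hM : ∀ x : M, p • x = 0)
    (f : M →ₗ[ZMod p] M) (i : Q →ₗ[ZMod p] M) (N : M →ₗ[ZMod p] Q)
    (h1 : ∀ x, i (N x) = ∑ j ∈ range p, (f ^ j) x) (h2 : ∀ q, f (i q) = i q)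
    (h3 : ∀ x, N (f x) = N x) (h4 : ∀ q, N (i q) = 0)
    (h5 : finrank (ZMod p) (LinearMap.ker i) ≤ 1) {w : M} (hw : i (N w) ≠ 0)
    (h6 : 2 ≤ finrank (ZMod p) (LinearMap.range N)) :
    finrank (ZMod p) Q + (p - 1) ≤ finrank (ZMod p) M := by
  have hp : p.Prime := Fact.out
  set D : M →ₗ[ZMod p] M := f - 1 with hD
  have hDi : ∀ q, D (i q) = 0 := fun q => by
    rw [hD, LinearMap.sub_apply, h2, Module.End.one_apply, sub_self]
  -- `D ^ (p-1) = i N`
  have hDw : (D ^ (p - 1)) w = i (N w) := by
    rw [h1]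
    have key := pow_pred_eq hp hM (f.restrictScalars ℤ)
    have e1 : ∀ (g : M →ₗ[ZMod p] M) (n : ℕ) (x : M),
        ((g.restrictScalars ℤ : Module.End ℤ M) ^ n) x = (g ^ n) x := by
      intro g n
      induction n with
      | zero => intro x; rfl
      | succ n ih => intro x; rw [pow_succ, pow_succ, Module.End.mul_apply, Module.End.mul_apply]; exact ih _
    have key2 := congrArg (fun g => g w) key
    simp only [LinearMap.sum_apply] at key2
    have e2 : (f.restrictScalars ℤ : Module.End ℤ M) - 1 = D.restrictScalars ℤ := rfl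
    rw [e2, e1] at key2
    rw [key2]
    exact sum_congr rfl (fun j _ => e1 f j w)
  have hDpow : ∀ m, 1 ≤ m → ∀ q, (D ^ m) (i q) = 0 := by
    intro m hm q
    obtain ⟨m, rfl⟩ := Nat.exists_eq_add_of_le hm
    rw [add_comm, pow_succ, Module.End.mul_apply, hDi, map_zero]
  have hDbig : ∀ m, p ≤ m → (D ^ m) w = 0 := by
    intro m hm
    obtain ⟨c, hc⟩ := Nat.exists_eq_add_of_le hm
    have : m = (c + 1) + (p - 1) := by have := hp.one_lt; omega
    rw [this, pow_add, Module.End.mul_apply, hDw]
    exact hDpow _ (by omega) _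
  have hND : ∀ x, N (D x) = 0 := fun x => by
    rw [hD, LinearMap.sub_apply, map_sub, h3, Module.End.one_apply, sub_self]
  let Φ : ((Fin (p - 2) → ZMod p) × Q) →ₗ[ZMod p] M :=
    (∑ j : Fin (p - 2), ((LinearMap.proj j : (Fin (p - 2) → ZMod p) →ₗ[ZMod p] ZMod p).smulRight
      ((D ^ ((j : ℕ) + 1)) w))).coprod i
  have hΦ : ∀ c q, Φ (c, q) = (∑ j : Fin (p - 2), c j • ((D ^ ((j : ℕ) + 1)) w)) + i q := by
    intro c q
    simp only [Φ, LinearMap.coprod_apply, LinearMap.sum_apply, LinearMap.smulRight_apply,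
      LinearMap.proj_apply]
  have hzero : ∀ c q, Φ (c, q) = 0 → c = 0 := by
    intro c q h0
    rw [hΦ] at h0
    have main : ∀ n : ℕ, ∀ hn : n < p - 2, c ⟨n, hn⟩ = 0 := by
      intro n
      induction n using Nat.strong_induction_on with
      | _ n ih =>
        intro hn
        have h7 := congrArg (D ^ (p - 2 - n)) h0
        rw [map_add, hDpow _ (by omega), add_zero, map_sum, map_zero] at h7
        rw [Finset.sum_eq_single (⟨n, hn⟩ : Fin (p - 2))] at h7
        · rw [map_smul, ← Module.End.mul_apply, ← pow_add] at h7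
          have e3 : p - 2 - n + (n + 1) = p - 1 := by omega
          simp only at h7
          rw [e3, hDw] at h7
          exact (smul_eq_zero.mp h7).resolve_right hw
        · rintro ⟨m, hm⟩ - hne
          rw [map_smul, ← Module.End.mul_apply, ← pow_add]
          by_cases hmn : m < n
          · rw [ih m hmn hm, zero_smul]
          · have hmn' : m ≠ n := fun h => hne (Fin.ext h)
            simp only
            rw [hDbig _ (by omega), smul_zero]
        · intro h; exact absurd (Finset.mem_univ _) h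
    funext ⟨n, hn⟩
    exact main n hn
  have hker : finrank (ZMod p) (LinearMap.ker Φ) ≤ 1 := by
    let g : LinearMap.ker Φ →ₗ[ZMod p] LinearMap.ker i :=
      { toFun := fun x => ⟨x.1.2, by
          have hx : Φ (x.1.1, x.1.2) = 0 := x.2
          have h8 := hzero _ _ hx
          rw [hΦ, h8] at hx
          simpa using hx⟩
        map_add' := fun x y => rfl
        map_smul' := fun c x => rfl }
    refine (LinearMap.finrank_le_finrank_of_injective (f := g) ?_).trans h5
    intro x y hxy
    have hx : Φ (x.1.1, x.1.2) = 0 := x.2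
    have hy : Φ (y.1.1, y.1.2) = 0 := y.2
    have h8 := hzero _ _ hx
    have h9 := hzero _ _ hy
    have h10 : x.1.2 = y.1.2 := congrArg Subtype.val hxy
    apply Subtype.ext
    exact Prod.ext (h8.trans h9.symm) h10
  have hrange : LinearMap.range Φ ≤ LinearMap.ker N := by
    rintro _ ⟨⟨c, q⟩, rfl⟩
    rw [LinearMap.mem_ker, hΦ, map_add, h4, add_zero, map_sum]
    apply Finset.sum_eq_zero
    intro j _
    rw [map_smul, pow_succ', Module.End.mul_apply, hND, smul_zero]
  have r1 := LinearMap.finrank_range_add_finrank_ker Φ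
  have r2 := Submodule.finrank_mono hrange
  have r3 := LinearMap.finrank_range_add_finrank_ker N
  rw [Module.finrank_prod, Module.finrank_fin_fun] at r1
  have := hp.two_le
  omega

end Pool.Agent.Helper25.ETC
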