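import Pool.Agent.Helper25.ETCGrow

/-!
# Growth of the number of `p`-power classes in towers
-/

set_option autoImplicit false

namespace Pool.Agent.Helper25.ETC

open Polynomial Finset Module

variable {F K : Type*} [Field F] [Field K] [Algebra F K] {p : ℕ} {ζ : K}

/-- the map on classes induced by a homomorphism of unit groups. -/
def vmap (p : ℕ) {A B : IntermediateField F K} (g : Aˣ →* Bˣ) : VV p A →+ VV p B :=
  MonoidHom.toAdditive (QuotientGroup.map (powMonoidHom p : Aˣ →* Aˣ).range
    (powMonoidHom p : Bˣ →* Bˣ).range g (by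
      rintro _ ⟨y, rfl⟩
      exact ⟨g y, (map_pow g y p).symm⟩))

theorem vmap_mkc {A B : IntermediateField F K} (g : Aˣ →* Bˣ) (x : Aˣ) :
    vmap p g (mkc p A x) = mkc p B (g x) := rfl

theorem mkc_one {A : IntermediateField F K} : mkc p A 1 = 0 := rfl

theorem mkc_prod {A : IntermediateField F K} {ι : Type*} (s : Finset ι) (u : ι → Aˣ) :
    mkc p A (∏ j ∈ s, u j) = ∑ j ∈ s, mkc p A (u j) := by
  classical
  induction s using Finset.induction_on with
  | empty => rfl
  | insert i s hi ih => rw [prod_insert hi, sum_insert hi, mkc_mul, ih]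

theorem mkc_eq_of_val {A : IntermediateField F K} {x y : Aˣ}
    (h : ((x : A) : K) = ((y : A) : K)) : mkc p A x = mkc p A y := by
  have : x = y := Units.ext (Subtype.ext h)
  rw [this]

/-- a unit from an element. -/
def mku {A : IntermediateField F K} (x : K) (h : x ∈ A) (h0 : x ≠ 0) : Aˣ :=
  Units.mk0 ⟨x, h⟩ (fun h' => h0 (congrArg Subtype.val h'))

theorem mku_val {A : IntermediateField F K} (x : K) (h : x ∈ A) (h0 : x ≠ 0) :
    ((mku x h h0 : A) : K) = x := rfl

theorem unit_ne {A : IntermediateField F K} (x : Aˣ) : ((x : A) : K) ≠ 0 :=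
  fun h => x.ne_zero (Subtype.ext h)

theorem mem_span_of_zpow {A : IntermediateField F K} [Fact p.Prime] [Module (ZMod p) (VV p A)]
    {x y : Aˣ} {j : ℤ} (h : mkc p A y = j • mkc p A x) : mkc p A y ∈ Submodule.span (ZMod p) {mkc p A x} := by
  rw [Submodule.mem_span_singleton]
  exact ⟨(j : ZMod p), by rw [h]; exact Int.cast_smul_eq_zsmul (ZMod p) j _⟩

theorem growth_step (Cx : Ctx p F K ζ) {A B : IntermediateField F K} {β : K} (hζA : ζ ∈ A)
    (hneg : (-1 : K) ∈ TT p A) (St : Step p A B β) (hR : ¬ Rig p A ζ (β ^ p))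
    (hfin : Finite (PC p B)) :
    p ^ (p - 1) * Nat.card (PC p A) ≤ Nat.card (PC p B) := by
  classical
  have := Cx.pc.gal
  have hp := Cx.hp
  have hζ := Cx.hζ
  have : Fact p.Prime := ⟨hp⟩
  have iA : Module (ZMod p) (VV p A) := AddCommGroup.zmodModule nsmul_zero
  have iB : Module (ZMod p) (VV p B) := AddCommGroup.zmodModule nsmul_zero
  obtain ⟨σ, S⟩ := exists_stepAut (p := p) hp hζ hζA St.notMem St.pow_mem
  have hβ0 : β ≠ 0 := by rintro rfl; exact St.notMem A.zero_mem
  have hσB : ∀ n : ℕ, ∀ x ∈ B, (σ ^ n) x ∈ B := fun n x hx => step_stable St S hζA hx n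
  -- the three homomorphisms
  let gi : Aˣ →* Bˣ := Units.map (IntermediateField.inclusion St.le : A →* B)
  let gf : Bˣ →* Bˣ :=
    { toFun := fun x => mku (σ ((x : B) : K)) (by simpa using hσB 1 _ (x : B).2)
        ((_root_.map_ne_zero _).mpr (unit_ne x))
      map_one' := by
        apply Units.ext; apply Subtype.ext
        change σ 1 = 1
        exact map_one σ
      map_mul' := by
        intro x y
        apply Units.ext; apply Subtype.ext
        change σ (((x : B) : K) * ((y : B) : K)) = σ ((x : B) : K) * σ ((y : B) : K)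
        exact map_mul σ _ _ }
  let gN : Bˣ →* Aˣ :=
    { toFun := fun x => mku (nm p σ ((x : B) : K)) (nm_mem St S hζ hζA hp (x : B).2)
        (nm_ne_zero (unit_ne x))
      map_one' := by
        apply Units.ext; apply Subtype.ext
        change nm p σ 1 = 1
        exact nm_one
      map_mul' := by
        intro x y
        apply Units.ext; apply Subtype.ext
        change nm p σ (((x : B) : K) * ((y : B) : K)) = nm p σ ((x : B) : K) * nm p σ ((y : B) : K)
        exact nm_mul _ _ }
  have gi_val : ∀ x, ((gi x : B) : K) = ((x : A) : K) := fun x => rfl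
  have gf_val : ∀ x, ((gf x : B) : K) = σ ((x : B) : K) := fun x => rfl
  have gN_val : ∀ x, ((gN x : A) : K) = nm p σ ((x : B) : K) := fun x => rfl
  let i : VV p A →ₗ[ZMod p] VV p B := (vmap p gi).toZModLinearMap p
  let f : VV p B →ₗ[ZMod p] VV p B := (vmap p gf).toZModLinearMap p
  let N : VV p B →ₗ[ZMod p] VV p A := (vmap p gN).toZModLinearMap p
  have hi : ∀ x, i (mkc p A x) = mkc p B (gi x) := fun x => rfl
  have hf : ∀ x, f (mkc p B x) = mkc p B (gf x) := fun x => rfl
  have hN : ∀ x, N (mkc p B x) = mkc p A (gN x) := fun x => rfl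
  have hfn : ∀ (n : ℕ) (x : Bˣ), (f ^ n) (mkc p B x) =
      mkc p B (mku ((σ ^ n) ((x : B) : K)) (hσB n _ (x : B).2)
        ((_root_.map_ne_zero _).mpr (unit_ne x))) := by
    intro n
    induction n with
    | zero => intro x; exact mkc_eq_of_val rfl
    | succ n ih =>
      intro x
      rw [pow_succ, Module.End.mul_apply, hf, ih]
      apply mkc_eq_of_val
      rw [mku_val, mku_val, gf_val, ← AlgEquiv.mul_apply, ← pow_succ]
  -- the kernel of `i`
  have hkeri : ∀ u, i u = 0 → u ∈ Submodule.span (ZMod p)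
      {mkc p A (mku (β ^ p) St.pow_mem (pow_ne_zero _ hβ0))} := by
    intro u hu
    obtain ⟨x, rfl⟩ := mkc_surj u
    rw [hi, mkc_eq_zero, gi_val] at hu
    obtain ⟨hx0, y, hyB, hy⟩ := hu
    obtain ⟨m, -, d, hd, hyd⟩ := kummer_mem Cx hζA St hyB (by rw [hy]; exact (x : A).2)
    have hd0 : d ≠ 0 := by
      rintro rfl
      rw [mul_zero] at hyd
      rw [hyd, zero_pow hp.ne_zero] at hy
      exact hx0 hy.symm
    have h7 : mkc p A x = (m : ℤ) • mkc p A (mku (β ^ p) St.pow_mem (pow_ne_zero _ hβ0)) := by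
      rw [← mkc_zpow]
      apply (cg_iff_mkc _ _).mp
      refine ⟨?_, d, hd, ?_⟩
      · exact div_ne_zero hx0 (unit_ne _)
      · have h8 : ((((mku (β ^ p) St.pow_mem (pow_ne_zero _ hβ0)) ^ (m : ℤ) : Aˣ) : A) : K) =
            (β ^ p) ^ m := by
          rw [zpow_natCast, Units.val_pow_eq_pow_val]
          rfl
        rw [h8, ← hy, hyd]
        have : (β ^ p) ^ m ≠ 0 := pow_ne_zero _ (pow_ne_zero _ hβ0)
        rw [eq_div_iff this]
        ring
    exact mem_span_of_zpow h7
  have hfinV : Finite (VV p B) := hfin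
  have fB : FiniteDimensional (ZMod p) (VV p B) := Module.Finite.of_finite
  have fk : FiniteDimensional (ZMod p) (LinearMap.ker i) := by
    have : LinearMap.ker i ≤ Submodule.span (ZMod p)
      {mkc p A (mku (β ^ p) St.pow_mem (pow_ne_zero _ hβ0))} := fun u hu => hkeri u hu
    exact Submodule.finiteDimensional_of_le this
  have fA : FiniteDimensional (ZMod p) (VV p A) := by
    have hr : FiniteDimensional (ZMod p) (LinearMap.range i) := inferInstance
    have e := LinearMap.quotKerEquivRange i
    have : Module.Finite (ZMod p) (VV p A ⧸ LinearMap.ker i) := Module.Finite.equiv e.symm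
    exact Module.Finite.of_submodule_quotient (LinearMap.ker i)
  have h5 : finrank (ZMod p) (LinearMap.ker i) ≤ 1 := by
    have h7 : LinearMap.ker i ≤ Submodule.span (ZMod p)
      {mkc p A (mku (β ^ p) St.pow_mem (pow_ne_zero _ hβ0))} := fun u hu => hkeri u hu
    refine (Submodule.finrank_mono h7).trans ?_
    refine (finrank_span_le_card _).trans ?_
    simp
  -- a norm outside the group generated by `β ^ p`
  have hbT : β ^ p ∉ TT p A := by
    rintro ⟨-, y, hy, hyp⟩
    obtain ⟨j, -, hj⟩ := exists_zeta_pow hp.pos hζ hyp.symm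
    apply St.notMem
    rw [hj]
    exact A.mul_mem (pow_mem hζA j) hy
  have hnr : ∃ c ∈ ZZ p A ζ (β ^ p), ∀ i : ℤ, ¬ cg (TT p A) c ((β ^ p) ^ i) := by
    by_contra hcon
    push Not at hcon
    exact hR ⟨St.pow_mem, pow_ne_zero _ hβ0, hbT, hcon⟩
  obtain ⟨c, hc, hci⟩ := hnr
  obtain ⟨y, hyB, hyc⟩ := nm_of_rel Cx hζA St S hc.2.2
  have hy0 : y ≠ 0 := by
    rintro rfl
    apply hc.2.1
    rw [← hyc]
    unfold nm
    apply Finset.prod_eq_zero (Finset.mem_range.mpr hp.pos)
    simp
  set w : VV p B := mkc p B (mku y hyB hy0) with hw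
  have hNw : N w = mkc p A (mku c hc.1 hc.2.1) := by
    rw [hw, hN]
    apply mkc_eq_of_val
    rw [gN_val, mku_val, mku_val, hyc]
  have hcb : ∀ r : ZMod p, mkc p A (mku c hc.1 hc.2.1) ≠
      r • mkc p A (mku (β ^ p) St.pow_mem (pow_ne_zero _ hβ0)) := by
    intro r hr
    apply hci (r.val : ℤ)
    have h2 : r • mkc p A (mku (β ^ p) St.pow_mem (pow_ne_zero _ hβ0)) =
        (r.val : ℤ) • mkc p A (mku (β ^ p) St.pow_mem (pow_ne_zero _ hβ0)) := by
      conv_lhs => rw [← ZMod.natCast_zmod_val r]
      rw [natCast_zsmul]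
      exact Nat.cast_smul_eq_nsmul (ZMod p) _ _
    rw [h2, ← mkc_zpow] at hr
    have h3 := (cg_iff_mkc _ _).mpr hr
    have h4 : ((((mku (β ^ p) St.pow_mem (pow_ne_zero _ hβ0)) ^ (r.val : ℤ) : Aˣ) : A) : K) =
        (β ^ p) ^ (r.val : ℤ) := by
      rw [Units.val_zpow_eq_zpow_val]
      exact map_zpow₀ (algebraMap A K) _ _
    rw [h4] at h3
    exact h3
  have hiw : i (N w) ≠ 0 := by
    intro h0
    have h7 := hkeri _ h0
    rw [hNw, Submodule.mem_span_singleton] at h7
    obtain ⟨r, hr⟩ := h7
    exact hcb r hr.symm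
  have h6 : 2 ≤ finrank (ZMod p) (LinearMap.range N) := by
    obtain ⟨η, hη, hη0, hηN⟩ := exists_delta Cx hζA hneg S
    have hmem : mkc p A (mku (β ^ p) St.pow_mem (pow_ne_zero _ hβ0)) ∈ LinearMap.range N := by
      refine ⟨mkc p B (mku (η * β) (B.mul_mem (St.le hη) St.mem) (mul_ne_zero hη0 hβ0)), ?_⟩
      rw [hN]
      apply mkc_eq_of_val
      rw [gN_val, mku_val, mku_val, hηN]
    have hlt : Submodule.span (ZMod p)
        {mkc p A (mku (β ^ p) St.pow_mem (pow_ne_zero _ hβ0))} < LinearMap.range N := by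
      refine lt_of_le_of_ne ?_ ?_
      · rw [Submodule.span_singleton_le_iff_mem]; exact hmem
      · intro he
        have h7 : N w ∈ LinearMap.range N := ⟨w, rfl⟩
        rw [← he, hNw, Submodule.mem_span_singleton] at h7
        obtain ⟨r, hr⟩ := h7
        exact hcb r hr.symm
    have h8 := Submodule.finrank_lt_finrank_of_lt hlt
    rw [finrank_span_singleton] at h8
    · omega
    · rw [Ne, mkc_eq_zero]
      exact hbT
  have key := growth_lemma (p := p) (Q := VV p A) (M := VV p B) nsmul_zero f i N ?_ ?_ ?_ ?_ h5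
    hiw h6
  · have cA : Nat.card (PC p A) = p ^ finrank (ZMod p) (VV p A) := by
      have h1 : Nat.card (VV p A) = Nat.card (ZMod p) ^ finrank (ZMod p) (VV p A) :=
        Module.natCard_eq_pow_finrank
      rwa [Nat.card_zmod] at h1
    have cB : Nat.card (PC p B) = p ^ finrank (ZMod p) (VV p B) := by
      have h1 : Nat.card (VV p B) = Nat.card (ZMod p) ^ finrank (ZMod p) (VV p B) :=
        Module.natCard_eq_pow_finrank
      rwa [Nat.card_zmod] at h1
    rw [cA, cB, ← pow_add]
    exact Nat.pow_le_pow_right hp.pos (by omega)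
  · intro u
    obtain ⟨x, rfl⟩ := mkc_surj u
    rw [hN, hi, sum_congr rfl (fun j _ => hfn j x), ← mkc_prod]
    apply mkc_eq_of_val
    rw [gi_val, gN_val]
    have h9 : ∀ (s : Finset ℕ) (v : ℕ → Bˣ), (((∏ j ∈ s, v j : Bˣ) : B) : K) =
        ∏ j ∈ s, ((v j : B) : K) := by
      intro s v
      rw [Units.coe_prod]
      exact map_prod (algebraMap B K) _ _
    rw [h9]
    rfl
  · intro u
    obtain ⟨x, rfl⟩ := mkc_surj u
    rw [hi, hf]
    apply mkc_eq_of_val
    rw [gf_val, gi_val]
    exact S.fix _ (x : A).2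
  · intro u
    obtain ⟨x, rfl⟩ := mkc_surj u
    rw [hf, hN, hN]
    apply mkc_eq_of_val
    rw [gN_val, gN_val, gf_val]
    have h1 := step_pow St S hζ hζA (x : B).2
    unfold nm
    have h2 : ∀ j : ℕ, (σ ^ j) (σ ((x : B) : K)) = (σ ^ (j + 1)) ((x : B) : K) := by
      intro j; rw [← AlgEquiv.mul_apply, ← pow_succ]
    rw [prod_congr rfl (fun j _ => h2 j)]
    have h3 := prod_range_succ (fun j => (σ ^ j) ((x : B) : K)) p
    have h4 := prod_range_succ' (fun j => (σ ^ j) ((x : B) : K)) p
    rw [h3, h1, pow_zero, AlgEquiv.one_apply] at h4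
    exact (mul_right_cancel₀ (unit_ne x) h4).symm
  · intro u
    obtain ⟨x, rfl⟩ := mkc_surj u
    rw [hi, hN]
    rw [mkc_eq_zero, gN_val, gi_val, nm_of_mem S.fix (x : A).2]
    exact pow_mem_TT (x : A).2 (unit_ne x)

/-- if the number of classes is at least `p ^ 2` then there is a class outside any cyclic group. -/
theorem exists_outside (Cx : Ctx p F K ζ) {A : IntermediateField F K} (b : Aˣ)
    (hA : p ^ 2 ≤ Nat.card (PC p A)) : ∃ c : Aˣ, ∀ j : ℤ, mkc p A c ≠ j • mkc p A b := by
  have hp := Cx.hp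
  by_contra hcon
  push Not at hcon
  have hsurj : Function.Surjective (fun j : Fin p => (j : ℕ) • mkc p A b) := by
    intro u
    obtain ⟨x, rfl⟩ := mkc_surj u
    obtain ⟨j, hj⟩ := hcon x
    have hp0 : (p : ℤ) ≠ 0 := by exact_mod_cast hp.ne_zero
    refine ⟨⟨(j % p).toNat, ?_⟩, ?_⟩
    · have := Int.emod_lt_of_pos j (by exact_mod_cast hp.pos : (0 : ℤ) < p)
      have := Int.emod_nonneg j hp0
      omega
    · simp only
      rw [hj, ← natCast_zsmul, Int.toNat_of_nonneg (Int.emod_nonneg j hp0)]
      conv_rhs => rw [← Int.emod_add_mul_ediv j p]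
      rw [add_smul, mul_comm, mul_smul, natCast_zsmul (mkc p A b) p, nsmul_zero, smul_zero,
        add_zero]
  have h1 := Nat.card_le_card_of_surjective _ hsurj
  rw [Nat.card_eq_fintype_card (α := Fin p), Fintype.card_fin] at h1
  have h2 : Nat.card (VV p A) = Nat.card (PC p A) := rfl
  have h4 : p < p ^ 2 := by
    have := hp.one_lt
    nlinarith
  omega

theorem finite_PC_down (Cx : Ctx p F K ζ) {A B : IntermediateField F K} {β : K} (hζA : ζ ∈ A)
    (St : Step p A B β) (hfin : Finite (PC p B)) : Finite (PC p A) := by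
  classical
  have := Cx.pc.gal
  have hp := Cx.hp
  have : Fact p.Prime := ⟨hp⟩
  have hβ0 : β ≠ 0 := by rintro rfl; exact St.notMem A.zero_mem
  let gi : Aˣ →* Bˣ := Units.map (IntermediateField.inclusion St.le : A →* B)
  have gi_val : ∀ x, ((gi x : B) : K) = ((x : A) : K) := fun x => rfl
  have iA : Module (ZMod p) (VV p A) := AddCommGroup.zmodModule nsmul_zero
  have iB : Module (ZMod p) (VV p B) := AddCommGroup.zmodModule nsmul_zero
  let i : VV p A →ₗ[ZMod p] VV p B := (vmap p gi).toZModLinearMap p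
  have hi : ∀ x, i (mkc p A x) = mkc p B (gi x) := fun x => rfl
  have hkeri : ∀ u, i u = 0 → u ∈ Submodule.span (ZMod p)
      {mkc p A (mku (β ^ p) St.pow_mem (pow_ne_zero _ hβ0))} := by
    intro u hu
    obtain ⟨x, rfl⟩ := mkc_surj u
    rw [hi, mkc_eq_zero, gi_val] at hu
    obtain ⟨hx0, y, hyB, hy⟩ := hu
    obtain ⟨m, -, d, hd, hyd⟩ := kummer_mem Cx hζA St hyB (by rw [hy]; exact (x : A).2)
    have h7 : mkc p A x = (m : ℤ) • mkc p A (mku (β ^ p) St.pow_mem (pow_ne_zero _ hβ0)) := by
      rw [← mkc_zpow]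
      apply (cg_iff_mkc _ _).mp
      refine ⟨?_, d, hd, ?_⟩
      · exact div_ne_zero hx0 (unit_ne _)
      · have h8 : ((((mku (β ^ p) St.pow_mem (pow_ne_zero _ hβ0)) ^ (m : ℤ) : Aˣ) : A) : K) =
            (β ^ p) ^ m := by
          rw [zpow_natCast, Units.val_pow_eq_pow_val]
          rfl
        rw [h8, ← hy, hyd]
        have : (β ^ p) ^ m ≠ 0 := pow_ne_zero _ (pow_ne_zero _ hβ0)
        rw [eq_div_iff this]
        ring
    exact mem_span_of_zpow h7
  have hfinV : Finite (VV p B) := hfin
  have fB : FiniteDimensional (ZMod p) (VV p B) := Module.Finite.of_finite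
  have fk : FiniteDimensional (ZMod p) (LinearMap.ker i) := by
    have : LinearMap.ker i ≤ Submodule.span (ZMod p)
      {mkc p A (mku (β ^ p) St.pow_mem (pow_ne_zero _ hβ0))} := fun u hu => hkeri u hu
    exact Submodule.finiteDimensional_of_le this
  have fA : FiniteDimensional (ZMod p) (VV p A) := by
    have hr : FiniteDimensional (ZMod p) (LinearMap.range i) := inferInstance
    have e := LinearMap.quotKerEquivRange i
    have : Module.Finite (ZMod p) (VV p A ⧸ LinearMap.ker i) := Module.Finite.equiv e.symm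
    exact Module.Finite.of_submodule_quotient (LinearMap.ker i)
  have : Finite (VV p A) := Module.finite_of_finite (ZMod p)
  exact this

theorem finrank_step {A B : IntermediateField F K} {β : K} [FiniteDimensional F B]
    (St : Step p A B β) : finrank F B ≤ finrank F A * p := by
  have : FiniteDimensional F A := Module.Finite.of_injective
    (IntermediateField.inclusion St.le).toLinearMap (IntermediateField.inclusion_injective St.le)
  let g : (Fin p → A) →ₗ[F] B :=
    { toFun := fun e => ⟨∑ j : Fin p, (e j : K) * β ^ (j : ℕ),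
        B.sum_mem (fun j _ => B.mul_mem (St.le (e j).2) (pow_mem St.mem _))⟩
      map_add' := by
        intro x y
        apply Subtype.ext
        change ∑ j : Fin p, ((x j : K) + (y j : K)) * β ^ (j : ℕ) =
          ∑ j : Fin p, (x j : K) * β ^ (j : ℕ) + ∑ j : Fin p, (y j : K) * β ^ (j : ℕ)
        rw [← sum_add_distrib]
        exact sum_congr rfl (fun j _ => add_mul _ _ _)
      map_smul' := by
        intro c x
        apply Subtype.ext
        change ∑ j : Fin p, (c • (x j : K)) * β ^ (j : ℕ) = c • ∑ j : Fin p, (x j : K) * β ^ (j : ℕ)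
        rw [smul_sum]
        exact sum_congr rfl (fun j _ => smul_mul_assoc _ _ _) }
  have hg : Function.Surjective g := by
    intro x
    obtain ⟨e, he, hx⟩ := St.span x x.2
    refine ⟨fun j => ⟨e j, he j⟩, ?_⟩
    apply Subtype.ext
    rw [hx]
    exact Fin.sum_univ_eq_sum_range (fun j => e j * β ^ j) p
  have h1 := LinearMap.finrank_le_finrank_of_surjective hg
  rw [Module.finrank_pi_fintype] at h1
  simpa [mul_comm] using h1

theorem concl_of_growth (Cx : Ctx p F K ζ) {E E' : IntermediateField F K} [FiniteDimensional F E']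
    (hζE : ζ ∈ E) (hneg : (-1 : K) ∈ TT p E) (hle : E ≤ E') {n k : ℕ}
    (hn : Nat.card (PC p E) = p ^ n) (hn2 : 2 ≤ n)
    (hdeg : finrank F E' = finrank F E * p ^ k) (hfin : Finite (PC p E'))
    (hcard : Nat.card (PC p E') < p ^ (n + (p - 1) * k)) : Concl F K := by
  have hp := Cx.hp
  by_contra hC
  have key := tower_induction hp Cx.hζ Cx.pc hζE hle
    (fun A => ∃ j, finrank F A ≤ finrank F E * p ^ j ∧
      (Finite (PC p A) → p ^ (n + (p - 1) * j) ≤ Nat.card (PC p A)))
    ⟨0, by simp, fun _ => by rw [hn, mul_zero, add_zero]⟩ ?_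
  · obtain ⟨j, hj1, hj2⟩ := key
    have h1 := hj2 hfin
    have hE0 : 0 < finrank F E := by
      have : FiniteDimensional F E := Module.Finite.of_injective
        (IntermediateField.inclusion hle).toLinearMap (IntermediateField.inclusion_injective hle)
      exact finrank_pos
    rw [hdeg] at hj1
    have h2 : p ^ k ≤ p ^ j := Nat.le_of_mul_le_mul_left hj1 hE0
    have h3 : k ≤ j := (Nat.pow_le_pow_iff_right hp.one_lt).mp h2
    have h4 : p ^ (n + (p - 1) * k) ≤ p ^ (n + (p - 1) * j) :=
      Nat.pow_le_pow_right hp.pos (Nat.add_le_add_left (Nat.mul_le_mul_left _ h3) _)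
    omega
  · rintro A B β hEA hBE' St ⟨j, hj1, hj2⟩
    have fB : FiniteDimensional F B := Module.Finite.of_injective
      (IntermediateField.inclusion hBE').toLinearMap (IntermediateField.inclusion_injective hBE')
    have fA : FiniteDimensional F A := Module.Finite.of_injective
      (IntermediateField.inclusion St.le).toLinearMap (IntermediateField.inclusion_injective St.le)
    refine ⟨j + 1, ?_, fun hfB => ?_⟩
    · refine (finrank_step St).trans ?_
      rw [pow_succ, ← mul_assoc]
      exact Nat.mul_le_mul_right p hj1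
    · have hfA := finite_PC_down Cx (hEA hζE) St hfB
      have h1 := hj2 hfA
      have h2 : p ^ 2 ≤ Nat.card (PC p A) :=
        (Nat.pow_le_pow_right hp.pos (hn2.trans (Nat.le_add_right _ _))).trans h1
      have hβ0 : β ≠ 0 := by rintro rfl; exact St.notMem A.zero_mem
      have hR : ¬ Rig p A ζ (β ^ p) := by
        intro R
        obtain ⟨c, hc⟩ := exists_outside Cx (mku (β ^ p) St.pow_mem (pow_ne_zero _ hβ0)) h2
        apply hC
        refine concl_of_rig Cx (hEA hζE) (TT_mono hEA hneg) R (c := ((c : A) : K)) (c : A).2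
          (unit_ne c) (fun j hj => hc j ?_)
        rw [← mkc_zpow]
        apply (cg_iff_mkc _ _).mp
        have h4 : ((((mku (β ^ p) St.pow_mem (pow_ne_zero _ hβ0)) ^ j : Aˣ) : A) : K) =
            (β ^ p) ^ j := by
          rw [Units.val_zpow_eq_zpow_val]
          exact map_zpow₀ (algebraMap A K) _ _
        rw [h4]
        exact hj
      have h3 := growth_step Cx (hEA hζE) (TT_mono hEA hneg) St hR hfB
      refine le_trans ?_ h3
      have h5 : n + (p - 1) * (j + 1) = (p - 1) + (n + (p - 1) * j) := by ring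
      rw [h5, pow_add]
      exact Nat.mul_le_mul_left _ h1

end Pool.Agent.Helper25.ETC
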