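import Pool.Agent.Helper25.ETCStep
import Pool.Agent.Helper25.ETCGroup
import Pool.Agent.Helper25.ETCCan

/-!
# `p`-henselian valuations
-/

set_option autoImplicit false

namespace Pool.Agent.Helper25.ETC

open Polynomial Finset

variable {F K : Type*} [Field F] [Field K] [Algebra F K]

/-- `1 - m_E ⊆ E^p` and `p` is a unit. -/
structure Hn (p : ℕ) (E : IntermediateField F K) (O : ValuationSubring K) : Prop where
  unit : O.valuation (p : K) = 1
  hens : ∀ x ∈ E, O.valuation x < 1 → ∃ y ∈ E, y ^ p = 1 - x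

/-- image of `E ∩ O` in the residue field. -/
def resE (E : IntermediateField F K) (O : ValuationSubring K) :
    Subfield (IsLocalRing.ResidueField O) where
  carrier := {r | ∃ x : O, (x : K) ∈ E ∧ IsLocalRing.residue O x = r}
  mul_mem' := by
    rintro a b ⟨x, hx, rfl⟩ ⟨y, hy, rfl⟩
    exact ⟨x * y, E.mul_mem hx hy, map_mul _ _ _⟩
  one_mem' := ⟨1, E.one_mem, map_one _⟩
  add_mem' := by
    rintro a b ⟨x, hx, rfl⟩ ⟨y, hy, rfl⟩
    exact ⟨x + y, E.add_mem hx hy, map_add _ _ _⟩
  zero_mem' := ⟨0, E.zero_mem, map_zero _⟩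
  neg_mem' := by
    rintro a ⟨x, hx, rfl⟩
    exact ⟨-x, E.neg_mem hx, map_neg _ _⟩
  inv_mem' := by
    rintro a ⟨x, hx, rfl⟩
    by_cases h : IsLocalRing.residue O x = 0
    · exact ⟨0, E.zero_mem, by rw [h, map_zero, inv_zero]⟩
    · have hu : IsUnit x := by
        by_contra hc
        exact h ((IsLocalRing.residue_eq_zero_iff x).mpr hc)
      obtain ⟨u, rfl⟩ := hu
      refine ⟨((u⁻¹ : Oˣ) : O), ?_, ?_⟩
      · have : (((u⁻¹ : Oˣ) : O) : K) = ((u : O) : K)⁻¹ := by
          rw [eq_comm, inv_eq_iff_eq_inv, eq_comm]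
          apply inv_eq_of_mul_eq_one_left
          exact congrArg Subtype.val u.mul_inv
        rw [this]; exact E.inv_mem hx
      · rw [eq_comm]
        apply inv_eq_of_mul_eq_one_left
        rw [← map_mul, Units.inv_mul, map_one]

theorem residue_eq_zero {O : ValuationSubring K} (x : O) :
    IsLocalRing.residue O x = 0 ↔ O.valuation (x : K) < 1 := by
  rw [IsLocalRing.residue_eq_zero_iff, IsLocalRing.mem_maximalIdeal, mem_nonunits_iff]
  rw [← not_iff_not, not_not, not_lt]
  rw [ValuationSubring.valuation_eq_one_iff]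
  constructor
  · intro h; exact h.ge
  · intro h; exact le_antisymm (O.valuation_le_one x) h

section

variable {p : ℕ} {E L : IntermediateField F K} {ζ β : K} {O : ValuationSubring K}

/-- unramified core: `u` a unit with `u ∉ E`, `u ^ p ∈ E`. -/
theorem residue_indep (hp : p.Prime) (hζ : IsPrimitiveRoot ζ p) (hζE : ζ ∈ E) (H : Hn p E O)
    {u : K} (hu : O.valuation u = 1) (h1 : u ∉ E) (h2 : u ^ p ∈ E) {g : ℕ → K}
    (hg : ∀ j, g j ∈ E) (hg1 : ∀ j < p, O.valuation (g j) ≤ 1) {i : ℕ} (hi : i < p)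
    (hgi : g i = 1) : ¬ O.valuation (∑ j ∈ range p, g j * u ^ j) < 1 := by
  intro hlt
  have hle : ∀ x : K, O.valuation x ≤ 1 ↔ x ∈ O := fun x => O.valuation_le_one_iff x
  set uO : O := ⟨u, (hle u).mp hu.le⟩ with huO
  set kE := resE E O with hkE
  -- extend g by zero
  let gO : ℕ → O := fun j => if h : j < p then ⟨g j, (hle _).mp (hg1 j h)⟩ else 0
  have hgO : ∀ j, j < p → (gO j : K) = g j := by
    intro j hj; simp [gO, hj]
  have hgOE : ∀ j, (gO j : K) ∈ E := by
    intro j
    by_cases hj : j < p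
    · rw [hgO j hj]; exact hg j
    · simp [gO, hj, E.zero_mem]
  let gb : ℕ → kE := fun j => ⟨IsLocalRing.residue O (gO j), gO j, hgOE j, rfl⟩
  have hup : u ^ p ∈ O := (hle _).mp (by rw [map_pow, hu, one_pow])
  let a : kE := ⟨IsLocalRing.residue O (uO ^ p), uO ^ p, by
    rw [huO]; push_cast; exact h2, rfl⟩
  have hirr : Irreducible (X ^ p - C a) := by
    apply X_pow_sub_C_irreducible_of_prime hp
    rintro ⟨b, x, hx, rfl⟩ hb
    have hb' : (IsLocalRing.residue O x) ^ p = IsLocalRing.residue O (uO ^ p) :=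
      congrArg Subtype.val hb
    rw [← map_pow, ← sub_eq_zero, ← map_sub, residue_eq_zero] at hb'
    push_cast at hb'
    rw [huO] at hb'
    simp only at hb'
    -- v x = 1
    have hvx : O.valuation (x : K) = 1 := by
      have h3 : O.valuation ((x : K) ^ p) = 1 := by
        have e : (x : K) ^ p = (((x : K) ^ p - u ^ p) + u ^ p) := by ring
        rw [e, Valuation.map_add_eq_of_lt_right]
        · rw [map_pow, hu, one_pow]
        · rw [map_pow _ u, hu, one_pow]; exact hb'
      rw [map_pow] at h3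
      exact (pow_eq_one_iff_of_nonneg zero_le hp.ne_zero).mp h3
    have hx0 : (x : K) ≠ 0 := by
      intro h; rw [h, map_zero] at hvx; exact zero_ne_one hvx
    obtain ⟨y, hyE, hy⟩ := H.hens (((x : K) ^ p - u ^ p) / (x : K) ^ p)
      (E.div_mem (E.sub_mem (pow_mem hx p) h2) (pow_mem hx p))
      (by rw [map_div₀, map_pow _ (x : K), hvx, one_pow, div_one]; exact hb')
    have h4 : u ^ p = (y * x) ^ p := by
      rw [mul_pow, hy]; field_simp; ring
    obtain ⟨j, -, hj⟩ := exists_zeta_pow hp.pos hζ h4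
    apply h1
    rw [hj]
    exact E.mul_mem (pow_mem hζE j) (E.mul_mem hyE hx)
  have ha0 : aeval (IsLocalRing.residue O uO) (X ^ p - C a) = 0 := by
    rw [map_sub, map_pow, aeval_X, aeval_C, ← map_pow]
    exact sub_self _
  have hmin := minpoly.eq_of_irreducible_of_monic hirr ha0 (monic_X_pow_sub_C a hp.ne_zero)
  set G : kE[X] := ∑ j ∈ range p, C (gb j) * X ^ j with hG
  have hcoeff : ∀ m, G.coeff m = if m < p then gb m else 0 := by
    intro m
    rw [hG, finsetSum_coeff]
    simp only [coeff_C_mul_X_pow]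
    rw [Finset.sum_ite_eq]
    simp
  have hG0 : G ≠ 0 := by
    intro h
    have h5 := hcoeff i
    rw [h, coeff_zero, if_pos hi] at h5
    have h6 : IsLocalRing.residue O (gO i) = 0 := (congrArg Subtype.val h5).symm
    have h7 : gO i = 1 := by
      apply Subtype.ext; rw [hgO i hi, hgi]; rfl
    rw [h7, map_one] at h6
    exact one_ne_zero h6
  have hGa : aeval (IsLocalRing.residue O uO) G = 0 := by
    rw [hG, map_sum]
    have e : ∀ j ∈ range p, aeval (IsLocalRing.residue O uO) (C (gb j) * X ^ j)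
        = IsLocalRing.residue O (gO j * uO ^ j) := by
      intro j _
      rw [map_mul, map_pow, aeval_X, aeval_C, map_mul, map_pow]; rfl
    rw [sum_congr rfl e, ← map_sum, residue_eq_zero]
    push_cast
    rw [sum_congr rfl (fun j hj => by rw [hgO j (mem_range.mp hj)])]
    exact hlt
  have h8 := minpoly.degree_le_of_ne_zero kE (IsLocalRing.residue O uO) hG0 hGa
  rw [← hmin, degree_X_pow_sub_C hp.pos] at h8
  have h9 : G.degree < p := by
    rw [degree_lt_iff_coeff_zero]
    intro m hm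
    rw [hcoeff, if_neg (not_lt.mpr hm)]
  exact absurd h9 (not_lt.mpr h8)

theorem val_beta (hp : p.Prime) (h2 : β ^ p ∈ E) (hβ : β ≠ 0) {a b : K} (ha : a ∈ E) (hb : b ∈ E)
    (ha0 : a ≠ 0) {i j : ℕ} (hij : i < j) (hj : j < p)
    (h : O.valuation (a * β ^ i) = O.valuation (b * β ^ j)) :
    ∃ c ∈ E, O.valuation c = O.valuation β := by
  set v := O.valuation with hv
  have hvβ : v β ≠ 0 := (Valuation.ne_zero_iff _).mpr hβ
  have hva : v a ≠ 0 := (Valuation.ne_zero_iff _).mpr ha0
  have hvb : v b ≠ 0 := by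
    intro hc
    rw [map_mul, map_mul, hc, zero_mul, map_pow] at h
    exact mul_ne_zero hva (pow_ne_zero _ hvβ) h
  set d := j - i with hd
  have hd0 : d ≠ 0 := by omega
  have hdp : d < p := by omega
  have hcop : Nat.Coprime d p := by
    rw [Nat.coprime_comm, hp.coprime_iff_not_dvd]
    intro hdd
    exact absurd (Nat.le_of_dvd (Nat.pos_of_ne_zero hd0) hdd) (not_le.mpr hdp)
  obtain ⟨m, -, hm⟩ := Nat.exists_mul_mod_eq_one_of_coprime hcop hp.one_lt
  have hm2 := Nat.mod_add_div (d * m) p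
  rw [hm] at hm2
  have h3 : v (β ^ d) = v (a / b) := by
    have e : β ^ j = β ^ i * β ^ d := by rw [← pow_add]; congr 1; omega
    rw [e, map_mul, map_mul, map_mul] at h
    rw [map_div₀, eq_div_iff hvb]
    have h4 : v (β ^ i) ≠ 0 := by rw [map_pow]; exact pow_ne_zero _ hvβ
    have h5 : v (β ^ i) * v a = v (β ^ i) * (v (β ^ d) * v b) := by
      rw [mul_comm, h]; ac_rfl
    exact (mul_left_cancel₀ h4 h5).symm
  refine ⟨(a / b) ^ m / (β ^ p) ^ (d * m / p), E.div_mem (pow_mem (E.div_mem ha hb) _)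
    (pow_mem h2 _), ?_⟩
  have h6 : β ^ (d * m) = β * (β ^ p) ^ (d * m / p) := by
    rw [← pow_mul]
    conv_lhs => rw [← hm2]
    rw [pow_add, pow_one]
  rw [map_div₀, map_pow v (a / b), ← h3, ← map_pow, ← pow_mul, h6, map_mul]
  rw [mul_div_assoc, div_self, mul_one]
  rw [map_pow, map_pow]
  exact pow_ne_zero _ (pow_ne_zero _ hvβ)

/-- **dominance**: the valuation of a sum is the maximum of the valuations. -/
theorem dominant (hp : p.Prime) (hζ : IsPrimitiveRoot ζ p) (hζE : ζ ∈ E) (H : Hn p E O)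
    (h1 : β ∉ E) (h2 : β ^ p ∈ E) {e : ℕ → K} (he : ∀ j, e j ∈ E) {i : ℕ} (hi : i < p) :
    O.valuation (e i * β ^ i) ≤ O.valuation (∑ j ∈ range p, e j * β ^ j) := by
  set v := O.valuation with hv
  have hβ : β ≠ 0 := by rintro rfl; exact h1 E.zero_mem
  have hvβ : v β ≠ 0 := (Valuation.ne_zero_iff _).mpr hβ
  obtain ⟨i0, hi0, hmax⟩ := exists_max_image (range p) (fun j => v (e j * β ^ j))
    ⟨i, mem_range.mpr hi⟩
  refine (hmax i (mem_range.mpr hi)).trans ?_
  by_cases hz : v (e i0 * β ^ i0) = 0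
  · rw [hz]; exact zero_le
  have hei0 : e i0 ≠ 0 := by
    intro h; apply hz; rw [h, zero_mul, map_zero]
  by_cases hB : ∃ c ∈ E, v c = v β
  · obtain ⟨c, hcE, hc⟩ := hB
    have hc0 : c ≠ 0 := by
      rintro rfl; rw [map_zero] at hc; exact hvβ hc.symm
    set u := β / c with hu
    have hvu : v u = 1 := by rw [hu, map_div₀, hc, div_self hvβ]
    have huE : u ∉ E := by
      intro h
      apply h1
      have : β = u * c := by rw [hu]; field_simp
      rw [this]; exact E.mul_mem h hcE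
    have hupE : u ^ p ∈ E := by
      rw [hu, div_pow]; exact E.div_mem h2 (pow_mem hcE p)
    have hβu : β = c * u := by rw [hu]; field_simp
    set t : K := e i0 * c ^ i0 with ht
    have ht0 : t ≠ 0 := mul_ne_zero hei0 (pow_ne_zero _ hc0)
    have htE : t ∈ E := E.mul_mem (he _) (pow_mem hcE _)
    have hvt : v t = v (e i0 * β ^ i0) := by
      rw [ht, map_mul, map_mul, map_pow, map_pow, hc]
    have key := residue_indep (E := E) hp hζ hζE H hvu huE hupE
      (g := fun j => e j * c ^ j / t)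
      (fun j => E.div_mem (E.mul_mem (he j) (pow_mem hcE j)) htE)
      (fun j hj => by
        rw [map_div₀, map_mul, map_pow, ← hv, hc]
        rw [div_le_one₀ ((Valuation.pos_iff _).mpr ht0), hvt, ← map_pow, ← map_mul]
        exact hmax j (mem_range.mpr hj))
      (mem_range.mp hi0) (by simp only [ht]; exact div_self ht0)
    have e1 : ∑ j ∈ range p, e j * β ^ j = t * ∑ j ∈ range p, e j * c ^ j / t * u ^ j := by
      rw [mul_sum]
      apply sum_congr rfl
      intro j _
      rw [hβu, mul_pow]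
      field_simp
    rw [e1, map_mul v t, ← hvt]
    rw [not_lt] at key
    exact le_mul_of_one_le_right zero_le key
  · have hlt : ∀ j ∈ range p \ {i0}, v (e j * β ^ j) < v (e i0 * β ^ i0) := by
      intro j hj
      rw [mem_sdiff, mem_singleton] at hj
      refine lt_of_le_of_ne (hmax j hj.1) ?_
      intro heq
      apply hB
      rcases lt_or_gt_of_ne hj.2 with h | h
      · have hej : e j ≠ 0 := by
          intro h0; apply hz; rw [← heq, h0, zero_mul, map_zero]
        exact val_beta hp h2 hβ (he j) (he i0) hej h (mem_range.mp hi0) heq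
      · exact val_beta hp h2 hβ (he i0) (he j) hei0 h (mem_range.mp hj.1) heq.symm
    rw [Valuation.map_sum_eq_of_lt v hi0 hlt]

/-- membership in `O` for elements of `L = E(β)`. -/
theorem mem_iff_step (hp : p.Prime) (hζ : IsPrimitiveRoot ζ p) (hζE : ζ ∈ E) (H : Hn p E O)
    (h1 : β ∉ E) (h2 : β ^ p ∈ E) {e : ℕ → K} (he : ∀ j, e j ∈ E) :
    ∑ j ∈ range p, e j * β ^ j ∈ O ↔ ∀ j < p, e j ^ p * (β ^ p) ^ j ∈ O := by
  have hle : ∀ x : K, O.valuation x ≤ 1 ↔ x ∈ O := fun x => O.valuation_le_one_iff x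
  have h3 : ∀ j, e j ^ p * (β ^ p) ^ j ∈ O ↔ O.valuation (e j * β ^ j) ≤ 1 := by
    intro j
    have e1 : e j ^ p * (β ^ p) ^ j = (e j * β ^ j) ^ p := by ring
    rw [e1, ← hle, map_pow]
    exact pow_le_one_iff hp.ne_zero
  rw [← hle]
  constructor
  · intro h j hj
    rw [h3]
    exact (dominant hp hζ hζE H h1 h2 he hj).trans h
  · intro h
    apply Valuation.map_sum_le
    intro j hj
    rw [← h3]; exact h j (mem_range.mp hj)

theorem Hn.congr {O' : ValuationSubring K} (hp : p.Prime) (H : Hn p E O)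
    (h : ∀ x ∈ E, x ∈ O ↔ x ∈ O') : Hn p E O' where
  unit := by
    have h0 : (p : K) ≠ 0 := by
      intro h0
      have := H.unit
      rw [h0, map_zero] at this
      exact zero_ne_one this
    have hpE : (p : K) ∈ E := natCast_mem E p
    rw [val_eq_one_iff h0, ← h _ hpE, ← h _ (E.inv_mem hpE), ← val_eq_one_iff h0]
    exact H.unit
  hens := by
    intro x hx hv
    apply H.hens x hx
    rw [val_lt_one_iff] at hv ⊢
    rwa [h _ (E.inv_mem hx)]

/-- uniqueness of the extension, one step. -/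
theorem agree_step (hp : p.Prime) (hζ : IsPrimitiveRoot ζ p) (hζE : ζ ∈ E) (H : Hn p E O)
    (St : Step p E L β) {O' : ValuationSubring K} (h : ∀ x ∈ E, x ∈ O ↔ x ∈ O') :
    ∀ x ∈ L, x ∈ O ↔ x ∈ O' := by
  intro x hx
  obtain ⟨e, he, rfl⟩ := St.span x hx
  rw [mem_iff_step hp hζ hζE H St.notMem St.pow_mem he,
    mem_iff_step hp hζ hζE (H.congr hp h) St.notMem St.pow_mem he]
  apply forall_congr'
  intro j
  rw [h _ (E.mul_mem (pow_mem (he j) p) (pow_mem St.pow_mem j))]

theorem val_zeta (hp : p.Prime) (hζ : IsPrimitiveRoot ζ p) (O : ValuationSubring K) :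
    O.valuation ζ = 1 := by
  have h := congrArg O.valuation hζ.pow_eq_one
  rw [map_pow, map_one] at h
  exact (pow_eq_one_iff_of_nonneg zero_le hp.ne_zero).mp h

variable {σ : K ≃ₐ[F] K}

theorem val_sigma (hp : p.Prime) (hζ : IsPrimitiveRoot ζ p) (hζE : ζ ∈ E) (H : Hn p E O)
    (St : Step p E L β) (S : StepAut E ζ β σ) {x : K} (hx : x ∈ L) :
    O.valuation (σ x) = O.valuation x := by
  obtain ⟨e, he, rfl⟩ := St.span x hx
  have h1 := apply_formula (p := p) S hζE he 1
  rw [pow_one, pow_one] at h1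
  have he' : ∀ j, e j * ζ ^ j ∈ E := fun j => E.mul_mem (he j) (pow_mem hζE j)
  have hval : ∀ j, O.valuation (e j * ζ ^ j * β ^ j) = O.valuation (e j * β ^ j) := by
    intro j
    rw [map_mul, map_mul, map_mul, map_pow, val_zeta hp hζ O, one_pow, mul_one]
  rw [h1]
  apply le_antisymm
  · apply Valuation.map_sum_le
    intro j hj
    rw [hval]
    exact dominant hp hζ hζE H St.notMem St.pow_mem he (mem_range.mp hj)
  · apply Valuation.map_sum_le
    intro j hj
    rw [← hval]
    exact dominant hp hζ hζE H St.notMem St.pow_mem he' (mem_range.mp hj)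

theorem val_eq_one_of_sub {x : K} (h : O.valuation (x - 1) < 1) : O.valuation x = 1 := by
  have e : x = 1 + (x - 1) := by ring
  rw [e]; exact Valuation.map_one_add_of_lt _ h

theorem sub_one_mul {x y : K} (hx : O.valuation (x - 1) < 1) (hy : O.valuation (y - 1) < 1) :
    O.valuation (x * y - 1) < 1 := by
  have e : x * y - 1 = (x - 1) * y + (y - 1) := by ring
  rw [e]
  apply Valuation.map_add_lt
  · rw [map_mul, val_eq_one_of_sub hy, mul_one]; exact hx
  · exact hy

theorem sub_one_inv {x : K} (hx : O.valuation (x - 1) < 1) : O.valuation (x⁻¹ - 1) < 1 := by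
  have h1 := val_eq_one_of_sub hx
  have h0 : x ≠ 0 := by rintro rfl; rw [map_zero] at h1; exact zero_ne_one h1
  have e : x⁻¹ - 1 = -((x - 1) * x⁻¹) := by field_simp; ring
  rw [e, Valuation.map_neg, map_mul, map_inv₀, h1, inv_one, mul_one]; exact hx

theorem sub_one_prod {ι : Type*} (s : Finset ι) {f : ι → K}
    (h : ∀ i ∈ s, O.valuation (f i - 1) < 1) : O.valuation (∏ i ∈ s, f i - 1) < 1 := by
  classical
  induction s using Finset.induction_on with
  | empty => simp
  | insert a s ha ih =>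
    rw [prod_insert ha]
    exact sub_one_mul (h a (mem_insert_self a s))
      (ih (fun i hi => h i (mem_insert_of_mem hi)))

theorem one_le_val_prod {ι : Type*} (s : Finset ι) {f : ι → K}
    (h : ∀ i ∈ s, 1 ≤ O.valuation (f i)) : 1 ≤ O.valuation (∏ i ∈ s, f i) := by
  classical
  induction s using Finset.induction_on with
  | empty => simp
  | insert a s ha ih =>
    rw [prod_insert ha, map_mul]
    exact (h a (mem_insert_self a s)).trans (le_mul_of_one_le_right zero_le
      (ih (fun i hi => h i (mem_insert_of_mem hi))))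

/-- a `p`-th root `≡ 1`. -/
theorem exists_root_one (hp : p.Prime) (hζ : IsPrimitiveRoot ζ p) (hζE : ζ ∈ E) (H : Hn p E O)
    {x : K} (hx : x ∈ E) (h : O.valuation (x - 1) < 1) :
    ∃ c ∈ E, c ^ p = x ∧ O.valuation (c - 1) < 1 := by
  obtain ⟨c, hcE, hc⟩ := H.hens (1 - x) (E.sub_mem E.one_mem hx)
    (by rw [← Valuation.map_neg, neg_sub]; exact h)
  rw [sub_sub_cancel] at hc
  have h1 := prod_sub_zeta hp.pos hζ c 1
  rw [one_pow, hc] at h1
  have h2 : ∃ j ∈ range p, O.valuation (c - ζ ^ j * 1) < 1 := by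
    by_contra hcon
    push Not at hcon
    rw [← h1] at h
    exact absurd h (not_lt.mpr (one_le_val_prod _ hcon))
  obtain ⟨j, -, hj⟩ := h2
  have hζ0 : ζ ≠ 0 := hζ.ne_zero hp.ne_zero
  have hζj : O.valuation (ζ ^ j) = 1 := by rw [map_pow, val_zeta hp hζ O, one_pow]
  refine ⟨c / ζ ^ j, E.div_mem hcE (pow_mem hζE j), ?_, ?_⟩
  · rw [div_pow, hc, ← pow_mul, mul_comm j p, pow_mul, hζ.pow_eq_one, one_pow, div_one]
  · have e : c / ζ ^ j - 1 = (c - ζ ^ j * 1) / ζ ^ j := by field_simp
    rw [e, map_div₀, hζj, div_one]; exact hj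

/-- explicit Hilbert 90 for units `≡ 1`. -/
theorem hilbert90_one (hp : p.Prime) (hζ : IsPrimitiveRoot ζ p) (hζE : ζ ∈ E) (H : Hn p E O)
    (St : Step p E L β) (S : StepAut E ζ β σ) {u : K} (hu : u ∈ L)
    (hu1 : O.valuation (u - 1) < 1) (hN : nm p σ u = 1) :
    ∃ g ∈ L, O.valuation (g - 1) < 1 ∧ u * σ g = g := by
  have hσL : ∀ x ∈ L, ∀ n : ℕ, (σ ^ n) x ∈ L := fun x hx n => step_stable St S hζE hx n
  have hvσ : ∀ x ∈ L, ∀ n : ℕ, O.valuation ((σ ^ n) x) = O.valuation x := by
    intro x hx n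
    induction n with
    | zero => simp
    | succ n ih =>
      rw [pow_succ', AlgEquiv.mul_apply, val_sigma hp hζ hζE H St S (hσL x hx n), ih]
  set a : ℕ → K := fun j => ∏ i ∈ range j, (σ ^ i) u with ha
  have haL : ∀ j, a j ∈ L := fun j => L.prod_mem (fun i _ => hσL u hu i)
  have ha1 : ∀ j, O.valuation (a j - 1) < 1 := by
    intro j
    apply sub_one_prod
    intro i _
    have e : (σ ^ i) u - 1 = (σ ^ i) (u - 1) := by rw [map_sub, map_one]
    rw [e, hvσ _ (L.sub_mem hu L.one_mem)]; exact hu1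
  have hsucc : ∀ j, u * σ (a j) = a (j + 1) := by
    intro j
    simp only [ha]
    rw [map_prod, prod_range_succ' (fun i => (σ ^ i) u), pow_zero, AlgEquiv.one_apply, mul_comm]
    congr 1
    apply prod_congr rfl
    intro i _
    rw [pow_succ', AlgEquiv.mul_apply]
  have hap : a p = 1 := hN
  have ha0 : a 0 = 1 := by simp [ha]
  have hp0 : (p : K) ≠ 0 := by
    intro h0
    have := H.unit
    rw [h0, map_zero] at this
    exact zero_ne_one this
  refine ⟨(p : K)⁻¹ * ∑ j ∈ range p, a j, L.mul_mem (L.inv_mem (natCast_mem L p))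
    (L.sum_mem (fun j _ => haL j)), ?_, ?_⟩
  · have e : (p : K)⁻¹ * ∑ j ∈ range p, a j - 1 = (p : K)⁻¹ * ∑ j ∈ range p, (a j - 1) := by
      rw [sum_sub_distrib]
      simp only [sum_const, card_range, nsmul_eq_mul, mul_one]
      field_simp
    rw [e, map_mul, map_inv₀, H.unit, inv_one, one_mul]
    exact Valuation.map_sum_lt _ one_ne_zero (fun j _ => ha1 j)
  · rw [map_mul, map_inv₀, map_natCast, map_sum, mul_left_comm, mul_sum]
    congr 1
    rw [sum_congr rfl (fun j _ => hsucc j)]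
    have h3 := sum_range_succ a p
    have h4 := sum_range_succ' a p
    rw [h3, hap, ha0] at h4
    exact (add_right_cancel h4).symm

theorem iterate_units (f : K ≃ₐ[F] K) (x : Kˣ) (j : ℕ) :
    (((Units.map (f : K →* K))^[j] x : Kˣ) : K) = (f ^ j) x := by
  induction j generalizing x with
  | zero => simp
  | succ j ih =>
    rw [Function.iterate_succ_apply, ih, pow_succ, AlgEquiv.mul_apply]
    rfl

/-- **persistence** of the `p`-henselian property. -/
theorem Hn.step [IsGalois F K] (hp : p.Prime) (hζ : IsPrimitiveRoot ζ p) (hζE : ζ ∈ E)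
    (H : Hn p E O) (St : Step p E L β) : Hn p L O := by
  obtain ⟨σ, S⟩ := exists_stepAut (p := p) hp hζ hζE St.notMem St.pow_mem
  refine ⟨H.unit, ?_⟩
  let f : Kˣ →* Kˣ := Units.map (σ : K →* K)
  have hf : ∀ x : Kˣ, ((f x : Kˣ) : K) = σ x := fun x => rfl
  let A : Subgroup Kˣ :=
    { carrier := {u | (u : K) ∈ L ∧ O.valuation ((u : K) - 1) < 1}
      mul_mem' := by
        rintro a b ⟨ha, ha1⟩ ⟨hb, hb1⟩
        exact ⟨by push_cast; exact L.mul_mem ha hb, by push_cast; exact sub_one_mul ha1 hb1⟩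
      one_mem' := ⟨by simp [L.one_mem], by simp⟩
      inv_mem' := by
        rintro a ⟨ha, ha1⟩
        exact ⟨by rw [Units.val_inv_eq_inv_val]; exact L.inv_mem ha,
          by rw [Units.val_inv_eq_inv_val]; exact sub_one_inv ha1⟩ }
  let SS : Subgroup Kˣ :=
    { carrier := {u | ∃ c ∈ E, O.valuation (c - 1) < 1 ∧ ∃ y ∈ L, (u : K) = c * y ^ p}
      mul_mem' := by
        rintro a b ⟨c, hc, hc1, y, hy, hay⟩ ⟨d, hd, hd1, z, hz, hbz⟩
        exact ⟨c * d, E.mul_mem hc hd, sub_one_mul hc1 hd1, y * z, L.mul_mem hy hz,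
          by push_cast; rw [hay, hbz]; ring⟩
      one_mem' := ⟨1, E.one_mem, by simp, 1, L.one_mem, by simp⟩
      inv_mem' := by
        rintro a ⟨c, hc, hc1, y, hy, hay⟩
        exact ⟨c⁻¹, E.inv_mem hc, sub_one_inv hc1, y⁻¹, L.inv_mem hy,
          by rw [Units.val_inv_eq_inv_val, hay, mul_inv, inv_pow]⟩ }
  have hσL : ∀ x ∈ L, σ x ∈ L := by
    intro x hx; have := step_stable St S hζE hx 1; rwa [pow_one] at this
  have hvσ : ∀ x ∈ L, O.valuation (σ x) = O.valuation x :=
    fun x hx => val_sigma hp hζ hζE H St S hx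
  have hσA : ∀ x ∈ A, f x ∈ A := by
    rintro x ⟨hx, hx1⟩
    refine ⟨hσL _ hx, ?_⟩
    have e : ((f x : Kˣ) : K) - 1 = σ ((x : K) - 1) := by rw [map_sub, map_one, hf]
    rw [e, hvσ _ (L.sub_mem hx L.one_mem)]; exact hx1
  have hNA : ∀ x ∈ A, nm p σ (x : K) ∈ E ∧ O.valuation (nm p σ (x : K) - 1) < 1 := by
    rintro x ⟨hx, hx1⟩
    refine ⟨nm_mem St S hζ hζE hp hx, sub_one_prod _ ?_⟩
    intro j _
    have e : (σ ^ j) (x : K) - 1 = (σ ^ j) ((x : K) - 1) := by rw [map_sub, map_one]
    rw [e]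
    have : ∀ n : ℕ, ∀ y ∈ L, O.valuation ((σ ^ n) y) = O.valuation y := by
      intro n y hy
      induction n with
      | zero => simp
      | succ n ih =>
        rw [pow_succ', AlgEquiv.mul_apply, hvσ _ (step_stable St S hζE hy n), ih]
    rw [this j _ (L.sub_mem hx L.one_mem)]; exact hx1
  have key := group_lemma hp f A SS hσA ?_ ?_ ?_ ?_
  · -- conclusion
    intro x hx hvx
    have h1x : O.valuation ((1 - x) - 1) < 1 := by
      have e : (1 - x) - 1 = -x := by ring
      rw [e, Valuation.map_neg]; exact hvx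
    have h0 : (1 - x) ≠ 0 := by
      intro h; have := val_eq_one_of_sub h1x; rw [h, map_zero] at this; exact zero_ne_one this
    obtain ⟨c, hc, hc1, y, hy, hxy⟩ := key (Units.mk0 (1 - x) h0)
      ⟨L.sub_mem L.one_mem hx, h1x⟩
    obtain ⟨d, hd, hdc, -⟩ := exists_root_one hp hζ hζE H hc hc1
    refine ⟨d * y, L.mul_mem (St.le hd) hy, ?_⟩
    rw [mul_pow, hdc, ← hxy]; rfl
  · -- S stable
    rintro x ⟨c, hc, hc1, y, hy, hxy⟩
    refine ⟨c, hc, hc1, σ y, hσL y hy, ?_⟩
    rw [hf, hxy, map_mul, map_pow, S.fix c hc]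
  · -- Hilbert 90
    intro x hx
    obtain ⟨hNE, hN1⟩ := hNA x hx
    obtain ⟨c, hcE, hc, hc1⟩ := exists_root_one hp hζ hζE H hNE hN1
    have hc0 : c ≠ 0 := by
      rintro rfl
      have := val_eq_one_of_sub hc1
      rw [map_zero] at this; exact zero_ne_one this
    have hxc : O.valuation ((x : K) * c⁻¹ - 1) < 1 := sub_one_mul hx.2 (sub_one_inv hc1)
    have hNx : nm p σ ((x : K) * c⁻¹) = 1 := by
      rw [nm_mul, nm_inv, nm_of_mem S.fix hcE, hc, mul_inv_cancel₀]
      exact nm_ne_zero x.ne_zero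
    obtain ⟨g, hgL, hg1, hg⟩ := hilbert90_one hp hζ hζE H St S
      (L.mul_mem hx.1 (L.inv_mem (St.le hcE))) hxc hNx
    have hg0 : g ≠ 0 := by
      rintro rfl
      have := val_eq_one_of_sub hg1
      rw [map_zero] at this; exact zero_ne_one this
    have hσg0 : σ g ≠ 0 := (_root_.map_ne_zero _).mpr hg0
    refine ⟨Units.mk0 c hc0, ⟨c, hcE, hc1, 1, L.one_mem, by simp⟩, (Units.mk0 g hg0)⁻¹,
      A.inv_mem ⟨hgL, hg1⟩, ?_⟩
    apply Units.ext
    push_cast
    rw [map_inv, Units.val_inv_eq_inv_val, hf]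
    simp only [Units.val_mk0]
    have h5 : (x : K) = g * c / σ g := by
      rw [eq_div_iff hσg0]
      have : (x : K) * σ g = c * ((x : K) * c⁻¹ * σ g) := by field_simp
      rw [this, hg]; ring
    rw [h5]
    field_simp
  · -- norms
    intro x hx
    obtain ⟨hNE, hN1⟩ := hNA x hx
    refine ⟨nm p σ (x : K), hNE, hN1, 1, L.one_mem, ?_⟩
    rw [one_pow, mul_one]
    unfold nm
    rw [Units.coe_prod]
    apply prod_congr rfl
    intro j _
    exact iterate_units σ x j
  · intro x hx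
    exact ⟨1, E.one_mem, by simp, x, hx.1, by push_cast; ring⟩

end

end Pool.Agent.Helper25.ETC
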