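import Pool.Agent.Helper25.ETCExt

/-!
# Inertia
-/

set_option autoImplicit false

namespace Pool.Agent.Helper25.ETC

open Polynomial Finset

variable {F K : Type*} [Field F] [Field K] [Algebra F K] {p : ℕ} {ζ : K}

/-- restriction of automorphisms over `E` to a normal subextension `N`. -/
noncomputable def resHom (E N : IntermediateField F K) [Normal F N] :
    E.fixingSubgroup →* (N ≃ₐ[F] N) :=
  (AlgEquiv.restrictNormalHom N).comp E.fixingSubgroup.subtype

theorem resHom_apply (E N : IntermediateField F K) [Normal F N] (u : E.fixingSubgroup) (x : N) :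
    ((resHom E N u x : N) : K) = (u : K ≃ₐ[F] K) x :=
  AlgEquiv.restrictNormal_commutes (u : K ≃ₐ[F] K) N x

theorem mem_of_fixed [IsGalois F K] (E : IntermediateField F K) (x : K)
    (h : ∀ τ ∈ E.fixingSubgroup, τ x = x) : x ∈ E := by
  rw [← InfiniteGalois.fixedField_fixingSubgroup E, IntermediateField.mem_fixedField_iff]
  exact h

theorem sum_mem_E [IsGalois F K] {E N : IntermediateField F K} [Normal F N]
    [Fintype (resHom E N).range] (y : N) :
    ∑ g : (resHom E N).range, (((g : N ≃ₐ[F] N) y : N) : K) ∈ E := by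
  apply mem_of_fixed
  intro τ hτ
  rw [map_sum]
  let g0 : (resHom E N).range := ⟨resHom E N ⟨τ, hτ⟩, ⟨τ, hτ⟩, rfl⟩
  refine Eq.trans ?_ (Equiv.sum_comp (Equiv.mulLeft g0)
    (fun g : (resHom E N).range => (((g : N ≃ₐ[F] N) y : N) : K)))
  apply sum_congr rfl
  intro g _
  exact (resHom_apply E N ⟨τ, hτ⟩ ((g : N ≃ₐ[F] N) y)).symm

theorem prod_mem_E [IsGalois F K] {E N : IntermediateField F K} [Normal F N]
    [Fintype (resHom E N).range] (y : N) :
    ∏ g : (resHom E N).range, (((g : N ≃ₐ[F] N) y : N) : K) ∈ E := by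
  apply mem_of_fixed
  intro τ hτ
  rw [map_prod]
  let g0 : (resHom E N).range := ⟨resHom E N ⟨τ, hτ⟩, ⟨τ, hτ⟩, rfl⟩
  refine Eq.trans ?_ (Equiv.prod_comp (Equiv.mulLeft g0)
    (fun g : (resHom E N).range => (((g : N ≃ₐ[F] N) y : N) : K)))
  apply prod_congr rfl
  intro g _
  exact (resHom_apply E N ⟨τ, hτ⟩ ((g : N ≃ₐ[F] N) y)).symm

theorem inertia_finite (Cx : Ctx p F K ζ) {E N : IntermediateField F K}
    [FiniteDimensional F N] [IsGalois F N] {O : ValuationSubring K}
    (hinv : ∀ (σ : K ≃ₐ[F] K) (x : K), x ∈ O → σ x ∈ O) (hp1 : O.valuation (p : K) = 1)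
    {β : K} (hβN : β ∈ N) (hβ0 : β ≠ 0) (hβp : β ^ p ∈ E)
    (hnd : ∀ y ∈ E, O.valuation (β ^ p * y ^ p) ≠ 1) :
    ∃ σ : K ≃ₐ[F] K, σ β ≠ β ∧ ∀ x ∈ N, x ∈ O → O.valuation (σ x - x) < 1 := by
  classical
  have := Cx.pc.gal
  have hp := Cx.hp
  have : Fact p.Prime := ⟨hp⟩
  by_contra hcon0
  have hcon : ∀ σ : K ≃ₐ[F] K, (∀ x ∈ N, x ∈ O → O.valuation (σ x - x) < 1) → σ β = β := by
    intro σ h
    by_contra h2
    exact hcon0 ⟨σ, h2, h⟩
  clear hcon0
  have : Fintype (resHom E N).range := Fintype.ofFinite _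
  have hP : IsPGroup p (resHom E N).range := (isPGroup_of_PCl Cx.pc N).to_subgroup _
  set P := (resHom E N).range with hPdef
  have hrep : ∀ g : P, ∃ u : E.fixingSubgroup, ∀ x : N,
      (((g : N ≃ₐ[F] N) x : N) : K) = (u : K ≃ₐ[F] K) x := by
    rintro ⟨g, u, rfl⟩
    exact ⟨u, fun x => resHom_apply E N u x⟩
  have hgO : ∀ (g : P) (x : N), (x : K) ∈ O → (((g : N ≃ₐ[F] N) x : N) : K) ∈ O := by
    intro g x hx
    obtain ⟨u, hu⟩ := hrep g
    rw [hu]; exact hinv _ _ hx
  let ON : Submonoid N :=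
    { carrier := {x | (x : K) ∈ O}
      mul_mem' := fun {a b} ha hb => by
        show ((a * b : N) : K) ∈ O
        push_cast; exact O.mul_mem _ _ ha hb
      one_mem' := O.one_mem }
  let rs := IsLocalRing.residue O
  let r : P → (ON →* IsLocalRing.ResidueField O) := fun g =>
    { toFun := fun x => rs ⟨(((g : N ≃ₐ[F] N) (x : N) : N) : K), hgO g x x.2⟩
      map_one' := by
        rw [← map_one rs]
        congr 1
        apply Subtype.ext
        show (((g : N ≃ₐ[F] N) ((1 : ON) : N) : N) : K) = 1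
        have : ((1 : ON) : N) = 1 := rfl
        rw [this, map_one]; rfl
      map_mul' := by
        intro x y
        rw [← map_mul rs]
        congr 1
        apply Subtype.ext
        show (((g : N ≃ₐ[F] N) ((x * y : ON) : N) : N) : K) = _
        have : ((x * y : ON) : N) = (x : N) * (y : N) := rfl
        rw [this, map_mul]; rfl }
  have hr : ∀ (g : P) (x : ON), r g x
      = rs ⟨(((g : N ≃ₐ[F] N) (x : N) : N) : K), hgO g x x.2⟩ := fun _ _ => rfl
  set βN : N := ⟨β, hβN⟩ with hβNdef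
  -- the character
  have hchi : ∀ g : P, ((((g : N ≃ₐ[F] N) βN : N) : K) / β) ^ p = 1 := by
    intro g
    obtain ⟨u, hu⟩ := hrep g
    rw [hu, div_pow, ← map_pow]
    have : (u : K ≃ₐ[F] K) (β ^ p) = β ^ p :=
      (IntermediateField.mem_fixingSubgroup_iff E _).mp u.2 _ hβp
    show (u : K ≃ₐ[F] K) (β ^ p) / β ^ p = 1
    rw [this, div_self (pow_ne_zero _ hβ0)]
  have hchiv : ∀ g : P, O.valuation ((((g : N ≃ₐ[F] N) βN : N) : K) / β) = 1 := by
    intro g
    have h := congrArg O.valuation (hchi g)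
    rw [map_pow, map_one] at h
    exact (pow_eq_one_iff_of_nonneg zero_le hp.ne_zero).mp h
  let chi : P → O := fun g => ⟨(((g : N ≃ₐ[F] N) βN : N) : K) / β, by
    rw [← O.valuation_le_one_iff]; exact (hchiv g).le⟩
  have hI : ∀ g : P, r g = r 1 → (((g : N ≃ₐ[F] N) βN : N) : K) = β := by
    intro g hg
    obtain ⟨u, hu⟩ := hrep g
    rw [hu]
    apply hcon
    intro x hxN hxO
    have h1 : r g ⟨⟨x, hxN⟩, hxO⟩ = r 1 ⟨⟨x, hxN⟩, hxO⟩ := by rw [hg]
    rw [hr, hr, ← sub_eq_zero, ← map_sub, residue_eq_zero] at h1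
    have h2 := hu ⟨x, hxN⟩
    have h3 : ((⟨(((g : N ≃ₐ[F] N) ⟨x, hxN⟩ : N) : K), hgO g ⟨x, hxN⟩ hxO⟩ : O) : K)
      = (u : K ≃ₐ[F] K) x := h2
    rw [AddSubgroupClass.coe_sub, h3] at h1
    exact h1
  -- the inertia subgroup
  let I : Subgroup P :=
    { carrier := {g | r g = r 1}
      mul_mem' := by
        intro a b ha hb
        show r (a * b) = r 1
        ext x
        have h1 : r (a * b) x = r a ⟨(b : N ≃ₐ[F] N) (x : N), hgO b x x.2⟩ := rfl
        rw [h1, show r a = r 1 from ha]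
        have h2 : r 1 ⟨(b : N ≃ₐ[F] N) (x : N), hgO b x x.2⟩ = r b x := rfl
        rw [h2, show r b = r 1 from hb]
      one_mem' := rfl
      inv_mem' := by
        intro a ha
        show r a⁻¹ = r 1
        ext x
        have h1 : r a⁻¹ x = r 1 ⟨((a⁻¹ : P) : N ≃ₐ[F] N) (x : N), hgO a⁻¹ x x.2⟩ := rfl
        rw [h1, ← show r a = r 1 from ha]
        have h2 : r a ⟨((a⁻¹ : P) : N ≃ₐ[F] N) (x : N), hgO a⁻¹ x x.2⟩ = r (a * a⁻¹) x := rfl
        rw [h2, mul_inv_cancel, ha] }
  obtain ⟨m, hm⟩ := IsPGroup.iff_card.mp (hP.to_subgroup I)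
  have hcard : (univ.filter (fun g : P => r g = r 1)).card = p ^ m := by
    rw [← hm, Nat.card_eq_fintype_card, Fintype.card_subtype]
    rfl
  have hpk : ((p ^ m : ℕ) : IsLocalRing.ResidueField O) ≠ 0 := by
    have h1 : rs ((p : O) ^ m) ≠ 0 := by
      intro h
      rw [residue_eq_zero] at h
      push_cast at h
      rw [map_pow, hp1, one_pow] at h
      exact lt_irrefl _ h
    rw [map_pow, map_natCast] at h1
    push_cast
    exact h1
  -- nonvanishing
  have hex : ∃ x : ON, ∑ g : P, rs (chi g) * r g x ≠ 0 := by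
    by_contra hall
    push Not at hall
    have hli := linearIndependent_iff'.mp (linearIndependent_monoidHom ON
      (IsLocalRing.ResidueField O)) (univ.image r)
      (fun f => ∑ g ∈ univ.filter (fun g : P => r g = f), rs (chi g)) (by
        funext x
        rw [Finset.sum_apply]
        have e1 : ∀ f ∈ univ.image r,
            ((∑ g ∈ univ.filter (fun g : P => r g = f), rs (chi g)) • (f : ON → _)) x
            = ∑ g ∈ univ.filter (fun g : P => r g = f), rs (chi g) * r g x := by
          intro f _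
          rw [Pi.smul_apply, smul_eq_mul, sum_mul]
          apply sum_congr rfl
          intro g hg
          rw [(mem_filter.mp hg).2]
        rw [sum_congr rfl e1,
          sum_fiberwise_of_maps_to (fun g _ => mem_image_of_mem r (mem_univ g))]
        exact hall x) (r 1) (mem_image_of_mem r (mem_univ 1))
    rw [sum_congr rfl (fun g hg => by
      have h1 := hI g (mem_filter.mp hg).2
      show rs (chi g) = 1
      have h2 : chi g = 1 := by
        apply Subtype.ext
        show (((g : N ≃ₐ[F] N) βN : N) : K) / β = 1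
        rw [h1, div_self hβ0]
      rw [h2, map_one]), sum_const, hcard, nsmul_eq_mul, mul_one] at hli
    exact hpk hli
  obtain ⟨u0, hu0⟩ := hex
  set w : O := ∑ g : P, chi g * ⟨(((g : N ≃ₐ[F] N) (u0 : N) : N) : K), hgO g u0 u0.2⟩ with hw
  have hw1 : O.valuation (w : K) = 1 := by
    have h1 : rs w ≠ 0 := by
      rw [hw, map_sum]
      simp only [map_mul]
      exact hu0
    have h2 : ¬ O.valuation (w : K) < 1 := fun h => h1 ((residue_eq_zero w).mpr h)
    exact le_antisymm (O.valuation_le_one w) (not_lt.mp h2)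
  have he : β * (w : K) ∈ E := by
    have h1 := sum_mem_E (E := E) (βN * (u0 : N))
    have h2 : β * (w : K) = ∑ g : P, (((g : N ≃ₐ[F] N) (βN * (u0 : N)) : N) : K) := by
      rw [hw, AddSubmonoidClass.coe_finsetSum, mul_sum]
      apply sum_congr rfl
      intro g _
      rw [map_mul]
      push_cast
      show β * ((((g : N ≃ₐ[F] N) βN : N) : K) / β * _) = _
      field_simp
    rw [h2]; exact h1
  apply hnd _ (E.inv_mem he)
  have hvβ : O.valuation β ≠ 0 := (Valuation.ne_zero_iff _).mpr hβ0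
  rw [← mul_pow, map_pow, map_mul, map_inv₀, map_mul, hw1, mul_one, mul_inv_cancel₀ hvβ, one_pow]

theorem isClosed_apply [IsGalois F K] (x : K) (Q : K → Prop) :
    IsClosed {σ : K ≃ₐ[F] K | Q (σ x)} := by
  rw [← isOpen_compl_iff, isOpen_iff_forall_mem_open]
  intro σ hσ
  have hx : IsIntegral F x := Algebra.IsIntegral.isIntegral x
  have : FiniteDimensional F (IntermediateField.adjoin F {x}) :=
    IntermediateField.adjoin.finiteDimensional hx
  have hopen := IntermediateField.fixingSubgroup_isOpen (IntermediateField.adjoin F {x})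
  refine ⟨(fun τ => σ⁻¹ * τ) ⁻¹' ((IntermediateField.adjoin F {x}).fixingSubgroup : Set _), ?_,
    hopen.preimage (continuous_const_mul σ⁻¹), ?_⟩
  · intro τ hτ
    have h1 : (σ⁻¹ * τ) x = x :=
      (IntermediateField.mem_fixingSubgroup_iff _ _).mp hτ x
        (IntermediateField.mem_adjoin_simple_self F x)
    have h2 : τ x = σ x := by
      have := congrArg σ h1
      rw [AlgEquiv.mul_apply, ← AlgEquiv.mul_apply, mul_inv_cancel, AlgEquiv.one_apply] at this
      exact this
    show ¬ Q (τ x)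
    rw [h2]; exact hσ
  · show σ⁻¹ * σ ∈ ((IntermediateField.adjoin F {x}).fixingSubgroup : Set (K ≃ₐ[F] K))
    rw [inv_mul_cancel]; exact Subgroup.one_mem _

/-- **inertia is nontrivial**. -/
theorem inertia (Cx : Ctx p F K ζ) {E : IntermediateField F K}
    {O : ValuationSubring K} (hinv : ∀ (σ : K ≃ₐ[F] K) (x : K), x ∈ O → σ x ∈ O)
    (hp1 : O.valuation (p : K) = 1) (hnd : Nd p E O) :
    ∃ σ : K ≃ₐ[F] K, σ ≠ 1 ∧ ∀ x ∈ O, O.valuation (σ x - x) < 1 := by
  have := Cx.pc.gal
  have hp := Cx.hp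
  obtain ⟨z, hz, hz0, hzy⟩ := hnd
  obtain ⟨β, rfl⟩ := Cx.pc.root z
  have hβ0 : β ≠ 0 := by
    rintro rfl; exact hz0 (zero_pow hp.ne_zero)
  have key := CompactSpace.iInter_nonempty (X := K ≃ₐ[F] K)
    (t := fun x : O => {σ : K ≃ₐ[F] K | σ β ≠ β} ∩ {σ | O.valuation (σ (x : K) - x) < 1})
    (fun x => (isClosed_apply β (fun y => y ≠ β)).inter
      (isClosed_apply (x : K) (fun y => O.valuation (y - (x : K)) < 1)))
    (by
      intro s
      -- a finite Galois extension containing everything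
      classical
      set Sset : Finset K := insert β (s.image (fun x : O => (x : K))) with hS
      have hfin : FiniteDimensional F (IntermediateField.adjoin F (Sset : Set K)) :=
        IntermediateField.finiteDimensional_adjoin
          (fun x _ => Algebra.IsIntegral.isIntegral x)
      set M := IntermediateField.adjoin F (Sset : Set K) with hM
      set N := IntermediateField.normalClosure F M K with hN
      have hMN : M ≤ N := IntermediateField.le_normalClosure M
      have hmem : ∀ x ∈ Sset, x ∈ N := fun x hx =>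
        hMN (IntermediateField.subset_adjoin F _ hx)
      obtain ⟨σ, hσβ, hσ⟩ := inertia_finite Cx (E := E) (N := N) hinv hp1
        (hmem β (mem_insert_self _ _)) hβ0 hz hzy
      refine ⟨σ, ?_⟩
      rw [Set.mem_iInter₂]
      intro x hx
      exact ⟨hσβ, hσ x (hmem _ (mem_insert_of_mem (mem_image_of_mem _ hx))) x.2⟩)
  obtain ⟨σ, hσ⟩ := key
  rw [Set.mem_iInter] at hσ
  refine ⟨σ, ?_, fun x hx => (hσ ⟨x, hx⟩).2⟩
  intro h
  apply (hσ 1).1
  rw [h]; rfl

end Pool.Agent.Helper25.ETC
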