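import Pool.Agent.Helper25.ETCCan

/-!
# Exponent bookkeeping and the totally rigid case
-/

set_option autoImplicit false

namespace Pool.Agent.Helper25.ETC

variable {k : Type*} [Field k] {T : Set k} {p : ℕ}

theorem IsMG.zpow (h : IsMG T) {x : k} (hx : x ∈ T) (n : ℤ) : x ^ n ∈ T := by
  cases n with
  | ofNat n => simpa using h.pow hx n
  | negSucc n =>
    rw [zpow_negSucc]; exact h.inv (h.pow hx _)

theorem IsMG.root (h : IsMG T) (hp : p.Prime) {x : k} (hx0 : x ≠ 0) (hxp : x ^ p ∈ T) {n : ℤ}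
    (hn : ¬ (p : ℤ) ∣ n) (hxn : x ^ n ∈ T) : x ∈ T := by
  have hcop : IsCoprime (p : ℤ) n := (Nat.prime_iff_prime_int.mp hp).irreducible.coprime_iff_not_dvd.mpr hn
  obtain ⟨u, v, huv⟩ := hcop
  have e : x = (x ^ p) ^ u * (x ^ n) ^ v := by
    rw [← zpow_natCast, ← zpow_mul, ← zpow_mul, ← zpow_add₀ hx0]
    have : (p : ℤ) * u + n * v = 1 := by linear_combination huv
    rw [this, zpow_one]
  rw [e]; exact h.mul (h.zpow hxp u) (h.zpow hxn v)

theorem IsMG.zpow_of_dvd (h : IsMG T) {x : k} (hxp : x ^ p ∈ T) {n : ℤ}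
    (hn : (p : ℤ) ∣ n) : x ^ n ∈ T := by
  obtain ⟨m, rfl⟩ := hn
  rw [zpow_mul, zpow_natCast]
  exact h.zpow hxp m

/-- independence modulo `T`. -/
def Ind (p : ℕ) (T : Set k) (x z : k) : Prop :=
  x ≠ 0 ∧ z ≠ 0 ∧ ∀ a b : ℤ, x ^ a * z ^ b ∈ T → (p : ℤ) ∣ a ∧ (p : ℤ) ∣ b

theorem ind_of (h : IsMG T) (hp : p.Prime) {x z : k} (hxp : x ^ p ∈ T) (hzp : z ^ p ∈ T)
    (hx0 : x ≠ 0) (hz0 : z ≠ 0) (hx : x ∉ T) (hz : ∀ j : ℤ, z * x ^ j ∉ T) : Ind p T x z := by
  refine ⟨hx0, hz0, fun a b hab => ?_⟩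
  have hb : (p : ℤ) ∣ b := by
    by_contra hb
    have hcop : IsCoprime (p : ℤ) b :=
      (Nat.prime_iff_prime_int.mp hp).irreducible.coprime_iff_not_dvd.mpr hb
    obtain ⟨u, v, huv⟩ := hcop
    apply hz (a * v)
    have e : z * x ^ (a * v) = (z ^ p) ^ u * (x ^ a * z ^ b) ^ v := by
      rw [mul_zpow, ← zpow_natCast, ← zpow_mul, ← zpow_mul, ← zpow_mul]
      have e2 : z = z ^ ((p : ℤ) * u + b * v) := by
        have : (p : ℤ) * u + b * v = 1 := by linear_combination huv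
        rw [this, zpow_one]
      conv_lhs => rw [e2]
      rw [zpow_add₀ hz0]; ring
    rw [e]; exact h.mul (h.zpow hzp u) (h.zpow hab v)
  have ha : (p : ℤ) ∣ a := by
    by_contra ha
    apply hx
    apply h.root hp hx0 hxp ha
    rwa [h.mul_right (h.zpow_of_dvd hzp hb)] at hab
  exact ⟨ha, hb⟩

theorem Ind.left (_h : IsMG T) {x z : k} (hi : Ind p T x z) (hp : p.Prime) : x ∉ T := by
  intro hx
  have := (hi.2.2 1 0 (by simpa using hx)).1
  exact hp.one_lt.ne' (by exact_mod_cast Int.eq_one_of_dvd_one (by positivity) this)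

theorem Ind.swap {x z : k} (hi : Ind p T x z) : Ind p T z x :=
  ⟨hi.2.1, hi.1, fun a b hab => by
    have := hi.2.2 b a (by rwa [mul_comm])
    exact ⟨this.2, this.1⟩⟩

/-- congruence modulo `T`. -/
def cg (T : Set k) (a b : k) : Prop := a / b ∈ T

namespace cg

variable {a b c d : k}

theorem ne_left (h : IsMG T) (hab : cg T a b) : a ≠ 0 := by
  rintro rfl; unfold cg at hab; rw [zero_div] at hab; exact h.zero hab

theorem ne_right (h : IsMG T) (hab : cg T a b) : b ≠ 0 := by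
  rintro rfl; unfold cg at hab; rw [div_zero] at hab; exact h.zero hab

theorem refl (h : IsMG T) (ha : a ≠ 0) : cg T a a := by
  unfold cg; rw [div_self ha]; exact h.one

theorem symm (h : IsMG T) (hab : cg T a b) : cg T b a := by
  unfold cg at *
  have := h.inv hab
  rwa [inv_div] at this

theorem trans (h : IsMG T) (hab : cg T a b) (hbc : cg T b c) : cg T a c := by
  have hb := hab.ne_right h
  unfold cg at *
  have := h.mul hab hbc
  rwa [div_mul_div_cancel₀ hb] at this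

theorem mul (h : IsMG T) (hab : cg T a b) (hcd : cg T c d) : cg T (a * c) (b * d) := by
  unfold cg at *
  have := h.mul hab hcd
  rwa [div_mul_div_comm] at this

theorem inv (h : IsMG T) (hab : cg T a b) : cg T a⁻¹ b⁻¹ := by
  unfold cg at *
  have := h.inv hab
  rwa [inv_div, ← inv_div_inv] at this

theorem div (h : IsMG T) (hab : cg T a b) (hcd : cg T c d) : cg T (a / c) (b / d) := by
  rw [div_eq_mul_inv, div_eq_mul_inv]; exact mul h hab (inv h hcd)

theorem zpow (h : IsMG T) (hab : cg T a b) (n : ℤ) : cg T (a ^ n) (b ^ n) := by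
  unfold cg at *
  rw [← div_zpow]; exact h.zpow hab n

theorem mem_iff (h : IsMG T) (hab : cg T a b) : a ∈ T ↔ b ∈ T := by
  have hb := hab.ne_right h
  have e : a = (a / b) * b := by field_simp
  rw [e, h.mul_left hab]

end cg

/-- the additive rigidity relation `1 - x ≡ x ^ i`. -/
def Io (T : Set k) (x : k) (i : ℤ) : Prop := cg T (1 - x) (x ^ i)

/-- the basic relation between exponents. -/
theorem exponent_relation (hT : IsMG T)
    (tot : ∀ z : k, z ≠ 0 → z ∉ T → ∃ i : ℤ, Io T z i) {x y : k} (hi : Ind p T x y)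
    {i b e : ℤ} (h1 : Io T x i) (h2 : Io T y b) (h3 : Io T (y / x) e) :
    (p : ℤ) ∣ b * (1 - e) + i * (e - b) := by
  have hx0 := hi.1
  have hy0 := hi.2.1
  have h1x := h1.ne_left hT
  have h1y := h2.ne_left hT
  have h1yx := h3.ne_left hT
  have hxy : x - y ≠ 0 := by
    intro h
    apply h1yx
    have : y = x := by linear_combination -h
    rw [this, div_self hx0, sub_self]
  set u : k := (1 - x) / (1 - y) with hu
  have hu0 : u ≠ 0 := div_ne_zero h1x h1y
  have e1 : 1 - u = x * (1 - y / x) / (1 - y) := by rw [hu]; field_simp; ring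
  have cu : cg T u (x ^ i / y ^ b) := cg.div hT h1 h2
  have c1u : cg T (1 - u) (x ^ (1 - e) * y ^ (e - b)) := by
    rw [e1]
    have h4 := cg.div hT (cg.mul hT (cg.refl hT hx0) h3) h2
    have e2 : x * (y / x) ^ e / y ^ b = x ^ (1 - e) * y ^ (e - b) := by
      rw [div_zpow, zpow_sub₀ hx0, zpow_sub₀ hy0, zpow_one]
      field_simp
    rwa [e2] at h4
  by_cases huT : u ∈ T
  · rw [cu.mem_iff hT] at huT
    have h4 := hi.2.2 i (-b) (by rwa [zpow_neg, ← div_eq_mul_inv])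
    exact dvd_add (Dvd.dvd.mul_right ((Int.dvd_neg).mp h4.2) _) (Dvd.dvd.mul_right h4.1 _)
  · obtain ⟨m, hm⟩ := tot u hu0 huT
    have h5 : cg T (x ^ (1 - e) * y ^ (e - b)) ((x ^ i / y ^ b) ^ m) :=
      cg.trans hT (cg.symm hT c1u) (cg.trans hT hm (cg.zpow hT cu m))
    have h6 : x ^ (1 - e - i * m) * y ^ (e - b + b * m) ∈ T := by
      have e3 : x ^ (1 - e - i * m) * y ^ (e - b + b * m)
          = x ^ (1 - e) * y ^ (e - b) / (x ^ i / y ^ b) ^ m := by
        rw [div_zpow, ← zpow_mul, ← zpow_mul, zpow_sub₀ hx0, zpow_add₀ hy0]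
        field_simp
      rw [e3]; exact h5
    have h7 := hi.2.2 _ _ h6
    have e4 : b * (1 - e) + i * (e - b) = (1 - e - i * m) * b + (e - b + b * m) * i := by ring
    rw [e4]
    exact dvd_add (Dvd.dvd.mul_right h7.1 _) (Dvd.dvd.mul_right h7.2 _)

section kappa

variable [Fact p.Prime]

/-- non-strongly-rigid with `κ`-value `c` : `1 - x ≡ x ^ i` with `i ≠ 0, 1` and `c = i/(i-1)`. -/
def Kap (p : ℕ) [Fact p.Prime] (T : Set k) (x : k) (c : ZMod p) : Prop :=
  ∃ i : ℤ, Io T x i ∧ (i : ZMod p) ≠ 0 ∧ (i : ZMod p) ≠ 1 ∧ c = (i : ZMod p) / ((i : ZMod p) - 1)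

theorem Kap.ne_one {x : k} {c : ZMod p} (h : Kap p T x c) : c ≠ 1 := by
  obtain ⟨i, -, -, h1, rfl⟩ := h
  intro h
  have h2 : (i : ZMod p) - 1 ≠ 0 := sub_ne_zero.mpr h1
  rw [div_eq_one_iff_eq h2] at h
  have : (1 : ZMod p) = 0 := by linear_combination h
  exact one_ne_zero this

theorem Kap.ne_zero {x : k} {c : ZMod p} (h : Kap p T x c) : c ≠ 0 := by
  obtain ⟨i, -, h0, h1, rfl⟩ := h
  exact div_ne_zero h0 (sub_ne_zero.mpr h1)

theorem Kap.inv (hT : IsMG T) (hneg : (-1 : k) ∈ T) {x : k} (hx0 : x ≠ 0) {c : ZMod p}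
    (h : Kap p T x c) : Kap p T x⁻¹ c⁻¹ := by
  obtain ⟨i, hi, h0, h1, rfl⟩ := h
  refine ⟨1 - i, ?_, ?_, ?_, ?_⟩
  · unfold Io cg at *
    have e : (1 - x⁻¹) / x⁻¹ ^ (1 - i) = -1 * ((1 - x) / x ^ i) := by
      rw [inv_zpow, zpow_sub₀ hx0, zpow_one]
      field_simp; ring
    rw [e]; exact hT.mul hneg hi
  · push_cast; intro h; apply h1; linear_combination -h
  · push_cast; intro h; apply h0; linear_combination -h
  · push_cast
    have h2 : (i : ZMod p) - 1 ≠ 0 := sub_ne_zero.mpr h1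
    have h3 : (1 - (i : ZMod p)) ≠ 0 := by intro h; apply h1; linear_combination -h
    have h4 : (1 - (i : ZMod p)) - 1 ≠ 0 := by intro h; apply h0; linear_combination -h
    field_simp
    ring

theorem Kap.mul (hT : IsMG T)
    (tot : ∀ z : k, z ≠ 0 → z ∉ T → ∃ i : ℤ, Io T z i) {x z : k} (hi : Ind p T x z)
    {c d : ZMod p} (h1 : Kap p T x c) (h2 : Kap p T z d) : Kap p T (x * z) (c * d) := by
  have hp : p.Prime := Fact.out
  obtain ⟨i, hxi, hi0, hi1, rfl⟩ := h1
  obtain ⟨e, hze, he0, he1, rfl⟩ := h2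
  have hx0 := hi.1
  have hz0 := hi.2.1
  have hxz : Ind p T x (x * z) := by
    refine ⟨hx0, mul_ne_zero hx0 hz0, fun a b hab => ?_⟩
    have e1 : x ^ a * (x * z) ^ b = x ^ (a + b) * z ^ b := by
      rw [mul_zpow, zpow_add₀ hx0]; ring
    rw [e1] at hab
    have h3 := hi.2.2 _ _ hab
    refine ⟨?_, h3.2⟩
    have := dvd_sub h3.1 h3.2
    rwa [add_sub_cancel_right] at this
  have hxzT : x * z ∉ T := (Ind.swap hxz).left hT hp
  obtain ⟨b, hb⟩ := tot (x * z) hxz.2.1 hxzT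
  have hz' : Io T (x * z / x) e := by
    rw [mul_comm, mul_div_assoc, div_self hx0, mul_one]; exact hze
  have key := exponent_relation (p := p) hT tot hxz hxi hb hz'
  have key2 : (b : ZMod p) * (1 - e) + i * (e - b) = 0 := by
    have := (ZMod.intCast_zmod_eq_zero_iff_dvd _ p).mpr key
    push_cast at this
    exact this
  -- `b (i + e - 1) = i e`
  have key3 : (b : ZMod p) * (i + e - 1) = i * e := by linear_combination -key2
  have hD : ((i : ZMod p) + e - 1) ≠ 0 := by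
    intro h; rw [h, mul_zero] at key3; exact mul_ne_zero hi0 he0 key3.symm
  refine ⟨b, hb, ?_, ?_, ?_⟩
  · intro h; rw [h, zero_mul] at key3; exact mul_ne_zero hi0 he0 key3.symm
  · intro h
    rw [h, one_mul] at key3
    have : ((i : ZMod p) - 1) * (e - 1) = 0 := by linear_combination -key3
    rcases mul_eq_zero.mp this with h | h
    · exact hi1 (sub_eq_zero.mp h)
    · exact he1 (sub_eq_zero.mp h)
  · have hi1' : (i : ZMod p) - 1 ≠ 0 := sub_ne_zero.mpr hi1
    have he1' : (e : ZMod p) - 1 ≠ 0 := sub_ne_zero.mpr he1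
    have hb' : (b : ZMod p) = i * e / (i + e - 1) := by
      rw [eq_div_iff hD]; exact key3
    have hb1 : (b : ZMod p) - 1 = (i - 1) * (e - 1) / (i + e - 1) := by
      rw [hb']; field_simp; ring
    rw [hb1, hb']
    field_simp

/-- **the κ-lemma**: in the totally rigid case all non-strongly-rigid elements are in one
cyclic group modulo `T`. -/
theorem kappa_lemma (hT : IsMG T) (hneg : (-1 : k) ∈ T) (hp' : ∀ x : k, x ≠ 0 → x ^ p ∈ T)
    (tot : ∀ z : k, z ≠ 0 → z ∉ T → ∃ i : ℤ, Io T z i) {x z : k} (hx : x ∈ NS T)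
    (hz : z ∈ NS T) : ∃ j : ℤ, z * x ^ j ∈ T := by
  have hp : p.Prime := Fact.out
  by_contra hcon
  push Not at hcon
  have hind := ind_of hT hp (hp' x hx.1) (hp' z hz.1) hx.1 hz.1 hx.2.1 hcon
  have kap : ∀ w ∈ NS T, ∃ c, Kap p T w c := by
    rintro w ⟨hw0, hwT, hw1, hw2⟩
    obtain ⟨i, hi⟩ := tot w hw0 hwT
    refine ⟨_, i, hi, ?_, ?_, rfl⟩
    · intro h
      rw [ZMod.intCast_zmod_eq_zero_iff_dvd] at h
      apply hw1
      rw [cg.mem_iff hT hi]
      exact hT.zpow_of_dvd (hp' w hw0) h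
    · intro h
      have h' : ((i - 1 : ℤ) : ZMod p) = 0 := by push_cast; rw [h, sub_self]
      rw [ZMod.intCast_zmod_eq_zero_iff_dvd] at h'
      apply hw2
      have h3 : cg T ((1 - w) * w⁻¹) (w ^ (i - 1)) := by
        rw [zpow_sub₀ hw0, zpow_one, div_eq_mul_inv]
        exact cg.mul hT hi (cg.refl hT (inv_ne_zero hw0))
      rw [h3.mem_iff hT]
      exact hT.zpow_of_dvd (hp' w hw0) h'
  obtain ⟨c, hc⟩ := kap x hx
  obtain ⟨d, hd⟩ := kap z hz
  have hx0 := hx.1
  have hz0 := hz.1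
  have step : ∀ m : ℕ, Kap p T (x ^ m * z) (c ^ m * d) := by
    intro m
    induction m with
    | zero => simpa using hd
    | succ m ih =>
      have hi : Ind p T x (x ^ m * z) := by
        refine ⟨hx0, mul_ne_zero (pow_ne_zero _ hx0) hz0, fun a b hab => ?_⟩
        have e1 : x ^ a * (x ^ m * z) ^ b = x ^ (a + m * b) * z ^ b := by
          rw [mul_zpow, zpow_add₀ hx0, ← zpow_natCast, ← zpow_mul]; ring
        rw [e1] at hab
        have h3 := hind.2.2 _ _ hab
        refine ⟨?_, h3.2⟩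
        have := dvd_sub h3.1 (Dvd.dvd.mul_left h3.2 m)
        rwa [add_sub_cancel_right] at this
      have := Kap.mul hT tot hi hc ih
      rw [← mul_assoc, ← mul_assoc, ← pow_succ', ← pow_succ'] at this
      exact this
  have h1 := step (p - 1)
  rw [ZMod.pow_card_sub_one_eq_one hc.ne_zero, one_mul] at h1
  have h2 := hd.inv hT hneg hz0
  have hi : Ind p T (x ^ (p - 1) * z) z⁻¹ := by
    refine ⟨mul_ne_zero (pow_ne_zero _ hx0) hz0, inv_ne_zero hz0, fun a b hab => ?_⟩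
    have e1 : (x ^ (p - 1) * z) ^ a * z⁻¹ ^ b = x ^ (((p - 1 : ℕ) : ℤ) * a) * z ^ (a - b) := by
      rw [mul_zpow, zpow_sub₀ hz0, ← zpow_natCast, ← zpow_mul, inv_zpow]
      field_simp
    rw [e1] at hab
    have h3 := hind.2.2 _ _ hab
    have h4 : (p : ℤ) ∣ a := by
      have h5 : (((p - 1 : ℕ) : ℤ) * a) = p * a - a := by
        rw [Nat.cast_sub hp.one_le]; push_cast; ring
      have h6 := dvd_sub (Dvd.intro a rfl : (p : ℤ) ∣ p * a) h3.1
      rwa [h5, sub_sub_cancel] at h6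
    refine ⟨h4, ?_⟩
    have := dvd_sub h4 h3.2
    rwa [sub_sub_cancel] at this
  have h3 := Kap.mul hT tot hi h1 h2
  apply h3.ne_one
  exact mul_inv_cancel₀ hd.ne_zero

end kappa

end Pool.Agent.Helper25.ETC
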