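import Pool.Agent.Helper25.ETCTowB

/-!
# Kummer theory: the characters of `Gal(K/E)` with values in `ℤ_p`
-/

set_option autoImplicit false

namespace Pool.Agent.Helper25.ETC

open Finset Module

variable {F K : Type*} [Field F] [Field K] [Algebra F K] {p : ℕ} {ζ : K}

/-- representatives of a basis of `E* / E*^p`. -/
theorem exists_pbasis [Fact p.Prime] {E : IntermediateField F K} {s : ℕ}
    (hcard : Nat.card (PC p E) = p ^ s) :
    ∃ a : Fin s → K, (∀ i, a i ∈ E ∧ a i ≠ 0) ∧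
      (∀ x ∈ E, x ≠ 0 → ∃ n : Fin s → ℕ, ∃ w ∈ E, w ≠ 0 ∧ x = (∏ i, a i ^ n i) * w ^ p) ∧
      (∀ n : Fin s → ℕ, (∃ w ∈ E, w ^ p = ∏ i, a i ^ n i) → ∀ i, p ∣ n i) := by
  classical
  have hp : p.Prime := Fact.out
  have hfin : Finite (VV p E) := by
    have h : Nat.card (VV p E) ≠ 0 := by
      change Nat.card (PC p E) ≠ 0
      rw [hcard]
      exact pow_ne_zero _ hp.ne_zero
    exact Nat.finite_of_card_ne_zero h
  have : FiniteDimensional (ZMod p) (VV p E) := inferInstance
  have hfr : finrank (ZMod p) (VV p E) = s := by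
    have h1 : Nat.card (VV p E) = p ^ finrank (ZMod p) (VV p E) := by
      rw [Module.natCard_eq_pow_finrank (K := ZMod p), Nat.card_zmod]
    have h2 : Nat.card (VV p E) = p ^ s := hcard
    exact Nat.pow_right_injective hp.two_le (h1.symm.trans h2)
  let b : Basis (Fin s) (ZMod p) (VV p E) := (finBasisOfFinrankEq (ZMod p) (VV p E) hfr)
  choose a ha ha0 hab using fun i => mkc_mku_surj (b i)
  have hprod : ∀ n : Fin s → ℕ, ∃ (h : ∏ i, a i ^ n i ∈ E) (h0 : ∏ i, a i ^ n i ≠ 0),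
      mkc p E (mku (∏ i, a i ^ n i) h h0) = ∑ i, (n i : ZMod p) • b i := by
    intro n
    have key : ∀ T : Finset (Fin s), ∃ (h : ∏ i ∈ T, a i ^ n i ∈ E) (h0 : ∏ i ∈ T, a i ^ n i ≠ 0),
        mkc p E (mku (∏ i ∈ T, a i ^ n i) h h0) = ∑ i ∈ T, (n i : ZMod p) • b i := by
      intro T
      induction T using Finset.induction_on with
      | empty =>
        refine ⟨by simp, by simp, ?_⟩
        rw [Finset.sum_empty]
        have h1 : (1 : K) ^ p ≠ 0 := by rw [one_pow]; exact one_ne_zero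
        rw [← mkc_mku_pow (p := p) E.one_mem one_ne_zero]
        apply mkc_eq_of_val
        simp [mku_val]
      | insert i T hi ih =>
        obtain ⟨h, h0, h1⟩ := ih
        have hpw : ∀ m : ℕ, mkc p E (mku (a i ^ m) (pow_mem (ha i) m) (pow_ne_zero m (ha0 i))) =
            (m : ZMod p) • b i := by
          intro m
          induction m with
          | zero =>
            rw [Nat.cast_zero, zero_smul, ← mkc_mku_pow (p := p) E.one_mem one_ne_zero]
            apply mkc_eq_of_val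
            simp [mku_val]
          | succ m ih =>
            rw [Nat.cast_succ, add_smul, one_smul, ← ih, ← hab i,
              ← mkc_mku_mul (pow_mem (ha i) m) (pow_ne_zero m (ha0 i)) (ha i) (ha0 i)]
            apply mkc_eq_of_val
            rw [mku_val, mku_val, pow_succ]
        refine ⟨by rw [Finset.prod_insert hi]; exact E.mul_mem (pow_mem (ha i) _) h,
          by rw [Finset.prod_insert hi]; exact mul_ne_zero (pow_ne_zero _ (ha0 i)) h0, ?_⟩
        rw [Finset.sum_insert hi, ← h1, ← hpw (n i),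
          ← mkc_mku_mul (pow_mem (ha i) (n i)) (pow_ne_zero (n i) (ha0 i)) h h0]
        apply mkc_eq_of_val
        rw [mku_val, mku_val, Finset.prod_insert hi]
    exact key univ
  refine ⟨a, fun i => ⟨ha i, ha0 i⟩, ?_, ?_⟩
  · intro x hx hx0
    refine ⟨fun i => (b.repr (mkc p E (mku x hx hx0)) i).val, ?_⟩
    obtain ⟨h, h0, h1⟩ := hprod (fun i => (b.repr (mkc p E (mku x hx hx0)) i).val)
    have h2 : mkc p E (mku x hx hx0) = mkc p E (mku _ h h0) := by
      rw [h1]
      conv_lhs => rw [← b.sum_repr (mkc p E (mku x hx hx0))]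
      apply Finset.sum_congr rfl
      intro i _
      rw [ZMod.natCast_zmod_val]
    obtain ⟨z, hz, hz0, hxz⟩ := (mkc_mku_eq_iff hp.ne_zero hx hx0 h h0).mp h2
    exact ⟨z, hz, hz0, hxz⟩
  · rintro n ⟨w, hw, hwp⟩ i
    obtain ⟨h, h0, h1⟩ := hprod n
    have hw0 : w ≠ 0 := by
      rintro rfl
      rw [zero_pow hp.ne_zero] at hwp
      exact h0 hwp.symm
    have h2 : mkc p E (mku _ h h0) = 0 := by
      rw [← mkc_mku_pow (p := p) hw hw0]
      apply mkc_eq_of_val
      rw [mku_val, mku_val, hwp]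
    rw [h1] at h2
    have h3 := (Fintype.linearIndependent_iff.mp b.linearIndependent) _ h2 i
    exact (ZMod.natCast_eq_zero_iff _ _).mp h3


/-- every element of `E` is a product of the basis elements times a `p^j`-th power. -/
theorem pbasis_pow {E : IntermediateField F K} {s : ℕ} {a : Fin s → K}
    (hspan : ∀ x ∈ E, x ≠ 0 → ∃ n : Fin s → ℕ, ∃ w ∈ E, w ≠ 0 ∧ x = (∏ i, a i ^ n i) * w ^ p)
    (j : ℕ) : ∀ x ∈ E, x ≠ 0 → ∃ n : Fin s → ℕ, ∃ w ∈ E, w ≠ 0 ∧
      x = (∏ i, a i ^ n i) * w ^ (p ^ j) := by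
  induction j with
  | zero =>
    intro x hx hx0
    exact ⟨fun _ => 0, x, hx, hx0, by simp⟩
  | succ j ih =>
    intro x hx hx0
    obtain ⟨n, w, hw, hw0, rfl⟩ := ih x hx hx0
    obtain ⟨m, v, hv, hv0, rfl⟩ := hspan w hw hw0
    refine ⟨fun i => n i + p ^ j * m i, v, hv, hv0, ?_⟩
    rw [mul_pow, ← pow_mul, ← mul_assoc, ← Finset.prod_pow, ← Finset.prod_mul_distrib]
    congr 1
    · apply Finset.prod_congr rfl
      intro i _
      rw [pow_add, ← pow_mul, mul_comm (m i)]
    · congr 1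
      rw [pow_succ, mul_comm]

theorem isClosed_dvd_sub [Fact p.Prime] (k : ℕ) (c : ℤ_[p]) :
    IsClosed {x : ℤ_[p] | (p : ℤ_[p]) ^ k ∣ x - c} := by
  have : {x : ℤ_[p] | (p : ℤ_[p]) ^ k ∣ x - c} = {x : ℤ_[p] | ‖x - c‖ ≤ (p : ℝ) ^ (-(k : ℤ))} := by
    ext x
    simp only [Set.mem_ofPred_eq]
    rw [PadicInt.norm_le_pow_iff_mem_span_pow, Ideal.mem_span_singleton]
  rw [this]
  exact isClosed_le (by fun_prop) continuous_const

/-- a compatible sequence of residues comes from a `p`-adic integer. -/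
theorem exists_padic_of_compat [Fact p.Prime] (n : ℕ → ℕ)
    (h : ∀ k, (p : ℤ_[p]) ^ k ∣ (n (k + 1) : ℤ_[p]) - n k) :
    ∃ x : ℤ_[p], ∀ k, (p : ℤ_[p]) ^ k ∣ x - n k := by
  have := IsCompact.nonempty_iInter_of_sequence_nonempty_isCompact_isClosed
    (fun k => {x : ℤ_[p] | (p : ℤ_[p]) ^ k ∣ x - n k})
    (by
      intro k x hx
      have h1 : (p : ℤ_[p]) ^ (k + 1) ∣ x - n (k + 1) := hx
      have h2 : (p : ℤ_[p]) ^ k ∣ x - n (k + 1) := (pow_dvd_pow _ (Nat.le_succ k)).trans h1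
      have h3 := dvd_add h2 (h k)
      rwa [sub_add_sub_cancel] at h3)
    (fun k => ⟨n k, by simp⟩)
    (isClosed_dvd_sub 0 _).isCompact (fun k => isClosed_dvd_sub k _)
  obtain ⟨x, hx⟩ := this
  exact ⟨x, fun k => Set.mem_iInter.mp hx k⟩

theorem eq_of_forall_dvd_sub [Fact p.Prime] {x y : ℤ_[p]}
    (h : ∀ k : ℕ, (p : ℤ_[p]) ^ k ∣ x - y) : x = y := by
  have hp : p.Prime := Fact.out
  rw [← sub_eq_zero, ← norm_le_zero_iff]
  apply le_of_tendsto_of_tendsto' tendsto_const_nhds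
    (tendsto_pow_atTop_nhds_zero_of_lt_one (r := (p : ℝ)⁻¹) (by positivity)
      (inv_lt_one_of_one_lt₀ (by exact_mod_cast hp.one_lt)))
  intro k
  rw [inv_pow, ← zpow_natCast, ← zpow_neg, PadicInt.norm_le_pow_iff_mem_span_pow,
    Ideal.mem_span_singleton]
  exact h k

theorem exists_nat_dvd_sub [Fact p.Prime] (x : ℤ_[p]) (k : ℕ) :
    ∃ n : ℕ, (p : ℤ_[p]) ^ k ∣ x - n :=
  ⟨x.appr k, Ideal.mem_span_singleton.mp (PadicInt.appr_spec k x)⟩

theorem natCast_dvd_padic [Fact p.Prime] {k : ℕ} {a b : ℕ} :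
    (p : ℤ_[p]) ^ k ∣ (a : ℤ_[p]) - b ↔ (a : ℤ) ≡ b [ZMOD (p : ℤ) ^ k] := by
  rw [Int.modEq_comm, Int.modEq_iff_dvd]
  have h1 : ((a : ℤ_[p]) - b) = (((a : ℤ) - b : ℤ) : ℤ_[p]) := by push_cast; ring
  rw [h1, ← PadicInt.norm_int_le_pow_iff_dvd, ← Ideal.mem_span_singleton,
    ← PadicInt.norm_le_pow_iff_mem_span_pow]

section

variable [Fact p.Prime] {E : IntermediateField F K} {z : ℕ → F}

theorem zpow_eq_iff (hz : ∀ k, IsPrimitiveRoot (z k) (p ^ k)) {k a b : ℕ} :
    (algebraMap F K (z k)) ^ a = (algebraMap F K (z k)) ^ b ↔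
      (p : ℤ_[p]) ^ k ∣ (a : ℤ_[p]) - b := by
  have hp : p.Prime := Fact.out
  have hk : IsPrimitiveRoot (algebraMap F K (z k)) (p ^ k) :=
    (hz k).map_of_injective (algebraMap F K).injective
  rw [natCast_dvd_padic]
  have h0 : algebraMap F K (z k) ≠ 0 := hk.ne_zero (pow_ne_zero k hp.ne_zero)
  have h1 : ((a : ℤ) ≡ b [ZMOD (p : ℤ) ^ k]) ↔ a ≡ b [MOD (p ^ k)] := by
    rw [← Int.natCast_modEq_iff]; push_cast; rfl
  rw [h1]
  have hord : orderOf (algebraMap F K (z k)) = p ^ k := hk.eq_orderOf.symm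
  rw [← hord]
  exact (isOfFinOrder_iff_pow_eq_one.mpr
    ⟨p ^ k, pow_pos hp.pos k, hk.pow_eq_one⟩).pow_eq_pow_iff_modEq

/-- the Kummer characters: a homomorphism of `Gal(K/E)` onto `ℤ_p ^ s`, `p ^ s = |E* / E*^p|`,
whose reduction modulo `p ^ j` has kernel `Gal(K / E(all p^j-th roots of elements of E))`. -/
theorem exists_kummer (Cx : Ctx p F K ζ) [FiniteDimensional F E]
    (hz : ∀ k, IsPrimitiveRoot (z k) (p ^ k)) (hzz : ∀ k, z (k + 1) ^ p = z k) {s : ℕ}
    (hcard : Nat.card (PC p E) = p ^ s) :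
    ∃ φ : E.fixingSubgroup → (Fin s → ℤ_[p]), Zp E φ ∧
      ∀ (j : ℕ) (σ : E.fixingSubgroup), (∀ i, (p : ℤ_[p]) ^ j ∣ φ σ i) ↔
        ∀ y : K, y ^ (p ^ j) ∈ E → (σ : K ≃ₐ[F] K) y = y := by
  classical
  have hp := Cx.hp
  have := Cx.pc.gal
  obtain ⟨a, ha, hspan, hind⟩ := exists_pbasis hcard
  have hp0 : ∀ k, p ^ k ≠ 0 := fun k => pow_ne_zero k hp.ne_zero
  set Z : ℕ → K := fun k => algebraMap F K (z k) with hZdef
  have hZ : ∀ k, IsPrimitiveRoot (Z k) (p ^ k) := fun k =>
    (hz k).map_of_injective (algebraMap F K).injective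
  have hZZ : ∀ k, Z (k + 1) ^ p = Z k := by
    intro k
    simp only [hZdef]
    rw [← map_pow, hzz]
  have hZE : ∀ k, Z k ∈ E := fun k => E.algebraMap_mem _
  have hσZ : ∀ (σ : E.fixingSubgroup) (k m : ℕ), (σ : K ≃ₐ[F] K) (Z k ^ m) = Z k ^ m := by
    intro σ k m
    rw [map_pow]
    simp only [hZdef]
    rw [AlgEquiv.commutes]
  have hσE : ∀ (σ : E.fixingSubgroup) (x : K), x ∈ E → (σ : K ≃ₐ[F] K) x = x := fun σ x hx =>
    (IntermediateField.mem_fixingSubgroup_iff E _).mp σ.2 x hx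
  -- compatible roots
  obtain ⟨y, hy0, hyp⟩ : ∃ y : Fin s → ℕ → K, (∀ i, y i 0 = a i) ∧
      ∀ i k, (y i (k + 1)) ^ p = y i k :=
    ⟨fun i k => Nat.rec (a i) (fun _ x => (Cx.pc.root x).choose) k, fun _ => rfl,
      fun i k => (Cx.pc.root _).choose_spec⟩
  have hypow : ∀ i k, (y i k) ^ (p ^ k) = a i := by
    intro i k
    induction k with
    | zero => rw [pow_zero, pow_one, hy0]
    | succ k ih => rw [pow_succ', pow_mul, hyp, ih]
  have hyne : ∀ i k, y i k ≠ 0 := by
    intro i k h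
    have h1 := hypow i k
    rw [h, zero_pow (hp0 k)] at h1
    exact (ha i).2 h1.symm
  have key1 : ∀ (σ : E.fixingSubgroup) (i : Fin s) (k : ℕ), ∃ n : ℕ,
      (σ : K ≃ₐ[F] K) (y i k) = Z k ^ n * y i k := by
    intro σ i k
    have h1 : ((σ : K ≃ₐ[F] K) (y i k)) ^ (p ^ k) = (y i k) ^ (p ^ k) := by
      rw [← map_pow, hypow, hσE σ _ (ha i).1]
    obtain ⟨j, -, hj⟩ := exists_zeta_pow (pow_pos hp.pos k) (hZ k) h1
    exact ⟨j, hj⟩
  have key2 : ∀ (σ : E.fixingSubgroup) (i : Fin s), ∃ x : ℤ_[p], ∀ (k m : ℕ),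
      (p : ℤ_[p]) ^ k ∣ x - m → (σ : K ≃ₐ[F] K) (y i k) = Z k ^ m * y i k := by
    intro σ i
    choose n hn using key1 σ i
    obtain ⟨x, hx⟩ := exists_padic_of_compat (p := p) n (by
      intro k
      rw [← zpow_eq_iff (K := K) hz]
      have h1 : (σ : K ≃ₐ[F] K) (y i k) = Z k ^ n (k + 1) * y i k := by
        rw [← hyp i k, map_pow, hn (k + 1), mul_pow, ← pow_mul, mul_comm (n (k + 1)) p, pow_mul,
          hZZ]
      rw [hn k] at h1
      exact (mul_right_cancel₀ (hyne i k) h1).symm)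
    refine ⟨x, fun k m hkm => ?_⟩
    rw [hn k]
    congr 1
    change (algebraMap F K (z k)) ^ n k = (algebraMap F K (z k)) ^ m
    rw [zpow_eq_iff (K := K) hz]
    have h1 := dvd_sub hkm (hx k)
    rwa [sub_sub_sub_cancel_left] at h1
  choose φ hφ using key2
  have hφ' : ∀ (σ : E.fixingSubgroup) (i : Fin s) (k m : ℕ),
      (σ : K ≃ₐ[F] K) (y i k) = Z k ^ m * y i k → (p : ℤ_[p]) ^ k ∣ φ σ i - m := by
    intro σ i k m h
    obtain ⟨m', hm'⟩ := exists_nat_dvd_sub (φ σ i) k
    have h1 := hφ σ i k m' hm'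
    rw [h] at h1
    have h2 := mul_right_cancel₀ (hyne i k) h1
    have h3 : (p : ℤ_[p]) ^ k ∣ (m' : ℤ_[p]) - m := (zpow_eq_iff (K := K) hz).mp h2.symm
    have h4 := dvd_add hm' h3
    rwa [sub_add_sub_cancel] at h4
  have hmul : ∀ σ τ, φ (σ * τ) = φ σ + φ τ := by
    intro σ τ
    funext i
    apply eq_of_forall_dvd_sub
    intro k
    obtain ⟨m1, hm1⟩ := exists_nat_dvd_sub (φ σ i) k
    obtain ⟨m2, hm2⟩ := exists_nat_dvd_sub (φ τ i) k
    have h1 : ((σ * τ : E.fixingSubgroup) : K ≃ₐ[F] K) (y i k) = Z k ^ (m1 + m2) * y i k := by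
      rw [Subgroup.coe_mul, AlgEquiv.mul_apply, hφ τ i k m2 hm2, map_mul, hσZ, hφ σ i k m1 hm1,
        pow_add]
      ring
    have h2 := hφ' _ i k _ h1
    have h3 := dvd_sub (dvd_sub h2 hm1) hm2
    have e : φ (σ * τ) i - ((m1 + m2 : ℕ) : ℤ_[p]) - (φ σ i - m1) - (φ τ i - m2) =
        φ (σ * τ) i - (φ σ + φ τ) i := by
      rw [Pi.add_apply]; push_cast; ring
    rwa [e] at h3
  have hdvd : ∀ (σ : E.fixingSubgroup) (i : Fin s) (k : ℕ),
      (p : ℤ_[p]) ^ k ∣ φ σ i ↔ (σ : K ≃ₐ[F] K) (y i k) = y i k := by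
    intro σ i k
    constructor
    · intro h
      have := hφ σ i k 0 (by rwa [Nat.cast_zero, sub_zero])
      rwa [pow_zero, one_mul] at this
    · intro h
      have := hφ' σ i k 0 (by rwa [pow_zero, one_mul])
      rwa [Nat.cast_zero, sub_zero] at this
  have hiff : ∀ (j : ℕ) (σ : E.fixingSubgroup), (∀ i, (p : ℤ_[p]) ^ j ∣ φ σ i) ↔
        ∀ w : K, w ^ (p ^ j) ∈ E → (σ : K ≃ₐ[F] K) w = w := by
    intro j σ
    constructor
    · intro h w hw
      by_cases hw0 : w = 0
      · rw [hw0, map_zero]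
      obtain ⟨n, v, hv, hv0, hx⟩ := pbasis_pow hspan j _ hw (pow_ne_zero _ hw0)
      have h1 : w ^ (p ^ j) = ((∏ i, y i j ^ n i) * v) ^ (p ^ j) := by
        rw [hx, mul_pow, ← Finset.prod_pow]
        congr 1
        apply Finset.prod_congr rfl
        intro i _
        rw [← pow_mul, mul_comm (n i), pow_mul, hypow]
      obtain ⟨m, -, hm⟩ := exists_zeta_pow (pow_pos hp.pos j) (hZ j) h1
      rw [hm, map_mul, hσZ, map_mul, hσE σ v hv, map_prod]
      congr 2
      apply Finset.prod_congr rfl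
      intro i _
      rw [map_pow, (hdvd σ i j).mp (h i)]
    · intro h i
      rw [hdvd]
      apply h
      rw [hypow]
      exact (ha i).1
  have hone : φ 1 = 0 := by
    have h := hmul 1 1
    rw [mul_one] at h
    exact left_eq_add.mp h
  have hinv : ∀ σ, φ σ⁻¹ = -φ σ := by
    intro σ
    have h := hmul σ σ⁻¹
    rw [mul_inv_cancel, hone] at h
    exact (neg_eq_of_add_eq_zero_right h.symm).symm
  have hpow : ∀ σ (n : ℕ), φ (σ ^ n) = n • φ σ := by
    intro σ n
    induction n with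
    | zero => rw [pow_zero, hone, zero_smul]
    | succ n ih => rw [pow_succ, hmul, ih, succ_nsmul]
  have hopen : ∀ i k, IsOpen {τ : E.fixingSubgroup | (τ : K ≃ₐ[F] K) (y i k) = y i k} := by
    intro i k
    have hint : IsIntegral F (y i k) := Algebra.IsIntegral.isIntegral _
    have : FiniteDimensional F (IntermediateField.adjoin F {y i k}) :=
      IntermediateField.adjoin.finiteDimensional hint
    have h1 := IntermediateField.fixingSubgroup_isOpen (IntermediateField.adjoin F {y i k})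
    have h2 := h1.preimage (continuous_subtype_val : Continuous (Subtype.val : E.fixingSubgroup → _))
    convert h2 using 1
    ext τ
    simp only [Set.mem_ofPred_eq, Set.mem_preimage, SetLike.mem_coe]
    rw [IntermediateField.mem_fixingSubgroup_iff]
    constructor
    · intro h x hx
      have h3 : IntermediateField.adjoin F {y i k} ≤
          IntermediateField.fixedField (Subgroup.zpowers (τ : K ≃ₐ[F] K)) := by
        rw [IntermediateField.adjoin_simple_le_iff, IntermediateField.mem_fixedField_iff]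
        intro g hg
        obtain ⟨m, rfl⟩ := Subgroup.mem_zpowers_iff.mp hg
        have h5 : (τ : K ≃ₐ[F] K) ∈ MulAction.stabilizer (K ≃ₐ[F] K) (y i k) := h
        exact (MulAction.stabilizer (K ≃ₐ[F] K) (y i k)).zpow_mem h5 m
      have h4 := h3 hx
      rw [IntermediateField.mem_fixedField_iff] at h4
      exact h4 _ (Subgroup.mem_zpowers _)
    · intro h
      exact h _ (IntermediateField.mem_adjoin_simple_self F _)
  have hcont : Continuous φ := by
    rw [continuous_pi_iff]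
    intro i
    rw [continuous_iff_continuousAt]
    intro σ0
    rw [Metric.continuousAt_iff']
    intro ε hε
    obtain ⟨k, hk⟩ : ∃ k : ℕ, ((p : ℝ)⁻¹) ^ k < ε := exists_pow_lt_of_lt_one hε
      (inv_lt_one_of_one_lt₀ (by exact_mod_cast hp.one_lt))
    have h1 : {σ : E.fixingSubgroup | ((σ0⁻¹ * σ : E.fixingSubgroup) : K ≃ₐ[F] K) (y i k) = y i k} ∈
        nhds σ0 := by
      apply IsOpen.mem_nhds
      · exact (hopen i k).preimage (continuous_const_mul σ0⁻¹)
      · simp
    filter_upwards [h1] with σ hσ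
    have h2 := (hdvd (σ0⁻¹ * σ) i k).mpr hσ
    have h3 : φ (σ0⁻¹ * σ) i = φ σ i - φ σ0 i := by
      rw [hmul, hinv, Pi.add_apply, Pi.neg_apply]; ring
    rw [h3, ← Ideal.mem_span_singleton, ← PadicInt.norm_le_pow_iff_mem_span_pow, zpow_neg,
      zpow_natCast, ← inv_pow] at h2
    rw [dist_eq_norm]
    exact h2.trans_lt hk
  refine ⟨φ, ⟨hmul, hcont, ?_⟩, hiff⟩
  -- surjectivity modulo `p`
  have hsurj1 : ∀ v : Fin s → ℤ_[p], ∃ σ, ∀ i, (p : ℤ_[p]) ∣ φ σ i - v i := by
    let W : AddSubgroup (Fin s → ZMod p) :=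
      { carrier := {w | ∃ σ : E.fixingSubgroup, ∀ i, w i = PadicInt.toZMod (φ σ i)}
        add_mem' := by
          rintro w w' ⟨σ, hσ⟩ ⟨τ, hτ⟩
          exact ⟨σ * τ, fun i => by rw [hmul, Pi.add_apply, Pi.add_apply, map_add, hσ, hτ]⟩
        zero_mem' := ⟨1, fun i => by rw [hone, Pi.zero_apply, Pi.zero_apply, map_zero]⟩
        neg_mem' := by
          rintro w ⟨σ, hσ⟩
          exact ⟨σ⁻¹, fun i => by rw [hinv, Pi.neg_apply, Pi.neg_apply, map_neg, hσ]⟩ }
    have hW : AddSubgroup.toZModSubmodule p W = ⊤ := by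
      by_contra hne
      obtain ⟨f, hf0, hf⟩ := Submodule.exists_le_ker_of_lt_top _ (lt_top_iff_ne_top.mpr hne)
      let c : Fin s → ZMod p := fun i => f (Pi.single i 1)
      have hfc : ∀ w : Fin s → ZMod p, f w = ∑ i, w i * c i := by
        intro w
        conv_lhs => rw [← Finset.univ_sum_single w]
        rw [map_sum]
        apply Finset.sum_congr rfl
        intro i _
        have : (Pi.single i (w i) : Fin s → ZMod p) = w i • Pi.single i 1 := by
          rw [← Pi.single_smul, smul_eq_mul, mul_one]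
        rw [this, map_smul, smul_eq_mul]
      -- the product of the roots is fixed
      have hfix : ∀ σ : E.fixingSubgroup,
          (σ : K ≃ₐ[F] K) (∏ i, y i 1 ^ (c i).val) = ∏ i, y i 1 ^ (c i).val := by
        intro σ
        choose m hm using fun i => exists_nat_dvd_sub (φ σ i) 1
        have h1 : ∀ i, (σ : K ≃ₐ[F] K) (y i 1) = Z 1 ^ m i * y i 1 := fun i => hφ σ i 1 _ (hm i)
        have h2 : ∀ i, PadicInt.toZMod (φ σ i) = (m i : ZMod p) := by
          intro i
          have h3 := hm i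
          rw [pow_one] at h3
          obtain ⟨q, hq⟩ := h3
          have h4 : φ σ i = m i + p * q := by rw [← hq]; ring
          rw [h4, map_add, map_mul, map_natCast, map_natCast, CharP.cast_eq_zero (ZMod p) p, zero_mul,
            add_zero]
        have h3 : f (fun i => PadicInt.toZMod (φ σ i)) = 0 := by
          apply LinearMap.mem_ker.mp
          apply hf
          exact ⟨σ, fun i => rfl⟩
        rw [hfc] at h3
        rw [map_prod]
        have h4 : ∀ i, (σ : K ≃ₐ[F] K) (y i 1 ^ (c i).val) =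
            Z 1 ^ (m i * (c i).val) * y i 1 ^ (c i).val := by
          intro i
          rw [map_pow, h1, mul_pow, ← pow_mul]
        rw [Finset.prod_congr rfl (fun i _ => h4 i), Finset.prod_mul_distrib,
          Finset.prod_pow_eq_pow_sum]
        have h5 : Z 1 ^ (∑ i, m i * (c i).val) = 1 := by
          rw [(hZ 1).pow_eq_one_iff_dvd, pow_one, ← ZMod.natCast_eq_zero_iff]
          push_cast
          rw [← h3]
          apply Finset.sum_congr rfl
          intro i _
          rw [h2, ZMod.natCast_zmod_val]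
        rw [h5, one_mul]
      have hmem : ∏ i, y i 1 ^ (c i).val ∈ E := by
        have h1 : ∏ i, y i 1 ^ (c i).val ∈ IntermediateField.fixedField E.fixingSubgroup := by
          rw [IntermediateField.mem_fixedField_iff]
          intro g hg
          exact hfix ⟨g, hg⟩
        rwa [InfiniteGalois.fixedField_fixingSubgroup] at h1
      have h2 := hind (fun i => (c i).val) ⟨_, hmem, by
        rw [← Finset.prod_pow]
        apply Finset.prod_congr rfl
        intro i _
        have := hypow i 1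
        rw [pow_one] at this
        rw [← pow_mul, mul_comm, pow_mul, this]⟩
      apply hf0
      have hc : ∀ i, c i = 0 := by
        intro i
        rw [← ZMod.natCast_zmod_val (c i)]
        exact (ZMod.natCast_eq_zero_iff _ _).mpr (h2 i)
      ext w
      simp [hfc, hc]
    intro v
    have h1 : (fun i => PadicInt.toZMod (v i)) ∈ AddSubgroup.toZModSubmodule p W := by
      rw [hW]; trivial
    obtain ⟨σ, hσ⟩ := h1
    refine ⟨σ, fun i => ?_⟩
    have h2 := hσ i
    rw [← Ideal.mem_span_singleton, ← PadicInt.maximalIdeal_eq_span_p, ← PadicInt.ker_toZMod,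
      RingHom.mem_ker, map_sub, ← h2, sub_self]
  have hsurjk : ∀ (k : ℕ) (v : Fin s → ℤ_[p]), ∃ σ, ∀ i, (p : ℤ_[p]) ^ k ∣ φ σ i - v i := by
    intro k
    induction k with
    | zero => intro v; exact ⟨1, fun i => by simp⟩
    | succ k ih =>
      intro v
      obtain ⟨σ, hσ⟩ := hsurj1 v
      choose q hq using hσ
      obtain ⟨τ, hτ⟩ := ih (fun i => -q i)
      refine ⟨σ * τ ^ p, fun i => ?_⟩
      obtain ⟨r, hr⟩ := hτ i
      refine ⟨r, ?_⟩
      have h1 : φ (σ * τ ^ p) i = φ σ i + p * φ τ i := by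
        rw [hmul, hpow, Pi.add_apply, Pi.smul_apply, nsmul_eq_mul]
      have h2 : φ τ i = (p : ℤ_[p]) ^ k * r - q i := by rw [← hr]; ring
      have h3 : φ σ i = v i + p * q i := by rw [← hq]; ring
      rw [h1, h2, h3]
      ring
  intro v
  have hE : IsClosed (E.fixingSubgroup : Set (K ≃ₐ[F] K)) :=
    IntermediateField.fixingSubgroup_isClosed E
  have hcomp : CompactSpace E.fixingSubgroup := isCompact_iff_compactSpace.mp hE.isCompact
  have hcl : ∀ k, IsClosed {σ : E.fixingSubgroup | ∀ i, (p : ℤ_[p]) ^ k ∣ φ σ i - v i} := by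
    intro k
    have : {σ : E.fixingSubgroup | ∀ i, (p : ℤ_[p]) ^ k ∣ φ σ i - v i} =
        ⋂ i, (fun σ => φ σ i) ⁻¹' {x | (p : ℤ_[p]) ^ k ∣ x - v i} := by
      ext σ; simp
    rw [this]
    exact isClosed_iInter fun i =>
      (isClosed_dvd_sub k (v i)).preimage ((continuous_apply i).comp hcont)
  have := IsCompact.nonempty_iInter_of_sequence_nonempty_isCompact_isClosed
    (fun k => {σ : E.fixingSubgroup | ∀ i, (p : ℤ_[p]) ^ k ∣ φ σ i - v i})
    (fun k σ hσ i => (pow_dvd_pow _ (Nat.le_succ k)).trans (hσ i))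
    (fun k => hsurjk k v) (hcl 0).isCompact hcl
  obtain ⟨σ, hσ⟩ := this
  refine ⟨σ, ?_⟩
  funext i
  exact eq_of_forall_dvd_sub fun k => Set.mem_iInter.mp hσ k i

end

end Pool.Agent.Helper25.ETC
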