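import Pool.Agent.Helper25.ETCInertia

/-!
# Galois invariant valuation from a rigid element
-/

set_option autoImplicit false

namespace Pool.Agent.Helper25.ETC

open Polynomial Finset

variable {F K : Type*} [Field F] [Field K] [Algebra F K] {p : ℕ} {ζ : K}

theorem gal_inv_of_Hn (Cx : Ctx p F K ζ) {E : IntermediateField F K} [FiniteDimensional F E]
    (hζE : ζ ∈ E) {O : ValuationSubring K} (H : Hn p E O) (σ : K ≃ₐ[F] K)
    (hσE : ∀ x ∈ E, x ∈ O ↔ σ x ∈ O) : ∀ x : K, x ∈ O ↔ σ x ∈ O := by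
  have h : O = O.comap (σ : K →+* K) := by
    apply agree Cx.hp Cx.hζ Cx.pc hζE H
    intro x hx
    rw [ValuationSubring.mem_comap]
    exact hσE x hx
  intro x
  conv_lhs => rw [h]
  rw [ValuationSubring.mem_comap]
  rfl

theorem val_lt_sigma {O : ValuationSubring K} {σ : K ≃ₐ[F] K} (hσ : ∀ x : K, x ∈ O ↔ σ x ∈ O)
    {x : K} (hx : O.valuation x < 1) : O.valuation (σ x) < 1 := by
  rw [val_lt_one_iff] at hx ⊢
  rcases hx with rfl | hx
  · left; exact map_zero σ
  · right; rwa [← map_inv₀, ← hσ]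

theorem val_sigma_eq (Cx : Ctx p F K ζ) {O : ValuationSubring K} {σ : K ≃ₐ[F] K}
    (hσ : ∀ x : K, x ∈ O ↔ σ x ∈ O) (y : K) : O.valuation (σ y) = O.valuation y := by
  by_cases hy0 : y = 0
  · rw [hy0, map_zero]
  obtain ⟨k, hk⟩ := Cx.pc.tors σ y
  have hσy0 : σ y ≠ 0 := (_root_.map_ne_zero _).mpr hy0
  have hvy : O.valuation y ≠ 0 := (Valuation.ne_zero_iff _).mpr hy0
  have hvσy : O.valuation (σ y) ≠ 0 := (Valuation.ne_zero_iff _).mpr hσy0
  have iter : ∀ t : K, O.valuation t < 1 → ∀ j : ℕ, O.valuation ((σ ^ j) t) < 1 := by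
    intro t ht j
    induction j with
    | zero => simpa using ht
    | succ j ih =>
      rw [pow_succ', AlgEquiv.mul_apply]; exact val_lt_sigma hσ ih
  have tele : ∀ n : ℕ, ∏ j ∈ range n, (σ ^ j) (σ y / y) = (σ ^ n) y / y := by
    intro n
    induction n with
    | zero => simp [hy0]
    | succ n ih =>
      have h0 : (σ ^ n) y ≠ 0 := (_root_.map_ne_zero _).mpr hy0
      rw [prod_range_succ, ih, map_div₀, ← AlgEquiv.mul_apply, ← pow_succ]
      field_simp
  have hpk : 0 < p ^ k := pow_pos Cx.hp.pos k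
  have small : ∀ f : ℕ → K, (∀ j, O.valuation (f j) < 1) → ∀ n, 0 < n →
      O.valuation (∏ j ∈ range n, f j) < 1 := by
    intro f hf n hn
    induction n with
    | zero => exact absurd hn (lt_irrefl _)
    | succ n ih =>
      rw [prod_range_succ, map_mul]
      rcases Nat.eq_zero_or_pos n with h | h
      · rw [h]; simpa using hf 0
      · calc _ ≤ 1 * O.valuation (f n) := mul_le_mul_left (ih h).le _
          _ < 1 := by rw [one_mul]; exact hf n
  rcases lt_trichotomy (O.valuation (σ y)) (O.valuation y) with h | h | h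
  · exfalso
    have ht : O.valuation (σ y / y) < 1 := by
      rw [map_div₀]; exact (div_lt_one₀ (zero_lt_iff.mpr hvy)).mpr h
    have h1 := small _ (iter _ ht) (p ^ k) hpk
    rw [tele, hk, div_self hy0, map_one] at h1
    exact lt_irrefl _ h1
  · exact h
  · exfalso
    have ht : O.valuation ((σ y / y)⁻¹) < 1 := by
      rw [inv_div, map_div₀]; exact (div_lt_one₀ (zero_lt_iff.mpr hvσy)).mpr h
    have h1 := small _ (iter _ ht) (p ^ k) hpk
    have h2 : ∏ j ∈ range (p ^ k), (σ ^ j) ((σ y / y)⁻¹) = 1 := by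
      have h3 := tele (p ^ k)
      rw [hk, div_self hy0] at h3
      rw [← inv_one, ← h3, ← prod_inv_distrib]
      apply prod_congr rfl
      intro j _
      rw [map_inv₀]
    rw [h2, map_one] at h1
    exact lt_irrefl _ h1

theorem Nd.mono (Cx : Ctx p F K ζ) {L L' : IntermediateField F K} (hζL : ζ ∈ L)
    [FiniteDimensional F L] [FiniteDimensional F L'] [IsGalois F L'] (hle : L ≤ L')
    {O : ValuationSubring K} (H : Hn p L O) (h : Nd p L O) : Nd p L' O := by
  have := Cx.pc.gal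
  have hp := Cx.hp
  have : Fact p.Prime := ⟨hp⟩
  obtain ⟨z0, hz0L, hz00, hz0⟩ := h
  have hinv : ∀ σ ∈ L.fixingSubgroup, ∀ x : K, O.valuation ((σ : K ≃ₐ[F] K) x) = O.valuation x := by
    intro σ hσ x
    apply val_sigma_eq Cx
    apply gal_inv_of_Hn Cx hζL H
    intro y hy
    rw [(IntermediateField.mem_fixingSubgroup_iff L σ).mp hσ y hy]
  have : Fintype (resHom L L').range := Fintype.ofFinite _
  have hP : IsPGroup p (resHom L L').range := (isPGroup_of_PCl Cx.pc L').to_subgroup _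
  obtain ⟨r, hr⟩ := IsPGroup.iff_card.mp hP
  by_contra hcon
  have hcon' : ∀ z ∈ L', z ≠ 0 → ∃ y ∈ L', O.valuation (z * y ^ p) = 1 := by
    intro z hz hz0
    by_contra h2
    push Not at h2
    exact hcon ⟨z, hz, hz0, h2⟩
  have hne : ∀ z y : K, O.valuation (z * y ^ p) = 1 → y ≠ 0 := by
    rintro z y h rfl
    rw [zero_pow hp.ne_zero, mul_zero, map_zero] at h
    exact zero_ne_one h
  have iter : ∀ m : ℕ, ∃ y ∈ L', y ≠ 0 ∧ O.valuation (z0 * y ^ (p ^ m)) = 1 := by
    intro m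
    induction m with
    | zero =>
      refine ⟨z0⁻¹, L'.inv_mem (hle hz0L), inv_ne_zero hz00, ?_⟩
      rw [pow_zero, pow_one, mul_inv_cancel₀ hz00, map_one]
    | succ m ih =>
      obtain ⟨y, hy, hy0, hv⟩ := ih
      obtain ⟨y', hy', hv'⟩ := hcon' y hy hy0
      have hy'0 := hne _ _ hv'
      refine ⟨y'⁻¹, L'.inv_mem hy', inv_ne_zero hy'0, ?_⟩
      have h1 : O.valuation (y'⁻¹ ^ p) = O.valuation y := by
        rw [map_mul] at hv'
        rw [inv_pow, map_inv₀]
        exact (eq_inv_of_mul_eq_one_left hv').symm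
      rw [map_mul, pow_succ' p m, pow_mul, map_pow, h1, ← map_pow, ← map_mul]
      exact hv
  obtain ⟨y, hy, hy0, hv⟩ := iter (r + 1)
  set yN : L' := ⟨y, hy⟩ with hyN
  set N : K := ∏ g : (resHom L L').range, (((g : L' ≃ₐ[F] L') yN : L') : K) with hN
  have hNL : N ∈ L := prod_mem_E yN
  apply hz0 N hNL
  have hvN : O.valuation N = O.valuation y ^ (p ^ r) := by
    rw [hN, map_prod, prod_congr rfl (g := fun _ => O.valuation y), prod_const, card_univ,
      ← Nat.card_eq_fintype_card, hr]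
    rintro ⟨g, u, rfl⟩ _
    show O.valuation (((resHom L L' u yN : L') : K)) = _
    rw [resHom_apply]
    exact hinv _ u.2 _
  rw [map_mul, map_pow, hvN, ← pow_mul, ← pow_succ, ← map_pow, ← map_mul]
  exact hv

/-- the conclusion: a Galois invariant valuation ring with nontrivial inertia. -/
def Concl (F K : Type*) [Field F] [Field K] [Algebra F K] : Prop :=
  ∃ O : ValuationSubring K, (∀ (σ : K ≃ₐ[F] K) (x : K), x ∈ O ↔ σ x ∈ O) ∧
    ∃ σ : K ≃ₐ[F] K, σ ≠ 1 ∧ ∀ x ∈ O, O.valuation (σ x - x) < 1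

/-- **Main theorem**: a rigid element in a finite subextension gives a Galois invariant
valuation. -/
theorem concl_of_rig (Cx : Ctx p F K ζ) {E : IntermediateField F K} [FiniteDimensional F E]
    (hζE : ζ ∈ E) (hneg : (-1 : K) ∈ TT p E) {a : K} (R : Rig p E ζ a) {c : K} (hc : c ∈ E)
    (hc0 : c ≠ 0) (hca : ∀ j : ℤ, ¬ cg (TT p E) c (a ^ j)) : Concl F K := by
  have := Cx.pc.gal
  have hp := Cx.hp
  have hζ := Cx.hζ
  have hpK := Cx.p_ne_zero
  obtain ⟨α, rfl⟩ := Cx.pc.root a
  have hα0 : α ≠ 0 := by rintro rfl; exact R.ne (zero_pow hp.ne_zero)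
  have hαE : α ∉ E := fun h => R.nT (pow_mem_TT h hα0)
  obtain ⟨L, St, -⟩ := exists_step hp.ne_zero E hαE R.mem
  -- `L` is finite over `F`
  have hfinL : FiniteDimensional F L := by
    have hint : IsIntegral F α := Algebra.IsIntegral.isIntegral α
    have : FiniteDimensional F (IntermediateField.adjoin F {α}) :=
      IntermediateField.adjoin.finiteDimensional hint
    have : FiniteDimensional F ↥(E ⊔ IntermediateField.adjoin F {α}) :=
      IntermediateField.finiteDimensional_sup _ _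
    have hle : L ≤ E ⊔ IntermediateField.adjoin F {α} := by
      intro x hx
      obtain ⟨e, he, rfl⟩ := St.span x hx
      refine IntermediateField.sum_mem _ (fun j _ => IntermediateField.mul_mem _
        ((le_sup_left : E ≤ _) (he j)) (pow_mem ((le_sup_right :
          IntermediateField.adjoin F {α} ≤ _)
          (IntermediateField.mem_adjoin_simple_self F α)) j))
    exact Module.Finite.of_injective
      (IntermediateField.inclusion hle).toLinearMap (IntermediateField.inclusion_injective hle)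
  have hζL := St.le hζE
  have hnegL : (-1 : K) ∈ TT p L := TT_mono St.le hneg
  have hind := ind_step Cx hζE hneg St hc hc0 hca
  have hdimL : Dim2 p L := ⟨c, St.le hc, α, St.mem, hind⟩
  -- canonical valuation on `L`
  have dim2' : ∀ M : IntermediateField F K, Dim2 p M → ∃ x y : M, x ≠ 0 ∧ y ≠ 0 ∧
      x ∉ pw p M ∧ y ∉ pw p M ∧ y * x⁻¹ ∉ pw p M := by
    rintro M ⟨x, hx, y, hy, hi⟩
    have hTM : IsMG (TT p M) := TT_isMG
    refine ⟨⟨x, hx⟩, ⟨y, hy⟩, fun h => hi.1 (congrArg Subtype.val h),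
      fun h => hi.2.1 (congrArg Subtype.val h), ?_, ?_, ?_⟩
    · rw [mem_pw_iff]; exact hi.left hTM hp
    · rw [mem_pw_iff]; exact hi.swap.left hTM hp
    · rw [mem_pw_iff]
      intro h
      have h1 : x ^ (-1 : ℤ) * y ^ (1 : ℤ) ∈ TT p M := by
        rw [zpow_neg_one, zpow_one, mul_comm]; exact h
      have h2 := (hi.2.2 _ _ h1).2
      exact hp.one_lt.ne' (by exact_mod_cast Int.eq_one_of_dvd_one (by positivity) h2)
  have pM : ∀ M : IntermediateField F K, ((p : ℕ) : M) ≠ 0 := by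
    intro M h
    apply hpK
    have := congrArg (fun t : M => (t : K)) h
    push_cast at this
    exact this
  obtain ⟨O1L, hgood1, -⟩ := exists_canonical (k := L) hp (pM L)
    (by rw [mem_pw_iff]; push_cast; exact hnegL)
    (gen_ne_of_rig Cx hζE hneg St R hc hc0 hca) (fun _ => dim2' L hdimL)
  obtain ⟨O1, hO1⟩ := exists_extension L O1L
  obtain ⟨hHn1, hNd1⟩ := (goodRing_iff hO1).mp hgood1
  -- the normal closure
  set L' := IntermediateField.normalClosure F L K with hL'
  have hLL' : L ≤ L' := IntermediateField.le_normalClosure L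
  have hζL' := hLL' hζL
  have hnegL' : (-1 : K) ∈ TT p L' := TT_mono hLL' hnegL
  have hHn1' : Hn p L' O1 := hHn1.mono hp hζ Cx.pc hζL hLL'
  have hNd1' : Nd p L' O1 := hNd1.mono Cx hζL hLL' hHn1
  have hcomap : ∀ x : L', (x : K) ∈ O1 ↔ x ∈ O1.comap (algebraMap L' K) := by
    intro x; rw [ValuationSubring.mem_comap]; rfl
  have hgood1' : GoodRing p (O1.comap (algebraMap L' K)) :=
    (goodRing_iff hcomap).mpr ⟨hHn1', hNd1'⟩
  have hneg' : (-1 : L') ∈ pw p L' := by rw [mem_pw_iff]; push_cast; exact hnegL'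
  obtain ⟨O2L, hgood2, hinv2⟩ := exists_canonical (k := L') hp (pM L') hneg'
    (hgood1'.gen_ne hp hneg')
    (fun _ => dim2' L' (hdimL.mono Cx hζL hnegL hLL'))
  obtain ⟨O2, hO2⟩ := exists_extension L' O2L
  obtain ⟨hHn2, hNd2⟩ := (goodRing_iff hO2).mp hgood2
  have hinvK : ∀ (σ : K ≃ₐ[F] K) (x : K), x ∈ O2 ↔ σ x ∈ O2 := by
    intro σ
    apply gal_inv_of_Hn Cx hζL' hHn2
    intro x hx
    set τ : L' ≃ₐ[F] L' := σ.restrictNormal L' with hτ
    have h1 : ((τ ⟨x, hx⟩ : L') : K) = σ x :=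
      AlgEquiv.restrictNormal_commutes σ L' ⟨x, hx⟩
    have h2 := hO2 ⟨x, hx⟩
    have h3 := hO2 (τ ⟨x, hx⟩)
    rw [h1] at h3
    rw [h3]
    show ((⟨x, hx⟩ : L') : K) ∈ O2 ↔ _
    rw [h2]
    constructor
    · intro h; exact hinv2 (τ : L' ≃+* L') _ h
    · intro h
      have h4 := hinv2 (τ.symm : L' ≃+* L') _ h
      have h5 : (τ.symm : L' ≃+* L') (τ ⟨x, hx⟩) = ⟨x, hx⟩ := τ.symm_apply_apply _
      rwa [h5] at h4
  refine ⟨O2, hinvK, ?_⟩
  exact inertia Cx (E := L') (fun σ x hx => (hinvK σ x).mp hx) hHn2.unit hNd2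

end Pool.Agent.Helper25.ETC
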