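import Mathlib

/-!
# Locally nilpotent operators: independence of specialisations
-/

set_option autoImplicit false

namespace Pool.Agent.Helper25.ETC

open Module

variable {k H : Type*} [Field k] [AddCommGroup H] [Module k H]

/-- `ker T ^ n` inside `M`. -/
def kr (T : Module.End k H) (M : Submodule k H) (n : ℕ) : Submodule k H := M ⊓ LinearMap.ker (T ^ n)

theorem mem_kr {T : Module.End k H} {M : Submodule k H} {n : ℕ} {x : H} :
    x ∈ kr T M n ↔ x ∈ M ∧ (T ^ n) x = 0 := by
  unfold kr; rw [Submodule.mem_inf, LinearMap.mem_ker]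

theorem kr_mono' {T : Module.End k H} {M M' : Submodule k H} (h : M ≤ M') (n : ℕ) :
    kr T M n ≤ kr T M' n := fun _ hx => ⟨h hx.1, hx.2⟩

/-- `T` maps `M` into `M`. -/
def Stab (T : Module.End k H) (M : Submodule k H) : Prop := ∀ x ∈ M, T x ∈ M

/-- `T` maps `M` onto `M`. -/
def Dv (T : Module.End k H) (M : Submodule k H) : Prop :=
  Stab T M ∧ ∀ x ∈ M, ∃ y ∈ M, T y = x

theorem Stab.pow {T : Module.End k H} {M : Submodule k H} (h : Stab T M) (n : ℕ) :
    Stab (T ^ n) M := by
  induction n with
  | zero => intro x hx; simpa using hx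
  | succ n ih => intro x hx; rw [pow_succ, Module.End.mul_apply]; exact ih _ (h x hx)

theorem Dv.pow {T : Module.End k H} {M : Submodule k H} (h : Dv T M) (n : ℕ) :
    Dv (T ^ n) M := by
  refine ⟨h.1.pow n, ?_⟩
  induction n with
  | zero => intro x hx; exact ⟨x, hx, by simp⟩
  | succ n ih =>
    intro x hx
    obtain ⟨y, hy, hyx⟩ := ih x hx
    obtain ⟨z, hz, hzy⟩ := h.2 y hy
    exact ⟨z, hz, by rw [pow_succ, Module.End.mul_apply, hzy, hyx]⟩

/-- the map `T : kr (n + 1) → kr n`. -/
def krMap {T : Module.End k H} {M : Submodule k H} (hM : Stab T M) (n : ℕ) :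
    kr T M (n + 1) →ₗ[k] kr T M n :=
  { toFun := fun x => ⟨T x, by
      have hx := x.2
      rw [mem_kr] at hx ⊢
      refine ⟨hM _ hx.1, ?_⟩
      have := hx.2
      rw [pow_succ, Module.End.mul_apply] at this
      exact this⟩
    map_add' := by intro x y; apply Subtype.ext; simp
    map_smul' := by intro c x; apply Subtype.ext; simp }

/-- the kernel of `krMap` is `kr 1`. -/
def krKer {T : Module.End k H} {M : Submodule k H} (hM : Stab T M) (n : ℕ) :
    LinearMap.ker (krMap hM n) →ₗ[k] kr T M 1 :=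
  { toFun := fun x => ⟨x.1.1, by
      rw [mem_kr]
      refine ⟨x.1.2.1, ?_⟩
      have h2 := x.2
      rw [LinearMap.mem_ker] at h2
      rw [pow_one]
      exact congrArg Subtype.val h2⟩
    map_add' := by intro x y; rfl
    map_smul' := by intro c x; rfl }

theorem krKer_inj {T : Module.End k H} {M : Submodule k H} (hM : Stab T M) (n : ℕ) :
    Function.Injective (krKer hM n) := by
  intro x y hxy
  apply Subtype.ext
  apply Subtype.ext
  exact congrArg (fun z : kr T M 1 => (z : H)) hxy

theorem krKer_surj {T : Module.End k H} {M : Submodule k H} (hM : Stab T M) (n : ℕ) :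
    Function.Surjective (krKer hM n) := by
  intro y
  have hy := y.2
  rw [mem_kr, pow_one] at hy
  have h1 : (y : H) ∈ kr T M (n + 1) := by
    rw [mem_kr]
    refine ⟨hy.1, ?_⟩
    rw [pow_succ, Module.End.mul_apply, hy.2, map_zero]
  refine ⟨⟨⟨y, h1⟩, ?_⟩, Subtype.ext rfl⟩
  rw [LinearMap.mem_ker]
  exact Subtype.ext hy.2

/-- finite dimensionality of all `ker T ^ n` from that of `ker T`. -/
theorem kr_finite {T : Module.End k H} {M : Submodule k H} (hM : Stab T M)
    (h1 : FiniteDimensional k (kr T M 1)) (n : ℕ) : FiniteDimensional k (kr T M n) := by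
  induction n with
  | zero =>
    have : kr T M 0 = ⊥ := by
      rw [eq_bot_iff]
      intro x hx
      rw [mem_kr, pow_zero] at hx
      exact hx.2
    rw [this]; infer_instance
  | succ n ih =>
    have hker : FiniteDimensional k (LinearMap.ker (krMap hM n)) :=
      FiniteDimensional.of_injective (krKer hM n) (krKer_inj hM n)
    have hrange : FiniteDimensional k (LinearMap.range (krMap hM n)) := inferInstance
    have e := LinearMap.quotKerEquivRange (krMap hM n)
    have : Module.Finite k (kr T M (n + 1) ⧸ LinearMap.ker (krMap hM n)) :=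
      Module.Finite.equiv e.symm
    exact Module.Finite.of_submodule_quotient (LinearMap.ker (krMap hM n))

theorem finrank_kr {T : Module.End k H} {M : Submodule k H} (hM : Dv T M)
    (h1 : FiniteDimensional k (kr T M 1)) (n : ℕ) :
    finrank k (kr T M n) = n * finrank k (kr T M 1) := by
  induction n with
  | zero =>
    have : kr T M 0 = ⊥ := by
      rw [eq_bot_iff]
      intro x hx
      rw [mem_kr, pow_zero] at hx
      exact hx.2
    rw [this, finrank_bot, zero_mul]
  | succ n ih =>
    have := kr_finite hM.1 h1 (n + 1)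
    have := kr_finite hM.1 h1 n
    have h2 := LinearMap.finrank_range_add_finrank_ker (krMap hM.1 n)
    have h3 : finrank k (LinearMap.ker (krMap hM.1 n)) = finrank k (kr T M 1) :=
      (LinearEquiv.ofBijective _ ⟨krKer_inj hM.1 n, krKer_surj hM.1 n⟩).finrank_eq
    have h4 : LinearMap.range (krMap hM.1 n) = ⊤ := by
      rw [LinearMap.range_eq_top]
      intro y
      have hy := y.2
      rw [mem_kr] at hy
      obtain ⟨z, hz, hzy⟩ := hM.2 _ hy.1
      refine ⟨⟨z, ?_⟩, Subtype.ext hzy⟩
      rw [mem_kr]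
      refine ⟨hz, ?_⟩
      rw [pow_succ, Module.End.mul_apply, hzy, hy.2]
    rw [h4, finrank_top, ih, h3] at h2
    rw [← h2]; ring

/-- comparison of two submodules through `ker T`, the smaller being divisible. -/
theorem le_of_kr {T : Module.End k H} (hT : ∀ x, ∃ n : ℕ, (T ^ n) x = 0) {A B : Submodule k H}
    (hAB : A ≤ B) (hA : Dv T A) (hB : Stab T B) (h : kr T B 1 ≤ A) : B ≤ A := by
  have key : ∀ n : ℕ, ∀ x ∈ B, (T ^ n) x = 0 → x ∈ A := by
    intro n
    induction n with
    | zero => intro x _ h0; rw [pow_zero] at h0; have : x = 0 := h0; rw [this]; exact A.zero_mem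
    | succ n ih =>
      intro x hx h0
      have h1 : (T ^ n) x ∈ kr T B 1 := by
        rw [mem_kr]
        refine ⟨hB.pow n x hx, ?_⟩
        rw [pow_one, ← Module.End.mul_apply, ← pow_succ']
        exact h0
      obtain ⟨y, hy, hyx⟩ := (hA.pow n).2 _ (h h1)
      have h2 : x - y ∈ A := by
        apply ih _ (B.sub_mem hx (hAB hy))
        rw [map_sub, hyx, sub_self]
      have := A.add_mem h2 hy
      rwa [sub_add_cancel] at this
  intro x hx
  obtain ⟨n, hn⟩ := hT x
  exact key n x hx hn

/-- an infinite dimensional stable submodule with finite `ker T` contains a nonzero divisible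
one of the form `T ^ n M`. -/
theorem exists_dv {T : Module.End k H} (hT : ∀ x, ∃ n : ℕ, (T ^ n) x = 0) {M : Submodule k H}
    (hM : Stab T M) (h1 : FiniteDimensional k (kr T M 1)) (hinf : ¬ FiniteDimensional k M) :
    ∃ n : ℕ, Dv T (M.map (T ^ n)) ∧ M.map (T ^ n) ≠ ⊥ := by
  classical
  have hle : ∀ n, M.map (T ^ n) ≤ M := by
    rintro n _ ⟨x, hx, rfl⟩
    exact hM.pow n x hx
  have hst : ∀ n, Stab T (M.map (T ^ n)) := by
    rintro n _ ⟨x, hx, rfl⟩
    refine ⟨T x, hM x hx, ?_⟩
    rw [← Module.End.mul_apply, ← Module.End.mul_apply, ← pow_succ, ← pow_succ']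
  have hanti : ∀ m n, m ≤ n → M.map (T ^ n) ≤ M.map (T ^ m) := by
    rintro m n hmn _ ⟨x, hx, rfl⟩
    obtain ⟨c, rfl⟩ := Nat.exists_eq_add_of_le hmn
    exact ⟨(T ^ c) x, hM.pow c x hx, by rw [pow_add, Module.End.mul_apply]⟩
  have hfin : ∀ n, FiniteDimensional k (kr T (M.map (T ^ n)) 1) := fun n =>
    Submodule.finiteDimensional_of_le (kr_mono' (hle n) 1)
  obtain ⟨n0, hn0⟩ : ∃ n0, ∀ n, finrank k (kr T (M.map (T ^ n0)) 1) ≤
      finrank k (kr T (M.map (T ^ n)) 1) :=
    ⟨Function.argmin (fun n => finrank k (kr T (M.map (T ^ n)) 1)),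
      fun n => Function.argmin_le (fun n => finrank k (kr T (M.map (T ^ n)) 1)) n⟩
  have heq : ∀ n, n0 ≤ n → kr T (M.map (T ^ n0)) 1 ≤ M.map (T ^ n) := by
    intro n hn
    have hle2 := kr_mono' (T := T) (hanti _ _ hn) 1
    have := hfin n0
    have := Submodule.eq_of_le_of_finrank_le hle2 (hn0 n)
    rw [← this]
    exact fun x hx => hx.1
  refine ⟨n0, ⟨hst n0, ?_⟩, ?_⟩
  · -- divisibility
    have key : ∀ m : ℕ, ∀ x ∈ M.map (T ^ n0), (T ^ m) x = 0 → ∃ y ∈ M.map (T ^ n0), T y = x := by
      intro m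
      induction m with
      | zero =>
        intro x _ h0
        rw [pow_zero] at h0
        have h0' : x = 0 := h0
        exact ⟨0, Submodule.zero_mem _, by rw [map_zero, h0']⟩
      | succ m ih =>
        intro x hx h0
        have h2 : (T ^ m) x ∈ kr T (M.map (T ^ n0)) 1 := by
          rw [mem_kr]
          refine ⟨(hst n0).pow m x hx, ?_⟩
          rw [pow_one, ← Module.End.mul_apply, ← pow_succ']
          exact h0
        obtain ⟨y, hy, hyx⟩ := heq (m + 1 + n0) (Nat.le_add_left _ _) h2
        have h3 : (T ^ m) (T ((T ^ n0) y)) = (T ^ m) x := by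
          rw [← hyx, ← Module.End.mul_apply, ← Module.End.mul_apply, ← pow_succ, ← pow_add]
        have hmem : T ((T ^ n0) y) ∈ M.map (T ^ n0) := hst n0 _ ⟨y, hy, rfl⟩
        obtain ⟨z, hz, hzx⟩ := ih (x - T ((T ^ n0) y)) (Submodule.sub_mem _ hx hmem) (by
          rw [map_sub, h3, sub_self])
        refine ⟨z + (T ^ n0) y, Submodule.add_mem _ hz ⟨y, hy, rfl⟩, ?_⟩
        rw [map_add, hzx, sub_add_cancel]
    intro x hx
    obtain ⟨m, hm⟩ := hT x
    exact key m x hx hm
  · intro hbot
    apply hinf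
    have h2 : M ≤ kr T M n0 := by
      intro x hx
      rw [mem_kr]
      refine ⟨hx, ?_⟩
      have : (T ^ n0) x ∈ M.map (T ^ n0) := ⟨x, hx, rfl⟩
      rw [hbot] at this
      exact (Submodule.mem_bot k).mp this
    have := kr_finite hM h1 n0
    exact Submodule.finiteDimensional_of_le h2

/-- `T ^ u - T ^ v` is onto on a divisible submodule. -/
theorem Dv.sub_surj {T : Module.End k H} (hT : ∀ x, ∃ n : ℕ, (T ^ n) x = 0) {M : Submodule k H}
    (hM : Dv T M) {u v : ℕ} (huv : u ≠ v) : ∀ x ∈ M, ∃ y ∈ M, (T ^ u - T ^ v) y = x := by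
  -- `1 - T ^ e` is onto
  have h1 : ∀ e : ℕ, 1 ≤ e → ∀ x ∈ M, ∃ y ∈ M, y - (T ^ e) y = x := by
    intro e he x hx
    obtain ⟨n, hn⟩ := hT x
    refine ⟨∑ i ∈ Finset.range n, (T ^ (e * i)) x, M.sum_mem (fun i _ => hM.1.pow _ x hx), ?_⟩
    rw [map_sum]
    have h2 : ∀ i ∈ Finset.range n, (T ^ e) ((T ^ (e * i)) x) = (T ^ (e * (i + 1))) x := by
      intro i _
      rw [← Module.End.mul_apply, ← pow_add]
      congr 2
      ring
    rw [Finset.sum_congr rfl h2, ← Finset.sum_sub_distrib]
    have h3 := Finset.sum_range_sub' (fun i => (T ^ (e * i)) x) n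
    rw [h3]
    have h4 : (T ^ (e * n)) x = 0 := by
      obtain ⟨c, hc⟩ := Nat.exists_eq_add_of_le (Nat.le_mul_of_pos_left n he)
      rw [hc, add_comm, pow_add, Module.End.mul_apply, hn, map_zero]
    rw [h4]
    simp
  intro x hx
  rcases Nat.lt_or_ge u v with h | h
  · obtain ⟨y, hy, hyx⟩ := h1 (v - u) (by omega) x hx
    obtain ⟨z, hz, hzy⟩ := (hM.pow u).2 y hy
    refine ⟨z, hz, ?_⟩
    have h5 : (T ^ v) z = (T ^ (v - u)) ((T ^ u) z) := by
      rw [← Module.End.mul_apply, ← pow_add]
      congr 2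
      omega
    rw [LinearMap.sub_apply, h5, hzy, hyx]
  · obtain ⟨y, hy, hyx⟩ := h1 (u - v) (by omega) (-x) (M.neg_mem hx)
    obtain ⟨z, hz, hzy⟩ := (hM.pow v).2 y hy
    refine ⟨z, hz, ?_⟩
    have h5 : (T ^ u) z = (T ^ (u - v)) ((T ^ v) z) := by
      rw [← Module.End.mul_apply, ← pow_add]
      congr 2
      omega
    rw [LinearMap.sub_apply, h5, hzy, ← neg_sub, hyx, neg_neg]

section main

variable {ι : Type*} [Finite ι] {T : Module.End k H} {S : ι → Module.End k H} {a : ℕ}
  {Q : Fin a → ℕ}

/-- the specialised submodule. -/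
def Mf (T : Module.End k H) (S : ι → Module.End k H) (q : ι → ℕ) : Submodule k H where
  carrier := {h | ∀ i, S i h = (T ^ q i) h}
  add_mem' := by intro x y hx hy i; rw [map_add, map_add, hx i, hy i]
  zero_mem' := by intro i; rw [map_zero, map_zero]
  smul_mem' := by intro c x hx i; rw [map_smul, map_smul, hx i]

theorem mem_Mf {q : ι → ℕ} {h : H} : h ∈ Mf T S q ↔ ∀ i, S i h = (T ^ q i) h := Iff.rfl

/-- simultaneous kernels. -/
def Wk (T : Module.End k H) (S : ι → Module.End k H) (m a : ℕ) : Submodule k H where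
  carrier := {h | (T ^ m) h = 0 ∧ ∀ i, (S i ^ a) h = 0}
  add_mem' := by
    intro x y hx hy
    exact ⟨by rw [map_add, hx.1, hy.1, add_zero], fun i => by rw [map_add, hx.2, hy.2, add_zero]⟩
  zero_mem' := ⟨map_zero _, fun i => map_zero _⟩
  smul_mem' := by
    intro c x hx
    exact ⟨by rw [map_smul, hx.1, smul_zero], fun i => by rw [map_smul, hx.2, smul_zero]⟩

theorem mem_Wk {m a : ℕ} {h : H} : h ∈ Wk T S m a ↔ (T ^ m) h = 0 ∧ ∀ i, (S i ^ a) h = 0 := Iff.rfl

theorem independence (hT : ∀ x, ∃ n : ℕ, (T ^ n) x = 0) (hST : ∀ i x, S i (T x) = T (S i x))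
    (ha : 0 < a) (hQ : Function.Injective Q) (hQa : ∀ j, a ≤ Q j)
    (hW : FiniteDimensional k (Wk T S a a))
    (hinf : ∀ f : ι → Fin a, ¬ FiniteDimensional k (Mf T S (fun i => Q (f i)))) :
    Nat.card (ι → Fin a) * a ≤ finrank k (Wk T S a a) := by
  classical
  have := Fintype.ofFinite ι
  have hSTn : ∀ (n : ℕ) i x, S i ((T ^ n) x) = (T ^ n) (S i x) := by
    intro n i
    induction n with
    | zero => intro x; rfl
    | succ n ih => intro x; rw [pow_succ, Module.End.mul_apply, Module.End.mul_apply, ih, hST]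
  have hMst : ∀ q : ι → ℕ, Stab T (Mf T S q) := by
    intro q x hx i
    rw [hST, hx i, ← Module.End.mul_apply, ← Module.End.mul_apply, ← pow_succ, ← pow_succ']
  -- `ker T` on the specialised submodules
  have hM1 : ∀ f : ι → Fin a, FiniteDimensional k (kr T (Mf T S (fun i => Q (f i))) 1) := by
    intro f
    refine @Submodule.finiteDimensional_of_le k H _ _ _ _ _ hW ?_
    intro x hx
    rw [mem_kr, pow_one] at hx
    have h2 : ∀ n, 1 ≤ n → (T ^ n) x = 0 := by
      intro n hn
      obtain ⟨c, rfl⟩ := Nat.exists_eq_add_of_le hn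
      rw [add_comm, pow_succ, Module.End.mul_apply, hx.2, map_zero]
    refine ⟨h2 a ha, fun i => ?_⟩
    have h3 : S i x = 0 := by
      rw [hx.1 i]
      exact h2 _ (ha.trans_le (hQa _))
    obtain ⟨c, hc⟩ : ∃ c, a = c + 1 := ⟨a - 1, by omega⟩
    rw [hc, pow_succ, Module.End.mul_apply, h3, map_zero]
  choose n0 hn0 hne using fun f : ι → Fin a => exists_dv hT (hMst _) (hM1 f) (hinf f)
  let D : (ι → Fin a) → Submodule k H := fun f => (Mf T S (fun i => Q (f i))).map (T ^ n0 f)
  have hD : ∀ f, Dv T (D f) := fun f => hn0 f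
  have hDne : ∀ f, D f ≠ ⊥ := fun f => hne f
  have hDS : ∀ f i, ∀ x ∈ D f, S i x = (T ^ Q (f i)) x := by
    rintro f i _ ⟨x, hx, rfl⟩
    rw [hSTn, hx i, ← Module.End.mul_apply, ← Module.End.mul_apply, ← pow_add, ← pow_add, add_comm]
  have hD1 : ∀ f, FiniteDimensional k (kr T (D f) 1) := by
    intro f
    have := hM1 f
    refine Submodule.finiteDimensional_of_le (kr_mono' (T := T) (M' := Mf T S (fun i => Q (f i)))
      ?_ 1)
    rintro _ ⟨x, hx, rfl⟩
    exact (hMst _).pow _ x hx
  -- sums
  let Sg : Finset (ι → Fin a) → Submodule k H := fun s => ⨆ f ∈ s, D f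
  have hSgD : ∀ s, ∀ f ∈ s, D f ≤ Sg s := fun s f hf => le_iSup₂_of_le f hf le_rfl
  have hSg_ind : ∀ (s : Finset (ι → Fin a)) (P : Submodule k H), (∀ f ∈ s, D f ≤ P) → Sg s ≤ P :=
    fun s P h => iSup₂_le h
  have hSgDv : ∀ s, Dv T (Sg s) := by
    intro s
    constructor
    · have : Sg s ≤ (Sg s).comap T := by
        apply hSg_ind
        intro f hf x hx
        exact hSgD s f hf ((hD f).1 x hx)
      exact fun x hx => this hx
    · have : Sg s ≤ (Sg s).map T := by
        apply hSg_ind
        intro f hf x hx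
        obtain ⟨y, hy, rfl⟩ := (hD f).2 x hx
        exact ⟨y, hSgD s f hf hy, rfl⟩
      intro x hx
      obtain ⟨y, hy, hyx⟩ := this hx
      exact ⟨y, hy, hyx⟩
  -- `kr T Sg a` is inside `Wk`
  have hker : ∀ s, kr T (Sg s) a ≤ Wk T S a a := by
    intro s x hx
    rw [mem_kr] at hx
    refine ⟨hx.2, fun i => ?_⟩
    -- operators `P n = ∏_{j < n} (S i - T ^ Q j)`
    let R : ℕ → Module.End k H := fun j => if h : j < a then S i - T ^ Q ⟨j, h⟩ else 1
    let P : ℕ → Module.End k H := fun n => Nat.rec 1 (fun n Pn => R n * Pn) n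
    have hP0 : P 0 = 1 := rfl
    have hPs : ∀ n, P (n + 1) = R n * P n := fun n => rfl
    have hPD : ∀ n, ∀ f, ∀ y ∈ D f, P n y ∈ D f := by
      intro n
      induction n with
      | zero => intro f y hy; rw [hP0]; exact hy
      | succ n ih =>
        intro f y hy
        rw [hPs, Module.End.mul_apply]
        have h1 := ih f y hy
        simp only [R]
        split_ifs with hn
        · rw [LinearMap.sub_apply]
          refine Submodule.sub_mem _ ?_ ((hD f).1.pow _ _ h1)
          rw [hDS f i _ h1]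
          exact (hD f).1.pow _ _ h1
        · exact h1
    have hPDz : ∀ f, ∀ n, (f i : ℕ) < n → ∀ y ∈ D f, P n y = 0 := by
      intro f n
      induction n with
      | zero => intro h; omega
      | succ n ih =>
        intro hn y hy
        rw [hPs, Module.End.mul_apply]
        rcases Nat.lt_or_ge (f i : ℕ) n with h | h
        · rw [ih h y hy, map_zero]
        · have hn' : n = (f i : ℕ) := by omega
          have h1 := hPD n f y hy
          have h2 : R n = S i - T ^ Q (f i) := by
            simp only [R]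
            rw [dif_pos (by rw [hn']; exact (f i).2)]
            congr 3
            exact Fin.ext hn'
          rw [h2, LinearMap.sub_apply, hDS f i _ h1, sub_self]
    have hPSg : Sg s ≤ LinearMap.ker (P a) := by
      apply hSg_ind
      intro f _ y hy
      rw [LinearMap.mem_ker]
      exact hPDz f a (f i).2 y hy
    have hPx : ∀ n, n ≤ a → P n x = (S i ^ n) x := by
      intro n
      induction n with
      | zero => intro _; rfl
      | succ n ih =>
        intro hn
        rw [hPs, Module.End.mul_apply, ih (by omega)]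
        simp only [R]
        rw [dif_pos (by omega : n < a), LinearMap.sub_apply]
        have hcomm : ∀ (m l : ℕ) (z : H), (T ^ l) z = 0 → (T ^ l) ((S i ^ m) z) = 0 := by
          intro m l
          induction m with
          | zero => intro z hz; exact hz
          | succ m ihm =>
            intro z hz
            rw [pow_succ, Module.End.mul_apply]
            apply ihm
            rw [← hSTn, hz, map_zero]
        have h3 : (T ^ Q ⟨n, by omega⟩) ((S i ^ n) x) = 0 := by
          apply hcomm
          obtain ⟨c, hc⟩ := Nat.exists_eq_add_of_le (hQa ⟨n, by omega⟩)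
          rw [hc, add_comm, pow_add, Module.End.mul_apply, hx.2, map_zero]
        rw [h3, sub_zero, ← Module.End.mul_apply, ← pow_succ']
    have h4 := hPx a le_rfl
    rw [← h4]
    exact LinearMap.mem_ker.mp (hPSg hx.1)
  have hkr1 : ∀ s, FiniteDimensional k (kr T (Sg s) 1) := by
    intro s
    refine @Submodule.finiteDimensional_of_le k H _ _ _ _ _ hW (le_trans ?_ (hker s))
    intro x hx
    rw [mem_kr, pow_one] at hx
    rw [mem_kr]
    refine ⟨hx.1, ?_⟩
    obtain ⟨c, hc⟩ : ∃ c, a = c + 1 := ⟨a - 1, by omega⟩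
    rw [hc, pow_succ, Module.End.mul_apply, hx.2, map_zero]
  -- separation
  have hsep : ∀ (f0 : ι → Fin a) (s : Finset (ι → Fin a)), f0 ∉ s → ∃ P : Module.End k H,
      (∀ g ∈ s, ∀ x ∈ D g, P x = 0) ∧ ∀ x ∈ D f0, ∃ y ∈ D f0, P y = x := by
    intro f0 s
    induction s using Finset.induction_on with
    | empty => intro _; exact ⟨1, fun g hg => absurd hg (Finset.notMem_empty g),
        fun x hx => ⟨x, hx, rfl⟩⟩
    | insert f s hf ih =>
      intro h0
      rw [Finset.mem_insert, not_or] at h0
      obtain ⟨P, hP1, hP2⟩ := ih h0.2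
      obtain ⟨i, hi⟩ := Function.ne_iff.mp h0.1
      refine ⟨P * (S i - T ^ Q (f i)), ?_, ?_⟩
      · intro g hg x hx
        rw [Module.End.mul_apply]
        rcases Finset.mem_insert.mp hg with rfl | hg
        · rw [LinearMap.sub_apply, hDS g i x hx, sub_self, map_zero]
        · apply hP1 g hg
          rw [LinearMap.sub_apply]
          refine Submodule.sub_mem _ ?_ ((hD g).1.pow _ _ hx)
          rw [hDS g i x hx]
          exact (hD g).1.pow _ _ hx
      · intro x hx
        obtain ⟨y, hy, hyx⟩ := hP2 x hx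
        have hne' : Q (f0 i) ≠ Q (f i) := fun h => hi (hQ h)
        obtain ⟨z, hz, hzy⟩ := (hD f0).sub_surj hT hne' y hy
        refine ⟨z, hz, ?_⟩
        rw [Module.End.mul_apply, ← hyx, ← hzy]
        congr 1
        rw [LinearMap.sub_apply, LinearMap.sub_apply, hDS f0 i z hz]
  -- counting
  have hcount : ∀ s : Finset (ι → Fin a), s.card ≤ finrank k (kr T (Sg s) 1) := by
    intro s
    induction s using Finset.induction_on with
    | empty => simp
    | insert f0 s hf0 ih =>
      rw [Finset.card_insert_of_notMem hf0]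
      have hle : Sg s ≤ Sg (insert f0 s) := by
        apply hSg_ind
        intro f hf
        exact hSgD _ f (Finset.mem_insert_of_mem hf)
      have := hkr1 s
      have := hkr1 (insert f0 s)
      have hle1 := kr_mono' (T := T) hle 1
      by_contra hcon
      have heq := Submodule.eq_of_le_of_finrank_le hle1 (by omega)
      have h1 : Sg (insert f0 s) ≤ Sg s := by
        apply le_of_kr hT hle (hSgDv s) (hSgDv _).1
        rw [← heq]
        exact fun x hx => hx.1
      obtain ⟨P, hP1, hP2⟩ := hsep f0 s hf0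
      have h2 : Sg s ≤ LinearMap.ker P := by
        apply hSg_ind
        intro g hg x hx
        exact LinearMap.mem_ker.mpr (hP1 g hg x hx)
      apply hDne f0
      rw [eq_bot_iff]
      intro x hx
      obtain ⟨y, hy, hyx⟩ := hP2 x hx
      rw [Submodule.mem_bot, ← hyx]
      exact LinearMap.mem_ker.mp (h2 (h1 (hSgD _ f0 (Finset.mem_insert_self f0 s) hy)))
  have h5 := hcount Finset.univ
  rw [Finset.card_univ, ← Nat.card_eq_fintype_card] at h5
  have h6 := finrank_kr (hSgDv Finset.univ) (hkr1 Finset.univ) a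
  have h7 := Submodule.finrank_mono (hker Finset.univ)
  rw [h6] at h7
  calc Nat.card (ι → Fin a) * a = a * Nat.card (ι → Fin a) := mul_comm _ _
    _ ≤ a * finrank k (kr T (Sg Finset.univ) 1) := Nat.mul_le_mul_left a h5
    _ ≤ _ := h7

end main

end Pool.Agent.Helper25.ETC
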