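import Pool.Agent.Helper25.ETCGrow2
import Pool.Agent.Helper25.ETCPow

/-!
# Operators on the space of `p`-power classes; upper bound in a Kummer step
-/

set_option autoImplicit false

namespace Pool.Agent.Helper25.ETC

open Polynomial Finset Module

variable {F K : Type*} [Field F] [Field K] [Algebra F K] {p : ℕ} {ζ : K}

noncomputable instance vvMod (p : ℕ) (E : IntermediateField F K) :
    Module (ZMod p) (VV p E) := AddCommGroup.zmodModule nsmul_zero

section

variable {A B : IntermediateField F K}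

/-- inclusion on classes. -/
noncomputable def incV (p : ℕ) (h : A ≤ B) : VV p A →ₗ[ZMod p] VV p B :=
  (vmap p (Units.map (IntermediateField.inclusion h : A →* B))).toZModLinearMap p

theorem incV_mkc (h : A ≤ B) {x : K} (hx : x ∈ A) (hx0 : x ≠ 0) :
    incV p h (mkc p A (mku x hx hx0)) = mkc p B (mku x (h hx) hx0) := rfl

/-- an automorphism on unit groups. -/
noncomputable def autC (σ : K ≃ₐ[F] K) (B : IntermediateField F K) (h : ∀ x ∈ B, σ x ∈ B) :
    Bˣ →* Bˣ where
  toFun x := mku (σ ((x : B) : K)) (h _ (x : B).2) ((_root_.map_ne_zero _).mpr (unit_ne x))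
  map_one' := by
    apply Units.ext; apply Subtype.ext
    change σ 1 = 1
    exact map_one σ
  map_mul' := by
    intro x y
    apply Units.ext; apply Subtype.ext
    change σ (((x : B) : K) * ((y : B) : K)) = σ ((x : B) : K) * σ ((y : B) : K)
    exact map_mul σ _ _

/-- an automorphism on classes. -/
noncomputable def autV (p : ℕ) (σ : K ≃ₐ[F] K) (B : IntermediateField F K)
    (h : ∀ x ∈ B, σ x ∈ B) : VV p B →ₗ[ZMod p] VV p B :=
  (vmap p (autC σ B h)).toZModLinearMap p

theorem autV_mkc {σ : K ≃ₐ[F] K} (h : ∀ x ∈ B, σ x ∈ B) {x : K} (hx : x ∈ B) (hx0 : x ≠ 0) :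
    autV p σ B h (mkc p B (mku x hx hx0)) =
      mkc p B (mku (σ x) (h x hx) ((_root_.map_ne_zero _).mpr hx0)) := rfl

theorem mkc_mku_surj (u : VV p B) : ∃ x, ∃ hx : x ∈ B, ∃ hx0 : x ≠ 0, mkc p B (mku x hx hx0) = u := by
  obtain ⟨x, rfl⟩ := mkc_surj u
  exact ⟨((x : B) : K), (x : B).2, unit_ne x, mkc_eq_of_val rfl⟩

theorem mkc_congr {x y : K} (hx : x ∈ B) (hx0 : x ≠ 0) (h : x = y) (hy : y ∈ B) (hy0 : y ≠ 0) :
    mkc p B (mku x hx hx0) = mkc p B (mku y hy hy0) := mkc_eq_of_val h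

theorem mkc_mku_mul {x y : K} (hx : x ∈ B) (hx0 : x ≠ 0) (hy : y ∈ B) (hy0 : y ≠ 0) :
    mkc p B (mku (x * y) (B.mul_mem hx hy) (mul_ne_zero hx0 hy0)) =
      mkc p B (mku x hx hx0) + mkc p B (mku y hy hy0) := by
  rw [← mkc_mul]
  exact mkc_eq_of_val rfl

theorem mkc_mku_pow {y : K} (hy : y ∈ B) (hy0 : y ≠ 0) :
    mkc p B (mku (y ^ p) (pow_mem hy p) (pow_ne_zero p hy0)) = 0 :=
  mkc_eq_zero.mpr (pow_mem_TT hy hy0)

theorem pow_ne_zero_of {y : K} (hp : p ≠ 0) (h : y ^ p ≠ 0) : y ≠ 0 := by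
  rintro rfl; exact h (zero_pow hp)

/-- equality of classes. -/
theorem mkc_mku_eq_iff (hp : p ≠ 0) {x y : K} (hx : x ∈ B) (hx0 : x ≠ 0) (hy : y ∈ B)
    (hy0 : y ≠ 0) :
    mkc p B (mku x hx hx0) = mkc p B (mku y hy hy0) ↔ ∃ z ∈ B, z ≠ 0 ∧ x = y * z ^ p := by
  rw [← cg_iff_mkc]
  constructor
  · rintro ⟨h0, z, hz, hzp⟩
    rw [mku_val, mku_val] at hzp h0
    refine ⟨z, hz, pow_ne_zero_of hp (by rw [hzp]; exact h0), ?_⟩
    rw [hzp]; field_simp
  · rintro ⟨z, hz, hz0, h⟩
    refine ⟨div_ne_zero hx0 hy0, z, hz, ?_⟩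
    rw [mku_val, mku_val, h]; field_simp

theorem autV_pow_mkc {σ : K ≃ₐ[F] K} (h : ∀ x ∈ B, σ x ∈ B) (n : ℕ)
    (hn : ∀ x ∈ B, (σ ^ n) x ∈ B) {x : K} (hx : x ∈ B)
    (hx0 : x ≠ 0) : ((autV p σ B h) ^ n) (mkc p B (mku x hx hx0)) =
      mkc p B (mku ((σ ^ n) x) (hn x hx) ((_root_.map_ne_zero _).mpr hx0)) := by
  induction n generalizing x with
  | zero => rfl
  | succ n ih =>
    have hn' : ∀ x ∈ B, (σ ^ n) x ∈ B := by
      intro x hx
      clear hn ih
      induction n with
      | zero => exact hx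
      | succ n ih2 => rw [pow_succ', AlgEquiv.mul_apply]; exact h _ ih2
    rw [pow_succ, Module.End.mul_apply, autV_mkc, ih hn']
    apply mkc_eq_of_val
    rw [mku_val, mku_val, ← AlgEquiv.mul_apply, ← pow_succ]

end

/-- linear algebra part of the upper bound. -/
theorem schreier_lin {k M : Type*} [Field k] [AddCommGroup M] [Module k M] (D : Module.End k M)
    {p : ℕ} (hp : 1 ≤ p) (hD : D ^ p = 0) {R : Submodule k M} [FiniteDimensional k R]
    (h1 : ∀ x, D x = 0 → x ∈ LinearMap.range D → x ∈ R)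
    (h2 : ∃ x0, ∀ x, D x = 0 → x ∈ R ⊔ Submodule.span k {x0}) :
    FiniteDimensional k M ∧ finrank k M ≤ 1 + p * finrank k R := by
  obtain ⟨x0, hx0⟩ := h2
  have hst : Stab D (⊤ : Submodule k M) := fun _ _ => trivial
  have hk1 : kr D ⊤ 1 ≤ R ⊔ Submodule.span k {x0} := by
    intro x hx
    rw [mem_kr, pow_one] at hx
    exact hx0 x hx.2
  have f1 : FiniteDimensional k (kr D ⊤ 1) := Submodule.finiteDimensional_of_le hk1
  have hr1 : finrank k (kr D ⊤ 1) ≤ finrank k R + 1 := by
    refine (Submodule.finrank_mono hk1).trans ?_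
    refine (Submodule.finrank_add_le_finrank_add_finrank _ _).trans ?_
    have := finrank_span_le_card (R := k) ({x0} : Set M)
    simp only [Set.toFinset_singleton, Finset.card_singleton] at this
    omega
  have step : ∀ n, finrank k (kr D ⊤ (n + 1)) ≤ 1 + (n + 1) * finrank k R := by
    intro n
    induction n with
    | zero => simpa [add_comm] using hr1
    | succ n ih =>
      have := kr_finite hst f1 (n + 1 + 1)
      have := kr_finite hst f1 (n + 1)
      -- `D ^ (n+1) : kr (n+2) → R`, kernel `kr (n+1)`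
      have hgR : ∀ x : M, x ∈ kr D ⊤ (n + 1 + 1) → (D ^ (n + 1)) x ∈ R := by
        intro x hx
        have hx2 := (mem_kr.mp hx).2
        rw [pow_succ', Module.End.mul_apply] at hx2
        refine h1 _ hx2 ⟨(D ^ n) x, ?_⟩
        rw [← Module.End.mul_apply, ← pow_succ']
      let g : kr D ⊤ (n + 1 + 1) →ₗ[k] R :=
        { toFun := fun x => ⟨(D ^ (n + 1)) x, hgR x x.2⟩
          map_add' := by intro x y; apply Subtype.ext; simp
          map_smul' := by intro c x; apply Subtype.ext; simp }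
      have a2 : finrank k (LinearMap.ker g) ≤ finrank k (kr D ⊤ (n + 1)) := by
        rw [(Submodule.equivSubtypeMap (kr D ⊤ (n + 1 + 1)) (LinearMap.ker g)).finrank_eq]
        apply Submodule.finrank_mono
        rintro _ ⟨x, hx, rfl⟩
        rw [mem_kr]
        exact ⟨trivial, congrArg Subtype.val (LinearMap.mem_ker.mp hx)⟩
      have a1 := LinearMap.finrank_range_add_finrank_ker g
      have a3 := Submodule.finrank_le (LinearMap.range g)
      rw [← a1]
      have : (n + 1 + 1) * finrank k R = (n + 1) * finrank k R + finrank k R := by ring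
      omega
  have htop : kr D ⊤ p = ⊤ := by
    rw [eq_top_iff]
    intro x _
    rw [mem_kr, hD]
    exact ⟨trivial, rfl⟩
  obtain ⟨m, rfl⟩ : ∃ m, p = m + 1 := ⟨p - 1, by omega⟩
  have f2 := kr_finite hst f1 (m + 1)
  have s2 := step m
  rw [htop] at f2 s2
  rw [finrank_top] at s2
  exact ⟨Module.Finite.equiv (Submodule.topEquiv : (⊤ : Submodule k M) ≃ₗ[k] M), s2⟩

theorem prod_norm_aux {σ : K ≃ₐ[F] K} (u : K) (n : ℕ) :
    u * σ (∏ i ∈ range n, (σ ^ i) u) = ∏ i ∈ range (n + 1), (σ ^ i) u := by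
  rw [map_prod, prod_range_succ' (fun i => (σ ^ i) u), pow_zero, AlgEquiv.one_apply, mul_comm]
  congr 1
  apply prod_congr rfl
  intro i _
  rw [pow_succ', AlgEquiv.mul_apply]

theorem schreier_step (Cx : Ctx p F K ζ) {A B : IntermediateField F K} {β : K} (hζA : ζ ∈ A)
    (St : Step p A B β) {n : ℕ} (hA : Nat.card (PC p A) = p ^ n) :
    ∃ m, Nat.card (PC p B) = p ^ m ∧ m ≤ 1 + p * (n - 1) := by
  classical
  have := Cx.pc.gal
  have hp := Cx.hp
  have hζ := Cx.hζ
  have : Fact p.Prime := ⟨hp⟩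
  obtain ⟨σ, S⟩ := exists_stepAut (p := p) hp hζ hζA St.notMem St.pow_mem
  have hβ0 : β ≠ 0 := by rintro rfl; exact St.notMem A.zero_mem
  have hσB : ∀ n : ℕ, ∀ x ∈ B, (σ ^ n) x ∈ B := fun n x hx => step_stable St S hζA hx n
  have hσ1 : ∀ x ∈ B, σ x ∈ B := fun x hx => by simpa using hσB 1 x hx
  have hnegB : ∀ x ∈ B, x ≠ 0 → σ x ≠ 0 := fun x _ h => (_root_.map_ne_zero _).mpr h
  set f := autV p σ B hσ1 with hf
  set D : Module.End (ZMod p) (VV p B) := f - 1 with hD
  set i := incV p St.le with hi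
  have hDmkc : ∀ (x : K) (hx : x ∈ B) (hx0 : x ≠ 0), D (mkc p B (mku x hx hx0)) =
      mkc p B (mku (σ x / x) (B.div_mem (hσ1 x hx) hx) (div_ne_zero (hnegB x hx hx0) hx0)) := by
    intro x hx hx0
    rw [hD, LinearMap.sub_apply, Module.End.one_apply, hf, autV_mkc, sub_eq_iff_eq_add,
      ← mkc_mku_mul]
    apply mkc_congr
    field_simp
  have hD0 : ∀ (x : K) (hx : x ∈ B) (hx0 : x ≠ 0), D (mkc p B (mku x hx hx0)) = 0 →
      ∃ y ∈ B, y ≠ 0 ∧ σ x = x * y ^ p := by
    intro x hx hx0 h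
    rw [hDmkc, mkc_eq_zero] at h
    obtain ⟨h0, y, hy, hyp⟩ := h
    rw [mku_val] at h0 hyp
    refine ⟨y, hy, pow_ne_zero_of hp.ne_zero (by rw [hyp]; exact h0), ?_⟩
    rw [hyp]; field_simp
  -- elements with trivial norm
  have hN1 : ∀ (x y : K) (hx : x ∈ B) (hx0 : x ≠ 0), y ∈ B → σ x = x * y ^ p → nm p σ y = 1 →
      mkc p B (mku x hx hx0) ∈ LinearMap.range i := by
    intro x y hx hx0 hy hxy hN
    obtain ⟨v, hv, hv0, hyv⟩ := hilbert90 Cx hζA St S hy hN
    have h1 : σ (x * v ^ p) = x * v ^ p := by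
      rw [map_mul, map_pow, hxy]
      calc x * y ^ p * σ v ^ p = x * (y * σ v) ^ p := by ring
        _ = x * v ^ p := by rw [hyv]
    have h2 : x * v ^ p ∈ A :=
      step_fixed St S hζ hζA hp (B.mul_mem hx (pow_mem hv p)) h1
    refine ⟨mkc p A (mku (x * v ^ p) h2 (mul_ne_zero hx0 (pow_ne_zero p hv0))), ?_⟩
    rw [hi, incV_mkc, mkc_mku_eq_iff hp.ne_zero]
    exact ⟨v, hv, hv0, rfl⟩
  have hNp : ∀ (x y : K), x ∈ B → x ≠ 0 → y ∈ B → σ x = x * y ^ p → nm p σ y ^ p = 1 := by
    intro x y hx hx0 hy hxy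
    rw [← nm_pow]
    have h1 : nm p σ (σ x) = nm p σ x := by
      have h1 := step_pow St S hζ hζA hx
      unfold nm
      have h2 : ∀ j : ℕ, (σ ^ j) (σ x) = (σ ^ (j + 1)) x := by
        intro j; rw [← AlgEquiv.mul_apply, ← pow_succ]
      rw [prod_congr rfl (fun j _ => h2 j)]
      have h3 := prod_range_succ (fun j => (σ ^ j) x) p
      have h4 := prod_range_succ' (fun j => (σ ^ j) x) p
      rw [h3, h1, pow_zero, AlgEquiv.one_apply] at h4
      exact (mul_right_cancel₀ hx0 h4).symm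
    rw [hxy, nm_mul] at h1
    exact (mul_right_eq_self₀.mp h1).resolve_right (nm_ne_zero hx0)
  have hζ0 : ζ ≠ 0 := hζ.ne_zero hp.ne_zero
  -- (1) `ker D ∩ range D ≤ range i`
  have key1 : ∀ u, D u = 0 → u ∈ LinearMap.range D → u ∈ LinearMap.range i := by
    rintro _ hu ⟨w, rfl⟩
    obtain ⟨w, hw, hw0, rfl⟩ := mkc_mku_surj w
    rw [hDmkc] at hu ⊢
    set h := σ w / w with hh
    have hhB : h ∈ B := B.div_mem (hσ1 w hw) hw
    have hh0 : h ≠ 0 := div_ne_zero (hnegB w hw hw0) hw0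
    obtain ⟨u, huB, hu0, hu⟩ := hD0 h hhB hh0 hu
    apply hN1 h u hhB hh0 huB hu
    -- the norm of `u` is one
    let Yj : ℕ → K := fun j => ∏ i ∈ range j, (σ ^ i) u
    have hYs : ∀ j, u * σ (Yj j) = Yj (j + 1) := fun j => prod_norm_aux u j
    have hYj0 : ∀ j, Yj j ≠ 0 := fun j => by
      simp only [Yj]; rw [prod_ne_zero_iff]; intro i _; exact (_root_.map_ne_zero _).mpr hu0
    have hσj : ∀ j, (σ ^ j) h = h * (Yj j) ^ p := by
      intro j
      induction j with
      | zero => simp [Yj]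
      | succ j ih =>
        rw [pow_succ', AlgEquiv.mul_apply, ih, map_mul, map_pow, hu, ← hYs j]
        ring
    set Y := ∏ j ∈ range p, Yj j with hY
    have hY0 : Y ≠ 0 := by rw [hY, prod_ne_zero_iff]; intro i _; exact hYj0 i
    have hNh : nm p σ h = 1 := by
      have h1 : nm p σ (σ w) = nm p σ w := by
        have h1 := step_pow St S hζ hζA hw
        unfold nm
        have h2 : ∀ j : ℕ, (σ ^ j) (σ w) = (σ ^ (j + 1)) w := by
          intro j; rw [← AlgEquiv.mul_apply, ← pow_succ]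
        rw [prod_congr rfl (fun j _ => h2 j)]
        have h3 := prod_range_succ (fun j => (σ ^ j) w) p
        have h4 := prod_range_succ' (fun j => (σ ^ j) w) p
        rw [h3, h1, pow_zero, AlgEquiv.one_apply] at h4
        exact (mul_right_cancel₀ hw0 h4).symm
      rw [hh, div_eq_mul_inv, nm_mul, nm_inv, h1, mul_inv_cancel₀ (nm_ne_zero hw0)]
    have hN2 : nm p σ h = h ^ p * Y ^ p := by
      unfold nm
      rw [prod_congr rfl (fun j _ => hσj j), prod_mul_distrib, prod_const, card_range, hY,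
        prod_pow]
    have hζl : (h * Y) ^ p = 1 := by rw [mul_pow, ← hN2, hNh]
    have hσY : u ^ p * σ Y = Y * nm p σ u := by
      rw [hY, map_prod]
      have h3 : u ^ p * ∏ j ∈ range p, σ (Yj j) = ∏ j ∈ range p, Yj (j + 1) := by
        rw [← prod_congr rfl (fun j _ => hYs j), prod_mul_distrib, prod_const, card_range]
      rw [h3]
      have h4 := prod_range_succ Yj p
      have h5 := prod_range_succ' Yj p
      have h6 : Yj 0 = 1 := by simp [Yj]
      rw [h4, h6, mul_one] at h5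
      exact h5.symm
    obtain ⟨l, -, hl⟩ := exists_zeta_pow hp.pos hζ (hζl.trans (one_pow p).symm)
    rw [mul_one] at hl
    have h7 : σ (h * Y) = h * Y := by
      rw [hl, map_pow, S.fix ζ hζA]
    rw [map_mul, hu] at h7
    have h8 : h * (Y * nm p σ u) = h * Y := by
      rw [← hσY, ← h7]; ring
    have h9 : Y * nm p σ u = Y := mul_left_cancel₀ hh0 h8
    exact (mul_eq_left₀ hY0).mp h9
  -- (2) `ker D ≤ range i + <x0>`
  have key2 : ∃ x0, ∀ x, D x = 0 → x ∈ LinearMap.range i ⊔ Submodule.span (ZMod p) {x0} := by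
    by_cases hex : ∃ (x y : K) (hx : x ∈ B) (hx0 : x ≠ 0), y ∈ B ∧ y ≠ 0 ∧ σ x = x * y ^ p ∧
        nm p σ y ≠ 1
    · obtain ⟨x, y, hx, hx0, hy, hy0, hxy, hNy⟩ := hex
      refine ⟨mkc p B (mku x hx hx0), fun u hu => ?_⟩
      obtain ⟨x', hx', hx0', rfl⟩ := mkc_mku_surj u
      obtain ⟨y', hy', hy0', hxy'⟩ := hD0 x' hx' hx0' hu
      -- `nm y' = (nm y) ^ e`
      obtain ⟨j, hj, hyj⟩ := exists_zeta_pow hp.pos hζ
        ((hNp x y hx hx0 hy hxy).trans (one_pow p).symm)
      obtain ⟨j', hj', hyj'⟩ := exists_zeta_pow hp.pos hζ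
        ((hNp x' y' hx' hx0' hy' hxy').trans (one_pow p).symm)
      rw [mul_one] at hyj hyj'
      have hj0 : j ≠ 0 := by rintro rfl; apply hNy; rw [hyj, pow_zero]
      have hcop : Nat.Coprime j p := by
        rw [Nat.coprime_comm, hp.coprime_iff_not_dvd]
        intro hd
        exact absurd (Nat.le_of_dvd (Nat.pos_of_ne_zero hj0) hd) (not_le.mpr hj)
      obtain ⟨m, hm⟩ := Nat.exists_mul_mod_eq_one_of_coprime hcop hp.one_lt
      have hζj : ζ ^ (j * m) = ζ := by
        rw [← pow_mod_orderOf, ← hζ.eq_orderOf, hm.2, pow_one]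
      set e := m * j' with he
      have hxe0 : x ^ e ≠ 0 := pow_ne_zero e hx0
      have hye0 : y ^ e ≠ 0 := pow_ne_zero e hy0
      have h1 : nm p σ (y' / y ^ e) = 1 := by
        rw [div_eq_mul_inv, nm_mul, nm_inv, nm_pow, hyj, hyj', he, ← pow_mul,
          ← mul_assoc, pow_mul, hζj]
        exact mul_inv_cancel₀ (pow_ne_zero _ hζ0)
      have h2 : σ (x' / x ^ e) = (x' / x ^ e) * (y' / y ^ e) ^ p := by
        rw [map_div₀, map_pow, hxy, hxy', mul_pow, div_pow, ← pow_mul y, ← pow_mul y, mul_comm e p]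
        field_simp
      have h3 := hN1 (x' / x ^ e) (y' / y ^ e) (B.div_mem hx' (pow_mem hx e))
        (div_ne_zero hx0' hxe0) (B.div_mem hy' (pow_mem hy e)) h2 h1
      have h4 : mkc p B (mku x' hx' hx0') =
          mkc p B (mku (x' / x ^ e) (B.div_mem hx' (pow_mem hx e)) (div_ne_zero hx0' hxe0)) +
            (e : ZMod p) • mkc p B (mku x hx hx0) := by
        have h5 : (e : ZMod p) • mkc p B (mku x hx hx0) =
            mkc p B (mku (x ^ e) (pow_mem hx e) hxe0) := by
          rw [Nat.cast_smul_eq_nsmul (ZMod p)]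
          have h6 : e • mkc p B (mku x hx hx0) = mkc p B ((mku x hx hx0) ^ e) := rfl
          rw [h6]
          apply mkc_eq_of_val
          rw [Units.val_pow_eq_pow_val]
          rfl
        rw [h5, ← mkc_mku_mul]
        apply mkc_congr
        field_simp
      rw [h4]
      exact Submodule.add_mem_sup h3 (Submodule.smul_mem _ _
        (Submodule.mem_span_singleton_self _))
    · push Not at hex
      refine ⟨0, fun u hu => ?_⟩
      obtain ⟨x', hx', hx0', rfl⟩ := mkc_mku_surj u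
      obtain ⟨y', hy', hy0', hxy'⟩ := hD0 x' hx' hx0' hu
      exact Submodule.mem_sup_left (hN1 x' y' hx' hx0' hy' hxy' (hex x' y' hx' hx0' hy' hy0' hxy'))
  -- nilpotence
  have hDp : D ^ p = 0 := by
    have h1 : f ^ p = 1 := by
      ext u
      obtain ⟨x, hx, hx0, rfl⟩ := mkc_mku_surj u
      rw [hf, autV_pow_mkc hσ1 p (hσB p)]
      apply mkc_congr
      exact step_pow St S hζ hζA hx
    have : CharP (Module.End (ZMod p) (VV p B)) p ∨ Subsingleton (VV p B) := by
      by_cases hs : Subsingleton (VV p B)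
      · exact Or.inr hs
      · left
        rw [not_subsingleton_iff_nontrivial] at hs
        exact charP_of_injective_algebraMap
          (algebraMap (ZMod p) (Module.End (ZMod p) (VV p B))).injective p
    rcases this with hc | hs
    · have h2 := sub_pow_char_of_commute (p := p) (Commute.one_right f)
      rw [hD, h2, h1, one_pow, sub_self]
    · ext u; exact Subsingleton.elim _ _
  -- dimension of `range i`
  have hfA : Finite (PC p A) := Nat.finite_of_card_ne_zero (by rw [hA]; exact pow_ne_zero _ hp.ne_zero)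
  have hfA' : Finite (VV p A) := hfA
  have fA : FiniteDimensional (ZMod p) (VV p A) := Module.Finite.of_finite
  have hrA : finrank (ZMod p) (VV p A) = n := by
    have h1 : Nat.card (VV p A) = Nat.card (ZMod p) ^ finrank (ZMod p) (VV p A) :=
      Module.natCard_eq_pow_finrank
    have h2 : Nat.card (VV p A) = p ^ n := hA
    rw [h2, Nat.card_zmod] at h1
    exact (Nat.pow_right_injective hp.two_le h1).symm
  have hrange : finrank (ZMod p) (LinearMap.range i) ≤ n - 1 := by
    have h1 := LinearMap.finrank_range_add_finrank_ker i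
    rw [hrA] at h1
    have h2 : 0 < finrank (ZMod p) (LinearMap.ker i) := by
      have : Nontrivial (LinearMap.ker i) := by
        refine ⟨⟨⟨mkc p A (mku (β ^ p) St.pow_mem (pow_ne_zero _ hβ0)), ?_⟩, 0, ?_⟩⟩
        · rw [LinearMap.mem_ker, hi, incV_mkc]
          exact mkc_mku_pow St.mem hβ0
        · intro h
          have h3 := congrArg Subtype.val h
          have h4 : mkc p A (mku (β ^ p) St.pow_mem (pow_ne_zero _ hβ0)) = 0 := h3
          rw [mkc_eq_zero] at h4
          obtain ⟨-, y, hy, hyp⟩ := h4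
          obtain ⟨j, -, hj⟩ := exists_zeta_pow hp.pos hζ (show y ^ p = β ^ p from hyp).symm
          apply St.notMem
          rw [hj]
          exact A.mul_mem (pow_mem hζA j) hy
      exact finrank_pos
    omega
  obtain ⟨hfin, hdim⟩ := schreier_lin D hp.one_le hDp key1 key2
  have hcB : Nat.card (PC p B) = p ^ finrank (ZMod p) (VV p B) := by
    have h1 : Nat.card (VV p B) = Nat.card (ZMod p) ^ finrank (ZMod p) (VV p B) :=
      Module.natCard_eq_pow_finrank
    rwa [Nat.card_zmod] at h1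
  exact ⟨_, hcB, hdim.trans (Nat.add_le_add_left (Nat.mul_le_mul_left p hrange) 1)⟩

end Pool.Agent.Helper25.ETC
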