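import Pool.Agent.Helper25.ETCPro

/-!
# Norm relations (symbols)
-/

set_option autoImplicit false

namespace Pool.Agent.Helper25.ETC

open Polynomial Finset

/-- standing hypotheses. -/
structure Ctx (p : ℕ) (F K : Type*) [Field F] [Field K] [Algebra F K] (ζ : K) : Prop where
  hp : p.Prime
  hζ : IsPrimitiveRoot ζ p
  pc : PCl p F K

variable {F K : Type*} [Field F] [Field K] [Algebra F K] {p : ℕ} {ζ : K}

/-- nonzero `p`-th powers of elements of `E`. -/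
def TT (p : ℕ) (E : IntermediateField F K) : Set K := {x | x ≠ 0 ∧ ∃ y ∈ E, y ^ p = x}

theorem TT_isMG {E : IntermediateField F K} : IsMG (TT p E) where
  zero := fun h => h.1 rfl
  one := ⟨one_ne_zero, 1, E.one_mem, one_pow p⟩
  mul := by
    rintro x y ⟨hx, a, ha, rfl⟩ ⟨hy, b, hb, rfl⟩
    exact ⟨mul_ne_zero hx hy, a * b, E.mul_mem ha hb, mul_pow a b p⟩
  inv := by
    rintro x ⟨hx, a, ha, rfl⟩
    exact ⟨inv_ne_zero hx, a⁻¹, E.inv_mem ha, inv_pow a p⟩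

theorem pow_mem_TT {E : IntermediateField F K} {x : K} (hx : x ∈ E) (h0 : x ≠ 0) :
    x ^ p ∈ TT p E := ⟨pow_ne_zero p h0, x, hx, rfl⟩

theorem TT_mono {E E' : IntermediateField F K} (h : E ≤ E') : TT p E ⊆ TT p E' := by
  rintro x ⟨hx, a, ha, rfl⟩; exact ⟨hx, a, h ha, rfl⟩

theorem TT_mem {E : IntermediateField F K} {x : K} (h : x ∈ TT p E) : x ∈ E := by
  obtain ⟨_, a, ha, rfl⟩ := h; exact pow_mem ha p

/-- `b` is a norm from `E(a^{1/p})`. -/
def rel (p : ℕ) (E : IntermediateField F K) (ζ a b : K) : Prop :=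
  ∃ α : K, α ^ p = a ∧ ∃ g : K[X], (∀ n, g.coeff n ∈ E) ∧
    ∏ j ∈ range p, g.eval (ζ ^ j * α) = b

theorem prod_shift (hp : p.Prime) (hζ : IsPrimitiveRoot ζ p) (f : K → K) (α : K) (m : ℕ) :
    ∏ j ∈ range p, f (ζ ^ j * (ζ ^ m * α)) = ∏ j ∈ range p, f (ζ ^ j * α) := by
  induction m with
  | zero => simp
  | succ m ih =>
    rw [← ih]
    obtain ⟨q, hq⟩ : ∃ q, p = q + 1 := ⟨p - 1, (Nat.sub_add_cancel hp.one_le).symm⟩
    have e1 : ∀ j, ζ ^ j * (ζ ^ (m + 1) * α) = ζ ^ (j + 1) * (ζ ^ m * α) := by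
      intro j; ring
    simp only [e1]
    have h1 : ∏ j ∈ range (q + 1), f (ζ ^ (j + 1) * (ζ ^ m * α))
        = (∏ j ∈ range q, f (ζ ^ (j + 1) * (ζ ^ m * α))) * f (ζ ^ (q + 1) * (ζ ^ m * α)) :=
      prod_range_succ _ _
    have h2 : ∏ j ∈ range (q + 1), f (ζ ^ j * (ζ ^ m * α))
        = (∏ j ∈ range q, f (ζ ^ (j + 1) * (ζ ^ m * α))) * f (ζ ^ 0 * (ζ ^ m * α)) :=
      prod_range_succ' (fun j => f (ζ ^ j * (ζ ^ m * α))) q
    rw [hq, h1, h2, ← hq, hζ.pow_eq_one, pow_zero]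

theorem rel_iff (hp : p.Prime) (hζ : IsPrimitiveRoot ζ p) {E : IntermediateField F K} {a b α : K}
    (hα : α ^ p = a) : rel p E ζ a b ↔ ∃ g : K[X], (∀ n, g.coeff n ∈ E) ∧
      ∏ j ∈ range p, g.eval (ζ ^ j * α) = b := by
  constructor
  · rintro ⟨α', hα', g, hg, rfl⟩
    obtain ⟨m, -, hm⟩ := exists_zeta_pow hp.pos hζ (hα'.trans hα.symm)
    refine ⟨g, hg, ?_⟩
    rw [hm, prod_shift hp hζ (fun x => g.eval x)]
  · rintro ⟨g, hg, h⟩
    exact ⟨α, hα, g, hg, h⟩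

section basic

variable {E : IntermediateField F K} {a b c : K}

theorem coeff_mul_mem {g h : K[X]} (hg : ∀ n, g.coeff n ∈ E) (hh : ∀ n, h.coeff n ∈ E) :
    ∀ n, (g * h).coeff n ∈ E := by
  intro n
  rw [coeff_mul]
  exact E.sum_mem (fun i _ => E.mul_mem (hg _) (hh _))

theorem coeff_prod_mem {ι : Type*} (s : Finset ι) {g : ι → K[X]}
    (hg : ∀ i ∈ s, ∀ n, (g i).coeff n ∈ E) : ∀ n, (∏ i ∈ s, g i).coeff n ∈ E := by
  classical
  induction s using Finset.induction_on with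
  | empty =>
    intro n
    rw [prod_empty, coeff_one]
    split_ifs
    · exact E.one_mem
    · exact E.zero_mem
  | insert i s hi ih =>
    rw [prod_insert hi]
    exact coeff_mul_mem (hg i (mem_insert_self i s))
      (ih (fun j hj => hg j (mem_insert_of_mem hj)))

theorem eval_mem {g : K[X]} (hg : ∀ n, g.coeff n ∈ E) {x : K} (hx : x ∈ E) : g.eval x ∈ E := by
  rw [eval_eq_sum_range]
  exact E.sum_mem (fun i _ => E.mul_mem (hg _) (pow_mem hx _))

theorem coeff_C_mem (hc : c ∈ E) : ∀ n, (C c : K[X]).coeff n ∈ E := by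
  intro n
  rw [coeff_C]
  split_ifs
  · exact hc
  · exact E.zero_mem

theorem rel_mul (h1 : rel p E ζ a b) (h2 : rel p E ζ a c) (hp : p.Prime)
    (hζ : IsPrimitiveRoot ζ p) : rel p E ζ a (b * c) := by
  obtain ⟨α, hα, g, hg, rfl⟩ := h1
  rw [rel_iff hp hζ hα] at h2
  obtain ⟨h, hh, rfl⟩ := h2
  refine ⟨α, hα, g * h, coeff_mul_mem hg hh, ?_⟩
  rw [← prod_mul_distrib]
  simp

theorem rel_pow (Cx : Ctx p F K ζ) (hc : c ∈ E) : rel p E ζ a (c ^ p) := by
  obtain ⟨α, hα⟩ := Cx.pc.root a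
  exact ⟨α, hα, C c, coeff_C_mem hc, by simp⟩

theorem rel_TT (Cx : Ctx p F K ζ) (hc : c ∈ TT p E) : rel p E ζ a c := by
  obtain ⟨_, y, hy, rfl⟩ := hc
  exact rel_pow Cx hy

/-- Steinberg relation. -/
theorem rel_steinberg (Cx : Ctx p F K ζ) (hc : c ∈ E) {d : K} (hd : d ∈ E) :
    rel p E ζ a (c ^ p - a * d ^ p) := by
  obtain ⟨α, hα⟩ := Cx.pc.root a
  refine ⟨α, hα, C c - C d * X, ?_, ?_⟩
  · intro n
    rw [coeff_sub, coeff_C_mul, coeff_X]
    refine E.sub_mem (coeff_C_mem hc n) (E.mul_mem hd ?_)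
    split_ifs
    · exact E.one_mem
    · exact E.zero_mem
  · have := prod_sub_zeta Cx.hp.pos Cx.hζ c (d * α)
    rw [mul_pow, hα] at this
    rw [mul_comm a, ← this]
    apply prod_congr rfl
    intro j _
    simp only [eval_sub, eval_C, eval_mul, eval_X]
    ring

theorem rel_one_sub (Cx : Ctx p F K ζ) : rel p E ζ a (1 - a) := by
  have := rel_steinberg (E := E) (a := a) Cx E.one_mem E.one_mem
  simpa using this

theorem rel_neg_self (Cx : Ctx p F K ζ) : rel p E ζ a (-a) := by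
  have := rel_steinberg (E := E) (a := a) Cx E.zero_mem E.one_mem
  simpa [zero_pow Cx.hp.ne_zero] using this

theorem rel_self (Cx : Ctx p F K ζ) (hneg : (-1 : K) ∈ TT p E) : rel p E ζ a a := by
  have := rel_mul (rel_neg_self (E := E) (a := a) Cx) (rel_TT Cx hneg) Cx.hp Cx.hζ
  rwa [mul_neg_one, neg_neg] at this

theorem rel_npow (Cx : Ctx p F K ζ) (h : rel p E ζ a b) (n : ℕ) : rel p E ζ a (b ^ n) := by
  induction n with
  | zero =>
    rw [pow_zero]
    exact rel_TT Cx TT_isMG.one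
  | succ n ih => rw [pow_succ]; exact rel_mul ih h Cx.hp Cx.hζ

theorem rel_inv (Cx : Ctx p F K ζ) (hb : b ∈ E) (hb0 : b ≠ 0) (h : rel p E ζ a b) :
    rel p E ζ a b⁻¹ := by
  have h1 := rel_mul (rel_npow Cx h (p - 1)) (rel_pow (a := a) Cx (E.inv_mem hb)) Cx.hp Cx.hζ
  have e : b ^ (p - 1) * b⁻¹ ^ p = b⁻¹ := by
    obtain ⟨q, hq⟩ : ∃ q, p = q + 1 := ⟨p - 1, (Nat.sub_add_cancel Cx.hp.one_le).symm⟩
    rw [hq, Nat.add_sub_cancel, pow_succ, inv_pow]
    field_simp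
  rwa [e] at h1

theorem rel_div (Cx : Ctx p F K ζ) (hc : c ∈ E) (hc0 : c ≠ 0) (h : rel p E ζ a b)
    (h' : rel p E ζ a c) : rel p E ζ a (b / c) := by
  rw [div_eq_mul_inv]
  exact rel_mul h (rel_inv Cx hc hc0 h') Cx.hp Cx.hζ

theorem rel_mul_TT (Cx : Ctx p F K ζ) (hc : c ∈ TT p E) :
    rel p E ζ a (b * c) ↔ rel p E ζ a b := by
  constructor
  · intro h
    have := rel_div Cx (TT_mem hc) hc.1 h (rel_TT Cx hc)
    rwa [mul_div_assoc, div_self hc.1, mul_one] at this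
  · intro h; exact rel_mul h (rel_TT Cx hc) Cx.hp Cx.hζ

theorem rel_mono {E' : IntermediateField F K} (h : E ≤ E') (hr : rel p E ζ a b) :
    rel p E' ζ a b := by
  obtain ⟨α, hα, g, hg, rfl⟩ := hr
  exact ⟨α, hα, g, fun n => h (hg n), rfl⟩

/-- everything is a norm from a split algebra. -/
theorem rel_split (Cx : Ctx p F K ζ) (ha : a ∈ TT p E) (hb : b ∈ E) :
    rel p E ζ a b := by
  obtain ⟨ha0, c, hc, rfl⟩ := ha
  have hp := Cx.hp
  have hζ := Cx.hζ
  have hc0 : c ≠ 0 := by rintro rfl; exact ha0 (zero_pow hp.ne_zero)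
  have hpK : (p : K) ≠ 0 := by
    have : NeZero p := ⟨hp.ne_zero⟩
    exact (hζ.neZero').out
  set l : K[X] := C (p : K)⁻¹ * ∑ i ∈ range p, (C c⁻¹ * X) ^ i with hl
  have hlE : ∀ n, l.coeff n ∈ E := by
    rw [hl]
    apply coeff_mul_mem (coeff_C_mem (E.inv_mem (natCast_mem E p)))
    intro n
    rw [finsetSum_coeff]
    apply E.sum_mem
    intro i _
    rw [mul_pow, ← C_pow, coeff_C_mul_X_pow]
    split_ifs
    · exact pow_mem (E.inv_mem hc) _
    · exact E.zero_mem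
  have hl0 : l.eval c = 1 := by
    rw [hl, eval_mul, eval_C, eval_finsetSum]
    simp [hc0, hpK]
  have hlj : ∀ j, j ≠ 0 → j < p → l.eval (ζ ^ j * c) = 0 := by
    intro j hj hjp
    have hw : ζ ^ j ≠ 1 := hζ.pow_ne_one_of_pos_of_lt hj hjp
    have h1 := mul_geom_sum (ζ ^ j) p
    rw [← pow_mul, mul_comm j p, pow_mul, hζ.pow_eq_one, one_pow, sub_self] at h1
    have h2 := (mul_eq_zero.mp h1).resolve_left (sub_ne_zero.mpr hw)
    rw [hl, eval_mul, eval_finsetSum]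
    have e : ∀ i ∈ range p, eval (ζ ^ j * c) ((C c⁻¹ * X) ^ i) = (ζ ^ j) ^ i := by
      intro i _
      simp only [eval_pow, eval_mul, eval_C, eval_X]
      congr 1; field_simp
    rw [sum_congr rfl e, h2, mul_zero]
  refine ⟨c, rfl, 1 + C (b - 1) * l, ?_, ?_⟩
  · intro n
    rw [coeff_add]
    apply E.add_mem
    · have := coeff_C_mem (E := E) E.one_mem n
      rwa [C_1] at this
    · exact coeff_mul_mem (coeff_C_mem (E.sub_mem hb E.one_mem)) hlE n
  · rw [prod_eq_single 0]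
    · rw [pow_zero, one_mul, eval_add, eval_one, eval_mul, eval_C, hl0]; ring
    · intro j hj hj0
      rw [eval_add, eval_one, eval_mul, hlj j hj0 (mem_range.mp hj)]; ring
    · intro h; exact absurd (mem_range.mpr hp.pos) h

end basic

end Pool.Agent.Helper25.ETC
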