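import Pool.Agent.Helper25.ETCMain

/-!
# Infinite Galois subextensions with finitely many `p`-power classes
-/

set_option autoImplicit false

namespace Pool.Agent.Helper25.ETC

open Polynomial Finset

variable {F K : Type*} [Field F] [Field K] [Algebra F K] {p : ℕ} {ζ : K}

/-- the standing situation: `M/E₁` Galois, and every class of `M*` modulo `p`-th powers is
represented in `E₁`. -/
structure Sit (p : ℕ) (ζ : K) (E1 M : IntermediateField F K) : Prop where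
  ζE : ζ ∈ E1
  neg : (-1 : K) ∈ TT p E1
  le : E1 ≤ M
  stab : ∀ σ ∈ E1.fixingSubgroup, ∀ x ∈ M, σ x ∈ M
  rep : ∀ x ∈ M, x ≠ 0 → ∃ s ∈ E1, s ≠ 0 ∧ x / s ∈ TT p M

section

variable {E1 M E : IntermediateField F K}

theorem finite_step [FiniteDimensional F E] {L : IntermediateField F K} {α : K}
    (hint : IsIntegral F α) (St : Step p E L α) : FiniteDimensional F L := by
  have : FiniteDimensional F (IntermediateField.adjoin F {α}) :=
    IntermediateField.adjoin.finiteDimensional hint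
  have : FiniteDimensional F ↥(E ⊔ IntermediateField.adjoin F {α}) :=
    IntermediateField.finiteDimensional_sup _ _
  have hle : L ≤ E ⊔ IntermediateField.adjoin F {α} := by
    intro x hx
    obtain ⟨e, he, rfl⟩ := St.span x hx
    refine IntermediateField.sum_mem _ (fun j _ => IntermediateField.mul_mem _
      ((le_sup_left : E ≤ _) (he j)) (pow_mem ((le_sup_right :
        IntermediateField.adjoin F {α} ≤ _)
        (IntermediateField.mem_adjoin_simple_self F α)) j))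
  exact Module.Finite.of_injective
    (IntermediateField.inclusion hle).toLinearMap (IntermediateField.inclusion_injective hle)

/-- (F1) norm groups of `b ∈ B ∖ T` lie in `B`. -/
theorem Sit.F1 (Cx : Ctx p F K ζ) (Si : Sit p ζ E1 M) (h1 : E1 ≤ E) (_h2 : E ≤ M) {b : K}
    (hb : b ∈ E) (hbM : b ∈ TT p M) (hbE : b ∉ TT p E) {x : K} (hx : x ∈ ZZ p E ζ b) :
    x ∈ TT p M := by
  have := Cx.pc.gal
  have hp := Cx.hp
  have hζE := h1 Si.ζE
  obtain ⟨hb0, β, hβM, rfl⟩ := hbM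
  have hβ0 : β ≠ 0 := by rintro rfl; exact hb0 (zero_pow hp.ne_zero)
  have hβE : β ∉ E := fun h => hbE (pow_mem_TT h hβ0)
  obtain ⟨L, St, hmin⟩ := exists_step hp.ne_zero E hβE hb
  have hLM : L ≤ M := hmin M _h2 hβM
  obtain ⟨σ, S⟩ := exists_stepAut (p := p) hp Cx.hζ hζE St.notMem St.pow_mem
  obtain ⟨w, hw, hwN⟩ := nm_of_rel Cx hζE St S hx.2.2
  have hw0 : w ≠ 0 := by
    rintro rfl
    apply hx.2.1
    rw [← hwN]
    unfold nm
    exact prod_eq_zero (mem_range.mpr hp.pos) (by simp)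
  obtain ⟨s, hs, hs0, hws⟩ := Si.rep w (hLM hw) hw0
  obtain ⟨-, m, hm, hmp⟩ := hws
  have hσ : ∀ n : ℕ, ∀ y ∈ M, (σ ^ n) y ∈ M := by
    intro n y hy
    apply Si.stab (σ ^ n) _ y hy
    rw [IntermediateField.mem_fixingSubgroup_iff]
    intro z hz
    exact pow_fix S.fix n z (h1 hz)
  refine ⟨hx.2.1, s * nm p σ m, M.mul_mem (Si.le hs) (M.prod_mem (fun j _ => hσ j m hm)), ?_⟩
  rw [mul_pow, ← nm_pow, hmp, div_eq_mul_inv, nm_mul, nm_inv, hwN,
    nm_of_mem S.fix (h1 hs)]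
  have : s ^ p ≠ 0 := pow_ne_zero _ hs0
  field_simp

/-- (F2) -/
theorem Sit.F2 (Cx : Ctx p F K ζ) (Si : Sit p ζ E1 M) (h1 : E1 ≤ E) (h2 : E ≤ M) {x y : K}
    (hx : x ∈ E) (hx0 : x ≠ 0) (hxM : x ∉ TT p M) (hy : y ∈ ZZ p E ζ x) (hyM : y ∈ TT p M) :
    y ∈ TT p E := by
  by_contra hyE
  exact hxM (Si.F1 Cx h1 h2 hy.1 hyM hyE
    (ZZ_symm Cx (h1 Si.ζE) (TT_mono h1 Si.neg) hx hx0 hy))

/-- uniqueness of the lift. -/
theorem Sit.uniq (Cx : Ctx p F K ζ) (Si : Sit p ζ E1 M) (h1 : E1 ≤ E) (h2 : E ≤ M)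
    {x b y c : K} (hx : x ∈ E) (hx0 : x ≠ 0) (hxM : x ∉ TT p M) (hb : b ∈ E)
    (hbM : b ∈ TT p M) (hc : c ∈ E) (hcM : c ∈ TT p M) (hy : y ∈ ZZ p E ζ x)
    (hyc : y * c ∈ ZZ p E ζ (x * b)) (hyM : ∀ i : ℤ, ¬ cg (TT p M) y (x ^ i)) :
    b ∈ TT p E := by
  have := Cx.pc.gal
  have hp := Cx.hp
  have hTM : IsMG (TT p M) := TT_isMG
  have hTE : IsMG (TT p E) := TT_isMG
  by_contra hbE
  have hζE := h1 Si.ζE
  have hnegE : (-1 : K) ∈ TT p E := TT_mono h1 Si.neg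
  have hb0 := hbM.1
  have hbM' := hbM
  obtain ⟨-, β, hβM, rfl⟩ := hbM'
  have hβ0 : β ≠ 0 := by rintro rfl; exact hb0 (zero_pow hp.ne_zero)
  have hβE : β ∉ E := fun h => hbE (pow_mem_TT h hβ0)
  obtain ⟨L, St, hmin⟩ := exists_step hp.ne_zero E hβE hb
  have hLM : L ≤ M := hmin M h2 hβM
  have h1L : E1 ≤ L := h1.trans St.le
  have hζL := h1L Si.ζE
  have hnegL : (-1 : K) ∈ TT p L := TT_mono h1L Si.neg
  have hxb0 : x * β ^ p ≠ 0 := mul_ne_zero hx0 hb0
  have hxL := St.le hx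
  -- `c ∈ ZZ_L x`
  have a1 : y * c ∈ ZZ p L ζ (x * β ^ p) := ZZ_mono St.le hyc
  have a2 : x * β ^ p ∈ ZZ p L ζ (y * c) :=
    ZZ_symm Cx hζL hnegL (L.mul_mem hxL (St.le hb)) hxb0 a1
  have cgx : cg (TT p L) (x * β ^ p) x := by
    unfold cg
    rw [mul_comm, mul_div_assoc, div_self hx0, mul_one]
    exact pow_mem_TT St.mem hβ0
  have a3 : x ∈ ZZ p L ζ (y * c) := (ZZ_cg Cx cgx).mp a2
  have a4 : y * c ∈ ZZ p L ζ x := ZZ_symm Cx hζL hnegL a1.1 a1.2.1 a3
  have a5 : c ∈ ZZ p L ζ x :=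
    ((ZZ_isMG (E := L) Cx x).mul_left (ZZ_mono St.le hy)).mp a4
  have a6 : c ∈ TT p L := Si.F2 Cx h1L hLM hxL hx0 hxM a5 hcM
  obtain ⟨hc0, z, hz, hzc⟩ := a6
  obtain ⟨i, -, d, hd, hdd⟩ := kummer_mem Cx hζE St hz (by rw [hzc]; exact hc)
  have hd0 : d ≠ 0 := by
    rintro rfl
    apply hc0
    rw [← hzc, hdd, mul_zero, zero_pow hp.ne_zero]
  have hci : cg (TT p E) (y * c) (y * (β ^ p) ^ i) := by
    have hy0 := hy.2.1
    unfold cg
    have e : y * c / (y * (β ^ p) ^ i) = d ^ p := by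
      rw [← hzc, hdd]
      have : (β ^ p) ^ i ≠ 0 := pow_ne_zero _ hb0
      field_simp
      ring
    rw [e]; exact pow_mem_TT hd hd0
  -- `g = y / x^i`
  set g : K := y / x ^ (i : ℤ) with hg
  have hgE : g ∈ E := E.div_mem hy.1 (zpow_mem hx _)
  have hg0 : g ≠ 0 := div_ne_zero hy.2.1 (zpow_ne_zero _ hx0)
  have b1 : g ∈ ZZ p E ζ x :=
    (ZZ_isMG (E := E) Cx x).div hy ((ZZ_isMG (E := E) Cx x).zpow
      (self_mem_ZZ Cx hnegE hx hx0) _)
  have b2 : g ∈ ZZ p E ζ (x * β ^ p) := by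
    have hMG := ZZ_isMG (E := E) Cx (x * β ^ p)
    have c1 : y * (β ^ p) ^ i ∈ ZZ p E ζ (x * β ^ p) := (ZZ_cg Cx hci).mp hyc
    have c2 : (x * β ^ p) ^ (i : ℤ) ∈ ZZ p E ζ (x * β ^ p) :=
      hMG.zpow (self_mem_ZZ Cx hnegE (E.mul_mem hx hb) hxb0) _
    have c3 := hMG.div c1 c2
    have e : y * (β ^ p) ^ i / (x * β ^ p) ^ (i : ℤ) = g := by
      rw [hg, zpow_natCast, zpow_natCast, mul_pow]
      have : (β ^ p) ^ i ≠ 0 := pow_ne_zero _ hb0
      have : x ^ i ≠ 0 := pow_ne_zero _ hx0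
      field_simp
    rwa [e] at c3
  have b3 : β ^ p ∈ ZZ p E ζ g := by
    have d1 : x ∈ ZZ p E ζ g := ZZ_symm Cx hζE hnegE hx hx0 b1
    have d2 : x * β ^ p ∈ ZZ p E ζ g := ZZ_symm Cx hζE hnegE (E.mul_mem hx hb) hxb0 b2
    exact ((ZZ_isMG (E := E) Cx g).mul_left d1).mp d2
  have b4 : g ∈ ZZ p E ζ (β ^ p) := ZZ_symm Cx hζE hnegE hgE hg0 b3
  exact hyM i (Si.F1 Cx h1 h2 hb hbM hbE b4)

/-- a nontrivial class of `M` if `M ≠ K`. -/
theorem exists_notMem_TT (Cx : Ctx p F K ζ) (Si : Sit p ζ E1 M) [FiniteDimensional F E1]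
    (hM : M ≠ ⊤) : ∃ x ∈ E1, x ≠ 0 ∧ x ∉ TT p M := by
  have := Cx.pc.gal
  have hp := Cx.hp
  have hTM : IsMG (TT p M) := TT_isMG
  obtain ⟨k, hk⟩ : ∃ k : K, k ∉ M := by
    by_contra hcon
    push Not at hcon
    exact hM (eq_top_iff.mpr (fun x _ => hcon x))
  have hint : IsIntegral F k := Algebra.IsIntegral.isIntegral k
  have : FiniteDimensional F (IntermediateField.adjoin F {k}) :=
    IntermediateField.adjoin.finiteDimensional hint
  have : FiniteDimensional F ↥(E1 ⊔ IntermediateField.adjoin F {k}) :=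
    IntermediateField.finiteDimensional_sup _ _
  set N := E1 ⊔ IntermediateField.adjoin F {k} with hN
  have hkN : k ∈ N := (le_sup_right : IntermediateField.adjoin F {k} ≤ _)
    (IntermediateField.mem_adjoin_simple_self F k)
  have hne : M ⊓ N ≠ N := by
    intro h
    apply hk
    have : k ∈ M ⊓ N := by rw [h]; exact hkN
    exact this.1
  obtain ⟨β, hβN, hβ, hβp⟩ := exists_root_between hp Cx.hζ Cx.pc (E := M ⊓ N) (E' := N)
    ⟨Si.le Si.ζE, (le_sup_left : E1 ≤ N) Si.ζE⟩ inf_le_right hne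
  have hβM : β ∉ M := fun h => hβ ⟨h, hβN⟩
  have hβ0 : β ≠ 0 := by rintro rfl; exact hβM M.zero_mem
  have h1 : β ^ p ∉ TT p M := by
    rintro ⟨-, y, hy, hyp⟩
    obtain ⟨j, -, hj⟩ := exists_zeta_pow hp.pos Cx.hζ hyp.symm
    apply hβM
    rw [hj]
    exact M.mul_mem (pow_mem (Si.le Si.ζE) j) hy
  obtain ⟨s, hs, hs0, hsT⟩ := Si.rep (β ^ p) hβp.1 (pow_ne_zero _ hβ0)
  refine ⟨s, hs, hs0, fun hsM => h1 ?_⟩
  have : cg (TT p M) (β ^ p) s := hsT
  rwa [this.mem_iff hTM]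

/-- a class of `E` that dies in `M`. -/
theorem exists_mem_B (Cx : Ctx p F K ζ) (Si : Sit p ζ E1 M) (h1 : E1 ≤ E) (h2 : E ≤ M)
    [FiniteDimensional F E] (hinf : ¬ FiniteDimensional F M) :
    ∃ b ∈ E, b ∈ TT p M ∧ b ∉ TT p E := by
  have := Cx.pc.gal
  have hp := Cx.hp
  obtain ⟨k, hkM, hk⟩ : ∃ k ∈ M, k ∉ E := by
    by_contra hcon
    push Not at hcon
    apply hinf
    have : M = E := le_antisymm hcon h2
    rw [this]; infer_instance
  have hint : IsIntegral F k := Algebra.IsIntegral.isIntegral k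
  have : FiniteDimensional F (IntermediateField.adjoin F {k}) :=
    IntermediateField.adjoin.finiteDimensional hint
  have : FiniteDimensional F ↥(E ⊔ IntermediateField.adjoin F {k}) :=
    IntermediateField.finiteDimensional_sup _ _
  have hle : E ⊔ IntermediateField.adjoin F {k} ≤ M := by
    rw [sup_le_iff]
    exact ⟨h2, by rw [IntermediateField.adjoin_simple_le_iff]; exact hkM⟩
  obtain ⟨β, hβN, hβ, hβp⟩ := exists_root_between hp Cx.hζ Cx.pc (E := E)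
    (E' := E ⊔ IntermediateField.adjoin F {k}) (h1 Si.ζE) le_sup_left (by
      intro h
      apply hk
      rw [h]
      exact (le_sup_right : IntermediateField.adjoin F {k} ≤ _)
        (IntermediateField.mem_adjoin_simple_self F k))
  have hβ0 : β ≠ 0 := by rintro rfl; exact hβ E.zero_mem
  refine ⟨β ^ p, hβp, pow_mem_TT (hle hβN) hβ0, ?_⟩
  rintro ⟨-, y, hy, hyp⟩
  obtain ⟨j, -, hj⟩ := exists_zeta_pow hp.pos Cx.hζ hyp.symm
  apply hβ
  rw [hj]
  exact E.mul_mem (pow_mem (h1 Si.ζE) j) hy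

/-- independent families of classes of `E` dying in `M`. -/
def Fam (p : ℕ) (E M : IntermediateField F K) (n : ℕ) : Prop :=
  ∃ b : Fin n → K, (∀ i, b i ∈ E ∧ b i ∈ TT p M) ∧
    ∀ e : Fin n → ℤ, ∏ i, b i ^ e i ∈ TT p E → ∀ i, (p : ℤ) ∣ e i

theorem fam_one (Cx : Ctx p F K ζ) {b : K} (hb : b ∈ E) (hbM : b ∈ TT p M)
    (hbE : b ∉ TT p E) : Fam p E M 1 := by
  refine ⟨fun _ => b, fun _ => ⟨hb, hbM⟩, fun e he i => ?_⟩
  rw [Fin.prod_univ_one] at he
  have hi : i = 0 := Subsingleton.elim _ _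
  rw [hi]
  by_contra hcon
  exact hbE (TT_isMG.root Cx.hp hbM.1 (pow_mem_TT hb hbM.1) hcon he)

/-- growth step. -/
theorem fam_succ (Cx : Ctx p F K ζ) (Si : Sit p ζ E1 M) (h1 : E1 ≤ E) (h2 : E ≤ M)
    [FiniteDimensional F E] (hrig : ∀ b ∈ E, ¬ Rig p E ζ b) {n : ℕ} (hF : Fam p E M (n + 1)) :
    ∃ L : IntermediateField F K, E1 ≤ L ∧ L ≤ M ∧ FiniteDimensional F L ∧
      Fam p L M (n + 2) := by
  have := Cx.pc.gal
  have hp := Cx.hp
  have hTM : IsMG (TT p M) := TT_isMG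
  have hTE : IsMG (TT p E) := TT_isMG
  have hζE := h1 Si.ζE
  have hnegE : (-1 : K) ∈ TT p E := TT_mono h1 Si.neg
  obtain ⟨b, hb, hind⟩ := hF
  have hbE0 : b 0 ∉ TT p E := by
    intro h
    have := hind (fun i => if i = 0 then 1 else 0) (by
      rw [Fin.prod_univ_succ]
      simp only [if_true, zpow_one, Fin.succ_ne_zero, if_false, zpow_zero, prod_const_one,
        mul_one]
      exact h) 0
    simp only [if_true] at this
    exact hp.one_lt.ne' (by exact_mod_cast Int.eq_one_of_dvd_one (by positivity) this)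
  have hb00 := (hb 0).2.1
  -- nonrigid
  have hnr : ∃ c ∈ ZZ p E ζ (b 0), ∀ i : ℤ, ¬ cg (TT p E) c (b 0 ^ i) := by
    by_contra hcon
    push Not at hcon
    exact hrig (b 0) (hb 0).1 ⟨(hb 0).1, hb00, hbE0, hcon⟩
  obtain ⟨c, hc, hci⟩ := hnr
  have hindc : Ind p (TT p E) (b 0) c := by
    refine ind_of hTE hp (pow_mem_TT (hb 0).1 hb00) (pow_mem_TT hc.1 hc.2.1) hb00 hc.2.1
      hbE0 (fun j hj => hci (-j) ?_)
    unfold cg
    rwa [zpow_neg, div_inv_eq_mul]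
  obtain ⟨β, hβM, hβb⟩ := (hb 0).2.2
  have hβ0 : β ≠ 0 := by
    rintro rfl; apply hb00; rw [← hβb, zero_pow hp.ne_zero]
  have hβE : β ∉ E := by
    intro h; apply hbE0; rw [← hβb]; exact pow_mem_TT h hβ0
  have hβpE : β ^ p ∈ E := by rw [hβb]; exact (hb 0).1
  obtain ⟨L, St, hmin⟩ := exists_step hp.ne_zero E hβE hβpE
  have hLM : L ≤ M := hmin M h2 hβM
  have hTL : IsMG (TT p L) := TT_isMG
  obtain ⟨σ, S⟩ := exists_stepAut (p := p) hp Cx.hζ hζE St.notMem St.pow_mem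
  have hcr : rel p E ζ (β ^ p) c := by rw [hβb]; exact hc.2.2
  obtain ⟨w, hw, hwN⟩ := nm_of_rel Cx hζE St S hcr
  have hw0 : w ≠ 0 := by
    rintro rfl
    apply hc.2.1
    rw [← hwN]
    unfold nm
    exact prod_eq_zero (mem_range.mpr hp.pos) (by simp)
  obtain ⟨s, hs, hs0, hws⟩ := Si.rep w (hLM hw) hw0
  obtain ⟨t, ht, ht0, hβt⟩ := Si.rep β hβM hβ0
  have hNw : cg (TT p E) (nm p σ (w / s)) c := by
    rw [div_eq_mul_inv, nm_mul, nm_inv, hwN, nm_of_mem S.fix (h1 hs)]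
    unfold cg
    have hc0 := hc.2.1
    have : s ^ p ≠ 0 := pow_ne_zero _ hs0
    have e : c * (s ^ p)⁻¹ / c = (s ^ p)⁻¹ := by field_simp
    rw [e]; exact hTE.inv (pow_mem_TT (h1 hs) hs0)
  have hNβ : cg (TT p E) (nm p σ (β / t)) (b 0) := by
    rw [div_eq_mul_inv, nm_mul, nm_inv, nm_of_mem S.fix (h1 ht)]
    have h3 := nm_alpha Cx hζE hnegE S hβ0
    rw [hβb] at h3
    have h4 := cg.mul hTE h3 (show cg (TT p E) ((t ^ p)⁻¹) 1 by
      unfold cg; rw [div_one]; exact hTE.inv (pow_mem_TT (h1 ht) ht0))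
    rwa [mul_one] at h4
  have hws0 : w / s ≠ 0 := div_ne_zero hw0 hs0
  have hβt0 : β / t ≠ 0 := div_ne_zero hβ0 ht0
  refine ⟨L, h1.trans St.le, hLM, finite_step (Algebra.IsIntegral.isIntegral β) St, ?_⟩
  refine ⟨Fin.cons (w / s) (Fin.cons (β / t) (fun i : Fin n => b i.succ)), ?_, ?_⟩
  · intro i
    refine Fin.cases ?_ (fun i => ?_) i
    · exact ⟨L.div_mem hw (St.le (h1 hs)), hws⟩
    · refine Fin.cases ?_ (fun i => ?_) i
      · exact ⟨L.div_mem St.mem (St.le (h1 ht)), hβt⟩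
      · exact ⟨St.le (hb i.succ).1, (hb i.succ).2⟩
  · intro e he
    rw [Fin.prod_univ_succ, Fin.prod_univ_succ] at he
    simp only [Fin.cons_zero, Fin.cons_succ] at he
    set PP : K := ∏ i : Fin n, b i.succ ^ e i.succ.succ with hPP
    have hPPE : PP ∈ E := E.prod_mem (fun i _ => zpow_mem (hb i.succ).1 _)
    have hPP0 : PP ≠ 0 := prod_ne_zero_iff.mpr (fun i _ => zpow_ne_zero _ (hb i.succ).2.1)
    have h3 := nm_TT Cx hζE St S he
    rw [nm_mul, nm_mul, nm_zpow, nm_zpow, nm_of_mem S.fix hPPE, ← mul_assoc,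
      hTE.mul_right (pow_mem_TT hPPE hPP0)] at h3
    have h4 : cg (TT p E) (nm p σ (w / s) ^ e 0 * nm p σ (β / t) ^ e (Fin.succ 0))
        (c ^ e 0 * b 0 ^ e (Fin.succ 0)) :=
      cg.mul hTE (cg.zpow hTE hNw _) (cg.zpow hTE hNβ _)
    rw [h4.mem_iff hTE, mul_comm] at h3
    obtain ⟨hd1, hd0⟩ := hindc.2.2 _ _ h3
    have hwsL : w / s ∈ L := L.div_mem hw (St.le (h1 hs))
    have hβtL : β / t ∈ L := L.div_mem St.mem (St.le (h1 ht))
    rw [hTL.mul_left (TT_zpow hwsL hws0 hd0), hTL.mul_left (TT_zpow hβtL hβt0 hd1)] at he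
    obtain ⟨-, z, hz, hzPP⟩ := he
    obtain ⟨k, -, d, hd, hdd⟩ := kummer_mem Cx hζE St hz (by rw [hzPP]; exact hPPE)
    have hd0' : d ≠ 0 := by
      rintro rfl
      apply hPP0
      rw [← hzPP, hdd, mul_zero, zero_pow hp.ne_zero]
    have h5 := hind (Fin.cons (-(k : ℤ)) (fun i => e i.succ.succ)) (by
      rw [Fin.prod_univ_succ]
      simp only [Fin.cons_zero, Fin.cons_succ]
      rw [← hPP, ← hzPP, hdd, ← hβb]
      have e1 : (β ^ p) ^ (-(k : ℤ)) * (β ^ k * d) ^ p = d ^ p := by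
        rw [zpow_neg, zpow_natCast]
        have : (β ^ p) ^ k ≠ 0 := pow_ne_zero _ (pow_ne_zero _ hβ0)
        field_simp
        ring
      rw [e1]; exact pow_mem_TT hd hd0')
    intro i
    refine Fin.cases hd0 (fun i => Fin.cases hd1 (fun i => ?_) i) i
    have := h5 i.succ
    simpa using this

/-- counting bound. -/
theorem fam_bound (Cx : Ctx p F K ζ) (Si : Sit p ζ E1 M) (h1 : E1 ≤ E) (h2 : E ≤ M)
    (hrig : ∀ b ∈ E, ¬ Rig p E ζ b) {x : K} (hx : x ∈ E) (hx0 : x ≠ 0) (hxM : x ∉ TT p M)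
    (S : Finset K) (hS : ∀ y ∈ M, y ≠ 0 → ∃ s ∈ S, y / s ∈ TT p M) {n : ℕ}
    (hF : Fam p E M n) : p ^ n ≤ S.card := by
  classical
  have hp := Cx.hp
  have hTM : IsMG (TT p M) := TT_isMG
  have hTE : IsMG (TT p E) := TT_isMG
  have hζE := h1 Si.ζE
  have hnegE : (-1 : K) ∈ TT p E := TT_mono h1 Si.neg
  obtain ⟨b, hb, hind⟩ := hF
  let B : (Fin n → Fin p) → K := fun e => ∏ i, b i ^ ((e i : ℕ) : ℤ)
  have hBE : ∀ e, B e ∈ E := fun e => E.prod_mem (fun i _ => zpow_mem (hb i).1 _)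
  have hBM : ∀ e, B e ∈ TT p M := by
    intro e
    have : ∀ s : Finset (Fin n), ∏ i ∈ s, b i ^ ((e i : ℕ) : ℤ) ∈ TT p M := by
      intro s
      induction s using Finset.induction_on with
      | empty => rw [prod_empty]; exact hTM.one
      | insert a s ha ih => rw [prod_insert ha]; exact hTM.mul (hTM.zpow (hb a).2 _) ih
    exact this univ
  have hBinj : ∀ e e', B e / B e' ∈ TT p E → e = e' := by
    intro e e' h
    have h3 : ∏ i, b i ^ (((e i : ℕ) : ℤ) - ((e' i : ℕ) : ℤ)) ∈ TT p E := by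
      have : ∏ i, b i ^ (((e i : ℕ) : ℤ) - ((e' i : ℕ) : ℤ)) = B e / B e' := by
        rw [← prod_div_distrib]
        apply prod_congr rfl
        intro i _
        rw [zpow_sub₀ (hb i).2.1]
      rw [this]; exact h
    have h4 := hind _ h3
    funext i
    apply Fin.ext
    have h5 := h4 i
    have h6 := (e i).2
    have h7 := (e' i).2
    by_contra hne
    obtain ⟨m, hm⟩ := h5
    rcases lt_trichotomy m 0 with h | h | h
    · nlinarith [hm, (by exact_mod_cast h6 : ((e i : ℕ) : ℤ) < p),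
        (by exact_mod_cast h7 : ((e' i : ℕ) : ℤ) < p)]
    · rw [h, mul_zero] at hm; omega
    · nlinarith [hm, (by exact_mod_cast h6 : ((e i : ℕ) : ℤ) < p),
        (by exact_mod_cast h7 : ((e' i : ℕ) : ℤ) < p)]
  -- choose nonrigid partners
  have hch : ∀ e, ∃ y ∈ ZZ p E ζ (x * B e), ∀ i : ℤ, ¬ cg (TT p E) y ((x * B e) ^ i) := by
    intro e
    by_contra hcon
    push Not at hcon
    have hxB0 : x * B e ≠ 0 := mul_ne_zero hx0 (hBM e).1
    apply hrig (x * B e) (E.mul_mem hx (hBE e))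
    refine ⟨E.mul_mem hx (hBE e), hxB0, ?_, hcon⟩
    intro hc
    have := TT_mono h2 hc
    rw [hTM.mul_right (hBM e)] at this
    exact hxM this
  choose y hy hyi using hch
  have hyM : ∀ e, ∀ i : ℤ, ¬ cg (TT p M) (y e) ((x * B e) ^ i) := by
    intro e i hc
    apply hyi e i
    have hxB0 : x * B e ≠ 0 := mul_ne_zero hx0 (hBM e).1
    have hxBM : x * B e ∉ TT p M := by rwa [hTM.mul_right (hBM e)]
    have hxBE : x * B e ∈ E := E.mul_mem hx (hBE e)
    have hMG := ZZ_isMG (E := E) Cx (x * B e)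
    exact Si.F2 Cx h1 h2 hxBE hxB0 hxBM
      (hMG.div (hy e) (hMG.zpow (self_mem_ZZ Cx hnegE hxBE hxB0) i)) hc
  have hrepS : ∀ e, ∃ s ∈ S, y e / s ∈ TT p M := fun e => hS (y e) (h2 (hy e).1) (hy e).2.1
  choose r hrS hr using hrepS
  have hrinj : Function.Injective r := by
    intro e e' hee
    -- compare `y e` and `y e'`
    have hcc : cg (TT p M) (y e') (y e) := by
      have h3 : cg (TT p M) (y e') (r e') := hr e'
      have h4 : cg (TT p M) (y e) (r e) := hr e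
      rw [← hee] at h3
      exact cg.trans hTM h3 (cg.symm hTM h4)
    have hxB0 : x * B e ≠ 0 := mul_ne_zero hx0 (hBM e).1
    have hxBM : x * B e ∉ TT p M := by rwa [hTM.mul_right (hBM e)]
    have hye0 := (hy e).2.1
    have hBe0 := (hBM e).1
    have key := Si.uniq Cx h1 h2 (x := x * B e) (b := B e' / B e) (y := y e)
      (c := y e' / y e) (E.mul_mem hx (hBE e)) hxB0 hxBM (E.div_mem (hBE e') (hBE e))
      (hTM.div (hBM e') (hBM e)) (E.div_mem (hy e').1 (hy e).1) hcc (hy e) (by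
        have e1 : y e * (y e' / y e) = y e' := by field_simp
        have e2 : x * B e * (B e' / B e) = x * B e' := by field_simp
        rw [e1, e2]; exact hy e') (hyM e)
    exact (hBinj e' e key).symm
  have hcard := Finset.card_le_card_of_injOn (s := (univ : Finset (Fin n → Fin p))) (t := S) r
    (fun e _ => hrS e) hrinj.injOn
  simpa using hcard

/-- **rigid elements exist.** -/
theorem exists_rig (Cx : Ctx p F K ζ) (Si : Sit p ζ E1 M) [FiniteDimensional F E1]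
    (hM : M ≠ ⊤) (hinf : ¬ FiniteDimensional F M) (S : Finset K)
    (hS : ∀ y ∈ M, y ≠ 0 → ∃ s ∈ S, y / s ∈ TT p M) :
    ∃ E : IntermediateField F K, E1 ≤ E ∧ E ≤ M ∧ FiniteDimensional F E ∧
      ∃ a, Rig p E ζ a := by
  have hp := Cx.hp
  by_contra hcon
  have hno : ∀ E : IntermediateField F K, E1 ≤ E → E ≤ M → FiniteDimensional F E →
      ∀ b ∈ E, ¬ Rig p E ζ b := by
    intro E h1 h2 h3 b _ hb
    exact hcon ⟨E, h1, h2, h3, b, hb⟩
  obtain ⟨x, hx, hx0, hxM⟩ := exists_notMem_TT Cx Si hM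
  have hgrow : ∀ n : ℕ, ∃ E : IntermediateField F K, E1 ≤ E ∧ E ≤ M ∧
      FiniteDimensional F E ∧ Fam p E M (n + 1) := by
    intro n
    induction n with
    | zero =>
      obtain ⟨b, hb, hbM, hbE⟩ := exists_mem_B Cx Si le_rfl Si.le hinf
      exact ⟨E1, le_rfl, Si.le, inferInstance, fam_one Cx hb hbM hbE⟩
    | succ n ih =>
      obtain ⟨E, h1, h2, h3, hF⟩ := ih
      obtain ⟨L, h4, h5, h6, h7⟩ := fam_succ Cx Si h1 h2 (hno E h1 h2 h3) hF
      exact ⟨L, h4, h5, h6, h7⟩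
  obtain ⟨E, h1, h2, h3, hF⟩ := hgrow S.card
  have hb := fam_bound Cx Si h1 h2 (hno E h1 h2 h3) (h1 hx) hx0 hxM S hS hF
  have h4 : S.card + 1 < p ^ (S.card + 1) := Nat.lt_pow_self hp.one_lt
  omega

/-- **Theorem**: conclusion for the situation `Sit`. -/
theorem concl_of_sit (Cx : Ctx p F K ζ) (Si : Sit p ζ E1 M) [FiniteDimensional F E1]
    (hM : M ≠ ⊤) (hinf : ¬ FiniteDimensional F M) (S : Finset K)
    (hS : ∀ y ∈ M, y ≠ 0 → ∃ s ∈ S, y / s ∈ TT p M) : Concl F K := by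
  have hp := Cx.hp
  have hTM : IsMG (TT p M) := TT_isMG
  obtain ⟨E, h1, h2, h3, a, R⟩ := exists_rig Cx Si hM hinf S hS
  have hTE : IsMG (TT p E) := TT_isMG
  have hζE := h1 Si.ζE
  have hnegE : (-1 : K) ∈ TT p E := TT_mono h1 Si.neg
  by_cases haM : a ∈ TT p M
  · obtain ⟨x, hx, hx0, hxM⟩ := exists_notMem_TT Cx Si hM
    refine concl_of_rig Cx hζE hnegE R (h1 hx) hx0 (fun j hj => hxM ?_)
    have hj' : cg (TT p M) x (a ^ j) := TT_mono h2 hj
    rw [hj'.mem_iff hTM]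
    exact hTM.zpow haM j
  · obtain ⟨b, hb, hbM, hbE⟩ := exists_mem_B Cx Si h1 h2 hinf
    refine concl_of_rig Cx hζE hnegE R hb hbM.1 (fun j hj => hbE ?_)
    have hj' : cg (TT p M) b (a ^ j) := TT_mono h2 hj
    rw [hj'.mem_iff hTM] at hbM
    have hd : (p : ℤ) ∣ j := by
      by_contra hcon
      exact haM (hTM.root hp R.ne (pow_mem_TT (h2 R.mem) R.ne) hcon hbM)
    rw [hj.mem_iff hTE]
    exact TT_zpow R.mem R.ne hd

end

end Pool.Agent.Helper25.ETC
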