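import Pool.Agent.Helper25.ETCVal

/-!
# The condition `QQ` and canonical valuation rings
-/

set_option autoImplicit false

namespace Pool.Agent.Helper25.ETC

variable {k : Type*} [Field k]

/-- nonzero `p`-th powers. -/
def pw (p : ℕ) (k : Type*) [Field k] : Set k := {x | x ≠ 0 ∧ ∃ y : k, y ^ p = x}

theorem pw_isMG {p : ℕ} : IsMG (pw p k) where
  zero := fun h => h.1 rfl
  one := ⟨one_ne_zero, 1, one_pow p⟩
  mul := by
    rintro x y ⟨hx, a, rfl⟩ ⟨hy, b, rfl⟩
    exact ⟨mul_ne_zero hx hy, a * b, mul_pow a b p⟩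
  inv := by
    rintro x ⟨hx, a, rfl⟩
    exact ⟨inv_ne_zero hx, a⁻¹, inv_pow a p⟩

theorem pow_mem_pw {p : ℕ} {x : k} (hx : x ≠ 0) : x ^ p ∈ pw p k := ⟨pow_ne_zero p hx, x, rfl⟩

/-- elements which are not strongly rigid. -/
def NS (T : Set k) : Set k := {z | z ≠ 0 ∧ z ∉ T ∧ 1 - z ∉ T ∧ (1 - z) * z⁻¹ ∉ T}

section QQ

variable {T H : Set k}

/-- the condition `QQ` is automatic if `x² ∈ H` implies `x ∈ H`. -/
theorem VD.QQ_of_odd (D : VD T H) (hodd : ∀ x : k, x ≠ 0 → x * x ∈ H → x ∈ H) : QQ T H := by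
  intro x hx y hy hxy
  constructor
  · apply D.one_sub_mul' hx hy
    intro h
    apply hx.2.1
    apply hodd x hx.1
    have e : x * x = x * y * (x * y⁻¹) := by have := hy.1; field_simp
    rw [e]; exact D.mH.mul hxy (D.sub h)
  · intro w hw
    by_cases hyw : y * w ∈ H
    · by_cases hxw : x * w ∈ H
      · exfalso
        apply hx.2.1
        apply hodd x hx.1
        have e : x * x = x * y * (x * w) / (y * w) := by
          have := hy.1; have := hw.1; field_simp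
        rw [e]; exact D.mH.div (D.mH.mul hxy hxw) hyw
      · have h1 := D.mul_mem hx hw hxw
        have e : x * y * w = y * (x * w) := by ring
        rw [e]; apply D.mul_mem hy h1
        rw [← e, D.mH.mul_left hxy]; exact hw.2.1
    · have h1 := D.mul_mem hy hw hyw
      rw [mul_assoc]; apply D.mul_mem hx h1
      rw [← mul_assoc, D.mH.mul_left hxy]; exact hw.2.1

theorem VD.inv_of_one_sub (D : VD T H) {x y : k} (hxy0 : x * y ≠ 0)
    (h1 : 1 - x * y ∈ T) (h2 : 1 - (x * y)⁻¹ ∈ T) : x * y ∈ T := by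
  rw [VD.one_sub_inv _ hxy0, D.neg_iff, D.mT.mul_left h1, D.mT.inv_iff] at h2
  exact h2

/-- `QQ` from a unit `b ∈ H ∖ T`. -/
theorem VD.QQ_of_unit (D : VD T H) (sq : ∀ x : k, x ≠ 0 → x * x ∈ T)
    (q1 : ∀ x ∈ AA T H, ∀ y ∈ AA T H, x * y ∈ T → 1 - x * y ∈ T)
    {b : k} (hbH : b ∈ H) (hbT : b ∉ T) (hb : ∀ w ∈ AA T H, b * w ∈ AA T H)
    (hb' : ∀ w ∈ AA T H, b⁻¹ * w ∈ AA T H) : QQ T H := by
  have q1' : ∀ x ∈ AA T H, ∀ y ∈ AA T H, 1 - x * y ∈ T := by
    intro x hx y hy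
    by_cases h : x * y ∈ T
    · exact q1 x hx y hy h
    · apply D.one_sub_mul' hx hy
      intro h2
      apply h
      have e : x * y = x * y⁻¹ * (y * y) := by have := hy.1; field_simp
      rw [e]; exact D.mT.mul h2 (sq y hy.1)
  have four : ∀ x ∈ AA T H, ∀ y ∈ AA T H, ∀ w ∈ AA T H, ∀ w' ∈ AA T H,
      x * y * (w * w') = 1 → x * y ∈ T := by
    intro x hx y hy w hw w' hw' h
    have h0 : x * y ≠ 0 := mul_ne_zero hx.1 hy.1
    have e : w * w' = (x * y)⁻¹ := by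
      rw [eq_comm, inv_eq_iff_eq_inv, eq_comm]; exact (eq_inv_of_mul_eq_one_left h).symm
    apply D.inv_of_one_sub h0 (q1' x hx y hy)
    rw [← e]; exact q1' w hw w' hw'
  intro x hx y hy hxy
  refine ⟨q1' x hx y hy, ?_⟩
  intro w hw
  have hb0 := D.mH.ne_zero hbH
  have hn : x * y * w ∉ H := by rw [D.mH.mul_left hxy]; exact hw.2.1
  rcases D.mem_or_inv (mul_ne_zero (mul_ne_zero hx.1 hy.1) hw.1) hn with h | h
  · exact h
  exfalso
  have hx0 := hx.1
  have hy0 := hy.1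
  have hw0 := hw.1
  have h1 := four x hx y hy w hw _ h (by field_simp)
  have h2 := four (b * x) (hb x hx) y hy w hw _ (hb' _ h) (by field_simp)
  apply hbT
  have e : b = b * x * y / (x * y) := by field_simp
  rw [e]; exact D.mT.div h2 h1

/-- `QQ T T` if there are intermediate elements. -/
theorem VD.QQ_of_between (D : VD T T)
    (q1 : ∀ x ∈ AA T T, ∀ y ∈ AA T T, x * y ∈ T → 1 - x * y ∈ T)
    (hb : ∀ x ∈ AA T T, ∃ b ∈ AA T T, x * b⁻¹ ∉ T ∧ x⁻¹ * b ∉ AA T T) : QQ T T := by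
  intro x hx y hy hxy
  refine ⟨q1 x hx y hy hxy, ?_⟩
  intro w hw
  have hx0 := hx.1
  have hy0 := hy.1
  have hw0 := hw.1
  have hn : x * y * w ∉ T := by rw [D.mT.mul_left hxy]; exact hw.2.1
  rcases D.mem_or_inv (mul_ne_zero (mul_ne_zero hx.1 hy.1) hw.1) hn with h | h
  · exact h
  by_cases hyw : y * w ∈ T
  swap
  · have h1 := D.mul_mem hy hw hyw
    rw [mul_assoc]; apply D.mul_mem hx h1
    rw [← mul_assoc]; exact hn
  exfalso
  obtain ⟨b, hbA, hbT, hbx⟩ := hb x hx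
  have hb0 := hbA.1
  have hb1 : x * b⁻¹ ∈ AA T T := by
    have hz : x⁻¹ * b ∉ T := by
      intro hc; apply hbT
      have := D.mT.inv hc
      rwa [mul_inv, inv_inv] at this
    rcases D.mem_or_inv (mul_ne_zero (inv_ne_zero hx0) hb0) hz with h | h
    · exact absurd h hbx
    · rwa [mul_inv, inv_inv] at h
  have n1 : x * b⁻¹ * y ∉ T := by
    have e : x * b⁻¹ * y = x * y * b⁻¹ := by ring
    rw [e, D.mT.mul_left hxy, D.mT.inv_iff]; exact hbA.2.1
  have s1 := D.mul_mem hb1 hy n1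
  have n2 : x * b⁻¹ * y * w ∉ T := by
    have e : x * b⁻¹ * y * w = x * b⁻¹ * (y * w) := by ring
    rw [e, D.mT.mul_right hyw]; exact hbT
  have s2 := D.mul_mem s1 hw n2
  have e3 : x * b⁻¹ * y * w * (x * y * w)⁻¹ = b⁻¹ := by field_simp
  have n3 : x * b⁻¹ * y * w * (x * y * w)⁻¹ ∉ T := by
    rw [e3, D.mT.inv_iff]; exact hbA.2.1
  have s3 := D.mul_mem s2 h n3
  rw [e3] at s3
  exact D.inv_notMem_AA hbA s3

/-- if `b ∈ H ∩ NS` then `1 - b ∈ H`. -/
theorem VD.one_sub_mem_H (D : VD T H) {b : k} (hbH : b ∈ H) (hbT : b ∉ T) : 1 - b ∈ H := by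
  by_contra h
  have h0 : 1 - b ≠ 0 := by
    intro e
    apply hbT
    have : b = 1 := by linear_combination -e
    rw [this]; exact D.mT.one
  rcases D.str _ h0 h with h1 | h1
  · apply hbT; rwa [sub_sub_cancel] at h1
  · rw [sub_sub_cancel] at h1
    have := D.sub h1
    rw [D.mH.mul_left hbH, D.mH.inv_iff] at this
    exact h this

theorem VD.NS_smul (D : VD T H) {b : k} (hbH : b ∈ H) (hb : b ∈ NS T) {w : k}
    (hw : w ∈ AA T H) : b * w ∈ AA T H := by
  obtain ⟨hb0, hbT, hb1, hb2⟩ := hb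
  have hbw : b * w ∉ H := by rw [D.mH.mul_left hbH]; exact hw.2.1
  have h1b := D.one_sub_mem_H hbH hbT
  have h1b0 := D.mH.ne_zero h1b
  have n1 := D.mT.ne_zero hw.2.2
  have hw0 := hw.1
  refine ⟨mul_ne_zero hb0 hw0, hbw, ?_⟩
  rcases D.str _ (mul_ne_zero hb0 hw0) hbw with h | h
  · exact h
  set g : k := -(w * ((1 - b) / (1 - w))) with hg
  have hgH : g ∉ H := by
    rw [hg, D.neg_iff_H, D.mH.mul_right (D.mH.div h1b (D.sub hw.2.2))]; exact hw.2.1
  have hg0 : g ≠ 0 := by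
    rw [hg]; exact neg_ne_zero.mpr (mul_ne_zero hw0 (div_ne_zero h1b0 n1))
  have e : 1 - b * w = (1 - w) * (1 - g) := by rw [hg]; field_simp; ring
  rcases D.str g hg0 hgH with h' | h'
  · rw [e]; exact D.mT.mul hw.2.2 h'
  · exfalso
    apply hb2
    have h3 : 1 - b * w ≠ 0 := by
      intro e; rw [e, zero_mul] at h; exact D.mT.zero h
    have h4 : 1 - g ≠ 0 := by
      intro e'; rw [e', mul_zero] at e; exact h3 e
    have e2 : ((1 - b * w) * (b * w)⁻¹) / ((1 - g) * g⁻¹) = (1 - w) * (b * w)⁻¹ * g := by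
      rw [e]; clear_value g; field_simp
    have e3 : (1 - w) * (b * w)⁻¹ * g = -((1 - b) * b⁻¹) := by
      rw [hg]; field_simp
    rw [← D.neg_iff, ← e3, ← e2]; exact D.mT.div h h'

theorem NS_inv (hT : IsMG T) (hneg : (-1 : k) ∈ T) {b : k} (hb : b ∈ NS T) : b⁻¹ ∈ NS T := by
  obtain ⟨hb0, hbT, hb1, hb2⟩ := hb
  refine ⟨inv_ne_zero hb0, by rwa [hT.inv_iff], ?_, ?_⟩
  · rw [VD.one_sub_inv b hb0, ← neg_one_mul, hT.mul_left hneg]; exact hb2
  · have e : (1 - b⁻¹) * b⁻¹⁻¹ = -1 * (1 - b) := by field_simp; ring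
    rw [e, hT.mul_left hneg]; exact hb1

/-- if `q ∈ T`, `1 - q ∉ H`, then `1 - bq` and `1 - b` are in the same class, `b ∈ H ∖ T`. -/
theorem VD.one_sub_shift (D : VD T H) {b q : k} (hbH : b ∈ H) (hbT : b ∉ T) (hq : q ∈ T)
    (hq1 : 1 - q ∉ H) (hq0 : 1 - q ≠ 0) : (1 - b * q) * (1 - b)⁻¹ ∈ T := by
  have h1b := D.one_sub_mem_H hbH hbT
  have h1b0 := D.mH.ne_zero h1b
  have hbqT : b * q ∉ T := by rwa [D.mT.mul_right hq]
  have hbqH : b * q ∈ H := D.mH.mul hbH (D.sub hq)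
  have h1bq := D.one_sub_mem_H hbqH hbqT
  set g : k := -(b / (1 - b) * (1 - q)) with hg
  have hgH : g ∉ H := by
    rw [hg, D.neg_iff_H, D.mH.mul_left (D.mH.div hbH h1b)]; exact hq1
  have hg0 : g ≠ 0 := by
    rw [hg]; exact neg_ne_zero.mpr (mul_ne_zero (div_ne_zero (D.mH.ne_zero hbH) h1b0) hq0)
  have e : (1 - b * q) * (1 - b)⁻¹ = 1 - g := by rw [hg]; field_simp; ring
  rw [e]
  rcases D.str g hg0 hgH with h' | h'
  · exact h'
  · exfalso
    have h2 := D.sub h'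
    rw [← e, D.mH.mul_left (D.mH.mul h1bq (D.mH.inv h1b)), D.mH.inv_iff] at h2
    exact hgH h2

/-- `QQ` if there is a non-rigid element in `H`. -/
theorem VD.QQ_of_NS (D : VD T H) (sq : ∀ x : k, x ≠ 0 → x * x ∈ T) {b : k} (hbH : b ∈ H)
    (hb : b ∈ NS T) : QQ T H := by
  have hbi : b⁻¹ ∈ NS T := NS_inv D.mT D.neg hb
  refine D.QQ_of_unit sq ?_ hbH hb.2.1 (fun w hw => D.NS_smul hbH hb hw)
    (fun w hw => D.NS_smul (D.mH.inv hbH) hbi hw)
  intro x hx y hy hxy
  rcases D.one_sub_mul hx hy with h | h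
  · exact h
  exfalso
  set q := x * y with hq
  have hx0 := hx.1
  have hy0 := hy.1
  have hq0 : 1 - q ≠ 0 := by
    intro e; rw [e, zero_mul] at h; exact D.mT.zero h
  have hqH : 1 - q ∉ H := by
    intro hc
    have := D.sub h
    rw [D.mH.mul_left hc, D.mH.inv_iff] at this
    exact hx.2.1 this
  have hs := D.one_sub_shift hbH hb.2.1 hxy hqH hq0
  have h1b := D.one_sub_mem_H hbH hb.2.1
  have h1b0 := D.mH.ne_zero h1b
  have hqz := D.mT.ne_zero hxy
  have hb0 := hb.1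
  have hbq : b * q ∈ NS T := by
    refine ⟨mul_ne_zero hb.1 hqz, by rw [D.mT.mul_right hxy]; exact hb.2.1, ?_, ?_⟩
    · intro hc
      apply hb.2.2.1
      have e : 1 - b = (1 - b * q) / ((1 - b * q) * (1 - b)⁻¹) := by
        have := D.mT.ne_zero hc; field_simp
      rw [e]; exact D.mT.div hc hs
    · intro hc
      apply hb.2.2.2
      have e : (1 - b) * b⁻¹ = (1 - b * q) * (b * q)⁻¹ * q / ((1 - b * q) * (1 - b)⁻¹) := by
        have : 1 - b * q ≠ 0 := by
          intro e; rw [e, zero_mul] at hc; exact D.mT.zero hc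
        field_simp
      rw [e]; exact D.mT.div (D.mT.mul hc hxy) hs
  have hbqH : b * q ∈ H := D.mH.mul hbH (D.sub hxy)
  have h3 := D.NS_smul (D.mH.inv hbqH) (NS_inv D.mT D.neg hbq) (D.NS_smul hbH hb hx)
  have e : (b * q)⁻¹ * (b * x) = y⁻¹ := by rw [hq]; field_simp
  rw [e] at h3
  exact D.inv_notMem_AA hy h3

end QQ

section two

variable {T : Set k}

/-- `T ∪ xT`. -/
def dbl (T : Set k) (x : k) : Set k := {z | z ∈ T ∨ z * x⁻¹ ∈ T}

theorem dbl_isMG (hT : IsMG T) {x : k} (hx : x ≠ 0) (hxx : x * x ∈ T) : IsMG (dbl T x) where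
  zero := by
    rintro (h | h)
    · exact hT.zero h
    · rw [zero_mul] at h; exact hT.zero h
  one := Or.inl hT.one
  mul := by
    rintro a b (ha | ha) (hb | hb)
    · exact Or.inl (hT.mul ha hb)
    · right; rw [mul_assoc]; exact hT.mul ha hb
    · right
      have e : a * b * x⁻¹ = a * x⁻¹ * b := by ring
      rw [e]; exact hT.mul ha hb
    · left
      have e : a * b = a * x⁻¹ * (b * x⁻¹) * (x * x) := by field_simp
      rw [e]; exact hT.mul (hT.mul ha hb) hxx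
  inv := by
    rintro a (ha | ha)
    · exact Or.inl (hT.inv ha)
    · right
      have e : a⁻¹ * x⁻¹ = (a * x⁻¹)⁻¹ / (x * x) := by
        have : a ≠ 0 := by
          rintro rfl; rw [zero_mul] at ha; exact hT.zero ha
        field_simp
      rw [e]; exact hT.div (hT.inv ha) hxx

/-- the second type of special element. -/
def IIa (T : Set k) : Set k := {x | x ∈ AA T T ∧ ∀ b ∈ AA T T, b * x⁻¹ ∉ T → x⁻¹ * b ∈ AA T T}

theorem QL (D : VD T T) {y z : k} (hy : y ∈ AA T T)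
    (hz : z ∈ AA T T) (hyz : y * z ∈ T) (h : (1 - y * z) * y⁻¹ ∈ T) : y ∈ IIa T := by
  refine ⟨hy, fun b hb hby => ?_⟩
  have hy0 := hy.1
  have hz0 := hz.1
  have hb0 := hb.1
  have hqi : (y * z)⁻¹ * b ∈ AA T T := by
    have hn : (y * z)⁻¹ * b ∉ T := by
      rw [D.mT.mul_left (D.mT.inv hyz)]; exact hb.2.1
    rcases D.mem_or_inv (mul_ne_zero (inv_ne_zero (mul_ne_zero hy0 hz0)) hb0) hn with h' | h'
    · exact h'
    exfalso
    have e : b * ((y * z)⁻¹ * b)⁻¹ = y * z := by field_simp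
    rcases D.one_sub_mul hb h' with h2 | h2
    · rw [e] at h2
      have := D.mT.div h2 h
      apply hy.2.1
      have e2 : y = (1 - y * z) / ((1 - y * z) * y⁻¹) := by
        have := D.mT.ne_zero h2; field_simp
      rw [e2]; exact this
    · rw [e] at h2
      apply hby
      have e2 : b * y⁻¹ = (1 - y * z) * y⁻¹ / ((1 - y * z) * b⁻¹) := by
        have : 1 - y * z ≠ 0 := by
          intro e; rw [e, zero_mul] at h; exact D.mT.zero h
        field_simp
      rw [e2]; exact D.mT.div h h2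
  have e : z * ((y * z)⁻¹ * b) = y⁻¹ * b := by field_simp
  rw [← e]
  apply D.mul_mem hz hqi
  rw [e]
  intro hc
  apply hby
  have e2 : b * y⁻¹ = y⁻¹ * b := by ring
  rwa [e2]

theorem VD_dbl (D : VD T T) {x : k} (hx : x ≠ 0) (hxx : x * x ∈ T) : VD T (dbl T x) where
  mT := D.mT
  mH := dbl_isMG D.mT hx hxx
  sub := fun _ hz => Or.inl hz
  neg := D.neg
  str := fun z hz hzH => D.str z hz (fun h => hzH (Or.inl h))

theorem mem_AA_dbl {x z : k} : z ∈ AA T (dbl T x) ↔ z ∈ AA T T ∧ z * x⁻¹ ∉ T := by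
  unfold AA dbl
  simp only [Set.mem_ofPred_eq, not_or]
  tauto

theorem QQ_dbl (D : VD T T) (sq : ∀ x : k, x ≠ 0 → x * x ∈ T) {x : k} (hx : x ∈ IIa T) :
    QQ T (dbl T x) := by
  have hx0 := hx.1.1
  have D2 := VD_dbl D hx0 (sq x hx0)
  have hxT := hx.1.2.1
  refine D2.QQ_of_unit sq ?_ (b := x) ?_ hxT ?_ ?_
  · intro y hy z hz hyz
    rcases D2.one_sub_mul hy hz with h | h
    · exact h
    exfalso
    rw [mem_AA_dbl] at hy hz
    have h1 := QL D hy.1 hz.1 hyz h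
    have hy0 := hy.1.1
    have e1 : x * y⁻¹ ∉ T := by
      intro hc
      apply hy.2
      have := D.mT.inv hc
      rwa [mul_inv, inv_inv, mul_comm] at this
    have h2 := h1.2 x hx.1 e1
    have h3 := hx.2 y hy.1 hy.2
    apply D.inv_notMem_AA h2
    rwa [mul_inv, inv_inv, mul_comm]
  · right; rw [mul_inv_cancel₀ hx0]; exact D.mT.one
  · intro w hw
    rw [mem_AA_dbl] at hw ⊢
    have n1 : x * w ∉ T := by
      intro hc
      apply hw.2
      have e : w * x⁻¹ = x * w / (x * x) := by field_simp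
      rw [e]; exact D.mT.div hc (sq x hx0)
    refine ⟨D.mul_mem hx.1 hw.1 n1, ?_⟩
    have e : x * w * x⁻¹ = w := by field_simp
    rw [e]; exact hw.1.2.1
  · intro w hw
    rw [mem_AA_dbl] at hw ⊢
    refine ⟨hx.2 w hw.1 hw.2, ?_⟩
    intro hc
    apply hw.1.2.1
    have e : w = x⁻¹ * w * x⁻¹ * (x * x) := by field_simp
    rw [e]; exact D.mT.mul hc (sq x hx0)

theorem QQ_TT (D : VD T T) (h : ∀ x : k, x ∉ IIa T) :
    QQ T T := by
  refine D.QQ_of_between ?_ ?_
  · intro x hx y hy hxy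
    rcases D.one_sub_mul hx hy with h' | h'
    · exact h'
    exact absurd (QL D hx hy hxy h') (h x)
  · intro x hx
    have := h x
    unfold IIa at this
    simp only [Set.mem_ofPred_eq, not_and, not_forall] at this
    obtain ⟨b, hb, hbx, hxb⟩ := this hx
    refine ⟨b, hb, ?_, hxb⟩
    intro hc
    apply hbx
    have := D.mT.inv hc
    rwa [mul_inv, inv_inv, mul_comm] at this

end two

end Pool.Agent.Helper25.ETC
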