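import Pool.Agent.Helper25.ETCCount
import Pool.Agent.Helper25.ETCFrozen

/-!
# Fields with many relations
-/

set_option autoImplicit false

namespace Pool.Agent.Helper25.ETC

open Polynomial Finset

theorem norm_adjoin_eq {E K : Type*} [Field E] [Field K] [Algebra E K] {p : ℕ} (hp : p.Prime)
    {ζ : E} (hζ : IsPrimitiveRoot ζ p) {a : E} (ha : ∀ b : E, b ^ p ≠ a) {α : K}
    (hα : α ^ p = algebraMap E K a) (g : E[X]) :
    ∃ y : IntermediateField.adjoin E {α}, algebraMap E K (Algebra.norm E y) =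
      ∏ j ∈ range p, aeval (algebraMap E K ζ ^ j * α) g := by
  have hirr := X_pow_sub_C_irreducible_of_prime hp ha
  have hmonic : (X ^ p - C a : E[X]).Monic := monic_X_pow_sub_C a hp.ne_zero
  have hroot : aeval α (X ^ p - C a : E[X]) = 0 := by simp [hα]
  have hmin : minpoly E α = X ^ p - C a := (minpoly.eq_of_irreducible_of_monic hirr hroot hmonic).symm
  have hint : IsIntegral E α := ⟨X ^ p - C a, hmonic, hroot⟩
  have : NeZero p := ⟨hp.ne_zero⟩
  have hpE : (p : E) ≠ 0 := (hζ.neZero' (n := p)).out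
  have ha0 : a ≠ 0 := by rintro rfl; exact ha 0 (zero_pow hp.ne_zero)
  have hα0 : α ≠ 0 := by
    rintro rfl
    rw [zero_pow hp.ne_zero] at hα
    exact ha0 ((map_eq_zero _).mp hα.symm)
  have hsep : IsSeparable E α := by
    unfold IsSeparable
    rw [hmin]; exact separable_X_pow_sub_C a hpE ha0
  have : FiniteDimensional E (IntermediateField.adjoin E {α}) :=
    IntermediateField.adjoin.finiteDimensional hint
  have : Algebra.IsSeparable E (IntermediateField.adjoin E {α}) :=
    (IntermediateField.isSeparable_adjoin_simple_iff_isSeparable (F := E) (E := K)).mpr hsep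
  let Ω := AlgebraicClosure K
  refine ⟨aeval (IntermediateField.AdjoinSimple.gen E α) g, ?_⟩
  apply (algebraMap K Ω).injective
  rw [← IsScalarTower.algebraMap_apply, Algebra.norm_eq_prod_embeddings E Ω, map_prod,
    ← Fin.prod_univ_eq_prod_range (fun j => algebraMap K Ω (aeval (algebraMap E K ζ ^ j * α) g)) p]
  have hζK : IsPrimitiveRoot (algebraMap E K ζ) p := hζ.map_of_injective (algebraMap E K).injective
  have hζΩ : IsPrimitiveRoot (algebraMap K Ω (algebraMap E K ζ)) p :=
    hζK.map_of_injective (algebraMap K Ω).injective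
  have hmem : ∀ j : ℕ, algebraMap K Ω (algebraMap E K ζ ^ j * α) ∈ (minpoly E α).aroots Ω := by
    intro j
    rw [hmin, mem_aroots]
    refine ⟨hmonic.ne_zero, ?_⟩
    have h1 : (algebraMap E K ζ ^ j * α) ^ p = algebraMap E K a := by
      rw [mul_pow, ← pow_mul, mul_comm j p, pow_mul, hζK.pow_eq_one, one_pow, one_mul, hα]
    rw [map_sub, map_pow, aeval_X, aeval_C, ← map_pow, h1, ← IsScalarTower.algebraMap_apply,
      sub_self]
  let e : Fin p → (IntermediateField.adjoin E {α} →ₐ[E] Ω) := fun j =>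
    (IntermediateField.algHomAdjoinIntegralEquiv E hint).symm
      ⟨algebraMap K Ω (algebraMap E K ζ ^ (j : ℕ) * α), hmem j⟩
  have he : Function.Bijective e := by
    constructor
    · intro i j hij
      have h1 := (IntermediateField.algHomAdjoinIntegralEquiv E hint).symm.injective hij
      have h2 := congrArg Subtype.val h1
      have h3 := (algebraMap K Ω).injective h2
      have h4 := mul_right_cancel₀ hα0 h3
      exact Fin.ext (hζK.pow_inj i.2 j.2 h4)
    · intro f
      obtain ⟨⟨x, hxr⟩, rfl⟩ :=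
        (IntermediateField.algHomAdjoinIntegralEquiv E hint).symm.surjective f
      have h2 : (x : Ω) ^ p = (algebraMap K Ω α) ^ p := by
        have h3 := (mem_aroots.mp hxr).2
        rw [hmin, map_sub, map_pow, aeval_X, aeval_C, sub_eq_zero] at h3
        rw [h3, ← map_pow, hα, ← IsScalarTower.algebraMap_apply]
      obtain ⟨j, hj, hx⟩ := exists_zeta_pow hp.pos hζΩ h2
      refine ⟨⟨j, hj⟩, ?_⟩
      simp only [e]
      congr 1
      apply Subtype.ext
      simp only [hx, map_mul, map_pow]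
  refine (Fintype.prod_bijective e he _ _ (fun j => ?_)).symm
  have h5 : (e j) (aeval (IntermediateField.AdjoinSimple.gen E α) g) =
      aeval ((e j) (IntermediateField.AdjoinSimple.gen E α)) g := (aeval_algHom_apply _ _ _).symm
  have h6 : (e j) (IntermediateField.AdjoinSimple.gen E α) =
      algebraMap K Ω (algebraMap E K ζ ^ (j : ℕ) * α) :=
    IntermediateField.algHomAdjoinIntegralEquiv_symm_apply_gen E hint _
  rw [h5, h6]
  exact (aeval_algebraMap_apply Ω _ g).symm

section

variable {F K : Type*} [Field F] [Field K] [Algebra F K] {p : ℕ} {ζ : K}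

/-- `b` is a norm from `E(a^{1/p})`. -/
def NP (p : ℕ) (E : IntermediateField F K) (a b : Eˣ) : Prop :=
  ∃ α : K, α ^ p = ((a : E) : K) ∧
    ∃ y : IntermediateField.adjoin E {α}, Algebra.norm E y = (b : E)

theorem np_of_rel (Cx : Ctx p F K ζ) {E : IntermediateField F K} (hζE : ζ ∈ E) {a b : Eˣ}
    (ha : ((a : E) : K) ∉ TT p E) (h : rel p E ζ ((a : E) : K) ((b : E) : K)) : NP p E a b := by
  obtain ⟨α, hα, g, hg, hgb⟩ := h
  have hlift : g ∈ lifts (algebraMap E K) := by
    rw [lifts_iff_coeff_lifts]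
    intro n
    exact ⟨⟨g.coeff n, hg n⟩, rfl⟩
  obtain ⟨g', hg'⟩ := (mem_lifts g).mp hlift
  have hζ' : IsPrimitiveRoot (⟨ζ, hζE⟩ : E) p :=
    IsPrimitiveRoot.of_map_of_injective (f := algebraMap E K) Cx.hζ (algebraMap E K).injective
  obtain ⟨y, hy⟩ := norm_adjoin_eq Cx.hp hζ' (a := (a : E)) (by
    intro b hb
    apply ha
    have h1 : ((a : E) : K) ≠ 0 := by
      intro h0
      exact a.ne_zero (Subtype.ext h0)
    exact ⟨h1, b, b.2, by rw [← hb]; rfl⟩) (α := α) hα g'
  refine ⟨α, hα, y, ?_⟩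
  apply (algebraMap E K).injective
  rw [hy]
  change _ = ((b : E) : K)
  rw [← hgb]
  apply prod_congr rfl
  intro j _
  rw [aeval_def, ← eval_map, hg']
  rfl

/-- bimultiplicative `ℤ/p`-valued pairings killing all norm pairs. -/
def NormForms (p : ℕ) (E : IntermediateField F K) : Set (Eˣ → Eˣ → ZMod p) :=
  {B | (∀ x y z, B (x * y) z = B x z + B y z) ∧ (∀ x y z, B x (y * z) = B x y + B x z) ∧
    ∀ a b, NP p E a b → B a b = 0}

theorem unit_eq_zero_of_pow {E : IntermediateField F K} {B : Eˣ → Eˣ → ZMod p}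
    (hB : ∀ x y z, B (x * y) z = B x z + B y z) (x z : Eˣ) : B (x ^ p) z = 0 := by
  have h1 : ∀ n : ℕ, B (x ^ (n + 1)) z = (n + 1) * B x z := by
    intro n
    induction n with
    | zero => simp
    | succ n ih => rw [pow_succ, hB, ih]; push_cast; ring
  rcases p with _ | q
  · have h2 := hB 1 1 z
    rw [mul_one] at h2
    rw [pow_zero]
    linear_combination -h2
  · rw [h1 q]
    have : ((q : ZMod (q + 1)) + 1) = 0 := by
      have := ZMod.natCast_self (q + 1)
      push_cast at this
      exact this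
    rw [this, zero_mul]

theorem unit_eq_zero_of_pow' {E : IntermediateField F K} {B : Eˣ → Eˣ → ZMod p}
    (hB : ∀ x y z, B x (y * z) = B x y + B x z) (x z : Eˣ) : B x (z ^ p) = 0 :=
  unit_eq_zero_of_pow (B := fun z x => B x z) (fun x y z => hB z x y) z x

/-- the group of `p`-power classes. -/
abbrev PC (p : ℕ) (E : IntermediateField F K) : Type _ := Eˣ ⧸ (powMonoidHom p : Eˣ →* Eˣ).range

/-- the group of `p`-power classes, written additively. -/
def VV (p : ℕ) (E : IntermediateField F K) : Type _ := Additive (PC p E)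

instance (p : ℕ) (E : IntermediateField F K) : AddCommGroup (VV p E) :=
  inferInstanceAs (AddCommGroup (Additive (PC p E)))

/-- the class of a unit, written additively. -/
def mkc (p : ℕ) (E : IntermediateField F K) (x : Eˣ) : VV p E :=
  Additive.ofMul (QuotientGroup.mk x)

theorem mkc_mul {E : IntermediateField F K} (x y : Eˣ) :
    mkc p E (x * y) = mkc p E x + mkc p E y := rfl

theorem mkc_surj {E : IntermediateField F K} (u : VV p E) : ∃ x, mkc p E x = u := by
  obtain ⟨x, hx⟩ := QuotientGroup.mk_surjective (Additive.toMul u)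
  exact ⟨x, congrArg Additive.ofMul hx⟩

theorem mkc_eq_zero {E : IntermediateField F K} {x : Eˣ} :
    mkc p E x = 0 ↔ ((x : E) : K) ∈ TT p E := by
  have h1 : mkc p E x = 0 ↔ x ∈ (powMonoidHom p : Eˣ →* Eˣ).range := by
    rw [← QuotientGroup.eq_one_iff]
    exact Iff.rfl
  rw [h1]
  constructor
  · rintro ⟨y, hy⟩
    refine ⟨fun h => x.ne_zero (Subtype.ext h), ((y : E) : K), (y : E).2, ?_⟩
    rw [← hy]; rfl
  · rintro ⟨h0, y, hyE, hy⟩
    rcases eq_or_ne p 0 with rfl | hp0
    · refine ⟨1, ?_⟩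
      apply Units.ext
      apply Subtype.ext
      rw [← hy]
      simp
    have hy0 : y ≠ 0 := by
      rintro rfl
      rw [zero_pow hp0] at hy
      exact h0 hy.symm
    refine ⟨Units.mk0 ⟨y, hyE⟩ (fun h => hy0 (congrArg Subtype.val h)), ?_⟩
    apply Units.ext
    apply Subtype.ext
    exact hy

/-- a representative of a class. -/
noncomputable def outc (p : ℕ) (E : IntermediateField F K) (u : VV p E) : Eˣ :=
  Quotient.out (Additive.toMul u)

theorem outc_mkc {E : IntermediateField F K} (x : Eˣ) : ∃ t : Eˣ, outc p E (mkc p E x) = x * t ^ p := by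
  obtain ⟨⟨h, t, ht⟩, hh⟩ := QuotientGroup.mk_out_eq_mul ((powMonoidHom p : Eˣ →* Eˣ).range) x
  refine ⟨t, ?_⟩
  have h1 : t ^ p = h := ht
  rw [h1]
  exact hh

/-- the pairing on classes. -/
noncomputable def barB (p : ℕ) (E : IntermediateField F K) (B : Eˣ → Eˣ → ZMod p) :
    VV p E → VV p E → ZMod p := fun u v => B (outc p E u) (outc p E v)

theorem barB_mkc {E : IntermediateField F K} {B : Eˣ → Eˣ → ZMod p}
    (h1 : ∀ x y z, B (x * y) z = B x z + B y z) (h2 : ∀ x y z, B x (y * z) = B x y + B x z)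
    (x y : Eˣ) : barB p E B (mkc p E x) (mkc p E y) = B x y := by
  obtain ⟨t, ht⟩ := outc_mkc (p := p) x
  obtain ⟨s, hs⟩ := outc_mkc (p := p) y
  unfold barB
  rw [ht, hs, h1, h2, h2, unit_eq_zero_of_pow h1, unit_eq_zero_of_pow h1,
    unit_eq_zero_of_pow' h2]
  ring

theorem normForms_alt (Cx : Ctx p F K ζ) {E : IntermediateField F K} (hζE : ζ ∈ E)
    (hneg : (-1 : K) ∈ TT p E) {B : Eˣ → Eˣ → ZMod p} (hB : B ∈ NormForms p E) (x : Eˣ) :
    B x x = 0 := by
  obtain ⟨h1, h2, h3⟩ := hB
  by_cases hx : ((x : E) : K) ∈ TT p E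
  · obtain ⟨t, ht⟩ := outc_mkc (p := p) (E := E) 1
    have h4 := mkc_eq_zero.mpr hx
    have h5 := barB_mkc h1 h2 x x
    have h6 := barB_mkc h1 h2 1 1
    rw [h4] at h5
    have h7 : mkc p E 1 = 0 := rfl
    rw [h7] at h6
    rw [← h5, h6]
    have := h1 1 1 1
    rw [mul_one] at this
    linear_combination -this
  · have h4 : NP p E x (-x) := np_of_rel Cx hζE hx (rel_neg_self Cx)
    have h5 := h3 _ _ h4
    have h6 : (-x : Eˣ) = x * (-1) := by rw [mul_neg, mul_one]
    obtain ⟨-, ε, hεE, hε⟩ := hneg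
    have hε0 : ε ≠ 0 := by
      rintro rfl
      rw [zero_pow Cx.hp.ne_zero] at hε
      exact neg_ne_zero.mpr one_ne_zero hε.symm
    have h7 : (-1 : Eˣ) = (Units.mk0 (⟨ε, hεE⟩ : E) (fun h => hε0 (congrArg Subtype.val h))) ^ p := by
      apply Units.ext
      apply Subtype.ext
      exact hε.symm
    rw [h6, h2, h7, unit_eq_zero_of_pow' h2, add_zero] at h5
    exact h5

theorem nsmul_zero {E : IntermediateField F K} (u : VV p E) : p • u = 0 := by
  obtain ⟨x, rfl⟩ := mkc_surj u
  have h1 : p • mkc p E x = mkc p E (x ^ p) := rfl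
  rw [h1]
  exact mkc_eq_zero.mpr (pow_mem_TT (x : E).2 (fun h => x.ne_zero (Subtype.ext h)))

theorem mkc_zpow {E : IntermediateField F K} (x : Eˣ) (i : ℤ) :
    mkc p E (x ^ i) = i • mkc p E x := rfl

theorem cg_iff_mkc {E : IntermediateField F K} (x y : Eˣ) :
    cg (TT p E) ((x : E) : K) ((y : E) : K) ↔ mkc p E x = mkc p E y := by
  have h1 : mkc p E x = mkc p E y ↔ mkc p E (x / y) = 0 := by
    rw [← sub_eq_zero]; exact Iff.rfl
  rw [h1, mkc_eq_zero]
  unfold cg
  have : (((x / y : Eˣ) : E) : K) = ((x : E) : K) / ((y : E) : K) := by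
    rw [Units.val_div_eq_div_val]; rfl
  rw [this]

theorem exists_rig_of_count (Cx : Ctx p F K ζ) {E : IntermediateField F K} (hζE : ζ ∈ E)
    (hneg : (-1 : K) ∈ TT p E) {n : ℕ} (hn : Nat.card (PC p E) = p ^ n) (hn2 : 2 ≤ n)
    (hcount : p ^ ((n - 1).choose 2) < Nat.card (NormForms p E)) :
    ∃ a : Eˣ, Rig p E ζ ((a : E) : K) := by
  classical
  have hp := Cx.hp
  have : Fact p.Prime := ⟨hp⟩
  by_contra hno
  push Not at hno
  have i1 : Module (ZMod p) (VV p E) := AddCommGroup.zmodModule nsmul_zero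
  have hfin : Finite (VV p E) := by
    apply Nat.finite_of_card_ne_zero
    have : Nat.card (VV p E) = p ^ n := hn
    rw [this]
    exact pow_ne_zero _ hp.ne_zero
  have i2 : FiniteDimensional (ZMod p) (VV p E) := Module.Finite.of_finite
  have hrank : Module.finrank (ZMod p) (VV p E) = n := by
    have h1 : Nat.card (VV p E) = Nat.card (ZMod p) ^ Module.finrank (ZMod p) (VV p E) :=
      Module.natCard_eq_pow_finrank
    have h2 : Nat.card (VV p E) = p ^ n := hn
    rw [h2, Nat.card_zmod] at h1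
    exact (Nat.pow_right_injective hp.two_le h1).symm
  let A : Submodule (ZMod p) (VV p E → VV p E → ZMod p) :=
    { carrier := {B | B ∈ AltF (ZMod p) (VV p E) ∧
        ∀ a b, NP p E a b → B (mkc p E a) (mkc p E b) = 0}
      add_mem' := by
        rintro B C ⟨h1, h2⟩ ⟨g1, g2⟩
        refine ⟨Submodule.add_mem _ h1 g1, fun a b hab => ?_⟩
        simp only [Pi.add_apply]
        rw [h2 a b hab, g2 a b hab, add_zero]
      zero_mem' := ⟨Submodule.zero_mem _, fun a b _ => rfl⟩
      smul_mem' := by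
        rintro c B ⟨h1, h2⟩
        refine ⟨Submodule.smul_mem _ c h1, fun a b hab => ?_⟩
        simp only [Pi.smul_apply]
        rw [h2 a b hab, smul_zero] }
  have hAmem : ∀ B, B ∈ A ↔ (B ∈ AltF (ZMod p) (VV p E) ∧
        ∀ a b, NP p E a b → B (mkc p E a) (mkc p E b) = 0) := fun B => Iff.rfl
  have hle := count_forms A (fun B hB => hB.1) (by
    intro u hu
    obtain ⟨x, rfl⟩ := mkc_surj u
    have hx : ((x : E) : K) ∉ TT p E := fun h => hu (mkc_eq_zero.mpr h)
    have hx0 : ((x : E) : K) ≠ 0 := fun h => x.ne_zero (Subtype.ext h)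
    have hnr : ∃ c ∈ ZZ p E ζ ((x : E) : K), ∀ i : ℤ, ¬ cg (TT p E) c (((x : E) : K) ^ i) := by
      by_contra hcon
      push Not at hcon
      exact hno x ⟨(x : E).2, hx0, hx, hcon⟩
    obtain ⟨c, hc, hci⟩ := hnr
    let c' : Eˣ := Units.mk0 ⟨c, hc.1⟩ (fun h => hc.2.1 (congrArg Subtype.val h))
    refine ⟨mkc p E c', ?_, ?_⟩
    · intro hmem
      rw [Submodule.mem_span_singleton] at hmem
      obtain ⟨r, hr⟩ := hmem
      apply hci (r.val : ℤ)
      have h1 : mkc p E (x ^ (r.val : ℤ)) = mkc p E c' := by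
        have h2 : r • mkc p E x = r.val • mkc p E x := by
          conv_lhs => rw [← ZMod.natCast_zmod_val r]
          exact Nat.cast_smul_eq_nsmul (ZMod p) _ _
        rw [← hr, mkc_zpow, natCast_zsmul, h2]
      have h2 := (cg_iff_mkc c' (x ^ (r.val : ℤ))).mpr h1.symm
      have h3 : (((x ^ (r.val : ℤ) : Eˣ) : E) : K) = ((x : E) : K) ^ (r.val : ℤ) := by
        rw [Units.val_zpow_eq_zpow_val]
        exact map_zpow₀ (algebraMap E K) _ _
      rw [h3] at h2
      exact h2
    · intro B hB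
      exact hB.2 _ _ (np_of_rel Cx hζE hx hc.2.2)) (by rw [hrank]; omega)
  rw [hrank] at hle
  have hA1 : Nat.card A = p ^ Module.finrank (ZMod p) A := by
    have h1 : Nat.card A = Nat.card (ZMod p) ^ Module.finrank (ZMod p) A :=
      Module.natCard_eq_pow_finrank
    rwa [Nat.card_zmod] at h1
  have hfA : Finite A := Module.finite_of_finite (ZMod p)
  have hbar : ∀ B ∈ NormForms p E, barB p E B ∈ A := by
    intro B hB
    obtain ⟨h1, h2, h3⟩ := hB
    have e := barB_mkc h1 h2
    have add1 : ∀ x y z, barB p E B (x + y) z = barB p E B x z + barB p E B y z := by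
      intro x y z
      obtain ⟨x, rfl⟩ := mkc_surj x
      obtain ⟨y, rfl⟩ := mkc_surj y
      obtain ⟨z, rfl⟩ := mkc_surj z
      rw [← mkc_mul, e, e, e, h1]
    have add2 : ∀ x y z, barB p E B x (y + z) = barB p E B x y + barB p E B x z := by
      intro x y z
      obtain ⟨x, rfl⟩ := mkc_surj x
      obtain ⟨y, rfl⟩ := mkc_surj y
      obtain ⟨z, rfl⟩ := mkc_surj z
      rw [← mkc_mul, e, e, e, h2]
    rw [hAmem]
    refine ⟨⟨add1, ?_, add2, ?_, ?_⟩, ?_⟩
    · intro c x z
      exact ZMod.map_smul (AddMonoidHom.mk' (fun x => barB p E B x z) (fun x y => add1 x y z)) c x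
    · intro c x z
      exact ZMod.map_smul (AddMonoidHom.mk' (fun z => barB p E B x z) (fun y z => add2 x y z)) c z
    · intro x
      obtain ⟨x, rfl⟩ := mkc_surj x
      rw [e]
      exact normForms_alt Cx hζE hneg ⟨h1, h2, h3⟩ x
    · intro a b hab
      rw [e]
      exact h3 a b hab
  have hcard : Nat.card (NormForms p E) ≤ Nat.card A := by
    refine Nat.card_le_card_of_injective
      (fun B : NormForms p E => (⟨barB p E B, hbar B B.2⟩ : A)) ?_
    intro B C hBC
    have h1 : barB p E B = barB p E C := congrArg Subtype.val hBC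
    apply Subtype.ext
    funext x y
    rw [← barB_mkc B.2.1 B.2.2.1 x y, ← barB_mkc C.2.1 C.2.2.1 x y, h1]
  have := Nat.pow_le_pow_right hp.pos hle
  omega

theorem concl_of_count (Cx : Ctx p F K ζ) {E : IntermediateField F K} [FiniteDimensional F E]
    (hζE : ζ ∈ E)
    (hneg : (-1 : K) ∈ TT p E) {n : ℕ} (hn : Nat.card (PC p E) = p ^ n) (hn2 : 2 ≤ n)
    (hcount : p ^ ((n - 1).choose 2) < Nat.card (NormForms p E)) : Concl F K := by
  have hp := Cx.hp
  obtain ⟨a, R⟩ := exists_rig_of_count Cx hζE hneg hn hn2 hcount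
  -- a class outside the subgroup generated by `a`
  have hex : ∃ c : Eˣ, ∀ j : ℤ, mkc p E c ≠ j • mkc p E a := by
    by_contra hcon
    push Not at hcon
    have hsurj : Function.Surjective (fun j : Fin p => (j : ℕ) • mkc p E a) := by
      intro u
      obtain ⟨x, rfl⟩ := mkc_surj u
      obtain ⟨j, hj⟩ := hcon x
      have hp0 : (p : ℤ) ≠ 0 := by exact_mod_cast hp.ne_zero
      refine ⟨⟨(j % p).toNat, ?_⟩, ?_⟩
      · have := Int.emod_lt_of_pos j (by exact_mod_cast hp.pos : (0 : ℤ) < p)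
        have := Int.emod_nonneg j hp0
        omega
      · simp only
        rw [hj, ← natCast_zsmul, Int.toNat_of_nonneg (Int.emod_nonneg j hp0)]
        conv_rhs => rw [← Int.emod_add_mul_ediv j p]
        rw [add_smul, mul_comm, mul_smul, natCast_zsmul (mkc p E a) p, nsmul_zero, smul_zero,
          add_zero]
    have h1 := Nat.card_le_card_of_surjective _ hsurj
    have h2 : Nat.card (VV p E) = p ^ n := hn
    rw [h2, Nat.card_eq_fintype_card, Fintype.card_fin] at h1
    have h3 : p ^ 2 ≤ p ^ n := Nat.pow_le_pow_right hp.pos hn2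
    have h4 : p < p ^ 2 := by
      have := hp.one_lt
      nlinarith
    omega
  obtain ⟨c, hc⟩ := hex
  refine concl_of_rig Cx hζE hneg R (c := ((c : E) : K)) (c : E).2
    (fun h => c.ne_zero (Subtype.ext h)) (fun j hj => hc j ?_)
  have h3 : (((a ^ j : Eˣ) : E) : K) = ((a : E) : K) ^ j := by
    rw [Units.val_zpow_eq_zpow_val]
    exact map_zpow₀ (algebraMap E K) _ _
  rw [← h3] at hj
  rw [← mkc_zpow]
  exact (cg_iff_mkc c (a ^ j)).mp hj

end

end Pool.Agent.Helper25.ETC
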