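import Pool.Agent.Helper25.ETCTowE

/-!
# From a special `ℤ_p`-quotient with finite `H^1` of its kernel to the conclusion
-/

set_option autoImplicit false

namespace Pool.Agent.Helper25.ETC

open Polynomial Finset Module

variable {F K : Type*} [Field F] [Field K] [Algebra F K] {p : ℕ} {ζ : K}
variable [Fact p.Prime] {e : ℕ} {E : IntermediateField F K}
  {φ : E.fixingSubgroup → (Fin (e + 1) → ℤ_[p])}

theorem concl_of_special (Cx : Ctx p F K ζ) [FiniteDimensional F E] (hζE : ζ ∈ E)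
    (hneg : (-1 : K) ∈ TT p E) (Z : Zp E φ)
    (hninj : 1 ≤ e ∨ ∃ σ : E.fixingSubgroup, σ ≠ 1 ∧ φ σ = 0)
    {t : Fin (e + 1) → E.fixingSubgroup} (ht : ∀ i, φ (t i) = Pi.single i 1)
    (hst : ∀ σ : E.fixingSubgroup, ∀ x ∈ Z.M, (σ : K ≃ₐ[F] K) x ∈ Z.M)
    (q : Fin e → ℕ) (V : Submodule (ZMod p) (VV p Z.M)) (hV : FiniteDimensional (ZMod p) V)
    (hVmem : ∀ u, (∀ i : Fin e, autV p (t i.castSucc : K ≃ₐ[F] K) Z.M (hst _) u =
        ((autV p (t (Fin.last e) : K ≃ₐ[F] K) Z.M (hst _)) ^ (p ^ q i)) u) → u ∈ V) :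
    Concl F K := by
  classical
  have := Cx.pc.gal
  have hp := Cx.hp
  have hζ := Cx.hζ
  have hVfin : Finite V := Module.finite_of_finite (ZMod p)
  -- the special `ℤ_p`-extension
  set tl := t (Fin.last e) with htl
  let r : Fin e → E.fixingSubgroup := fun i => (tl ^ (p ^ q i))⁻¹ * t i.castSucc
  let s : Fin e → (K ≃ₐ[F] K) := fun i => (r i : K ≃ₐ[F] K)
  set M' := MJ Z.M s e with hM'
  have hM'mem : ∀ x, x ∈ M' ↔ x ∈ Z.M ∧ ∀ i, (r i : K ≃ₐ[F] K) x = x := by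
    intro x
    rw [hM', mem_MJ]
    constructor
    · rintro ⟨h1, h2⟩; exact ⟨h1, fun i => h2 i i.2⟩
    · rintro ⟨h1, h2⟩; exact ⟨h1, fun i _ => h2 i⟩
  have hM'M : M' ≤ Z.M := fun x hx => ((hM'mem x).mp hx).1
  have hact : ∀ x ∈ M', ∀ i : Fin e, (t i.castSucc : K ≃ₐ[F] K) x =
      ((tl ^ (p ^ q i) : E.fixingSubgroup) : K ≃ₐ[F] K) x := by
    intro x hx i
    have h1 := ((hM'mem x).mp hx).2 i
    have h2 := congrArg ((tl ^ (p ^ q i) : E.fixingSubgroup) : K ≃ₐ[F] K) h1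
    rw [← AlgEquiv.mul_apply, ← Subgroup.coe_mul, mul_inv_cancel_left] at h2
    exact h2
  -- classes of elements of `M'`
  have hclass : ∀ (x : K) (hx : x ∈ M') (hx0 : x ≠ 0),
      mkc p Z.M (mku x (hM'M hx) hx0) ∈ V := by
    intro x hx hx0
    apply hVmem
    intro i
    have h1 : ∀ y ∈ Z.M, ((tl : K ≃ₐ[F] K) ^ (p ^ q i)) y ∈ Z.M := by
      intro y hy
      rw [← Subgroup.coe_pow]
      exact hst _ y hy
    rw [autV_mkc, autV_pow_mkc _ _ h1]
    apply mkc_eq_of_val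
    rw [mku_val, mku_val, hact x hx i, Subgroup.coe_pow]
  -- base points
  let base : V → K := fun v => if h : ∃ (x : K) (hx : x ∈ M') (hx0 : x ≠ 0),
    mkc p Z.M (mku x (hM'M hx) hx0) = v then h.choose else 1
  have hbase : ∀ v, base v ∈ M' ∧ base v ≠ 0 := by
    intro v
    simp only [base]
    split_ifs with h
    · exact ⟨h.choose_spec.choose, h.choose_spec.choose_spec.choose⟩
    · exact ⟨M'.one_mem, one_ne_zero⟩
  have hexp : ∀ x : {x : K // x ∈ M' ∧ x ≠ 0}, ∃ v : V, ∃ y ∈ Z.M, y ≠ 0 ∧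
      (x : K) = base v * y ^ p ∧ ∀ i, ∃ l : Fin p, (r i : K ≃ₐ[F] K) y = ζ ^ (l : ℕ) * y := by
    rintro ⟨x, hx, hx0⟩
    have hex : ∃ (x' : K) (hx' : x' ∈ M') (hx0' : x' ≠ 0),
        mkc p Z.M (mku x' (hM'M hx') hx0') =
          ((⟨mkc p Z.M (mku x (hM'M hx) hx0), hclass x hx hx0⟩ : V) : VV p Z.M) :=
      ⟨x, hx, hx0, rfl⟩
    refine ⟨⟨mkc p Z.M (mku x (hM'M hx) hx0), hclass x hx hx0⟩, ?_⟩
    have hb := hbase ⟨mkc p Z.M (mku x (hM'M hx) hx0), hclass x hx hx0⟩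
    have hb2 : mkc p Z.M (mku x (hM'M hx) hx0) = mkc p Z.M (mku (base
        ⟨mkc p Z.M (mku x (hM'M hx) hx0), hclass x hx hx0⟩) (hM'M hb.1) hb.2) := by
      have h2 := hex.choose_spec.choose_spec.choose_spec
      refine Eq.trans h2.symm ?_
      apply mkc_eq_of_val
      rw [mku_val, mku_val]
      simp only [base]
      rw [dif_pos hex]
    rw [mkc_mku_eq_iff hp.ne_zero] at hb2
    obtain ⟨y, hy, hy0, hxy⟩ := hb2
    refine ⟨y, hy, hy0, hxy, fun i => ?_⟩
    have h1 : ((r i : K ≃ₐ[F] K) y) ^ p = y ^ p := by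
      have h2 := ((hM'mem x).mp hx).2 i
      have h3 := ((hM'mem _).mp hb.1).2 i
      rw [hxy, map_mul, h3, map_pow] at h2
      exact mul_left_cancel₀ hb.2 h2
    obtain ⟨l, hl, hl2⟩ := exists_zeta_pow hp.pos hζ h1
    exact ⟨⟨l, hl⟩, hl2⟩
  choose vf yf hyM hy0 hxy lf hlf using hexp
  have hinj : ∀ x x' : {x : K // x ∈ M' ∧ x ≠ 0}, (vf x, lf x) = (vf x', lf x') →
      (x : K) / x' ∈ TT p M' := by
    intro x x' h
    obtain ⟨h1, h2⟩ := Prod.ext_iff.mp h
    simp only at h1 h2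
    have h3 : yf x / yf x' ∈ M' := by
      rw [hM'mem]
      refine ⟨Z.M.div_mem (hyM x) (hyM x'), fun i => ?_⟩
      rw [map_div₀, hlf x i, hlf x' i, h2]
      have h4 : ζ ^ ((lf x' i : Fin p) : ℕ) ≠ 0 := pow_ne_zero _ (hζ.ne_zero hp.ne_zero)
      field_simp
    have h5 : (x : K) / x' = (yf x / yf x') ^ p := by
      rw [hxy x, hxy x', h1, div_pow]
      have := (hbase (vf x')).2
      have := hy0 x'
      field_simp
    rw [h5]
    exact pow_mem_TT h3 (div_ne_zero (hy0 x) (hy0 x'))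
  have hfinV : Finite (V × (Fin e → Fin p)) := inferInstance
  have := Fintype.ofFinite (V × (Fin e → Fin p))
  let rep : V × (Fin e → Fin p) → K := fun v =>
    if h : ∃ x, (vf x, lf x) = v then (h.choose : K) else 1
  have hrepM : ∀ v, rep v ∈ M' ∧ rep v ≠ 0 := by
    intro v
    simp only [rep]
    split_ifs with h
    · exact h.choose.2
    · exact ⟨M'.one_mem, one_ne_zero⟩
  have hrep : ∀ x ∈ M', x ≠ 0 → ∃ v, x / rep v ∈ TT p M' := by
    intro x hx hx0
    refine ⟨(vf ⟨x, hx, hx0⟩, lf ⟨x, hx, hx0⟩), ?_⟩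
    have h : ∃ x', (vf x', lf x') = (vf ⟨x, hx, hx0⟩, lf ⟨x, hx, hx0⟩) := ⟨_, rfl⟩
    simp only [rep]
    rw [dif_pos h]
    exact hinj ⟨x, hx, hx0⟩ h.choose h.choose_spec.symm
  set S' : Finset K := Finset.univ.image rep with hS'
  have hfd4 : FiniteDimensional F (IntermediateField.adjoin F (S' : Set K)) :=
    IntermediateField.finiteDimensional_adjoin (fun x _ => Algebra.IsIntegral.isIntegral x)
  set E1 := E ⊔ IntermediateField.adjoin F (S' : Set K) with hE1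
  have hfd5 : FiniteDimensional F E1 := IntermediateField.finiteDimensional_sup _ _
  have hE21 : E ≤ E1 := le_sup_left
  have hrepE1 : ∀ v, rep v ∈ E1 := by
    intro v
    apply (le_sup_right : IntermediateField.adjoin F (S' : Set K) ≤ E1)
    apply IntermediateField.subset_adjoin
    rw [hS', Finset.coe_image]
    exact ⟨v, by simp, rfl⟩
  have hEM' : E ≤ M' := by
    intro x hx
    rw [hM'mem]
    exact ⟨Z.E_le_L _ hx, fun i => (IntermediateField.mem_fixingSubgroup_iff E _).mp (r i).2 x hx⟩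
  have hE1M : E1 ≤ M' := by
    rw [hE1, sup_le_iff]
    refine ⟨hEM', ?_⟩
    rw [IntermediateField.adjoin_le_iff]
    intro x hx
    rw [hS', Finset.coe_image] at hx
    obtain ⟨v, -, rfl⟩ := hx
    exact (hrepM v).1
  have hstab' : ∀ σ : E.fixingSubgroup, ∀ x ∈ M', (σ : K ≃ₐ[F] K) x ∈ M' := by
    intro σ x hx
    rw [hM'mem] at hx ⊢
    refine ⟨Z.stab σ hx.1, fun i => ?_⟩
    rw [Z.comm _ _ hx.1, hx.2 i]
  have Si : Sit p ζ E1 M' :=
    { ζE := hE21 hζE
      neg := TT_mono hE21 hneg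
      le := hE1M
      stab := fun σ hσ => hstab' ⟨σ, IntermediateField.fixingSubgroup_antitone hE21 hσ⟩
      rep := fun x hx hx0 => by
        obtain ⟨v, hv⟩ := hrep x hx hx0
        exact ⟨rep v, hrepE1 v, (hrepM v).2, hv⟩ }
  have hMtop : M' ≠ ⊤ := by
    intro h
    rcases hninj with he | ⟨σ, hσ1, hσ⟩
    · -- `r 0` acts nontrivially
      have h1 : r ⟨0, he⟩ = 1 := by
        apply Subtype.ext
        ext x
        have hx : x ∈ M' := by rw [h]; exact IntermediateField.mem_top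
        exact ((hM'mem x).mp hx).2 ⟨0, he⟩
      have h2 : φ (r ⟨0, he⟩) (Fin.castSucc ⟨0, he⟩) = 0 := by rw [h1, Z.one]; rfl
      simp only [r] at h2
      rw [Z.mul, Z.inv, Z.pow, htl, ht, ht, Pi.add_apply, Pi.neg_apply, Pi.smul_apply,
        Pi.single_eq_same, Pi.single_apply, if_neg (Fin.castSucc_lt_last _).ne, smul_zero,
        neg_zero, zero_add] at h2
      exact one_ne_zero h2
    · apply hσ1
      apply Subtype.ext
      ext x
      have hx : x ∈ M' := by rw [h]; exact IntermediateField.mem_top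
      exact Z.mem_M.mp (hM'M hx) σ hσ
  have hMinf : ¬ FiniteDimensional F M' := by
    intro hfd
    obtain ⟨l, hl⟩ := Z.le_Ll hM'M
    have hML := hl l le_rfl
    let χ : Fin (e + 1) → ℤ_[p] := Fin.lastCases 1 (fun i => (p : ℤ_[p]) ^ q i)
    have hχl : χ (Fin.last e) = 1 := Fin.lastCases_last
    have hχi : ∀ i : Fin e, χ i.castSucc = (p : ℤ_[p]) ^ q i := fun i => Fin.lastCases_castSucc i
    have hsum : ∀ i : Fin (e + 1), ∀ a : ℤ_[p],
        ∑ c, χ c * (a • (Pi.single i 1 : Fin (e + 1) → ℤ_[p])) c = χ i * a := by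
      intro i a
      rw [Finset.sum_eq_single i]
      · simp
      · intro c _ hc
        rw [Pi.smul_apply, Pi.single_apply, if_neg hc]; simp
      · intro h; exact absurd (Finset.mem_univ i) h
    have hφtl : ∀ n : ℕ, φ (tl ^ (p ^ n)) = ((p : ℤ_[p]) ^ n) • (Pi.single (Fin.last e) 1 : Fin (e + 1) → ℤ_[p]) := by
      intro n
      rw [Z.pow, htl, ht]
      funext c
      simp [nsmul_eq_mul]
    obtain ⟨w, hw, hwm⟩ := Z.exists_moved (Rq_open χ (l + 1)) (σ := tl ^ (p ^ l)) (by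
      intro h
      have h1 : (p : ℤ_[p]) ^ (l + 1) ∣ ∑ c, χ c * φ (tl ^ (p ^ l)) c := h
      rw [hφtl, hsum, hχl, one_mul, pow_dvd_pow_iff (by exact_mod_cast hp.ne_zero)
        PadicInt.prime_p.not_isUnit] at h1
      omega)
    have hwM' : w ∈ M' := by
      rw [hM'mem]
      refine ⟨Z.L_le_M _ hw, fun i => ?_⟩
      apply Z.mem_L.mp hw
      change (p : ℤ_[p]) ^ (l + 1) ∣ ∑ c, χ c * φ (r i) c
      have h1 : φ (r i) = (1 : ℤ_[p]) • (Pi.single i.castSucc 1 : Fin (e + 1) → ℤ_[p]) -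
          ((p : ℤ_[p]) ^ q i) • (Pi.single (Fin.last e) 1 : Fin (e + 1) → ℤ_[p]) := by
        simp only [r]
        rw [Z.mul, Z.inv, hφtl, ht, one_smul]
        abel
      have h2 : ∑ c, χ c * φ (r i) c = 0 := by
        rw [h1]
        have h3 : ∀ c, χ c * ((1 : ℤ_[p]) • (Pi.single i.castSucc 1 : Fin (e + 1) → ℤ_[p]) -
            ((p : ℤ_[p]) ^ q i) • (Pi.single (Fin.last e) 1 : Fin (e + 1) → ℤ_[p])) c =
            χ c * ((1 : ℤ_[p]) • (Pi.single i.castSucc 1 : Fin (e + 1) → ℤ_[p])) c -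
            χ c * (((p : ℤ_[p]) ^ q i) • (Pi.single (Fin.last e) 1 : Fin (e + 1) → ℤ_[p])) c := by
          intro c
          rw [Pi.sub_apply, mul_sub]
        rw [Finset.sum_congr rfl (fun c _ => h3 c), Finset.sum_sub_distrib, hsum, hsum, hχl, hχi]
        ring
      rw [h2]
      exact dvd_zero _
    apply hwm
    apply Z.mem_L.mp (hML hwM')
    rw [hφtl]
    intro c
    rw [Pi.smul_apply, smul_eq_mul]
    exact Dvd.intro _ rfl
  refine concl_of_sit Cx Si hMtop hMinf S' (fun x hx hx0 => ?_)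
  obtain ⟨v, hv⟩ := hrep x hx hx0
  exact ⟨rep v, by rw [hS']; exact Finset.mem_image_of_mem _ (Finset.mem_univ v), hv⟩


end Pool.Agent.Helper25.ETC
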