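import Pool.Agent.Helper25.ETCKum
import Pool.Agent.Helper25.ETCSpec
import Pool.Agent.Helper74.RG.DefsK

/-!
# Arithmetic blocks for the rank gradient theorem
-/

set_option autoImplicit false

namespace Pool.Agent.Helper25.ETC.RG

open Finset Module Pool.Agent.Helper25.ETC Pool.Agent.Helper74.RG

variable {F K : Type} [Field F] [Field K] [Algebra F K] {p : ℕ} [Fact p.Prime] {s : ℕ} {ζ : K}
  {E : IntermediateField F K} {φ : E.fixingSubgroup → (Fin s → ℤ_[p])}

/-- K1 -/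
theorem exists_KD (Cx : Ctx p F K ζ) (E : IntermediateField F K) [FiniteDimensional F E]
    (z : ℕ → F) (hz : ∀ k, IsPrimitiveRoot (z k) (p ^ k)) (hz' : ∀ k, z (k + 1) ^ p = z k) {s : ℕ}
    (hcard : Nat.card (PC p E) = p ^ s) :
    ∃ φ : E.fixingSubgroup → (Fin s → ℤ_[p]), KD E φ := by
  obtain ⟨φ, Z, h⟩ := exists_kummer Cx hz hz' hcard
  exact ⟨φ, ⟨Z, h⟩⟩

/-- the box is the space of classes fixed by the `p ^ k`-th powers of the lifts. -/
theorem mem_box_iff [IsGalois F K] [FiniteDimensional F E]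
    (X : KD E φ) (hgal : ∀ (σ : K ≃ₐ[F] K), ∀ x ∈ E, σ x ∈ E) (k : ℕ) (u : VV p X.Z.M) :
    u ∈ box ((X.dat hgal).T (X.rep hgal)) (p ^ k) ↔
      ∀ i, X.rep hgal (((X.dat hgal).t i : K ≃ₐ[F] K) ^ (p ^ k)) u = u := by
  rw [mem_box]
  apply forall_congr'
  intro i
  have h1 : ((X.dat hgal).T (X.rep hgal) i) ^ (p ^ k) =
      (X.rep hgal ((X.dat hgal).t i : K ≃ₐ[F] K)) ^ (p ^ k) - 1 := autV_sub_pow _ k
  rw [h1, LinearMap.sub_apply, Module.End.one_apply, sub_eq_zero, map_pow]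

theorem phi_pow [IsGalois F K] [FiniteDimensional F E]
    (X : KD E φ) (hgal : ∀ (σ : K ≃ₐ[F] K), ∀ x ∈ E, σ x ∈ E) (k : ℕ) (i : Fin s) :
    φ (((X.dat hgal).t i : E.fixingSubgroup) ^ (p ^ k)) ∈ Rl p s k := by
  have h3 : φ (((X.dat hgal).t i : E.fixingSubgroup) ^ (p ^ k)) =
      (p ^ k) • (Pi.single i 1 : Fin s → ℤ_[p]) :=
    (X.Z.pow ((X.dat hgal).t i) (p ^ k)).trans
      (congrArg (fun v => (p ^ k) • v) ((X.dat hgal).ht i))
  intro l
  rw [h3, Pi.smul_apply, nsmul_eq_mul]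
  push_cast
  exact Dvd.intro _ rfl

/-- K3 -/
theorem KD.box_le [IsGalois F K] (Cx : Ctx p F K ζ) (hζE : ζ ∈ E) [FiniteDimensional F E]
    (X : KD E φ) (hgal : ∀ (σ : K ≃ₐ[F] K), ∀ x ∈ E, σ x ∈ E) (k : ℕ) {m : ℕ}
    (hm : Nat.card (PC p (X.Z.L (Rl p s k))) = p ^ m) :
    FiniteDimensional (ZMod p) (box ((X.dat hgal).T (X.rep hgal)) (p ^ k)) ∧
    finrank (ZMod p) (box ((X.dat hgal).T (X.rep hgal)) (p ^ k)) ≤ m + s * s := by
  obtain ⟨h1, h2⟩ := X.Z.dim_bound Cx hζE (X.dat hgal).ht k hm (fun i => X.stabM hgal _)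
  have hle : box ((X.dat hgal).T (X.rep hgal)) (p ^ k) ≤
      InvV p (fun i => ((((X.dat hgal).t i) ^ (p ^ k) : E.fixingSubgroup) : K ≃ₐ[F] K)) X.Z.M
        (fun i => X.stabM hgal _) := by
    intro u hu
    rw [mem_InvV]
    intro i
    exact (mem_box_iff X hgal k u).mp hu i
  refine ⟨Submodule.finiteDimensional_of_le hle, (Submodule.finrank_mono hle).trans h2⟩

/-- K5 -/
theorem KD.le_box [IsGalois F K] (Cx : Ctx p F K ζ) (_hζE : ζ ∈ E) [FiniteDimensional F E]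
    (X : KD E φ) (hgal : ∀ (σ : K ≃ₐ[F] K), ∀ x ∈ E, σ x ∈ E) (k : ℕ) {m : ℕ}
    (hm : Nat.card (PC p (X.Z.L (Rl p s k))) = p ^ m)
    (hfin : FiniteDimensional (ZMod p) (box ((X.dat hgal).T (X.rep hgal)) (p ^ k))) :
    m ≤ finrank (ZMod p) (box ((X.dat hgal).T (X.rep hgal)) (p ^ k)) + s := by
  classical
  have hp := Cx.hp
  have hζ := Cx.hζ
  set L := X.Z.L (Rl p s k) with hL
  have hle : L ≤ X.Z.M := X.Z.L_le_M _
  set τ : Fin s → (K ≃ₐ[F] K) := fun i => ((X.dat hgal).t i : K ≃ₐ[F] K) ^ (p ^ k) with hτ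
  have hτL : ∀ i, ∀ x ∈ L, τ i x = x := by
    intro i x hx
    exact X.Z.mem_L.mp hx (((X.dat hgal).t i : E.fixingSubgroup) ^ (p ^ k)) (phi_pow X hgal k i)
  have hLτ : ∀ x ∈ X.Z.M, (∀ i, τ i x = x) → x ∈ L := by
    intro x hx h
    exact X.Z.mem_Ll (X.dat hgal).ht hx h
  have hfinV : Finite (VV p L) := by
    have h : Nat.card (VV p L) ≠ 0 := by
      change Nat.card (PC p L) ≠ 0
      rw [hm]
      exact pow_ne_zero _ hp.ne_zero
    exact Nat.finite_of_card_ne_zero h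
  have fL : FiniteDimensional (ZMod p) (VV p L) := Module.Finite.of_finite
  have hcm : finrank (ZMod p) (VV p L) = m := by
    have h2 : Nat.card (VV p L) = Nat.card (ZMod p) ^ finrank (ZMod p) (VV p L) :=
      Module.natCard_eq_pow_finrank
    have h3 : Nat.card (VV p L) = p ^ m := hm
    rw [h3, Nat.card_zmod] at h2
    exact (Nat.pow_right_injective hp.two_le h2).symm
  set inc := incV p hle with hinc
  have hrange : LinearMap.range inc ≤ box ((X.dat hgal).T (X.rep hgal)) (p ^ k) := by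
    rintro _ ⟨u, rfl⟩
    rw [mem_box_iff]
    intro i
    obtain ⟨x, hx, hx0, rfl⟩ := mkc_mku_surj u
    rw [hinc, incV_mkc, X.rep_apply]
    apply mkc_eq_of_val
    rw [mku_val, mku_val]
    exact hτL i x hx
  have hker : ∀ u : LinearMap.ker inc, ∃ (y : K) (c : Fin s → Fin p), y ∈ X.Z.M ∧ y ≠ 0 ∧
      (∃ (x : K) (hx : x ∈ L) (hx0 : x ≠ 0), y ^ p = x ∧ mkc p L (mku x hx hx0) = u) ∧
      ∀ i, τ i y = ζ ^ (c i : ℕ) * y := by
    intro u
    obtain ⟨x, hx, hx0, hu⟩ := mkc_mku_surj (u : VV p L)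
    have h1 : inc (u : VV p L) = 0 := LinearMap.mem_ker.mp u.2
    rw [← hu, hinc, incV_mkc, mkc_eq_zero] at h1
    obtain ⟨-, y, hy, hyp⟩ := h1
    rw [mku_val] at hyp
    have h2 : ∀ i, ∃ j < p, τ i y = ζ ^ j * y := by
      intro i
      apply exists_zeta_pow hp.pos hζ
      rw [← map_pow, hyp]
      exact hτL i x hx
    choose c hc hc2 using h2
    exact ⟨y, fun i => ⟨c i, hc i⟩, hy, pow_ne_zero_of hp.ne_zero (by rw [hyp]; exact hx0),
      ⟨x, hx, hx0, hyp, hu⟩, hc2⟩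
  choose y c hyM hy0 hyx hyc using hker
  have hcinj : Function.Injective c := by
    intro u v huv
    obtain ⟨x, hx, hx0, hyx1, hu⟩ := hyx u
    obtain ⟨x', hx', hx0', hyx2, hv⟩ := hyx v
    apply Subtype.ext
    rw [← hu, ← hv, mkc_mku_eq_iff hp.ne_zero]
    refine ⟨y u / y v, ?_, div_ne_zero (hy0 u) (hy0 v), ?_⟩
    · apply hLτ _ (X.Z.M.div_mem (hyM u) (hyM v))
      intro i
      rw [map_div₀, hyc u i, hyc v i, huv]
      have : ζ ^ (c v i : ℕ) ≠ 0 := pow_ne_zero _ (hζ.ne_zero hp.ne_zero)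
      rw [mul_div_mul_left _ _ this]
    · rw [div_pow, hyx1, hyx2]
      field_simp
  have hkc : Nat.card (LinearMap.ker inc) ≤ p ^ s := by
    refine (Nat.card_le_card_of_injective c hcinj).trans ?_
    rw [Nat.card_eq_fintype_card, Fintype.card_fun, Fintype.card_fin, Fintype.card_fin]
  have hkf : finrank (ZMod p) (LinearMap.ker inc) ≤ s := by
    have h2 : Nat.card (LinearMap.ker inc) =
      Nat.card (ZMod p) ^ finrank (ZMod p) (LinearMap.ker inc) := Module.natCard_eq_pow_finrank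
    rw [h2, Nat.card_zmod] at hkc
    exact (Nat.pow_le_pow_iff_right hp.one_lt).mp hkc
  have h1 := LinearMap.finrank_range_add_finrank_ker inc
  have h2 := Submodule.finrank_mono hrange
  rw [hcm] at h1
  omega

omit [Fact p.Prime] in
/-- K4a -/
theorem card_schreier (Cx : Ctx p F K ζ) {E E' : IntermediateField F K} (hζE : ζ ∈ E)
    (hle : E ≤ E') [FiniteDimensional F E'] {n μ : ℕ} (hn : Nat.card (PC p E) = p ^ n)
    (hdeg : finrank F E' = finrank F E * μ) :
    ∃ m, Nat.card (PC p E') = p ^ m ∧ m ≤ 1 + μ * (n - 1) := by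
  have hp := Cx.hp
  have key := tower_induction hp Cx.hζ Cx.pc hζE hle
    (fun A => ∃ k m, finrank F A = finrank F E * p ^ k ∧ Nat.card (PC p A) = p ^ m ∧
      m ≤ 1 + p ^ k * (n - 1))
    ⟨0, n, by simp, hn, by simp; omega⟩ ?_
  · obtain ⟨k, m, h1, h2, h3⟩ := key
    have hE0 : 0 < finrank F E := by
      have : FiniteDimensional F E := Module.Finite.of_injective
        (IntermediateField.inclusion hle).toLinearMap (IntermediateField.inclusion_injective hle)
      exact finrank_pos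
    rw [h1] at hdeg
    have h4 := Nat.eq_of_mul_eq_mul_left hE0 hdeg
    refine ⟨m, h2, ?_⟩
    rw [← h4]
    exact h3
  · rintro A B β hEA hBE' St ⟨k, m, h1, h2, h3⟩
    have : FiniteDimensional F B := Module.Finite.of_injective
        (IntermediateField.inclusion hBE').toLinearMap (IntermediateField.inclusion_injective hBE')
    obtain ⟨m', h4, h5⟩ := schreier_step Cx (hEA hζE) St h2
    refine ⟨k + 1, m', ?_, h4, ?_⟩
    · rw [finrank_step_eq Cx (hEA hζE) St, h1]; ring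
    · refine h5.trans ?_
      have h6 : m - 1 ≤ p ^ k * (n - 1) := by omega
      have h7 : p * (m - 1) ≤ p * (p ^ k * (n - 1)) := Nat.mul_le_mul_left p h6
      have h8 : p * (p ^ k * (n - 1)) = p ^ (k + 1) * (n - 1) := by rw [pow_succ]; ring
      omega

/-- the dimension does not drop in a Kummer step. -/
theorem step_mono (Cx : Ctx p F K ζ) {z : F} (hz : IsPrimitiveRoot z (p ^ 2))
    {A B : IntermediateField F K} {β : K} (hζA : ζ ∈ A) (St : Step p A B β) {n m : ℕ}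
    (hn : Nat.card (PC p A) = p ^ n) (hm : Nat.card (PC p B) = p ^ m) : n ≤ m := by
  classical
  have := Cx.pc.gal
  have hp := Cx.hp
  have hζ := Cx.hζ
  obtain ⟨σ, S⟩ := exists_stepAut (p := p) hp hζ hζA St.notMem St.pow_mem
  have hβ0 : β ≠ 0 := by rintro rfl; exact St.notMem A.zero_mem
  have fin_of : ∀ (C : IntermediateField F K) (k : ℕ), Nat.card (PC p C) = p ^ k →
      FiniteDimensional (ZMod p) (VV p C) ∧ finrank (ZMod p) (VV p C) = k := by
    intro C k hk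
    have hfinV : Finite (VV p C) := by
      have h : Nat.card (VV p C) ≠ 0 := by
        change Nat.card (PC p C) ≠ 0
        rw [hk]
        exact pow_ne_zero _ hp.ne_zero
      exact Nat.finite_of_card_ne_zero h
    have fL : FiniteDimensional (ZMod p) (VV p C) := Module.Finite.of_finite
    have h2 : Nat.card (VV p C) = Nat.card (ZMod p) ^ finrank (ZMod p) (VV p C) :=
      Module.natCard_eq_pow_finrank
    have h3 : Nat.card (VV p C) = p ^ k := hk
    rw [h3, Nat.card_zmod] at h2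
    exact ⟨fL, (Nat.pow_right_injective hp.two_le h2).symm⟩
  obtain ⟨fA, rA⟩ := fin_of A n hn
  obtain ⟨fB, rB⟩ := fin_of B m hm
  set i := incV p St.le with hi
  have hkeri : LinearMap.ker i ≤ Submodule.span (ZMod p)
      {mkc p A (mku (β ^ p) St.pow_mem (pow_ne_zero _ hβ0))} := by
    intro u hu
    obtain ⟨x, hx, hx0, rfl⟩ := mkc_mku_surj u
    rw [LinearMap.mem_ker, hi, incV_mkc, mkc_eq_zero] at hu
    obtain ⟨-, y, hyB, hy⟩ := hu
    rw [mku_val] at hy
    obtain ⟨k, -, d, hd, hyd⟩ := kummer_mem Cx hζA St hyB (by rw [hy]; exact hx)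
    have hd0 : d ≠ 0 := by
      rintro rfl
      rw [hyd] at hy
      apply hx0
      rw [← hy]
      simp [hp.ne_zero]
    have h3 : mkc p A (mku x hx hx0) =
        (k : ZMod p) • mkc p A (mku (β ^ p) St.pow_mem (pow_ne_zero _ hβ0)) := by
      have h5 : (k : ZMod p) • mkc p A (mku (β ^ p) St.pow_mem (pow_ne_zero _ hβ0)) =
          mkc p A (mku ((β ^ p) ^ k) (pow_mem St.pow_mem k)
            (pow_ne_zero k (pow_ne_zero _ hβ0))) := by
        rw [Nat.cast_smul_eq_nsmul (ZMod p)]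
        have h6 : k • mkc p A (mku (β ^ p) St.pow_mem (pow_ne_zero _ hβ0)) =
          mkc p A ((mku (β ^ p) St.pow_mem (pow_ne_zero _ hβ0)) ^ k) := rfl
        rw [h6]
        apply mkc_eq_of_val
        rw [Units.val_pow_eq_pow_val]
        rfl
      rw [h5, mkc_mku_eq_iff hp.ne_zero]
      refine ⟨d, hd, hd0, ?_⟩
      rw [← hy, hyd]
      ring
    rw [h3]
    exact Submodule.smul_mem _ _ (Submodule.mem_span_singleton_self _)
  have rk : finrank (ZMod p) (LinearMap.ker i) ≤ 1 := by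
    refine (Submodule.finrank_mono hkeri).trans ?_
    refine (finrank_span_le_card _).trans ?_
    simp
  -- the class of `β` is not in the image
  have hβi : mkc p B (mku β St.mem hβ0) ∉ LinearMap.range i := by
    rintro ⟨u, hu⟩
    obtain ⟨a, ha, ha0, rfl⟩ := mkc_mku_surj u
    rw [hi, incV_mkc, eq_comm, mkc_mku_eq_iff hp.ne_zero] at hu
    obtain ⟨b, hb, hb0, hbe⟩ := hu
    -- `σ b = w b`, `w ^ p = ζ`
    set Z : K := algebraMap F K z with hZ
    have hZp : IsPrimitiveRoot Z (p ^ 2) := hz.map_of_injective (algebraMap F K).injective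
    have h1 : (σ b) ^ p = ζ * b ^ p := by
      have h2 : σ β = ζ * β := S.act
      rw [hbe, map_mul, map_pow, S.fix a ha] at h2
      have h3 : a * (σ b ^ p) = a * (ζ * b ^ p) := by rw [h2]; ring
      exact mul_left_cancel₀ ha0 h3
    have h2 : (σ b / b) ^ (p ^ 2) = 1 := by
      rw [pow_two, pow_mul, div_pow, h1, mul_div_assoc, div_self (pow_ne_zero p hb0), mul_one,
        hζ.pow_eq_one]
    have : NeZero (p ^ 2) := ⟨pow_ne_zero 2 hp.ne_zero⟩
    obtain ⟨j, -, hj⟩ := hZp.eq_pow_of_pow_eq_one h2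
    have h4 : σ b = Z ^ j * b := by
      rw [hj]; field_simp
    have hσZ : ∀ k : ℕ, (σ ^ k) b = (Z ^ j) ^ k * b := by
      intro k
      induction k with
      | zero => simp
      | succ k ih =>
        rw [pow_succ, AlgEquiv.mul_apply, h4, map_mul, ih, map_pow, hZ, AlgEquiv.commutes]
        ring
    have h5 : (σ ^ p) b = b := step_pow St S hζ hζA hb
    rw [hσZ] at h5
    have h6 : (Z ^ j) ^ p = 1 := by
      have h7 : (Z ^ j) ^ p * b = 1 * b := by rw [h5, one_mul]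
      exact mul_right_cancel₀ hb0 h7
    have h8 : (σ b / b) ^ p = ζ := by
      rw [div_pow, h1, mul_div_assoc, div_self (pow_ne_zero p hb0), mul_one]
    rw [← hj, h6] at h8
    exact hζ.ne_one hp.one_lt h8.symm
  have hlt : LinearMap.range i < ⊤ := by
    rw [lt_top_iff_ne_top]
    intro h
    exact hβi (by rw [h]; trivial)
  have h1 := Submodule.finrank_lt hlt.ne
  have h2 := LinearMap.finrank_range_add_finrank_ker i
  omega

/-- K4b -/
theorem card_mono (Cx : Ctx p F K ζ) {z : F} (hz : IsPrimitiveRoot z (p ^ 2))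
    {E E' : IntermediateField F K} (hζE : ζ ∈ E)
    (hle : E ≤ E') [FiniteDimensional F E'] {n m : ℕ} (hn : Nat.card (PC p E) = p ^ n)
    (hm : Nat.card (PC p E') = p ^ m) : n ≤ m := by
  have hp := Cx.hp
  have key := tower_induction hp Cx.hζ Cx.pc hζE hle
    (fun A => ∃ m, Nat.card (PC p A) = p ^ m ∧ n ≤ m)
    ⟨n, hn, le_rfl⟩ ?_
  · obtain ⟨m', h1, h2⟩ := key
    rw [hm] at h1
    have h3 := Nat.pow_right_injective hp.two_le h1
    omega
  · rintro A B β hEA hBE' St ⟨m, h1, h2⟩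
    obtain ⟨m', h4, -⟩ := schreier_step Cx (hEA hζE) St h1
    exact ⟨m', h4, h2.trans (step_mono Cx hz (hEA hζE) St h1 h4)⟩

omit [Fact p.Prime] in
/-- the character of order `p ^ 2` attached to a Kummer step. -/
theorem step_char (Cx : Ctx p F K ζ) {z : F} (hz : IsPrimitiveRoot z (p ^ 2))
    {A B : IntermediateField F K} {β : K} (hζA : ζ ∈ A) (St : Step p A B β) :
    ∃ ψ : A.fixingSubgroup →* Multiplicative (ZMod (p ^ 2)), Function.Surjective ψ ∧
      (∀ x : A.fixingSubgroup, (x : K ≃ₐ[F] K) ∈ B.fixingSubgroup ↔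
        p ∣ (Multiplicative.toAdd (ψ x)).val) ∧
      (∀ x : A.fixingSubgroup, (∀ y : K, y ^ p ∈ B → (x : K ≃ₐ[F] K) y = y) → ψ x = 1) := by
  classical
  have := Cx.pc.gal
  have hp := Cx.hp
  have hζ := Cx.hζ
  have hp2 : NeZero (p ^ 2) := ⟨pow_ne_zero 2 hp.ne_zero⟩
  obtain ⟨σ₀, S⟩ := exists_stepAut (p := p) hp hζ hζA St.notMem St.pow_mem
  have hβ0 : β ≠ 0 := by rintro rfl; exact St.notMem A.zero_mem
  obtain ⟨γ, hγ⟩ := Cx.pc.root β
  have hγ0 : γ ≠ 0 := by
    rintro rfl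
    rw [zero_pow hp.ne_zero] at hγ
    exact hβ0 hγ.symm
  set Z : K := algebraMap F K z with hZ
  have hZp : IsPrimitiveRoot Z (p ^ 2) := hz.map_of_injective (algebraMap F K).injective
  have hσA : ∀ (σ : A.fixingSubgroup) (x : K), x ∈ A → (σ : K ≃ₐ[F] K) x = x := fun σ x hx =>
    (IntermediateField.mem_fixingSubgroup_iff A _).mp σ.2 x hx
  have hex : ∀ σ : A.fixingSubgroup, ∃ j : ℕ, (σ : K ≃ₐ[F] K) γ = Z ^ j * γ := by
    intro σ
    have h1 : ((σ : K ≃ₐ[F] K) γ / γ) ^ (p ^ 2) = 1 := by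
      have h2 : γ ^ (p ^ 2) = β ^ p := by rw [pow_two, pow_mul, hγ]
      rw [div_pow, ← map_pow, h2, hσA σ _ St.pow_mem, ← h2,
        div_self (pow_ne_zero _ hγ0)]
    obtain ⟨j, -, hj⟩ := hZp.eq_pow_of_pow_eq_one h1
    exact ⟨j, by rw [hj]; field_simp⟩
  choose j hj using hex
  have hZj : ∀ a b : ℕ, Z ^ a = Z ^ b ↔ (a : ZMod (p ^ 2)) = b := by
    intro a b
    rw [ZMod.natCast_eq_natCast_iff, hZp.eq_orderOf]
    exact (isOfFinOrder_iff_pow_eq_one.mpr
      ⟨p ^ 2, pow_pos hp.pos 2, hZp.pow_eq_one⟩).pow_eq_pow_iff_modEq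
  have hjn : ∀ (σ : A.fixingSubgroup) (n : ℕ), (σ : K ≃ₐ[F] K) γ = Z ^ n * γ →
      (j σ : ZMod (p ^ 2)) = n := by
    intro σ n h
    rw [← hZj]
    have h1 : Z ^ (j σ) * γ = Z ^ n * γ := by rw [← hj σ, h]
    exact mul_right_cancel₀ hγ0 h1
  have hmul : ∀ σ τ : A.fixingSubgroup, (j (σ * τ) : ZMod (p ^ 2)) = j σ + j τ := by
    intro σ τ
    rw [← Nat.cast_add]
    apply hjn
    change (σ : K ≃ₐ[F] K) ((τ : K ≃ₐ[F] K) γ) = _
    rw [hj τ, map_mul, map_pow, hZ, AlgEquiv.commutes, ← hZ, hj σ, pow_add]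
    ring
  let ψ : A.fixingSubgroup →* Multiplicative (ZMod (p ^ 2)) := MonoidHom.mk'
    (fun σ => Multiplicative.ofAdd (j σ : ZMod (p ^ 2))) (by
      intro σ τ
      change Multiplicative.ofAdd (j (σ * τ) : ZMod (p ^ 2)) =
        Multiplicative.ofAdd ((j σ : ZMod (p ^ 2)) + j τ)
      rw [hmul])
  have hψ : ∀ σ, Multiplicative.toAdd (ψ σ) = (j σ : ZMod (p ^ 2)) := fun σ => rfl
  -- action on `β`
  have hβj : ∀ σ : A.fixingSubgroup, (σ : K ≃ₐ[F] K) β = (Z ^ p) ^ (j σ) * β := by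
    intro σ
    rw [← hγ, map_pow, hj, mul_pow]
    ring
  have hfix : ∀ σ : A.fixingSubgroup, (σ : K ≃ₐ[F] K) ∈ B.fixingSubgroup ↔ p ∣ j σ := by
    intro σ
    have hZ1 : IsPrimitiveRoot (Z ^ p) p := hZp.pow (pow_pos hp.pos 2) (by rw [pow_two])
    rw [← hZ1.pow_eq_one_iff_dvd]
    constructor
    · intro h
      have h1 := (IntermediateField.mem_fixingSubgroup_iff B _).mp h β St.mem
      rw [hβj] at h1
      have h2 : (Z ^ p) ^ (j σ) * β = 1 * β := by rw [h1, one_mul]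
      exact mul_right_cancel₀ hβ0 h2
    · intro h
      rw [IntermediateField.mem_fixingSubgroup_iff]
      intro x hx
      obtain ⟨e, he, rfl⟩ := St.span x hx
      rw [map_sum]
      apply Finset.sum_congr rfl
      intro i _
      rw [map_mul, map_pow, hσA σ _ (he i), hβj, h, one_mul]
  refine ⟨ψ, ?_, ?_, ?_⟩
  · -- surjective
    have hσ₀A : σ₀ ∈ A.fixingSubgroup := by
      rw [IntermediateField.mem_fixingSubgroup_iff]
      exact S.fix
    have hnd : ¬ p ∣ j ⟨σ₀, hσ₀A⟩ := by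
      rw [← hfix, IntermediateField.mem_fixingSubgroup_iff]
      intro h
      have h1 : σ₀ β = β := h β St.mem
      rw [S.act] at h1
      have h2 : ζ * β = 1 * β := by rw [h1, one_mul]
      exact hζ.ne_one hp.one_lt (mul_right_cancel₀ hβ0 h2)
    have hun : IsUnit ((j ⟨σ₀, hσ₀A⟩ : ℕ) : ZMod (p ^ 2)) := by
      rw [ZMod.isUnit_iff_coprime]
      exact ((Nat.Prime.coprime_iff_not_dvd hp).mpr hnd).symm.pow_right 2
    obtain ⟨w, hw⟩ := hun.exists_right_inv
    intro v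
    refine ⟨⟨σ₀, hσ₀A⟩ ^ (w * Multiplicative.toAdd v).val, ?_⟩
    rw [map_pow]
    apply Multiplicative.toAdd.injective
    rw [toAdd_pow, hψ, nsmul_eq_mul, ZMod.natCast_val, ZMod.cast_id', id_eq]
    linear_combination (Multiplicative.toAdd v) * hw
  · intro σ
    rw [hfix, hψ, ZMod.val_natCast]
    have h1 : p ∣ p ^ 2 := dvd_pow_self p two_ne_zero
    rw [Nat.dvd_mod_iff h1]
  · intro σ h
    have h1 := h γ (by rw [hγ]; exact St.mem)
    apply Multiplicative.toAdd.injective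
    rw [hψ, toAdd_one]
    have h2 := hjn σ 0 (by rw [h1, pow_zero, one_mul])
    rw [h2, Nat.cast_zero]

/-- K2 -/
theorem KD.hasChain [IsGalois F K] (Cx : Ctx p F K ζ) {z : F} (hz : IsPrimitiveRoot z (p ^ 2))
    [FiniteDimensional F E] (X : KD E φ) (hgal : ∀ (σ : K ≃ₐ[F] K), ∀ x ∈ E, σ x ∈ E) :
    HasChain (X.dat hgal) := by
  classical
  have hp := Cx.hp
  have hζ := Cx.hζ
  -- `ζ` lies in `F`
  have hζbot : ζ ∈ (⊥ : IntermediateField F K) := by
    have h1 : IsPrimitiveRoot (z ^ p) p := hz.pow (pow_pos hp.pos 2) (by rw [pow_two])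
    have h2 : IsPrimitiveRoot (algebraMap F K (z ^ p)) p :=
      h1.map_of_injective (algebraMap F K).injective
    have : NeZero p := ⟨hp.ne_zero⟩
    obtain ⟨i, -, hi⟩ := h2.eq_pow_of_pow_eq_one hζ.pow_eq_one
    rw [← hi]
    exact pow_mem (IntermediateField.algebraMap_mem _ _) i
  have key := tower_induction hp hζ Cx.pc hζbot (bot_le : (⊥ : IntermediateField F K) ≤ E)
    (fun A => ∃ (n : ℕ) (U : ℕ → Subgroup (K ≃ₐ[F] K)), U 0 = A.fixingSubgroup ∧ U n = ⊤ ∧
      ∀ i < n, U i ≤ U (i + 1) ∧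
        ∃ ψ : U (i + 1) →* Multiplicative (ZMod (p ^ 2)), Function.Surjective ψ ∧
          (∀ x : U (i + 1), (x : K ≃ₐ[F] K) ∈ U i ↔ p ∣ (Multiplicative.toAdd (ψ x)).val) ∧
          (∀ x : U (i + 1), (x : K ≃ₐ[F] K) ∈ (X.dat hgal).A 1 → ψ x = 1))
    ⟨0, fun _ => ⊤, by rw [IntermediateField.fixingSubgroup_bot], rfl, fun i hi => by omega⟩ ?_
  · exact key
  · rintro A B β hEA hBE' St ⟨n, U, h0, h1, h2⟩
    obtain ⟨ψ, hψ1, hψ2, hψ3⟩ := step_char Cx hz (hEA hζbot) St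
    refine ⟨n + 1, fun i => Nat.casesOn i B.fixingSubgroup U, rfl, h1, ?_⟩
    intro i hi
    cases i with
    | succ i => exact h2 i (by omega)
    | zero =>
      change B.fixingSubgroup ≤ U 0 ∧ ∃ ψ : U 0 →* Multiplicative (ZMod (p ^ 2)),
        Function.Surjective ψ ∧
          (∀ x : U 0, (x : K ≃ₐ[F] K) ∈ B.fixingSubgroup ↔
            p ∣ (Multiplicative.toAdd (ψ x)).val) ∧
          (∀ x : U 0, (x : K ≃ₐ[F] K) ∈ (X.dat hgal).A 1 → ψ x = 1)
      rw [h0]
      refine ⟨IntermediateField.fixingSubgroup_antitone St.le, ψ, hψ1, hψ2, ?_⟩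
      intro x hx
      apply hψ3
      intro y hy
      have h3 : (x : K ≃ₐ[F] K) ∈ X.Z.W (Rl p s 1) := hx
      rw [X.mem_W] at h3
      apply h3.2
      rw [pow_one]
      exact hBE' hy

end Pool.Agent.Helper25.ETC.RG
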