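import Pool.Agent.Helper25.ETCSym
import Pool.Agent.Helper25.ETCKappa

/-!
# Rigid elements
-/

set_option autoImplicit false

namespace Pool.Agent.Helper25.ETC

open Polynomial Finset

variable {F K : Type*} [Field F] [Field K] [Algebra F K] {p : ℕ} {ζ : K}

/-- the norm group of `y` in `E`. -/
def ZZ (p : ℕ) (E : IntermediateField F K) (ζ y : K) : Set K :=
  {x | x ∈ E ∧ x ≠ 0 ∧ rel p E ζ y x}

/-- rigid elements (norm group as small as possible). -/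
structure Rig (p : ℕ) (E : IntermediateField F K) (ζ a : K) : Prop where
  mem : a ∈ E
  ne : a ≠ 0
  nT : a ∉ TT p E
  rig : ∀ b ∈ ZZ p E ζ a, ∃ i : ℤ, cg (TT p E) b (a ^ i)

section

variable {E L : IntermediateField F K} {α : K}

theorem ZZ_isMG (Cx : Ctx p F K ζ) (y : K) : IsMG (ZZ p E ζ y) where
  zero := fun h => h.2.1 rfl
  one := ⟨E.one_mem, one_ne_zero, rel_TT Cx TT_isMG.one⟩
  mul := fun hx hy => ⟨E.mul_mem hx.1 hy.1, mul_ne_zero hx.2.1 hy.2.1,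
    rel_mul hx.2.2 hy.2.2 Cx.hp Cx.hζ⟩
  inv := fun hx => ⟨E.inv_mem hx.1, inv_ne_zero hx.2.1, rel_inv Cx hx.1 hx.2.1 hx.2.2⟩

theorem TT_sub_ZZ (Cx : Ctx p F K ζ) (y : K) : TT p E ⊆ ZZ p E ζ y :=
  fun _ hx => ⟨TT_mem hx, hx.1, rel_TT Cx hx⟩

theorem ZZ_symm (Cx : Ctx p F K ζ) (hζE : ζ ∈ E) (hneg : (-1 : K) ∈ TT p E) {x y : K}
    (hy : y ∈ E) (hy0 : y ≠ 0) (hx : x ∈ ZZ p E ζ y) : y ∈ ZZ p E ζ x :=
  ⟨hy, hy0, rel_symm Cx hζE hneg hy hx.1 hy0 hx.2.1 hx.2.2⟩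

theorem self_mem_ZZ (Cx : Ctx p F K ζ) (hneg : (-1 : K) ∈ TT p E) {y : K} (hy : y ∈ E)
    (hy0 : y ≠ 0) : y ∈ ZZ p E ζ y := ⟨hy, hy0, rel_self Cx hneg⟩

theorem one_sub_mem_ZZ (Cx : Ctx p F K ζ) {y : K} (hy : y ∈ E) (hy0 : 1 - y ≠ 0) :
    1 - y ∈ ZZ p E ζ y := ⟨E.sub_mem E.one_mem hy, hy0, rel_one_sub Cx⟩

theorem ZZ_mono {E' : IntermediateField F K} (h : E ≤ E') {y : K} :
    ZZ p E ζ y ⊆ ZZ p E' ζ y := fun _ hx => ⟨h hx.1, hx.2.1, rel_mono h hx.2.2⟩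

theorem ZZ_cg (Cx : Ctx p F K ζ) {x x' y : K} (h : cg (TT p E) x x') :
    x ∈ ZZ p E ζ y ↔ x' ∈ ZZ p E ζ y := by
  have hT : IsMG (TT p E) := TT_isMG
  have hb := h.ne_right hT
  have e : x = (x / x') * x' := by field_simp
  rw [e, (ZZ_isMG Cx y).mul_left (TT_sub_ZZ Cx y h)]

theorem ZZ_root (Cx : Ctx p F K ζ) {x y : K} (hx : x ∈ E) (hx0 : x ≠ 0) {n : ℤ}
    (hn : ¬ (p : ℤ) ∣ n) (h : x ^ n ∈ ZZ p E ζ y) : x ∈ ZZ p E ζ y :=
  (ZZ_isMG Cx y).root Cx.hp hx0 (TT_sub_ZZ Cx y (pow_mem_TT hx hx0)) hn h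

theorem zpow_mem' {x : K} (hx : x ∈ E) (n : ℤ) : x ^ n ∈ E := zpow_mem hx n

theorem TT_zpow {x : K} (hx : x ∈ E) (hx0 : x ≠ 0) {n : ℤ} (hn : (p : ℤ) ∣ n) :
    x ^ n ∈ TT p E := TT_isMG.zpow_of_dvd (pow_mem_TT hx hx0) hn

/-- an element of `L` with norm `α ^ p`. -/
theorem exists_delta (Cx : Ctx p F K ζ) (hζE : ζ ∈ E) (hneg : (-1 : K) ∈ TT p E)
    {σ : K ≃ₐ[F] K} (S : StepAut E ζ α σ) :
    ∃ η ∈ E, η ≠ 0 ∧ nm p σ (η * α) = α ^ p := by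
  obtain ⟨-, ε, hε, hεp⟩ := hneg
  have hp := Cx.hp
  have hε0 : ε ≠ 0 := by
    rintro rfl; rw [zero_pow hp.ne_zero] at hεp; exact one_ne_zero (neg_eq_zero.mp hεp.symm)
  refine ⟨-ε, E.neg_mem hε, neg_ne_zero.mpr hε0, ?_⟩
  have h1 := prod_sub_zeta hp.pos Cx.hζ 0 (ε * α)
  rw [zero_pow hp.ne_zero, mul_pow, hεp] at h1
  have h2 := nm_eval Cx hζE S (g := C (-ε) * X) (coeff_mul_mem (coeff_C_mem (E.neg_mem hε)) (by
    intro n
    rw [coeff_X]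
    split_ifs
    · exact E.one_mem
    · exact E.zero_mem))
  simp only [eval_mul, eval_C, eval_X] at h2
  rw [h2]
  have h3 : ∏ j ∈ range p, -ε * (ζ ^ j * α) = ∏ j ∈ range p, (0 - ζ ^ j * (ε * α)) := by
    apply prod_congr rfl; intro j _; ring
  rw [h3, h1]; ring

/-- norm of `1 - sα`. -/
theorem nm_one_sub (Cx : Ctx p F K ζ) (hζE : ζ ∈ E) {σ : K ≃ₐ[F] K} (S : StepAut E ζ α σ)
    {s : K} (hs : s ∈ E) : nm p σ (1 - s * α) = 1 - s ^ p * α ^ p := by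
  have hp := Cx.hp
  have h1 := prod_sub_zeta hp.pos Cx.hζ 1 (s * α)
  rw [one_pow, mul_pow] at h1
  unfold nm
  rw [← h1]
  apply prod_congr rfl
  intro j _
  rw [map_sub, map_one, map_mul, pow_fix S.fix j s hs, S.act_pow hζE]
  ring

theorem nm_zpow {σ : K ≃ₐ[F] K} (x : K) (n : ℤ) : nm p σ (x ^ n) = nm p σ x ^ n := by
  cases n with
  | ofNat n => simpa using nm_pow (σ := σ) x n
  | negSucc n => rw [zpow_negSucc, zpow_negSucc, nm_inv, nm_pow]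

/-- norm of `α` up to `p`-th powers. -/
theorem nm_alpha (Cx : Ctx p F K ζ) (hζE : ζ ∈ E) (hneg : (-1 : K) ∈ TT p E)
    {σ : K ≃ₐ[F] K} (S : StepAut E ζ α σ) (hα0 : α ≠ 0) :
    cg (TT p E) (nm p σ α) (α ^ p) := by
  obtain ⟨η, hη, hη0, hN⟩ := exists_delta Cx hζE hneg S
  rw [nm_mul, nm_of_mem S.fix hη] at hN
  unfold cg
  rw [← hN]
  have h1 := nm_ne_zero (p := p) (σ := σ) hα0
  have e : nm p σ α / (η ^ p * nm p σ α) = (η ^ p)⁻¹ := by
    have : η ^ p ≠ 0 := pow_ne_zero _ hη0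
    field_simp
  rw [e]
  exact TT_isMG.inv (pow_mem_TT hη hη0)

/-- the subgroup `E* L^p`. -/
def HH (p : ℕ) (E L : IntermediateField F K) : Set K :=
  {x | ∃ c ∈ E, c ≠ 0 ∧ ∃ y ∈ L, y ≠ 0 ∧ x = c * y ^ p}

theorem HH_isMG : IsMG (HH p E L) where
  zero := by
    rintro ⟨c, -, hc, y, -, hy, h⟩
    exact mul_ne_zero hc (pow_ne_zero _ hy) h.symm
  one := ⟨1, E.one_mem, one_ne_zero, 1, L.one_mem, one_ne_zero, by simp⟩
  mul := by
    rintro x x' ⟨c, hcE, hc, y, hyL, hy, rfl⟩ ⟨c', hcE', hc', y', hyL', hy', rfl⟩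
    exact ⟨c * c', E.mul_mem hcE hcE', mul_ne_zero hc hc', y * y', L.mul_mem hyL hyL',
      mul_ne_zero hy hy', by ring⟩
  inv := by
    rintro x ⟨c, hcE, hc, y, hyL, hy, rfl⟩
    exact ⟨c⁻¹, E.inv_mem hcE, inv_ne_zero hc, y⁻¹, L.inv_mem hyL, inv_ne_zero hy, by
      rw [mul_inv, inv_pow]⟩

theorem TT_sub_HH (Cx : Ctx p F K ζ) : TT p L ⊆ HH p E L := by
  rintro x ⟨hx, y, hy, rfl⟩
  refine ⟨1, E.one_mem, one_ne_zero, y, hy, ?_, by simp⟩
  rintro rfl; exact hx (zero_pow Cx.hp.ne_zero)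

/-- norms of elements of `HH` are `p`-th powers. -/
theorem nm_HH (Cx : Ctx p F K ζ) (hζE : ζ ∈ E) (St : Step p E L α) {σ : K ≃ₐ[F] K}
    (S : StepAut E ζ α σ) {x : K} (hx : x ∈ HH p E L) : nm p σ x ∈ TT p E := by
  have := Cx.pc.gal
  obtain ⟨c, hcE, hc, y, hyL, hy, rfl⟩ := hx
  rw [nm_mul, nm_of_mem S.fix hcE, nm_pow]
  exact TT_isMG.mul (pow_mem_TT hcE hc)
    (pow_mem_TT (nm_mem St S Cx.hζ hζE Cx.hp hyL) (nm_ne_zero hy))

theorem nm_TT (Cx : Ctx p F K ζ) (hζE : ζ ∈ E) (St : Step p E L α) {σ : K ≃ₐ[F] K}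
    (S : StepAut E ζ α σ) {x : K} (hx : x ∈ TT p L) : nm p σ x ∈ TT p E :=
  nm_HH Cx hζE St S (TT_sub_HH Cx hx)

theorem nm_cg (Cx : Ctx p F K ζ) (hζE : ζ ∈ E) (St : Step p E L α) {σ : K ≃ₐ[F] K}
    (S : StepAut E ζ α σ) {x y : K} (h : cg (TT p L) x y) :
    cg (TT p E) (nm p σ x) (nm p σ y) := by
  have := nm_TT Cx hζE St S h
  unfold cg
  rwa [div_eq_mul_inv, nm_mul, nm_inv, ← div_eq_mul_inv] at this

/-- `sα ∉ E* L^p`. -/
theorem smul_notMem_HH (Cx : Ctx p F K ζ) (hζE : ζ ∈ E) (hneg : (-1 : K) ∈ TT p E)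
    (St : Step p E L α) {s : K} (hs : s ∈ E) (hs0 : s ≠ 0) {n : ℤ} (hn : ¬ (p : ℤ) ∣ n) :
    s * α ^ n ∉ HH p E L := by
  have := Cx.pc.gal
  obtain ⟨σ, S⟩ := exists_stepAut (p := p) Cx.hp Cx.hζ hζE St.notMem St.pow_mem
  have hα0 : α ≠ 0 := by rintro rfl; exact St.notMem E.zero_mem
  intro h
  have h1 := nm_HH Cx hζE St S h
  rw [nm_mul, nm_of_mem S.fix hs, TT_isMG.mul_left (pow_mem_TT hs hs0), nm_zpow] at h1
  have h2 := cg.zpow TT_isMG (nm_alpha Cx hζE hneg S hα0) n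
  rw [h2.mem_iff TT_isMG] at h1
  have h3 : α ^ p ∈ TT p E := by
    apply (TT_isMG (p := p) (E := E)).root Cx.hp (pow_ne_zero _ hα0) ?_ hn h1
    exact pow_mem_TT St.pow_mem (pow_ne_zero _ hα0)
  obtain ⟨_, y, hy, hyp⟩ := h3
  obtain ⟨j, -, hj⟩ := exists_zeta_pow Cx.hp.pos Cx.hζ hyp.symm
  apply St.notMem
  rw [hj]
  exact E.mul_mem (pow_mem hζE j) hy

/-- decomposition of `L*` for rigid `α ^ p`. -/
theorem rig_decomp (Cx : Ctx p F K ζ) (hζE : ζ ∈ E) (hneg : (-1 : K) ∈ TT p E)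
    (St : Step p E L α) (R : Rig p E ζ (α ^ p)) {w : K} (hw : w ∈ L) (hw0 : w ≠ 0) :
    ∃ i : ℤ, ∃ c ∈ E, c ≠ 0 ∧ ∃ y ∈ L, y ≠ 0 ∧ w = c * α ^ i * y ^ p := by
  have := Cx.pc.gal
  have hp := Cx.hp
  have hζ := Cx.hζ
  obtain ⟨σ, S⟩ := exists_stepAut (p := p) hp hζ hζE St.notMem St.pow_mem
  have hα0 : α ≠ 0 := by rintro rfl; exact St.notMem E.zero_mem
  have hζ0 : ζ ≠ 0 := hζ.ne_zero hp.ne_zero
  let f : Kˣ →* Kˣ := Units.map (σ : K →* K)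
  have hf : ∀ x : Kˣ, ((f x : Kˣ) : K) = σ x := fun x => rfl
  let A : Subgroup Kˣ :=
    { carrier := {u | (u : K) ∈ L}
      mul_mem' := by rintro a b ha hb; exact L.mul_mem ha hb
      one_mem' := L.one_mem
      inv_mem' := by
        rintro a ha
        show ((a⁻¹ : Kˣ) : K) ∈ L
        rw [Units.val_inv_eq_inv_val]; exact L.inv_mem ha }
  let SS : Subgroup Kˣ :=
    { carrier := {u | ∃ i : ℤ, ∃ c ∈ E, c ≠ 0 ∧ ∃ y ∈ L, y ≠ 0 ∧ (u : K) = c * α ^ i * y ^ p}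
      mul_mem' := by
        rintro a b ⟨i, c, hc, hc0, y, hy, hy0, hay⟩ ⟨j, d, hd, hd0, z, hz, hz0, hbz⟩
        exact ⟨i + j, c * d, E.mul_mem hc hd, mul_ne_zero hc0 hd0, y * z, L.mul_mem hy hz,
          mul_ne_zero hy0 hz0, by push_cast; rw [hay, hbz, zpow_add₀ hα0]; ring⟩
      one_mem' := ⟨0, 1, E.one_mem, one_ne_zero, 1, L.one_mem, one_ne_zero, by simp⟩
      inv_mem' := by
        rintro a ⟨i, c, hc, hc0, y, hy, hy0, hay⟩
        exact ⟨-i, c⁻¹, E.inv_mem hc, inv_ne_zero hc0, y⁻¹, L.inv_mem hy, inv_ne_zero hy0,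
          by rw [Units.val_inv_eq_inv_val, hay, mul_inv, mul_inv, inv_pow, zpow_neg]⟩ }
  have hσL : ∀ x ∈ L, σ x ∈ L := by
    intro x hx; have := step_stable St S hζE hx 1; rwa [pow_one] at this
  have key := group_lemma hp f A SS (fun x hx => hσL _ hx) ?_ ?_ ?_ ?_
  · exact key (Units.mk0 w hw0) hw
  · rintro x ⟨i, c, hc, hc0, y, hy, hy0, hxy⟩
    refine ⟨i, c * ζ ^ i, E.mul_mem hc (zpow_mem hζE i), mul_ne_zero hc0 (zpow_ne_zero _ hζ0),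
      σ y, hσL y hy, (_root_.map_ne_zero _).mpr hy0, ?_⟩
    rw [hf, hxy, map_mul, map_mul, map_pow, map_zpow₀, S.fix c hc, S.act, mul_zpow]
    ring
  · intro x hx
    have hNE : nm p σ (x : K) ∈ E := nm_mem St S hζ hζE hp hx
    have hN0 : nm p σ (x : K) ≠ 0 := nm_ne_zero x.ne_zero
    obtain ⟨i, hi⟩ := R.rig (nm p σ (x : K)) ⟨hNE, hN0, rel_of_nm Cx hζE St S hx⟩
    obtain ⟨-, d, hd, hdp⟩ := hi
    obtain ⟨η, hη, hη0, hηN⟩ := exists_delta Cx hζE hneg S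
    have hd0 : d ≠ 0 := by
      rintro rfl
      rw [zero_pow hp.ne_zero] at hdp
      have : nm p σ (x : K) = 0 := by
        rcases div_eq_zero_iff.mp hdp.symm with h | h
        · exact h
        · exact absurd h (zpow_ne_zero _ (pow_ne_zero _ hα0))
      exact hN0 this
    set s : K := (η * α) ^ i * d with hs
    have hs0 : s ≠ 0 := mul_ne_zero (zpow_ne_zero _ (mul_ne_zero hη0 hα0)) hd0
    have hsL : s ∈ L :=
      L.mul_mem (zpow_mem (L.mul_mem (St.le hη) St.mem) i) (St.le hd)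
    have hsN : nm p σ s = nm p σ (x : K) := by
      rw [hs, nm_mul, nm_zpow, hηN, nm_of_mem S.fix hd, hdp]
      have : (α ^ p) ^ i ≠ 0 := zpow_ne_zero _ (pow_ne_zero _ hα0)
      field_simp
    obtain ⟨v, hvL, hv0, hv⟩ := hilbert90 Cx hζE St S (L.div_mem hx hsL) (by
      rw [div_eq_mul_inv, nm_mul, nm_inv, hsN, mul_inv_cancel₀ hN0])
    have hσv0 : σ v ≠ 0 := (_root_.map_ne_zero _).mpr hv0
    refine ⟨Units.mk0 s hs0, ⟨i, η ^ i * d, E.mul_mem (zpow_mem hη i) hd,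
      mul_ne_zero (zpow_ne_zero _ hη0) hd0, 1, L.one_mem, one_ne_zero, ?_⟩,
      (Units.mk0 v hv0)⁻¹, A.inv_mem hvL, ?_⟩
    · simp only [Units.val_mk0]
      rw [hs, mul_zpow]; ring
    · apply Units.ext
      push_cast
      rw [map_inv, Units.val_inv_eq_inv_val, hf]
      simp only [Units.val_mk0]
      have h5 : (x : K) = v * s / σ v := by
        rw [eq_div_iff hσv0]
        have : (x : K) * σ v = s * ((x : K) / s * σ v) := by field_simp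
        rw [this, hv]; ring
      rw [h5]
      field_simp
  · intro x hx
    refine ⟨0, nm p σ (x : K), nm_mem St S hζ hζE hp hx, nm_ne_zero x.ne_zero, 1, L.one_mem,
      one_ne_zero, ?_⟩
    rw [one_pow, mul_one, zpow_zero, mul_one]
    unfold nm
    rw [Units.coe_prod]
    apply prod_congr rfl
    intro j _
    exact iterate_units σ x j
  · intro x hx
    exact ⟨0, 1, E.one_mem, one_ne_zero, x, hx, x.ne_zero, by push_cast; simp⟩

/-- elements outside `E* L^p` are rigid in `L`. -/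
theorem rig_up (Cx : Ctx p F K ζ) (hζE : ζ ∈ E) (hneg : (-1 : K) ∈ TT p E)
    (St : Step p E L α) (R : Rig p E ζ (α ^ p)) {w : K} (hw : w ∈ L) (hw0 : w ≠ 0)
    (hwH : w ∉ HH p E L) : Rig p L ζ w := by
  have := Cx.pc.gal
  have hp := Cx.hp
  have hζ := Cx.hζ
  have hTL : IsMG (TT p L) := TT_isMG
  have hTE : IsMG (TT p E) := TT_isMG
  have hζL := St.le hζE
  have hnegL : (-1 : K) ∈ TT p L := TT_mono St.le hneg
  obtain ⟨σ, S⟩ := exists_stepAut (p := p) hp hζ hζE St.notMem St.pow_mem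
  have hα0 : α ≠ 0 := by rintro rfl; exact St.notMem E.zero_mem
  obtain ⟨i, c, hc, hc0, y, hy, hy0, hwe⟩ := rig_decomp Cx hζE hneg St R hw hw0
  have hi : ¬ (p : ℤ) ∣ i := by
    rintro ⟨m, rfl⟩
    apply hwH
    refine ⟨c * (α ^ p) ^ m, E.mul_mem hc (zpow_mem St.pow_mem m),
      mul_ne_zero hc0 (zpow_ne_zero _ (pow_ne_zero _ hα0)), y, hy, hy0, ?_⟩
    rw [hwe, zpow_mul, zpow_natCast]
  set w1 : K := c * α ^ i with hw1
  have hw1L : w1 ∈ L := L.mul_mem (St.le hc) (zpow_mem St.mem i)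
  have hw10 : w1 ≠ 0 := mul_ne_zero hc0 (zpow_ne_zero _ hα0)
  have hww1 : cg (TT p L) w w1 := by
    unfold cg
    rw [hwe, mul_comm, mul_div_assoc, div_self hw10, mul_one]
    exact pow_mem_TT hy hy0
  refine ⟨hw, hw0, fun h => hwH (TT_sub_HH Cx h), fun v hv => ?_⟩
  obtain ⟨k, c', hc', hc'0, y', hy', hy'0, hve⟩ := rig_decomp Cx hζE hneg St R hv.1 hv.2.1
  have hcop : IsCoprime (p : ℤ) i :=
    (Nat.prime_iff_prime_int.mp hp).irreducible.coprime_iff_not_dvd.mpr hi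
  obtain ⟨q0, m0, hqm⟩ := hcop
  -- `i * j = k + p * q`
  set j : ℤ := m0 * k with hj
  set q : ℤ := -(q0 * k) with hq
  have hij : i * j = k + p * q := by rw [hj, hq]; linear_combination k * hqm
  set g : K := c' / (c ^ j * (α ^ p) ^ q) with hg
  have hgE : g ∈ E := E.div_mem hc' (E.mul_mem (zpow_mem hc j) (zpow_mem St.pow_mem q))
  have hg0 : g ≠ 0 := div_ne_zero hc'0 (mul_ne_zero (zpow_ne_zero _ hc0)
    (zpow_ne_zero _ (pow_ne_zero _ hα0)))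
  have hvg : cg (TT p L) (v / w1 ^ j) g := by
    unfold cg
    have e : v / w1 ^ j / g = y' ^ p := by
      have e2 : w1 ^ j = c ^ j * (α ^ k * (α ^ p) ^ q) := by
        rw [hw1, mul_zpow, ← zpow_mul α i j, hij, zpow_add₀ hα0, zpow_mul α (p : ℤ) q,
          zpow_natCast α p]
      rw [e2, hg, hve]
      field_simp
    rw [e]; exact pow_mem_TT hy' hy'0
  -- `v` commutes with `w1`
  have hwv : w ∈ ZZ p L ζ v := ZZ_symm Cx hζL hnegL hw hw0 hv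
  have hw1v : w1 ∈ ZZ p L ζ v := (ZZ_cg Cx hww1).mp hwv
  have hvw1 : v ∈ ZZ p L ζ w1 := ZZ_symm Cx hζL hnegL hv.1 hv.2.1 hw1v
  have hMG := ZZ_isMG (E := L) Cx w1
  have h1 : v / w1 ^ j ∈ ZZ p L ζ w1 :=
    hMG.div hvw1 (hMG.zpow (self_mem_ZZ Cx hnegL hw1L hw10) j)
  have h2 : g ∈ ZZ p L ζ w1 := (ZZ_cg Cx hvg).mp h1
  have h3 : w1 ∈ ZZ p L ζ g := ZZ_symm Cx hζL hnegL hw1L hw10 h2
  have h4 : rel p E ζ g (nm p σ w1) := rel_transfer Cx hζE St S hgE h3.2.2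
  have h5 : nm p σ w1 ∈ ZZ p E ζ g :=
    ⟨nm_mem St S hζ hζE hp hw1L, nm_ne_zero hw10, h4⟩
  have h6 : cg (TT p E) (nm p σ w1) ((α ^ p) ^ i) := by
    rw [hw1, nm_mul, nm_of_mem S.fix hc, nm_zpow]
    have h7 := cg.mul hTE (show cg (TT p E) (c ^ p) 1 by
      unfold cg; rw [div_one]; exact pow_mem_TT hc hc0)
      (cg.zpow hTE (nm_alpha Cx hζE hneg S hα0) i)
    rwa [one_mul] at h7
  have h7 : (α ^ p) ^ i ∈ ZZ p E ζ g := (ZZ_cg Cx h6).mp h5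
  have h8 : α ^ p ∈ ZZ p E ζ g := ZZ_root Cx St.pow_mem (pow_ne_zero _ hα0) hi h7
  obtain ⟨l, hl⟩ := R.rig g (ZZ_symm Cx hζE hneg hgE hg0 h8)
  have h9 : g ∈ TT p L := by
    rw [cg.mem_iff hTL (TT_mono St.le hl : cg (TT p L) g ((α ^ p) ^ l))]
    exact hTL.zpow (pow_mem_TT St.mem hα0) l
  refine ⟨j, ?_⟩
  have h10 : cg (TT p L) v (w1 ^ j) := by
    unfold cg
    rwa [hvg.mem_iff hTL]
  exact cg.trans hTL h10 (cg.symm hTL (cg.zpow hTL hww1 j))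

theorem cg_zpow_eq {x : K} (hx : x ∈ E) (hx0 : x ≠ 0) {m n : ℤ} (h : (p : ℤ) ∣ m - n) :
    cg (TT p E) (x ^ m) (x ^ n) := by
  unfold cg
  rw [← zpow_sub₀ hx0]
  exact TT_zpow hx hx0 h

theorem Rig.pow_mem (R : Rig p E ζ α) (Cx : Ctx p F K ζ) {m : ℤ} (h : α ^ m ∈ TT p E) :
    (p : ℤ) ∣ m := by
  by_contra hm
  exact R.nT ((TT_isMG (p := p) (E := E)).root Cx.hp R.ne (pow_mem_TT R.mem R.ne) hm h)

theorem Rig.congr (Cx : Ctx p F K ζ) (hζE : ζ ∈ E) (hneg : (-1 : K) ∈ TT p E) {a c : K}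
    (R : Rig p E ζ a) (hc : c ∈ E) (hc0 : c ≠ 0) {j : ℤ} (hj : ¬ (p : ℤ) ∣ j)
    (h : cg (TT p E) c (a ^ j)) : Rig p E ζ c := by
  have hT : IsMG (TT p E) := TT_isMG
  refine ⟨hc, hc0, ?_, fun b hb => ?_⟩
  · intro hcT
    rw [h.mem_iff hT] at hcT
    exact hj (R.pow_mem Cx hcT)
  · have h1 : c ∈ ZZ p E ζ b := ZZ_symm Cx hζE hneg hc hc0 hb
    have h2 : a ∈ ZZ p E ζ b := ZZ_root Cx R.mem R.ne hj ((ZZ_cg Cx h).mp h1)
    obtain ⟨i, hi⟩ := R.rig b (ZZ_symm Cx hζE hneg hb.1 hb.2.1 h2)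
    have hcop : IsCoprime (p : ℤ) j :=
      (Nat.prime_iff_prime_int.mp Cx.hp).irreducible.coprime_iff_not_dvd.mpr hj
    obtain ⟨q, m, hqm⟩ := hcop
    refine ⟨m * i, cg.trans hT hi ?_⟩
    have h3 : cg (TT p E) (c ^ (m * i)) ((a ^ j) ^ (m * i)) := cg.zpow hT h _
    refine cg.trans hT ?_ (cg.symm hT h3)
    rw [← zpow_mul]
    apply cg_zpow_eq R.mem R.ne
    refine ⟨q * i, ?_⟩
    linear_combination -i * hqm

/-- the exponent of `1 - sα` in `L`. -/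
theorem exp_lift (Cx : Ctx p F K ζ) (hζE : ζ ∈ E) (hneg : (-1 : K) ∈ TT p E)
    (St : Step p E L α) (R : Rig p E ζ (α ^ p)) {s : K} (hs : s ∈ E) (hs0 : s ≠ 0) {i : ℤ}
    (h : cg (TT p E) (1 - s ^ p * α ^ p) ((s ^ p * α ^ p) ^ i)) :
    cg (TT p L) (1 - s * α) ((s * α) ^ i) := by
  have := Cx.pc.gal
  have hp := Cx.hp
  have hTL : IsMG (TT p L) := TT_isMG
  have hTE : IsMG (TT p E) := TT_isMG
  obtain ⟨σ, S⟩ := exists_stepAut (p := p) hp Cx.hζ hζE St.notMem St.pow_mem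
  have hα0 : α ≠ 0 := by rintro rfl; exact St.notMem E.zero_mem
  have hsα0 : s * α ≠ 0 := mul_ne_zero hs0 hα0
  have hsαL : s * α ∈ L := L.mul_mem (St.le hs) St.mem
  have h1 : ¬ (p : ℤ) ∣ 1 := by
    intro h
    exact hp.one_lt.ne' (by exact_mod_cast Int.eq_one_of_dvd_one (by positivity) h)
  have hnH : s * α ∉ HH p E L := by
    have := smul_notMem_HH Cx hζE hneg St hs hs0 h1
    rwa [zpow_one] at this
  have hR := rig_up Cx hζE hneg St R hsαL hsα0 hnH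
  have hne : 1 - s * α ≠ 0 := by
    intro he
    apply hnH
    have : s * α = 1 := by linear_combination -he
    rw [this]; exact HH_isMG.one
  obtain ⟨m, hm⟩ := hR.rig _ (one_sub_mem_ZZ Cx hsαL hne)
  have h2 := nm_cg Cx hζE St S hm
  rw [nm_one_sub Cx hζE S hs, nm_zpow, nm_mul, nm_of_mem S.fix hs] at h2
  have h3 : cg (TT p E) ((s ^ p * nm p σ α) ^ m) ((s ^ p * α ^ p) ^ m) :=
    cg.zpow hTE (cg.mul hTE (cg.refl hTE (pow_ne_zero _ hs0)) (nm_alpha Cx hζE hneg S hα0)) m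
  have h4 : cg (TT p E) ((s ^ p * α ^ p) ^ i) ((s ^ p * α ^ p) ^ m) :=
    cg.trans hTE (cg.symm hTE h) (cg.trans hTE h2 h3)
  have hsE0 : s ^ p * α ^ p ≠ 0 := mul_ne_zero (pow_ne_zero _ hs0) (pow_ne_zero _ hα0)
  have hsE : s ^ p * α ^ p ∈ E := E.mul_mem (pow_mem hs p) St.pow_mem
  have hR2 : Rig p E ζ (s ^ p * α ^ p) := by
    refine Rig.congr Cx hζE hneg R hsE hsE0 h1 ?_
    unfold cg
    rw [zpow_one, mul_div_assoc, div_self (pow_ne_zero _ hα0), mul_one]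
    exact pow_mem_TT hs hs0
  have h5 : (p : ℤ) ∣ i - m := by
    apply hR2.pow_mem Cx
    unfold cg at h4
    rwa [← zpow_sub₀ hsE0] at h4
  refine cg.trans hTL hm (cg_zpow_eq hsαL hsα0 ?_)
  have := (Int.dvd_neg).mpr h5
  rwa [neg_sub] at this

/-- **dichotomy**: a rigid element with exponent `≠ 0, 1` forces total rigidity. -/
theorem tot_of_rig (Cx : Ctx p F K ζ) (hζE : ζ ∈ E) (hneg : (-1 : K) ∈ TT p E)
    {a : K} (R : Rig p E ζ a) {i : ℤ} (hi : cg (TT p E) (1 - a) (a ^ i))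
    (hi0 : ¬ (p : ℤ) ∣ i) (hi1 : ¬ (p : ℤ) ∣ 1 - i) {r : K} (hr : r ∈ E) (hr0 : r ≠ 0)
    (hrT : r ∉ TT p E) : ∃ j : ℤ, cg (TT p E) (1 - r) (r ^ j) := by
  have := Cx.pc.gal
  have hp := Cx.hp
  have hTE : IsMG (TT p E) := TT_isMG
  have h1r : 1 - r ≠ 0 := by
    intro he
    apply hrT
    have : r = 1 := by linear_combination -he
    rw [this]; exact hTE.one
  have h1p : ¬ (p : ℤ) ∣ 1 := by
    intro h
    exact hp.one_lt.ne' (by exact_mod_cast Int.eq_one_of_dvd_one (by positivity) h)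
  have hrr := one_sub_mem_ZZ Cx hr h1r
  by_cases hra : ∃ j : ℤ, cg (TT p E) r (a ^ j)
  · obtain ⟨j, hj⟩ := hra
    have hj0 : ¬ (p : ℤ) ∣ j := by
      intro hd
      apply hrT
      rw [hj.mem_iff hTE]
      exact TT_zpow R.mem R.ne hd
    exact (Rig.congr Cx hζE hneg R hr hr0 hj0 hj).rig _ hrr
  push Not at hra
  obtain ⟨α, rfl⟩ := Cx.pc.root a
  have hα0 : α ≠ 0 := by
    rintro rfl; exact R.ne (zero_pow hp.ne_zero)
  have hαE : α ∉ E := fun h => R.nT (pow_mem_TT h hα0)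
  obtain ⟨L, St, -⟩ := exists_step hp.ne_zero E hαE R.mem
  obtain ⟨σ, S⟩ := exists_stepAut (p := p) hp Cx.hζ hζE St.notMem St.pow_mem
  have hTL : IsMG (TT p L) := TT_isMG
  have hζL := St.le hζE
  have hnegL : (-1 : K) ∈ TT p L := TT_mono St.le hneg
  have hrL := St.le hr
  -- exponent of `r^p a`
  set c : K := r ^ p * α ^ p with hc
  have hcE : c ∈ E := E.mul_mem (pow_mem hr p) R.mem
  have hc0 : c ≠ 0 := mul_ne_zero (pow_ne_zero _ hr0) (pow_ne_zero _ hα0)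
  have hRc : Rig p E ζ c := by
    refine Rig.congr Cx hζE hneg R hcE hc0 h1p ?_
    unfold cg
    rw [hc, zpow_one, mul_div_assoc, div_self (pow_ne_zero _ hα0), mul_one]
    exact pow_mem_TT hr hr0
  have h1c : 1 - c ≠ 0 := by
    intro he
    apply hRc.nT
    have : c = 1 := by linear_combination -he
    rw [this]; exact hTE.one
  obtain ⟨i', hi'⟩ := hRc.rig _ (one_sub_mem_ZZ Cx hcE h1c)
  have e1 : cg (TT p L) (1 - α) (α ^ i) := by
    have := exp_lift Cx hζE hneg St R E.one_mem one_ne_zero (i := i)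
      (by rw [one_pow, one_mul]; exact hi)
    rwa [one_mul] at this
  have e2 : cg (TT p L) (1 - r * α) ((r * α) ^ i') := exp_lift Cx hζE hneg St R hr hr0 hi'
  have h1α := e1.ne_left hTL
  have h1rα := e2.ne_left hTL
  set x : K := (1 - r * α) / (1 - α) with hx
  have hx0 : x ≠ 0 := div_ne_zero h1rα h1α
  have hxL : x ∈ L := L.div_mem (L.sub_mem L.one_mem (L.mul_mem hrL St.mem))
    (L.sub_mem L.one_mem St.mem)
  have h1x : 1 - x = α * (r - 1) / (1 - α) := by rw [hx]; field_simp; ring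
  have hr1 : r - 1 ≠ 0 := by intro h; apply h1r; linear_combination -h
  have h1x0 : 1 - x ≠ 0 := by
    rw [h1x]; exact div_ne_zero (mul_ne_zero hα0 hr1) h1α
  have hxx := one_sub_mem_ZZ Cx hxL h1x0
  set U : K := r ^ i' * α ^ (i' - i) with hU
  set V : K := (r - 1) * α ^ (1 - i) with hV
  have hr1E : r - 1 ∈ E := E.sub_mem hr E.one_mem
  have hU0 : U ≠ 0 := mul_ne_zero (zpow_ne_zero _ hr0) (zpow_ne_zero _ hα0)
  have hUL : U ∈ L := L.mul_mem (zpow_mem hrL _) (zpow_mem St.mem _)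
  have hV0 : V ≠ 0 := mul_ne_zero hr1 (zpow_ne_zero _ hα0)
  have cU : cg (TT p L) x U := by
    have := cg.div hTL e2 e1
    have e : (r * α) ^ i' / α ^ i = U := by
      rw [hU, mul_zpow, zpow_sub₀ hα0]; ring
    rwa [e] at this
  have cV : cg (TT p L) (1 - x) V := by
    rw [h1x]
    have := cg.div hTL (cg.refl hTL (mul_ne_zero hα0 hr1)) e1
    have e : α * (r - 1) / α ^ i = V := by
      rw [hV, zpow_sub₀ hα0, zpow_one]; ring
    rwa [e] at this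
  have hVU : V ∈ ZZ p L ζ U := by
    have a1 : x ∈ ZZ p L ζ (1 - x) := ZZ_symm Cx hζL hnegL hxL hx0 hxx
    have a2 : U ∈ ZZ p L ζ (1 - x) := (ZZ_cg Cx cU).mp a1
    have a3 : 1 - x ∈ ZZ p L ζ U := ZZ_symm Cx hζL hnegL hxx.1 hxx.2.1 a2
    exact (ZZ_cg Cx cV).mp a3
  have hMU := ZZ_isMG (E := L) Cx U
  -- `r - 1` commutes with `r` over `E`
  have hr1r : r - 1 ∈ ZZ p E ζ r := by
    have : cg (TT p E) (1 - r) (r - 1) := by
      unfold cg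
      have e : (1 - r) / (r - 1) = -1 := by field_simp; ring
      rw [e]; exact hneg
    exact (ZZ_cg Cx this).mp hrr
  -- `a ∈ ZZ r` is impossible
  have imp : α ^ p ∉ ZZ p E ζ r := by
    intro h
    obtain ⟨l, hl⟩ := R.rig r (ZZ_symm Cx hζE hneg hr hr0 h)
    exact hra l hl
  by_cases hd : (p : ℤ) ∣ i' - i
  · exfalso
    have hi'0 : ¬ (p : ℤ) ∣ i' := by
      intro h; apply hi0
      have := dvd_sub h hd
      rwa [sub_sub_cancel] at this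
    set X : K := r ^ i' with hX
    have cX : cg (TT p L) U X := by
      unfold cg
      have e : U / X = α ^ (i' - i) := by
        rw [hU, hX]; have := zpow_ne_zero i' hr0; field_simp
      rw [e]; exact TT_zpow St.mem hα0 hd
    have hXL : X ∈ L := zpow_mem hrL _
    have hX0 : X ≠ 0 := zpow_ne_zero _ hr0
    have b1 : V ∈ ZZ p L ζ X := by
      have a1 : U ∈ ZZ p L ζ V := ZZ_symm Cx hζL hnegL hUL hU0 hVU
      have a2 : X ∈ ZZ p L ζ V := (ZZ_cg Cx cX).mp a1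
      exact ZZ_symm Cx hζL hnegL hVU.1 hVU.2.1 a2
    have hMX := ZZ_isMG (E := L) Cx X
    have b2 : r - 1 ∈ ZZ p L ζ X := by
      have a1 : r ∈ ZZ p E ζ (r - 1) := ZZ_symm Cx hζE hneg hr hr0 hr1r
      have a2 : X ∈ ZZ p E ζ (r - 1) := (ZZ_isMG Cx _).zpow a1 i'
      exact ZZ_mono St.le (ZZ_symm Cx hζE hneg hr1E hr1 a2)
    have b3 : α ^ (1 - i) ∈ ZZ p L ζ X := by
      rw [hV] at b1
      exact (hMX.mul_left b2).mp b1
    have b4 : α ∈ ZZ p L ζ X := ZZ_root Cx St.mem hα0 hi1 b3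
    have b5 : r ∈ ZZ p L ζ α := ZZ_root Cx hrL hr0 hi'0 (ZZ_symm Cx hζL hnegL hXL hX0 b4)
    have b6 : α ∈ ZZ p L ζ r := ZZ_symm Cx hζL hnegL St.mem hα0 b5
    have b7 : nm p σ α ∈ ZZ p E ζ r :=
      ⟨nm_mem St S Cx.hζ hζE hp St.mem, nm_ne_zero hα0, rel_transfer Cx hζE St S hr b6.2.2⟩
    exact imp ((ZZ_cg Cx (nm_alpha Cx hζE hneg S hα0)).mp b7)
  · have hcop : IsCoprime (p : ℤ) (i' - i) :=
      (Nat.prime_iff_prime_int.mp hp).irreducible.coprime_iff_not_dvd.mpr hd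
    obtain ⟨q0, m0, hqm⟩ := hcop
    set m : ℤ := m0 * (1 - i) with hm
    set q : ℤ := -(q0 * (1 - i)) with hq
    have hmq : (i' - i) * m = 1 - i + p * q := by rw [hm, hq]; linear_combination (1 - i) * hqm
    set g : K := (r - 1) / (r ^ (i' * m) * (α ^ p) ^ q) with hg
    have hgE : g ∈ E := E.div_mem hr1E (E.mul_mem (zpow_mem hr _) (zpow_mem R.mem _))
    have hg0 : g ≠ 0 := div_ne_zero hr1 (mul_ne_zero (zpow_ne_zero _ hr0)
      (zpow_ne_zero _ (pow_ne_zero _ hα0)))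
    have hVUg : V / U ^ m = g := by
      have e3 : U ^ m = r ^ (i' * m) * (α ^ (1 - i) * (α ^ p) ^ q) := by
        rw [hU, mul_zpow, ← zpow_mul r i' m, ← zpow_mul α (i' - i) m, hmq, zpow_add₀ hα0,
          zpow_mul α (p : ℤ) q, zpow_natCast α p]
      rw [e3, hV, hg]
      have := zpow_ne_zero (1 - i) hα0
      have := zpow_ne_zero (i' * m) hr0
      have : (α ^ p) ^ q ≠ 0 := zpow_ne_zero _ (pow_ne_zero _ hα0)
      field_simp
    have c1 : g ∈ ZZ p L ζ U := by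
      rw [← hVUg]
      exact hMU.div hVU (hMU.zpow (self_mem_ZZ Cx hnegL hUL hU0) m)
    have c2 : U ∈ ZZ p L ζ g := ZZ_symm Cx hζL hnegL hUL hU0 c1
    have c3 : nm p σ U ∈ ZZ p E ζ g :=
      ⟨nm_mem St S Cx.hζ hζE hp hUL, nm_ne_zero hU0, rel_transfer Cx hζE St S hgE c2.2.2⟩
    have c4 : cg (TT p E) (nm p σ U) ((α ^ p) ^ (i' - i)) := by
      rw [hU, nm_mul, nm_zpow, nm_zpow, nm_of_mem S.fix hr]
      have h7 := cg.mul hTE (show cg (TT p E) ((r ^ p) ^ i') 1 by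
        unfold cg; rw [div_one]; exact hTE.zpow (pow_mem_TT hr hr0) _)
        (cg.zpow hTE (nm_alpha Cx hζE hneg S hα0) (i' - i))
      rwa [one_mul] at h7
    have c5 : α ^ p ∈ ZZ p E ζ g := ZZ_root Cx R.mem R.ne hd ((ZZ_cg Cx c4).mp c3)
    obtain ⟨l, hl⟩ := R.rig g (ZZ_symm Cx hζE hneg hgE hg0 c5)
    -- `r - 1 ≡ r^M a^N`
    have c6 : cg (TT p E) (r - 1) (r ^ (i' * m) * (α ^ p) ^ (q + l)) := by
      have e4 : r - 1 = g * (r ^ (i' * m) * (α ^ p) ^ q) := by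
        rw [hg]
        have := zpow_ne_zero (i' * m) hr0
        have : (α ^ p) ^ q ≠ 0 := zpow_ne_zero _ (pow_ne_zero _ hα0)
        field_simp
      have e5 : r ^ (i' * m) * (α ^ p) ^ (q + l)
          = (α ^ p) ^ l * (r ^ (i' * m) * (α ^ p) ^ q) := by
        rw [zpow_add₀ (pow_ne_zero _ hα0)]; ring
      rw [e4, e5]
      exact cg.mul hTE hl (cg.refl hTE (mul_ne_zero (zpow_ne_zero _ hr0)
        (zpow_ne_zero _ (pow_ne_zero _ hα0))))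
    have hMr := ZZ_isMG (E := E) Cx r
    have c7 : (α ^ p) ^ (q + l) ∈ ZZ p E ζ r := by
      have a1 := (ZZ_cg Cx c6).mp hr1r
      exact (hMr.mul_left (hMr.zpow (self_mem_ZZ Cx hneg hr hr0) _)).mp a1
    have c8 : (p : ℤ) ∣ q + l := by
      by_contra hcon
      exact imp (ZZ_root Cx R.mem R.ne hcon c7)
    refine ⟨i' * m, ?_⟩
    have c9 : cg (TT p E) (1 - r) (r - 1) := by
      unfold cg
      have e : (1 - r) / (r - 1) = -1 := by field_simp; ring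
      rw [e]; exact hneg
    refine cg.trans hTE c9 (cg.trans hTE c6 ?_)
    unfold cg
    have e6 : r ^ (i' * m) * (α ^ p) ^ (q + l) / r ^ (i' * m) = (α ^ p) ^ (q + l) := by
      have := zpow_ne_zero (i' * m) hr0
      field_simp
    rw [e6]
    exact TT_zpow R.mem R.ne c8

end

end Pool.Agent.Helper25.ETC
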