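import Mathlib

/-!
# Kummer steps of degree `p` inside a big Galois extension
-/

set_option autoImplicit false

namespace Pool.Agent.Helper25.ETC

open Polynomial Finset

variable {F K : Type*} [Field F] [Field K] [Algebra F K]

/-- `L = E(β)` with `β ^ p ∈ E`, `β ∉ E`. -/
structure Step (p : ℕ) (E L : IntermediateField F K) (β : K) : Prop where
  le : E ≤ L
  mem : β ∈ L
  notMem : β ∉ E
  pow_mem : β ^ p ∈ E
  span : ∀ x ∈ L, ∃ e : ℕ → K, (∀ j, e j ∈ E) ∧ x = ∑ j ∈ range p, e j * β ^ j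

theorem exists_step {p : ℕ} (hp : p ≠ 0) (E : IntermediateField F K) {β : K} (h1 : β ∉ E)
    (h2 : β ^ p ∈ E) : ∃ L : IntermediateField F K, Step p E L β ∧
      ∀ L' : IntermediateField F K, E ≤ L' → β ∈ L' → L ≤ L' := by
  set L0 : IntermediateField E K := IntermediateField.adjoin E {β} with hL0
  have hle : ∀ x ∈ E, x ∈ L0 := by
    intro x hx
    exact L0.algebraMap_mem ⟨x, hx⟩
  refine ⟨L0.restrictScalars F, ⟨?_, ?_, h1, h2, ?_⟩, ?_⟩
  · intro x hx; exact hle x hx
  · exact IntermediateField.mem_adjoin_simple_self E β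
  · intro x hx
    have hint : IsAlgebraic E β := by
      refine ⟨X ^ p - C ⟨β ^ p, h2⟩, X_pow_sub_C_ne_zero (Nat.pos_of_ne_zero hp) _, ?_⟩
      rw [map_sub, map_pow, aeval_X, aeval_C]
      exact sub_self _
    have hx' : x ∈ L0.toSubalgebra := hx
    rw [hL0, IntermediateField.adjoin_simple_toSubalgebra_of_isAlgebraic hint,
      Algebra.adjoin_singleton_eq_range_aeval] at hx'
    obtain ⟨q, hq⟩ := hx'
    set m : E[X] := X ^ p - C ⟨β ^ p, h2⟩ with hm
    have hmm : m.Monic := monic_X_pow_sub_C _ hp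
    have hm0 : aeval β m = 0 := by
      rw [hm, map_sub, map_pow, aeval_X, aeval_C]
      exact sub_self _
    have hdeg : (q %ₘ m).natDegree < p := by
      have h3 : m.natDegree = p := natDegree_X_pow_sub_C
      have := natDegree_modByMonic_lt q hmm (by
        intro h; rw [h, natDegree_one] at h3; exact hp h3.symm)
      rwa [h3] at this
    have hq2 : aeval β (q %ₘ m) = x := by
      have := congrArg (aeval β) (modByMonic_add_div q m)
      rw [map_add, map_mul, hm0, zero_mul, add_zero] at this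
      rw [this]; exact hq
    refine ⟨fun j => ((q %ₘ m).coeff j : K), fun j => ((q %ₘ m).coeff j).2, ?_⟩
    rw [← hq2, aeval_eq_sum_range' hdeg]
    rfl
  · intro L' h3 h4 x hx
    have : L0 ≤ IntermediateField.extendScalars h3 := by
      rw [hL0, IntermediateField.adjoin_le_iff]
      intro y hy
      rw [Set.mem_singleton_iff] at hy
      rw [hy]; exact h4
    exact this hx

/-- elementary facts about roots of unity. -/
theorem prod_sub_zeta {R : Type*} [Field R] {p : ℕ} (hp : 0 < p) {ζ : R}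
    (hζ : IsPrimitiveRoot ζ p) (x y : R) :
    ∏ j ∈ range p, (x - ζ ^ j * y) = x ^ p - y ^ p := by
  have h := X_pow_sub_C_eq_prod hζ hp (α := y) (a := y ^ p) rfl
  have := congrArg (eval x) h
  rw [eval_sub, eval_pow, eval_X, eval_C, eval_prod] at this
  rw [this]
  simp

theorem exists_zeta_pow {R : Type*} [Field R] {p : ℕ} (hp : 0 < p) {ζ : R}
    (hζ : IsPrimitiveRoot ζ p) {x y : R} (h : x ^ p = y ^ p) :
    ∃ j < p, x = ζ ^ j * y := by
  have := prod_sub_zeta hp hζ x y
  rw [h, sub_self, prod_eq_zero_iff] at this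
  obtain ⟨j, hj, hj2⟩ := this
  exact ⟨j, mem_range.mp hj, sub_eq_zero.mp hj2⟩

/-- an automorphism over `E` sending `β` to `ζ β`. -/
structure StepAut (E : IntermediateField F K) (ζ β : K) (σ : K ≃ₐ[F] K) : Prop where
  fix : ∀ x ∈ E, σ x = x
  act : σ β = ζ * β

section

variable {p : ℕ} {E L : IntermediateField F K} {ζ β : K} {σ : K ≃ₐ[F] K}

theorem pow_fix (h : ∀ x ∈ E, σ x = x) (n : ℕ) : ∀ x ∈ E, (σ ^ n) x = x := by
  induction n with
  | zero => intro x _; simp
  | succ n ih => intro x hx; rw [pow_succ, AlgEquiv.mul_apply, h x hx, ih x hx]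

theorem StepAut.act_pow (S : StepAut E ζ β σ) (hζ : ζ ∈ E) (n : ℕ) :
    (σ ^ n) β = ζ ^ n * β := by
  induction n with
  | zero => simp
  | succ n ih =>
    rw [pow_succ, AlgEquiv.mul_apply, S.act, map_mul, ih, pow_fix S.fix n ζ hζ]
    ring

theorem exists_stepAut [IsGalois F K] (hp : p.Prime) (hζ : IsPrimitiveRoot ζ p) (hζE : ζ ∈ E)
    (h1 : β ∉ E) (h2 : β ^ p ∈ E) : ∃ σ : K ≃ₐ[F] K, StepAut E ζ β σ := by
  have h3 : β ∉ IntermediateField.fixedField E.fixingSubgroup := by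
    rwa [InfiniteGalois.fixedField_fixingSubgroup]
  rw [IntermediateField.mem_fixedField_iff] at h3
  push Not at h3
  obtain ⟨τ, hτ, hτβ⟩ := h3
  rw [IntermediateField.mem_fixingSubgroup_iff] at hτ
  have h4 : (τ β) ^ p = β ^ p := by rw [← map_pow, hτ _ h2]
  obtain ⟨j, hj, hj2⟩ := exists_zeta_pow hp.pos hζ h4
  have hj0 : j ≠ 0 := by
    rintro rfl; apply hτβ; rw [hj2]; simp
  have hcop : Nat.Coprime j p := by
    rw [Nat.coprime_comm, hp.coprime_iff_not_dvd]
    intro hd
    exact absurd (Nat.le_of_dvd (Nat.pos_of_ne_zero hj0) hd) (not_le.mpr hj)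
  have hβ0 : β ≠ 0 := by rintro rfl; exact h1 E.zero_mem
  obtain ⟨m, hm⟩ := Nat.exists_mul_mod_eq_one_of_coprime hcop hp.one_lt
  refine ⟨τ ^ m, pow_fix hτ m, ?_⟩
  have h5 : ∀ n : ℕ, (τ ^ n) β = (ζ ^ j) ^ n * β := by
    intro n
    induction n with
    | zero => simp
    | succ n ih =>
      rw [pow_succ, AlgEquiv.mul_apply, hj2, map_mul, ih, map_pow, pow_fix hτ n ζ hζE]
      ring
  rw [h5 m, ← pow_mul]
  congr 1
  rw [← pow_mod_orderOf, ← hζ.eq_orderOf, hm.2, pow_one]

variable (St : Step p E L β) (S : StepAut E ζ β σ) (hζ : IsPrimitiveRoot ζ p) (hζE : ζ ∈ E)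

include S hζE in
theorem apply_formula {e : ℕ → K} (he : ∀ j, e j ∈ E) (n : ℕ) :
    (σ ^ n) (∑ j ∈ range p, e j * β ^ j) = ∑ j ∈ range p, (e j * (ζ ^ n) ^ j) * β ^ j := by
  rw [map_sum]
  apply sum_congr rfl
  intro j _
  rw [map_mul, pow_fix S.fix n _ (he j), map_pow, S.act_pow hζE, mul_pow, mul_assoc]

include St S hζE in
theorem step_stable {x : K} (hx : x ∈ L) (n : ℕ) : (σ ^ n) x ∈ L := by
  obtain ⟨e, he, rfl⟩ := St.span x hx
  rw [apply_formula S hζE he]
  apply L.sum_mem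
  intro j _
  exact L.mul_mem (L.mul_mem (St.le (he j)) (pow_mem (pow_mem (St.le hζE) _) _))
    (pow_mem St.mem _)

include St S hζ hζE in
theorem step_pow {x : K} (hx : x ∈ L) : (σ ^ p) x = x := by
  obtain ⟨e, he, rfl⟩ := St.span x hx
  rw [apply_formula S hζE he, hζ.pow_eq_one]
  simp

include St S hζ hζE in
theorem step_fixed [IsGalois F K] (hp : p.Prime) {x : K} (hx : x ∈ L) (hσ : σ x = x) : x ∈ E := by
  rw [← InfiniteGalois.fixedField_fixingSubgroup E, IntermediateField.mem_fixedField_iff]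
  intro τ hτ
  rw [IntermediateField.mem_fixingSubgroup_iff] at hτ
  have h4 : (τ β) ^ p = β ^ p := by rw [← map_pow, hτ _ St.pow_mem]
  obtain ⟨j, hj, hj2⟩ := exists_zeta_pow hp.pos hζ h4
  have h5 : ∀ n : ℕ, (σ ^ n) x = x := by
    intro n
    induction n with
    | zero => simp
    | succ n ih => rw [pow_succ, AlgEquiv.mul_apply, hσ, ih]
  obtain ⟨e, he, hxe⟩ := St.span x hx
  have h6 := h5 j
  rw [hxe, apply_formula S hζE he] at h6
  rw [hxe]
  conv_rhs => rw [← h6]
  rw [map_sum]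
  apply sum_congr rfl
  intro i _
  rw [map_mul, map_pow, hτ _ (he i), hj2]
  ring

/-- the norm. -/
def nm (p : ℕ) (σ : K ≃ₐ[F] K) (x : K) : K := ∏ j ∈ range p, (σ ^ j) x

theorem nm_mul (x y : K) : nm p σ (x * y) = nm p σ x * nm p σ y := by
  unfold nm; rw [← prod_mul_distrib]; simp

theorem nm_pow (x : K) (n : ℕ) : nm p σ (x ^ n) = nm p σ x ^ n := by
  unfold nm; rw [← prod_pow]; simp

theorem nm_one : nm p σ 1 = 1 := by unfold nm; simp

theorem nm_inv (x : K) : nm p σ x⁻¹ = (nm p σ x)⁻¹ := by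
  unfold nm; rw [← prod_inv_distrib]; simp

theorem nm_ne_zero {x : K} (hx : x ≠ 0) : nm p σ x ≠ 0 := by
  unfold nm; rw [prod_ne_zero_iff]; intro j _; exact (_root_.map_ne_zero _).mpr hx

theorem nm_of_mem (h : ∀ x ∈ E, σ x = x) {x : K} (hx : x ∈ E) : nm p σ x = x ^ p := by
  unfold nm
  rw [prod_congr rfl (fun j _ => pow_fix h j x hx), prod_const, card_range]

include St S hζ hζE in
theorem nm_mem [IsGalois F K] (hp : p.Prime) {x : K} (hx : x ∈ L) : nm p σ x ∈ E := by
  apply step_fixed St S hζ hζE hp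
  · unfold nm; exact L.prod_mem (fun j _ => step_stable St S hζE hx j)
  · have h1 := step_pow St S hζ hζE hx
    unfold nm
    rw [map_prod]
    have h2 : ∀ j : ℕ, σ ((σ ^ j) x) = (σ ^ (j + 1)) x := by
      intro j; rw [← AlgEquiv.mul_apply, ← pow_succ']
    rw [prod_congr rfl (fun j _ => h2 j)]
    have h3 := prod_range_succ (fun j => (σ ^ j) x) p
    have h4 := prod_range_succ' (fun j => (σ ^ j) x) p
    rw [h3, h1, pow_zero, AlgEquiv.one_apply] at h4
    by_cases hx0 : x = 0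
    · rw [hx0]; simp
    · exact (mul_right_cancel₀ hx0 h4).symm

end

end Pool.Agent.Helper25.ETC
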