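import Pool.Agent.Helper25.ETCNorm

/-!
# Symmetry and transfer for norm relations
-/

set_option autoImplicit false

namespace Pool.Agent.Helper25.ETC

open Polynomial Finset

variable {F K : Type*} [Field F] [Field K] [Algebra F K] {p : ℕ} {ζ : K}

theorem Ctx.p_ne_zero (Cx : Ctx p F K ζ) : (p : K) ≠ 0 := by
  have : NeZero p := ⟨Cx.hp.ne_zero⟩
  exact (Cx.hζ.neZero').out

section

variable {E L : IntermediateField F K} {β : K} {σ : K ≃ₐ[F] K}

/-- Kummer: `p`-th roots in `L = E(β)` of elements of `E`. -/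
theorem kummer_mem (Cx : Ctx p F K ζ) (hζE : ζ ∈ E) (St : Step p E L β) {y : K} (hy : y ∈ L)
    (hyp : y ^ p ∈ E) : ∃ i < p, ∃ d ∈ E, y = β ^ i * d := by
  have := Cx.pc.gal
  obtain ⟨σ, S⟩ := exists_stepAut (p := p) Cx.hp Cx.hζ hζE St.notMem St.pow_mem
  have h1 : (σ y) ^ p = y ^ p := by rw [← map_pow, S.fix _ hyp]
  obtain ⟨i, hi, hσy⟩ := exists_zeta_pow Cx.hp.pos Cx.hζ h1
  have hβ0 : β ≠ 0 := by rintro rfl; exact St.notMem E.zero_mem
  have hζ0 : ζ ≠ 0 := Cx.hζ.ne_zero Cx.hp.ne_zero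
  refine ⟨i, hi, y / β ^ i, ?_, by field_simp⟩
  apply step_fixed St S Cx.hζ hζE Cx.hp (L.div_mem hy (pow_mem St.mem i))
  rw [map_div₀, map_pow, hσy, S.act, mul_pow]
  field_simp

theorem root_swap (hp : p.Prime) {α β d : K} {L' : IntermediateField F K} (hα : α ^ p ∈ L')
    (hd : d ∈ L') (hd0 : d ≠ 0) (hβ : β ∈ L') {i : ℕ} (hi0 : i ≠ 0) (hi : i < p)
    (h : β = α ^ i * d) (hα0 : α ≠ 0) : α ∈ L' := by
  have hcop : Nat.Coprime i p := by
    rw [Nat.coprime_comm, hp.coprime_iff_not_dvd]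
    intro hdv
    exact absurd (Nat.le_of_dvd (Nat.pos_of_ne_zero hi0) hdv) (not_le.mpr hi)
  obtain ⟨m, -, hm⟩ := Nat.exists_mul_mod_eq_one_of_coprime hcop hp.one_lt
  obtain ⟨q, hq⟩ : ∃ q, i * m = 1 + p * q := ⟨i * m / p, by
    have := Nat.mod_add_div (i * m) p
    rw [hm] at this; exact this.symm⟩
  have e : α = (β / d) ^ m / (α ^ p) ^ q := by
    have e1 : β / d = α ^ i := by rw [h]; field_simp
    rw [e1, ← pow_mul, ← pow_mul, hq, pow_add, pow_one]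
    field_simp
  rw [e]
  exact L'.div_mem (pow_mem (L'.div_mem hβ hd) _) (pow_mem hα _)

/-- Hilbert 90 for a Kummer step. -/
theorem hilbert90 (Cx : Ctx p F K ζ) (hζE : ζ ∈ E) (St : Step p E L β) (S : StepAut E ζ β σ)
    {u : K} (hu : u ∈ L) (hN : nm p σ u = 1) : ∃ v ∈ L, v ≠ 0 ∧ u * σ v = v := by
  have hp := Cx.hp
  have hζ := Cx.hζ
  set a : ℕ → K := fun j => ∏ i ∈ range j, (σ ^ i) u with ha
  have haL : ∀ j, a j ∈ L := fun j => L.prod_mem (fun i _ => step_stable St S hζE hu i)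
  have hsucc : ∀ j, u * σ (a j) = a (j + 1) := by
    intro j
    simp only [ha]
    rw [map_prod, prod_range_succ' (fun i => (σ ^ i) u), pow_zero, AlgEquiv.one_apply, mul_comm]
    congr 1
    apply prod_congr rfl
    intro i _
    rw [pow_succ', AlgEquiv.mul_apply]
  have hap : a p = 1 := hN
  have ha0 : a 0 = 1 := by simp [ha]
  have hβ0 : β ≠ 0 := by rintro rfl; exact St.notMem E.zero_mem
  -- choose `m`
  have hex : ∃ m, ∑ j ∈ range p, a j * (ζ ^ j) ^ m ≠ 0 := by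
    by_contra hcon
    push Not at hcon
    have h1 : ∑ m ∈ range p, ∑ j ∈ range p, a j * (ζ ^ j) ^ m = p * a 0 := by
      rw [sum_comm]
      have e1 : ∀ j ∈ range p, ∑ m ∈ range p, a j * (ζ ^ j) ^ m
          = if j = 0 then (p : K) * a 0 else 0 := by
        intro j hj
        by_cases hj0 : j = 0
        · simp [hj0]
        · rw [if_neg hj0, ← mul_sum]
          have hw : ζ ^ j ≠ 1 := hζ.pow_ne_one_of_pos_of_lt hj0 (mem_range.mp hj)
          have h1 := mul_geom_sum (ζ ^ j) p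
          rw [← pow_mul _ j p, mul_comm j p, pow_mul _ p j, hζ.pow_eq_one, one_pow,
            sub_self] at h1
          rw [(mul_eq_zero.mp h1).resolve_left (sub_ne_zero.mpr hw), mul_zero]
      rw [sum_congr rfl e1, sum_ite_eq' (range p) 0]
      simp [hp.pos]
    rw [sum_congr rfl (fun m _ => hcon m), sum_const_zero, ha0, mul_one] at h1
    exact Cx.p_ne_zero h1.symm
  obtain ⟨m, hm⟩ := hex
  set v : K := ∑ j ∈ range p, a j * (σ ^ j) (β ^ m) with hv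
  have hv1 : v = (∑ j ∈ range p, a j * (ζ ^ j) ^ m) * β ^ m := by
    rw [hv, sum_mul]
    apply sum_congr rfl
    intro j _
    rw [map_pow, S.act_pow hζE, mul_pow]; ring
  refine ⟨v, L.sum_mem (fun j _ => L.mul_mem (haL j) (step_stable St S hζE (pow_mem St.mem m) j)),
    ?_, ?_⟩
  · rw [hv1]; exact mul_ne_zero hm (pow_ne_zero _ hβ0)
  · rw [hv, map_sum, mul_sum]
    have e2 : ∀ j ∈ range p, u * σ (a j * (σ ^ j) (β ^ m))
        = a (j + 1) * (σ ^ (j + 1)) (β ^ m) := by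
      intro j _
      rw [map_mul, ← mul_assoc, hsucc, ← AlgEquiv.mul_apply, ← pow_succ']
    rw [sum_congr rfl e2]
    have h3 := sum_range_succ (fun j => a j * (σ ^ j) (β ^ m)) p
    have h4 := sum_range_succ' (fun j => a j * (σ ^ j) (β ^ m)) p
    simp only [pow_zero, AlgEquiv.one_apply, ha0, hap] at h3 h4
    rw [step_pow St S hζ hζE (pow_mem St.mem m)] at h3
    rw [h3] at h4
    exact (add_right_cancel h4).symm

/-- norms via polynomials. -/
theorem nm_eval (Cx : Ctx p F K ζ) (hζE : ζ ∈ E) (S : StepAut E ζ β σ) {g : K[X]}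
    (hg : ∀ n, g.coeff n ∈ E) : nm p σ (g.eval β) = ∏ j ∈ range p, g.eval (ζ ^ j * β) := by
  have := Cx.hp
  unfold nm
  apply prod_congr rfl
  intro j _
  rw [eval_eq_sum_range, eval_eq_sum_range, map_sum]
  apply sum_congr rfl
  intro i _
  rw [map_mul, map_pow, pow_fix S.fix j _ (hg i), S.act_pow hζE]

theorem exists_poly (St : Step p E L β) {x : K} (hx : x ∈ L) :
    ∃ g : K[X], (∀ n, g.coeff n ∈ E) ∧ g.eval β = x := by
  obtain ⟨e, he, rfl⟩ := St.span x hx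
  refine ⟨∑ j ∈ range p, C (e j) * X ^ j, ?_, ?_⟩
  · intro n
    rw [finsetSum_coeff]
    apply E.sum_mem
    intro j _
    rw [coeff_C_mul_X_pow]
    split_ifs
    · exact he j
    · exact E.zero_mem
  · rw [eval_finsetSum]
    simp

theorem rel_of_nm (Cx : Ctx p F K ζ) (hζE : ζ ∈ E) (St : Step p E L β) (S : StepAut E ζ β σ)
    {x : K} (hx : x ∈ L) : rel p E ζ (β ^ p) (nm p σ x) := by
  obtain ⟨g, hg, rfl⟩ := exists_poly St hx
  exact ⟨β, rfl, g, hg, (nm_eval Cx hζE S hg).symm⟩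

theorem nm_of_rel (Cx : Ctx p F K ζ) (hζE : ζ ∈ E) (St : Step p E L β) (S : StepAut E ζ β σ)
    {b : K} (h : rel p E ζ (β ^ p) b) : ∃ x ∈ L, nm p σ x = b := by
  rw [rel_iff Cx.hp Cx.hζ rfl] at h
  obtain ⟨g, hg, h⟩ := h
  refine ⟨g.eval β, eval_mem (fun n => St.le (hg n)) St.mem, ?_⟩
  rw [nm_eval Cx hζE S hg, h]

/-- symmetry, independent case. -/
theorem rel_symm_indep (Cx : Ctx p F K ζ) (hζE : ζ ∈ E) {α β : K} (hα : α ^ p ∈ E)
    (hαE : α ∉ E) (hβ : β ^ p ∈ E) {L1 L2 M : IntermediateField F K} (S1 : Step p E L1 α)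
    (S2 : Step p E L2 β) (S3 : Step p L1 M β) (S4 : Step p L2 M α)
    (h : rel p E ζ (α ^ p) (β ^ p)) : rel p E ζ (β ^ p) (α ^ p) := by
  have := Cx.pc.gal
  have hp := Cx.hp
  have hζ := Cx.hζ
  have hα0 : α ≠ 0 := by rintro rfl; exact hαE E.zero_mem
  have hβ0 : β ≠ 0 := by rintro rfl; exact S2.notMem E.zero_mem
  have hζ0 : ζ ≠ 0 := hζ.ne_zero hp.ne_zero
  obtain ⟨σ, Aσ⟩ := exists_stepAut (p := p) (E := L2) hp hζ (S2.le hζE) S4.notMem S4.pow_mem
  obtain ⟨τ, Aτ⟩ := exists_stepAut (p := p) (E := L1) hp hζ (S1.le hζE) S3.notMem S3.pow_mem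
  have Aσ' : StepAut E ζ α σ := ⟨fun x hx => Aσ.fix x (S2.le hx), Aσ.act⟩
  have Aτ' : StepAut E ζ β τ := ⟨fun x hx => Aτ.fix x (S1.le hx), Aτ.act⟩
  obtain ⟨w, hw, hwN⟩ := nm_of_rel Cx hζE S1 Aσ' h
  have hσβ : σ β = β := Aσ.fix β S2.mem
  have hu : nm p σ (w / β) = 1 := by
    rw [div_eq_mul_inv, nm_mul, nm_inv, hwN, nm_of_mem Aσ.fix S2.mem, mul_inv_cancel₀]
    exact pow_ne_zero _ hβ0
  obtain ⟨v, hvM, hv0, hv⟩ := hilbert90 Cx (S2.le hζE) S4 Aσ
    (M.div_mem (S3.le hw) S3.mem) hu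
  have hcomm : ∀ x ∈ M, σ (τ x) = τ (σ x) := by
    intro x hx
    obtain ⟨e, he, rfl⟩ := S3.span x hx
    simp only [map_sum]
    apply sum_congr rfl
    intro j _
    simp only [map_mul, map_pow]
    rw [Aτ.fix _ (he j), Aτ.act, hσβ, Aτ.act, map_mul, hσβ, Aσ.fix ζ (S2.le hζE)]
    congr 1
    have h1 := step_stable S1 Aσ' hζE (he j) 1
    rw [pow_one] at h1
    exact (Aτ.fix _ h1).symm
  have hτv0 : τ v ≠ 0 := (_root_.map_ne_zero _).mpr hv0
  have hσv0 : σ v ≠ 0 := (_root_.map_ne_zero _).mpr hv0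
  -- `y = α v / τ v`
  set y : K := α * v / τ v with hy
  have hτw : τ w = w := Aτ.fix w hw
  have h2 : w / (ζ * β) * σ (τ v) = τ v := by
    have := congrArg τ hv
    rwa [map_mul, map_div₀, hτw, Aτ.act, ← hcomm v hvM] at this
  have hw0 : w ≠ 0 := by
    rintro rfl
    rw [zero_div, zero_mul] at hv
    exact hv0 hv.symm
  have hσy : σ y = y := by
    have e1 : σ (τ v) = τ v * (ζ * β) / w := by
      field_simp at h2 ⊢
      rw [mul_comm]; linear_combination h2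
    have e2 : σ v = v * β / w := by
      field_simp at hv ⊢
      linear_combination hv
    rw [hy, map_div₀, map_mul, Aσ.act, e1, e2]
    field_simp
  have hyM : y ∈ M := by
    apply M.div_mem (M.mul_mem S4.mem hvM)
    have := step_stable S3 Aτ (S1.le hζE) hvM 1
    rwa [pow_one] at this
  have hyL2 : y ∈ L2 := step_fixed S4 Aσ hζ (S2.le hζE) hp hyM hσy
  have hNy : nm p τ y = α ^ p := by
    have hnv : nm p τ (τ v) = nm p τ v := by
      unfold nm
      obtain ⟨q, hq⟩ : ∃ q, p = q + 1 := ⟨p - 1, (Nat.sub_add_cancel hp.one_le).symm⟩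
      have h3 : (τ ^ p) v = v := step_pow S3 Aτ hζ (S1.le hζE) hvM
      have e : ∀ j : ℕ, (τ ^ j) (τ v) = (τ ^ (j + 1)) v := by
        intro j; rw [pow_succ, AlgEquiv.mul_apply]
      simp only [e]
      rw [hq, prod_range_succ, prod_range_succ' (fun j => (τ ^ j) v), ← hq, h3]
      simp
    rw [hy, div_eq_mul_inv, nm_mul, nm_mul, nm_inv, hnv, nm_of_mem Aτ.fix S1.mem]
    have := nm_ne_zero (p := p) (σ := τ) hv0
    field_simp
  have := rel_of_nm Cx hζE S2 Aτ' hyL2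
  rwa [hNy] at this

/-- **symmetry**. -/
theorem rel_symm (Cx : Ctx p F K ζ) (hζE : ζ ∈ E) (hneg : (-1 : K) ∈ TT p E) {a b : K}
    (ha : a ∈ E) (hb : b ∈ E) (ha0 : a ≠ 0) (hb0 : b ≠ 0) (h : rel p E ζ a b) :
    rel p E ζ b a := by
  have := Cx.pc.gal
  by_cases haT : a ∈ TT p E
  · exact rel_TT Cx haT
  by_cases hbT : b ∈ TT p E
  · exact rel_split Cx hbT ha
  obtain ⟨α, rfl⟩ := Cx.pc.root a
  obtain ⟨β, rfl⟩ := Cx.pc.root b
  have hαE : α ∉ E := fun hc => haT ⟨ha0, α, hc, rfl⟩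
  have hβE : β ∉ E := fun hc => hbT ⟨hb0, β, hc, rfl⟩
  obtain ⟨L1, S1, m1⟩ := exists_step Cx.hp.ne_zero E hαE ha
  obtain ⟨L2, S2, m2⟩ := exists_step Cx.hp.ne_zero E hβE hb
  have dep : ∀ (γ δ : K) (L : IntermediateField F K), Step p E L γ → γ ^ p ≠ 0 → δ ^ p ≠ 0 →
      δ ^ p ∈ E → δ ∈ L → ∃ i : ℕ, ∃ d ∈ E, d ≠ 0 ∧ δ ^ p = (γ ^ p) ^ i * d ^ p := by
    intro γ δ L St hγ hδ hδE hδL
    obtain ⟨i, -, d, hd, hdd⟩ := kummer_mem Cx hζE St hδL hδE
    refine ⟨i, d, hd, ?_, ?_⟩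
    · rintro rfl
      apply hδ; rw [hdd, mul_zero, zero_pow Cx.hp.ne_zero]
    · rw [hdd]; ring
  by_cases h1 : β ∈ L1
  · -- `b = a ^ i d ^ p`
    have h3 : α ∈ L2 := by
      obtain ⟨i, hi, d, hd, hdd⟩ := kummer_mem Cx hζE S1 h1 hb
      have hi0 : i ≠ 0 := by
        rintro rfl
        apply hβE; rw [hdd, pow_zero, one_mul]; exact hd
      have hd0 : d ≠ 0 := by
        rintro rfl
        apply hβE; rw [hdd, mul_zero]; exact E.zero_mem
      exact root_swap Cx.hp (S2.le ha) (S2.le hd) hd0 S2.mem hi0 hi hdd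
        (by rintro rfl; exact hαE E.zero_mem)
    obtain ⟨i, d, hd, hd0, hdd⟩ := dep β α L2 S2 hb0 ha0 ha h3
    rw [hdd]
    have h4 := rel_npow Cx (rel_self (a := β ^ p) Cx hneg) i
    exact rel_mul h4 (rel_pow Cx hd) Cx.hp Cx.hζ
  · obtain ⟨M, S3, m3⟩ := exists_step Cx.hp.ne_zero L1 h1 (S1.le hb)
    have h2 : α ∉ L2 := by
      intro h2
      apply h1
      -- symmetric argument
      obtain ⟨i, hi, d, hd, hdd⟩ := kummer_mem Cx hζE S2 h2 ha
      have hi0 : i ≠ 0 := by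
        rintro rfl
        apply hαE; rw [hdd, pow_zero, one_mul]; exact hd
      have hd0 : d ≠ 0 := by
        rintro rfl
        apply hαE; rw [hdd, mul_zero]; exact E.zero_mem
      exact root_swap Cx.hp (S1.le hb) (S1.le hd) hd0 S1.mem hi0 hi hdd
        (by rintro rfl; exact hβE E.zero_mem)
    obtain ⟨M', S4, m4⟩ := exists_step Cx.hp.ne_zero L2 h2 (S2.le ha)
    have hMM' : M = M' := by
      apply le_antisymm
      · apply m3
        · exact m1 M' (S2.le.trans S4.le) S4.mem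
        · exact S4.le S2.mem
      · apply m4
        · exact m2 M (S1.le.trans S3.le) S3.mem
        · exact S3.le S1.mem
    subst hMM'
    exact rel_symm_indep Cx hζE ha hαE hb S1 S2 S3 S4 h

/-- **transfer** (projection formula). -/
theorem rel_transfer (Cx : Ctx p F K ζ) (hζE : ζ ∈ E) (St : Step p E L β)
    (S : StepAut E ζ β σ) {c w : K} (hc : c ∈ E) (h : rel p L ζ c w) :
    rel p E ζ c (nm p σ w) := by
  have := Cx.pc.gal
  have hp := Cx.hp
  have hζ := Cx.hζ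
  obtain ⟨η, hη, g, hg, rfl⟩ := h
  set G : K[X] := ∏ i ∈ range p, g.map ((σ ^ i : K ≃ₐ[F] K) : K →+* K) with hG
  have hgi : ∀ i : ℕ, ∀ n, (g.map ((σ ^ i : K ≃ₐ[F] K) : K →+* K)).coeff n ∈ L := by
    intro i n
    rw [coeff_map]
    exact step_stable St S hζE (hg n) i
  have hGL : ∀ n, G.coeff n ∈ L := coeff_prod_mem _ (fun i _ => hgi i)
  have hmm : ∀ i : ℕ, (g.map ((σ ^ i : K ≃ₐ[F] K) : K →+* K)).map (σ : K →+* K)
      = g.map ((σ ^ (i + 1) : K ≃ₐ[F] K) : K →+* K) := by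
    intro i
    rw [Polynomial.map_map]
    congr 1
    ext x
    have : (σ ^ (i + 1)) x = σ ((σ ^ i) x) := by rw [pow_succ', AlgEquiv.mul_apply]
    exact this.symm
  have hgp : g.map ((σ ^ p : K ≃ₐ[F] K) : K →+* K) = g.map ((σ ^ 0 : K ≃ₐ[F] K) : K →+* K) := by
    ext n
    rw [coeff_map, coeff_map]
    have := step_pow St S hζ hζE (hg n)
    exact this
  have hGσ : G.map (σ : K →+* K) = G := by
    rw [hG, Polynomial.map_prod]
    simp only [hmm]
    obtain ⟨q, hq⟩ : ∃ q, p = q + 1 := ⟨p - 1, (Nat.sub_add_cancel hp.one_le).symm⟩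
    have h1 : ∏ i ∈ range (q + 1), g.map ((σ ^ (i + 1) : K ≃ₐ[F] K) : K →+* K)
        = (∏ i ∈ range q, g.map ((σ ^ (i + 1) : K ≃ₐ[F] K) : K →+* K))
          * g.map ((σ ^ (q + 1) : K ≃ₐ[F] K) : K →+* K) := prod_range_succ _ _
    have h2 : ∏ i ∈ range (q + 1), g.map ((σ ^ i : K ≃ₐ[F] K) : K →+* K)
        = (∏ i ∈ range q, g.map ((σ ^ (i + 1) : K ≃ₐ[F] K) : K →+* K))
          * g.map ((σ ^ 0 : K ≃ₐ[F] K) : K →+* K) :=
      prod_range_succ' (fun i => g.map ((σ ^ i : K ≃ₐ[F] K) : K →+* K)) q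
    rw [hq, h1, h2, ← hq, hgp]
  have hGE : ∀ n, G.coeff n ∈ E := by
    intro n
    apply step_fixed St S hζ hζE hp (hGL n)
    have := congrArg (fun P => P.coeff n) hGσ
    rw [coeff_map] at this
    exact this
  refine ⟨η, hη, G, hGE, ?_⟩
  have hηi : ∀ i : ℕ, ∃ m, (σ ^ i) η = ζ ^ m * η := by
    intro i
    have h1 : ((σ ^ i) η) ^ p = η ^ p := by
      rw [← map_pow, hη, pow_fix S.fix i c hc]
    obtain ⟨m, -, hm⟩ := exists_zeta_pow hp.pos hζ h1
    exact ⟨m, hm⟩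
  unfold nm
  have h3 : ∀ i ∈ range p, (σ ^ i) (∏ j ∈ range p, g.eval (ζ ^ j * η))
      = ∏ j ∈ range p, (g.map ((σ ^ i : K ≃ₐ[F] K) : K →+* K)).eval (ζ ^ j * η) := by
    intro i _
    rw [map_prod]
    obtain ⟨m, hm⟩ := hηi i
    rw [← prod_shift hp hζ (fun x => (g.map ((σ ^ i : K ≃ₐ[F] K) : K →+* K)).eval x) η m]
    apply prod_congr rfl
    intro j _
    have h4 : (σ ^ i) (g.eval (ζ ^ j * η))
        = (g.map ((σ ^ i : K ≃ₐ[F] K) : K →+* K)).eval ((σ ^ i) (ζ ^ j * η)) := by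
      rw [eval_map]
      exact (eval₂_at_apply ((σ ^ i : K ≃ₐ[F] K) : K →+* K) (ζ ^ j * η)).symm
    rw [h4, map_mul, map_pow, pow_fix S.fix i ζ hζE, hm]
  rw [prod_congr rfl h3, prod_comm]
  apply prod_congr rfl
  intro j _
  rw [hG, eval_prod]

end

end Pool.Agent.Helper25.ETC
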