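import Pool.Agent.Helper25.ETCMod

/-!
# Invariant classes along `ℤ_p`-extensions
-/

set_option autoImplicit false

namespace Pool.Agent.Helper25.ETC

open Polynomial Finset Module

variable {F K : Type*} [Field F] [Field K] [Algebra F K] {p : ℕ} {ζ : K}

section step

variable {M1 M0 : IntermediateField F K} {s : K ≃ₐ[F] K}

theorem pow_stab (hs : ∀ x ∈ M1, s x ∈ M1) (n : ℕ) : ∀ x ∈ M1, (s ^ n) x ∈ M1 := by
  induction n with
  | zero => intro x hx; exact hx
  | succ n ih => intro x hx; rw [pow_succ', AlgEquiv.mul_apply]; exact hs _ (ih x hx)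

theorem pow_fix_of_dvd {x : K} {m n : ℕ} (hmn : m ∣ n) (h : (s ^ m) x = x) : (s ^ n) x = x := by
  obtain ⟨c, rfl⟩ := hmn
  rw [pow_mul]
  induction c with
  | zero => simp
  | succ c ih => rw [pow_succ, AlgEquiv.mul_apply, h, ih]

theorem h90_tower (Cx : Ctx p F K ζ) (hM0 : ∀ x, x ∈ M0 ↔ x ∈ M1 ∧ s x = x)
    (hs : ∀ x ∈ M1, s x ∈ M1) (ord : ∀ x ∈ M1, ∃ b : ℕ, (s ^ (p ^ b)) x = x)
    (indep : ∀ b : ℕ, ∃ w ∈ M1, (s ^ (p ^ (b + 1))) w = w ∧ (s ^ (p ^ b)) w ≠ w)
    {x y : K} (hx : x ∈ M1) (hx0 : x ≠ 0) (hy : y ∈ M1) (hxy : s x = x * y ^ p) :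
    ∃ z ∈ M1, z ≠ 0 ∧ x * z ^ p ∈ M0 := by
  have hp := Cx.hp
  obtain ⟨b1, hb1⟩ := ord x hx
  obtain ⟨b2, hb2⟩ := ord y hy
  set b := max b1 b2 with hb
  have hbx : (s ^ (p ^ b)) x = x := pow_fix_of_dvd (pow_dvd_pow p (le_max_left b1 b2)) hb1
  have hby : (s ^ (p ^ b)) y = y := pow_fix_of_dvd (pow_dvd_pow p (le_max_right b1 b2)) hb2
  let Y : ℕ → K := fun j => ∏ i ∈ range j, (s ^ i) y
  have hY0 : Y 0 = 1 := by simp [Y]
  have hYs : ∀ j, y * s (Y j) = Y (j + 1) := fun j => prod_norm_aux y j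
  have hYM : ∀ j, Y j ∈ M1 := fun j => M1.prod_mem (fun i _ => pow_stab hs i y hy)
  have hsx : ∀ j, (s ^ j) x = x * (Y j) ^ p := by
    intro j
    induction j with
    | zero => simp [Y]
    | succ j ih =>
      rw [pow_succ', AlgEquiv.mul_apply, ih, map_mul, map_pow, hxy, ← hYs j]
      ring
  have hYb : (Y (p ^ b)) ^ p = 1 := by
    have := hsx (p ^ b)
    rw [hbx] at this
    exact (mul_right_eq_self₀.mp this.symm).resolve_right hx0
  have hYmul : ∀ c : ℕ, Y (p ^ b * c) = (Y (p ^ b)) ^ c := by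
    intro c
    induction c with
    | zero => simp [Y]
    | succ c ih =>
      rw [mul_add, mul_one, pow_succ, ← ih]
      simp only [Y]
      rw [prod_range_add]
      congr 1
      apply prod_congr rfl
      intro i _
      rw [add_comm, pow_add, AlgEquiv.mul_apply, pow_fix_of_dvd (Dvd.intro c rfl) hby]
  set n := p ^ (b + 1) with hn
  have hYn : Y n = 1 := by rw [hn, pow_succ, hYmul, hYb]
  obtain ⟨w, hw, hw1, hw2⟩ := indep b
  -- the fixed field of `s ^ n`
  set L' : IntermediateField F K := M1 ⊓ IntermediateField.fixedField (Subgroup.zpowers (s ^ n))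
    with hL'
  have hL'mem : ∀ u, u ∈ L' ↔ u ∈ M1 ∧ (s ^ n) u = u := by
    intro u
    rw [hL', IntermediateField.mem_inf, IntermediateField.mem_fixedField_iff]
    constructor
    · rintro ⟨h1, h2⟩
      exact ⟨h1, h2 _ (Subgroup.mem_zpowers _)⟩
    · rintro ⟨h1, h2⟩
      refine ⟨h1, fun g hg => ?_⟩
      obtain ⟨m, rfl⟩ := Subgroup.mem_zpowers_iff.mp hg
      have h5 : (s ^ n) ∈ MulAction.stabilizer (K ≃ₐ[F] K) u := h2
      exact (MulAction.stabilizer (K ≃ₐ[F] K) u).zpow_mem h5 m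
  have hwL : w ∈ L' := (hL'mem w).mpr ⟨hw, hw1⟩
  have hper : MulAction.period s w = n := by
    have h1 : MulAction.period s w ∣ p ^ (b + 1) := MulAction.pow_smul_eq_iff_period_dvd.mp hw1
    obtain ⟨i, hi, hi2⟩ := (Nat.dvd_prime_pow hp).mp h1
    have h2 : ¬ MulAction.period s w ∣ p ^ b := fun h =>
      hw2 (MulAction.pow_smul_eq_iff_period_dvd.mpr h)
    rw [hi2] at h2 ⊢
    have h3 : ¬ i ≤ b := fun h => h2 (pow_dvd_pow p h)
    have h4 : i = b + 1 := by omega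
    rw [h4]
  let χ : Fin n → (L' →* K) := fun m =>
    ((s ^ (m : ℕ) : K ≃ₐ[F] K) : K →* K).comp (algebraMap L' K : L' →* K)
  have hχ : ∀ m (u : L'), χ m u = (s ^ (m : ℕ)) (u : K) := fun m u => rfl
  have hχinj : Function.Injective χ := by
    intro m m' hmm
    have h1 : (s ^ (m : ℕ)) w = (s ^ (m' : ℕ)) w := by
      have := congrArg (fun g : L' →* K => g ⟨w, hwL⟩) hmm
      exact this
    have main : ∀ m m' : Fin n, (m : ℕ) ≤ m' → (s ^ (m : ℕ)) w = (s ^ (m' : ℕ)) w → m = m' := by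
      intro m m' hle h1
      obtain ⟨c, hc⟩ := Nat.exists_eq_add_of_le hle
      rw [hc, pow_add, AlgEquiv.mul_apply] at h1
      have h2 := (s ^ (m : ℕ)).injective h1
      have h3 : MulAction.period s w ∣ c := MulAction.pow_smul_eq_iff_period_dvd.mp h2.symm
      rw [hper] at h3
      have h4 : c = 0 := by
        by_contra hc0
        have := Nat.le_of_dvd (Nat.pos_of_ne_zero hc0) h3
        have := m'.2
        omega
      exact Fin.ext (by omega)
    rcases le_total (m : ℕ) m' with h | h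
    · exact main m m' h h1
    · exact (main m' m h h1.symm).symm
  have hlin : LinearIndependent K (fun m : Fin n => ((χ m : L' →* K) : L' → K)) :=
    (linearIndependent_monoidHom L' K).comp χ hχinj
  have hn0 : 0 < n := pow_pos hp.pos _
  have hex : ∃ u : L', ∑ m : Fin n, Y m * (s ^ (m : ℕ)) (u : K) ≠ 0 := by
    by_contra hcon
    push Not at hcon
    have h1 := Fintype.linearIndependent_iff.mp hlin (fun m => Y m) (by
      funext u
      rw [Finset.sum_apply]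
      exact hcon u)
    have h2 := h1 ⟨0, hn0⟩
    simp only [hY0] at h2
    exact one_ne_zero h2
  obtain ⟨u, hu⟩ := hex
  rw [Fin.sum_univ_eq_sum_range (fun m => Y m * (s ^ m) (u : K)) n] at hu
  set z := ∑ m ∈ range n, Y m * (s ^ m) (u : K) with hz
  have huM := (hL'mem u).mp u.2
  have hzM : z ∈ M1 := M1.sum_mem (fun m _ => M1.mul_mem (hYM m) (pow_stab hs m _ huM.1))
  have hsz : y * s z = z := by
    rw [hz, map_sum, mul_sum]
    have h1 : ∀ m ∈ range n, y * s (Y m * (s ^ m) (u : K)) = Y (m + 1) * (s ^ (m + 1)) (u : K) := by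
      intro m _
      rw [map_mul, ← mul_assoc, hYs, ← AlgEquiv.mul_apply, ← pow_succ']
    rw [sum_congr rfl h1]
    have h3 := sum_range_succ (fun m => Y m * (s ^ m) (u : K)) n
    have h4 := sum_range_succ' (fun m => Y m * (s ^ m) (u : K)) n
    rw [h3, hYn, huM.2, hY0, pow_zero, AlgEquiv.one_apply] at h4
    exact (add_right_cancel h4).symm
  refine ⟨z, hzM, hu, ?_⟩
  rw [hM0]
  refine ⟨M1.mul_mem hx (pow_mem hzM p), ?_⟩
  rw [map_mul, map_pow, hxy]
  calc x * y ^ p * s z ^ p = x * (y * s z) ^ p := by ring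
    _ = x * z ^ p := by rw [hsz]

/-- the kernel of `M0*/p → M1*/p` is at most one-dimensional. -/
theorem ker_inc (Cx : Ctx p F K ζ) (hζ0 : ζ ∈ M0) (hM0 : ∀ x, x ∈ M0 ↔ x ∈ M1 ∧ s x = x)
    (hle : M0 ≤ M1) :
    ∃ v, LinearMap.ker (incV p hle) ≤ Submodule.span (ZMod p) {v} := by
  have hp := Cx.hp
  have hζ := Cx.hζ
  have : Fact p.Prime := ⟨hp⟩
  have hsζ : s ζ = ζ := ((hM0 ζ).mp hζ0).2
  have hζne : ζ ≠ 0 := hζ.ne_zero hp.ne_zero
  have hker : ∀ (x : K) (hx : x ∈ M0) (hx0 : x ≠ 0), incV p hle (mkc p M0 (mku x hx hx0)) = 0 →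
      ∃ y ∈ M1, y ≠ 0 ∧ y ^ p = x ∧ ∃ j < p, s y = ζ ^ j * y := by
    intro x hx hx0 h
    rw [incV_mkc, mkc_eq_zero] at h
    obtain ⟨-, y, hy, hyp⟩ := h
    rw [mku_val] at hyp
    refine ⟨y, hy, pow_ne_zero_of hp.ne_zero (by rw [hyp]; exact hx0), hyp, ?_⟩
    apply exists_zeta_pow hp.pos hζ
    rw [← map_pow, hyp]
    exact ((hM0 x).mp hx).2
  by_cases hex : ∃ (x : K) (hx : x ∈ M0) (hx0 : x ≠ 0) (y : K), y ∈ M1 ∧ y ≠ 0 ∧ y ^ p = x ∧
      ∃ j < p, s y = ζ ^ j * y ∧ j ≠ 0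
  · obtain ⟨x, hx, hx0, y, hy, hy0, hyp, j, hj, hsy, hj0⟩ := hex
    refine ⟨mkc p M0 (mku x hx hx0), ?_⟩
    intro u hu
    obtain ⟨x', hx', hx0', rfl⟩ := mkc_mku_surj u
    obtain ⟨y', hy', hy0', hyp', j', hj', hsy'⟩ := hker x' hx' hx0' (LinearMap.mem_ker.mp hu)
    have hcop : Nat.Coprime j p := by
      rw [Nat.coprime_comm, hp.coprime_iff_not_dvd]
      intro hd
      exact absurd (Nat.le_of_dvd (Nat.pos_of_ne_zero hj0) hd) (not_le.mpr hj)
    obtain ⟨m, hm⟩ := Nat.exists_mul_mod_eq_one_of_coprime hcop hp.one_lt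
    have hζj : ζ ^ (j * m) = ζ := by
      rw [← pow_mod_orderOf, ← hζ.eq_orderOf, hm.2, pow_one]
    set e := m * j' with he
    have hye0 : y ^ e ≠ 0 := pow_ne_zero e hy0
    have h1 : s (y' / y ^ e) = y' / y ^ e := by
      rw [map_div₀, map_pow, hsy, hsy', mul_pow, he, ← pow_mul ζ j, ← mul_assoc j m, pow_mul ζ (j * m),
        hζj]
      have : ζ ^ j' ≠ 0 := pow_ne_zero _ hζne
      rw [← he]
      field_simp
    have h2 : y' / y ^ e ∈ M0 := (hM0 _).mpr ⟨M1.div_mem hy' (pow_mem hy e), h1⟩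
    have h3 : mkc p M0 (mku x' hx' hx0') = (e : ZMod p) • mkc p M0 (mku x hx hx0) := by
      have h5 : (e : ZMod p) • mkc p M0 (mku x hx hx0) =
          mkc p M0 (mku (x ^ e) (pow_mem hx e) (pow_ne_zero e hx0)) := by
        rw [Nat.cast_smul_eq_nsmul (ZMod p)]
        have h6 : e • mkc p M0 (mku x hx hx0) = mkc p M0 ((mku x hx hx0) ^ e) := rfl
        rw [h6]
        apply mkc_eq_of_val
        rw [Units.val_pow_eq_pow_val]
        rfl
      rw [h5, mkc_mku_eq_iff hp.ne_zero]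
      refine ⟨y' / y ^ e, h2, div_ne_zero hy0' hye0, ?_⟩
      have h7 : (y ^ e) ^ p = x ^ e := by rw [← pow_mul, mul_comm e p, pow_mul, hyp]
      rw [div_pow, hyp', h7]
      field_simp
    rw [h3]
    exact Submodule.smul_mem _ _ (Submodule.mem_span_singleton_self _)
  · push Not at hex
    refine ⟨0, ?_⟩
    intro u hu
    obtain ⟨x', hx', hx0', rfl⟩ := mkc_mku_surj u
    obtain ⟨y', hy', hy0', hyp', j', hj', hsy'⟩ := hker x' hx' hx0' (LinearMap.mem_ker.mp hu)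
    have hj0 : j' = 0 := hex x' hx' hx0' y' hy' hy0' hyp' j' hj' hsy'
    rw [hj0, pow_zero, one_mul] at hsy'
    have h2 : y' ∈ M0 := (hM0 _).mpr ⟨hy', hsy'⟩
    have h3 : mkc p M0 (mku x' hx' hx0') = 0 := by
      rw [mkc_eq_zero]
      exact ⟨hx0', y', h2, hyp'⟩
    rw [h3]
    exact Submodule.zero_mem _

end step

section inv

variable {ι : Type*}

/-- classes invariant under a family of automorphisms. -/
noncomputable def InvV (p : ℕ) (τ : ι → (K ≃ₐ[F] K)) (M : IntermediateField F K)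
    (h : ∀ i, ∀ x ∈ M, τ i x ∈ M) : Submodule (ZMod p) (VV p M) where
  carrier := {u | ∀ i, autV p (τ i) M (h i) u = u}
  add_mem' := by intro x y hx hy i; rw [map_add, hx i, hy i]
  zero_mem' := by intro i; rw [map_zero]
  smul_mem' := by intro c x hx i; rw [map_smul, hx i]

theorem mem_InvV {τ : ι → (K ≃ₐ[F] K)} {M : IntermediateField F K}
    {h : ∀ i, ∀ x ∈ M, τ i x ∈ M} {u : VV p M} :
    u ∈ InvV p τ M h ↔ ∀ i, autV p (τ i) M (h i) u = u := Iff.rfl

theorem incV_autV {M1 M0 : IntermediateField F K} (hle : M0 ≤ M1) {σ : K ≃ₐ[F] K}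
    (h1 : ∀ x ∈ M1, σ x ∈ M1) (h0 : ∀ x ∈ M0, σ x ∈ M0) (u : VV p M0) :
    incV p hle (autV p σ M0 h0 u) = autV p σ M1 h1 (incV p hle u) := by
  obtain ⟨x, hx, hx0, rfl⟩ := mkc_mku_surj u
  rfl

theorem invV_step [Finite ι] [Fact p.Prime] (Cx : Ctx p F K ζ) {M1 M0 : IntermediateField F K}
    {τ : ι → (K ≃ₐ[F] K)} (i0 : ι) (hζ0 : ζ ∈ M0)
    (hM0 : ∀ x, x ∈ M0 ↔ x ∈ M1 ∧ τ i0 x = x)
    (h1 : ∀ i, ∀ x ∈ M1, τ i x ∈ M1) (h0 : ∀ i, ∀ x ∈ M0, τ i x ∈ M0)
    (ord : ∀ x ∈ M1, ∃ b : ℕ, (τ i0 ^ (p ^ b)) x = x)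
    (indep : ∀ b : ℕ, ∃ w ∈ M1, (τ i0 ^ (p ^ (b + 1))) w = w ∧ (τ i0 ^ (p ^ b)) w ≠ w)
    (hfin : FiniteDimensional (ZMod p) (InvV p τ M0 h0)) :
    FiniteDimensional (ZMod p) (InvV p τ M1 h1) ∧
      finrank (ZMod p) (InvV p τ M1 h1) ≤ finrank (ZMod p) (InvV p τ M0 h0) + Nat.card ι := by
  classical
  have hp := Cx.hp
  have := Fintype.ofFinite ι
  have hle : M0 ≤ M1 := fun x hx => ((hM0 x).mp hx).1
  set inc := incV p hle with hinc
  obtain ⟨v, hv⟩ := ker_inc Cx hζ0 hM0 hle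
  have fk : FiniteDimensional (ZMod p) (LinearMap.ker inc) := Submodule.finiteDimensional_of_le hv
  have rk : finrank (ZMod p) (LinearMap.ker inc) ≤ 1 := by
    refine (Submodule.finrank_mono hv).trans ?_
    refine (finrank_span_le_card _).trans ?_
    simp
  set P : Submodule (ZMod p) (VV p M0) := (InvV p τ M1 h1).comap inc with hP
  have hΔ : ∀ i, ∀ u ∈ P, autV p (τ i) M0 (h0 i) u - u ∈ LinearMap.ker inc := by
    intro i u hu
    rw [LinearMap.mem_ker, map_sub, hinc, incV_autV hle (h1 i) (h0 i)]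
    have := (mem_InvV.mp hu) i
    rw [sub_eq_zero]
    exact this
  let Δ : P →ₗ[ZMod p] (ι → LinearMap.ker inc) :=
    { toFun := fun u i => ⟨autV p (τ i) M0 (h0 i) u - u, hΔ i u u.2⟩
      map_add' := by
        intro x y; funext i; apply Subtype.ext
        change autV p (τ i) M0 (h0 i) ((x : VV p M0) + y) - (x + y) =
          (autV p (τ i) M0 (h0 i) x - x) + (autV p (τ i) M0 (h0 i) y - y)
        rw [map_add]; abel
      map_smul' := by
        intro c x; funext i; apply Subtype.ext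
        change autV p (τ i) M0 (h0 i) (c • (x : VV p M0)) - c • (x : VV p M0) =
          c • (autV p (τ i) M0 (h0 i) x - x)
        rw [map_smul, smul_sub] }
  have hkerΔ : ∀ u : P, u ∈ LinearMap.ker Δ → (u : VV p M0) ∈ InvV p τ M0 h0 := by
    intro u hu
    rw [mem_InvV]
    intro i
    have h2 := congrFun (LinearMap.mem_ker.mp hu) i
    have h3 : autV p (τ i) M0 (h0 i) u - u = 0 := congrArg Subtype.val h2
    exact sub_eq_zero.mp h3
  have hmap : (LinearMap.ker Δ).map P.subtype ≤ InvV p τ M0 h0 := by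
    rintro _ ⟨u, hu, rfl⟩
    exact hkerΔ u hu
  have e1 := Submodule.equivSubtypeMap P (LinearMap.ker Δ)
  have f1 : FiniteDimensional (ZMod p) ((LinearMap.ker Δ).map P.subtype) :=
    Submodule.finiteDimensional_of_le hmap
  have f2 : FiniteDimensional (ZMod p) (LinearMap.ker Δ) := Module.Finite.equiv e1.symm
  have r2 : finrank (ZMod p) (LinearMap.ker Δ) ≤ finrank (ZMod p) (InvV p τ M0 h0) := by
    rw [e1.finrank_eq]
    exact Submodule.finrank_mono hmap
  have f3 : FiniteDimensional (ZMod p) (LinearMap.range Δ) := inferInstance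
  have r3 : finrank (ZMod p) (LinearMap.range Δ) ≤ Nat.card ι := by
    refine (Submodule.finrank_le _).trans ?_
    rw [Module.finrank_pi_fintype, Nat.card_eq_fintype_card]
    refine (Finset.sum_le_sum (fun i _ => rk)).trans ?_
    simp
  have e2 := LinearMap.quotKerEquivRange Δ
  have : Module.Finite (ZMod p) (P ⧸ LinearMap.ker Δ) := Module.Finite.equiv e2.symm
  have f4 : FiniteDimensional (ZMod p) P := Module.Finite.of_submodule_quotient (LinearMap.ker Δ)
  have r4 : finrank (ZMod p) P ≤ finrank (ZMod p) (InvV p τ M0 h0) + Nat.card ι := by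
    rw [← LinearMap.finrank_range_add_finrank_ker Δ]
    omega
  -- surjectivity
  have hsurj : InvV p τ M1 h1 = P.map inc := by
    apply le_antisymm
    · intro u hu
      obtain ⟨x, hx, hx0, rfl⟩ := mkc_mku_surj u
      have h2 := (mem_InvV.mp hu) i0
      rw [autV_mkc, mkc_mku_eq_iff hp.ne_zero] at h2
      obtain ⟨y, hy, hy0, hxy⟩ := h2
      obtain ⟨z, hz, hz0, hxz⟩ := h90_tower Cx hM0 (h1 i0) ord indep hx hx0 hy hxy
      have h3 : inc (mkc p M0 (mku (x * z ^ p) hxz (mul_ne_zero hx0 (pow_ne_zero p hz0)))) =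
          mkc p M1 (mku x hx hx0) := by
        rw [hinc, incV_mkc, mkc_mku_eq_iff hp.ne_zero]
        exact ⟨z, hz, hz0, rfl⟩
      refine ⟨_, ?_, h3⟩
      rw [hP]
      change inc _ ∈ InvV p τ M1 h1
      rw [h3]
      exact hu
    · rintro _ ⟨u, hu, rfl⟩
      exact hu
  rw [hsurj]
  exact ⟨inferInstance, (Submodule.finrank_map_le inc P).trans r4⟩

end inv

end Pool.Agent.Helper25.ETC
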