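import Pool.Agent.Helper25.ETCFrozen

/-!
# Finitely generated normal subgroups of maximal pro-`p` Galois groups
-/

set_option autoImplicit false

namespace Pool.Agent.Helper25.ETC

open Polynomial

/-- a finite index subgroup of a finitely generated (dense) subgroup. -/
theorem exists_finset_inf {G : Type*} [Group G] (S : Finset G) (U : Subgroup G)
    (hU : U.index ≠ 0) :
    ∃ T : Finset G, Subgroup.closure (T : Set G) = U ⊓ Subgroup.closure (S : Set G) := by
  set Γ := Subgroup.closure (S : Set G) with hΓ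
  have h1 : Group.FG Γ := by
    rw [Group.fg_iff_subgroup_fg]
    exact ⟨S, rfl⟩
  have h2 : (U.subgroupOf Γ).FiniteIndex := by
    constructor
    intro h
    exact hU (Subgroup.index_eq_zero_of_relIndex_eq_zero h)
  have h3 : Group.FG (U.subgroupOf Γ) := Subgroup.fg_of_index_ne_zero _
  rw [Group.fg_iff_subgroup_fg] at h3
  obtain ⟨T, hT⟩ := h3
  classical
  refine ⟨T.image Γ.subtype, ?_⟩
  rw [Finset.coe_image, ← MonoidHom.map_closure, hT, Subgroup.subgroupOf_map_subtype]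

variable {F K : Type*} [Field F] [Field K] [Algebra F K] {p : ℕ} {ζ : K}

theorem fixing_fixed [IsGalois F K] {H : Subgroup (K ≃ₐ[F] K)}
    (hH : IsClosed (H : Set (K ≃ₐ[F] K))) :
    (IntermediateField.fixedField H).fixingSubgroup = H :=
  InfiniteGalois.fixingSubgroup_fixedField ⟨H, hH⟩

theorem concl_of_normal (Cx : Ctx p F K ζ) {U N : Subgroup (K ≃ₐ[F] K)}
    (hU : IsOpen (U : Set (K ≃ₐ[F] K))) (hN : IsClosed (N : Set (K ≃ₐ[F] K))) (hNU : N ≤ U)
    (hn : (N.subgroupOf U).Normal) (hinf : Infinite N) (hidx : N.relIndex U = 0)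
    (S : Finset (K ≃ₐ[F] K))
    (hS : (N : Set (K ≃ₐ[F] K)) ⊆ closure (Subgroup.closure (S : Set (K ≃ₐ[F] K)))) 
    (hSN : (S : Set (K ≃ₐ[F] K)) ⊆ N) : Concl F K := by
  classical
  have := Cx.pc.gal
  have hp := Cx.hp
  have hfinidx : ∀ V : Subgroup (K ≃ₐ[F] K), IsOpen (V : Set (K ≃ₐ[F] K)) → V.index ≠ 0 := by
    intro V hV
    have := Subgroup.quotient_finite_of_isOpen V hV
    exact (Subgroup.finiteIndex_of_finite_quotient (H := V)).index_ne_zero
  set E0 := IntermediateField.fixedField U with hE0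
  have hE0U : E0.fixingSubgroup = U := fixing_fixed (U.isClosed_of_isOpen hU)
  have hE0fd : FiniteDimensional F E0 := by
    rw [← InfiniteGalois.isOpen_iff_finite, hE0U]; exact hU
  obtain ⟨ε, hε⟩ := Cx.pc.root (-1)
  have hfd1 : ∀ z : K, FiniteDimensional F (IntermediateField.adjoin F {z}) := fun z =>
    IntermediateField.adjoin.finiteDimensional (Algebra.IsIntegral.isIntegral z)
  have := hfd1 ζ
  have := hfd1 ε
  have hfd2 : FiniteDimensional F ↥(E0 ⊔ IntermediateField.adjoin F {ζ}) :=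
    IntermediateField.finiteDimensional_sup _ _
  set E2 := (E0 ⊔ IntermediateField.adjoin F {ζ}) ⊔ IntermediateField.adjoin F {ε} with hE2
  have hfd3 : FiniteDimensional F E2 := IntermediateField.finiteDimensional_sup _ _
  have hζE2 : ζ ∈ E2 := (le_sup_left : E0 ⊔ IntermediateField.adjoin F {ζ} ≤ E2)
    ((le_sup_right : IntermediateField.adjoin F {ζ} ≤ E0 ⊔ IntermediateField.adjoin F {ζ})
      (IntermediateField.mem_adjoin_simple_self F ζ))
  have hεE2 : ε ∈ E2 := (le_sup_right : IntermediateField.adjoin F {ε} ≤ E2)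
    (IntermediateField.mem_adjoin_simple_self F ε)
  have hnegE2 : (-1 : K) ∈ TT p E2 := ⟨neg_ne_zero.mpr one_ne_zero, ε, hεE2, hε⟩
  set U0 := E2.fixingSubgroup with hU0
  have hU0U : U0 ≤ U := by
    rw [← hE0U]
    exact IntermediateField.fixingSubgroup_antitone (le_sup_left.trans le_sup_left)
  have hU0open : IsOpen (U0 : Set (K ≃ₐ[F] K)) := IntermediateField.fixingSubgroup_isOpen E2
  set N0 := N ⊓ U0 with hN0
  have hN0c : IsClosed (N0 : Set (K ≃ₐ[F] K)) := by
    rw [hN0, Subgroup.coe_inf]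
    exact hN.inter (U0.isClosed_of_isOpen hU0open)
  set M := IntermediateField.fixedField N0 with hM
  have hMN0 : M.fixingSubgroup = N0 := fixing_fixed hN0c
  have hE2M : E2 ≤ M := by
    rw [hM, IntermediateField.le_iff_le]
    exact inf_le_right
  have hMtop : M ≠ ⊤ := by
    intro h
    have h1 : N0 = ⊥ := by rw [← hMN0, h, IntermediateField.fixingSubgroup_top]
    have h2 : U0.relIndex N ≠ 0 := fun h3 =>
      hfinidx U0 hU0open (Subgroup.index_eq_zero_of_relIndex_eq_zero h3)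
    rw [← Subgroup.inf_relIndex_left, ← hN0, h1, Subgroup.relIndex_bot_left] at h2
    exact h2 Nat.card_eq_zero_of_infinite
  have hMinf : ¬ FiniteDimensional F M := by
    intro h
    have h1 : IsOpen (N0 : Set (K ≃ₐ[F] K)) := by
      rw [← hMN0]; exact IntermediateField.fixingSubgroup_isOpen M
    have h2 : N0.relIndex U ≠ 0 := fun h3 =>
      hfinidx N0 h1 (Subgroup.index_eq_zero_of_relIndex_eq_zero h3)
    exact h2 (Subgroup.relIndex_eq_zero_of_le_left (inf_le_left : N0 ≤ N) hidx)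
  have hMmem : ∀ x : K, x ∈ M ↔ ∀ n ∈ N0, n x = x := fun x =>
    IntermediateField.mem_fixedField_iff N0 x
  have hconj : ∀ σ ∈ U0, ∀ n ∈ N0, σ⁻¹ * n * σ ∈ N0 := by
    intro σ hσ n hn0
    refine ⟨?_, U0.mul_mem (U0.mul_mem (U0.inv_mem hσ) hn0.2) hσ⟩
    have h1 := hn.conj_mem ⟨n, hNU hn0.1⟩ (Subgroup.mem_subgroupOf.mpr hn0.1)
      ⟨σ⁻¹, U.inv_mem (hU0U hσ)⟩
    rw [Subgroup.mem_subgroupOf] at h1
    simpa using h1
  have hstab : ∀ σ ∈ U0, ∀ x ∈ M, σ x ∈ M := by
    intro σ hσ x hx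
    rw [hMmem] at hx ⊢
    intro n hn0
    have h1 := hx _ (hconj σ hσ n hn0)
    have h2 : σ ((σ⁻¹ * n * σ) x) = n (σ x) := by
      change σ (σ.symm (n (σ x))) = _
      rw [AlgEquiv.apply_symm_apply]
    rw [← h2, h1]
  obtain ⟨T, hT⟩ := exists_finset_inf S U0 (hfinidx U0 hU0open)
  have hTN : ∀ s ∈ T, s ∈ N0 := by
    intro s hs
    have h1 : s ∈ Subgroup.closure (T : Set (K ≃ₐ[F] K)) := Subgroup.subset_closure hs
    rw [hT] at h1
    refine ⟨?_, h1.1⟩
    exact (Subgroup.closure_le N).mpr hSN h1.2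
  have hfixT : ∀ z : K, (∀ s ∈ T, s z = z) → z ∈ M := by
    intro z hz
    rw [hMmem]
    intro n hn0
    have h1 : (Subgroup.closure (T : Set (K ≃ₐ[F] K))) ≤
        (IntermediateField.adjoin F {z}).fixingSubgroup := by
      rw [Subgroup.closure_le]
      intro s hs
      rw [SetLike.mem_coe, ← Subgroup.zpowers_le, ← IntermediateField.le_iff_le,
        IntermediateField.adjoin_simple_le_iff, IntermediateField.mem_fixedField_iff]
      intro f hf
      obtain ⟨m, rfl⟩ := Subgroup.mem_zpowers_iff.mp hf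
      have h5 : s ∈ MulAction.stabilizer (K ≃ₐ[F] K) z := hz s hs
      exact (MulAction.stabilizer (K ≃ₐ[F] K) z).zpow_mem h5 m
    have h2 : n ∈ closure ((Subgroup.closure (T : Set (K ≃ₐ[F] K)) :
        Subgroup (K ≃ₐ[F] K)) : Set (K ≃ₐ[F] K)) := by
      rw [hT, Subgroup.coe_inf, Set.inter_comm]
      exact hU0open.closure_inter ⟨hS hn0.1, hn0.2⟩
    have h3 : n ∈ (IntermediateField.adjoin F {z}).fixingSubgroup := by
      have h4 := closure_minimal (s := ((Subgroup.closure (T : Set (K ≃ₐ[F] K)) :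
        Subgroup (K ≃ₐ[F] K)) : Set (K ≃ₐ[F] K))) (SetLike.coe_subset_coe.mpr h1)
        (InfiniteGalois.fixingSubgroup_isClosed _)
      exact h4 h2
    rw [IntermediateField.mem_fixingSubgroup_iff] at h3
    exact h3 z (IntermediateField.mem_adjoin_simple_self F z)
  -- exponents
  have hexp : ∀ x : {x : K // x ∈ M ∧ x ≠ 0}, ∃ y : K, y ^ p = x ∧
      ∀ s : T, ∃ j : Fin p, (s : K ≃ₐ[F] K) y = ζ ^ (j : ℕ) * y := by
    intro x
    obtain ⟨y, hy⟩ := Cx.pc.root x
    refine ⟨y, hy, fun s => ?_⟩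
    have h1 : ((s : K ≃ₐ[F] K) y) ^ p = y ^ p := by
      rw [← map_pow, hy]
      exact (hMmem _).mp x.2.1 _ (hTN _ s.2)
    obtain ⟨j, hjp, hj⟩ := exists_zeta_pow hp.pos Cx.hζ h1
    exact ⟨⟨j, hjp⟩, hj⟩
  choose y hy j hj using hexp
  have hinj : ∀ x x' : {x : K // x ∈ M ∧ x ≠ 0}, j x = j x' → (x : K) / x' ∈ TT p M := by
    intro x x' h
    have hy0 : y x ≠ 0 := by
      intro h0; apply x.2.2; rw [← hy x, h0, zero_pow hp.ne_zero]
    have hy0' : y x' ≠ 0 := by
      intro h0; apply x'.2.2; rw [← hy x', h0, zero_pow hp.ne_zero]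
    have h1 : y x / y x' ∈ M := by
      apply hfixT
      intro s hs
      have h2 := hj x ⟨s, hs⟩
      have h3 := hj x' ⟨s, hs⟩
      rw [map_div₀, h2, h3, h]
      have h4 : ζ ^ ((j x' ⟨s, hs⟩ : Fin p) : ℕ) ≠ 0 := pow_ne_zero _ (Cx.hζ.ne_zero hp.ne_zero)
      field_simp
    rw [← hy x, ← hy x', ← div_pow]
    exact pow_mem_TT h1 (div_ne_zero hy0 hy0')
  let rep : (T → Fin p) → K := fun v => if h : ∃ x, j x = v then (h.choose : K) else 1
  have hrepM : ∀ v, rep v ∈ M ∧ rep v ≠ 0 := by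
    intro v
    simp only [rep]
    split_ifs with h
    · exact h.choose.2
    · exact ⟨M.one_mem, one_ne_zero⟩
  have hrep : ∀ x ∈ M, x ≠ 0 → ∃ v, x / rep v ∈ TT p M := by
    intro x hx hx0
    refine ⟨j ⟨x, hx, hx0⟩, ?_⟩
    have h : ∃ x', j x' = j ⟨x, hx, hx0⟩ := ⟨_, rfl⟩
    simp only [rep]
    rw [dif_pos h]
    exact hinj ⟨x, hx, hx0⟩ h.choose h.choose_spec.symm
  set S' : Finset K := Finset.univ.image rep with hS'
  have hfd4 : FiniteDimensional F (IntermediateField.adjoin F (S' : Set K)) :=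
    IntermediateField.finiteDimensional_adjoin (fun x _ => Algebra.IsIntegral.isIntegral x)
  set E1 := E2 ⊔ IntermediateField.adjoin F (S' : Set K) with hE1
  have hfd5 : FiniteDimensional F E1 := IntermediateField.finiteDimensional_sup _ _
  have hE21 : E2 ≤ E1 := le_sup_left
  have hrepE1 : ∀ v, rep v ∈ E1 := by
    intro v
    apply (le_sup_right : IntermediateField.adjoin F (S' : Set K) ≤ E1)
    apply IntermediateField.subset_adjoin
    rw [hS', Finset.coe_image]
    exact ⟨v, by simp, rfl⟩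
  have hE1M : E1 ≤ M := by
    rw [hE1, sup_le_iff]
    refine ⟨hE2M, ?_⟩
    rw [IntermediateField.adjoin_le_iff]
    intro x hx
    rw [hS', Finset.coe_image] at hx
    obtain ⟨v, -, rfl⟩ := hx
    exact (hrepM v).1
  have Si : Sit p ζ E1 M :=
    { ζE := hE21 hζE2
      neg := TT_mono hE21 hnegE2
      le := hE1M
      stab := fun σ hσ => hstab σ (IntermediateField.fixingSubgroup_antitone hE21 hσ)
      rep := fun x hx hx0 => by
        obtain ⟨v, hv⟩ := hrep x hx hx0
        exact ⟨rep v, hrepE1 v, (hrepM v).2, hv⟩ }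
  refine concl_of_sit Cx Si hMtop hMinf S' (fun x hx hx0 => ?_)
  obtain ⟨v, hv⟩ := hrep x hx hx0
  exact ⟨rep v, by rw [hS']; exact Finset.mem_image_of_mem _ (Finset.mem_univ v), hv⟩

end Pool.Agent.Helper25.ETC
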