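import Pool.Agent.Helper25.ETCTowA
import Pool.Agent.Helper25.ETCTrans

/-!
# Homomorphisms of open subgroups onto `ℤ_p ^ d` and the corresponding fields
-/

set_option autoImplicit false

namespace Pool.Agent.Helper25.ETC

open Finset Module

variable {F K : Type*} [Field F] [Field K] [Algebra F K] {p : ℕ} [Fact p.Prime] {d : ℕ}

/-- a continuous surjective homomorphism from the fixing subgroup of `E` onto `ℤ_p ^ d`. -/
structure Zp (E : IntermediateField F K) (φ : E.fixingSubgroup → (Fin d → ℤ_[p])) : Prop where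
  mul : ∀ σ τ, φ (σ * τ) = φ σ + φ τ
  cont : Continuous φ
  surj : Function.Surjective φ

section

variable {E : IntermediateField F K} {φ : E.fixingSubgroup → (Fin d → ℤ_[p])}

theorem Zp.one (Z : Zp E φ) : φ 1 = 0 := by
  have := Z.mul 1 1
  rw [mul_one] at this
  exact left_eq_add.mp this

theorem Zp.inv (Z : Zp E φ) (σ : E.fixingSubgroup) : φ σ⁻¹ = -φ σ := by
  have := Z.mul σ σ⁻¹
  rw [mul_inv_cancel, Z.one] at this
  exact (neg_eq_of_add_eq_zero_right this.symm).symm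

theorem Zp.pow (Z : Zp E φ) (σ : E.fixingSubgroup) (n : ℕ) : φ (σ ^ n) = n • φ σ := by
  induction n with
  | zero => rw [pow_zero, Z.one, zero_smul]
  | succ n ih => rw [pow_succ, Z.mul, ih, succ_nsmul]

/-- multiplicative version. -/
noncomputable def Zp.hom (Z : Zp E φ) : E.fixingSubgroup →* Multiplicative (Fin d → ℤ_[p]) where
  toFun σ := Multiplicative.ofAdd (φ σ)
  map_one' := by rw [Z.one]; rfl
  map_mul' := fun σ τ => by rw [Z.mul]; rfl

theorem Zp.hom_surj (Z : Zp E φ) : Function.Surjective Z.hom := by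
  intro v
  obtain ⟨σ, hσ⟩ := Z.surj v.toAdd
  exact ⟨σ, congrArg Multiplicative.ofAdd hσ⟩

/-- the preimage of `R`, as a subgroup of the big group. -/
noncomputable def Zp.W (Z : Zp E φ) (R : AddSubgroup (Fin d → ℤ_[p])) : Subgroup (K ≃ₐ[F] K) :=
  ((AddSubgroup.toSubgroup R).comap Z.hom).map E.fixingSubgroup.subtype

theorem Zp.mem_W (Z : Zp E φ) {R : AddSubgroup (Fin d → ℤ_[p])} {σ : K ≃ₐ[F] K} :
    σ ∈ Z.W R ↔ ∃ h : σ ∈ E.fixingSubgroup, φ ⟨σ, h⟩ ∈ R := by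
  constructor
  · rintro ⟨⟨τ, hτ⟩, h1, rfl⟩
    exact ⟨hτ, h1⟩
  · rintro ⟨h, h1⟩
    exact ⟨⟨σ, h⟩, h1, rfl⟩

theorem Zp.W_mono (Z : Zp E φ) {R R' : AddSubgroup (Fin d → ℤ_[p])} (h : R ≤ R') :
    Z.W R ≤ Z.W R' := by
  intro σ hσ
  rw [Z.mem_W] at hσ ⊢
  obtain ⟨h1, h2⟩ := hσ
  exact ⟨h1, h h2⟩

theorem Zp.W_index (Z : Zp E φ) (R : AddSubgroup (Fin d → ℤ_[p])) :
    (Z.W R).index = R.index * E.fixingSubgroup.index := by
  unfold Zp.W
  rw [Subgroup.index_map_subtype, Subgroup.index_comap_of_surjective _ Z.hom_surj,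
    AddSubgroup.index_toSubgroup]

theorem Zp.W_open (Z : Zp E φ) [FiniteDimensional F E] {R : AddSubgroup (Fin d → ℤ_[p])}
    (hR : IsOpen (R : Set (Fin d → ℤ_[p]))) : IsOpen (Z.W R : Set (K ≃ₐ[F] K)) := by
  have hU : IsOpen (E.fixingSubgroup : Set (K ≃ₐ[F] K)) :=
    IntermediateField.fixingSubgroup_isOpen E
  have h1 : IsOpen (φ ⁻¹' (R : Set (Fin d → ℤ_[p]))) := hR.preimage Z.cont
  have h2 : IsOpen (Subtype.val '' (φ ⁻¹' (R : Set (Fin d → ℤ_[p])))) :=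
    hU.isOpenEmbedding_subtypeVal.isOpenMap _ h1
  convert h2
  ext σ
  rw [SetLike.mem_coe, Z.mem_W]
  constructor
  · rintro ⟨h, h3⟩; exact ⟨⟨σ, h⟩, h3, rfl⟩
  · rintro ⟨⟨τ, hτ⟩, h3, rfl⟩; exact ⟨hτ, h3⟩

/-- the fixed field. -/
noncomputable def Zp.L (Z : Zp E φ) (R : AddSubgroup (Fin d → ℤ_[p])) : IntermediateField F K :=
  IntermediateField.fixedField (Z.W R)

/-- the big abelian extension. -/
noncomputable def Zp.M (Z : Zp E φ) : IntermediateField F K := Z.L ⊥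

theorem Zp.mem_L (Z : Zp E φ) {R : AddSubgroup (Fin d → ℤ_[p])} {x : K} :
    x ∈ Z.L R ↔ ∀ σ : E.fixingSubgroup, φ σ ∈ R → (σ : K ≃ₐ[F] K) x = x := by
  unfold Zp.L
  rw [IntermediateField.mem_fixedField_iff]
  constructor
  · intro h σ hσ
    exact h σ (Z.mem_W.mpr ⟨σ.2, hσ⟩)
  · intro h σ hσ
    obtain ⟨h1, h2⟩ := Z.mem_W.mp hσ
    exact h ⟨σ, h1⟩ h2

theorem Zp.mem_M (Z : Zp E φ) {x : K} :
    x ∈ Z.M ↔ ∀ σ : E.fixingSubgroup, φ σ = 0 → (σ : K ≃ₐ[F] K) x = x := by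
  unfold Zp.M
  rw [Z.mem_L]
  simp only [AddSubgroup.mem_bot]

theorem Zp.L_le_M (Z : Zp E φ) (R : AddSubgroup (Fin d → ℤ_[p])) : Z.L R ≤ Z.M := by
  intro x hx
  rw [Z.mem_M]
  intro σ hσ
  exact Z.mem_L.mp hx σ (by rw [hσ]; exact R.zero_mem)

theorem Zp.L_anti (Z : Zp E φ) {R R' : AddSubgroup (Fin d → ℤ_[p])} (h : R ≤ R') :
    Z.L R' ≤ Z.L R := by
  intro x hx
  rw [Z.mem_L] at hx ⊢
  exact fun σ hσ => hx σ (h hσ)

theorem Zp.E_le_L (Z : Zp E φ) (R : AddSubgroup (Fin d → ℤ_[p])) : E ≤ Z.L R := by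
  intro x hx
  rw [Z.mem_L]
  intro σ _
  exact (IntermediateField.mem_fixingSubgroup_iff E _).mp σ.2 x hx

theorem Zp.L_fix [IsGalois F K] (Z : Zp E φ) [FiniteDimensional F E]
    {R : AddSubgroup (Fin d → ℤ_[p])} (hR : IsOpen (R : Set (Fin d → ℤ_[p]))) :
    (Z.L R).fixingSubgroup = Z.W R :=
  fixing_fixed ((Z.W R).isClosed_of_isOpen (Z.W_open hR))

theorem Zp.L_fin [IsGalois F K] (Z : Zp E φ) [FiniteDimensional F E]
    {R : AddSubgroup (Fin d → ℤ_[p])} (hR : IsOpen (R : Set (Fin d → ℤ_[p]))) :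
    FiniteDimensional F (Z.L R) := by
  rw [← InfiniteGalois.isOpen_iff_finite, Z.L_fix hR]
  exact Z.W_open hR

theorem Zp.L_finrank [IsGalois F K] (Z : Zp E φ) [FiniteDimensional F E]
    {R : AddSubgroup (Fin d → ℤ_[p])} (hR : IsOpen (R : Set (Fin d → ℤ_[p]))) :
    finrank F (Z.L R) = R.index * finrank F E := by
  rw [IntermediateField.finrank_eq_fixingSubgroup_index, Z.L_fix hR, Z.W_index,
    IntermediateField.finrank_eq_fixingSubgroup_index]

theorem Zp.exists_moved [IsGalois F K] (Z : Zp E φ) [FiniteDimensional F E]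
    {R : AddSubgroup (Fin d → ℤ_[p])} (hR : IsOpen (R : Set (Fin d → ℤ_[p])))
    {σ : E.fixingSubgroup} (hσ : φ σ ∉ R) : ∃ w ∈ Z.L R, (σ : K ≃ₐ[F] K) w ≠ w := by
  have h1 : (σ : K ≃ₐ[F] K) ∉ (Z.L R).fixingSubgroup := by
    rw [Z.L_fix hR, Z.mem_W]
    rintro ⟨_, h⟩
    exact hσ h
  rw [IntermediateField.mem_fixingSubgroup_iff] at h1
  push Not at h1
  obtain ⟨w, hw, h⟩ := h1
  exact ⟨w, hw, h⟩

theorem Zp.comm (Z : Zp E φ) (σ τ : E.fixingSubgroup) {x : K} (hx : x ∈ Z.M) :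
    (σ : K ≃ₐ[F] K) ((τ : K ≃ₐ[F] K) x) = (τ : K ≃ₐ[F] K) ((σ : K ≃ₐ[F] K) x) := by
  have h1 := Z.mem_M.mp hx ((τ * σ)⁻¹ * (σ * τ)) (by
    rw [Z.mul, Z.inv, Z.mul, Z.mul]; abel)
  have h2 := congrArg ((τ * σ : E.fixingSubgroup) : K ≃ₐ[F] K) h1
  rw [← AlgEquiv.mul_apply, ← Subgroup.coe_mul, mul_inv_cancel_left] at h2
  exact h2

theorem Zp.stab (Z : Zp E φ) (σ : E.fixingSubgroup) {x : K} (hx : x ∈ Z.M) :
    (σ : K ≃ₐ[F] K) x ∈ Z.M := by
  rw [Z.mem_M] at hx ⊢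
  intro ν hν
  have h1 := hx (σ⁻¹ * ν * σ) (by rw [Z.mul, Z.mul, Z.inv, hν]; abel)
  have h2 := congrArg (σ : K ≃ₐ[F] K) h1
  rw [← AlgEquiv.mul_apply, ← Subgroup.coe_mul] at h2
  have e : σ * (σ⁻¹ * ν * σ) = ν * σ := by group
  rw [e] at h2
  exact h2

/-- equal values act equally. -/
theorem Zp.act_eq (Z : Zp E φ) {σ τ : E.fixingSubgroup} (h : φ σ = φ τ) {x : K} (hx : x ∈ Z.M) :
    (σ : K ≃ₐ[F] K) x = (τ : K ≃ₐ[F] K) x := by
  have h1 := Z.mem_M.mp hx (τ⁻¹ * σ) (by rw [Z.mul, Z.inv, h]; abel)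
  have h2 := congrArg (τ : K ≃ₐ[F] K) h1
  rw [← AlgEquiv.mul_apply, ← Subgroup.coe_mul, mul_inv_cancel_left] at h2
  exact h2

/-- multiples of `p ^ l`. -/
noncomputable def Rl (p : ℕ) [Fact p.Prime] (d l : ℕ) : AddSubgroup (Fin d → ℤ_[p]) where
  carrier := {v | ∀ i, (p : ℤ_[p]) ^ l ∣ v i}
  add_mem' := fun hx hy i => dvd_add (hx i) (hy i)
  zero_mem' := fun _ => dvd_zero _
  neg_mem' := fun hx i => (dvd_neg).mpr (hx i)

/-- `v` with `p ^ l ∣ ∑ q_i v_i`. -/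
noncomputable def Rq (q : Fin d → ℤ_[p]) (l : ℕ) : AddSubgroup (Fin d → ℤ_[p]) where
  carrier := {v | (p : ℤ_[p]) ^ l ∣ ∑ i, q i * v i}
  add_mem' := by
    intro x y hx hy
    have : ∑ i, q i * (x + y) i = ∑ i, q i * x i + ∑ i, q i * y i := by
      rw [← sum_add_distrib]; exact sum_congr rfl (fun i _ => mul_add _ _ _)
    change (p : ℤ_[p]) ^ l ∣ ∑ i, q i * (x + y) i
    rw [this]
    exact dvd_add hx hy
  zero_mem' := by
    change (p : ℤ_[p]) ^ l ∣ ∑ i, q i * (0 : Fin d → ℤ_[p]) i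
    simp
  neg_mem' := by
    intro x hx
    have : ∑ i, q i * (-x) i = - ∑ i, q i * x i := by
      rw [← sum_neg_distrib]; exact sum_congr rfl (fun i _ => by simp)
    change (p : ℤ_[p]) ^ l ∣ ∑ i, q i * (-x) i
    rw [this]
    exact (dvd_neg).mpr hx

theorem isOpen_dvd (l : ℕ) : IsOpen {x : ℤ_[p] | (p : ℤ_[p]) ^ l ∣ x} := by
  have : {x : ℤ_[p] | (p : ℤ_[p]) ^ l ∣ x} = {x : ℤ_[p] | ‖x‖ < (p : ℝ) ^ (-(l : ℤ) + 1)} := by
    ext x
    simp only [Set.mem_ofPred_eq]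
    rw [← PadicInt.norm_le_pow_iff_norm_lt_pow_add_one, PadicInt.norm_le_pow_iff_mem_span_pow,
      Ideal.mem_span_singleton]
  rw [this]
  exact isOpen_lt continuous_norm continuous_const

theorem Rl_open (l : ℕ) : IsOpen (Rl p d l : Set (Fin d → ℤ_[p])) := by
  have : (Rl p d l : Set (Fin d → ℤ_[p])) = ⋂ i, (fun v : Fin d → ℤ_[p] => v i) ⁻¹' {x | (p : ℤ_[p]) ^ l ∣ x} := by
    ext v
    simp only [Set.mem_iInter]
    rfl
  rw [this]
  exact isOpen_iInter_of_finite (fun i => (isOpen_dvd l).preimage (continuous_apply i))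

theorem Rq_open (q : Fin d → ℤ_[p]) (l : ℕ) : IsOpen (Rq q l : Set (Fin d → ℤ_[p])) := by
  have h : Continuous (fun v : Fin d → ℤ_[p] => ∑ i, q i * v i) :=
    continuous_finsetSum _ (fun i _ => continuous_const.mul (continuous_apply i))
  exact (isOpen_dvd l).preimage h

theorem Rl_index (l : ℕ) : (Rl p d l).index = p ^ (l * d) := by
  let g : (Fin d → ℤ_[p]) →+ (Fin d → ZMod (p ^ l)) :=
    { toFun := fun v i => PadicInt.toZModPow l (v i)
      map_zero' := by funext i; simp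
      map_add' := by intro x y; funext i; simp }
  have hg : Function.Surjective g := by
    intro v
    choose w hw using fun i => ZMod.ringHom_surjective (PadicInt.toZModPow (p := p) l) (v i)
    exact ⟨w, funext hw⟩
  have hker : g.ker = Rl p d l := by
    ext v
    rw [AddMonoidHom.mem_ker]
    have h1 : ∀ x : ℤ_[p], PadicInt.toZModPow l x = 0 ↔ (p : ℤ_[p]) ^ l ∣ x := by
      intro x
      rw [← RingHom.mem_ker, PadicInt.ker_toZModPow, Ideal.mem_span_singleton]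
    constructor
    · intro h i
      exact (h1 _).mp (congrFun h i)
    · intro h
      funext i
      exact (h1 _).mpr (h i)
  rw [← hker, AddSubgroup.index_ker, AddMonoidHom.range_eq_top.mpr hg]
  rw [AddSubgroup.card_top, Nat.card_eq_fintype_card, Fintype.card_pi]
  simp [ZMod.card, ← pow_mul]

/-- the image of the stabiliser of `x`. -/
theorem Zp.exists_l [IsGalois F K] (Z : Zp E φ) {x : K} (hx : x ∈ Z.M) :
    ∃ l, x ∈ Z.L (Rl p d l) := by
  have hp : p.Prime := Fact.out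
  have hint : IsIntegral F x := Algebra.IsIntegral.isIntegral x
  have : FiniteDimensional F (IntermediateField.adjoin F {x}) :=
    IntermediateField.adjoin.finiteDimensional hint
  set O := (IntermediateField.adjoin F {x}).fixingSubgroup with hO
  have hOopen : IsOpen (O : Set (K ≃ₐ[F] K)) := IntermediateField.fixingSubgroup_isOpen _
  have hOidx : O.index ≠ 0 := by
    have := Subgroup.quotient_finite_of_isOpen O hOopen
    exact (Subgroup.finiteIndex_of_finite_quotient (H := O)).index_ne_zero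
  have h1 : (O.subgroupOf E.fixingSubgroup).index ≠ 0 := fun h =>
    hOidx (Subgroup.index_eq_zero_of_relIndex_eq_zero h)
  set Q := (O.subgroupOf E.fixingSubgroup).map Z.hom with hQ
  have h2 : Q.index ≠ 0 := by
    intro h
    have := Subgroup.index_map_dvd (O.subgroupOf E.fixingSubgroup) Z.hom_surj
    rw [← hQ, h] at this
    exact h1 (zero_dvd_iff.mp this)
  set n := Q.index with hn
  obtain ⟨l, u, hu, hnu⟩ := Nat.exists_eq_pow_mul_and_not_dvd h2 p hp.ne_one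
  refine ⟨l, Z.mem_L.mpr (fun σ hσ => ?_)⟩
  choose w hw using hσ
  -- `u` is a unit
  have hunit : IsUnit (u : ℤ_[p]) := by
    rw [PadicInt.isUnit_iff, PadicInt.norm_natCast_eq_one_iff]
    exact (Nat.Prime.coprime_iff_not_dvd hp).mpr hu
  obtain ⟨u', hu'⟩ := hunit.exists_right_inv
  have h3 : φ σ = n • (fun i => u' * w i) := by
    funext i
    rw [hw i, Pi.smul_apply, nsmul_eq_mul, hnu]
    push_cast
    linear_combination (-(p : ℤ_[p]) ^ l * w i) * hu'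
  have h4 : (Multiplicative.ofAdd (fun i => u' * w i)) ^ n ∈ Q := Q.pow_index_mem _
  obtain ⟨τ, hτ, hτ2⟩ := h4
  have h5 : φ τ = φ σ := by
    rw [h3]
    exact congrArg Multiplicative.toAdd hτ2
  rw [← Z.act_eq h5 hx]
  have h6 : (τ : K ≃ₐ[F] K) ∈ O := hτ
  rw [hO, IntermediateField.mem_fixingSubgroup_iff] at h6
  exact h6 x (IntermediateField.mem_adjoin_simple_self F x)

theorem Zp.mem_Ll [IsGalois F K] (Z : Zp E φ) {t : Fin d → E.fixingSubgroup}
    (ht : ∀ i, φ (t i) = Pi.single i 1) {x : K} (hx : x ∈ Z.M) {l : ℕ}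
    (h : ∀ i, ((t i : K ≃ₐ[F] K) ^ (p ^ l)) x = x) : x ∈ Z.L (Rl p d l) := by
  classical
  obtain ⟨l', hl'⟩ := Z.exists_l hx
  rw [Z.mem_L] at hl' ⊢
  intro σ hσ
  choose w hw using hσ
  -- `φ σ = ∑ n_i p^l e_i + p^l' (...)`
  have happ : ∀ i, ∃ v : ℤ_[p], w i = PadicInt.appr (w i) l' + (p : ℤ_[p]) ^ l' * v := by
    intro i
    obtain ⟨v, hv⟩ := Ideal.mem_span_singleton.mp (PadicInt.appr_spec l' (w i))
    exact ⟨v, by rw [← hv]; ring⟩
  choose v hv using happ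
  obtain ⟨τ', hτ'⟩ := Z.surj (fun i => (p : ℤ_[p]) ^ l' * ((p : ℤ_[p]) ^ l * v i))
  -- products of powers of the `t i`
  have hprod : ∀ s : Finset (Fin d), ∃ τ : E.fixingSubgroup, (τ : K ≃ₐ[F] K) x = x ∧
      φ τ = ∑ i ∈ s, (PadicInt.appr (w i) l' * p ^ l) • (Pi.single i 1 : Fin d → ℤ_[p]) := by
    intro s
    induction s using Finset.induction_on with
    | empty => exact ⟨1, rfl, by rw [Z.one, sum_empty]⟩
    | insert i s hi ih =>
      obtain ⟨τ, hτ1, hτ2⟩ := ih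
      refine ⟨(t i) ^ (PadicInt.appr (w i) l' * p ^ l) * τ, ?_, ?_⟩
      · rw [Subgroup.coe_mul, AlgEquiv.mul_apply, hτ1, Subgroup.coe_pow]
        exact pow_fix_of_dvd (Dvd.intro_left _ rfl) (h i)
      · rw [Z.mul, Z.pow, ht, hτ2, sum_insert hi]
  obtain ⟨τ, hτ1, hτ2⟩ := hprod Finset.univ
  have h7 : φ σ = φ (τ * τ') := by
    rw [Z.mul, hτ2, hτ']
    funext i
    rw [Pi.add_apply, Finset.sum_apply]
    have e1 : ∑ c, ((PadicInt.appr (w c) l' * p ^ l) • (Pi.single c 1 : Fin d → ℤ_[p])) i =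
        ((PadicInt.appr (w i) l' * p ^ l : ℕ) : ℤ_[p]) := by
      rw [Finset.sum_eq_single i]
      · simp [nsmul_eq_mul]
      · intro c _ hc
        rw [Pi.smul_apply, Pi.single_apply, if_neg (Ne.symm hc), smul_zero]
      · intro hc; exact absurd (Finset.mem_univ i) hc
    rw [e1, hw i]
    push_cast
    linear_combination (p : ℤ_[p]) ^ l * hv i
  rw [Z.act_eq h7 hx, Subgroup.coe_mul, AlgEquiv.mul_apply, hl' τ' (fun i => by
    rw [hτ']; exact Dvd.intro _ rfl), hτ1]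

end

end Pool.Agent.Helper25.ETC
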