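import Pool.Agent.Helper25.ETCTowB

/-!
# Bounding the invariant classes of the big extension
-/

set_option autoImplicit false

namespace Pool.Agent.Helper25.ETC

open Finset Module

variable {F K : Type*} [Field F] [Field K] [Algebra F K] {p : ℕ} {ζ : K}

theorem mem_fixedField_closure {S : Set (K ≃ₐ[F] K)} {x : K} :
    x ∈ IntermediateField.fixedField (Subgroup.closure S) ↔ ∀ g ∈ S, g x = x := by
  rw [IntermediateField.mem_fixedField_iff]
  constructor
  · intro h g hg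
    exact h g (Subgroup.subset_closure hg)
  · intro h g hg
    have : Subgroup.closure S ≤ MulAction.stabilizer (K ≃ₐ[F] K) x := by
      rw [Subgroup.closure_le]
      exact fun g hg => h g hg
    exact this hg

/-- elements of `M` fixed by `s i`, `i < j`. -/
noncomputable def MJ {d : ℕ} (M : IntermediateField F K) (s : Fin d → (K ≃ₐ[F] K)) (j : ℕ) :
    IntermediateField F K :=
  M ⊓ IntermediateField.fixedField (Subgroup.closure {g | ∃ i : Fin d, (i : ℕ) < j ∧ s i = g})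

theorem mem_MJ {d : ℕ} {M : IntermediateField F K} {s : Fin d → (K ≃ₐ[F] K)} {j : ℕ} {x : K} :
    x ∈ MJ M s j ↔ x ∈ M ∧ ∀ i : Fin d, (i : ℕ) < j → s i x = x := by
  unfold MJ
  rw [IntermediateField.mem_inf, mem_fixedField_closure]
  constructor
  · rintro ⟨h1, h2⟩
    exact ⟨h1, fun i hi => h2 _ ⟨i, hi, rfl⟩⟩
  · rintro ⟨h1, h2⟩
    refine ⟨h1, ?_⟩
    rintro _ ⟨i, hi, rfl⟩
    exact h2 i hi

theorem invV_congr {ι : Type*} {τ : ι → (K ≃ₐ[F] K)} {M M' : IntermediateField F K} (h : M = M')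
    (h1 : ∀ i, ∀ x ∈ M, τ i x ∈ M) (h2 : ∀ i, ∀ x ∈ M', τ i x ∈ M') {n : ℕ} [Fact p.Prime]
    (hf : FiniteDimensional (ZMod p) (InvV p τ M h1) ∧ finrank (ZMod p) (InvV p τ M h1) ≤ n) :
    FiniteDimensional (ZMod p) (InvV p τ M' h2) ∧ finrank (ZMod p) (InvV p τ M' h2) ≤ n := by
  subst h
  exact hf

variable [Fact p.Prime] {d : ℕ} {E : IntermediateField F K}
  {φ : E.fixingSubgroup → (Fin d → ℤ_[p])}

theorem Zp.coe_pow_mem (σ : E.fixingSubgroup) (n : ℕ) :
    ((σ ^ n : E.fixingSubgroup) : K ≃ₐ[F] K) = (σ : K ≃ₐ[F] K) ^ n := Subgroup.coe_pow _ _ _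

theorem Zp.dim_bound (Cx : Ctx p F K ζ) [FiniteDimensional F E] (hζE : ζ ∈ E) (Z : Zp E φ)
    {t : Fin d → E.fixingSubgroup} (ht : ∀ i, φ (t i) = Pi.single i 1) (k : ℕ) {m : ℕ}
    (hm : Nat.card (PC p (Z.L (Rl p d k))) = p ^ m)
    (hst : ∀ i, ∀ x ∈ Z.M, ((t i ^ (p ^ k) : E.fixingSubgroup) : K ≃ₐ[F] K) x ∈ Z.M) :
    FiniteDimensional (ZMod p)
      (InvV p (fun i => ((t i ^ (p ^ k) : E.fixingSubgroup) : K ≃ₐ[F] K)) Z.M hst) ∧
    finrank (ZMod p)
      (InvV p (fun i => ((t i ^ (p ^ k) : E.fixingSubgroup) : K ≃ₐ[F] K)) Z.M hst) ≤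
        m + d * d := by
  classical
  have := Cx.pc.gal
  have hp := Cx.hp
  set s : Fin d → (K ≃ₐ[F] K) := fun i => ((t i ^ (p ^ k) : E.fixingSubgroup) : K ≃ₐ[F] K) with hs
  have hsφ : ∀ i, φ (t i ^ (p ^ k)) = (p ^ k) • (Pi.single i 1 : Fin d → ℤ_[p]) := by
    intro i; rw [Z.pow, ht]
  have hstab : ∀ j i, ∀ x ∈ MJ Z.M s j, s i x ∈ MJ Z.M s j := by
    intro j i x hx
    rw [mem_MJ] at hx ⊢
    refine ⟨Z.stab _ hx.1, fun i' hi' => ?_⟩
    rw [hs]
    rw [Z.comm _ _ hx.1]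
    congr 1
    exact hx.2 i' hi'
  have hMJd : MJ Z.M s d = Z.L (Rl p d k) := by
    ext x
    rw [mem_MJ]
    constructor
    · rintro ⟨h1, h2⟩
      exact Z.mem_Ll ht h1 (fun i => by
        have := h2 i i.2
        rw [hs] at this
        simpa using this)
    · intro hx
      refine ⟨Z.L_le_M _ hx, fun i _ => ?_⟩
      apply Z.mem_L.mp hx
      rw [hsφ]
      intro c
      rw [Pi.smul_apply, nsmul_eq_mul]
      push_cast
      exact Dvd.intro _ rfl
  have hζL : ∀ j, ζ ∈ MJ Z.M s j := by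
    intro j
    rw [mem_MJ]
    refine ⟨Z.E_le_L _ hζE, fun i _ => ?_⟩
    exact (IntermediateField.mem_fixingSubgroup_iff E _).mp (t i ^ (p ^ k)).2 ζ hζE
  have key : ∀ n, n ≤ d → FiniteDimensional (ZMod p)
      (InvV p s (MJ Z.M s (d - n)) (hstab (d - n))) ∧
      finrank (ZMod p) (InvV p s (MJ Z.M s (d - n)) (hstab (d - n))) ≤ m + n * d := by
    intro n
    induction n with
    | zero =>
      intro _
      rw [Nat.sub_zero]
      have h1 : Nat.card (VV p (MJ Z.M s d)) = p ^ m := by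
        rw [← hm, ← hMJd]; rfl
      have hfin : Finite (VV p (MJ Z.M s d)) :=
        Nat.finite_of_card_ne_zero (by rw [h1]; exact pow_ne_zero _ hp.ne_zero)
      have hfd : FiniteDimensional (ZMod p) (VV p (MJ Z.M s d)) := Module.Finite.of_finite
      have h2 : Nat.card (VV p (MJ Z.M s d)) =
          Nat.card (ZMod p) ^ finrank (ZMod p) (VV p (MJ Z.M s d)) := Module.natCard_eq_pow_finrank
      rw [h1, Nat.card_zmod] at h2
      have h3 : m = finrank (ZMod p) (VV p (MJ Z.M s d)) := Nat.pow_right_injective hp.two_le h2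
      refine ⟨inferInstance, ?_⟩
      refine (Submodule.finrank_le _).trans ?_
      omega
    | succ n ih =>
      intro hn
      obtain ⟨ih1, ih2⟩ := ih (by omega)
      have hj : d - n = (d - (n + 1)) + 1 := by omega
      set j := d - (n + 1) with hjdef
      have hjd : j < d := by omega
      have hM0 : ∀ x, x ∈ MJ Z.M s (d - n) ↔ x ∈ MJ Z.M s j ∧ s ⟨j, hjd⟩ x = x := by
        intro x
        rw [hj, mem_MJ, mem_MJ]
        constructor
        · rintro ⟨h1, h2⟩
          exact ⟨⟨h1, fun i hi => h2 i (by omega)⟩, h2 ⟨j, hjd⟩ (Nat.lt_succ_self j)⟩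
        · rintro ⟨⟨h1, h2⟩, h3⟩
          refine ⟨h1, fun i hi => ?_⟩
          rcases Nat.lt_or_ge (i : ℕ) j with h | h
          · exact h2 i h
          · have : i = ⟨j, hjd⟩ := Fin.ext (by simp only; omega)
            rw [this]; exact h3
      have hord : ∀ x ∈ MJ Z.M s j, ∃ b : ℕ, (s ⟨j, hjd⟩ ^ (p ^ b)) x = x := by
        intro x hx
        obtain ⟨l, hl⟩ := Z.exists_l (mem_MJ.mp hx).1
        refine ⟨l, ?_⟩
        rw [Z.mem_L] at hl
        have h1 := hl ((t ⟨j, hjd⟩ ^ (p ^ k)) ^ (p ^ l)) (by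
          rw [Z.pow, hsφ]
          intro c
          rw [Pi.smul_apply, nsmul_eq_mul]
          push_cast
          exact Dvd.intro _ rfl)
        rw [Subgroup.coe_pow] at h1
        exact h1
      have hind : ∀ b : ℕ, ∃ w ∈ MJ Z.M s j, (s ⟨j, hjd⟩ ^ (p ^ (b + 1))) w = w ∧
          (s ⟨j, hjd⟩ ^ (p ^ b)) w ≠ w := by
        intro b
        have hval : ∀ (i : Fin d) (n : ℕ), ∑ c, (Pi.single ⟨j, hjd⟩ (1 : ℤ_[p]) : Fin d → ℤ_[p]) c *
            φ ((t i ^ (p ^ k)) ^ n) c = if i = ⟨j, hjd⟩ then (n : ℤ_[p]) * (p : ℤ_[p]) ^ k else 0 := by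
          intro i n
          rw [Finset.sum_eq_single (⟨j, hjd⟩ : Fin d)]
          · rw [Z.pow, hsφ, Pi.single_eq_same, one_mul, Pi.smul_apply, Pi.smul_apply,
              nsmul_eq_mul, nsmul_eq_mul, Pi.single_apply]
            by_cases h : i = ⟨j, hjd⟩
            · rw [if_pos h, if_pos h.symm]; push_cast; ring
            · rw [if_neg h, if_neg (Ne.symm h)]; ring
          · intro c _ hc
            rw [Pi.single_apply, if_neg hc, zero_mul]
          · intro h; exact absurd (Finset.mem_univ _) h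
        obtain ⟨w, hw, hwm⟩ := Z.exists_moved (Rq_open (Pi.single ⟨j, hjd⟩ (1 : ℤ_[p])) (k + b + 1))
          (σ := (t ⟨j, hjd⟩ ^ (p ^ k)) ^ (p ^ b)) (by
            intro h
            have h1 : (p : ℤ_[p]) ^ (k + b + 1) ∣ ∑ c,
              (Pi.single ⟨j, hjd⟩ (1 : ℤ_[p]) : Fin d → ℤ_[p]) c *
                φ ((t ⟨j, hjd⟩ ^ (p ^ k)) ^ (p ^ b)) c := h
            rw [hval, if_pos rfl] at h1
            push_cast at h1
            rw [← pow_add, pow_dvd_pow_iff (by exact_mod_cast hp.ne_zero) PadicInt.prime_p.not_isUnit] at h1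
            omega)
        refine ⟨w, ?_, ?_, ?_⟩
        · rw [mem_MJ]
          refine ⟨Z.L_le_M _ hw, fun i hi => ?_⟩
          have h2 := Z.mem_L.mp hw ((t i ^ (p ^ k)) ^ 1) (by
            change (p : ℤ_[p]) ^ (k + b + 1) ∣ ∑ c,
              (Pi.single ⟨j, hjd⟩ (1 : ℤ_[p]) : Fin d → ℤ_[p]) c * φ ((t i ^ (p ^ k)) ^ 1) c
            rw [hval, if_neg]
            · exact dvd_zero _
            · intro h
              rw [h] at hi
              exact lt_irrefl _ hi)
          rw [pow_one] at h2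
          exact h2
        · have h2 := Z.mem_L.mp hw ((t ⟨j, hjd⟩ ^ (p ^ k)) ^ (p ^ (b + 1))) (by
            change (p : ℤ_[p]) ^ (k + b + 1) ∣ ∑ c,
              (Pi.single ⟨j, hjd⟩ (1 : ℤ_[p]) : Fin d → ℤ_[p]) c *
                φ ((t ⟨j, hjd⟩ ^ (p ^ k)) ^ (p ^ (b + 1))) c
            rw [hval, if_pos rfl]
            push_cast
            rw [← pow_add]
            exact pow_dvd_pow _ (by omega))
          rw [Subgroup.coe_pow] at h2
          exact h2
        · rw [Subgroup.coe_pow] at hwm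
          exact hwm
      have h5 := invV_step Cx (M1 := MJ Z.M s j) (M0 := MJ Z.M s (d - n)) (τ := s) ⟨j, hjd⟩
        (hζL _) hM0 (hstab j) (hstab (d - n)) hord hind ih1
      rw [Nat.card_eq_fintype_card, Fintype.card_fin] at h5
      refine ⟨h5.1, h5.2.trans ?_⟩
      rw [Nat.add_mul, one_mul, ← add_assoc]
      exact Nat.add_le_add_right ih2 d
  have h6 := key d le_rfl
  refine invV_congr ?_ (hstab (d - d)) hst h6
  ext x
  rw [Nat.sub_self, mem_MJ]
  exact ⟨fun h => h.1, fun h => ⟨h, fun i hi => absurd hi (Nat.not_lt_zero _)⟩⟩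

end Pool.Agent.Helper25.ETC
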