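import Pool.Agent.Helper25.ETCTowC

/-!
# A finite specialisation
-/

set_option autoImplicit false

namespace Pool.Agent.Helper25.ETC

open Finset Module

variable {F K : Type*} [Field F] [Field K] [Algebra F K] {p : ℕ} {ζ : K}

theorem autV_sub_pow [Fact p.Prime] {M : IntermediateField F K} {σ : K ≃ₐ[F] K}
    (h : ∀ x ∈ M, σ x ∈ M) (n : ℕ) :
    (autV p σ M h - 1) ^ (p ^ n) = (autV p σ M h) ^ (p ^ n) - 1 := by
  by_cases hs : Subsingleton (VV p M)
  · ext u; exact Subsingleton.elim _ _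
  · rw [not_subsingleton_iff_nontrivial] at hs
    have : CharP (Module.End (ZMod p) (VV p M)) p := charP_of_injective_algebraMap
          (algebraMap (ZMod p) (Module.End (ZMod p) (VV p M))).injective p
    rw [sub_pow_char_pow_of_commute (p := p) n (Commute.one_right (autV p σ M h)), one_pow]

theorem autV_comp {M : IntermediateField F K} {σ τ : K ≃ₐ[F] K}
    (h : ∀ x ∈ M, σ x ∈ M) (h' : ∀ x ∈ M, τ x ∈ M) (hc : ∀ x ∈ M, σ (τ x) = τ (σ x))
    (u : VV p M) : autV p σ M h (autV p τ M h' u) = autV p τ M h' (autV p σ M h u) := by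
  obtain ⟨x, hx, hx0, rfl⟩ := mkc_mku_surj u
  rw [autV_mkc, autV_mkc, autV_mkc, autV_mkc]
  exact mkc_eq_of_val (hc x hx)

variable [Fact p.Prime] {e : ℕ} {E : IntermediateField F K}
  {φ : E.fixingSubgroup → (Fin (e + 1) → ℤ_[p])}

theorem Zp.exists_special (Cx : Ctx p F K ζ) [FiniteDimensional F E] (hζE : ζ ∈ E) (Z : Zp E φ)
    {t : Fin (e + 1) → E.fixingSubgroup} (ht : ∀ i, φ (t i) = Pi.single i 1) (k : ℕ) {m : ℕ}
    (hm : Nat.card (PC p (Z.L (Rl p (e + 1) k))) = p ^ m)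
    (hlt : m + (e + 1) * (e + 1) < p ^ (k * (e + 1)))
    (hst : ∀ σ : E.fixingSubgroup, ∀ x ∈ Z.M, (σ : K ≃ₐ[F] K) x ∈ Z.M) :
    ∃ q : Fin e → ℕ, ∃ V : Submodule (ZMod p) (VV p Z.M), FiniteDimensional (ZMod p) V ∧
      ∀ u, (∀ i : Fin e, autV p (t i.castSucc : K ≃ₐ[F] K) Z.M (hst _) u =
        ((autV p (t (Fin.last e) : K ≃ₐ[F] K) Z.M (hst _)) ^ (p ^ q i)) u) → u ∈ V := by
  classical
  have := Cx.pc.gal
  have hp := Cx.hp
  set T : Module.End (ZMod p) (VV p Z.M) := autV p (t (Fin.last e) : K ≃ₐ[F] K) Z.M (hst _) - 1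
    with hTdef
  set S : Fin e → Module.End (ZMod p) (VV p Z.M) := fun i =>
    autV p (t i.castSucc : K ≃ₐ[F] K) Z.M (hst _) - 1 with hSdef
  set a := p ^ k with ha
  have ha0 : 0 < a := pow_pos hp.pos k
  obtain ⟨hfd, hrk⟩ := Z.dim_bound Cx hζE ht k hm (fun i => hst _)
  -- powers
  have hpowfix : ∀ (σ : E.fixingSubgroup) (n : ℕ) (x : K) (hx : x ∈ Z.M) (hx0 : x ≠ 0),
      ((autV p (σ : K ≃ₐ[F] K) Z.M (hst _) - 1) ^ (p ^ n)) (mkc p Z.M (mku x hx hx0)) =
      autV p ((σ ^ (p ^ n) : E.fixingSubgroup) : K ≃ₐ[F] K) Z.M (hst _) (mkc p Z.M (mku x hx hx0)) -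
        mkc p Z.M (mku x hx hx0) := by
    intro σ n x hx hx0
    rw [autV_sub_pow, LinearMap.sub_apply, Module.End.one_apply]
    congr 1
    have h1 : ∀ y ∈ Z.M, ((σ : K ≃ₐ[F] K) ^ (p ^ n)) y ∈ Z.M := by
      intro y hy
      rw [← Subgroup.coe_pow]
      exact hst _ y hy
    rw [autV_pow_mkc _ _ h1, autV_mkc]
    apply mkc_eq_of_val
    rw [mku_val, mku_val, Subgroup.coe_pow]
  have hT : ∀ u : VV p Z.M, ∃ n : ℕ, (T ^ n) u = 0 := by
    intro u
    obtain ⟨x, hx, hx0, rfl⟩ := mkc_mku_surj u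
    obtain ⟨l, hl⟩ := Z.exists_l hx
    refine ⟨p ^ l, ?_⟩
    rw [hTdef, hpowfix, autV_mkc, sub_eq_zero]
    apply mkc_eq_of_val
    rw [mku_val, mku_val]
    apply Z.mem_L.mp hl
    rw [Z.pow, ht]
    intro c
    rw [Pi.smul_apply, nsmul_eq_mul]
    push_cast
    exact Dvd.intro _ rfl
  have hST : ∀ i u, S i (T u) = T (S i u) := by
    intro i u
    have h1 := autV_comp (p := p) (hst (t i.castSucc)) (hst (t (Fin.last e)))
      (fun x hx => Z.comm _ _ hx) u
    simp only [hTdef, hSdef, LinearMap.sub_apply, Module.End.one_apply, map_sub, h1]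
    abel
  have hWle : Wk T S a a ≤
      InvV p (fun i => ((t i ^ (p ^ k) : E.fixingSubgroup) : K ≃ₐ[F] K)) Z.M (fun i => hst _) := by
    intro u hu
    rw [mem_InvV]
    obtain ⟨x, hx, hx0, rfl⟩ := mkc_mku_surj u
    obtain ⟨h1, h2⟩ := hu
    intro i
    rcases Fin.eq_castSucc_or_eq_last i with ⟨c, rfl⟩ | rfl
    · have h3 := h2 c
      rw [hSdef, ha] at h3
      simp only at h3
      rw [hpowfix, sub_eq_zero] at h3
      exact h3
    · rw [hTdef, ha, hpowfix, sub_eq_zero] at h1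
      exact h1
  have hWfd : FiniteDimensional (ZMod p) (Wk T S a a) := Submodule.finiteDimensional_of_le hWle
  have hWrk := (Submodule.finrank_mono hWle).trans hrk
  let Q : Fin a → ℕ := fun j => p ^ (k + j)
  have hQ : Function.Injective Q := by
    intro i j hij
    have := Nat.pow_right_injective hp.two_le hij
    exact Fin.ext (by omega)
  have hQa : ∀ j, a ≤ Q j := fun j => Nat.pow_le_pow_right hp.pos (Nat.le_add_right _ _)
  have hex : ∃ f : Fin e → Fin a, FiniteDimensional (ZMod p) (Mf T S (fun i => Q (f i))) := by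
    by_contra hcon
    push Not at hcon
    have h1 := independence hT hST ha0 hQ hQa hWfd hcon
    rw [Nat.card_fun, Nat.card_eq_fintype_card (α := Fin a), Fintype.card_fin,
      Nat.card_eq_fintype_card (α := Fin e), Fintype.card_fin, ← pow_succ] at h1
    have h2 : a ^ (e + 1) = p ^ (k * (e + 1)) := by rw [ha, ← pow_mul]
    rw [h2] at h1
    omega
  obtain ⟨f, hf⟩ := hex
  refine ⟨fun i => k + f i, Mf T S (fun i => Q (f i)), hf, ?_⟩
  intro u hu
  rw [mem_Mf]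
  intro i
  have h1 : T ^ Q (f i) = (autV p (t (Fin.last e) : K ≃ₐ[F] K) Z.M (hst _)) ^ (p ^ (k + (f i : ℕ))) - 1 :=
    autV_sub_pow (hst _) (k + f i)
  have h2 := hu i
  simp only at h2
  have h3 : S i u = autV p (t i.castSucc : K ≃ₐ[F] K) Z.M (hst _) u - u := rfl
  rw [h3, h2, h1]
  rfl

end Pool.Agent.Helper25.ETC
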