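import Pool.Agent.Helper25.ETCTowD

/-!
# Slow growth along a `ℤ_p ^ d`-extension
-/

set_option autoImplicit false

namespace Pool.Agent.Helper25.ETC

open Polynomial Finset Module

variable {F K : Type*} [Field F] [Field K] [Algebra F K] {p : ℕ} {ζ : K}

theorem finrank_step_eq (Cx : Ctx p F K ζ) {A B : IntermediateField F K} {β : K}
    [FiniteDimensional F B] (hζA : ζ ∈ A) (St : Step p A B β) :
    finrank F B = finrank F A * p := by
  have hp := Cx.hp
  have hζ := Cx.hζ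
  apply le_antisymm (finrank_step St)
  have : FiniteDimensional F A := Module.Finite.of_injective
    (IntermediateField.inclusion St.le).toLinearMap (IntermediateField.inclusion_injective St.le)
  set a : A := ⟨β ^ p, St.pow_mem⟩ with ha
  have hroot : ∀ b : A, b ^ p ≠ a := by
    intro b hb
    have h1 : (b : K) ^ p = β ^ p := congrArg (algebraMap A K) hb
    obtain ⟨j, -, hj⟩ := exists_zeta_pow hp.pos hζ h1.symm
    apply St.notMem
    rw [hj]
    exact A.mul_mem (pow_mem hζA j) b.2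
  have hirr := X_pow_sub_C_irreducible_of_prime hp hroot
  have hmonic : (X ^ p - C a : A[X]).Monic := monic_X_pow_sub_C a hp.ne_zero
  have hzero : aeval β (X ^ p - C a : A[X]) = 0 := by
    rw [map_sub, map_pow, aeval_X, aeval_C, sub_eq_zero]; rfl
  have hmin : minpoly A β = X ^ p - C a :=
    (minpoly.eq_of_irreducible_of_monic hirr hzero hmonic).symm
  let g : (Fin p → A) →ₗ[F] B :=
    { toFun := fun e => ⟨∑ j : Fin p, (e j : K) * β ^ (j : ℕ),
        B.sum_mem (fun j _ => B.mul_mem (St.le (e j).2) (pow_mem St.mem _))⟩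
      map_add' := by
        intro x y
        apply Subtype.ext
        change ∑ j : Fin p, ((x j : K) + (y j : K)) * β ^ (j : ℕ) =
          ∑ j : Fin p, (x j : K) * β ^ (j : ℕ) + ∑ j : Fin p, (y j : K) * β ^ (j : ℕ)
        rw [← sum_add_distrib]
        exact sum_congr rfl (fun j _ => add_mul _ _ _)
      map_smul' := by
        intro c x
        apply Subtype.ext
        change ∑ j : Fin p, (c • (x j : K)) * β ^ (j : ℕ) = c • ∑ j : Fin p, (x j : K) * β ^ (j : ℕ)
        rw [smul_sum]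
        exact sum_congr rfl (fun j _ => smul_mul_assoc _ _ _) }
  have hg : Function.Injective g := by
    rw [injective_iff_map_eq_zero]
    intro x hx
    have h1 : ∑ j : Fin p, (x j : K) * β ^ (j : ℕ) = 0 := congrArg Subtype.val hx
    set G : A[X] := ∑ j : Fin p, C (x j) * X ^ (j : ℕ) with hG
    have h2 : aeval β G = 0 := by
      rw [hG, map_sum, ← h1]
      apply sum_congr rfl
      intro j _
      rw [map_mul, aeval_C, map_pow, aeval_X]; rfl
    have hcoeff : ∀ j : Fin p, G.coeff j = x j := by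
      intro j
      rw [hG, finsetSum_coeff, Finset.sum_eq_single j]
      · rw [coeff_C_mul_X_pow, if_pos rfl]
      · intro i _ hi
        rw [coeff_C_mul_X_pow, if_neg]
        intro h
        exact hi (Fin.ext h.symm)
      · intro h; exact absurd (Finset.mem_univ j) h
    have hG0 : G = 0 := by
      by_contra hne
      have h3 := minpoly.degree_le_of_ne_zero A β hne h2
      rw [hmin, degree_X_pow_sub_C hp.pos] at h3
      have h4 : G.degree < (p : WithBot ℕ) := by
        rw [hG]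
        exact degree_sum_fin_lt x
      exact absurd h3 (not_le.mpr h4)
    funext j
    rw [← hcoeff j, hG0, coeff_zero]
    rfl
  have h1 := LinearMap.finrank_le_finrank_of_injective hg
  rw [Module.finrank_pi_fintype] at h1
  simpa [mul_comm] using h1

variable [Fact p.Prime] {e : ℕ} {E : IntermediateField F K}
  {φ : E.fixingSubgroup → (Fin (e + 1) → ℤ_[p])}

theorem Rl_anti (d : ℕ) {l l' : ℕ} (h : l ≤ l') : Rl p d l' ≤ Rl p d l :=
  fun _ hv i => (pow_dvd_pow _ h).trans (hv i)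

theorem Zp.le_Ll [IsGalois F K] (Z : Zp E φ) {E' : IntermediateField F K} [FiniteDimensional F E']
    (h : E' ≤ Z.M) : ∃ l, ∀ l', l ≤ l' → E' ≤ Z.L (Rl p (e + 1) l') := by
  obtain ⟨θ, hθ⟩ := Field.exists_primitive_element F E'
  obtain ⟨l, hl⟩ := Z.exists_l (h θ.2)
  refine ⟨l, fun l' hl' => ?_⟩
  have h1 : (θ : K) ∈ Z.L (Rl p (e + 1) l') := Z.L_anti (Rl_anti _ hl') hl
  have h2 : (⊤ : IntermediateField F E') ≤ (Z.L (Rl p (e + 1) l')).comap E'.val := by
    rw [← hθ, IntermediateField.adjoin_simple_le_iff]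
    exact h1
  intro x hx
  exact h2 (IntermediateField.mem_top : (⟨x, hx⟩ : E') ∈ _)

theorem concl_of_tower (Cx : Ctx p F K ζ) [FiniteDimensional F E] (hζE : ζ ∈ E)
    (hneg : (-1 : K) ∈ TT p E) (Z : Zp E φ) (hninj : 1 ≤ e ∨ ∃ σ : E.fixingSubgroup, σ ≠ 1 ∧ φ σ = 0)
    {E' : IntermediateField F K} [FiniteDimensional F E'] (hEE' : E ≤ E') (hE'M : E' ≤ Z.M)
    {n' μ : ℕ} (hcard : Nat.card (PC p E') = p ^ n') (hdeg : finrank F E' = finrank F E * μ)
    (hle : n' ≤ μ) : Concl F K := by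
  classical
  have := Cx.pc.gal
  have hp := Cx.hp
  have hζ := Cx.hζ
  choose t ht using fun i : Fin (e + 1) => Z.surj (Pi.single i 1)
  have hst : ∀ σ : E.fixingSubgroup, ∀ x ∈ Z.M, (σ : K ≃ₐ[F] K) x ∈ Z.M := fun σ x hx => Z.stab σ hx
  have hEpos : 0 < finrank F E := finrank_pos
  have hμ : 0 < μ := by
    have : 0 < finrank F E' := finrank_pos
    rw [hdeg] at this
    exact Nat.pos_of_mul_pos_left this
  -- choice of `k`
  obtain ⟨k0, hk0⟩ := Z.le_Ll hE'M
  set c := μ * (1 + (e + 1) * (e + 1)) with hc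
  set k := max k0 c with hk
  have hkc : c < p ^ k := (le_max_right k0 c).trans_lt (Nat.lt_pow_self hp.one_lt)
  have hE'L := hk0 k (le_max_left _ _)
  have hRo := Rl_open (p := p) (d := e + 1) k
  have hLfin := Z.L_fin hRo
  obtain ⟨j, m, hj, hm, hmle⟩ := tower_induction hp hζ Cx.pc (hEE' hζE) hE'L
    (fun A => ∃ j m, finrank F A = finrank F E' * p ^ j ∧ Nat.card (PC p A) = p ^ m ∧
      m ≤ 1 + p ^ j * (n' - 1))
    ⟨0, n', by simp, hcard, by rw [pow_zero, one_mul]; omega⟩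
    (by
      rintro A B β hA hB St ⟨j, m, h1, h2, h3⟩
      have fB : FiniteDimensional F B := Module.Finite.of_injective
        (IntermediateField.inclusion hB).toLinearMap (IntermediateField.inclusion_injective hB)
      obtain ⟨m', h4, h5⟩ := schreier_step Cx (hA (hEE' hζE)) St h2
      refine ⟨j + 1, m', ?_, h4, h5.trans ?_⟩
      · rw [finrank_step_eq Cx (hA (hEE' hζE)) St, h1, pow_succ, mul_assoc]
      · have h6 : m - 1 ≤ p ^ j * (n' - 1) := by omega
        have h7 := Nat.mul_le_mul_left p h6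
        rw [pow_succ, mul_comm (p ^ j) p, mul_assoc]
        omega)
  have hfr := Z.L_finrank hRo
  rw [Rl_index, hj, hdeg] at hfr
  have hμj : μ * p ^ j = p ^ (k * (e + 1)) := by
    have : finrank F E * (μ * p ^ j) = finrank F E * p ^ (k * (e + 1)) := by
      rw [← mul_assoc, hfr, mul_comm]
    exact Nat.eq_of_mul_eq_mul_left hEpos this
  have hkd : p ^ k ≤ p ^ (k * (e + 1)) :=
    Nat.pow_le_pow_right hp.pos (Nat.le_mul_of_pos_right k (Nat.succ_pos e))
  have hjbig : 1 + (e + 1) * (e + 1) < p ^ j := by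
    by_contra hcon
    push Not at hcon
    have := Nat.mul_le_mul_left μ hcon
    rw [hμj] at this
    omega
  have hlt : m + (e + 1) * (e + 1) < p ^ (k * (e + 1)) := by
    obtain ⟨ν, rfl⟩ : ∃ ν, μ = ν + 1 := ⟨μ - 1, by omega⟩
    have h1 : p ^ j * (n' - 1) ≤ p ^ j * ν := Nat.mul_le_mul_left _ (by omega)
    have h2 : (ν + 1) * p ^ j = p ^ j * ν + p ^ j := by ring
    rw [← hμj, h2]
    omega
  obtain ⟨q, V, hV, hVmem⟩ := Z.exists_special Cx hζE ht k hm hlt hst
  have hVfin : Finite V := Module.finite_of_finite (ZMod p)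
  -- the special `ℤ_p`-extension
  set tl := t (Fin.last e) with htl
  let r : Fin e → E.fixingSubgroup := fun i => (tl ^ (p ^ q i))⁻¹ * t i.castSucc
  let s : Fin e → (K ≃ₐ[F] K) := fun i => (r i : K ≃ₐ[F] K)
  set M' := MJ Z.M s e with hM'
  have hM'mem : ∀ x, x ∈ M' ↔ x ∈ Z.M ∧ ∀ i, (r i : K ≃ₐ[F] K) x = x := by
    intro x
    rw [hM', mem_MJ]
    constructor
    · rintro ⟨h1, h2⟩; exact ⟨h1, fun i => h2 i i.2⟩
    · rintro ⟨h1, h2⟩; exact ⟨h1, fun i _ => h2 i⟩
  have hM'M : M' ≤ Z.M := fun x hx => ((hM'mem x).mp hx).1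
  have hact : ∀ x ∈ M', ∀ i : Fin e, (t i.castSucc : K ≃ₐ[F] K) x =
      ((tl ^ (p ^ q i) : E.fixingSubgroup) : K ≃ₐ[F] K) x := by
    intro x hx i
    have h1 := ((hM'mem x).mp hx).2 i
    have h2 := congrArg ((tl ^ (p ^ q i) : E.fixingSubgroup) : K ≃ₐ[F] K) h1
    rw [← AlgEquiv.mul_apply, ← Subgroup.coe_mul, mul_inv_cancel_left] at h2
    exact h2
  -- classes of elements of `M'`
  have hclass : ∀ (x : K) (hx : x ∈ M') (hx0 : x ≠ 0),
      mkc p Z.M (mku x (hM'M hx) hx0) ∈ V := by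
    intro x hx hx0
    apply hVmem
    intro i
    have h1 : ∀ y ∈ Z.M, ((tl : K ≃ₐ[F] K) ^ (p ^ q i)) y ∈ Z.M := by
      intro y hy
      rw [← Subgroup.coe_pow]
      exact hst _ y hy
    rw [autV_mkc, autV_pow_mkc _ _ h1]
    apply mkc_eq_of_val
    rw [mku_val, mku_val, hact x hx i, Subgroup.coe_pow]
  -- base points
  let base : V → K := fun v => if h : ∃ (x : K) (hx : x ∈ M') (hx0 : x ≠ 0),
    mkc p Z.M (mku x (hM'M hx) hx0) = v then h.choose else 1
  have hbase : ∀ v, base v ∈ M' ∧ base v ≠ 0 := by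
    intro v
    simp only [base]
    split_ifs with h
    · exact ⟨h.choose_spec.choose, h.choose_spec.choose_spec.choose⟩
    · exact ⟨M'.one_mem, one_ne_zero⟩
  have hexp : ∀ x : {x : K // x ∈ M' ∧ x ≠ 0}, ∃ v : V, ∃ y ∈ Z.M, y ≠ 0 ∧
      (x : K) = base v * y ^ p ∧ ∀ i, ∃ l : Fin p, (r i : K ≃ₐ[F] K) y = ζ ^ (l : ℕ) * y := by
    rintro ⟨x, hx, hx0⟩
    have hex : ∃ (x' : K) (hx' : x' ∈ M') (hx0' : x' ≠ 0),
        mkc p Z.M (mku x' (hM'M hx') hx0') =
          ((⟨mkc p Z.M (mku x (hM'M hx) hx0), hclass x hx hx0⟩ : V) : VV p Z.M) :=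
      ⟨x, hx, hx0, rfl⟩
    refine ⟨⟨mkc p Z.M (mku x (hM'M hx) hx0), hclass x hx hx0⟩, ?_⟩
    have hb := hbase ⟨mkc p Z.M (mku x (hM'M hx) hx0), hclass x hx hx0⟩
    have hb2 : mkc p Z.M (mku x (hM'M hx) hx0) = mkc p Z.M (mku (base
        ⟨mkc p Z.M (mku x (hM'M hx) hx0), hclass x hx hx0⟩) (hM'M hb.1) hb.2) := by
      have h2 := hex.choose_spec.choose_spec.choose_spec
      refine Eq.trans h2.symm ?_
      apply mkc_eq_of_val
      rw [mku_val, mku_val]
      simp only [base]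
      rw [dif_pos hex]
    rw [mkc_mku_eq_iff hp.ne_zero] at hb2
    obtain ⟨y, hy, hy0, hxy⟩ := hb2
    refine ⟨y, hy, hy0, hxy, fun i => ?_⟩
    have h1 : ((r i : K ≃ₐ[F] K) y) ^ p = y ^ p := by
      have h2 := ((hM'mem x).mp hx).2 i
      have h3 := ((hM'mem _).mp hb.1).2 i
      rw [hxy, map_mul, h3, map_pow] at h2
      exact mul_left_cancel₀ hb.2 h2
    obtain ⟨l, hl, hl2⟩ := exists_zeta_pow hp.pos hζ h1
    exact ⟨⟨l, hl⟩, hl2⟩
  choose vf yf hyM hy0 hxy lf hlf using hexp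
  have hinj : ∀ x x' : {x : K // x ∈ M' ∧ x ≠ 0}, (vf x, lf x) = (vf x', lf x') →
      (x : K) / x' ∈ TT p M' := by
    intro x x' h
    obtain ⟨h1, h2⟩ := Prod.ext_iff.mp h
    simp only at h1 h2
    have h3 : yf x / yf x' ∈ M' := by
      rw [hM'mem]
      refine ⟨Z.M.div_mem (hyM x) (hyM x'), fun i => ?_⟩
      rw [map_div₀, hlf x i, hlf x' i, h2]
      have h4 : ζ ^ ((lf x' i : Fin p) : ℕ) ≠ 0 := pow_ne_zero _ (hζ.ne_zero hp.ne_zero)
      field_simp
    have h5 : (x : K) / x' = (yf x / yf x') ^ p := by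
      rw [hxy x, hxy x', h1, div_pow]
      have := (hbase (vf x')).2
      have := hy0 x'
      field_simp
    rw [h5]
    exact pow_mem_TT h3 (div_ne_zero (hy0 x) (hy0 x'))
  have hfinV : Finite (V × (Fin e → Fin p)) := inferInstance
  have := Fintype.ofFinite (V × (Fin e → Fin p))
  let rep : V × (Fin e → Fin p) → K := fun v =>
    if h : ∃ x, (vf x, lf x) = v then (h.choose : K) else 1
  have hrepM : ∀ v, rep v ∈ M' ∧ rep v ≠ 0 := by
    intro v
    simp only [rep]
    split_ifs with h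
    · exact h.choose.2
    · exact ⟨M'.one_mem, one_ne_zero⟩
  have hrep : ∀ x ∈ M', x ≠ 0 → ∃ v, x / rep v ∈ TT p M' := by
    intro x hx hx0
    refine ⟨(vf ⟨x, hx, hx0⟩, lf ⟨x, hx, hx0⟩), ?_⟩
    have h : ∃ x', (vf x', lf x') = (vf ⟨x, hx, hx0⟩, lf ⟨x, hx, hx0⟩) := ⟨_, rfl⟩
    simp only [rep]
    rw [dif_pos h]
    exact hinj ⟨x, hx, hx0⟩ h.choose h.choose_spec.symm
  set S' : Finset K := Finset.univ.image rep with hS'
  have hfd4 : FiniteDimensional F (IntermediateField.adjoin F (S' : Set K)) :=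
    IntermediateField.finiteDimensional_adjoin (fun x _ => Algebra.IsIntegral.isIntegral x)
  set E1 := E ⊔ IntermediateField.adjoin F (S' : Set K) with hE1
  have hfd5 : FiniteDimensional F E1 := IntermediateField.finiteDimensional_sup _ _
  have hE21 : E ≤ E1 := le_sup_left
  have hrepE1 : ∀ v, rep v ∈ E1 := by
    intro v
    apply (le_sup_right : IntermediateField.adjoin F (S' : Set K) ≤ E1)
    apply IntermediateField.subset_adjoin
    rw [hS', Finset.coe_image]
    exact ⟨v, by simp, rfl⟩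
  have hEM' : E ≤ M' := by
    intro x hx
    rw [hM'mem]
    exact ⟨Z.E_le_L _ hx, fun i => (IntermediateField.mem_fixingSubgroup_iff E _).mp (r i).2 x hx⟩
  have hE1M : E1 ≤ M' := by
    rw [hE1, sup_le_iff]
    refine ⟨hEM', ?_⟩
    rw [IntermediateField.adjoin_le_iff]
    intro x hx
    rw [hS', Finset.coe_image] at hx
    obtain ⟨v, -, rfl⟩ := hx
    exact (hrepM v).1
  have hstab' : ∀ σ : E.fixingSubgroup, ∀ x ∈ M', (σ : K ≃ₐ[F] K) x ∈ M' := by
    intro σ x hx
    rw [hM'mem] at hx ⊢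
    refine ⟨Z.stab σ hx.1, fun i => ?_⟩
    rw [Z.comm _ _ hx.1, hx.2 i]
  have Si : Sit p ζ E1 M' :=
    { ζE := hE21 hζE
      neg := TT_mono hE21 hneg
      le := hE1M
      stab := fun σ hσ => hstab' ⟨σ, IntermediateField.fixingSubgroup_antitone hE21 hσ⟩
      rep := fun x hx hx0 => by
        obtain ⟨v, hv⟩ := hrep x hx hx0
        exact ⟨rep v, hrepE1 v, (hrepM v).2, hv⟩ }
  have hMtop : M' ≠ ⊤ := by
    intro h
    rcases hninj with he | ⟨σ, hσ1, hσ⟩
    · -- `r 0` acts nontrivially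
      have h1 : r ⟨0, he⟩ = 1 := by
        apply Subtype.ext
        ext x
        have hx : x ∈ M' := by rw [h]; exact IntermediateField.mem_top
        exact ((hM'mem x).mp hx).2 ⟨0, he⟩
      have h2 : φ (r ⟨0, he⟩) (Fin.castSucc ⟨0, he⟩) = 0 := by rw [h1, Z.one]; rfl
      simp only [r] at h2
      rw [Z.mul, Z.inv, Z.pow, htl, ht, ht, Pi.add_apply, Pi.neg_apply, Pi.smul_apply,
        Pi.single_eq_same, Pi.single_apply, if_neg (Fin.castSucc_lt_last _).ne, smul_zero,
        neg_zero, zero_add] at h2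
      exact one_ne_zero h2
    · apply hσ1
      apply Subtype.ext
      ext x
      have hx : x ∈ M' := by rw [h]; exact IntermediateField.mem_top
      exact Z.mem_M.mp (hM'M hx) σ hσ
  have hMinf : ¬ FiniteDimensional F M' := by
    intro hfd
    obtain ⟨l, hl⟩ := Z.le_Ll hM'M
    have hML := hl l le_rfl
    let χ : Fin (e + 1) → ℤ_[p] := Fin.lastCases 1 (fun i => (p : ℤ_[p]) ^ q i)
    have hχl : χ (Fin.last e) = 1 := Fin.lastCases_last
    have hχi : ∀ i : Fin e, χ i.castSucc = (p : ℤ_[p]) ^ q i := fun i => Fin.lastCases_castSucc i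
    have hsum : ∀ i : Fin (e + 1), ∀ a : ℤ_[p],
        ∑ c, χ c * (a • (Pi.single i 1 : Fin (e + 1) → ℤ_[p])) c = χ i * a := by
      intro i a
      rw [Finset.sum_eq_single i]
      · simp
      · intro c _ hc
        rw [Pi.smul_apply, Pi.single_apply, if_neg hc]; simp
      · intro h; exact absurd (Finset.mem_univ i) h
    have hφtl : ∀ n : ℕ, φ (tl ^ (p ^ n)) = ((p : ℤ_[p]) ^ n) • (Pi.single (Fin.last e) 1 : Fin (e + 1) → ℤ_[p]) := by
      intro n
      rw [Z.pow, htl, ht]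
      funext c
      simp [nsmul_eq_mul]
    obtain ⟨w, hw, hwm⟩ := Z.exists_moved (Rq_open χ (l + 1)) (σ := tl ^ (p ^ l)) (by
      intro h
      have h1 : (p : ℤ_[p]) ^ (l + 1) ∣ ∑ c, χ c * φ (tl ^ (p ^ l)) c := h
      rw [hφtl, hsum, hχl, one_mul, pow_dvd_pow_iff (by exact_mod_cast hp.ne_zero)
        PadicInt.prime_p.not_isUnit] at h1
      omega)
    have hwM' : w ∈ M' := by
      rw [hM'mem]
      refine ⟨Z.L_le_M _ hw, fun i => ?_⟩
      apply Z.mem_L.mp hw
      change (p : ℤ_[p]) ^ (l + 1) ∣ ∑ c, χ c * φ (r i) c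
      have h1 : φ (r i) = (1 : ℤ_[p]) • (Pi.single i.castSucc 1 : Fin (e + 1) → ℤ_[p]) -
          ((p : ℤ_[p]) ^ q i) • (Pi.single (Fin.last e) 1 : Fin (e + 1) → ℤ_[p]) := by
        simp only [r]
        rw [Z.mul, Z.inv, hφtl, ht, one_smul]
        abel
      have h2 : ∑ c, χ c * φ (r i) c = 0 := by
        rw [h1]
        have h3 : ∀ c, χ c * ((1 : ℤ_[p]) • (Pi.single i.castSucc 1 : Fin (e + 1) → ℤ_[p]) -
            ((p : ℤ_[p]) ^ q i) • (Pi.single (Fin.last e) 1 : Fin (e + 1) → ℤ_[p])) c =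
            χ c * ((1 : ℤ_[p]) • (Pi.single i.castSucc 1 : Fin (e + 1) → ℤ_[p])) c -
            χ c * (((p : ℤ_[p]) ^ q i) • (Pi.single (Fin.last e) 1 : Fin (e + 1) → ℤ_[p])) c := by
          intro c
          rw [Pi.sub_apply, mul_sub]
        rw [Finset.sum_congr rfl (fun c _ => h3 c), Finset.sum_sub_distrib, hsum, hsum, hχl, hχi]
        ring
      rw [h2]
      exact dvd_zero _
    apply hwm
    apply Z.mem_L.mp (hML hwM')
    rw [hφtl]
    intro c
    rw [Pi.smul_apply, smul_eq_mul]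
    exact Dvd.intro _ rfl
  refine concl_of_sit Cx Si hMtop hMinf S' (fun x hx hx0 => ?_)
  obtain ⟨v, hv⟩ := hrep x hx hx0
  exact ⟨rep v, by rw [hS']; exact Finset.mem_image_of_mem _ (Finset.mem_univ v), hv⟩

end Pool.Agent.Helper25.ETC
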