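import Mathlib

/-!
# Valuation rings from rigid elements

`T ≤ H` multiplicative groups of a field `k` such that every `z` outside `H` satisfies
`1 - z ∈ T ∪ zT`.  Under one further condition (`QQ`) the set `O(T,H)` is a valuation ring.
-/

set_option autoImplicit false

namespace Pool.Agent.Helper25.ETC

/-- A multiplicative group inside a field, given as a set. -/
structure IsMG {k : Type*} [Field k] (T : Set k) : Prop where
  zero : (0 : k) ∉ T
  one : (1 : k) ∈ T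
  mul : ∀ {x y : k}, x ∈ T → y ∈ T → x * y ∈ T
  inv : ∀ {x : k}, x ∈ T → x⁻¹ ∈ T

namespace IsMG

variable {k : Type*} [Field k] {T : Set k}

theorem ne_zero (h : IsMG T) {x : k} (hx : x ∈ T) : x ≠ 0 := by
  rintro rfl; exact h.zero hx

theorem div (h : IsMG T) {x y : k} (hx : x ∈ T) (hy : y ∈ T) : x / y ∈ T := by
  rw [div_eq_mul_inv]; exact h.mul hx (h.inv hy)

theorem inv_iff (h : IsMG T) {x : k} : x⁻¹ ∈ T ↔ x ∈ T := by
  constructor
  · intro hx; have := h.inv hx; rwa [inv_inv] at this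
  · exact h.inv

theorem mul_left (h : IsMG T) {x y : k} (hx : x ∈ T) : x * y ∈ T ↔ y ∈ T := by
  constructor
  · intro hxy
    have := h.mul (h.inv hx) hxy
    rwa [inv_mul_cancel_left₀ (h.ne_zero hx)] at this
  · exact h.mul hx

theorem mul_right (h : IsMG T) {x y : k} (hx : x ∈ T) : y * x ∈ T ↔ y ∈ T := by
  rw [mul_comm]; exact h.mul_left hx

theorem pow (h : IsMG T) {x : k} (hx : x ∈ T) (n : ℕ) : x ^ n ∈ T := by
  induction n with
  | zero => simpa using h.one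
  | succ n ih => rw [pow_succ]; exact h.mul ih hx

end IsMG

/-- `T ≤ H`, `-1 ∈ T` and every `z ∉ H` satisfies `1 - z ∈ T ∪ zT`. -/
structure VD {k : Type*} [Field k] (T H : Set k) : Prop where
  mT : IsMG T
  mH : IsMG H
  sub : T ⊆ H
  neg : (-1 : k) ∈ T
  str : ∀ z : k, z ≠ 0 → z ∉ H → 1 - z ∈ T ∨ (1 - z) * z⁻¹ ∈ T

/-- the set of `z ∉ H` with `1 - z ∈ T`. -/
def AA {k : Type*} [Field k] (T H : Set k) : Set k := {z | z ≠ 0 ∧ z ∉ H ∧ 1 - z ∈ T}

/-- the extra condition on products of elements of `AA T H` that fall into `H`. -/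
def QQ {k : Type*} [Field k] (T H : Set k) : Prop :=
  ∀ x ∈ AA T H, ∀ y ∈ AA T H, x * y ∈ H →
    1 - x * y ∈ T ∧ ∀ w ∈ AA T H, x * y * w ∈ AA T H

/-- the valuation ring `O(T,H)` as a set. -/
def OO {k : Type*} [Field k] (T H : Set k) : Set k :=
  {z | z = 0 ∨ z ∈ AA T H ∨ (z ∈ H ∧ ∀ w ∈ AA T H, z * w ∈ AA T H)}

namespace VD

variable {k : Type*} [Field k] {T H : Set k}

theorem neg_mem (D : VD T H) {x : k} (hx : x ∈ T) : -x ∈ T := by
  have := D.mT.mul D.neg hx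
  rwa [neg_one_mul] at this

theorem neg_iff (D : VD T H) {x : k} : -x ∈ T ↔ x ∈ T := by
  constructor
  · intro h; have := D.neg_mem h; rwa [neg_neg] at this
  · exact D.neg_mem

theorem neg_iff_H (D : VD T H) {x : k} : -x ∈ H ↔ x ∈ H := by
  rw [← neg_one_mul]; exact D.mH.mul_left (D.sub D.neg)

theorem inv_notMem (D : VD T H) {x : k} (hx : x ∉ H) : x⁻¹ ∉ H := by
  rwa [D.mH.inv_iff]

theorem one_sub_inv (x : k) (hx : x ≠ 0) : 1 - x⁻¹ = -((1 - x) * x⁻¹) := by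
  field_simp; ring

theorem mem_or_inv (D : VD T H) {z : k} (hz : z ≠ 0) (hzH : z ∉ H) :
    z ∈ AA T H ∨ z⁻¹ ∈ AA T H := by
  rcases D.str z hz hzH with h | h
  · exact Or.inl ⟨hz, hzH, h⟩
  · refine Or.inr ⟨inv_ne_zero hz, D.inv_notMem hzH, ?_⟩
    rw [one_sub_inv z hz]; exact D.neg_mem h

theorem inv_notMem_AA (D : VD T H) {z : k} (hz : z ∈ AA T H) : z⁻¹ ∉ AA T H := by
  rintro ⟨_, _, h2⟩
  obtain ⟨h0, hH, h1⟩ := hz
  rw [one_sub_inv z h0, D.neg_iff, D.mT.mul_left h1, D.mT.inv_iff] at h2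
  exact hH (D.sub h2)

/-- `1 - xy ∈ T ∪ xT`. -/
theorem one_sub_mul (D : VD T H) {x y : k} (hx : x ∈ AA T H) (hy : y ∈ AA T H) :
    1 - x * y ∈ T ∨ (1 - x * y) * x⁻¹ ∈ T := by
  obtain ⟨hx0, hxH, hx1⟩ := hx
  obtain ⟨hy0, hyH, hy1⟩ := hy
  have n1 := D.mT.ne_zero hx1
  set x' : k := -(x * ((1 - y) / (1 - x))) with hx'
  have hq : (1 - y) / (1 - x) ∈ T := D.mT.div hy1 hx1
  have hx'0 : x' ≠ 0 := neg_ne_zero.mpr (mul_ne_zero hx0 (D.mT.ne_zero hq))
  have hx'H : x' ∉ H := by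
    rw [hx', D.neg_iff_H, D.mH.mul_right (D.sub hq)]; exact hxH
  have e : 1 - x * y = (1 - x) * (1 - x') := by
    rw [hx']; field_simp; ring
  rcases D.str x' hx'0 hx'H with h | h
  · left; rw [e]; exact D.mT.mul hx1 h
  · right
    have e2 : (1 - x * y) * x⁻¹ = -((1 - y) * ((1 - x') * x'⁻¹)) := by
      rw [e, hx']
      have : (1 - y) ≠ 0 := D.mT.ne_zero hy1
      field_simp
    rw [e2]; exact D.neg_mem (D.mT.mul hy1 h)

/-- products of elements of `A` in different `T`-classes. -/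
theorem one_sub_mul' (D : VD T H) {x y : k} (hx : x ∈ AA T H) (hy : y ∈ AA T H)
    (hxy : x * y⁻¹ ∉ T) : 1 - x * y ∈ T := by
  rcases D.one_sub_mul hx hy with h | h
  · exact h
  rcases D.one_sub_mul hy hx with h' | h'
  · rwa [mul_comm]
  exfalso
  apply hxy
  rw [mul_comm y x] at h'
  have := D.mT.div h' h
  have n : 1 - x * y ≠ 0 := by
    intro e; rw [e, zero_mul] at h; exact D.mT.zero h
  have e : (1 - x * y) * y⁻¹ / ((1 - x * y) * x⁻¹) = x * y⁻¹ := by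
    have := hx.1; have := hy.1; field_simp
  rwa [e] at this

theorem mul_mem (D : VD T H) {x y : k} (hx : x ∈ AA T H) (hy : y ∈ AA T H)
    (hxy : x * y ∉ H) : x * y ∈ AA T H := by
  refine ⟨mul_ne_zero hx.1 hy.1, hxy, ?_⟩
  rcases D.one_sub_mul hx hy with h | h
  · exact h
  rcases D.str (x * y) (mul_ne_zero hx.1 hy.1) hxy with h' | h'
  · exact h'
  exfalso
  have := D.mT.div h' h
  have n : 1 - x * y ≠ 0 := by
    intro e; rw [e, zero_mul] at h; exact D.mT.zero h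
  have e : (1 - x * y) * (x * y)⁻¹ / ((1 - x * y) * x⁻¹) = y⁻¹ := by
    have := hx.1; have := hy.1; field_simp
  rw [e, D.mT.inv_iff] at this
  exact hy.2.1 (D.sub this)

/-- totality -/
theorem total (D : VD T H) (Q : QQ T H) {c : k} (hc : c ∈ H) :
    (∀ w ∈ AA T H, c * w ∈ AA T H) ∨ (∀ w ∈ AA T H, c⁻¹ * w ∈ AA T H) := by
  by_contra hcon
  push Not at hcon
  obtain ⟨⟨x, hx, hcx⟩, ⟨y, hy, hcy⟩⟩ := hcon
  have hc0 := D.mH.ne_zero hc
  have hx' : (c * x)⁻¹ ∈ AA T H := by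
    rcases D.mem_or_inv (mul_ne_zero hc0 hx.1)
      (by rw [D.mH.mul_left hc]; exact hx.2.1) with h | h
    · exact absurd h hcx
    · exact h
  have hy' : (c⁻¹ * y)⁻¹ ∈ AA T H := by
    rcases D.mem_or_inv (mul_ne_zero (inv_ne_zero hc0) hy.1)
      (by rw [D.mH.mul_left (D.mH.inv hc)]; exact hy.2.1) with h | h
    · exact absurd h hcy
    · exact h
  have e : (c * x)⁻¹ * (c⁻¹ * y)⁻¹ = (x * y)⁻¹ := by
    have := hx.1; have := hy.1; field_simp
  by_cases hxy : x * y ∈ H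
  · obtain ⟨-, h1⟩ := Q x hx y hy hxy
    have := h1 _ hx'
    have e2 : x * y * (c * x)⁻¹ = c⁻¹ * y := by
      have := hx.1; have := hy.1; field_simp
    rw [e2] at this
    exact hcy this
  · have h1 := D.mul_mem hx hy hxy
    have h2 := D.mul_mem hx' hy' (by rw [e]; exact D.inv_notMem hxy)
    rw [e] at h2
    exact D.inv_notMem_AA h1 h2

theorem neg_AA (D : VD T H) (Q : QQ T H) {w : k} (hw : w ∈ AA T H) : -w ∈ AA T H := by
  rcases D.total Q (D.sub D.neg) with h | h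
  · have := h w hw; rwa [neg_one_mul] at this
  · have := h w hw; rwa [inv_neg, inv_one, neg_one_mul] at this

/-- `(1 - z) A ⊆ A` for `z ∈ A`. -/
theorem one_sub_smul (D : VD T H) (Q : QQ T H) {z w : k} (hz : z ∈ AA T H) (hw : w ∈ AA T H) :
    (1 - z) * w ∈ AA T H := by
  by_contra hcon
  have hz1 := hz.2.2
  have n1 := D.mT.ne_zero hz1
  have hw' : ((1 - z) * w)⁻¹ ∈ AA T H := by
    rcases D.mem_or_inv (mul_ne_zero n1 hw.1)
      (by rw [D.mH.mul_left (D.sub hz1)]; exact hw.2.1) with h | h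
    · exact absurd h hcon
    · exact h
  have e : w * ((1 - z) * w)⁻¹ = (1 - z)⁻¹ := by
    have := hw.1; field_simp
  have hH : w * ((1 - z) * w)⁻¹ ∈ H := by rw [e]; exact D.sub (D.mT.inv hz1)
  obtain ⟨h1, -⟩ := Q w hw _ hw' hH
  rw [e] at h1
  have e2 : 1 - (1 - z)⁻¹ = -(z * (1 - z)⁻¹) := by field_simp; ring
  rw [e2, D.neg_iff, D.mT.mul_right (D.mT.inv hz1)] at h1
  exact hz.2.1 (D.sub h1)

theorem one_sub_inv_smul (D : VD T H) (Q : QQ T H) {z w : k} (hz : z ∈ AA T H)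
    (hw : w ∈ AA T H) : (1 - z)⁻¹ * w ∈ AA T H := by
  have hz1 := hz.2.2
  have n1 := D.mT.ne_zero hz1
  have hz' : -(z * (1 - z)⁻¹) ∈ AA T H := by
    refine ⟨neg_ne_zero.mpr (mul_ne_zero hz.1 (inv_ne_zero n1)), ?_, ?_⟩
    · rw [D.neg_iff_H, D.mH.mul_right (D.sub (D.mT.inv hz1))]; exact hz.2.1
    · have e : 1 - -(z * (1 - z)⁻¹) = (1 - z)⁻¹ := by field_simp; ring
      rw [e]; exact D.mT.inv hz1
  have := D.one_sub_smul Q hz' hw
  have e : 1 - -(z * (1 - z)⁻¹) = (1 - z)⁻¹ := by field_simp; ring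
  rwa [e] at this

/-- `1 - x - y ∈ T` for `x, y ∈ A`. -/
theorem one_sub_sub (D : VD T H) (Q : QQ T H) {x y : k} (hx : x ∈ AA T H) (hy : y ∈ AA T H) :
    1 - (x + y) ∈ T := by
  have n1 := D.mT.ne_zero hx.2.2
  have h := D.one_sub_inv_smul Q hx hy
  have e : 1 - (x + y) = (1 - x) * (1 - (1 - x)⁻¹ * y) := by field_simp; ring
  rw [e]; exact D.mT.mul hx.2.2 h.2.2

theorem OO_one_sub (D : VD T H) (Q : QQ T H) {z : k} (hz : z ∈ OO T H) : 1 - z ∈ OO T H := by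
  rcases hz with rfl | hz | ⟨hzH, hzA⟩
  · rw [sub_zero]
    exact Or.inr (Or.inr ⟨D.mH.one, fun w hw => by rwa [one_mul]⟩)
  · exact Or.inr (Or.inr ⟨D.sub hz.2.2, fun w hw => D.one_sub_smul Q hz hw⟩)
  · by_cases h0 : 1 - z = 0
    · exact Or.inl h0
    by_cases hH : 1 - z ∈ H
    · refine Or.inr (Or.inr ⟨hH, fun w hw => ⟨mul_ne_zero h0 hw.1, ?_, ?_⟩⟩)
      · rw [D.mH.mul_left hH]; exact hw.2.1
      · have := D.one_sub_sub Q hw (D.neg_AA Q (hzA w hw))
        have e : 1 - (1 - z) * w = 1 - (w + -(z * w)) := by ring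
        rwa [e]
    · refine Or.inr (Or.inl ⟨h0, hH, ?_⟩)
      rcases D.str (1 - z) h0 hH with h | h
      · exact h
      · exfalso
        have e : 1 - (1 - z) = z := by ring
        rw [e] at h
        have h2 := D.sub h
        rw [D.mH.mul_left hzH, D.mH.inv_iff] at h2
        exact hH h2

theorem OO_mul (D : VD T H) (Q : QQ T H) {x y : k} (hx : x ∈ OO T H) (hy : y ∈ OO T H) :
    x * y ∈ OO T H := by
  rcases hx with rfl | hx | ⟨hxH, hxA⟩
  · exact Or.inl (zero_mul _)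
  · rcases hy with rfl | hy | ⟨hyH, hyA⟩
    · exact Or.inl (mul_zero _)
    · by_cases h : x * y ∈ H
      · exact Or.inr (Or.inr ⟨h, (Q x hx y hy h).2⟩)
      · exact Or.inr (Or.inl (D.mul_mem hx hy h))
    · rw [mul_comm]; exact Or.inr (Or.inl (hyA x hx))
  · rcases hy with rfl | hy | ⟨hyH, hyA⟩
    · exact Or.inl (mul_zero _)
    · exact Or.inr (Or.inl (hxA y hy))
    · refine Or.inr (Or.inr ⟨D.mH.mul hxH hyH, fun w hw => ?_⟩)
      rw [mul_assoc]; exact hxA _ (hyA w hw)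

theorem OO_total (D : VD T H) (Q : QQ T H) (x : k) : x ∈ OO T H ∨ x⁻¹ ∈ OO T H := by
  by_cases h0 : x = 0
  · exact Or.inl (Or.inl h0)
  by_cases hH : x ∈ H
  · rcases D.total Q hH with h | h
    · exact Or.inl (Or.inr (Or.inr ⟨hH, h⟩))
    · exact Or.inr (Or.inr (Or.inr ⟨D.mH.inv hH, h⟩))
  · rcases D.mem_or_inv h0 hH with h | h
    · exact Or.inl (Or.inr (Or.inl h))
    · exact Or.inr (Or.inr (Or.inl h))

theorem OO_neg (D : VD T H) (Q : QQ T H) {x : k} (hx : x ∈ OO T H) : -x ∈ OO T H := by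
  rcases hx with rfl | hx | ⟨hxH, hxA⟩
  · exact Or.inl neg_zero
  · exact Or.inr (Or.inl (D.neg_AA Q hx))
  · refine Or.inr (Or.inr ⟨D.neg_iff_H.mpr hxH, fun w hw => ?_⟩)
    rw [neg_mul]; exact D.neg_AA Q (hxA w hw)

theorem OO_one (D : VD T H) : (1 : k) ∈ OO T H :=
  Or.inr (Or.inr ⟨D.mH.one, fun w hw => by rwa [one_mul]⟩)

theorem OO_add (D : VD T H) (Q : QQ T H) {x y : k} (hx : x ∈ OO T H) (hy : y ∈ OO T H) :
    x + y ∈ OO T H := by
  have key : ∀ a b : k, a ∈ OO T H → b ∈ OO T H → b ≠ 0 → a * b⁻¹ ∈ OO T H → a + b ∈ OO T H := by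
    intro a b ha hb hb0 hab
    have h1 := D.OO_one_sub Q (D.OO_neg Q hab)
    have h2 := D.OO_mul Q hb h1
    have e : b * (1 - -(a * b⁻¹)) = a + b := by field_simp; ring
    rwa [e] at h2
  by_cases hy0 : y = 0
  · rw [hy0, add_zero]; exact hx
  by_cases hx0 : x = 0
  · rw [hx0, zero_add]; exact hy
  rcases D.OO_total Q (x * y⁻¹) with h | h
  · exact key x y hx hy hy0 h
  · rw [mul_inv, inv_inv, mul_comm] at h
    rw [add_comm]
    exact key y x hy hx hx0 h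

/-- the valuation ring `O(T,H)`. -/
def ring (D : VD T H) (Q : QQ T H) : ValuationSubring k where
  carrier := OO T H
  mul_mem' := D.OO_mul Q
  one_mem' := D.OO_one
  add_mem' := D.OO_add Q
  zero_mem' := Or.inl rfl
  neg_mem' := D.OO_neg Q
  mem_or_inv_mem' := D.OO_total Q

theorem mem_ring (D : VD T H) (Q : QQ T H) {x : k} : x ∈ D.ring Q ↔ x ∈ OO T H := Iff.rfl

theorem mem_ring_notMem (D : VD T H) (Q : QQ T H) {x : k} (hx : x ∉ H) (h0 : x ≠ 0) :
    x ∈ D.ring Q ↔ x ∈ AA T H := by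
  rw [mem_ring]
  constructor
  · rintro (h | h | h)
    · exact absurd h h0
    · exact h
    · exact absurd h.1 hx
  · intro h; exact Or.inr (Or.inl h)

/-- units of the ring lie in `H`. -/
theorem unit_mem (D : VD T H) (Q : QQ T H) {x : k} (h0 : x ≠ 0) (h1 : x ∈ D.ring Q)
    (h2 : x⁻¹ ∈ D.ring Q) : x ∈ H := by
  by_contra hH
  rw [D.mem_ring_notMem Q hH h0] at h1
  rw [D.mem_ring_notMem Q (D.inv_notMem hH) (inv_ne_zero h0)] at h2
  exact D.inv_notMem_AA h1 h2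

/-- `1 - m ⊆ T`. -/
theorem one_sub_mem (D : VD T H) (Q : QQ T H) {x : k} (h2 : x = 0 ∨ x⁻¹ ∉ D.ring Q) :
    1 - x ∈ T := by
  by_cases h0 : x = 0
  · rw [h0, sub_zero]; exact D.mT.one
  replace h2 := h2.resolve_left h0
  by_cases hH : x ∈ H
  · have : ¬ ∀ w ∈ AA T H, x⁻¹ * w ∈ AA T H := by
      intro h; exact h2 (Or.inr (Or.inr ⟨D.mH.inv hH, h⟩))
    push Not at this
    obtain ⟨w, hw, hxw⟩ := this
    have hw' : (x⁻¹ * w)⁻¹ ∈ AA T H := by
      rcases D.mem_or_inv (mul_ne_zero (inv_ne_zero h0) hw.1)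
        (by rw [D.mH.mul_left (D.mH.inv hH)]; exact hw.2.1) with h | h
      · exact absurd h hxw
      · exact h
    have e : w * (x⁻¹ * w)⁻¹ = x := by have := hw.1; field_simp
    have := (Q w hw _ hw' (by rwa [e])).1
    rwa [e] at this
  · rcases D.mem_or_inv h0 hH with h | h
    · exact h.2.2
    · exact absurd (Or.inr (Or.inl h)) h2

end VD

end Pool.Agent.Helper25.ETC
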