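import Mathlib

/-!
# Lipschitz free `p`-spaces: the definitions used in the statement for MP_777e28_an
-/

set_option autoImplicit false

namespace Pool.Agent.Helper25.FreeP

universe u v

/-- `q` is a `p`-norm on the real vector space `Y`: a nonnegative, definite, absolutely
homogeneous function with `q (y + z) ^ p ≤ q y ^ p + q z ^ p`. -/
structure IsPNorm (p : ℝ) {Y : Type u} [AddCommGroup Y] [Module ℝ Y] (q : Y → ℝ) : Prop where
  nonneg : ∀ y, 0 ≤ q y
  eq_zero : ∀ y, q y = 0 → y = 0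
  smul : ∀ (t : ℝ) (y : Y), q (t • y) = |t| * q y
  triangle : ∀ y z, q (y + z) ^ p ≤ q y ^ p + q z ^ p

/-- `(Y, q)` is a `p`-Banach space: `q` is a `p`-norm and every `q`-Cauchy sequence converges. -/
structure IsPBanach (p : ℝ) {Y : Type u} [AddCommGroup Y] [Module ℝ Y] (q : Y → ℝ) : Prop
    extends IsPNorm p q where
  complete : ∀ y : ℕ → Y,
    (∀ ε : ℝ, 0 < ε → ∃ n₀ : ℕ, ∀ m ≥ n₀, ∀ n ≥ n₀, q (y m - y n) < ε) →
    ∃ z : Y, ∀ ε : ℝ, 0 < ε → ∃ n₀ : ℕ, ∀ n ≥ n₀, q (y n - z) < ε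

/-- Bounded linear maps `(Y, q) → (Z, r)`. -/
def IsBounded {Y : Type u} {Z : Type v} [AddCommGroup Y] [Module ℝ Y] [AddCommGroup Z]
    [Module ℝ Z] (q : Y → ℝ) (r : Z → ℝ) (T : Y →ₗ[ℝ] Z) : Prop :=
  ∃ C : ℝ, ∀ y, r (T y) ≤ C * q y

/-- `(Y, q) ≃ (Z, r)`: there is a bounded linear bijection with bounded inverse. -/
def Isomorphic {Y : Type u} {Z : Type v} [AddCommGroup Y] [Module ℝ Y] [AddCommGroup Z]
    [Module ℝ Z] (q : Y → ℝ) (r : Z → ℝ) : Prop :=
  ∃ e : Y ≃ₗ[ℝ] Z, IsBounded q r e.toLinearMap ∧ IsBounded r q e.symm.toLinearMap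

/-- `(F, q)` together with `δ : M → F` is the Lipschitz free `p`-space over the metric space `M`
with base point `o`: it is a `p`-Banach space, `δ` is isometric, `δ o = 0`, and for every
`p`-Banach space `(Y, r)` and every Lipschitz map `f : M → Y` with `f o = 0` there is a unique
bounded linear map `T : F → Y` with `T ∘ δ = f`; moreover the norm of `T` is the Lipschitz
constant of `f` (for `L ≥ 0`, the map `f` is `L`-Lipschitz if and only if `r (T v) ≤ L * q v` for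
all `v`). -/
structure IsLipschitzFree (p : ℝ) (M : Type u) [MetricSpace M] (o : M) {F : Type u}
    [AddCommGroup F] [Module ℝ F] (q : F → ℝ) (δ : M → F) : Prop where
  banach : IsPBanach p q
  isometry : ∀ x y, q (δ x - δ y) = dist x y
  base : δ o = 0
  universal : ∀ (Y : Type u) [AddCommGroup Y] [Module ℝ Y] (r : Y → ℝ), IsPBanach p r →
    ∀ f : M → Y, f o = 0 → (∃ L : ℝ, ∀ x y, r (f x - f y) ≤ L * dist x y) →
      ∃ T : F →ₗ[ℝ] Y, IsBounded q r T ∧ (∀ x, T (δ x) = f x) ∧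
        (∀ S : F →ₗ[ℝ] Y, IsBounded q r S → (∀ x, S (δ x) = f x) → S = T) ∧
        (∀ L : ℝ, 0 ≤ L →
          ((∀ x y, r (f x - f y) ≤ L * dist x y) ↔ ∀ v, r (T v) ≤ L * q v))

/-- `N` is a net in the normed space `X`: uniformly discrete and coarsely dense. -/
def IsNet {X : Type u} [NormedAddCommGroup X] (N : Set X) : Prop :=
  ∃ a b : ℝ, 0 < a ∧ a ≤ b ∧ (∀ x ∈ N, ∀ y ∈ N, x ≠ y → a ≤ ‖x - y‖) ∧
    ∀ x : X, ∃ y ∈ N, ‖x - y‖ ≤ b

lemma IsPNorm.map_zero {p : ℝ} {Y : Type u} [AddCommGroup Y] [Module ℝ Y] {q : Y → ℝ}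
    (h : IsPNorm p q) : q 0 = 0 := by
  have := h.smul 0 0
  simpa using this

/-- The space `ℓ_p(Y)` of all sequences in `Y` with `∑ q (y n) ^ p < ∞`. -/
def LpSum (p : ℝ) (hp : 0 < p) {Y : Type u} [AddCommGroup Y] [Module ℝ Y] (q : Y → ℝ)
    (h : IsPNorm p q) : Submodule ℝ (ℕ → Y) where
  carrier := {y | Summable fun n => q (y n) ^ p}
  zero_mem' := by
    have : (fun n : ℕ => q ((0 : ℕ → Y) n) ^ p) = fun _ => 0 := by
      funext n
      rw [Pi.zero_apply, h.map_zero, Real.zero_rpow hp.ne']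
    show Summable fun n : ℕ => q ((0 : ℕ → Y) n) ^ p
    rw [this]
    exact summable_zero
  add_mem' := by
    intro y z hy hz
    exact Summable.of_nonneg_of_le (fun n => Real.rpow_nonneg (h.nonneg _) p)
      (fun n => h.triangle (y n) (z n)) (Summable.add hy hz)
  smul_mem' := by
    intro t y hy
    have : (fun n : ℕ => q ((t • y) n) ^ p) = fun n => |t| ^ p * q (y n) ^ p := by
      funext n
      rw [Pi.smul_apply, h.smul, Real.mul_rpow (abs_nonneg _) (h.nonneg _)]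
    show Summable fun n : ℕ => q ((t • y) n) ^ p
    rw [this]
    exact Summable.mul_left _ hy

/-- The `p`-norm `(∑ q (y n) ^ p) ^ (1 / p)` of `ℓ_p(Y)`. -/
noncomputable def lpNorm (p : ℝ) {Y : Type u} (q : Y → ℝ) (y : ℕ → Y) : ℝ :=
  (∑' n, q (y n) ^ p) ^ (1 / p)

end Pool.Agent.Helper25.FreeP
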