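import Pool.Agent.Helper25.FreePMain

set_option autoImplicit false
set_option linter.unusedSectionVars false

namespace Pool.Agent.Helper25.FreeP

open Pool.Agent.Helper25.PSpace UniformSpace

universe u v

/-- admissible `p`-homogeneous seminorms on finitely supported functions -/
structure Adm (p : ℝ) {M : Type u} [MetricSpace M] (o : M) (s : (M →₀ ℝ) → ℝ) : Prop where
  nonneg : ∀ v, 0 ≤ s v
  add_le : ∀ v w, s (v + w) ≤ s v + s w
  smul : ∀ (t : ℝ) v, s (t • v) = |t| ^ p * s v
  dist_le : ∀ x y, s (Finsupp.single x 1 - Finsupp.single y 1) ≤ dist x y ^ p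
  base : s (Finsupp.single o 1) = 0

section adm
variable {p : ℝ} {M : Type u} [MetricSpace M] {o : M}

lemma Adm.zero : Adm p o (fun _ => 0) where
  nonneg _ := le_rfl
  add_le _ _ := by simp
  smul _ _ := by simp
  dist_le _ _ := Real.rpow_nonneg dist_nonneg p
  base := rfl

lemma Adm.map_zero {s : (M →₀ ℝ) → ℝ} (hp : 0 < p) (h : Adm p o s) : s 0 = 0 := by
  have := h.smul 0 0
  rwa [abs_zero, Real.zero_rpow hp.ne', zero_mul, smul_zero] at this

lemma Adm.single_le {s : (M →₀ ℝ) → ℝ} (h : Adm p o s) (x : M) (t : ℝ) :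
    s (Finsupp.single x t) ≤ |t| ^ p * dist x o ^ p := by
  have e : Finsupp.single x t = t • (Finsupp.single x (1 : ℝ)) := by simp
  rw [e, h.smul]
  apply mul_le_mul_of_nonneg_left _ (Real.rpow_nonneg (abs_nonneg _) _)
  have e2 : Finsupp.single x (1 : ℝ) = (Finsupp.single x 1 - Finsupp.single o 1) +
      Finsupp.single o 1 := by simp
  rw [e2]
  refine (h.add_le _ _).trans ?_
  rw [h.base, add_zero]
  exact h.dist_le x o

lemma Adm.le_sum {s : (M →₀ ℝ) → ℝ} (hp : 0 < p) (h : Adm p o s) (v : M →₀ ℝ) :
    s v ≤ v.sum fun x t => |t| ^ p * dist x o ^ p := by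
  classical
  induction v using Finsupp.induction with
  | zero => rw [h.map_zero hp]; simp
  | single_add x t v hx ht ih =>
    rw [Finsupp.sum_add_index_of_disjoint]
    · refine (h.add_le _ _).trans (add_le_add ?_ ih)
      rw [Finsupp.sum_single_index (by simp [Real.zero_rpow hp.ne'])]
      exact h.single_le x t
    · rw [Finsupp.support_single _ ht]
      exact Finset.disjoint_singleton_left.2 hx

/-- the largest admissible seminorm -/
noncomputable def bigN (p : ℝ) {M : Type u} [MetricSpace M] (o : M) (v : M →₀ ℝ) : ℝ :=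
  ⨆ s : {s : (M →₀ ℝ) → ℝ // Adm p o s}, s.1 v

lemma bigN_bdd (hp : 0 < p) (v : M →₀ ℝ) :
    BddAbove (Set.range fun s : {s : (M →₀ ℝ) → ℝ // Adm p o s} => s.1 v) := by
  refine ⟨v.sum fun x t => |t| ^ p * dist x o ^ p, ?_⟩
  rintro _ ⟨s, rfl⟩
  exact s.2.le_sum hp v

instance : Nonempty {s : (M →₀ ℝ) → ℝ // Adm p o s} := ⟨⟨_, Adm.zero⟩⟩

lemma le_bigN (hp : 0 < p) {s : (M →₀ ℝ) → ℝ} (h : Adm p o s) (v : M →₀ ℝ) : s v ≤ bigN p o v :=
  le_ciSup (bigN_bdd hp v) ⟨s, h⟩

lemma bigN_adm (hp : 0 < p) : Adm p o (bigN p o) where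
  nonneg v := Real.iSup_nonneg fun s => s.2.nonneg v
  add_le v w := ciSup_le fun s => (s.2.add_le v w).trans
    (add_le_add (le_bigN hp s.2 v) (le_bigN hp s.2 w))
  smul t v := by
    unfold bigN
    rw [Real.mul_iSup_of_nonneg (Real.rpow_nonneg (abs_nonneg _) _)]
    congr 1
    funext s
    exact s.2.smul t v
  dist_le x y := ciSup_le fun s => s.2.dist_le x y
  base := by
    unfold bigN
    have : (fun s : {s : (M →₀ ℝ) → ℝ // Adm p o s} => s.1 (Finsupp.single o 1)) = fun _ => 0 := by
      funext s; exact s.2.base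
    rw [this]
    simp

lemma abs_add_rpow_le (hp : 0 < p) (hp1 : p ≤ 1) (a b : ℝ) : |a + b| ^ p ≤ |a| ^ p + |b| ^ p := by
  calc |a + b| ^ p ≤ (|a| + |b|) ^ p := Real.rpow_le_rpow (abs_nonneg _) (abs_add_le a b) hp.le
    _ ≤ |a| ^ p + |b| ^ p := Real.rpow_add_le_add_rpow (abs_nonneg _) (abs_nonneg _) hp.le hp1

lemma dist_adm (hp : 0 < p) (hp1 : p ≤ 1) (x : M) :
    Adm p o (fun v => |v.sum fun z t => t * (dist z x - dist o x)| ^ p) where
  nonneg v := Real.rpow_nonneg (abs_nonneg _) p
  add_le v w := by
    rw [Finsupp.sum_add_index' (by simp) (by intros; ring)]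
    exact abs_add_rpow_le hp hp1 _ _
  smul t v := by
    rw [Finsupp.sum_smul_index (by simp), ← Real.mul_rpow (abs_nonneg _) (abs_nonneg _), ← abs_mul,
      Finsupp.mul_sum]
    simp only [mul_assoc]
  dist_le a b := by
    rw [Finsupp.sum_sub_index (by intros; ring)]
    rw [Finsupp.sum_single_index (by simp), Finsupp.sum_single_index (by simp)]
    apply Real.rpow_le_rpow (abs_nonneg _) _ hp.le
    have e : 1 * (dist a x - dist o x) - 1 * (dist b x - dist o x) = dist a x - dist b x := by ring
    rw [e]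
    exact abs_dist_sub_le a b x
  base := by
    rw [Finsupp.sum_single_index (by simp)]
    simp [Real.zero_rpow hp.ne']

lemma bigN_dist (hp : 0 < p) (hp1 : p ≤ 1) (x y : M) :
    bigN p o (Finsupp.single x 1 - Finsupp.single y 1) = dist x y ^ p := by
  refine le_antisymm ((bigN_adm hp).dist_le x y) ?_
  have h := le_bigN hp (dist_adm (o := o) hp hp1 x) (Finsupp.single x 1 - Finsupp.single y 1)
  refine le_trans (le_of_eq ?_) h
  rw [Finsupp.sum_sub_index (by intros; ring)]
  rw [Finsupp.sum_single_index (by simp), Finsupp.sum_single_index (by simp)]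
  have e : 1 * (dist x x - dist o x) - 1 * (dist y x - dist o x) = - dist y x := by
    rw [dist_self]; ring
  rw [e, abs_neg, abs_of_nonneg dist_nonneg, dist_comm]

end adm

/-- the vector space of finitely supported functions with the largest admissible seminorm -/
def FV (p : ℝ) (M : Type u) [MetricSpace M] (_ : M) : Type u :=
  let _ := p
  M →₀ ℝ

section FV
variable {p : ℝ} {M : Type u} [MetricSpace M] {o : M}

noncomputable instance : AddCommGroup (FV p M o) := inferInstanceAs (AddCommGroup (M →₀ ℝ))
noncomputable instance : Module ℝ (FV p M o) := inferInstanceAs (Module ℝ (M →₀ ℝ))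

/-- the seminorm as an instance, for `0 < p` -/
noncomputable instance [hp : Fact (0 < p)] : SeminormedAddCommGroup (FV p M o) :=
  AddGroupSeminorm.toSeminormedAddCommGroup
    { toFun := fun v : FV p M o => bigN p o v
      map_zero' := (bigN_adm hp.out).map_zero hp.out
      add_le' := (bigN_adm hp.out).add_le
      neg' := fun v => by
        have := (bigN_adm (o := o) hp.out).smul (-1) v
        rw [abs_neg, abs_one, Real.one_rpow, one_mul] at this
        rw [← this]
        congr 1
        exact (neg_one_smul ℝ (v : M →₀ ℝ)).symm }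

lemma FV.norm_def [hp : Fact (0 < p)] (v : FV p M o) : ‖v‖ = bigN p o v := rfl

lemma FV.norm_smul [hp : Fact (0 < p)] (t : ℝ) (v : FV p M o) : ‖t • v‖ = |t| ^ p * ‖v‖ :=
  (bigN_adm hp.out).smul t v

instance [hp : Fact (0 < p)] : UniformContinuousConstSMul ℝ (FV p M o) where
  uniformContinuous_const_smul t := by
    have : LipschitzWith ⟨|t| ^ p, Real.rpow_nonneg (abs_nonneg _) _⟩
        (fun v : FV p M o => t • v) := by
      refine LipschitzWith.of_dist_le_mul fun a b => ?_
      rw [dist_eq_norm, dist_eq_norm, ← smul_sub, FV.norm_smul]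
      exact le_rfl
    exact this.uniformContinuous

/-- basis vector -/
noncomputable def FV.δ (p : ℝ) {M : Type u} [MetricSpace M] (o : M) (x : M) : FV p M o :=
  Finsupp.single x (1 : ℝ)

/-- linear extension -/
noncomputable def FV.ext {Y : Type u} [AddCommGroup Y] [Module ℝ Y] (f : M → Y) :
    FV p M o →ₗ[ℝ] Y := Finsupp.linearCombination ℝ f

lemma FV.ext_δ {Y : Type u} [AddCommGroup Y] [Module ℝ Y] (f : M → Y) (x : M) :
    FV.ext (p := p) (o := o) f (FV.δ p o x) = f x := by
  show Finsupp.linearCombination ℝ f (Finsupp.single x 1) = f x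
  rw [Finsupp.linearCombination_single, one_smul]

lemma FV.hom_ext {Y : Type u} [AddCommGroup Y] [Module ℝ Y] {T S : FV p M o →ₗ[ℝ] Y}
    (h : ∀ x, T (FV.δ p o x) = S (FV.δ p o x)) : T = S := by
  have : ∀ v : M →₀ ℝ, T (v : FV p M o) = S v := by
    intro v
    have h2 : (T : (M →₀ ℝ) →ₗ[ℝ] Y) = (S : (M →₀ ℝ) →ₗ[ℝ] Y) := by
      refine Finsupp.lhom_ext' fun x => LinearMap.ext_ring ?_
      exact h x
    exact congrArg (fun T : (M →₀ ℝ) →ₗ[ℝ] Y => T v) h2
  exact LinearMap.ext this

lemma FV.ext_norm_le [hp : Fact (0 < p)] {Y : Type u} [NormedAddCommGroup Y] [Module ℝ Y]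
    (hY : PHom p Y) (f : M → Y) (L : ℝ) (hL : 0 ≤ L) (hfo : f o = 0)
    (hf : ∀ x y, ‖f x - f y‖ ≤ L * dist x y ^ p) (v : FV p M o) :
    ‖FV.ext (p := p) (o := o) f v‖ ≤ L * ‖v‖ := by
  rcases hL.eq_or_lt with h | h
  · have h0 : ∀ x, f x = 0 := by
      intro x
      have := hf x o
      rw [← h, zero_mul, hfo, sub_zero] at this
      exact norm_le_zero_iff.1 this
    have : FV.ext (p := p) (o := o) f = 0 := FV.hom_ext fun x => by rw [FV.ext_δ, h0]; simp
    rw [this, ← h]; simp
  · have hadm : Adm p o (fun v => ‖Finsupp.linearCombination ℝ f v‖ / L) :=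
      { nonneg := fun v => by positivity
        add_le := fun v w => by
          rw [map_add, ← add_div]
          gcongr
          exact norm_add_le _ _
        smul := fun t v => by
          rw [map_smul, hY, mul_div_assoc]
        dist_le := fun x y => by
          rw [map_sub, Finsupp.linearCombination_single, Finsupp.linearCombination_single, one_smul,
            one_smul, div_le_iff₀ h, mul_comm]
          exact hf x y
        base := by
          rw [Finsupp.linearCombination_single, one_smul, hfo, norm_zero, zero_div] }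
    have := le_bigN hp.out hadm v
    rw [div_le_iff₀ h, mul_comm] at this
    exact this

/-- canonical linear map into the completion -/
noncomputable def FV.coeL [hp : Fact (0 < p)] : FV p M o →ₗ[ℝ] Completion (FV p M o) where
  toFun v := (v : Completion (FV p M o))
  map_add' v w := Completion.coe_add v w
  map_smul' t v := Completion.coe_smul t v

end FV

/-- Existence of Lipschitz free `p`-spaces, internal form. -/
theorem exists_freeN {p : ℝ} (hp : 0 < p) (hp1 : p ≤ 1) (M : Type u) [MetricSpace M] (o : M) :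
    ∃ (F : Type u) (_ : NormedAddCommGroup F) (_ : Module ℝ F) (δ : M → F), FreeN p M o F δ := by
  haveI : Fact (0 < p) := ⟨hp⟩
  have hcont : ∀ t : ℝ, Continuous fun v : Completion (FV p M o) => t • v := fun t =>
    (uniformContinuous_const_smul t).continuous
  refine ⟨Completion (FV p M o), inferInstance, inferInstance,
    fun x => ((FV.δ p o x : FV p M o) : Completion (FV p M o)),
    { hom := ?_
      complete := inferInstance
      iso := ?_
      base := ?_
      lift := ?_
      uniq := ?_ }⟩
  · intro t v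
    induction v using Completion.induction_on with
    | hp => exact isClosed_eq (hcont t).norm (continuous_const.mul continuous_norm)
    | ih v => rw [← Completion.coe_smul, Completion.norm_coe, Completion.norm_coe, FV.norm_smul]
  · intro x y
    rw [← Completion.coe_sub, Completion.norm_coe]
    exact bigN_dist hp hp1 x y
  · rw [← norm_eq_zero, Completion.norm_coe]
    exact (bigN_adm hp).base
  · intro Y _ _ hY hYc f L hL hfo hf
    let T0 : NormedAddGroupHom (FV p M o) Y :=
      { toFun := FV.ext (p := p) (o := o) f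
        map_add' := map_add _
        bound' := ⟨L, FV.ext_norm_le hY f L hL hfo hf⟩ }
    have hYcont : ∀ t : ℝ, Continuous fun y : Y => t • y := by
      intro t
      have : LipschitzWith ⟨|t| ^ p, Real.rpow_nonneg (abs_nonneg _) _⟩ (fun y : Y => t • y) := by
        refine LipschitzWith.of_dist_le_mul fun a b => ?_
        rw [dist_eq_norm, dist_eq_norm, ← smul_sub, hY]
        exact le_rfl
      exact this.continuous
    let T : Completion (FV p M o) →ₗ[ℝ] Y :=
      { toFun := T0.extension
        map_add' := map_add _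
        map_smul' := by
          intro t v
          show T0.extension (t • v) = t • T0.extension v
          refine Completion.induction_on (p := fun v => T0.extension (t • v) = t • T0.extension v)
            v ?_ ?_
          · exact isClosed_eq (T0.extension.continuous.comp (hcont t))
              ((hYcont t).comp T0.extension.continuous)
          · intro v
            rw [← Completion.coe_smul, NormedAddGroupHom.extension_coe,
              NormedAddGroupHom.extension_coe]
            exact map_smul (FV.ext (p := p) (o := o) f) t v }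
    refine ⟨T, ?_, ?_⟩
    · intro v
      show ‖T0.extension v‖ ≤ L * ‖v‖
      induction v using Completion.induction_on with
      | hp => exact isClosed_le T0.extension.continuous.norm (continuous_const.mul continuous_norm)
      | ih v =>
        rw [NormedAddGroupHom.extension_coe, Completion.norm_coe]
        exact FV.ext_norm_le hY f L hL hfo hf v
    · intro x
      show T0.extension _ = _
      rw [NormedAddGroupHom.extension_coe]
      exact FV.ext_δ f x
  · intro Y _ _ hY hYc T S hT hS hTS
    have h1 : T ∘ₗ FV.coeL = S ∘ₗ FV.coeL := FV.hom_ext hTS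
    ext v
    induction v using Completion.induction_on with
    | hp => exact isClosed_eq hT.continuous hS.continuous
    | ih v => exact congrArg (fun R : FV p M o →ₗ[ℝ] Y => R v) h1

/-- Existence of Lipschitz free `p`-spaces. -/
theorem exists_isLipschitzFree {p : ℝ} (hp : 0 < p) (hp1 : p ≤ 1) (M : Type u) [MetricSpace M]
    (o : M) : ∃ (F : Type u) (_ : AddCommGroup F) (_ : Module ℝ F) (q : F → ℝ) (δ : M → F),
      IsLipschitzFree p M o q δ := by
  obtain ⟨F, _, _, δ, H⟩ := exists_freeN hp hp1 M o
  haveI := H.complete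
  refine ⟨F, inferInstance, inferInstance, fun v => ‖v‖ ^ (1 / p), δ,
    { banach := isPBanach_of hp H.hom
      isometry := fun x y => ?_
      base := H.base
      universal := ?_ }⟩
  · show ‖δ x - δ y‖ ^ (1 / p) = dist x y
    rw [H.iso, rpow_root hp dist_nonneg]
  · intro Y _ _ r hr f hfo hf
    obtain ⟨L, hL⟩ := hf
    letI := nacg hp hr.toIsPNorm
    have hYc := nacg_complete hp hr
    have hYh := nacg_pHom hp hr.toIsPNorm
    -- lifting with a given constant
    have hlift : ∀ L : ℝ, 0 ≤ L → (∀ x y, r (f x - f y) ≤ L * dist x y) →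
        ∃ T : F →ₗ[ℝ] Y, (∀ v, r (T v) ≤ L * ‖v‖ ^ (1 / p)) ∧ ∀ x, T (δ x) = f x := by
      intro L hL0 hL
      obtain ⟨T, hT1, hT2⟩ := H.lift Y hYh hYc f (L ^ p) (Real.rpow_nonneg hL0 p) hfo (by
        intro x y
        show r (f x - f y) ^ p ≤ _
        rw [← Real.mul_rpow hL0 dist_nonneg]
        exact Real.rpow_le_rpow (hr.nonneg _) (hL x y) hp.le)
      refine ⟨T, fun v => ?_, hT2⟩
      have h1 : r (T v) ^ p ≤ L ^ p * ‖v‖ := hT1 v
      calc r (T v) = (r (T v) ^ p) ^ (1 / p) := (rpow_root hp (hr.nonneg _)).symm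
        _ ≤ (L ^ p * ‖v‖) ^ (1 / p) :=
            Real.rpow_le_rpow (Real.rpow_nonneg (hr.nonneg _) p) h1 (one_div_pos.2 hp).le
        _ = L * ‖v‖ ^ (1 / p) := by
            rw [Real.mul_rpow (Real.rpow_nonneg hL0 p) (norm_nonneg _), rpow_root hp hL0]
    have hbdd : ∀ {S : F →ₗ[ℝ] Y}, IsBounded (fun v : F => ‖v‖ ^ (1 / p)) r S → Bdd S := by
      intro S hS
      obtain ⟨C, hC⟩ := hS
      refine ⟨(max C 0) ^ p, fun v => ?_⟩
      show r (S v) ^ p ≤ _
      have h2 : r (S v) ≤ max C 0 * ‖v‖ ^ (1 / p) :=
        (hC v).trans (mul_le_mul_of_nonneg_right (le_max_left _ _)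
          (Real.rpow_nonneg (norm_nonneg _) _))
      calc r (S v) ^ p ≤ (max C 0 * ‖v‖ ^ (1 / p)) ^ p :=
            Real.rpow_le_rpow (hr.nonneg _) h2 hp.le
        _ = (max C 0) ^ p * ‖v‖ := by
            rw [Real.mul_rpow (le_max_right _ _) (Real.rpow_nonneg (norm_nonneg _) _),
              root_rpow hp (norm_nonneg _)]
    have huniq : ∀ T S : F →ₗ[ℝ] Y, IsBounded (fun v : F => ‖v‖ ^ (1 / p)) r T →
        IsBounded (fun v : F => ‖v‖ ^ (1 / p)) r S → (∀ x, T (δ x) = S (δ x)) → T = S :=
      fun T S hT hS h => H.uniq Y hYh hYc T S (hbdd hT) (hbdd hS) h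
    obtain ⟨T, hT1, hT2⟩ := hlift (max L 0) (le_max_right _ _)
      (fun x y => (hL x y).trans (mul_le_mul_of_nonneg_right (le_max_left _ _) dist_nonneg))
    refine ⟨T, ⟨_, hT1⟩, hT2, fun S hS hS2 => huniq S T hS ⟨_, hT1⟩
      (fun x => by rw [hS2, hT2]), fun K hK => ⟨fun h => ?_, fun h => ?_⟩⟩
    · obtain ⟨T', hT'1, hT'2⟩ := hlift K hK h
      have : T = T' := huniq T T' ⟨_, hT1⟩ ⟨_, hT'1⟩ (fun x => by rw [hT2, hT'2])
      rw [this]
      exact hT'1
    · intro x y
      have h1 : r (T (δ x - δ y)) ≤ K * ‖δ x - δ y‖ ^ (1 / p) := h (δ x - δ y)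
      rw [H.iso, rpow_root hp dist_nonneg, map_sub, hT2, hT2] at h1
      exact h1

end Pool.Agent.Helper25.FreeP
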