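import Pool.Agent.Helper25.PSpaceNet
import Pool.Agent.Helper25.FreePDefs

set_option autoImplicit false
set_option linter.unusedSectionVars false

namespace Pool.Agent.Helper25.FreeP

open Pool.Agent.Helper25.PSpace

universe u v

section conv
variable {p : ℝ} (hp : 0 < p) {Y : Type u} [AddCommGroup Y] [Module ℝ Y] {q : Y → ℝ}

/-- The normed group structure with `‖y‖ = q y ^ p`. -/
noncomputable abbrev nacg (h : IsPNorm p q) : NormedAddCommGroup Y :=
  AddGroupNorm.toNormedAddCommGroup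
    { toFun := fun y => q y ^ p
      map_zero' := by rw [h.map_zero, Real.zero_rpow hp.ne']
      add_le' := h.triangle
      neg' := fun y => by
        have := h.smul (-1) y
        simp only [neg_smul, one_smul, abs_neg, abs_one, one_mul] at this
        rw [this]
      eq_zero_of_map_eq_zero' := fun y hy =>
        h.eq_zero y ((Real.rpow_eq_zero (h.nonneg y) hp.ne').1 hy) }

lemma nacg_norm (h : IsPNorm p q) (y : Y) :
    (letI := nacg hp h; ‖y‖) = q y ^ p := rfl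

lemma nacg_pHom (h : IsPNorm p q) : (letI := nacg hp h; PHom p Y) := by
  letI := nacg hp h
  intro t y
  show q (t • y) ^ p = |t| ^ p * q y ^ p
  rw [h.smul, Real.mul_rpow (abs_nonneg _) (h.nonneg _)]

lemma nacg_complete (h : IsPBanach p q) : (letI := nacg hp h.toIsPNorm; CompleteSpace Y) := by
  letI := nacg hp h.toIsPNorm
  refine Metric.complete_of_cauchySeq_tendsto fun y hy => ?_
  obtain ⟨z, hz⟩ := h.complete y (fun ε hε => by
    obtain ⟨n₀, hn⟩ := Metric.cauchySeq_iff.1 hy (ε ^ p) (Real.rpow_pos_of_pos hε p)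
    refine ⟨n₀, fun m hm n hn' => ?_⟩
    have h1 := hn m hm n hn'
    rw [dist_eq_norm] at h1
    exact (Real.rpow_lt_rpow_iff (h.nonneg _) hε.le hp).1 h1)
  refine ⟨z, Metric.tendsto_atTop.2 fun ε hε => ?_⟩
  obtain ⟨n₀, hn⟩ := hz (ε ^ (1 / p)) (Real.rpow_pos_of_pos hε _)
  refine ⟨n₀, fun n hn' => ?_⟩
  have h1 := hn n hn'
  rw [dist_eq_norm]
  show q (y n - z) ^ p < ε
  calc q (y n - z) ^ p < (ε ^ (1 / p)) ^ p := Real.rpow_lt_rpow (h.nonneg _) h1 hp
    _ = ε := by rw [← Real.rpow_mul hε.le, one_div_mul_cancel hp.ne', Real.rpow_one]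

end conv

section conv2
variable {p : ℝ} (hp : 0 < p) {Y : Type u} [NormedAddCommGroup Y] [Module ℝ Y]
include hp

lemma root_rpow {x : ℝ} (hx : 0 ≤ x) : (x ^ (1 / p)) ^ p = x := by
  rw [← Real.rpow_mul hx, one_div_mul_cancel hp.ne', Real.rpow_one]

lemma rpow_root {x : ℝ} (hx : 0 ≤ x) : (x ^ p) ^ (1 / p) = x := by
  rw [← Real.rpow_mul hx, mul_one_div_cancel hp.ne', Real.rpow_one]

lemma isPBanach_of (h : PHom p Y) [CompleteSpace Y] : IsPBanach p (fun y : Y => ‖y‖ ^ (1 / p)) where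
  nonneg y := Real.rpow_nonneg (norm_nonneg _) _
  eq_zero y hy := by
    have := (Real.rpow_eq_zero (norm_nonneg y) (one_div_pos.2 hp).ne').1 hy
    exact norm_eq_zero.1 this
  smul t y := by
    show ‖t • y‖ ^ (1 / p) = |t| * ‖y‖ ^ (1 / p)
    rw [h, Real.mul_rpow (Real.rpow_nonneg (abs_nonneg _) _) (norm_nonneg _),
      rpow_root hp (abs_nonneg t)]
  triangle y z := by
    show (‖y + z‖ ^ (1 / p)) ^ p ≤ (‖y‖ ^ (1 / p)) ^ p + (‖z‖ ^ (1 / p)) ^ p
    rw [root_rpow hp (norm_nonneg _), root_rpow hp (norm_nonneg _), root_rpow hp (norm_nonneg _)]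
    exact norm_add_le y z
  complete y hy := by
    have hc : CauchySeq y := by
      refine Metric.cauchySeq_iff.2 fun ε hε => ?_
      obtain ⟨n₀, hn⟩ := hy (ε ^ (1 / p)) (Real.rpow_pos_of_pos hε _)
      refine ⟨n₀, fun m hm n hn' => ?_⟩
      rw [dist_eq_norm]
      exact (Real.rpow_lt_rpow_iff (norm_nonneg _) hε.le (one_div_pos.2 hp)).1 (hn m hm n hn')
    obtain ⟨z, hz⟩ := cauchySeq_tendsto_of_complete hc
    refine ⟨z, fun ε hε => ?_⟩
    obtain ⟨n₀, hn⟩ := Metric.tendsto_atTop.1 hz (ε ^ p) (Real.rpow_pos_of_pos hε _)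
    refine ⟨n₀, fun n hn' => ?_⟩
    have h1 := hn n hn'
    rw [dist_eq_norm] at h1
    calc ‖y n - z‖ ^ (1 / p) < (ε ^ p) ^ (1 / p) :=
          Real.rpow_lt_rpow (norm_nonneg _) h1 (one_div_pos.2 hp)
      _ = ε := rpow_root hp hε.le

/-- translate bounds between `q` and `q ^ p` -/
lemma le_of_rpow {A B K : ℝ} (hA : 0 ≤ A) (hB : 0 ≤ B) (hK : 0 ≤ K) (h : A ^ p ≤ K * B ^ p) :
    A ≤ K ^ (1 / p) * B := by
  calc A = (A ^ p) ^ (1 / p) := (rpow_root hp hA).symm
    _ ≤ (K * B ^ p) ^ (1 / p) := Real.rpow_le_rpow (Real.rpow_nonneg hA p) h (one_div_pos.2 hp).le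
    _ = K ^ (1 / p) * B := by
        rw [Real.mul_rpow hK (Real.rpow_nonneg hB p), rpow_root hp hB]

end conv2

section main
variable {p : ℝ} (hp : 0 < p) {M : Type u} [MetricSpace M] {o : M} {F : Type u} [AddCommGroup F]
  [Module ℝ F] {q : F → ℝ} {δ : M → F}

lemma freeN_of (h : IsLipschitzFree p M o q δ) :
    (letI := nacg hp h.banach.toIsPNorm; FreeN p M o F δ) := by
  letI := nacg hp h.banach.toIsPNorm
  refine
    { hom := nacg_pHom hp h.banach.toIsPNorm
      complete := nacg_complete hp h.banach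
      iso := fun x y => ?_
      base := h.base
      lift := ?_
      uniq := ?_ }
  · show q (δ x - δ y) ^ p = _
    rw [h.isometry]
  · intro Y _ _ hY hYc f L hL hfo hf
    have hB := isPBanach_of hp hY
    have hf' : ∀ x y, ‖f x - f y‖ ^ (1 / p) ≤ L ^ (1 / p) * dist x y := by
      intro x y
      have h1 := hf x y
      calc ‖f x - f y‖ ^ (1 / p) ≤ (L * dist x y ^ p) ^ (1 / p) :=
            Real.rpow_le_rpow (norm_nonneg _) h1 (one_div_pos.2 hp).le
        _ = L ^ (1 / p) * dist x y := by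
            rw [Real.mul_rpow hL (Real.rpow_nonneg dist_nonneg p), rpow_root hp dist_nonneg]
    obtain ⟨T, hT1, hT2, hT3, hT4⟩ := h.universal Y (fun y : Y => ‖y‖ ^ (1 / p)) hB f hfo
      ⟨L ^ (1 / p), hf'⟩
    refine ⟨T, fun v => ?_, hT2⟩
    have h2 := (hT4 (L ^ (1 / p)) (Real.rpow_nonneg hL _)).1 hf' v
    show ‖T v‖ ≤ L * q v ^ p
    calc ‖T v‖ = (‖T v‖ ^ (1 / p)) ^ p := (root_rpow hp (norm_nonneg _)).symm
      _ ≤ (L ^ (1 / p) * q v) ^ p :=
          Real.rpow_le_rpow (Real.rpow_nonneg (norm_nonneg _) _) h2 hp.le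
      _ = L * q v ^ p := by
          rw [Real.mul_rpow (Real.rpow_nonneg hL _) (h.banach.nonneg _), root_rpow hp hL]
  · intro Y _ _ hY hYc T S hT hS hTS
    have hB := isPBanach_of hp hY
    obtain ⟨C, hC0, hC⟩ := hT.nonneg_const
    have hbd : ∀ {R : F →ₗ[ℝ] Y}, Bdd R → IsBounded q (fun y : Y => ‖y‖ ^ (1 / p)) R := by
      intro R hR
      obtain ⟨C, hC0, hC⟩ := hR.nonneg_const
      refine ⟨C ^ (1 / p), fun v => ?_⟩
      have h1 : ‖R v‖ ≤ C * q v ^ p := hC v
      calc ‖R v‖ ^ (1 / p) ≤ (C * q v ^ p) ^ (1 / p) :=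
            Real.rpow_le_rpow (norm_nonneg _) h1 (one_div_pos.2 hp).le
        _ = C ^ (1 / p) * q v := by
            rw [Real.mul_rpow hC0 (Real.rpow_nonneg (h.banach.nonneg _) p),
              rpow_root hp (h.banach.nonneg _)]
    have hlip : ∀ x y, ‖T (δ x) - T (δ y)‖ ^ (1 / p) ≤ C ^ (1 / p) * dist x y := by
      intro x y
      rw [← map_sub]
      have h1 : ‖T (δ x - δ y)‖ ≤ C * q (δ x - δ y) ^ p := hC _
      rw [h.isometry] at h1
      calc ‖T (δ x - δ y)‖ ^ (1 / p) ≤ (C * dist x y ^ p) ^ (1 / p) :=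
            Real.rpow_le_rpow (norm_nonneg _) h1 (one_div_pos.2 hp).le
        _ = C ^ (1 / p) * dist x y := by
            rw [Real.mul_rpow hC0 (Real.rpow_nonneg dist_nonneg p), rpow_root hp dist_nonneg]
    obtain ⟨R, hR1, hR2, hR3, hR4⟩ := h.universal Y (fun y : Y => ‖y‖ ^ (1 / p)) hB
      (fun x => T (δ x)) (by rw [h.base, map_zero]) ⟨C ^ (1 / p), hlip⟩
    have e1 := hR3 T (hbd hT) (fun _ => rfl)
    have e2 := hR3 S (hbd hS) (fun x => (hTS x).symm)
    rw [e1, e2]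

/-- From an isomorphism in terms of `q ^ p` to the statement. -/
lemma isomorphic_of (h : IsPNorm p q)
    (hiso : letI := nacg hp h; haveI : BddSMul F := (nacg_pHom hp h).bddSMul; PIso F (Ell F)) :
    Isomorphic q (fun w : LpSum p hp q h => lpNorm p q (w : ℕ → F)) := by
  letI := nacg hp h
  haveI : BddSMul F := (nacg_pHom hp h).bddSMul
  obtain ⟨e, he1, he2⟩ := hiso
  obtain ⟨C1, hC10, hC1⟩ := he1.nonneg_const
  obtain ⟨C2, hC20, hC2⟩ := he2.nonneg_const
  let g : Ell F ≃ₗ[ℝ] LpSum p hp q h :=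
    { toFun := fun y => ⟨fun n => y n, y.summable⟩
      map_add' := fun y z => rfl
      map_smul' := fun t y => rfl
      invFun := fun w => Ell.mk (fun n => (w : ℕ → F) n) w.2
      left_inv := fun y => rfl
      right_inv := fun w => rfl }
  refine ⟨e.trans g, ⟨C1 ^ (1 / p), fun v => ?_⟩, ⟨C2 ^ (1 / p), fun w => ?_⟩⟩
  · show (∑' n, q (e v n) ^ p) ^ (1 / p) ≤ C1 ^ (1 / p) * q v
    have h1 : ∑' n, q (e v n) ^ p ≤ C1 * q v ^ p := by
      have := hC1 v
      rw [Ell.norm_def] at this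
      exact this
    have h0 : 0 ≤ ∑' n, q (e v n) ^ p := tsum_nonneg fun n => Real.rpow_nonneg (h.nonneg _) p
    calc (∑' n, q (e v n) ^ p) ^ (1 / p) ≤ (C1 * q v ^ p) ^ (1 / p) :=
          Real.rpow_le_rpow h0 h1 (one_div_pos.2 hp).le
      _ = C1 ^ (1 / p) * q v := by
          rw [Real.mul_rpow hC10 (Real.rpow_nonneg (h.nonneg _) p), rpow_root hp (h.nonneg _)]
  · show q (e.symm (g.symm w)) ≤ C2 ^ (1 / p) * (∑' n, q ((w : ℕ → F) n) ^ p) ^ (1 / p)
    have h0 : 0 ≤ ∑' n, q ((w : ℕ → F) n) ^ p := tsum_nonneg fun n => Real.rpow_nonneg (h.nonneg _) p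
    have h1 : q (e.symm (g.symm w)) ^ p ≤ C2 * ∑' n, q ((w : ℕ → F) n) ^ p := by
      have := hC2 (g.symm w)
      rw [Ell.norm_def] at this
      exact this
    calc q (e.symm (g.symm w)) = (q (e.symm (g.symm w)) ^ p) ^ (1 / p) :=
          (rpow_root hp (h.nonneg _)).symm
      _ ≤ (C2 * ∑' n, q ((w : ℕ → F) n) ^ p) ^ (1 / p) :=
          Real.rpow_le_rpow (Real.rpow_nonneg (h.nonneg _) p) h1 (one_div_pos.2 hp).le
      _ = C2 ^ (1 / p) * (∑' n, q ((w : ℕ → F) n) ^ p) ^ (1 / p) :=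
          Real.mul_rpow hC20 h0

end main

/-- **Main theorem.** -/
theorem isomorphic_net {p : ℝ} (hp : 0 < p) {X : Type u} [NormedAddCommGroup X]
    [NormedSpace ℝ X] {N : Set X} (hN : IsNet N) {o : N} {F : Type u} [AddCommGroup F] [Module ℝ F]
    {q : F → ℝ} {δ : N → F} (h : IsLipschitzFree p N o q δ) :
    Isomorphic q (fun w : LpSum p hp q h.banach.toIsPNorm => lpNorm p q (w : ℕ → F)) := by
  obtain ⟨a, b, ha, hab, hsep, hden⟩ := hN
  apply isomorphic_of hp h.banach.toIsPNorm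
  letI := nacg hp h.banach.toIsPNorm
  have hF : FreeN p N o F δ := freeN_of hp h
  haveI : BddSMul F := (nacg_pHom hp h.banach.toIsPNorm).bddSMul
  rcases subsingleton_or_nontrivial X with hX | hX
  · -- trivial case
    have hall : ∀ v : F, v = 0 := by
      intro v
      have h1 : (LinearMap.id : F →ₗ[ℝ] F) = 0 := by
        refine hF.uniq F hF.hom hF.complete _ _ Bdd.id ⟨0, fun y => by simp⟩ fun x => ?_
        have hx : x = o := Subtype.ext (Subsingleton.elim _ _)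
        rw [hx, hF.base]
        simp
      exact congrArg (fun T : F →ₗ[ℝ] F => T v) h1
    refine PIso.of_maps (0 : F →ₗ[ℝ] Ell F) (0 : Ell F →ₗ[ℝ] F) ⟨0, fun y => by simp⟩
      ⟨0, fun y => by simp⟩ (fun z => ?_) (fun y => (hall y).symm)
    ext n
    rw [hall (z n)]
    rfl
  · obtain ⟨D⟩ := exists_netData (p := p) o hp ha hab
      (fun x y hxy => hsep x x.2 y y.2 (fun h => hxy (Subtype.ext h)))
      (fun x => by obtain ⟨y, hy, hxy⟩ := hden x; exact ⟨⟨y, hy⟩, hxy⟩)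
    exact hF.pIso_ell D hp

end Pool.Agent.Helper25.FreeP
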