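import Pool.Agent.Helper25.GrimReaperMax

set_option autoImplicit false
open scoped ContDiff Topology
open Set Filter MeasureTheory

namespace Pool.Agent.Helper25.GrimReaper

/-- The Gaussian-type barrier `A τ^{-1/4} exp(-y²/(4τ))`, `τ = t + T₀`. -/
noncomputable def G (A T₀ t y : ℝ) : ℝ :=
  A * Real.exp (-(y ^ 2 / (4 * (t + T₀))) - (1 / 4) * Real.log (t + T₀))

lemma G_nonneg {A T₀ t y : ℝ} (hA : 0 ≤ A) : 0 ≤ G A T₀ t y := by
  unfold G; positivity

lemma G_deriv_y {A T₀ t : ℝ} (hτ : 0 < t + T₀) (y : ℝ) :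
    HasDerivAt (G A T₀ t) (G A T₀ t y * (-(y / (2 * (t + T₀))))) y := by
  unfold G
  have h1 : HasDerivAt (fun y : ℝ => -(y ^ 2 / (4 * (t + T₀))) - (1 / 4) * Real.log (t + T₀))
      (-(y / (2 * (t + T₀)))) y := by
    have := (((hasDerivAt_pow 2 y).div_const (4 * (t + T₀))).neg).sub_const ((1 / 4) * Real.log (t + T₀))
    refine this.congr_deriv ?_
    field_simp
    norm_num
    ring
  have h2 := (h1.exp).const_mul A
  refine h2.congr_deriv ?_
  ring

lemma G_deriv_y_eq {A T₀ t : ℝ} (hτ : 0 < t + T₀) :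
    deriv (G A T₀ t) = fun y => G A T₀ t y * (-(y / (2 * (t + T₀)))) := by
  funext y
  exact (G_deriv_y hτ y).deriv

lemma G_deriv_yy {A T₀ t : ℝ} (hτ : 0 < t + T₀) (y : ℝ) :
    HasDerivAt (deriv (G A T₀ t))
      (G A T₀ t y * (y ^ 2 / (4 * (t + T₀) ^ 2) - 1 / (2 * (t + T₀)))) y := by
  rw [G_deriv_y_eq hτ]
  have h1 := (G_deriv_y (A := A) hτ y).mul (((hasDerivAt_id y).div_const (2 * (t + T₀))).neg)
  refine h1.congr_deriv ?_
  simp only [Pi.neg_apply, id]
  field_simp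
  ring

lemma G_deriv_t {A T₀ t : ℝ} (hτ : 0 < t + T₀) (y : ℝ) :
    HasDerivAt (fun s => G A T₀ s y)
      (G A T₀ t y * (y ^ 2 / (4 * (t + T₀) ^ 2) - 1 / (4 * (t + T₀)))) t := by
  unfold G
  have h0 : HasDerivAt (fun s : ℝ => s + T₀) 1 t := (hasDerivAt_id t).add_const T₀
  have h1 : HasDerivAt (fun s : ℝ => -(y ^ 2 / (4 * (s + T₀))) - (1 / 4) * Real.log (s + T₀))
      (y ^ 2 / (4 * (t + T₀) ^ 2) - 1 / (4 * (t + T₀))) t := by
    have h2 := (hasDerivAt_const t (y ^ 2)).div (h0.const_mul 4) (by positivity)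
    have h3 := (h2.neg).sub ((h0.log hτ.ne').const_mul (1 / 4))
    refine h3.congr_deriv ?_
    field_simp
    ring
  have h2 := (h1.exp).const_mul A
  refine h2.congr_deriv ?_
  ring

lemma G_contDiff {A T₀ t : ℝ} : ContDiff ℝ 2 (G A T₀ t) := by
  unfold G
  fun_prop

lemma alg_upper {S m P r : ℝ} (hS : 1 ≤ S) (hP : 0 ≤ P) (h1 : P + m ≤ r) (h2 : 0 ≤ 1 + r) :
    S + m - (1 + ((S - 1) + P))⁻¹ * (S * (S - 1) + m * P) ≤ 1 + r := by
  have hSP : 0 < S + P := by linarith
  have e1 : S + m - (1 + ((S - 1) + P))⁻¹ * (S * (S - 1) + m * P) = S * (1 + P + m) / (S + P) := by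
    rw [show (1 + ((S - 1) + P)) = S + P by ring]
    field_simp
    ring
  rw [e1, div_le_iff₀ hSP]
  nlinarith

lemma alg_lower {S m P r : ℝ} (hS : 1 ≤ S) (hP : 0 ≤ P)
    (h : 0 ≤ P * (S - 1) + S * m + r * (S + P)) :
    1 - r ≤ S + m - (1 + ((S - 1) + P))⁻¹ * (S * (S - 1) + m * P) := by
  have hSP : 0 < S + P := by linarith
  have e1 : S + m - (1 + ((S - 1) + P))⁻¹ * (S * (S - 1) + m * P) = S * (1 + P + m) / (S + P) := by
    rw [show (1 + ((S - 1) + P)) = S + P by ring]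
    field_simp
    ring
  rw [e1, le_div_iff₀ hSP]
  nlinarith

/-- derivatives of `-log cos` -/
lemma k_deriv {s : ℝ} (hs : s ∈ Ioo (-(Real.pi / 2)) (Real.pi / 2)) :
    HasDerivAt (fun s => -Real.log (Real.cos s)) (Real.tan s) s := by
  have hcos : 0 < Real.cos s := Real.cos_pos_of_mem_Ioo hs
  have := ((Real.hasDerivAt_cos s).log hcos.ne').neg
  refine this.congr_deriv ?_
  rw [Real.tan_eq_sin_div_cos]
  ring

lemma k_deriv2 {s : ℝ} (hs : s ∈ Ioo (-(Real.pi / 2)) (Real.pi / 2)) :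
    deriv (deriv (fun s => -Real.log (Real.cos s))) s = 1 + Real.tan s ^ 2 := by
  have hcos : 0 < Real.cos s := Real.cos_pos_of_mem_Ioo hs
  have h1 : deriv (fun s => -Real.log (Real.cos s)) =ᶠ[𝓝 s] Real.tan := by
    filter_upwards [isOpen_Ioo.mem_nhds hs] with r hr
    exact (k_deriv hr).deriv
  rw [h1.deriv_eq, (Real.hasDerivAt_tan hcos.ne').deriv, Real.tan_eq_sin_div_cos]
  field_simp
  rw [← Real.sin_sq_add_cos_sq s]
  ring

lemma k_contDiffAt {s : ℝ} (hs : s ∈ Ioo (-(Real.pi / 2)) (Real.pi / 2)) :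
    ContDiffAt ℝ 2 (fun s => -Real.log (Real.cos s)) s := by
  have hcos : 0 < Real.cos s := Real.cos_pos_of_mem_Ioo hs
  exact (Real.contDiff_cos.contDiffAt.log hcos.ne').neg


/-- The evolution inequality for the upper barrier. -/
lemma upper_ineq {n : ℕ} [NeZero n] {j : Fin n} (hj : j ≠ 0) {A T₀ t c : ℝ} (hA : 0 ≤ A)
    (hτ : 1 / 4 ≤ t + T₀) {x : E n} (hx : x ∈ slab n) :
    ContDiffAt ℝ 2 (fun z : E n => v₀ z + (Real.log (1 + G A T₀ t (z j)) + c)) x ∧
    mcfOperator (fun z : E n => v₀ z + (Real.log (1 + G A T₀ t (z j)) + c)) x ≤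
      1 + (G A T₀ t (x j) * ((x j) ^ 2 / (4 * (t + T₀) ^ 2) - 1 / (4 * (t + T₀)))) /
        (1 + G A T₀ t (x j)) := by
  have hτ0 : 0 < t + T₀ := by linarith
  have hG : ∀ y, 0 < 1 + G A T₀ t y := fun y => by
    have := G_nonneg (T₀ := T₀) (t := t) (y := y) hA
    linarith
  set l : ℝ → ℝ := fun y => Real.log (1 + G A T₀ t y) + c with hl
  have hlc : ContDiffAt ℝ 2 l (x j) := by
    have h1 : ContDiffAt ℝ 2 (fun y => 1 + G A T₀ t y) (x j) :=
      contDiffAt_const.add G_contDiff.contDiffAt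
    exact (h1.log (hG _).ne').add contDiffAt_const
  have hk := k_contDiffAt hx
  have hfun : (fun z : E n => v₀ z + (Real.log (1 + G A T₀ t (z j)) + c)) =
      fun z : E n => (fun s => -Real.log (Real.cos s)) (z 0) + l (z j) := rfl
  have hld : ∀ y, HasDerivAt l (deriv (G A T₀ t) y / (1 + G A T₀ t y)) y := by
    intro y
    have h1 := (((G_deriv_y (A := A) hτ0 y).const_add 1).log (hG y).ne').add_const c
    refine h1.congr_deriv ?_
    rw [(G_deriv_y (A := A) hτ0 y).deriv]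
  have hl1 : deriv l = fun y => deriv (G A T₀ t) y / (1 + G A T₀ t y) := by
    funext y; exact (hld y).deriv
  have hl2 : deriv (deriv l) (x j) =
      (G A T₀ t (x j) * ((x j) ^ 2 / (4 * (t + T₀) ^ 2) - 1 / (2 * (t + T₀)))) / (1 + G A T₀ t (x j))
        - (deriv l (x j)) ^ 2 := by
    have h1 := (G_deriv_yy (A := A) hτ0 (x j)).div ((G_deriv_y (A := A) hτ0 (x j)).const_add 1)
      (hG (x j)).ne'
    have h2 : deriv (fun y => deriv (G A T₀ t) y / (1 + G A T₀ t y)) (x j) = _ := h1.deriv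
    rw [hl1, h2]
    simp only []
    rw [(G_deriv_y (A := A) hτ0 (x j)).deriv]
    have := (hG (x j)).ne'
    field_simp
  refine ⟨?_, ?_⟩
  · rw [hfun]
    exact (coord_contDiffAt (i := (0 : Fin n)) hk).add (coord_contDiffAt (i := j) hlc)
  · rw [hfun, mcf_two_coords hj.symm hk hlc, (k_deriv hx).deriv, k_deriv2 hx]
    have hS : (1 : ℝ) ≤ 1 + Real.tan (x 0) ^ 2 := by nlinarith [sq_nonneg (Real.tan (x 0))]
    have hG0 := G_nonneg (T₀ := T₀) (t := t) (y := x j) hA
    have h1 := alg_upper (S := 1 + Real.tan (x 0) ^ 2) (m := deriv (deriv l) (x j))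
      (P := deriv l (x j) ^ 2)
      (r := (G A T₀ t (x j) * ((x j) ^ 2 / (4 * (t + T₀) ^ 2) - 1 / (4 * (t + T₀)))) /
        (1 + G A T₀ t (x j))) hS (sq_nonneg _) ?_ ?_
    · have e : (1 + Real.tan (x 0) ^ 2 - 1) = Real.tan (x 0) ^ 2 := by ring
      rw [e] at h1
      exact h1
    · rw [hl2]
      have h3 : (G A T₀ t (x j) * ((x j) ^ 2 / (4 * (t + T₀) ^ 2) - 1 / (2 * (t + T₀)))) / (1 + G A T₀ t (x j))
        ≤ (G A T₀ t (x j) * ((x j) ^ 2 / (4 * (t + T₀) ^ 2) - 1 / (4 * (t + T₀)))) / (1 + G A T₀ t (x j)) := by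
        apply div_le_div_of_nonneg_right _ (hG _).le
        apply mul_le_mul_of_nonneg_left _ hG0
        have : 1 / (4 * (t + T₀)) ≤ 1 / (2 * (t + T₀)) := by
          apply one_div_le_one_div_of_le <;> linarith
        linarith
      linarith
    · have h3 : -(1 : ℝ) ≤ (G A T₀ t (x j) * ((x j) ^ 2 / (4 * (t + T₀) ^ 2) - 1 / (4 * (t + T₀)))) /
        (1 + G A T₀ t (x j)) := by
        rw [le_div_iff₀ (hG _)]
        have h4 : 1 / (4 * (t + T₀)) ≤ 1 := by
          rw [div_le_one (by linarith)]; linarith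
        have h5 : 0 ≤ (x j) ^ 2 / (4 * (t + T₀) ^ 2) := by positivity
        nlinarith
      linarith

/-- The evolution inequality for the lower barrier. -/
lemma lower_ineq {n : ℕ} [NeZero n] {j : Fin n} (hj : j ≠ 0) {A T₀ t c : ℝ} (hA : 0 ≤ A)
    (hτ : 0 < t + T₀) {x : E n} (hx : x ∈ slab n)
    (hP : (G A T₀ t (x j) * (-(x j / (2 * (t + T₀))))) ^ 2 ≤ 1) :
    ContDiffAt ℝ 2 (fun z : E n => v₀ z + (-G A T₀ t (z j) + c)) x ∧
    1 - G A T₀ t (x j) * ((x j) ^ 2 / (4 * (t + T₀) ^ 2) - 1 / (4 * (t + T₀))) ≤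
    mcfOperator (fun z : E n => v₀ z + (-G A T₀ t (z j) + c)) x := by
  set l : ℝ → ℝ := fun y => -G A T₀ t y + c with hl
  have hlc : ContDiffAt ℝ 2 l (x j) := (G_contDiff.contDiffAt.neg).add contDiffAt_const
  have hk := k_contDiffAt hx
  have hfun : (fun z : E n => v₀ z + (-G A T₀ t (z j) + c)) =
      fun z : E n => (fun s => -Real.log (Real.cos s)) (z 0) + l (z j) := rfl
  have hl1 : deriv l = fun y => -deriv (G A T₀ t) y := by
    funext y
    rw [(G_deriv_y (A := A) hτ y).deriv]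
    exact ((G_deriv_y (A := A) hτ y).neg.add_const c).deriv
  have hl2 : deriv (deriv l) (x j) =
      -(G A T₀ t (x j) * ((x j) ^ 2 / (4 * (t + T₀) ^ 2) - 1 / (2 * (t + T₀)))) := by
    rw [hl1]
    exact (G_deriv_yy (A := A) hτ (x j)).neg.deriv
  refine ⟨?_, ?_⟩
  · rw [hfun]
    exact (coord_contDiffAt (i := (0 : Fin n)) hk).add (coord_contDiffAt (i := j) hlc)
  · rw [hfun, mcf_two_coords hj.symm hk hlc, (k_deriv hx).deriv, k_deriv2 hx]
    have hS : (1 : ℝ) ≤ 1 + Real.tan (x 0) ^ 2 := by nlinarith [sq_nonneg (Real.tan (x 0))]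
    have hG0 := G_nonneg (T₀ := T₀) (t := t) (y := x j) hA
    have hP' : deriv l (x j) ^ 2 ≤ 1 := by
      rw [hl1]
      simp only []
      rw [(G_deriv_y (A := A) hτ (x j)).deriv, neg_sq]
      exact hP
    have h1 := alg_lower (S := 1 + Real.tan (x 0) ^ 2) (m := deriv (deriv l) (x j))
      (P := deriv l (x j) ^ 2)
      (r := G A T₀ t (x j) * ((x j) ^ 2 / (4 * (t + T₀) ^ 2) - 1 / (4 * (t + T₀))))
      hS (sq_nonneg _) ?_
    · have e : (1 + Real.tan (x 0) ^ 2 - 1) = Real.tan (x 0) ^ 2 := by ring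
      rw [e] at h1
      exact h1
    · rw [hl2]
      generalize hSd : 1 + Real.tan (x 0) ^ 2 = S at *
      generalize hPd : deriv l (x j) ^ 2 = P at *
      have hP0 : 0 ≤ P := by rw [← hPd]; positivity
      generalize G A T₀ t (x j) = g at *
      have hq : 0 ≤ (x j) ^ 2 / (4 * (t + T₀) ^ 2) := by positivity
      generalize (x j) ^ 2 / (4 * (t + T₀) ^ 2) = q at *
      have hτ2 : 1 / (2 * (t + T₀)) = 2 * (1 / (4 * (t + T₀))) := by field_simp; norm_num
      rw [hτ2]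
      have hτ3 : 0 ≤ 1 / (4 * (t + T₀)) := by positivity
      generalize 1 / (4 * (t + T₀)) = a at *
      -- goal: 0 ≤ P (S-1) + S * (-(g (q - 2a))) + g (q - a) (S + P)
      have : P * (S - 1) + S * -(g * (q - 2 * a)) + g * (q - a) * (S + P)
        = P * (S - 1) + g * a * (S - P) + P * (g * q) := by ring
      rw [this]
      have h5 : 0 ≤ P * (S - 1) := mul_nonneg hP0 (by linarith)
      have h6 : 0 ≤ g * a * (S - P) := mul_nonneg (mul_nonneg hG0 hτ3) (by linarith)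
      have h7 : 0 ≤ P * (g * q) := mul_nonneg hP0 (mul_nonneg hG0 hq)
      linarith


lemma isOpen_slab' (n : ℕ) [NeZero n] : IsOpen (slab n) := by
  have : Continuous (fun x : E n => x 0) := by fun_prop
  exact isOpen_Ioo.preimage this

lemma v₀_continuousOn (n : ℕ) [NeZero n] : ContinuousOn (v₀ (n := n)) (slab n) := by
  intro x hx
  have hcos : 0 < Real.cos (x 0) := Real.cos_pos_of_mem_Ioo hx
  have h1 : ContinuousAt (fun y : E n => Real.cos (y 0)) x := by fun_prop
  exact ((h1.log hcos.ne').neg).continuousWithinAt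

lemma G_continuous_yt {A T₀ : ℝ} (hT₀ : 0 < T₀) :
    ContinuousOn (fun p : ℝ × ℝ => G A T₀ p.2 p.1) (univ ×ˢ Ici (0 : ℝ)) := by
  unfold G
  intro p hp
  have hp2 : 0 ≤ p.2 := hp.2
  have hτ : 0 < p.2 + T₀ := by linarith
  refine ContinuousAt.continuousWithinAt ?_
  have h1 : ContinuousAt (fun p : ℝ × ℝ => p.2 + T₀) p := by fun_prop
  have h2 : ContinuousAt (fun p : ℝ × ℝ => p.1 ^ 2) p := by fun_prop
  have h3 : ContinuousAt (fun p : ℝ × ℝ => p.1 ^ 2 / (4 * (p.2 + T₀))) p :=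
    h2.div (continuousAt_const.mul h1) (by positivity)
  exact continuousAt_const.mul ((h3.neg.sub (continuousAt_const.mul (h1.log hτ.ne'))).rexp)

lemma time_hasDerivAt {n : ℕ} [NeZero n] {u : E n → ℝ → ℝ} (hu : IsGraphicalSolution (slab n) u)
    {x : E n} (hx : x ∈ slab n) {t : ℝ} (ht : 0 < t) :
    HasDerivAt (fun s => u x s) (mcfOperator (fun y => u y t) x) t := by
  rw [← hu.mcf x hx t ht]
  have h1 : ContDiffAt ℝ ∞ (fun p : E n × ℝ => u p.1 p.2) (x, t) :=
    hu.smooth.contDiffAt (((isOpen_slab' n).prod isOpen_Ioi).mem_nhds ⟨hx, ht⟩)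
  have h2 : ContDiffAt ℝ ∞ (fun s : ℝ => ((x, s) : E n × ℝ)) t := by fun_prop
  have h3 : ContDiffAt ℝ ∞ (fun s => u x s) t :=
    ContDiffAt.comp t (g := fun p : E n × ℝ => u p.1 p.2) h1 h2
  exact (h3.differentiableAt (by simp)).hasDerivAt

lemma space_contDiffAt {n : ℕ} [NeZero n] {u : E n → ℝ → ℝ} (hu : IsGraphicalSolution (slab n) u)
    {x : E n} (hx : x ∈ slab n) {t : ℝ} (ht : 0 < t) :
    ContDiffAt ℝ 2 (fun y => u y t) x := by
  have h1 : ContDiffAt ℝ ∞ (fun p : E n × ℝ => u p.1 p.2) (x, t) :=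
    hu.smooth.contDiffAt (((isOpen_slab' n).prod isOpen_Ioi).mem_nhds ⟨hx, ht⟩)
  have h2 : ContDiffAt ℝ ∞ (fun y : E n => ((y, t) : E n × ℝ)) x := by fun_prop
  have h3 : ContDiffAt ℝ ∞ (fun y => u y t) x :=
    ContDiffAt.comp x (g := fun p : E n × ℝ => u p.1 p.2) h1 h2
  exact h3.of_le (WithTop.coe_le_coe.2 le_top)

/-- Upper comparison. -/
lemma upper_comparison {n : ℕ} [NeZero n] {j : Fin n} (hj : j ≠ 0) {u : E n → ℝ → ℝ}
    (hu : IsGraphicalSolution (slab n) u) (hd : StaysAsymptotic n u) {A T₀ ε : ℝ} (hA : 0 ≤ A)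
    (hT₀ : 1 / 4 ≤ T₀) (hε : 0 < ε)
    (hinit : ∀ x ∈ slab n, u x 0 ≤ v₀ x + ε + Real.log (1 + G A T₀ 0 (x j))) {x : E n}
    (hx : x ∈ slab n) {t : ℝ} (ht : 0 ≤ t) :
    u x t ≤ v₀ x + t + ε + Real.log (1 + G A T₀ t (x j)) := by
  have hG : ∀ s y, 0 < 1 + G A T₀ s y := fun s y => by
    have := G_nonneg (T₀ := T₀) (t := s) (y := y) hA
    linarith
  have hlog : ∀ s y, 0 ≤ Real.log (1 + G A T₀ s y) := fun s y => by
    apply Real.log_nonneg
    have := G_nonneg (T₀ := T₀) (t := s) (y := y) hA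
    linarith
  -- it suffices to have the bound with an extra `δ t`
  have key : ∀ δ : ℝ, 0 < δ → u x t ≤ v₀ x + t + ε + Real.log (1 + G A T₀ t (x j)) + δ * t := by
    intro δ hδ
    obtain ⟨K, hK, hKU, hKb⟩ := hd t ε hε
    have hmp := parabolic_max (h := fun x s => u x s -
        (v₀ x + s + ε + Real.log (1 + G A T₀ s (x j)) + δ * s)) (T := t) hK hKU (isOpen_slab' n)
      ?_ ?_ ?_ ?_ x hx t ⟨ht, le_rfl⟩
    · linarith
    · -- continuity
      have c1 : ContinuousOn (fun p : E n × ℝ => u p.1 p.2) (slab n ×ˢ Icc 0 t) :=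
        hu.cont.mono (prod_mono le_rfl Icc_subset_Ici_self)
      have c2 : ContinuousOn (fun p : E n × ℝ => v₀ p.1) (slab n ×ˢ Icc 0 t) :=
        (v₀_continuousOn n).comp continuousOn_fst (fun p hp => hp.1)
      have c3 : ContinuousOn (fun p : E n × ℝ => G A T₀ p.2 (p.1 j)) (slab n ×ˢ Icc 0 t) := by
        have h1 : Continuous (fun p : E n × ℝ => ((p.1 j, p.2) : ℝ × ℝ)) := by fun_prop
        exact ContinuousOn.comp (g := fun p : ℝ × ℝ => G A T₀ p.2 p.1)
          (f := fun p : E n × ℝ => ((p.1 j, p.2) : ℝ × ℝ))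
          (G_continuous_yt (by linarith : (0:ℝ) < T₀)) h1.continuousOn
          (fun p hp => ⟨mem_univ _, hp.2.1⟩)
      have c4 : ContinuousOn (fun p : E n × ℝ => Real.log (1 + G A T₀ p.2 (p.1 j)))
          (slab n ×ˢ Icc 0 t) := (continuousOn_const.add c3).log (fun p _ => (hG _ _).ne')
      have c5 : ContinuousOn (fun p : E n × ℝ => p.2) (slab n ×ˢ Icc 0 t) := continuousOn_snd
      have c6 := c1.sub ((((c2.add c5).add (continuousOn_const (c := ε))).add c4).add
        ((continuousOn_const (c := δ)).mul c5))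
      exact c6
    · intro y hy
      have := hinit y hy
      simp only [add_zero, mul_zero]
      linarith
    · intro y hy hyK s hs
      have h1 := (abs_lt.1 (hKb y hy hyK s hs)).2
      have h2 := hlog s (y j)
      have h3 : 0 ≤ δ * s := mul_nonneg hδ.le hs.1
      linarith
    · intro y hy s hs hmax htime
      have hs0 : 0 < s := hs.1
      have hτ : 1 / 4 ≤ s + T₀ := by linarith
      obtain ⟨b1, b2⟩ := upper_ineq hj (A := A) (T₀ := T₀) (t := s) (c := s + ε + δ * s) hA hτ hy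
      have hmax' : IsLocalMax (fun z => u z s -
          (v₀ z + (Real.log (1 + G A T₀ s (z j)) + (s + ε + δ * s)))) y := by
        refine hmax.congr ?_
        exact Eventually.of_forall fun z => by ring
      have h1 := mcf_le_of_isLocalMax (space_contDiffAt hu hy hs0) b1 hmax'
      -- time derivative
      have hut := time_hasDerivAt hu hy hs0
      have hGt := G_deriv_t (A := A) (T₀ := T₀) (t := s) (by linarith) (y j)
      have hlt := (hGt.const_add 1).log (hG s (y j)).ne'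
      have hφt : HasDerivAt (fun r => v₀ y + r + ε + Real.log (1 + G A T₀ r (y j)) + δ * r)
          (1 + (G A T₀ s (y j) * ((y j) ^ 2 / (4 * (s + T₀) ^ 2) - 1 / (4 * (s + T₀)))) /
            (1 + G A T₀ s (y j)) + δ) s := by
        have h2 := ((((hasDerivAt_id s).const_add (v₀ y)).add_const ε).add hlt).add
          ((hasDerivAt_id s).const_mul δ)
        refine h2.congr_deriv ?_
        ring
      have h3 := deriv_nonneg_of_left_max hs0 (hut.sub hφt) htime
      linarith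
  refine le_of_forall_pos_le_add fun η hη => ?_
  have h1 := key (η / (t + 1)) (by positivity)
  have h2 : η / (t + 1) * t ≤ η := by
    rw [div_mul_eq_mul_div, div_le_iff₀ (by linarith)]
    nlinarith
  linarith

/-- Lower comparison. -/
lemma lower_comparison {n : ℕ} [NeZero n] {j : Fin n} (hj : j ≠ 0) {u : E n → ℝ → ℝ}
    (hu : IsGraphicalSolution (slab n) u) (hd : StaysAsymptotic n u) {A T₀ ε : ℝ} (hA : 0 ≤ A)
    (hT₀ : 0 < T₀) (hε : 0 < ε)
    (hP : ∀ s : ℝ, 0 ≤ s → ∀ y : ℝ, (G A T₀ s y * (-(y / (2 * (s + T₀))))) ^ 2 ≤ 1)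
    (hinit : ∀ x ∈ slab n, v₀ x - ε - G A T₀ 0 (x j) ≤ u x 0) {x : E n}
    (hx : x ∈ slab n) {t : ℝ} (ht : 0 ≤ t) :
    v₀ x + t - ε - G A T₀ t (x j) ≤ u x t := by
  have hG : ∀ s y, 0 ≤ G A T₀ s y := fun s y => G_nonneg hA
  have key : ∀ δ : ℝ, 0 < δ → v₀ x + t - ε - G A T₀ t (x j) - δ * t ≤ u x t := by
    intro δ hδ
    obtain ⟨K, hK, hKU, hKb⟩ := hd t ε hε
    have hmp := parabolic_max (h := fun x s =>
        (v₀ x + s - ε - G A T₀ s (x j) - δ * s) - u x s) (T := t) hK hKU (isOpen_slab' n)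
      ?_ ?_ ?_ ?_ x hx t ⟨ht, le_rfl⟩
    · linarith
    · have c1 : ContinuousOn (fun p : E n × ℝ => u p.1 p.2) (slab n ×ˢ Icc 0 t) :=
        hu.cont.mono (prod_mono le_rfl Icc_subset_Ici_self)
      have c2 : ContinuousOn (fun p : E n × ℝ => v₀ p.1) (slab n ×ˢ Icc 0 t) :=
        (v₀_continuousOn n).comp continuousOn_fst (fun p hp => hp.1)
      have c3 : ContinuousOn (fun p : E n × ℝ => G A T₀ p.2 (p.1 j)) (slab n ×ˢ Icc 0 t) := by
        have h1 : Continuous (fun p : E n × ℝ => ((p.1 j, p.2) : ℝ × ℝ)) := by fun_prop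
        exact ContinuousOn.comp (g := fun p : ℝ × ℝ => G A T₀ p.2 p.1)
          (f := fun p : E n × ℝ => ((p.1 j, p.2) : ℝ × ℝ))
          (G_continuous_yt hT₀) h1.continuousOn
          (fun p hp => ⟨mem_univ _, hp.2.1⟩)
      have c5 : ContinuousOn (fun p : E n × ℝ => p.2) (slab n ×ˢ Icc 0 t) := continuousOn_snd
      have c6 := ((((c2.add c5).sub (continuousOn_const (c := ε))).sub c3).sub
        ((continuousOn_const (c := δ)).mul c5)).sub c1
      exact c6
    · intro y hy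
      have := hinit y hy
      simp only [add_zero, mul_zero]
      linarith
    · intro y hy hyK s hs
      have h1 := (abs_lt.1 (hKb y hy hyK s hs)).1
      have h2 := hG s (y j)
      have h3 : 0 ≤ δ * s := mul_nonneg hδ.le hs.1
      linarith
    · intro y hy s hs hmax htime
      have hs0 : 0 < s := hs.1
      have hτ : 0 < s + T₀ := by linarith
      obtain ⟨b1, b2⟩ := lower_ineq hj (A := A) (T₀ := T₀) (t := s) (c := s - ε - δ * s) hA hτ hy
        (hP s hs0.le (y j))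
      have hmax' : IsLocalMax (fun z =>
          (v₀ z + (-G A T₀ s (z j) + (s - ε - δ * s))) - u z s) y := by
        refine hmax.congr ?_
        exact Eventually.of_forall fun z => by ring
      have h1 := mcf_le_of_isLocalMax b1 (space_contDiffAt hu hy hs0) hmax'
      have hut := time_hasDerivAt hu hy hs0
      have hGt := G_deriv_t (A := A) (T₀ := T₀) (t := s) hτ (y j)
      have hφt : HasDerivAt (fun r => v₀ y + r - ε - G A T₀ r (y j) - δ * r)
          (1 - (G A T₀ s (y j) * ((y j) ^ 2 / (4 * (s + T₀) ^ 2) - 1 / (4 * (s + T₀)))) - δ) s := by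
        have h2 := ((((hasDerivAt_id s).const_add (v₀ y)).sub_const ε).sub hGt).sub
          ((hasDerivAt_id s).const_mul δ)
        refine h2.congr_deriv ?_
        ring
      have h3 := deriv_nonneg_of_left_max hs0 (hφt.sub hut) htime
      linarith
  refine le_of_forall_pos_le_add fun η hη => ?_
  have h1 := key (η / (t + 1)) (by positivity)
  have h2 : η / (t + 1) * t ≤ η := by
    rw [div_mul_eq_mul_div, div_le_iff₀ (by linarith)]
    nlinarith
  linarith

end Pool.Agent.Helper25.GrimReaper
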