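import Mathlib

/-!
# Graphical mean curvature flow over the slab, and dynamical stability of the grim reaper

Definitions for the problem MP_114a94_gt.
-/

set_option autoImplicit false

open scoped ContDiff Topology
open Set Filter

namespace Pool.Agent.Helper25.GrimReaper

/-- Euclidean space of dimension `n`. -/
abbrev E (n : ℕ) : Type := EuclideanSpace ℝ (Fin n)

/-- The divergence `∑ i, ∂ᵢ Xᵢ` of a vector field `X` on Euclidean `n`-space. -/
noncomputable def divergence {n : ℕ} (X : E n → E n) (x : E n) : ℝ :=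
  ∑ i : Fin n, (fderiv ℝ X x (EuclideanSpace.single i (1 : ℝ))) i

/-- The right-hand side `√(1+|Df|²) div (Df/√(1+|Df|²))` of the graphical mean curvature
flow equation. -/
noncomputable def mcfOperator {n : ℕ} (f : E n → ℝ) (x : E n) : ℝ :=
  Real.sqrt (1 + ‖gradient f x‖ ^ 2) *
    divergence (fun y => (Real.sqrt (1 + ‖gradient f y‖ ^ 2))⁻¹ • gradient f y) x

/-- `u` is a graphical solution of mean curvature flow over `U`, defined for all `t ≥ 0`:
smooth on `U × (0,∞)`, continuous on `U × [0,∞)`, and satisfying the equation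
`∂ₜu = √(1+|Du|²) div (Du/√(1+|Du|²))` on `U × (0,∞)`. -/
structure IsGraphicalSolution {n : ℕ} (U : Set (E n)) (u : E n → ℝ → ℝ) : Prop where
  smooth : ContDiffOn ℝ ∞ (fun p : E n × ℝ => u p.1 p.2) (U ×ˢ Ioi (0 : ℝ))
  cont : ContinuousOn (fun p : E n × ℝ => u p.1 p.2) (U ×ˢ Ici (0 : ℝ))
  mcf : ∀ x ∈ U, ∀ t : ℝ, 0 < t →
    deriv (fun s => u x s) t = mcfOperator (fun y => u y t) x

/-- The slab `(-π/2, π/2) × ℝⁿ⁻¹` in Euclidean `n`-space, `n ≥ 1`. -/
def slab (n : ℕ) [NeZero n] : Set (E n) :=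
  {x | x 0 ∈ Ioo (-(Real.pi / 2)) (Real.pi / 2)}

/-- The grim reaper `v₀(x) = -log (cos x₁)`. -/
noncomputable def v₀ {n : ℕ} [NeZero n] (x : E n) : ℝ := -Real.log (Real.cos (x 0))

/-- `u₀` is a perturbation of `v₀` with `C⁰` decay: a locally Lipschitz function on the slab
such that `|u₀(x) - v₀(x)| → 0` as `x` leaves every compact subset of the slab. -/
def IsC0DecayPerturbation (n : ℕ) [NeZero n] (u₀ : E n → ℝ) : Prop :=
  LocallyLipschitzOn (slab n) u₀ ∧
    ∀ ε : ℝ, 0 < ε → ∃ K : Set (E n), IsCompact K ∧ K ⊆ slab n ∧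
      ∀ x ∈ slab n, x ∉ K → |u₀ x - v₀ x| < ε

/-- `sup_U |u(·,t) - v(·,t)| → 0` as `t → ∞`, where `v(x,t) = v₀(x) + t` is the translating
grim reaper over the slab `U`. -/
def ConvergesToGrimReaper (n : ℕ) [NeZero n] (u : E n → ℝ → ℝ) : Prop :=
  ∀ ε : ℝ, 0 < ε → ∃ T : ℝ, ∀ t : ℝ, T ≤ t → ∀ x ∈ slab n, |u x t - (v₀ x + t)| ≤ ε

/-- The grim reaper in `ℝⁿ⁺¹` is dynamically stable as a graphical solution. -/
def DynamicallyStable (n : ℕ) [NeZero n] : Prop :=
  ∀ u₀ : E n → ℝ, IsC0DecayPerturbation n u₀ →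
    ∃ u : E n → ℝ → ℝ, IsGraphicalSolution (slab n) u ∧ (∀ x ∈ slab n, u x 0 = u₀ x) ∧
      ConvergesToGrimReaper n u

/-- The solution `u` stays `C⁰`-asymptotic to the translating grim reaper `v(x,t) = v₀(x) + t`,
locally uniformly in time: for every `T` one has `|u(x,t) - v(x,t)| → 0` as `x` leaves every
compact subset of the slab, uniformly for `t ∈ [0,T]`. -/
def StaysAsymptotic (n : ℕ) [NeZero n] (u : E n → ℝ → ℝ) : Prop :=
  ∀ T : ℝ, ∀ ε : ℝ, 0 < ε → ∃ K : Set (E n), IsCompact K ∧ K ⊆ slab n ∧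
    ∀ x ∈ slab n, x ∉ K → ∀ t ∈ Icc 0 T, |u x t - (v₀ x + t)| < ε

end Pool.Agent.Helper25.GrimReaper
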