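import Pool.Agent.Helper25.GrimReaperBarrier

set_option autoImplicit false
open scoped ContDiff Topology
open Set Filter MeasureTheory

namespace Pool.Agent.Helper25.GrimReaper

lemma G_zero {D T₀ : ℝ} (hT₀ : 0 < T₀) (y : ℝ) :
    G (2 * D * Real.exp ((1 / 4) * Real.log T₀)) T₀ 0 y = 2 * D * Real.exp (-(y ^ 2 / (4 * T₀))) := by
  unfold G
  rw [zero_add, mul_assoc, ← Real.exp_add]
  congr 2
  ring

lemma G_P {D T₀ : ℝ} (hD : 0 ≤ D) (hT₀ : 0 < T₀) (hDT : 4 * D ^ 2 ≤ T₀) {s : ℝ} (hs : 0 ≤ s) (y : ℝ) :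
    (G (2 * D * Real.exp ((1 / 4) * Real.log T₀)) T₀ s y * (-(y / (2 * (s + T₀))))) ^ 2 ≤ 1 := by
  have hτ : 0 < s + T₀ := by linarith
  have hτ' : T₀ ≤ s + T₀ := by linarith
  unfold G
  have e1 : 2 * D * Real.exp ((1 / 4) * Real.log T₀) *
      Real.exp (-(y ^ 2 / (4 * (s + T₀))) - (1 / 4) * Real.log (s + T₀)) =
      2 * D * (Real.exp ((1 / 4) * (Real.log T₀ - Real.log (s + T₀))) *
        Real.exp (-(y ^ 2 / (4 * (s + T₀))))) := by
    rw [mul_assoc, ← Real.exp_add, ← Real.exp_add]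
    congr 2
    ring
  rw [e1]
  set z := y ^ 2 / (4 * (s + T₀)) with hz
  have hz0 : 0 ≤ z := by positivity
  set c := Real.exp ((1 / 4) * (Real.log T₀ - Real.log (s + T₀))) with hc
  have hc0 : 0 < c := Real.exp_pos _
  have hc1 : c ≤ 1 := by
    rw [hc, Real.exp_le_one_iff]
    have := Real.log_le_log hT₀ hτ'
    linarith
  have hy2 : (y / (2 * (s + T₀))) ^ 2 = z / (s + T₀) := by
    rw [hz]; field_simp; ring
  have hze : z * Real.exp (-z) ^ 2 ≤ 1 := by
    rw [← Real.exp_nat_mul]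
    have h1 : z + 1 ≤ Real.exp z := Real.add_one_le_exp z
    have h2 : Real.exp (((2 : ℕ) : ℝ) * -z) = Real.exp (-z) * Real.exp (-z) := by
      rw [← Real.exp_add]; congr 1; push_cast; ring
    rw [h2]
    have h3 : Real.exp (-z) * Real.exp z = 1 := by rw [← Real.exp_add]; simp
    have h4 : 0 < Real.exp (-z) := Real.exp_pos _
    have h5 : Real.exp (-z) ≤ 1 := by rw [Real.exp_le_one_iff]; linarith
    have h6 : z * Real.exp (-z) ≤ 1 := by
      calc z * Real.exp (-z) ≤ Real.exp z * Real.exp (-z) := by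
            apply mul_le_mul_of_nonneg_right _ h4.le; linarith
        _ = 1 := by rw [mul_comm]; exact h3
    calc z * (Real.exp (-z) * Real.exp (-z)) = (z * Real.exp (-z)) * Real.exp (-z) := by ring
      _ ≤ 1 * 1 := mul_le_mul h6 h5 h4.le zero_le_one
      _ = 1 := one_mul 1
  have e2 : (2 * D * (c * Real.exp (-z)) * -(y / (2 * (s + T₀)))) ^ 2 =
      (4 * D ^ 2 / (s + T₀)) * c ^ 2 * (z * Real.exp (-z) ^ 2) := by
    have : (2 * D * (c * Real.exp (-z)) * -(y / (2 * (s + T₀)))) ^ 2 =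
      4 * D ^ 2 * c ^ 2 * Real.exp (-z) ^ 2 * (y / (2 * (s + T₀))) ^ 2 := by ring
    rw [this, hy2]
    ring
  rw [e2]
  have f1 : 4 * D ^ 2 / (s + T₀) ≤ 1 := by
    rw [div_le_one hτ]; linarith
  have f2 : c ^ 2 ≤ 1 := pow_le_one₀ hc0.le hc1
  have f3 : 0 ≤ z * Real.exp (-z) ^ 2 := by positivity
  calc (4 * D ^ 2 / (s + T₀)) * c ^ 2 * (z * Real.exp (-z) ^ 2)
      ≤ 1 * 1 * 1 := by
        apply mul_le_mul _ hze f3 (by norm_num)
        exact mul_le_mul f1 f2 (by positivity) zero_le_one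
    _ = 1 := by norm_num

lemma G_le {A T₀ s y : ℝ} (hA : 0 ≤ A) (hτ : 0 < s + T₀) :
    G A T₀ s y ≤ A * Real.exp (-((1 / 4) * Real.log (s + T₀))) := by
  unfold G
  apply mul_le_mul_of_nonneg_left _ hA
  rw [Real.exp_le_exp]
  have : 0 ≤ y ^ 2 / (4 * (s + T₀)) := by positivity
  linarith

/-- **A priori stability for `n ≥ 2`.** -/
theorem converges_of_staysAsymptotic {n : ℕ} [NeZero n] (hn : 2 ≤ n) {u : E n → ℝ → ℝ}
    (hu : IsGraphicalSolution (slab n) u) (hd : StaysAsymptotic n u) :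
    ConvergesToGrimReaper n u := by
  intro ε hε
  set j : Fin n := ⟨1, by omega⟩ with hjdef
  have hj : j ≠ 0 := by
    intro h
    have := congrArg Fin.val h
    simp [hjdef] at this
  obtain ⟨K, hK, hKU, hKb⟩ := hd 0 (ε / 2) (by positivity)
  -- bounds on `K`
  have hc0 : ContinuousOn (fun x : E n => u x 0 - v₀ x) K := by
    have h1 : ContinuousOn (fun x : E n => u x 0) K := by
      have h2 : Continuous (fun x : E n => ((x, (0 : ℝ)) : E n × ℝ)) := by fun_prop
      exact hu.cont.comp h2.continuousOn (fun x hx => ⟨hKU hx, self_mem_Ici⟩)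
    exact h1.sub ((v₀_continuousOn n).mono hKU)
  obtain ⟨C, hC⟩ := hK.exists_bound_of_continuousOn hc0
  have hcj : ContinuousOn (fun x : E n => x j) K := by fun_prop
  obtain ⟨R, hR⟩ := hK.exists_bound_of_continuousOn hcj
  set C' := max C 0 with hC'
  set D := Real.exp C' with hD
  have hD0 : 0 < D := Real.exp_pos _
  set T₀ : ℝ := 1 + R ^ 2 + 4 * D ^ 2 with hT₀
  have hT₀1 : 1 ≤ T₀ := by rw [hT₀]; nlinarith [sq_nonneg R, sq_nonneg D]
  have hT₀0 : 0 < T₀ := by linarith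
  set A := 2 * D * Real.exp ((1 / 4) * Real.log T₀) with hA
  have hA0 : 0 ≤ A := by positivity
  -- `G ≥ D` on `K` at time zero
  have hGK : ∀ x ∈ K, D ≤ G A T₀ 0 (x j) := by
    intro x hx
    rw [hA, G_zero hT₀0]
    have h1 : (x j) ^ 2 ≤ R ^ 2 := by
      have := hR x hx
      rw [Real.norm_eq_abs] at this
      exact sq_le_sq' (by linarith [(abs_le.1 this).1]) (abs_le.1 this).2
    have h2 : (x j) ^ 2 / (4 * T₀) ≤ 1 / 4 := by
      rw [div_le_div_iff₀ (by positivity) (by norm_num)]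
      nlinarith [sq_nonneg D]
    have h3 : 1 - 1 / 4 ≤ Real.exp (-((x j) ^ 2 / (4 * T₀))) := by
      have := Real.add_one_le_exp (-((x j) ^ 2 / (4 * T₀)))
      linarith
    nlinarith
  have hbd : ∀ x ∈ K, |u x 0 - v₀ x| ≤ C' := fun x hx => (hC x hx).trans (le_max_left _ _)
  have hinit_up : ∀ x ∈ slab n, u x 0 ≤ v₀ x + ε / 2 + Real.log (1 + G A T₀ 0 (x j)) := by
    intro x hx
    have hG0 := G_nonneg (T₀ := T₀) (t := 0) (y := x j) hA0
    by_cases hxK : x ∈ K
    · have h1 := (abs_le.1 (hbd x hxK)).2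
      have h2 : C' ≤ Real.log (1 + G A T₀ 0 (x j)) := by
        rw [Real.le_log_iff_exp_le (by linarith)]
        have := hGK x hxK
        linarith
      linarith
    · have h1 := (abs_lt.1 (hKb x hx hxK 0 ⟨le_rfl, le_rfl⟩)).2
      have h2 : 0 ≤ Real.log (1 + G A T₀ 0 (x j)) := Real.log_nonneg (by linarith)
      linarith
  have hinit_lo : ∀ x ∈ slab n, v₀ x - ε / 2 - G A T₀ 0 (x j) ≤ u x 0 := by
    intro x hx
    have hG0 := G_nonneg (T₀ := T₀) (t := 0) (y := x j) hA0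
    by_cases hxK : x ∈ K
    · have h1 := (abs_le.1 (hbd x hxK)).1
      have h2 := hGK x hxK
      have h3 : C' + 1 ≤ D := Real.add_one_le_exp C'
      linarith
    · have h1 := (abs_lt.1 (hKb x hx hxK 0 ⟨le_rfl, le_rfl⟩)).1
      linarith
  -- decay of the barrier
  have hlim : Tendsto (fun t : ℝ => A * Real.exp (-((1 / 4) * Real.log (t + T₀)))) atTop (𝓝 0) := by
    have h1 : Tendsto (fun t : ℝ => (1 / 4) * Real.log (t + T₀)) atTop atTop := by
      apply Tendsto.const_mul_atTop (by norm_num)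
      exact Real.tendsto_log_atTop.comp (tendsto_atTop_add_const_right _ _ tendsto_id)
    have h2 := (Real.tendsto_exp_neg_atTop_nhds_zero.comp h1).const_mul A
    simpa using h2
  have hev : ∀ᶠ t : ℝ in atTop, A * Real.exp (-((1 / 4) * Real.log (t + T₀))) < ε / 2 ∧ 0 ≤ t :=
    (hlim.eventually (gt_mem_nhds (by positivity))).and (eventually_ge_atTop 0)
  obtain ⟨T, hT⟩ := eventually_atTop.1 hev
  refine ⟨T, fun t ht x hx => ?_⟩
  obtain ⟨ht1, ht0⟩ := hT t ht
  have hτ : 0 < t + T₀ := by linarith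
  have hGle := G_le (A := A) (T₀ := T₀) (s := t) (y := x j) hA0 hτ
  have hG0 := G_nonneg (T₀ := T₀) (t := t) (y := x j) hA0
  have hup := upper_comparison hj hu hd hA0 (by linarith) (by positivity : 0 < ε / 2) hinit_up hx ht0
  have hlo := lower_comparison hj hu hd hA0 hT₀0 (by positivity : 0 < ε / 2)
    (fun s hs y => G_P hD0.le hT₀0 (by rw [hT₀]; nlinarith [sq_nonneg R]) hs y) hinit_lo hx ht0
  have hlog : Real.log (1 + G A T₀ t (x j)) ≤ G A T₀ t (x j) := by
    have := Real.log_le_sub_one_of_pos (show 0 < 1 + G A T₀ t (x j) by linarith)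
    linarith
  rw [abs_le]
  constructor <;> linarith

end Pool.Agent.Helper25.GrimReaper
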