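import Pool.Agent.Helper25.GrimReaperDefs

set_option autoImplicit false
open scoped ContDiff Topology
open Set Filter MeasureTheory

namespace Pool.Agent.Helper25.GrimReaper

/-- Riesz representation as a real-linear map. -/
noncomputable def riesz (n : ℕ) : (E n →L[ℝ] ℝ) →L[ℝ] E n :=
  LinearMap.toContinuousLinearMap
    { toFun := fun L => (InnerProductSpace.toDual ℝ (E n)).symm L
      map_add' := fun a b => by simp
      map_smul' := fun a b => by simp }

lemma riesz_apply {n : ℕ} (L : E n →L[ℝ] ℝ) : riesz n L = (InnerProductSpace.toDual ℝ (E n)).symm L := rfl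

lemma inner_riesz {n : ℕ} (L : E n →L[ℝ] ℝ) (w : E n) : inner ℝ (riesz n L) w = L w := by
  rw [riesz_apply]; simp

lemma gradient_eq {n : ℕ} (f : E n → ℝ) : gradient f = fun y => riesz n (fderiv ℝ f y) := rfl

/-- Hessian as a continuous bilinear map. -/
noncomputable def hess {n : ℕ} (f : E n → ℝ) (x : E n) : E n →L[ℝ] E n →L[ℝ] ℝ :=
  fderiv ℝ (fderiv ℝ f) x

lemma hasFDerivAt_fderiv {n : ℕ} {f : E n → ℝ} {x : E n} (hf : ContDiffAt ℝ 2 f x) :
    HasFDerivAt (fderiv ℝ f) (hess f x) x := by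
  have h1 : ContDiffAt ℝ 1 (fderiv ℝ f) x := hf.fderiv_right (m := 1) (by norm_num)
  exact (h1.differentiableAt (by norm_num)).hasFDerivAt

lemma hasFDerivAt_gradient {n : ℕ} {f : E n → ℝ} {x : E n} (hf : ContDiffAt ℝ 2 f x) :
    HasFDerivAt (gradient f) ((riesz n).comp (hess f x)) x := by
  rw [gradient_eq]
  exact (riesz n).hasFDerivAt.comp x (hasFDerivAt_fderiv hf)

lemma decomp {n : ℕ} (w : E n) : w = ∑ i : Fin n, w i • EuclideanSpace.single i (1 : ℝ) := by
  ext j
  simp only [WithLp.ofLp_sum, WithLp.ofLp_smul, Finset.sum_apply, Pi.smul_apply, smul_eq_mul,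
    PiLp.single_apply, mul_ite, mul_one, mul_zero, Finset.sum_ite_eq, Finset.mem_univ, if_true]

lemma sum_basis {n : ℕ} (L : E n →L[ℝ] ℝ) (w : E n) :
    ∑ i : Fin n, w i * L (EuclideanSpace.single i (1 : ℝ)) = L w := by
  conv_rhs => rw [decomp w]
  rw [map_sum]
  refine Finset.sum_congr rfl fun i _ => ?_
  rw [map_smul, smul_eq_mul]

lemma coord_eq_inner {n : ℕ} (w : E n) (i : Fin n) : w i = inner ℝ w (EuclideanSpace.single i (1 : ℝ)) := by
  rw [EuclideanSpace.inner_single_right]; simp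

lemma riesz_coord {n : ℕ} (L : E n →L[ℝ] ℝ) (i : Fin n) :
    (riesz n L) i = L (EuclideanSpace.single i (1 : ℝ)) := by
  rw [coord_eq_inner, inner_riesz]

lemma mcf_formula {n : ℕ} {f : E n → ℝ} {x : E n} (hf : ContDiffAt ℝ 2 f x) :
    mcfOperator f x = (∑ i : Fin n, hess f x (EuclideanSpace.single i (1 : ℝ)) (EuclideanSpace.single i (1 : ℝ)))
      - (1 + ‖gradient f x‖ ^ 2)⁻¹ * hess f x (gradient f x) (gradient f x) := by
  set D := (riesz n).comp (hess f x) with hD
  have hg : HasFDerivAt (gradient f) D x := hasFDerivAt_gradient hf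
  have hpos : 0 < 1 + ‖gradient f x‖ ^ 2 := by positivity
  have hq : 0 < Real.sqrt (1 + ‖gradient f x‖ ^ 2) := Real.sqrt_pos.2 hpos
  have h1 : HasFDerivAt (fun y => 1 + ‖gradient f y‖ ^ 2)
      (2 • (innerSL ℝ (gradient f x)).comp D) x := (hg.norm_sq).const_add 1
  have h2 := (h1.sqrt hpos.ne')
  have h3 := (hasDerivAt_inv hq.ne').comp_hasFDerivAt x h2
  have h4 := h3.smul hg
  have hsq : Real.sqrt (1 + ‖gradient f x‖ ^ 2) ^ 2 = 1 + ‖gradient f x‖ ^ 2 := Real.sq_sqrt hpos.le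
  have h5 : divergence (fun y => (Real.sqrt (1 + ‖gradient f y‖ ^ 2))⁻¹ • gradient f y) x
     = ∑ i : Fin n, ((Real.sqrt (1 + ‖gradient f x‖ ^ 2))⁻¹ * hess f x (EuclideanSpace.single i (1 : ℝ)) (EuclideanSpace.single i (1 : ℝ))
        - (Real.sqrt (1 + ‖gradient f x‖ ^ 2))⁻¹ * (1 + ‖gradient f x‖ ^ 2)⁻¹ * (gradient f x i * hess f x (EuclideanSpace.single i (1 : ℝ)) (gradient f x))) := by
    unfold divergence
    refine Finset.sum_congr rfl fun i _ => ?_
    have h6 : (fun y => (Real.sqrt (1 + ‖gradient f y‖ ^ 2))⁻¹ • gradient f y) = (Inv.inv ∘ fun y => √(1 + ‖gradient f y‖ ^ 2)) • gradient f := rfl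
    rw [h6, h4.fderiv]
    have h8 : inner ℝ (gradient f x) ((riesz n) ((hess f x) (EuclideanSpace.single i 1)))
        = (hess f x) (EuclideanSpace.single i 1) (gradient f x) := by
      rw [real_inner_comm, inner_riesz]
    simp only [add_apply, smul_apply,
      ContinuousLinearMap.smulRight_apply, PiLp.add_apply, PiLp.smul_apply, smul_eq_mul,
      Function.comp_apply, ContinuousLinearMap.comp_apply, innerSL_apply_apply, hD, riesz_coord,
      nsmul_eq_mul, h8]
    generalize Real.sqrt (1 + ‖gradient f x‖ ^ 2) = q at *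
    rw [← hsq]
    field_simp
    push_cast
    ring
  unfold mcfOperator
  rw [h5, Finset.sum_sub_distrib, ← Finset.mul_sum, ← Finset.mul_sum]
  have h7 := sum_basis ((hess f x).flip (gradient f x)) (gradient f x)
  simp only [ContinuousLinearMap.flip_apply] at h7
  rw [h7]
  field_simp


/-- The hessian along a line. -/
lemma hasDerivAt_line {n : ℕ} {f : E n → ℝ} {x : E n} (w : E n) (hf : DifferentiableAt ℝ f x) :
    HasDerivAt (fun s : ℝ => f (x + s • w)) (fderiv ℝ f x w) 0 := by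
  have h1 : HasDerivAt (fun s : ℝ => x + s • w) w 0 := by
    have := ((hasDerivAt_id (0 : ℝ)).smul_const w).const_add x
    simpa using this
  have h2 : HasFDerivAt f (fderiv ℝ f x) (x + (0 : ℝ) • w) := by simpa using hf.hasFDerivAt
  exact h2.comp_hasDerivAt (0 : ℝ) h1

lemma hasDerivAt_line' {n : ℕ} {f : E n → ℝ} {x : E n} (w : E n) (s₀ : ℝ)
    (hf : DifferentiableAt ℝ f (x + s₀ • w)) :
    HasDerivAt (fun s : ℝ => f (x + s • w)) (fderiv ℝ f (x + s₀ • w) w) s₀ := by
  have h1 : HasDerivAt (fun s : ℝ => x + s • w) w s₀ := by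
    have := ((hasDerivAt_id s₀).smul_const w).const_add x
    simpa using this
  exact hf.hasFDerivAt.comp_hasDerivAt s₀ h1

/-- Second derivative test (necessary condition) along lines. -/
lemma hess_nonpos_of_isLocalMax {n : ℕ} {f : E n → ℝ} {x : E n} (hf : ContDiffAt ℝ 2 f x)
    (hmax : IsLocalMax f x) (w : E n) : hess f x w w ≤ 0 := by
  by_contra hcon
  push Not at hcon
  set g : ℝ → ℝ := fun s => f (x + s • w) with hg
  have hline : Tendsto (fun s : ℝ => x + s • w) (𝓝 0) (𝓝 x) := by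
    have : Continuous (fun s : ℝ => x + s • w) := by fun_prop
    simpa using this.tendsto 0
  have hev : ∀ᶠ s in 𝓝 (0 : ℝ), DifferentiableAt ℝ f (x + s • w) := by
    have h1 : ∀ᶠ y in 𝓝 x, ContDiffAt ℝ 2 f y := hf.eventually (by simp)
    exact (hline.eventually h1).mono fun s hs => hs.differentiableAt (by norm_num)
  have hd1 : ∀ᶠ s in 𝓝 (0 : ℝ), deriv g s = fderiv ℝ f (x + s • w) w :=
    hev.mono fun s hs => (hasDerivAt_line' w s hs).deriv
  have hd2 : HasDerivAt (fun s : ℝ => fderiv ℝ f (x + s • w) w) (hess f x w w) 0 := by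
    have h1 : HasDerivAt (fun s : ℝ => x + s • w) w 0 := by
      have := ((hasDerivAt_id (0 : ℝ)).smul_const w).const_add x
      simpa using this
    have h2 : HasFDerivAt (fderiv ℝ f) (hess f x) (x + (0 : ℝ) • w) := by
      simpa using hasFDerivAt_fderiv hf
    have h3 := h2.comp_hasDerivAt (0 : ℝ) h1
    have h4 := h3.clm_apply (hasDerivAt_const (0 : ℝ) w)
    simpa using h4
  have hdd : deriv (deriv g) 0 = hess f x w w := by
    rw [Filter.EventuallyEq.deriv_eq hd1]
    exact hd2.deriv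
  have hmaxg : IsLocalMax g 0 := by
    have : ∀ᶠ s in 𝓝 (0 : ℝ), f (x + s • w) ≤ f x := hline.eventually hmax
    simpa [IsLocalMax, IsMaxFilter, hg] using this
  have hd0 : deriv g 0 = 0 := hmaxg.deriv_eq_zero
  have hgc : ContinuousAt g 0 := by
    have := (hasDerivAt_line w (hf.differentiableAt (by norm_num))).continuousAt
    exact this
  have hmin : IsLocalMin g 0 := isLocalMin_of_deriv_deriv_pos (by rw [hdd]; exact hcon) hd0 hgc
  have hconst : g =ᶠ[𝓝 0] fun _ => g 0 := by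
    filter_upwards [hmin, hmaxg] with s h1 h2
    exact le_antisymm h2 h1
  have h5 : deriv g =ᶠ[𝓝 0] fun _ => 0 := by
    have := hconst.deriv
    filter_upwards [this] with s hs
    rw [hs]; simp
  have h6 : deriv (deriv g) 0 = 0 := by
    rw [h5.deriv_eq]; simp
  rw [hdd] at h6
  linarith


lemma sq_sum_eq {n : ℕ} (w : E n) : ∑ i : Fin n, w i * w i = ‖w‖ ^ 2 := by
  rw [EuclideanSpace.norm_sq_eq]
  refine Finset.sum_congr rfl fun i _ => ?_
  rw [Real.norm_eq_abs, sq_abs, sq]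

/-- The (nonpositive) trace inequality. -/
lemma trace_nonpos {n : ℕ} (H : E n →L[ℝ] E n →L[ℝ] ℝ) (hH : ∀ w, H w w ≤ 0) (p : E n) :
    (∑ i : Fin n, H (EuclideanSpace.single i (1 : ℝ)) (EuclideanSpace.single i (1 : ℝ)))
      - (1 + ‖p‖ ^ 2)⁻¹ * H p p ≤ 0 := by
  set q := Real.sqrt (1 + ‖p‖ ^ 2) with hqdef
  have hpos : 0 < 1 + ‖p‖ ^ 2 := by positivity
  have hq : 0 < q := Real.sqrt_pos.2 hpos
  have hsq : q ^ 2 = 1 + ‖p‖ ^ 2 := Real.sq_sqrt hpos.le
  set s : ℝ := 1 / (q * (q + 1)) with hs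
  have h1 : ∀ i : Fin n, H (EuclideanSpace.single i (1 : ℝ) - (s * p i) • p)
      (EuclideanSpace.single i (1 : ℝ) - (s * p i) • p) =
      H (EuclideanSpace.single i (1 : ℝ)) (EuclideanSpace.single i (1 : ℝ))
      - s * (p i * H (EuclideanSpace.single i (1 : ℝ)) p) - s * (p i * H p (EuclideanSpace.single i (1 : ℝ)))
      + s ^ 2 * H p p * (p i * p i) := by
    intro i
    simp only [map_sub, map_smul, sub_apply, smul_apply, smul_eq_mul]
    ring
  have h2 : ∑ i : Fin n, H (EuclideanSpace.single i (1 : ℝ) - (s * p i) • p)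
      (EuclideanSpace.single i (1 : ℝ) - (s * p i) • p) ≤ 0 :=
    Finset.sum_nonpos fun i _ => hH _
  have h3 := sum_basis (H.flip p) p
  have h4 := sum_basis (H p) p
  simp only [ContinuousLinearMap.flip_apply] at h3
  rw [Finset.sum_congr rfl (fun i _ => h1 i)] at h2
  rw [Finset.sum_add_distrib, Finset.sum_sub_distrib, Finset.sum_sub_distrib, ← Finset.mul_sum,
    ← Finset.mul_sum, ← Finset.mul_sum, h3, h4, sq_sum_eq] at h2
  have hp2 : ‖p‖ ^ 2 = q ^ 2 - 1 := by rw [hsq]; ring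
  rw [← hsq]
  rw [hp2] at h2
  have h5 : (q ^ 2)⁻¹ = 2 * s - s ^ 2 * (q ^ 2 - 1) := by
    rw [hs]
    field_simp
    ring
  rw [h5]
  linarith

lemma hess_sub {n : ℕ} {f φ : E n → ℝ} {x : E n} (hf : ContDiffAt ℝ 2 f x)
    (hφ : ContDiffAt ℝ 2 φ x) : hess (fun y => f y - φ y) x = hess f x - hess φ x := by
  have h1 : ∀ᶠ y in 𝓝 x, ContDiffAt ℝ 2 f y := hf.eventually (by simp)
  have h2 : ∀ᶠ y in 𝓝 x, ContDiffAt ℝ 2 φ y := hφ.eventually (by simp)
  have h3 : fderiv ℝ (fun y => f y - φ y) =ᶠ[𝓝 x] fun y => fderiv ℝ f y - fderiv ℝ φ y := by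
    filter_upwards [h1, h2] with y hy1 hy2
    exact fderiv_fun_sub (hy1.differentiableAt (by norm_num)) (hy2.differentiableAt (by norm_num))
  have h4 := (hasFDerivAt_fderiv hf).sub (hasFDerivAt_fderiv hφ)
  unfold hess
  rw [h3.fderiv_eq]
  exact h4.fderiv

/-- Comparison of the mean curvature operator at a touching point. -/
lemma mcf_le_of_isLocalMax {n : ℕ} {f φ : E n → ℝ} {x : E n} (hf : ContDiffAt ℝ 2 f x)
    (hφ : ContDiffAt ℝ 2 φ x) (hmax : IsLocalMax (fun y => f y - φ y) x) :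
    mcfOperator f x ≤ mcfOperator φ x := by
  have hgrad : gradient f x = gradient φ x := by
    have h1 : fderiv ℝ (fun y => f y - φ y) x = 0 := hmax.fderiv_eq_zero
    rw [fderiv_fun_sub (hf.differentiableAt (by norm_num)) (hφ.differentiableAt (by norm_num))] at h1
    have h2 : fderiv ℝ f x = fderiv ℝ φ x := sub_eq_zero.1 h1
    simp only [gradient_eq, h2]
  have hH : ∀ w, (hess f x - hess φ x) w w ≤ 0 := by
    intro w
    rw [← hess_sub hf hφ]
    exact hess_nonpos_of_isLocalMax (hf.sub hφ) hmax w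
  have h3 := trace_nonpos (hess f x - hess φ x) hH (gradient φ x)
  rw [mcf_formula hf, mcf_formula hφ, hgrad]
  simp only [sub_apply, Finset.sum_sub_distrib] at h3
  linarith


/-- Abstract parabolic maximum principle on a possibly noncompact open set. -/
lemma parabolic_max {n : ℕ} {U K : Set (E n)} (hK : IsCompact K) (hKU : K ⊆ U) (hU : IsOpen U)
    {h : E n → ℝ → ℝ} {T : ℝ}
    (hc : ContinuousOn (fun p : E n × ℝ => h p.1 p.2) (U ×ˢ Icc 0 T))
    (h0 : ∀ x ∈ U, h x 0 ≤ 0)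
    (hout : ∀ x ∈ U, x ∉ K → ∀ t ∈ Icc 0 T, h x t ≤ 0)
    (hcrit : ∀ x ∈ U, ∀ t ∈ Ioc 0 T, IsLocalMax (fun y => h y t) x →
      (∀ s ∈ Icc 0 t, h x s ≤ h x t) → False) :
    ∀ x ∈ U, ∀ t ∈ Icc 0 T, h x t ≤ 0 := by
  by_contra hcon
  push Not at hcon
  obtain ⟨x1, hx1, t1, ht1, hpos⟩ := hcon
  have hx1K : x1 ∈ K := by
    by_contra hx
    exact absurd (hout x1 hx1 hx t1 ht1) (not_le.2 hpos)
  have hcomp : IsCompact (K ×ˢ Icc (0 : ℝ) T) := hK.prod isCompact_Icc
  obtain ⟨⟨x, t⟩, ⟨hxK, ht⟩, hmax⟩ := hcomp.exists_isMaxOn ⟨(x1, t1), hx1K, ht1⟩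
    (hc.mono (prod_mono hKU le_rfl))
  have hmax1 : h x1 t1 ≤ h x t := hmax (a := (x1, t1)) ⟨hx1K, ht1⟩
  have hall : ∀ y ∈ U, ∀ s ∈ Icc 0 T, h y s ≤ h x t := by
    intro y hy s hs
    by_cases hyK : y ∈ K
    · exact hmax (a := (y, s)) ⟨hyK, hs⟩
    · exact (hout y hy hyK s hs).trans (by linarith)
  have hxU : x ∈ U := hKU hxK
  have ht0 : 0 < t := by
    rcases eq_or_lt_of_le ht.1 with h' | h'
    · exfalso
      have h2 : t = 0 := h'.symm
      have := h0 x hxU
      rw [h2] at hmax1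
      linarith
    · exact h'
  refine hcrit x hxU t ⟨ht0, ht.2⟩ ?_ ?_
  · filter_upwards [hU.mem_nhds hxU] with y hy
    exact hall y hy t ht
  · intro s hs
    exact hall x hxU s ⟨hs.1, hs.2.trans ht.2⟩

lemma deriv_nonneg_of_left_max {g : ℝ → ℝ} {d t : ℝ} (ht : 0 < t) (hd : HasDerivAt g d t)
    (hmax : ∀ s ∈ Icc 0 t, g s ≤ g t) : 0 ≤ d := by
  have h1 : Tendsto (slope g t) (𝓝[<] t) (𝓝 d) :=
    (hasDerivAt_iff_tendsto_slope.1 hd).mono_left (nhdsWithin_mono _ (fun s hs => ne_of_lt hs))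
  refine ge_of_tendsto h1 ?_
  have h2 : Ioo 0 t ∈ 𝓝[<] t := Ioo_mem_nhdsLT ht
  filter_upwards [h2] with s hs
  rw [slope_def_field]
  apply div_nonneg_of_nonpos
  · linarith [hmax s ⟨hs.1.le, hs.2.le⟩]
  · linarith [hs.2]

/-- derivative of a function of one coordinate -/
lemma fderiv_coord {n : ℕ} {k : ℝ → ℝ} {y : E n} {i : Fin n} (hk : DifferentiableAt ℝ k (y i)) :
    HasFDerivAt (fun z : E n => k (z i)) (deriv k (y i) • (EuclideanSpace.proj i : E n →L[ℝ] ℝ)) y := by
  have h1 : HasFDerivAt (fun z : E n => z i) (EuclideanSpace.proj i : E n →L[ℝ] ℝ) y :=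
    (EuclideanSpace.proj i : E n →L[ℝ] ℝ).hasFDerivAt
  exact hk.hasDerivAt.comp_hasFDerivAt y h1

lemma coord_contDiffAt {n : ℕ} {k : ℝ → ℝ} {x : E n} {i : Fin n} (hk : ContDiffAt ℝ 2 k (x i)) :
    ContDiffAt ℝ 2 (fun z : E n => k (z i)) x := by
  have h1 : ContDiffAt ℝ 2 (fun z : E n => z i) x := by fun_prop
  exact ContDiffAt.comp x (g := k) hk h1

lemma hess_coord {n : ℕ} {k : ℝ → ℝ} {x : E n} {i : Fin n} (hk : ContDiffAt ℝ 2 k (x i))
    (v w : E n) : hess (fun z : E n => k (z i)) x v w = deriv (deriv k) (x i) * v i * w i := by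
  have hcont : Tendsto (fun z : E n => z i) (𝓝 x) (𝓝 (x i)) := by
    have : Continuous (fun z : E n => z i) := by fun_prop
    exact this.tendsto x
  have h1 : ∀ᶠ s in 𝓝 (x i), ContDiffAt ℝ 2 k s := hk.eventually (by simp)
  have h2 : fderiv ℝ (fun z : E n => k (z i)) =ᶠ[𝓝 x]
      fun z => deriv k (z i) • (EuclideanSpace.proj i : E n →L[ℝ] ℝ) := by
    filter_upwards [hcont.eventually h1] with z hz
    exact (fderiv_coord (hz.differentiableAt (by norm_num))).fderiv
  have h3 : DifferentiableAt ℝ (deriv k) (x i) := by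
    have : ContDiffAt ℝ 1 (deriv k) (x i) := by
      have h4 : ContDiffAt ℝ 1 (fderiv ℝ k) (x i) := hk.fderiv_right (m := 1) (by norm_num)
      have h5 : deriv k = fun s => fderiv ℝ k s 1 := by
        funext s; simp
      rw [h5]
      exact h4.clm_apply contDiffAt_const
    exact this.differentiableAt (by norm_num)
  have h4 := (fderiv_coord (n := n) (i := i) h3).smul_const (EuclideanSpace.proj i : E n →L[ℝ] ℝ)
  unfold hess
  rw [h2.fderiv_eq, h4.fderiv]
  simp

lemma hess_add {n : ℕ} {f φ : E n → ℝ} {x : E n} (hf : ContDiffAt ℝ 2 f x)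
    (hφ : ContDiffAt ℝ 2 φ x) : hess (fun y => f y + φ y) x = hess f x + hess φ x := by
  have h1 : ∀ᶠ y in 𝓝 x, ContDiffAt ℝ 2 f y := hf.eventually (by simp)
  have h2 : ∀ᶠ y in 𝓝 x, ContDiffAt ℝ 2 φ y := hφ.eventually (by simp)
  have h3 : fderiv ℝ (fun y => f y + φ y) =ᶠ[𝓝 x] fun y => fderiv ℝ f y + fderiv ℝ φ y := by
    filter_upwards [h1, h2] with y hy1 hy2
    exact fderiv_fun_add (hy1.differentiableAt (by norm_num)) (hy2.differentiableAt (by norm_num))
  have h4 := (hasFDerivAt_fderiv hf).add (hasFDerivAt_fderiv hφ)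
  unfold hess
  rw [h3.fderiv_eq]
  exact h4.fderiv

/-- MCF operator of a sum of functions of two different coordinates. -/
lemma mcf_two_coords {n : ℕ} {i j : Fin n} (hij : i ≠ j) {k l : ℝ → ℝ} {x : E n}
    (hk : ContDiffAt ℝ 2 k (x i)) (hl : ContDiffAt ℝ 2 l (x j)) :
    mcfOperator (fun z => k (z i) + l (z j)) x =
      deriv (deriv k) (x i) + deriv (deriv l) (x j)
      - (1 + (deriv k (x i) ^ 2 + deriv l (x j) ^ 2))⁻¹ *
        (deriv (deriv k) (x i) * deriv k (x i) ^ 2 + deriv (deriv l) (x j) * deriv l (x j) ^ 2) := by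
  have hk' := coord_contDiffAt (n := n) (x := x) (i := i) hk
  have hl' := coord_contDiffAt (n := n) (x := x) (i := j) hl
  have hgrad : gradient (fun z : E n => k (z i) + l (z j)) x =
      deriv k (x i) • EuclideanSpace.single i (1 : ℝ) + deriv l (x j) • EuclideanSpace.single j (1 : ℝ) := by
    have h1 : HasFDerivAt (fun z : E n => k (z i) + l (z j))
      (deriv k (x i) • (EuclideanSpace.proj i : E n →L[ℝ] ℝ) +
        deriv l (x j) • (EuclideanSpace.proj j : E n →L[ℝ] ℝ)) x :=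
      (fderiv_coord (hk.differentiableAt (by norm_num))).add
        (fderiv_coord (hl.differentiableAt (by norm_num)))
    rw [gradient_eq]
    simp only []
    rw [h1.fderiv]
    ext m
    rw [riesz_coord]
    simp [PiLp.single_apply, eq_comm]
  have hi : (gradient (fun z : E n => k (z i) + l (z j)) x) i = deriv k (x i) := by
    rw [hgrad]; simp [hij, hij.symm]
  have hj : (gradient (fun z : E n => k (z i) + l (z j)) x) j = deriv l (x j) := by
    rw [hgrad]; simp [hij, hij.symm]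
  have hnorm : ‖gradient (fun z : E n => k (z i) + l (z j)) x‖ ^ 2 = deriv k (x i) ^ 2 + deriv l (x j) ^ 2 := by
    have o1 : inner ℝ (EuclideanSpace.single i (1 : ℝ)) (EuclideanSpace.single j (1 : ℝ)) = 0 := by
      rw [EuclideanSpace.inner_single_left]; simp [hij]
    have o2 : inner ℝ (EuclideanSpace.single j (1 : ℝ)) (EuclideanSpace.single i (1 : ℝ)) = 0 := by
      rw [EuclideanSpace.inner_single_left]; simp [hij.symm]
    rw [← real_inner_self_eq_norm_sq, hgrad]
    simp only [inner_add_left, inner_add_right, inner_smul_left, inner_smul_right, o1, o2]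
    simp
    ring
  rw [mcf_formula (hk'.add hl'), hnorm, hess_add hk' hl']
  simp only [add_apply, hess_coord hk, hess_coord hl, hi, hj]
  congr 1
  · rw [Finset.sum_add_distrib]
    congr 1
    · simp [PiLp.single_apply, Pi.single_apply]
    · simp [PiLp.single_apply, Pi.single_apply]
  · ring

end Pool.Agent.Helper25.GrimReaper
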