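import Pool.Agent.Helper25.GrimReaperDefs

set_option autoImplicit false
open scoped ContDiff Topology
open Set Filter MeasureTheory

namespace Pool.Agent.Helper25.GrimReaper

/-- the embedding of the line as Euclidean 1-space -/
noncomputable def ι : ℝ →L[ℝ] E 1 :=
  ContinuousLinearMap.smulRight (ContinuousLinearMap.id ℝ ℝ) (EuclideanSpace.single (0 : Fin 1) (1 : ℝ))

lemma ι_eq_smul (s : ℝ) : ι s = s • EuclideanSpace.single (0 : Fin 1) (1 : ℝ) := by
  simp [ι]

@[simp] lemma ι_apply (s : ℝ) (i : Fin 1) : ι s i = s := by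
  have : i = 0 := Subsingleton.elim _ _
  subst this
  simp [ι_eq_smul]

lemma ι_one : ι 1 = EuclideanSpace.single (0 : Fin 1) (1 : ℝ) := by
  rw [ι_eq_smul, one_smul]

lemma norm_ι (s : ℝ) : ‖ι s‖ = |s| := by
  rw [ι_eq_smul, norm_smul]; simp

lemma eq_ι (x : E 1) : x = ι (x 0) := by
  ext i
  have : i = 0 := Subsingleton.elim _ _
  subst this
  simp

lemma ι_mem_slab (s : ℝ) : ι s ∈ slab 1 ↔ s ∈ Ioo (-(Real.pi / 2)) (Real.pi / 2) := by
  simp [slab]

lemma inner_ι (a b : ℝ) : inner ℝ (ι a) (ι b) = a * b := by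
  rw [ι_eq_smul, ι_eq_smul, inner_smul_left, inner_smul_right]
  simp

lemma hasDerivAt_comp_ι {F : Type*} [NormedAddCommGroup F] [NormedSpace ℝ F] {f : E 1 → F} {s : ℝ}
    (hf : DifferentiableAt ℝ f (ι s)) :
    HasDerivAt (fun r => f (ι r)) (fderiv ℝ f (ι s) (ι 1)) s := by
  have := hf.hasFDerivAt.comp s (ι.hasFDerivAt (x := s))
  have h2 := this.hasDerivAt
  exact h2

/-- gradient in dimension one -/
lemma gradient_ι {f : E 1 → ℝ} {s : ℝ} (hf : DifferentiableAt ℝ f (ι s)) :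
    gradient f (ι s) = ι (deriv (fun r => f (ι r)) s) := by
  rw [(hasDerivAt_comp_ι hf).deriv]
  unfold gradient
  apply (InnerProductSpace.toDual ℝ (E 1)).injective
  rw [LinearIsometryEquiv.apply_symm_apply]
  ext v
  rw [InnerProductSpace.toDual_apply_apply, eq_ι v, inner_ι, ι_eq_smul (v 0), ← ι_one, map_smul,
    smul_eq_mul, mul_comm]

/-- divergence in dimension one -/
lemma divergence_ι {X : E 1 → E 1} {s : ℝ} (hX : DifferentiableAt ℝ X (ι s)) :
    divergence X (ι s) = deriv (fun r => X (ι r) 0) s := by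
  have h := hasDerivAt_comp_ι hX
  have h2 : HasDerivAt (fun r => X (ι r) 0) ((fderiv ℝ X (ι s) (ι 1)) 0) s := by
    have := (hasDerivAt_pi.1 ((PiLp.hasFDerivAt_ofLp 2 _).comp_hasDerivAt s h)) 0
    simpa using this
  rw [h2.deriv]
  simp [divergence, ι_one]

/-- the gradient as a map, differentiability -/
lemma gradient_contDiffAt {n : ℕ} {f : E n → ℝ} {x : E n} (hf : ContDiffAt ℝ 2 f x) :
    ContDiffAt ℝ 1 (gradient f) x := by
  have h1 : ContDiffAt ℝ 1 (fderiv ℝ f) x := hf.fderiv_right (m := 1) (by norm_num)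
  have h2 : ContDiff ℝ 1 (fun L : E n →L[ℝ] ℝ => (InnerProductSpace.toDual ℝ (E n)).symm L) :=
    ((InnerProductSpace.toDual ℝ (E n)).symm.toContinuousLinearEquiv.contDiff :)
  exact h2.contDiffAt.comp x h1

lemma normGrad_contDiffAt {n : ℕ} {f : E n → ℝ} {x : E n} (hf : ContDiffAt ℝ 2 f x) :
    ContDiffAt ℝ 1 (fun y => (Real.sqrt (1 + ‖gradient f y‖ ^ 2))⁻¹ • gradient f y) x := by
  have h := gradient_contDiffAt hf
  have h1 : ContDiffAt ℝ 1 (fun y => 1 + ‖gradient f y‖ ^ 2) x := contDiffAt_const.add (h.norm_sq ℝ)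
  have hpos : ∀ y, 0 < 1 + ‖gradient f y‖ ^ 2 := fun y => by positivity
  refine ContDiffAt.smul (ContDiffAt.inv (h1.sqrt (hpos x).ne') ?_) h
  exact (Real.sqrt_pos.2 (hpos x)).ne'

/-- the MCF operator in dimension one. -/
lemma mcfOperator_ι {f : E 1 → ℝ} {s : ℝ} (hf : ContDiffAt ℝ 2 f (ι s)) :
    HasDerivAt (fun r => Real.arctan (deriv (fun r => f (ι r)) r)) (mcfOperator f (ι s)) s := by
  have hX := normGrad_contDiffAt hf
  have hev : ∀ᶠ r in 𝓝 s, DifferentiableAt ℝ f (ι r) := by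
    have h1 : ∀ᶠ y in 𝓝 (ι s), ContDiffAt ℝ 2 f y := by
      have := hf.eventually (by simp)
      exact this
    have h2 : Tendsto ι (𝓝 s) (𝓝 (ι s)) := ι.continuous.continuousAt
    exact (h2.eventually h1).mono fun r hr => hr.differentiableAt (by norm_num)
  set g : ℝ → ℝ := fun r => deriv (fun r => f (ι r)) r with hg
  have hgrad : ∀ᶠ r in 𝓝 s, gradient f (ι r) = ι (g r) := hev.mono fun r hr => gradient_ι hr
  have hgs : gradient f (ι s) = ι (g s) := hgrad.self_of_nhds
  -- g is differentiable at s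
  have hgd : DifferentiableAt ℝ g s := by
    have h1 : DifferentiableAt ℝ (fun r => gradient f (ι r)) s :=
      ((gradient_contDiffAt hf).differentiableAt (by norm_num)).comp s ι.differentiableAt
    have h2 : DifferentiableAt ℝ (fun r => (gradient f (ι r)) 0) s := by
      have := (hasDerivAt_pi.1 ((PiLp.hasFDerivAt_ofLp 2 _).comp_hasDerivAt s h1.hasDerivAt)) 0
      exact this.differentiableAt
    refine h2.congr_of_eventuallyEq ?_
    filter_upwards [hgrad] with r hr
    rw [hr]; simp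
  have hdiv : divergence (fun y => (Real.sqrt (1 + ‖gradient f y‖ ^ 2))⁻¹ • gradient f y) (ι s)
      = deriv (fun r => (Real.sqrt (1 + g r ^ 2))⁻¹ * g r) s := by
    rw [divergence_ι (hX.differentiableAt (by norm_num))]
    apply Filter.EventuallyEq.deriv_eq
    filter_upwards [hgrad] with r hr
    rw [hr, norm_ι]
    simp
  unfold mcfOperator
  rw [hdiv, hgs, norm_ι, sq_abs]
  have hp : ∀ r, 0 < 1 + g r ^ 2 := fun r => by positivity
  have hs : 0 < Real.sqrt (1 + g s ^ 2) := Real.sqrt_pos.2 (hp s)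
  have hd : HasDerivAt g (deriv g s) s := hgd.hasDerivAt
  have h1 : HasDerivAt (fun r => 1 + g r ^ 2) (2 * g s * deriv g s) s := by
    have := (hd.pow 2).const_add 1
    refine this.congr_deriv ?_
    simp
  have h2 := (h1.sqrt (hp s).ne').inv hs.ne'
  have h3 := h2.mul hd
  have h4 : deriv (fun r => (Real.sqrt (1 + g r ^ 2))⁻¹ * g r) s
      = deriv g s / (Real.sqrt (1 + g s ^ 2) * (1 + g s ^ 2)) := by
    rw [show (fun r => (Real.sqrt (1 + g r ^ 2))⁻¹ * g r) = (fun r => (Real.sqrt (1 + g r ^ 2)))⁻¹ * g from rfl, h3.deriv]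
    have hsq : Real.sqrt (1 + g s ^ 2) ^ 2 = 1 + g s ^ 2 := Real.sq_sqrt (hp s).le
    simp only [Pi.inv_apply]
    generalize Real.sqrt (1 + g s ^ 2) = q at *
    rw [← hsq]
    have hg2 : g s ^ 2 = q ^ 2 - 1 := by rw [hsq]; ring
    field_simp
    rw [hg2]
    ring
  rw [h4]
  have h5 : HasDerivAt (fun r => Real.arctan (g r)) (1 / (1 + g s ^ 2) * deriv g s) s :=
    hd.arctan
  convert h5 using 1
  field_simp


/-- The open interval `(-π/2, π/2)`. -/
abbrev J : Set ℝ := Ioo (-(Real.pi / 2)) (Real.pi / 2)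

lemma W_smooth {u : E 1 → ℝ → ℝ} (hu : IsGraphicalSolution (slab 1) u) :
    ContDiffOn ℝ ∞ (fun p : ℝ × ℝ => u (ι p.1) p.2) (J ×ˢ Ioi (0 : ℝ)) := by
  have h1 : ContDiff ℝ ∞ (fun p : ℝ × ℝ => ((ι p.1, p.2) : E 1 × ℝ)) := by fun_prop
  refine hu.smooth.comp h1.contDiffOn ?_
  rintro ⟨s, t⟩ ⟨hs, ht⟩
  exact ⟨(ι_mem_slab s).2 hs, ht⟩

lemma W_cont {u : E 1 → ℝ → ℝ} (hu : IsGraphicalSolution (slab 1) u) :
    ContinuousOn (fun p : ℝ × ℝ => u (ι p.1) p.2) (J ×ˢ Ici (0 : ℝ)) := by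
  have h1 : Continuous (fun p : ℝ × ℝ => ((ι p.1, p.2) : E 1 × ℝ)) := by fun_prop
  refine hu.cont.comp h1.continuousOn ?_
  rintro ⟨s, t⟩ ⟨hs, ht⟩
  exact ⟨(ι_mem_slab s).2 hs, ht⟩

lemma isOpen_slab (n : ℕ) [NeZero n] : IsOpen (slab n) := by
  have : Continuous (fun x : E n => x 0) := by fun_prop
  exact isOpen_Ioo.preimage this

lemma slice_contDiffAt {u : E 1 → ℝ → ℝ} (hu : IsGraphicalSolution (slab 1) u) {s t : ℝ}
    (hs : s ∈ J) (ht : 0 < t) : ContDiffAt ℝ 2 (fun y => u y t) (ι s) := by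
  have h1 : ContDiffAt ℝ ∞ (fun p : E 1 × ℝ => u p.1 p.2) (ι s, t) :=
    hu.smooth.contDiffAt (((isOpen_slab 1).prod isOpen_Ioi).mem_nhds ⟨(ι_mem_slab s).2 hs, ht⟩)
  have h2 : ContDiff ℝ ∞ (fun y : E 1 => ((y, t) : E 1 × ℝ)) := by fun_prop
  have h3 : ContDiffAt ℝ ∞ (fun y => u y t) (ι s) := ContDiffAt.comp (ι s) (g := fun p : E 1 × ℝ => u p.1 p.2) h1 h2.contDiffAt
  exact h3.of_le (WithTop.coe_le_coe.2 le_top)

/-- time derivative via the full derivative -/
lemma hasDerivAt_time {u : E 1 → ℝ → ℝ} (hu : IsGraphicalSolution (slab 1) u) {s t : ℝ}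
    (hs : s ∈ J) (ht : 0 < t) :
    HasDerivAt (fun r => u (ι s) r)
      (fderiv ℝ (fun p : ℝ × ℝ => u (ι p.1) p.2) (s, t) (0, 1)) t := by
  have h1 : ContDiffAt ℝ ∞ (fun p : ℝ × ℝ => u (ι p.1) p.2) (s, t) :=
    (W_smooth hu).contDiffAt ((isOpen_Ioo.prod isOpen_Ioi).mem_nhds ⟨hs, ht⟩)
  have h2 := (h1.differentiableAt (by simp)).hasFDerivAt
  have h3 : HasDerivAt (fun r : ℝ => ((s, r) : ℝ × ℝ)) (0, 1) t :=
    (hasDerivAt_const t s).prodMk (hasDerivAt_id t)
  exact h2.comp_hasDerivAt t h3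

lemma continuousOn_time_deriv {u : E 1 → ℝ → ℝ} (hu : IsGraphicalSolution (slab 1) u) :
    ContinuousOn (fun q : ℝ × ℝ => fderiv ℝ (fun p : ℝ × ℝ => u (ι p.1) p.2) q (0, 1))
      (J ×ˢ Ioi (0 : ℝ)) := by
  have h := (W_smooth hu).continuousOn_fderiv_of_isOpen (isOpen_Ioo.prod isOpen_Ioi) (by simp)
  exact h.clm_apply continuousOn_const

/-- flux identity -/
lemma flux {u : E 1 → ℝ → ℝ} (hu : IsGraphicalSolution (slab 1) u) {a b t : ℝ}
    (ha : a ∈ J) (hb : b ∈ J) (hab : a ≤ b) (ht : 0 < t) :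
    ∫ s in a..b, fderiv ℝ (fun p : ℝ × ℝ => u (ι p.1) p.2) (s, t) (0, 1) ≤ Real.pi := by
  have hsub : Set.uIcc a b ⊆ J := by
    rw [uIcc_of_le hab]
    intro x hx
    exact ⟨lt_of_lt_of_le ha.1 hx.1, lt_of_le_of_lt hx.2 hb.2⟩
  have hder : ∀ s ∈ Set.uIcc a b,
      HasDerivAt (fun r => Real.arctan (deriv (fun r => u (ι r) t) r))
        (fderiv ℝ (fun p : ℝ × ℝ => u (ι p.1) p.2) (s, t) (0, 1)) s := by
    intro s hs
    have h1 := mcfOperator_ι (slice_contDiffAt hu (hsub hs) ht)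
    have h2 := hu.mcf (ι s) ((ι_mem_slab s).2 (hsub hs)) t ht
    have h3 := (hasDerivAt_time hu (hsub hs) ht).deriv
    rw [← h3, h2]
    exact h1
  have hcont : ContinuousOn (fun s => fderiv ℝ (fun p : ℝ × ℝ => u (ι p.1) p.2) (s, t) (0, 1))
      (Set.uIcc a b) := by
    have h1 : ContinuousOn (fun s : ℝ => ((s, t) : ℝ × ℝ)) (Set.uIcc a b) := by fun_prop
    exact (continuousOn_time_deriv hu).comp h1 (fun s hs => ⟨hsub hs, ht⟩)
  rw [intervalIntegral.integral_eq_sub_of_hasDerivAt hder hcont.intervalIntegrable]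
  have h1 := Real.arctan_lt_pi_div_two (deriv (fun r => u (ι r) t) b)
  have h2 := Real.neg_pi_div_two_lt_arctan (deriv (fun r => u (ι r) t) a)
  linarith


/-- The area under the solution over `[a,b]` grows at rate at most `π`. -/
lemma area_le {u : E 1 → ℝ → ℝ} (hu : IsGraphicalSolution (slab 1) u) {a b : ℝ}
    (ha : a ∈ J) (hb : b ∈ J) (hab : a ≤ b) {T : ℝ} (hT : 0 ≤ T) :
    ∫ s in a..b, u (ι s) T ≤ (∫ s in a..b, u (ι s) 0) + Real.pi * T := by
  have hsub : Set.uIcc a b ⊆ J := by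
    rw [uIcc_of_le hab]
    intro x hx
    exact ⟨lt_of_lt_of_le ha.1 hx.1, lt_of_le_of_lt hx.2 hb.2⟩
  have hsub' : Set.uIoc a b ⊆ J := fun x hx => hsub (uIoc_subset_uIcc hx)
  set F : ℝ → ℝ := fun t => ∫ s in a..b, u (ι s) t with hF
  have hslice : ∀ t, 0 ≤ t → ContinuousOn (fun s => u (ι s) t) (Set.uIcc a b) := by
    intro t ht
    have h1 : ContinuousOn (fun s : ℝ => ((s, t) : ℝ × ℝ)) (Set.uIcc a b) := by fun_prop
    exact (W_cont hu).comp h1 (fun s hs => ⟨hsub hs, ht⟩)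
  -- continuity of `F` on `[0, ∞)`
  have hFc : ContinuousOn F (Ici 0) := by
    intro t ht
    have ht0 : (0 : ℝ) ≤ t := ht
    -- bound on the compact set `[a,b] × [0,t+1]`
    have hK : IsCompact (Set.uIcc a b ×ˢ Icc (0 : ℝ) (t + 1)) := isCompact_uIcc.prod isCompact_Icc
    have hWc : ContinuousOn (fun p : ℝ × ℝ => u (ι p.1) p.2) (Set.uIcc a b ×ˢ Icc (0 : ℝ) (t + 1)) :=
      (W_cont hu).mono (fun p hp => ⟨hsub hp.1, hp.2.1⟩)
    obtain ⟨C, hC⟩ := hK.exists_bound_of_continuousOn hWc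
    refine intervalIntegral.continuousWithinAt_of_dominated_interval (bound := fun _ => C) ?_ ?_ ?_ ?_
    · filter_upwards [self_mem_nhdsWithin] with r hr
      exact ((hslice r hr).mono uIoc_subset_uIcc).aestronglyMeasurable measurableSet_uIoc
    · have h1 : Ici (0 : ℝ) ∩ Iio (t + 1) ∈ 𝓝[Ici 0] t :=
        inter_mem_nhdsWithin _ (Iio_mem_nhds (by linarith))
      filter_upwards [h1] with r hr
      refine Eventually.of_forall fun s hs => ?_
      exact hC (s, r) ⟨uIoc_subset_uIcc hs, hr.1, le_of_lt hr.2⟩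
    · exact intervalIntegrable_const
    · refine Eventually.of_forall fun s hs => ?_
      have h1 : ContinuousWithinAt (fun p : ℝ × ℝ => u (ι p.1) p.2) (J ×ˢ Ici (0 : ℝ)) (s, t) :=
        W_cont hu (s, t) ⟨hsub' hs, ht⟩
      have h2 : ContinuousWithinAt (fun r : ℝ => ((s, r) : ℝ × ℝ)) (Ici 0) t := by fun_prop
      exact ContinuousWithinAt.comp (g := fun p : ℝ × ℝ => u (ι p.1) p.2) h1 h2 (fun r hr => ⟨hsub' hs, hr⟩)
  -- derivative of `F` on `(0, ∞)`
  have hFd : ∀ t, 0 < t → HasDerivAt F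
      (∫ s in a..b, fderiv ℝ (fun p : ℝ × ℝ => u (ι p.1) p.2) (s, t) (0, 1)) t := by
    intro t ht
    have hK : IsCompact (Set.uIcc a b ×ˢ Icc (t / 2) (t + 1)) := isCompact_uIcc.prod isCompact_Icc
    have hDc : ContinuousOn (fun q : ℝ × ℝ => fderiv ℝ (fun p : ℝ × ℝ => u (ι p.1) p.2) q (0, 1))
        (Set.uIcc a b ×ˢ Icc (t / 2) (t + 1)) :=
      (continuousOn_time_deriv hu).mono
        (fun p hp => ⟨hsub hp.1, lt_of_lt_of_le (by linarith) hp.2.1⟩)
    obtain ⟨C, hC⟩ := hK.exists_bound_of_continuousOn hDc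
    have hmem : Ioo (t / 2) (t + 1) ∈ 𝓝 t := Ioo_mem_nhds (by linarith) (by linarith)
    have hDs : ContinuousOn (fun s => fderiv ℝ (fun p : ℝ × ℝ => u (ι p.1) p.2) (s, t) (0, 1))
        (Set.uIcc a b) := by
      have h1 : ContinuousOn (fun s : ℝ => ((s, t) : ℝ × ℝ)) (Set.uIcc a b) := by fun_prop
      exact (continuousOn_time_deriv hu).comp h1 (fun s hs => ⟨hsub hs, ht⟩)
    refine (intervalIntegral.hasDerivAt_integral_of_dominated_loc_of_deriv_le
      (F := fun t s => u (ι s) t)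
      (F' := fun t s => fderiv ℝ (fun p : ℝ × ℝ => u (ι p.1) p.2) (s, t) (0, 1))
      (bound := fun _ => C) hmem ?_ ?_ ?_ ?_ ?_ ?_).2
    · filter_upwards [hmem] with r hr
      exact ((hslice r (by linarith [hr.1])).mono uIoc_subset_uIcc).aestronglyMeasurable
        measurableSet_uIoc
    · exact (hslice t ht.le).intervalIntegrable
    · exact (hDs.mono uIoc_subset_uIcc).aestronglyMeasurable measurableSet_uIoc
    · refine Eventually.of_forall fun s hs r hr => ?_
      exact hC (s, r) ⟨uIoc_subset_uIcc hs, le_of_lt hr.1, le_of_lt hr.2⟩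
    · exact intervalIntegrable_const
    · refine Eventually.of_forall fun s hs r hr => ?_
      exact hasDerivAt_time hu (hsub' hs) (by linarith [hr.1])
  have hmain := (convex_Ici (0 : ℝ)).image_sub_le_mul_sub_of_deriv_le hFc
    (fun t ht => ((hFd t (by simpa using ht)).differentiableAt).differentiableWithinAt)
    (C := Real.pi) (fun t ht => by
      rw [(hFd t (by simpa using ht)).deriv]
      exact flux hu ha hb hab (by simpa using ht)) 0 self_mem_Ici T hT hT
  simp only [hF] at hmain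
  linarith

/-- **Key inequality.** For a graphical solution over the slab with initial value `u₀`,
the area between the solution and the grim reaper over `[a,b]` satisfies a bound. -/
lemma area_diff_le {u : E 1 → ℝ → ℝ} (hu : IsGraphicalSolution (slab 1) u) {a b : ℝ}
    (ha : a ∈ J) (hb : b ∈ J) (hab : a ≤ b) {T : ℝ} (hT : 0 ≤ T) :
    ∫ s in a..b, (u (ι s) T - (v₀ (ι s) + T)) ≤
      (∫ s in a..b, (u (ι s) 0 - v₀ (ι s))) + (Real.pi - (b - a)) * T := by
  have hsub : Set.uIcc a b ⊆ J := by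
    rw [uIcc_of_le hab]
    intro x hx
    exact ⟨lt_of_lt_of_le ha.1 hx.1, lt_of_le_of_lt hx.2 hb.2⟩
  have hslice : ∀ t, 0 ≤ t → IntervalIntegrable (fun s => u (ι s) t) volume a b := by
    intro t ht
    have h1 : ContinuousOn (fun s : ℝ => ((s, t) : ℝ × ℝ)) (Set.uIcc a b) := by fun_prop
    have h2 : ContinuousOn (fun s => u (ι s) t) (Set.uIcc a b) :=
      (W_cont hu).comp h1 (fun s hs => ⟨hsub hs, ht⟩)
    exact h2.intervalIntegrable
  have hv : ContinuousOn (fun s => v₀ (ι s)) (Set.uIcc a b) := by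
    intro s hs
    have hcos : 0 < Real.cos s := Real.cos_pos_of_mem_Ioo (hsub hs)
    have : ContinuousAt (fun s : ℝ => -Real.log (Real.cos s)) s :=
      ((Real.continuousAt_log hcos.ne').comp (Real.continuous_cos.continuousAt)).neg
    refine (this.congr ?_).continuousWithinAt
    exact Eventually.of_forall fun r => by simp [v₀]
  have hvi : IntervalIntegrable (fun s => v₀ (ι s)) volume a b := hv.intervalIntegrable
  have h1 := area_le hu ha hb hab hT
  rw [intervalIntegral.integral_sub (hslice T hT) (hvi.add intervalIntegrable_const),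
    intervalIntegral.integral_add hvi intervalIntegrable_const,
    intervalIntegral.integral_sub (hslice 0 le_rfl) hvi, intervalIntegral.integral_const]
  simp only [smul_eq_mul]
  linarith


/-- The difference `u₀ - v₀` of a perturbation is bounded. -/
lemma bounded_of_decay {u₀ : E 1 → ℝ} (h : IsC0DecayPerturbation 1 u₀) :
    ∃ C : ℝ, 0 ≤ C ∧ ∀ s ∈ J, |u₀ (ι s) - v₀ (ι s)| ≤ C := by
  obtain ⟨K, hK, hKU, hKb⟩ := h.2 1 one_pos
  have hcu : ContinuousOn u₀ K := fun x hx =>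
    (h.1.continuousOn x (hKU hx)).mono hKU
  have hcv : ContinuousOn (v₀ (n := 1)) K := by
    intro x hx
    have hcos : 0 < Real.cos (x 0) := Real.cos_pos_of_mem_Ioo (hKU hx)
    have h1 : ContinuousAt (fun y : E 1 => Real.cos (y 0)) x := by fun_prop
    have : ContinuousAt (fun y : E 1 => -Real.log (Real.cos (y 0))) x :=
      (h1.log hcos.ne').neg
    exact this.continuousWithinAt
  obtain ⟨C, hC⟩ := hK.exists_bound_of_continuousOn (hcu.sub hcv)
  refine ⟨max C 1, by positivity, fun s hs => ?_⟩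
  by_cases hsK : ι s ∈ K
  · exact (hC _ hsK).trans (le_max_left _ _)
  · exact (hKb _ ((ι_mem_slab s).2 hs) hsK).le.trans (le_max_right _ _)


lemma integrableOn_diff {u₀ : E 1 → ℝ} (h : IsC0DecayPerturbation 1 u₀) :
    IntegrableOn (fun s => u₀ (ι s) - v₀ (ι s)) J := by
  obtain ⟨C, hC0, hC⟩ := bounded_of_decay h
  have hcont : ContinuousOn (fun s => u₀ (ι s) - v₀ (ι s)) J := by
    refine ContinuousOn.sub ?_ ?_
    · exact h.1.continuousOn.comp ι.continuous.continuousOn (fun s hs => (ι_mem_slab s).2 hs)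
    · intro s hs
      have hcos : 0 < Real.cos s := Real.cos_pos_of_mem_Ioo hs
      have : ContinuousAt (fun s : ℝ => -Real.log (Real.cos s)) s :=
        ((Real.continuousAt_log hcos.ne').comp (Real.continuous_cos.continuousAt)).neg
      refine (this.congr ?_).continuousWithinAt
      exact Eventually.of_forall fun r => by simp [v₀]
  refine IntegrableOn.of_bound (C := C) ?_ ?_ ?_
  · simp
  · exact hcont.aestronglyMeasurable measurableSet_Ioo
  · exact (ae_restrict_iff' measurableSet_Ioo).2 (Eventually.of_forall fun s hs => hC s hs)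

/-- **Main inequality.** If at some time `T ≥ 0` a graphical solution starting from a
perturbation `u₀` of the grim reaper is within `δ` of the translating grim reaper, then
`∫ (u₀ - v₀) ≥ -π δ`. -/
lemma main_ineq {u₀ : E 1 → ℝ} (h : IsC0DecayPerturbation 1 u₀) {u : E 1 → ℝ → ℝ}
    (hu : IsGraphicalSolution (slab 1) u) (h0 : ∀ x ∈ slab 1, u x 0 = u₀ x) {T δ : ℝ}
    (hT : 0 ≤ T) (hδ : ∀ x ∈ slab 1, |u x T - (v₀ x + T)| ≤ δ) :
    -(Real.pi * δ) ≤ ∫ s in J, (u₀ (ι s) - v₀ (ι s)) := by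
  obtain ⟨C, hC0, hC⟩ := bounded_of_decay h
  have hint := integrableOn_diff h
  have hδ0 : 0 ≤ δ := (abs_nonneg _).trans (hδ (ι 0) ((ι_mem_slab 0).2 ⟨by linarith [Real.pi_pos], by linarith [Real.pi_pos]⟩))
  have hpi := Real.pi_pos
  -- for every small `η`
  have key : ∀ η ∈ Ioo (0 : ℝ) (Real.pi / 2),
      -(Real.pi * δ) ≤ (∫ s in J, (u₀ (ι s) - v₀ (ι s))) + 2 * (C + T) * η := by
    intro η hη
    set b := Real.pi / 2 - η with hb
    have hbJ : b ∈ J := ⟨by linarith [hη.1, hη.2], by linarith [hη.1, hη.2]⟩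
    have haJ : -b ∈ J := ⟨by linarith [hη.1, hη.2], by linarith [hη.1, hη.2]⟩
    have hb0 : 0 < b := by linarith [hη.2]
    have hab : -b ≤ b := by linarith
    have h1 := area_diff_le hu haJ hbJ hab hT
    -- lower bound for the left side
    have h2 : -(Real.pi * δ) ≤ ∫ s in (-b)..b, (u (ι s) T - (v₀ (ι s) + T)) := by
      have h3 := intervalIntegral.norm_integral_le_of_norm_le_const (a := -b) (b := b)
        (f := fun s => u (ι s) T - (v₀ (ι s) + T)) (C := δ) (fun s hs => by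
          have hs' : s ∈ Ioc (-b) b := by rwa [uIoc_of_le hab] at hs
          refine hδ _ ((ι_mem_slab s).2 ⟨?_, ?_⟩)
          · linarith [haJ.1, hs'.1]
          · linarith [hbJ.2, hs'.2])
      rw [Real.norm_eq_abs, abs_of_nonneg (by linarith : (0 : ℝ) ≤ b - -b)] at h3
      have h4 := (abs_le.1 h3).1
      have h5 : δ * (b - -b) ≤ Real.pi * δ := by
        have : b - -b ≤ Real.pi := by linarith [hη.1]
        nlinarith
      linarith
    -- replace `u (ι s) 0` by `u₀ (ι s)`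
    have h6 : ∫ s in (-b)..b, (u (ι s) 0 - v₀ (ι s)) = ∫ s in Ioc (-b) b, (u₀ (ι s) - v₀ (ι s)) := by
      rw [intervalIntegral.integral_of_le hab]
      refine setIntegral_congr_fun measurableSet_Ioc (fun s hs => ?_)
      have : ι s ∈ slab 1 := (ι_mem_slab s).2 ⟨by linarith [haJ.1, hs.1], by linarith [hbJ.2, hs.2]⟩
      simp only [h0 _ this]
    have hsub : Ioc (-b) b ⊆ J := fun s hs => ⟨by linarith [haJ.1, hs.1], by linarith [hbJ.2, hs.2]⟩
    have h7 : ∫ s in Ioc (-b) b, (u₀ (ι s) - v₀ (ι s)) =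
        (∫ s in J, (u₀ (ι s) - v₀ (ι s))) - ∫ s in J \ Ioc (-b) b, (u₀ (ι s) - v₀ (ι s)) := by
      rw [setIntegral_sdiff measurableSet_Ioc hint hsub]
      ring
    have h8 : ‖∫ s in J \ Ioc (-b) b, (u₀ (ι s) - v₀ (ι s))‖ ≤ C * (volume : Measure ℝ).real (J \ Ioc (-b) b) := by
      refine norm_setIntegral_le_of_norm_le_const ?_ (fun s hs => hC s hs.1)
      refine lt_of_le_of_lt (measure_mono sdiff_subset) ?_
      simp
    have h9 : (volume : Measure ℝ).real (J \ Ioc (-b) b) = 2 * η := by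
      rw [measureReal_sdiff hsub measurableSet_Ioc (h₁ := by simp)]
      simp only [Real.volume_real_Ioo, Real.volume_real_Ioc]
      rw [max_eq_left (by linarith), max_eq_left (by linarith)]
      rw [hb]; ring
    rw [h9] at h8
    have h10 := (abs_le.1 h8).1
    have h11 : Real.pi - (b - -b) = 2 * η := by rw [hb]; ring
    rw [h11, h6, h7] at h1
    nlinarith
  by_contra hcon
  push Not at hcon
  set I := ∫ s in J, (u₀ (ι s) - v₀ (ι s)) with hI
  set gap := -(Real.pi * δ) - I with hgap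
  have hgap0 : 0 < gap := by linarith
  have hCT : 0 < 2 * (C + T) + 1 := by linarith
  have h1 := key (min (Real.pi / 4) (gap / (2 * (2 * (C + T) + 1))))
    ⟨by positivity, lt_of_le_of_lt (min_le_left _ _) (by linarith)⟩
  have h2 : min (Real.pi / 4) (gap / (2 * (2 * (C + T) + 1))) ≤ gap / (2 * (2 * (C + T) + 1)) :=
    min_le_right _ _
  have h3 : 2 * (C + T) * min (Real.pi / 4) (gap / (2 * (2 * (C + T) + 1))) ≤ gap / 2 := by
    have h4 : 0 ≤ min (Real.pi / 4) (gap / (2 * (2 * (C + T) + 1))) := by positivity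
    calc 2 * (C + T) * min (Real.pi / 4) (gap / (2 * (2 * (C + T) + 1)))
        ≤ (2 * (C + T) + 1) * min (Real.pi / 4) (gap / (2 * (2 * (C + T) + 1))) := by nlinarith
      _ ≤ (2 * (C + T) + 1) * (gap / (2 * (2 * (C + T) + 1))) :=
          mul_le_mul_of_nonneg_left h2 hCT.le
      _ = gap / 2 := by field_simp
  linarith


/-- The counterexample in dimension one: `u₀ = v₀ - cos`. -/
noncomputable def ce (x : E 1) : ℝ := v₀ x - Real.cos (x 0)

lemma ce_isC0DecayPerturbation : IsC0DecayPerturbation 1 ce := by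
  constructor
  · intro x hx
    have hcos : 0 < Real.cos (x 0) := Real.cos_pos_of_mem_Ioo hx
    have h1 : ContDiffAt ℝ 1 (fun y : E 1 => Real.cos (y 0)) x := by fun_prop
    have h2 : ContDiffAt ℝ 1 ce x := ((h1.log hcos.ne').neg).sub h1
    obtain ⟨K, t, ht, hK⟩ := h2.exists_lipschitzOnWith
    exact ⟨K, t, mem_nhdsWithin_of_mem_nhds ht, hK⟩
  · intro ε hε
    refine ⟨ι '' (Icc (-(Real.pi / 2)) (Real.pi / 2) ∩ {s | ε ≤ Real.cos s}), ?_, ?_, ?_⟩
    · refine (isCompact_Icc.inter_right ?_).image ι.continuous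
      exact isClosed_le continuous_const Real.continuous_cos
    · rintro _ ⟨s, ⟨hs, hs2⟩, rfl⟩
      rw [ι_mem_slab]
      have h2 : ε ≤ Real.cos s := hs2
      refine ⟨lt_of_le_of_ne hs.1 ?_, lt_of_le_of_ne hs.2 ?_⟩
      · rintro rfl
        rw [Real.cos_neg, Real.cos_pi_div_two] at h2
        linarith
      · rintro rfl
        rw [Real.cos_pi_div_two] at h2
        linarith
    · intro x hx hxK
      have hcos : 0 < Real.cos (x 0) := Real.cos_pos_of_mem_Ioo hx
      have h1 : ce x - v₀ x = -Real.cos (x 0) := by simp [ce]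
      rw [h1, abs_neg, abs_of_pos hcos]
      by_contra hcon
      push Not at hcon
      exact hxK ⟨x 0, ⟨⟨hx.1.le, hx.2.le⟩, hcon⟩, (eq_ι x).symm⟩

/-- In dimension `n = 1` the grim reaper is not dynamically stable. -/
theorem not_dynamicallyStable_one : ¬ DynamicallyStable 1 := by
  intro h
  obtain ⟨u, hu, h0, hconv⟩ := h ce ce_isC0DecayPerturbation
  have hpi := Real.pi_pos
  obtain ⟨T, hT⟩ := hconv (1 / Real.pi) (by positivity)
  have h1 := main_ineq ce_isC0DecayPerturbation hu h0 (T := max T 0) (δ := 1 / Real.pi)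
    (le_max_right _ _) (fun x hx => hT _ (le_max_left _ _) x hx)
  have h2 : ∫ s in J, (ce (ι s) - v₀ (ι s)) = -2 := by
    have h3 : (fun s => ce (ι s) - v₀ (ι s)) = fun s => -Real.cos s := by
      funext s; simp [ce]
    rw [h3, integral_neg, ← integral_Ioc_eq_integral_Ioo,
      ← intervalIntegral.integral_of_le (by linarith), integral_cos]
    simp
    norm_num
  rw [h2] at h1
  have h4 : Real.pi * (1 / Real.pi) = 1 := by field_simp
  rw [h4] at h1
  norm_num at h1

end Pool.Agent.Helper25.GrimReaper
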