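import Pool.Agent.Helper25.PretSide

/-!
Cyclic products of blocks of pretzel type act trivially on linearly ordered sets.
-/

set_option autoImplicit false

namespace Pool.Agent.Helper25.Pret

variable {G Ω : Type*} [Group G] [LinearOrder Ω] [MulAction G Ω]

/-- The points attached to a surface with curves `e`, `z`. -/
def pt (J : ℕ) (e z : G) (s : Ω) : Option (Fin (J + 1)) → Ω
  | none => e⁻¹ • z • s
  | some i => e⁻¹ • (z⁻¹) ^ (i : ℕ) • s

theorem pt_some (J : ℕ) (e z : G) (s : Ω) (i : Fin (J + 1)) :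
    pt J e z s (some i) = e⁻¹ • (z⁻¹) ^ (i : ℕ) • s := rfl

section block

variable {x X y Y : G} {p q v : ℕ} {u : ℤ}

theorem lower_none (J : ℕ) (B : IsBlock x X y Y p q v u) (s : Ω) :
    pt J (X * Y⁻¹) (X * y * x⁻¹ * y) s none = Y • y • x⁻¹ • y • s := by
  show (X * Y⁻¹)⁻¹ • (X * y * x⁻¹ * y) • s = _
  simp only [← mul_smul]
  congr 1
  group

theorem lower_some (J : ℕ) (B : IsBlock x X y Y p q v u) (s : Ω) (i : Fin (J + 1)) :
    pt J (X * Y⁻¹) (X * y * x⁻¹ * y) s (some i) =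
      Y • (X⁻¹ * y⁻¹ * x * y⁻¹) ^ (i : ℕ) • X⁻¹ • s := by
  rw [pt_some]
  simp only [← mul_smul]
  congr 1
  have h : (X * y * x⁻¹ * y)⁻¹ = X * (X⁻¹ * y⁻¹ * x * y⁻¹) * X⁻¹ := by group
  -- `(X y x⁻¹ y)⁻¹ = y⁻¹ x y⁻¹ X⁻¹ = X (X⁻¹ y⁻¹ x y⁻¹) X⁻¹`
  rw [h, conj_pow]
  group

theorem upper_none (J : ℕ) (B : IsBlock x X y Y p q v u) (s : Ω) :
    pt J (x * (X * Y⁻¹) * y⁻¹) (X * y * x⁻¹) s none = (y * Y) • x⁻¹ • y • x⁻¹ • s := by
  show (x * (X * Y⁻¹) * y⁻¹)⁻¹ • (X * y * x⁻¹) • s = _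
  simp only [← mul_smul]
  congr 1
  have h : X⁻¹ * x⁻¹ = x⁻¹ * X⁻¹ := by rw [← mul_inv_rev, ← mul_inv_rev, B.cX]
  calc (x * (X * Y⁻¹) * y⁻¹)⁻¹ * (X * y * x⁻¹) = y * Y * (X⁻¹ * x⁻¹) * X * y * x⁻¹ := by group
    _ = y * Y * (x⁻¹ * X⁻¹) * X * y * x⁻¹ := by rw [h]
    _ = _ := by group

theorem upper_some (J : ℕ) (B : IsBlock x X y Y p q v u) (s : Ω) (i : Fin (J + 1)) :
    pt J (x * (X * Y⁻¹) * y⁻¹) (X * y * x⁻¹) s (some i) =
      (y * Y) • (X⁻¹ * y⁻¹ * x) ^ (i : ℕ) • x⁻¹ • X⁻¹ • s := by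
  rw [pt_some]
  simp only [← mul_smul]
  congr 1
  have h : x⁻¹ * X⁻¹ = X⁻¹ * x⁻¹ := by rw [← mul_inv_rev, ← mul_inv_rev, B.cX]
  have h2 : (X * y * x⁻¹)⁻¹ = (x * X) * (X⁻¹ * y⁻¹ * x) * (x * X)⁻¹ := by
    have h3 : x * X = X * x := B.cX.symm
    calc (X * y * x⁻¹)⁻¹ = x * y⁻¹ * X⁻¹ := by group
      _ = x * X * (X⁻¹ * y⁻¹ * x) * (X * x)⁻¹ := by group
      _ = _ := by rw [h3]
  rw [h2, conj_pow]
  calc (x * (X * Y⁻¹) * y⁻¹)⁻¹ * (x * X * (X⁻¹ * y⁻¹ * x) ^ (i : ℕ) * (x * X)⁻¹)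
      = y * Y * (X⁻¹ * y⁻¹ * x) ^ (i : ℕ) * (X⁻¹ * x⁻¹) := by group
    _ = y * Y * (X⁻¹ * y⁻¹ * x) ^ (i : ℕ) * (x⁻¹ * X⁻¹) := by rw [h]
    _ = _ := by group

/-- The key comparison in terms of the surfaces. -/
theorem key_surface (B : IsBlock x X y Y p q v u) (hm : Mono G Ω) {s : Ω} {J : ℕ}
    (hJ : u ≤ J * v) (h : ∀ o, pt J (X * Y⁻¹) (X * y * x⁻¹ * y) s o < s)
    (o : Option (Fin (J + 1))) :
    ∃ o', pt J (x * (X * Y⁻¹) * y⁻¹) (X * y * x⁻¹) s o <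
      pt J (X * Y⁻¹) (X * y * x⁻¹ * y) s o' := by
  have h1 : y • x⁻¹ • y • s < Y⁻¹ • s := by
    rw [← lt_inv hm, ← lower_none J B]; exact h none
  have h2 : ∀ i ≤ J, (X⁻¹ * y⁻¹ * x * y⁻¹) ^ i • X⁻¹ • s < Y⁻¹ • s := fun i hi => by
    rw [← lt_inv hm]
    have := h (some ⟨i, by omega⟩)
    rwa [lower_some J B] at this
  obtain ⟨k1, k2⟩ := B.key hm hJ h1 h2
  have hlow : ∀ P : Ω, (P = y • x⁻¹ • y • s ∨ ∃ i ≤ J,
      P = (X⁻¹ * y⁻¹ * x * y⁻¹) ^ i • X⁻¹ • s) →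
      ∃ o', Y • P = pt J (X * Y⁻¹) (X * y * x⁻¹ * y) s o' := by
    rintro P (rfl | ⟨i, hi, rfl⟩)
    · exact ⟨none, (lower_none J B s).symm⟩
    · exact ⟨some ⟨i, by omega⟩, (lower_some J B s ⟨i, by omega⟩).symm⟩
  have hup : ∀ P Q : Ω, Q < y⁻¹ • P → (y * Y) • Q < Y • P := fun P Q hPQ => by
    rw [← B.cY, mul_smul, lt_iff hm, lt_inv hm]
    exact hPQ
  cases o with
  | none =>
    obtain ⟨P, hP, hlt⟩ := k1
    obtain ⟨o', ho'⟩ := hlow P hP
    exact ⟨o', by rw [upper_none J B, ← ho']; exact hup _ _ hlt⟩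
  | some i =>
    obtain ⟨P, hP, hlt⟩ := k2 i (by omega)
    obtain ⟨o', ho'⟩ := hlow P hP
    exact ⟨o', by rw [upper_some J B, ← ho']; exact hup _ _ hlt⟩

theorem below_surface (B : IsBlock x X y Y p q v u) (hm : Mono G Ω) {s : Ω} {J : ℕ}
    (h : IsBlock.Below x X y Y s) (o : Option (Fin (J + 1))) :
    pt J (x * (X * Y⁻¹) * y⁻¹) (X * y * x⁻¹) s o < s := by
  obtain ⟨h1, h2⟩ := h
  have hup : ∀ Q : Ω, Q < y⁻¹ • Y⁻¹ • s → (y * Y) • Q < s := fun Q hQ => by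
    rw [lt_inv hm, ← B.y_inv_Y_inv]
    exact hQ
  cases o with
  | none =>
    rw [upper_none J B]
    refine hup _ ?_
    rwa [inv_lt hm]
  | some i =>
    rw [upper_some J B, IsBlock.w_pow]
    refine hup _ ?_
    rw [inv_lt hm]
    exact h2 i

theorem above_surface (B : IsBlock x X y Y p q v u) (hm : Mono G Ω) {s : Ω} {J : ℕ}
    (h : IsBlock.Above x X y Y s) (o : Option (Fin (J + 1))) :
    s < pt J (x * (X * Y⁻¹) * y⁻¹) (X * y * x⁻¹) s o := by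
  obtain ⟨h1, h2⟩ := h
  have hup : ∀ Q : Ω, y⁻¹ • Y⁻¹ • s < Q → s < (y * Y) • Q := fun Q hQ => by
    rw [← inv_lt hm, ← B.y_inv_Y_inv]
    exact hQ
  cases o with
  | none =>
    rw [upper_none J B]
    refine hup _ ?_
    rwa [← lt_inv hm]
  | some i =>
    rw [upper_some J B, IsBlock.w_pow]
    refine hup _ ?_
    rw [← lt_inv hm]
    exact h2 i

end block

/-- A cyclic product of blocks. -/
structure IsCycle {n : ℕ} (x X y Y : ZMod n → G) (p q v : ZMod n → ℕ) (u : ZMod n → ℤ) :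
    Prop where
  block : ∀ i, IsBlock (x i) (X i) (y i) (Y i) (p i) (q i) (v i) (u i)
  rel1 : ∀ i, X (i + 1) * (Y (i + 1))⁻¹ = x i * (X i * (Y i)⁻¹) * (y i)⁻¹
  rel2 : ∀ i, X (i + 1) * y (i + 1) * (x (i + 1))⁻¹ * y (i + 1) = X i * y i * (x i)⁻¹

namespace IsCycle

variable {n : ℕ} [NeZero n] {x X y Y : ZMod n → G} {p q v : ZMod n → ℕ} {u : ZMod n → ℤ}

theorem forall_of_step {P : ZMod n → Prop} (h : ∀ i, P i → P (i + 1)) {i : ZMod n} (hi : P i)
    (j : ZMod n) : P j := by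
  have h1 : ∀ k : ℕ, P (i + k) := by
    intro k
    induction k with
    | zero => simpa using hi
    | succ k ih =>
      have := h _ ih
      push_cast
      rwa [← add_assoc]
  have h2 := h1 (j - i).val
  rwa [ZMod.natCast_val, ZMod.cast_id', id, add_sub_cancel] at h2

theorem const_of_mono {Ω : Type*} [LinearOrder Ω] {f : ZMod n → Ω} (h : ∀ i, f i ≤ f (i + 1))
    (i : ZMod n) : f i = f (i + 1) := by
  refine le_antisymm (h i) ?_
  have h1 : ∀ k : ℕ, f (i + 1) ≤ f (i + 1 + k) := by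
    intro k
    induction k with
    | zero => simp
    | succ k ih =>
      refine ih.trans ?_
      have := h (i + 1 + k)
      push_cast
      rwa [← add_assoc]
  have h2 := h1 (n - 1)
  have h3 : i + 1 + ((n - 1 : ℕ) : ZMod n) = i := by
    have : ((n - 1 : ℕ) : ZMod n) = -1 := by
      have hn : 1 ≤ n := Nat.one_le_iff_ne_zero.2 (NeZero.ne n)
      rw [Nat.cast_sub hn]
      simp
    rw [this]
    ring
  rwa [h3] at h2

/-- No surface has all its points below the mark. -/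
theorem not_below (C : IsCycle x X y Y p q v u) (hm : Mono G Ω) {J : ℕ}
    (hJ : ∀ i, u i ≤ J * v i) (s : Ω) (i : ZMod n)
    (h : ∀ o, pt J (X i * (Y i)⁻¹) (X i * y i * (x i)⁻¹ * y i) s o < s) : False := by
  have hstep : ∀ i, (∀ o, pt J (X i * (Y i)⁻¹) (X i * y i * (x i)⁻¹ * y i) s o < s) →
      ∀ o, ∃ o', pt J (X (i + 1) * (Y (i + 1))⁻¹)
        (X (i + 1) * y (i + 1) * (x (i + 1))⁻¹ * y (i + 1)) s o <
        pt J (X i * (Y i)⁻¹) (X i * y i * (x i)⁻¹ * y i) s o' := by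
    intro i hi o
    rw [C.rel1, C.rel2]
    exact key_surface (C.block i) hm (hJ i) hi o
  have hall : ∀ i, ∀ o, pt J (X i * (Y i)⁻¹) (X i * y i * (x i)⁻¹ * y i) s o < s := by
    refine forall_of_step (i := i) ?_ h
    intro i hi o
    obtain ⟨o', ho'⟩ := hstep i hi o
    exact ho'.trans (hi o')
  obtain ⟨⟨i0, o0⟩, hmax⟩ := Finite.exists_max
    (fun io : ZMod n × Option (Fin (J + 1)) =>
      pt J (X io.1 * (Y io.1)⁻¹) (X io.1 * y io.1 * (x io.1)⁻¹ * y io.1) s io.2)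
  obtain ⟨o', ho'⟩ := hstep (i0 - 1) (hall _) o0
  have := hmax (i0 - 1, o')
  rw [sub_add_cancel] at ho'
  exact absurd ho' (not_lt.2 this)

theorem not_above (C : IsCycle x X y Y p q v u) (hm : Mono G Ω) {J : ℕ}
    (hJ : ∀ i, u i ≤ J * v i) (s : Ω) (i : ZMod n)
    (h : ∀ o, s < pt J (X i * (Y i)⁻¹) (X i * y i * (x i)⁻¹ * y i) s o) : False := by
  refine C.not_below (Ω := Ωᵒᵈ) (mono_dual hm) hJ s i (fun o => ?_)
  have := h o
  cases o with
  | none => exact this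
  | some j => exact this

theorem exists_bound (v : ZMod n → ℕ) (hv : ∀ i, 0 < v i) (u : ZMod n → ℤ) :
    ∃ J : ℕ, ∀ i, u i ≤ J * v i := by
  refine ⟨∑ i, (u i).natAbs, fun i => ?_⟩
  have h1 : (u i).natAbs ≤ ∑ i, (u i).natAbs :=
    Finset.single_le_sum (f := fun i => (u i).natAbs) (fun _ _ => Nat.zero_le _)
      (Finset.mem_univ i)
  have h2 : u i ≤ ((u i).natAbs : ℤ) := Int.le_natAbs
  have h3 : ((u i).natAbs : ℤ) ≤ ((∑ i, (u i).natAbs : ℕ) : ℤ) := by exact_mod_cast h1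
  have h4 : (1 : ℤ) ≤ v i := by exact_mod_cast hv i
  have h5 : (0 : ℤ) ≤ ((∑ i, (u i).natAbs : ℕ) : ℤ) := by positivity
  nlinarith

/-- The half of the main theorem in which some curve `z` moves the mark to the left. -/
theorem trivial_of_le (C : IsCycle x X y Y p q v u) (hm : Mono G Ω) (s : Ω)
    (i0 : ZMod n) (h0 : (X i0 * y i0 * (x i0)⁻¹ * y i0) • s ≤ s) (i : ZMod n) :
    x i • s = s ∧ y i • s = s := by
  obtain ⟨J, hJ⟩ := exists_bound v (fun i => (C.block i).hv) u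
  have hnb : ∀ i, ¬ IsBlock.Below (x i) (X i) (y i) (Y i) s := fun i hb => by
    refine C.not_below hm hJ s (i + 1) (fun o => ?_)
    rw [C.rel1, C.rel2]
    exact below_surface (C.block i) hm hb o
  have hna : ∀ i, ¬ IsBlock.Above (x i) (X i) (y i) (Y i) s := fun i hb => by
    refine C.not_above hm hJ s (i + 1) (fun o => ?_)
    rw [C.rel1, C.rel2]
    exact above_surface (C.block i) hm hb o
  have hstep : ∀ i, (X i * y i * (x i)⁻¹ * y i) • s ≤ s →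
      y i • s ≤ s ∧ (X (i + 1) * y (i + 1) * (x (i + 1))⁻¹ * y (i + 1)) • s ≤ s := by
    intro i hi
    have hz : y i • (x i)⁻¹ • y i • s ≤ (X i)⁻¹ • s := by
      rw [← le_inv hm]
      simpa only [mul_smul] using hi
    rcases (C.block i).side hm hz with hb | hb | ⟨h1, h2⟩
    · exact absurd hb (hnb i)
    · exact absurd hb (hna i)
    · refine ⟨h1, ?_⟩
      rw [C.rel2, mul_smul, mul_smul, le_inv hm]
      exact h2
  have hz : ∀ i, (X i * y i * (x i)⁻¹ * y i) • s ≤ s :=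
    forall_of_step (fun i hi => (hstep i hi).2) h0
  have hy : ∀ i, y i • s ≤ s := fun i => (hstep i (hz i)).1
  have hconst := const_of_mono (f := fun i => (X i * y i * (x i)⁻¹ * y i) • s) (by
    intro i
    show (X i * y i * (x i)⁻¹ * y i) • s ≤
      (X (i + 1) * y (i + 1) * (x (i + 1))⁻¹ * y (i + 1)) • s
    rw [C.rel2, mul_smul _ (y i)]
    exact (le_iff hm _ _ _).2 (hy i))
  have hyfix : ∀ i, y i • s = s := by
    intro i
    have h1 : (X i * y i * (x i)⁻¹ * y i) • s =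
      (X (i + 1) * y (i + 1) * (x (i + 1))⁻¹ * y (i + 1)) • s := hconst i
    rw [C.rel2, mul_smul _ (y i)] at h1
    exact smul_left_cancel _ h1
  refine ⟨?_, hyfix i⟩
  rcases (C.block i).fix hm (hyfix i) with hb | hb | h1
  · exact absurd hb (hnb i)
  · exact absurd hb (hna i)
  · exact h1

theorem trivial_act (C : IsCycle x X y Y p q v u) (hm : Mono G Ω) (s : Ω) (i : ZMod n) :
    x i • s = s ∧ y i • s = s := by
  rcases le_total ((X i * y i * (x i)⁻¹ * y i) • s) s with h | h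
  · exact C.trivial_of_le hm s i h i
  · exact C.trivial_of_le (Ω := Ωᵒᵈ) (mono_dual hm) s i h i

theorem fix_root (hm : Mono G Ω) {y Z : G} {v : ℕ} {k : ℤ} (hv : 0 < v) (h : Z ^ v = y ^ k)
    {s : Ω} (hy : y • s = s) : Z • s = s := by
  have h1 : Z ^ v • s = s := by rw [h, IsBlock.pow_fix hy]
  exact le_antisymm (root_le hm hv h1.le) (root_ge hm hv h1.ge)

theorem trivial_all (C : IsCycle x X y Y p q v u) (hm : Mono G Ω) (s : Ω) (i : ZMod n) :
    x i • s = s ∧ X i • s = s ∧ y i • s = s ∧ Y i • s = s := by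
  obtain ⟨h1, h2⟩ := C.trivial_act hm s i
  refine ⟨h1, ?_, h2, ?_⟩
  · exact fix_root hm (C.block i).hq (k := p i)
      (by rw [zpow_natCast]; exact (C.block i).hX) h1
  · exact fix_root hm (C.block i).hv (C.block i).hY h2

end IsCycle

end Pool.Agent.Helper25.Pret
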