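import Mathlib

set_option autoImplicit false
open scoped ENNReal

namespace Pool.Agent.Helper25.PSpace

universe u v w

/-- Every scalar acts boundedly. -/
class BddSMul (Y : Type u) [NormedAddCommGroup Y] [Module ℝ Y] : Prop where
  bdd : ∀ t : ℝ, ∃ C : ℝ, ∀ y : Y, ‖t • y‖ ≤ C * ‖y‖

/-- Bounded linear maps. -/
def Bdd {Y : Type u} {Z : Type v} [NormedAddCommGroup Y] [Module ℝ Y] [NormedAddCommGroup Z]
    [Module ℝ Z] (T : Y →ₗ[ℝ] Z) : Prop := ∃ C : ℝ, ∀ y, ‖T y‖ ≤ C * ‖y‖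

section basics
variable {Y : Type u} {Z : Type v} {W : Type w} [NormedAddCommGroup Y] [Module ℝ Y]
  [NormedAddCommGroup Z] [Module ℝ Z] [NormedAddCommGroup W] [Module ℝ W]

lemma Bdd.nonneg_const {T : Y →ₗ[ℝ] Z} (h : Bdd T) : ∃ C : ℝ, 0 ≤ C ∧ ∀ y, ‖T y‖ ≤ C * ‖y‖ := by
  obtain ⟨C, hC⟩ := h
  refine ⟨max C 0, le_max_right _ _, fun y => (hC y).trans ?_⟩
  exact mul_le_mul_of_nonneg_right (le_max_left _ _) (norm_nonneg _)

lemma Bdd.comp {T : Z →ₗ[ℝ] W} {S : Y →ₗ[ℝ] Z} (hT : Bdd T) (hS : Bdd S) : Bdd (T ∘ₗ S) := by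
  obtain ⟨C, hC0, hC⟩ := hT.nonneg_const
  obtain ⟨D, hD⟩ := hS
  refine ⟨C * D, fun y => ?_⟩
  calc ‖T (S y)‖ ≤ C * ‖S y‖ := hC _
    _ ≤ C * (D * ‖y‖) := mul_le_mul_of_nonneg_left (hD y) hC0
    _ = C * D * ‖y‖ := by ring

lemma Bdd.id : Bdd (LinearMap.id : Y →ₗ[ℝ] Y) := ⟨1, fun y => by simp⟩

/-- Linear isomorphism, bounded in both directions. -/
def PIso (Y : Type u) (Z : Type v) [NormedAddCommGroup Y] [Module ℝ Y] [NormedAddCommGroup Z]
    [Module ℝ Z] : Prop :=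
  ∃ e : Y ≃ₗ[ℝ] Z, Bdd e.toLinearMap ∧ Bdd e.symm.toLinearMap

lemma PIso.refl : PIso Y Y := ⟨LinearEquiv.refl ℝ Y, ⟨1, fun y => by simp⟩, ⟨1, fun y => by simp⟩⟩

lemma PIso.symm (h : PIso Y Z) : PIso Z Y := by
  obtain ⟨e, h1, h2⟩ := h
  exact ⟨e.symm, h2, by simpa using h1⟩

lemma PIso.trans (h : PIso Y Z) (h' : PIso Z W) : PIso Y W := by
  obtain ⟨e, h1, h2⟩ := h
  obtain ⟨f, h3, h4⟩ := h'
  exact ⟨e.trans f, h3.comp h1, h2.comp h4⟩

lemma PIso.of_maps (T : Y →ₗ[ℝ] Z) (S : Z →ₗ[ℝ] Y) (hT : Bdd T) (hS : Bdd S)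
    (h1 : ∀ z, T (S z) = z) (h2 : ∀ y, S (T y) = y) : PIso Y Z :=
  ⟨LinearEquiv.ofLinearMap T S (by ext z; simp [h1]) (by ext y; simp [h2]), hT, hS⟩

lemma norm_prod_le (a : Y) (b : Z) : ‖(a, b)‖ ≤ ‖a‖ + ‖b‖ := by
  rw [Prod.norm_def]
  exact max_le (by simp) (by simp)

lemma PIso.prod {Y' : Type*} {Z' : Type*} [NormedAddCommGroup Y'] [Module ℝ Y']
    [NormedAddCommGroup Z'] [Module ℝ Z'] (h : PIso Y Z) (h' : PIso Y' Z') :
    PIso (Y × Y') (Z × Z') := by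
  obtain ⟨e, h1, h2⟩ := h
  obtain ⟨f, h3, h4⟩ := h'
  obtain ⟨C1, hC1, h1⟩ := h1.nonneg_const
  obtain ⟨C2, hC2, h2⟩ := h2.nonneg_const
  obtain ⟨C3, hC3, h3⟩ := h3.nonneg_const
  obtain ⟨C4, hC4, h4⟩ := h4.nonneg_const
  refine ⟨e.prodCongr f, ⟨C1 + C3, fun y => ?_⟩, ⟨C2 + C4, fun y => ?_⟩⟩
  · have a1 : ‖e y.1‖ ≤ C1 * ‖y‖ := (h1 y.1).trans (mul_le_mul_of_nonneg_left (norm_fst_le y) hC1)
    have a2 : ‖f y.2‖ ≤ C3 * ‖y‖ := (h3 y.2).trans (mul_le_mul_of_nonneg_left (norm_snd_le y) hC3)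
    have a3 := norm_prod_le (e y.1) (f y.2)
    calc ‖(e.prodCongr f) y‖ = ‖(e y.1, f y.2)‖ := rfl
      _ ≤ (C1 + C3) * ‖y‖ := by linarith
  · have a1 : ‖e.symm y.1‖ ≤ C2 * ‖y‖ := (h2 y.1).trans (mul_le_mul_of_nonneg_left (norm_fst_le y) hC2)
    have a2 : ‖f.symm y.2‖ ≤ C4 * ‖y‖ := (h4 y.2).trans (mul_le_mul_of_nonneg_left (norm_snd_le y) hC4)
    have a3 := norm_prod_le (e.symm y.1) (f.symm y.2)
    calc ‖(e.prodCongr f).symm y‖ = ‖(e.symm y.1, f.symm y.2)‖ := rfl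
      _ ≤ (C2 + C4) * ‖y‖ := by linarith

lemma PIso.prodComm : PIso (Y × Z) (Z × Y) :=
  ⟨LinearEquiv.prodComm ℝ Y Z, ⟨1, fun y => by
    simp only [LinearEquiv.coe_coe, LinearEquiv.prodComm_apply, one_mul, Prod.norm_def]
    rw [max_comm]; simp⟩, ⟨1, fun y => by
    simp only [Prod.norm_def, one_mul]
    rw [max_comm]; rfl⟩⟩

lemma PIso.prodAssoc : PIso ((Y × Z) × W) (Y × (Z × W)) :=
  ⟨LinearEquiv.prodAssoc ℝ Y Z W, ⟨1, fun y => by
    simp only [one_mul, Prod.norm_def]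
    rw [max_assoc]
    exact le_rfl⟩, ⟨1, fun y => by
    simp only [Prod.norm_def, one_mul]
    rw [← max_assoc]; rfl⟩⟩

/-- A complemented subspace splits off. -/
lemma PIso.split (P : Y →ₗ[ℝ] Z) (Q : Z →ₗ[ℝ] Y) (hP : Bdd P) (hQ : Bdd Q)
    (h : ∀ z, P (Q z) = z) : PIso Y (Z × LinearMap.ker P) := by
  obtain ⟨C, hC, hP'⟩ := hP.nonneg_const
  obtain ⟨D, hD, hQ'⟩ := hQ.nonneg_const
  let T : Y →ₗ[ℝ] Z × LinearMap.ker P :=
    P.prod ((LinearMap.id - Q ∘ₗ P).codRestrict (LinearMap.ker P) (fun y => by simp [h]))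
  let S : Z × LinearMap.ker P →ₗ[ℝ] Y := Q.coprod (LinearMap.ker P).subtype
  refine PIso.of_maps T S ?_ ?_ ?_ ?_
  · refine ⟨C + (1 + D * C), fun y => ?_⟩
    have a1 := hP' y
    have a2 : ‖y - Q (P y)‖ ≤ (1 + D * C) * ‖y‖ := by
      calc ‖y - Q (P y)‖ ≤ ‖y‖ + ‖Q (P y)‖ := norm_sub_le _ _
        _ ≤ ‖y‖ + D * (C * ‖y‖) := by
            gcongr
            exact (hQ' _).trans (mul_le_mul_of_nonneg_left a1 hD)
        _ = (1 + D * C) * ‖y‖ := by ring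
    have a3 := norm_prod_le (T y).1 (T y).2
    have a4 : ‖(T y).2‖ = ‖y - Q (P y)‖ := rfl
    have a5 : (T y).1 = P y := rfl
    rw [a4, a5] at a3
    calc ‖T y‖ ≤ ‖P y‖ + ‖y - Q (P y)‖ := a3
      _ ≤ (C + (1 + D * C)) * ‖y‖ := by linarith
  · refine ⟨D + 1, fun z => ?_⟩
    have a1 : ‖S z‖ ≤ ‖Q z.1‖ + ‖(z.2 : Y)‖ := norm_add_le _ _
    have a2 := (hQ' z.1).trans (mul_le_mul_of_nonneg_left (norm_fst_le z) hD)
    have a3 : ‖(z.2 : Y)‖ ≤ ‖z‖ := norm_snd_le z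
    linarith
  · rintro ⟨z, k⟩
    have hk : P k = 0 := k.2
    ext
    · simp [T, S, h, hk]
    · simp [T, S, h, hk]
  · intro y
    simp [T, S]

end basics


section ell
variable (Y : Type u) [NormedAddCommGroup Y] [Module ℝ Y]

/-- `ℓ(Y)`: absolutely summable sequences in `Y`. -/
def Ell (Y : Type u) [NormedAddCommGroup Y] : Type u := lp (fun _ : ℕ => Y) 1

noncomputable instance : NormedAddCommGroup (Ell Y) := inferInstanceAs (NormedAddCommGroup (lp (fun _ : ℕ => Y) 1))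

instance [CompleteSpace Y] : CompleteSpace (Ell Y) := inferInstanceAs (CompleteSpace (lp (fun _ : ℕ => Y) 1))

variable {Y}

instance : CoeFun (Ell Y) (fun _ => ℕ → Y) := ⟨fun y n => y.1 n⟩

@[ext] lemma Ell.ext {y z : Ell Y} (h : ∀ n, y n = z n) : y = z := Subtype.ext (funext h)

lemma memlp_iff (y : ℕ → Y) : Memℓp y 1 ↔ Summable (fun n => ‖y n‖) := by
  rw [memℓp_gen_iff (by simp)]
  simp

/-- Constructor. -/
def Ell.mk (y : ℕ → Y) (h : Summable (fun n => ‖y n‖)) : Ell Y := ⟨y, (memlp_iff y).2 h⟩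

@[simp] lemma Ell.mk_apply (y : ℕ → Y) (h : Summable (fun n => ‖y n‖)) (n : ℕ) :
    Ell.mk y h n = y n := rfl

lemma Ell.summable (y : Ell Y) : Summable (fun n => ‖y n‖) := (memlp_iff _).1 y.2

lemma Ell.norm_def (y : Ell Y) : ‖y‖ = ∑' n, ‖y n‖ := by
  have h := lp.norm_eq_tsum_rpow (p := 1) (E := fun _ : ℕ => Y) (by simp) y
  refine Eq.trans h ?_
  simp only [ENNReal.toReal_one, Real.rpow_one, div_one]

lemma Ell.norm_apply_le (y : Ell Y) (n : ℕ) : ‖y n‖ ≤ ‖y‖ := by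
  rw [Ell.norm_def]
  exact y.summable.le_tsum n (fun _ _ => norm_nonneg _)

@[simp] lemma Ell.add_apply (y z : Ell Y) (n : ℕ) : (y + z) n = y n + z n := rfl
@[simp] lemma Ell.sub_apply (y z : Ell Y) (n : ℕ) : (y - z) n = y n - z n := rfl
@[simp] lemma Ell.neg_apply (y : Ell Y) (n : ℕ) : (-y) n = -y n := rfl
@[simp] lemma Ell.zero_apply (n : ℕ) : (0 : Ell Y) n = 0 := rfl

lemma BddSMul.bdd' [BddSMul Y] (t : ℝ) : ∃ C : ℝ, 0 ≤ C ∧ ∀ y : Y, ‖t • y‖ ≤ C * ‖y‖ := by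
  obtain ⟨C, hC⟩ := BddSMul.bdd (Y := Y) t
  refine ⟨max C 0, le_max_right _ _, fun y => (hC y).trans ?_⟩
  exact mul_le_mul_of_nonneg_right (le_max_left _ _) (norm_nonneg _)

lemma summable_smul [BddSMul Y] (t : ℝ) (y : Ell Y) : Summable (fun n => ‖t • y n‖) := by
  obtain ⟨C, hC0, hC⟩ := BddSMul.bdd' (Y := Y) t
  exact Summable.of_nonneg_of_le (fun _ => norm_nonneg _) (fun n => hC (y n)) (y.summable.mul_left C)

noncomputable instance [BddSMul Y] : SMul ℝ (Ell Y) := ⟨fun t y => Ell.mk (fun n => t • y n) (summable_smul t y)⟩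

@[simp] lemma Ell.smul_apply [BddSMul Y] (t : ℝ) (y : Ell Y) (n : ℕ) : (t • y) n = t • y n := rfl

noncomputable instance [BddSMul Y] : Module ℝ (Ell Y) where
  one_smul y := by ext n; simp
  mul_smul a b y := by ext n; simp [mul_smul]
  smul_zero a := by ext n; simp
  smul_add a y z := by ext n; simp
  add_smul a b y := by ext n; simp [add_smul]
  zero_smul y := by ext n; simp

instance [BddSMul Y] : BddSMul (Ell Y) where
  bdd t := by
    obtain ⟨C, hC0, hC⟩ := BddSMul.bdd' (Y := Y) t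
    refine ⟨C, fun y => ?_⟩
    rw [Ell.norm_def, Ell.norm_def, ← tsum_mul_left]
    exact (summable_smul t y).tsum_le_tsum (fun n => hC _) (y.summable.mul_left C)

instance {s : Submodule ℝ Y} [BddSMul Y] : BddSMul s where
  bdd t := by
    obtain ⟨C, hC⟩ := BddSMul.bdd (Y := Y) t
    exact ⟨C, fun y => hC y⟩

/-- p-homogeneity of the norm. -/
def PHom (p : ℝ) (Y : Type u) [NormedAddCommGroup Y] [Module ℝ Y] : Prop :=
  ∀ (t : ℝ) (y : Y), ‖t • y‖ = |t| ^ p * ‖y‖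

lemma PHom.bddSMul {p : ℝ} (h : PHom p Y) : BddSMul Y := ⟨fun t => ⟨|t| ^ p, fun y => (h t y).le⟩⟩

lemma PHom.ell [BddSMul Y] {p : ℝ} (h : PHom p Y) : PHom p (Ell Y) := by
  intro t y
  rw [Ell.norm_def, Ell.norm_def, ← tsum_mul_left]
  exact tsum_congr fun n => h t (y n)

lemma PHom.submodule {p : ℝ} (h : PHom p Y) (s : Submodule ℝ Y) : PHom p s := fun t y => h t y

/-- Apply a uniformly bounded sequence of maps coordinatewise. -/
lemma Ell.summable_map {Z : Type v} [NormedAddCommGroup Z] (T : ℕ → Y → Z) {C : ℝ}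
    (hT : ∀ n y, ‖T n y‖ ≤ C * ‖y‖) (y : Ell Y) : Summable (fun n => ‖T n (y n)‖) :=
  Summable.of_nonneg_of_le (fun _ => norm_nonneg _) (fun n => hT n (y n)) (y.summable.mul_left C)

end ell

section ellmaps
variable {Y : Type u} {Z : Type v} [NormedAddCommGroup Y] [Module ℝ Y] [BddSMul Y]
  [NormedAddCommGroup Z] [Module ℝ Z]

/-- coordinatewise map -/
noncomputable def Ell.map [BddSMul Z] (T : ℕ → Y →ₗ[ℝ] Z) (C : ℝ) (hT : ∀ n y, ‖T n y‖ ≤ C * ‖y‖) :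
    Ell Y →ₗ[ℝ] Ell Z where
  toFun y := Ell.mk (fun n => T n (y n)) (Ell.summable_map (fun n => T n) hT y)
  map_add' y z := by ext n; simp
  map_smul' t y := by ext n; simp

@[simp] lemma Ell.map_apply [BddSMul Z] (T : ℕ → Y →ₗ[ℝ] Z) (C : ℝ) (hT : ∀ n y, ‖T n y‖ ≤ C * ‖y‖)
    (y : Ell Y) (n : ℕ) : Ell.map T C hT y n = T n (y n) := rfl

lemma Ell.map_norm_le [BddSMul Z] (T : ℕ → Y →ₗ[ℝ] Z) (C : ℝ) (hT : ∀ n y, ‖T n y‖ ≤ C * ‖y‖)
    (y : Ell Y) : ‖Ell.map T C hT y‖ ≤ C * ‖y‖ := by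
  rw [Ell.norm_def, Ell.norm_def, ← tsum_mul_left]
  exact (Ell.summable_map (fun n => T n) hT y).tsum_le_tsum (fun n => hT n _) (y.summable.mul_left C)

lemma Ell.map_bdd [BddSMul Z] (T : ℕ → Y →ₗ[ℝ] Z) (C : ℝ) (hT : ∀ n y, ‖T n y‖ ≤ C * ‖y‖) :
    Bdd (Ell.map T C hT) := ⟨C, Ell.map_norm_le T C hT⟩

/-- sum of a uniformly bounded sequence of maps -/
noncomputable def Ell.sum [CompleteSpace Z] [BddSMul Z] (T : ℕ → Y →ₗ[ℝ] Z) (C : ℝ)
    (hT : ∀ n y, ‖T n y‖ ≤ C * ‖y‖) : Ell Y →ₗ[ℝ] Z where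
  toFun y := ∑' n, T n (y n)
  map_add' y z := by
    have h1 := (Ell.summable_map (fun n => T n) hT y).of_norm
    have h2 := (Ell.summable_map (fun n => T n) hT z).of_norm
    simp only [Ell.add_apply, map_add]
    exact h1.tsum_add h2
  map_smul' t y := by
    have h1 := (Ell.summable_map (fun n => T n) hT y).of_norm
    simp only [Ell.smul_apply, map_smul, RingHom.id_apply]
    obtain ⟨D, hD0, hD⟩ := BddSMul.bdd' (Y := Z) t
    have hc : Continuous (fun z : Z => t • z) := by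
      have : LipschitzWith ⟨D, hD0⟩ (fun z : Z => t • z) := by
        refine LipschitzWith.of_dist_le_mul fun a b => ?_
        rw [dist_eq_norm, dist_eq_norm, ← smul_sub]
        exact hD _
      exact this.continuous
    let S : Z →+ Z := ⟨⟨fun z => t • z, smul_zero t⟩, fun a b => smul_add t a b⟩
    exact (h1.map_tsum S hc).symm

lemma Ell.sum_apply [CompleteSpace Z] [BddSMul Z] (T : ℕ → Y →ₗ[ℝ] Z) (C : ℝ)
    (hT : ∀ n y, ‖T n y‖ ≤ C * ‖y‖) (y : Ell Y) : Ell.sum T C hT y = ∑' n, T n (y n) := rfl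

lemma Ell.sum_norm_le [CompleteSpace Z] [BddSMul Z] (T : ℕ → Y →ₗ[ℝ] Z) (C : ℝ)
    (hT : ∀ n y, ‖T n y‖ ≤ C * ‖y‖) (y : Ell Y) : ‖Ell.sum T C hT y‖ ≤ C * ‖y‖ := by
  rw [Ell.sum_apply, Ell.norm_def, ← tsum_mul_left]
  have h1 := Ell.summable_map (fun n => T n) hT y
  exact (norm_tsum_le_tsum_norm h1).trans
    (h1.tsum_le_tsum (fun n => hT n _) (y.summable.mul_left C))

lemma Ell.sum_bdd [CompleteSpace Z] [BddSMul Z] (T : ℕ → Y →ₗ[ℝ] Z) (C : ℝ)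
    (hT : ∀ n y, ‖T n y‖ ≤ C * ‖y‖) : Bdd (Ell.sum T C hT) := ⟨C, Ell.sum_norm_le T C hT⟩

end ellmaps


section isos
variable {Y : Type u} {Z : Type v} [NormedAddCommGroup Y] [Module ℝ Y] [BddSMul Y]
  [NormedAddCommGroup Z] [Module ℝ Z] [BddSMul Z]

lemma PIso.ell (h : PIso Y Z) : PIso (Ell Y) (Ell Z) := by
  obtain ⟨e, h1, h2⟩ := h
  obtain ⟨C1, hC1, h1⟩ := h1.nonneg_const
  obtain ⟨C2, hC2, h2⟩ := h2.nonneg_const
  refine PIso.of_maps (Ell.map (fun _ => e.toLinearMap) C1 (fun _ => h1))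
    (Ell.map (fun _ => e.symm.toLinearMap) C2 (fun _ => h2)) (Ell.map_bdd _ _ _)
    (Ell.map_bdd _ _ _) ?_ ?_
  · intro z; ext n; simp
  · intro z; ext n; simp

/-- prepend an element to a sequence -/
def consFn {A : Type u} (a : A) (y : ℕ → A) : ℕ → A
  | 0 => a
  | (k + 1) => y k

/-- shift isomorphism `ℓ(Y) ≅ Y × ℓ(Y)` -/
lemma PIso.ell_cons : PIso (Ell Y) (Y × Ell Y) := by
  have hs : ∀ y : Ell Y, Summable (fun n => ‖y (n + 1)‖) := fun y =>
    (summable_nat_add_iff 1).2 y.summable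
  have hc : ∀ (a : Y) (y : Ell Y), Summable (fun n : ℕ => ‖consFn a (fun k => y k) n‖) := by
    intro a y
    rw [← summable_nat_add_iff 1]
    exact y.summable
  let T : Ell Y →ₗ[ℝ] Y × Ell Y :=
    { toFun := fun y => (y 0, Ell.mk (fun n => y (n + 1)) (hs y))
      map_add' := fun y z => by
        refine Prod.ext rfl ?_
        ext n; rfl
      map_smul' := fun t y => by
        refine Prod.ext rfl ?_
        ext n; rfl }
  let S : Y × Ell Y →ₗ[ℝ] Ell Y :=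
    { toFun := fun p => Ell.mk (consFn p.1 (fun k => p.2 k)) (hc p.1 p.2)
      map_add' := fun y z => by
        ext n
        cases n <;> rfl
      map_smul' := fun t y => by
        ext n
        cases n <;> rfl }
  refine PIso.of_maps T S ⟨2, fun y => ?_⟩ ⟨2, fun y => ?_⟩ ?_ ?_
  · have a1 := norm_prod_le (T y).1 (T y).2
    have a2 : ‖(T y).1‖ ≤ ‖y‖ := y.norm_apply_le 0
    have a3 : ‖(T y).2‖ ≤ ‖y‖ := by
      rw [Ell.norm_def, Ell.norm_def]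
      have := y.summable.sum_add_tsum_nat_add 1
      simp only [Finset.range_one, Finset.sum_singleton] at this
      have h0 : 0 ≤ ‖y 0‖ := norm_nonneg _
      have h1 : ∑' n, ‖(T y).2 n‖ = ∑' n, ‖y (n + 1)‖ := rfl
      rw [h1]
      linarith
    calc ‖T y‖ ≤ ‖(T y).1‖ + ‖(T y).2‖ := a1
      _ ≤ 2 * ‖y‖ := by linarith
  · have h0 : ‖S y‖ = ‖y.1‖ + ‖y.2‖ := by
      rw [Ell.norm_def, Ell.norm_def]
      have := (S y).summable.sum_add_tsum_nat_add 1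
      simp only [Finset.range_one, Finset.sum_singleton] at this
      rw [← this]
      rfl
    rw [h0]
    linarith [norm_fst_le y, norm_snd_le y]
  · rintro ⟨a, y⟩
    refine Prod.ext rfl ?_
    ext n; rfl
  · intro y
    ext n
    cases n <;> rfl

instance : BddSMul (Y × Z) where
  bdd t := by
    obtain ⟨C, hC0, hC⟩ := BddSMul.bdd' (Y := Y) t
    obtain ⟨D, hD0, hD⟩ := BddSMul.bdd' (Y := Z) t
    refine ⟨C + D, fun y => ?_⟩
    have a1 : ‖t • y.1‖ ≤ C * ‖y‖ := (hC y.1).trans (mul_le_mul_of_nonneg_left (norm_fst_le y) hC0)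
    have a2 : ‖t • y.2‖ ≤ D * ‖y‖ := (hD y.2).trans (mul_le_mul_of_nonneg_left (norm_snd_le y) hD0)
    have a3 := norm_prod_le (t • y.1) (t • y.2)
    calc ‖t • y‖ = ‖(t • y.1, t • y.2)‖ := rfl
      _ ≤ (C + D) * ‖y‖ := by linarith

lemma PIso.ell_prod : PIso (Ell (Y × Z)) (Ell Y × Ell Z) := by
  have h1 : ∀ y : Ell (Y × Z), Summable (fun n => ‖(y n).1‖) := fun y =>
    Summable.of_nonneg_of_le (fun _ => norm_nonneg _) (fun n => norm_fst_le (y n)) y.summable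
  have h2 : ∀ y : Ell (Y × Z), Summable (fun n => ‖(y n).2‖) := fun y =>
    Summable.of_nonneg_of_le (fun _ => norm_nonneg _) (fun n => norm_snd_le (y n)) y.summable
  have h3 : ∀ (y : Ell Y) (z : Ell Z), Summable (fun n => ‖(y n, z n)‖) := fun y z =>
    Summable.of_nonneg_of_le (fun _ => norm_nonneg _) (fun n => norm_prod_le (y n) (z n))
      (y.summable.add z.summable)
  let T : Ell (Y × Z) →ₗ[ℝ] Ell Y × Ell Z :=
    { toFun := fun y => (Ell.mk (fun n => (y n).1) (h1 y), Ell.mk (fun n => (y n).2) (h2 y))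
      map_add' := fun y z => by
        refine Prod.ext ?_ ?_ <;> (ext n; rfl)
      map_smul' := fun t y => by
        refine Prod.ext ?_ ?_ <;> (ext n; rfl) }
  let S : Ell Y × Ell Z →ₗ[ℝ] Ell (Y × Z) :=
    { toFun := fun p => Ell.mk (fun n => (p.1 n, p.2 n)) (h3 p.1 p.2)
      map_add' := fun y z => by ext n <;> rfl
      map_smul' := fun t y => by ext n <;> rfl }
  refine PIso.of_maps T S ⟨2, fun y => ?_⟩ ⟨2, fun y => ?_⟩ ?_ ?_
  · have a1 := norm_prod_le (T y).1 (T y).2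
    have a2 : ‖(T y).1‖ ≤ ‖y‖ := by
      rw [Ell.norm_def, Ell.norm_def]
      exact (h1 y).tsum_le_tsum (fun n => norm_fst_le (y n)) y.summable
    have a3 : ‖(T y).2‖ ≤ ‖y‖ := by
      rw [Ell.norm_def, Ell.norm_def]
      exact (h2 y).tsum_le_tsum (fun n => norm_snd_le (y n)) y.summable
    calc ‖T y‖ ≤ ‖(T y).1‖ + ‖(T y).2‖ := a1
      _ ≤ 2 * ‖y‖ := by linarith
  · have h0 : ‖S y‖ ≤ ‖y.1‖ + ‖y.2‖ := by
      rw [Ell.norm_def, Ell.norm_def, Ell.norm_def, ← y.1.summable.tsum_add y.2.summable]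
      exact (h3 y.1 y.2).tsum_le_tsum (fun n => norm_prod_le (y.1 n) (y.2 n))
        (y.1.summable.add y.2.summable)
    linarith [norm_fst_le y, norm_snd_le y]
  · rintro ⟨a, y⟩
    refine Prod.ext ?_ ?_ <;> (ext n; rfl)
  · intro y
    ext n <;> rfl

/-- `ℓ(ℓ(Y)) ≅ ℓ(Y)` -/
lemma PIso.ell_ell : PIso (Ell (Ell Y)) (Ell Y) := by
  -- double summability
  have key : ∀ w : Ell (Ell Y), Summable (fun q : ℕ × ℕ => ‖w q.1 q.2‖) := by
    intro w
    rw [summable_prod_of_nonneg (fun _ => norm_nonneg _)]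
    refine ⟨fun m => (w m).summable, ?_⟩
    have : (fun m => ∑' k, ‖w m k‖) = fun m => ‖w m‖ := by
      funext m; rw [Ell.norm_def]
    simpa [this] using w.summable
  have hn : ∀ w : Ell (Ell Y), ∑' q : ℕ × ℕ, ‖w q.1 q.2‖ = ‖w‖ := by
    intro w
    rw [(key w).tsum_prod' (fun m => (w m).summable), Ell.norm_def]
    exact tsum_congr fun m => (Ell.norm_def (w m)).symm
  have hk : ∀ w : Ell (Ell Y), Summable (fun n : ℕ => ‖w (Nat.unpair n).1 (Nat.unpair n).2‖) := by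
    intro w
    have := (Nat.pairEquiv.symm.summable_iff (f := fun q : ℕ × ℕ => ‖w q.1 q.2‖)).2 (key w)
    exact this
  have hb : ∀ y : Ell Y, Summable (fun q : ℕ × ℕ => ‖y (Nat.pair q.1 q.2)‖) := by
    intro y
    have := (Nat.pairEquiv.summable_iff (f := fun n : ℕ => ‖y n‖)).2 y.summable
    exact this
  have hb1 : ∀ (y : Ell Y) (m : ℕ), Summable (fun k => ‖y (Nat.pair m k)‖) := by
    intro y m
    exact ((summable_prod_of_nonneg (fun _ => norm_nonneg _)).1 (hb y)).1 m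
  have hb2 : ∀ (y : Ell Y), Summable (fun m => ‖Ell.mk (fun k => y (Nat.pair m k)) (hb1 y m)‖) := by
    intro y
    have := ((summable_prod_of_nonneg (fun _ => norm_nonneg _)).1 (hb y)).2
    refine this.congr fun m => ?_
    rw [Ell.norm_def]; rfl
  let T : Ell (Ell Y) →ₗ[ℝ] Ell Y :=
    { toFun := fun w => Ell.mk (fun n => w (Nat.unpair n).1 (Nat.unpair n).2) (hk w)
      map_add' := fun y z => by ext n; rfl
      map_smul' := fun t y => by ext n; rfl }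
  let S : Ell Y →ₗ[ℝ] Ell (Ell Y) :=
    { toFun := fun y => Ell.mk (fun m => Ell.mk (fun k => y (Nat.pair m k)) (hb1 y m)) (hb2 y)
      map_add' := fun y z => by ext m k; rfl
      map_smul' := fun t y => by ext m k; rfl }
  have hTn : ∀ w, ‖T w‖ = ‖w‖ := by
    intro w
    rw [← hn w, Ell.norm_def]
    exact Nat.pairEquiv.symm.tsum_eq (fun q : ℕ × ℕ => ‖w q.1 q.2‖)
  have hTS : ∀ y, T (S y) = y := by
    intro y
    ext n
    show y (Nat.pair (Nat.unpair n).1 (Nat.unpair n).2) = y n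
    rw [Nat.pair_unpair]
  refine PIso.of_maps T S ⟨1, fun y => by rw [hTn, one_mul]⟩ ⟨1, fun y => ?_⟩ hTS ?_
  · rw [← hTn, hTS, one_mul]
  · intro w
    ext m k
    show w (Nat.unpair (Nat.pair m k)).1 (Nat.unpair (Nat.pair m k)).2 = w m k
    rw [Nat.unpair_pair]

end isos

/-- Pełczyński's decomposition method. -/
theorem PIso.pelczynski {F : Type u} {Y : Type v} [NormedAddCommGroup F] [Module ℝ F] [BddSMul F]
    [NormedAddCommGroup Y] [Module ℝ Y] [BddSMul Y]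
    (S : F →ₗ[ℝ] Y) (R : Y →ₗ[ℝ] F) (hS : Bdd S) (hR : Bdd R) (hRS : ∀ v, R (S v) = v)
    (U : Y →ₗ[ℝ] F) (W : F →ₗ[ℝ] Y) (hU : Bdd U) (hW : Bdd W) (hWU : ∀ y, W (U y) = y)
    (hY : PIso Y (Ell Y)) : PIso F (Ell F) := by
  have h1 : PIso Y (F × LinearMap.ker R) := PIso.split R S hR hS hRS
  have h2 : PIso F (Y × LinearMap.ker W) := PIso.split W U hW hU hWU
  -- `ℓ(Y) ≅ F × ℓ(Y)`
  have h3 : PIso (Ell Y) (F × Ell Y) := by
    have a1 : PIso (Ell Y) (Ell F × Ell (LinearMap.ker R)) := (PIso.ell h1).trans PIso.ell_prod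
    have a2 : PIso (Ell Y) ((F × Ell F) × Ell (LinearMap.ker R)) :=
      a1.trans (PIso.prod PIso.ell_cons PIso.refl)
    exact a2.trans (PIso.prodAssoc.trans (PIso.prod PIso.refl a1.symm))
  have h4 : PIso Y (F × Y) := hY.trans (h3.trans (PIso.prod PIso.refl hY.symm))
  have h5 : PIso Y (Y × Y) := hY.trans (PIso.ell_cons.trans (PIso.prod PIso.refl hY.symm))
  have h6 : PIso F (Y × F) :=
    h2.trans ((PIso.prod h5 PIso.refl).trans (PIso.prodAssoc.trans (PIso.prod PIso.refl h2.symm)))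
  have h7 : PIso F Y := h6.trans (PIso.prodComm.trans h4.symm)
  exact h7.trans (hY.trans (PIso.ell h7.symm))

end Pool.Agent.Helper25.PSpace
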