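import Pool.Agent.Helper25.PSpace

set_option autoImplicit false
set_option linter.unusedSectionVars false

namespace Pool.Agent.Helper25.PSpace

universe u v w

section single
variable {Y : Type u} [NormedAddCommGroup Y] [Module ℝ Y] [BddSMul Y]

lemma summable_single (n : ℕ) (y : Y) : Summable (fun k => ‖(Pi.single n y : ℕ → Y) k‖) := by
  refine summable_of_ne_finset_zero (s := {n}) fun k hk => ?_
  have : k ≠ n := by simpa using hk
  simp [Pi.single_apply, this]

/-- the sequence with one nonzero entry, as a linear map -/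
noncomputable def Ell.single (n : ℕ) : Y →ₗ[ℝ] Ell Y where
  toFun y := Ell.mk (Pi.single n y) (summable_single n y)
  map_add' y z := by ext k; simp [Pi.single_add]
  map_smul' t y := by ext k; simp [Pi.single_smul]

lemma Ell.single_apply (n k : ℕ) (y : Y) : Ell.single n y k = if k = n then y else 0 := by
  simp [Ell.single, Pi.single_apply]

@[simp] lemma Ell.single_same (n : ℕ) (y : Y) : Ell.single n y n = y := by simp [Ell.single_apply]

lemma Ell.single_ne {n k : ℕ} (h : k ≠ n) (y : Y) : Ell.single n y k = 0 := by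
  simp [Ell.single_apply, h]

lemma Ell.norm_single (n : ℕ) (y : Y) : ‖Ell.single n y‖ = ‖y‖ := by
  rw [Ell.norm_def, tsum_eq_single n]
  · simp
  · intro k hk; rw [Ell.single_ne hk]; simp

lemma Ell.single_bdd (n : ℕ) : Bdd (Ell.single (Y := Y) n) := ⟨1, fun y => by rw [Ell.norm_single, one_mul]⟩

/-- evaluation -/
noncomputable def Ell.ev (n : ℕ) : Ell Y →ₗ[ℝ] Y where
  toFun y := y n
  map_add' _ _ := rfl
  map_smul' _ _ := rfl

@[simp] lemma Ell.ev_apply (n : ℕ) (y : Ell Y) : Ell.ev n y = y n := rfl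

lemma Ell.ev_bdd (n : ℕ) : Bdd (Ell.ev (Y := Y) n) := ⟨1, fun y => by simpa using y.norm_apply_le n⟩

end single

lemma Bdd.continuous {Y : Type u} {Z : Type v} [NormedAddCommGroup Y] [Module ℝ Y]
    [NormedAddCommGroup Z] [Module ℝ Z] {T : Y →ₗ[ℝ] Z} (h : Bdd T) : Continuous T := by
  obtain ⟨C, hC0, hC⟩ := h.nonneg_const
  have : LipschitzWith ⟨C, hC0⟩ T := by
    refine LipschitzWith.of_dist_le_mul fun a b => ?_
    rw [dist_eq_norm, dist_eq_norm, ← map_sub]
    exact hC _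
  exact this.continuous

lemma Bdd.map_tsum {Y : Type u} {Z : Type v} [NormedAddCommGroup Y] [Module ℝ Y]
    [NormedAddCommGroup Z] [Module ℝ Z] {T : Y →ₗ[ℝ] Z} (h : Bdd T) {f : ℕ → Y}
    (hf : Summable f) : T (∑' n, f n) = ∑' n, T (f n) :=
  hf.map_tsum T.toAddMonoidHom h.continuous

/-- A Lipschitz free `p`-space, in terms of the `p`-th power `‖·‖ = q^p` of the `p`-norm. -/
structure FreeN (p : ℝ) (M : Type u) [MetricSpace M] (o : M) (F : Type u) [NormedAddCommGroup F]
    [Module ℝ F] (δ : M → F) : Prop where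
  hom : PHom p F
  complete : CompleteSpace F
  iso : ∀ x y, ‖δ x - δ y‖ = dist x y ^ p
  base : δ o = 0
  lift : ∀ (Y : Type u) [NormedAddCommGroup Y] [Module ℝ Y], PHom p Y → CompleteSpace Y →
    ∀ (f : M → Y) (L : ℝ), 0 ≤ L → f o = 0 → (∀ x y, ‖f x - f y‖ ≤ L * dist x y ^ p) →
    ∃ T : F →ₗ[ℝ] Y, (∀ v, ‖T v‖ ≤ L * ‖v‖) ∧ ∀ x, T (δ x) = f x
  uniq : ∀ (Y : Type u) [NormedAddCommGroup Y] [Module ℝ Y], PHom p Y → CompleteSpace Y →
    ∀ T S : F →ₗ[ℝ] Y, Bdd T → Bdd S → (∀ x, T (δ x) = S (δ x)) → T = S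

/-- Data used in the proof: a metric space `M` with retractions `π k`, embeddings `ι m k`,
cut-off functions, etc. -/
structure NetData (p : ℝ) (M : Type u) [MetricSpace M] (o : M) where
  C : ℝ
  C_nonneg : 0 ≤ C
  /-- the balls -/
  B : ℕ → Set M
  /-- retraction onto `B k` -/
  π : ℕ → M → M
  π_mem : ∀ k x, π k x ∈ B k
  π_id : ∀ k x, x ∈ B k → π k x = x
  o_mem : ∀ k, o ∈ B k
  π_lip : ∀ k x y, dist (π k x) (π k y) ^ p ≤ C * dist x y ^ p
  /-- partition of unity -/
  ψ : ℕ → M → ℝ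
  ψ_mem : ∀ k x, ψ k x ≠ 0 → x ∈ B k
  n : M → ℕ
  ψ_supp : ∀ k x, ψ k x ≠ 0 → k = n x ∨ k = n x + 1
  ψ_sum : ∀ x, ψ (n x) x + ψ (n x + 1) x = 1
  ψ_le : ∀ k x, |ψ k x| ^ p ≤ C
  ψ_lip : ∀ k x y, dist y o ≤ dist x o → |ψ k x - ψ k y| ^ p * dist y o ^ p ≤ C * dist x y ^ p
  /-- embeddings of the balls around far away points -/
  ι : ℕ → ℕ → M → M
  ι_lip : ∀ m k x y, dist (ι m k x) (ι m k y) ^ p ≤ C * dist x y ^ p
  /-- left inverses of the embeddings -/
  ρ : ℕ → ℕ → M → M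
  ρ_mem : ∀ m k z, ρ m k z ∈ B k
  ρ_ι : ∀ m k x, x ∈ B k → ρ m k (ι m k x) = x
  ρ_lip : ∀ m k x y, dist (ρ m k x) (ρ m k y) ^ p ≤ C * dist x y ^ p
  /-- cut-off functions -/
  φ : ℕ → ℕ → M → ℝ
  φ_ι : ∀ m k x, x ∈ B k → φ m k (ι m k x) = 1
  φ_o : ∀ m k, φ m k o = 0
  φ_le : ∀ m k z, |φ m k z| ^ p ≤ 1
  φ_lip : ∀ m k x y, |φ m k x - φ m k y| ^ p * dist (ρ m k x) o ^ p ≤ C * dist x y ^ p
  φ_disj : ∀ m k m' k' z, φ m k z ≠ 0 → φ m' k' z ≠ 0 → m = m' ∧ k = k'


section main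
variable {p : ℝ} {M : Type u} [MetricSpace M] {o : M} {F : Type u} [NormedAddCommGroup F]
    [Module ℝ F] {δ : M → F}

lemma FreeN.norm_δ (H : FreeN p M o F δ) (x : M) : ‖δ x‖ = dist x o ^ p := by
  have := H.iso x o
  rwa [H.base, sub_zero] at this

lemma dist_rpow_nonneg (x y : M) (p : ℝ) : 0 ≤ dist x y ^ p := Real.rpow_nonneg dist_nonneg p

lemma exists_P (H : FreeN p M o F δ) (D : NetData p M o) (k : ℕ) :
    ∃ T : F →ₗ[ℝ] F, (∀ v, ‖T v‖ ≤ D.C * ‖v‖) ∧ ∀ x, T (δ x) = δ (D.π k x) :=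
  H.lift F H.hom H.complete (fun x => δ (D.π k x)) D.C D.C_nonneg
    (by rw [D.π_id k o (D.o_mem k), H.base]) (fun x y => by rw [H.iso]; exact D.π_lip k x y)

/-- projections -/
noncomputable def P (H : FreeN p M o F δ) (D : NetData p M o) (k : ℕ) : F →ₗ[ℝ] F :=
  (exists_P H D k).choose

lemma P_le (H : FreeN p M o F δ) (D : NetData p M o) (k : ℕ) (v : F) : ‖P H D k v‖ ≤ D.C * ‖v‖ :=
  (exists_P H D k).choose_spec.1 v

lemma P_δ (H : FreeN p M o F δ) (D : NetData p M o) (k : ℕ) (x : M) :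
    P H D k (δ x) = δ (D.π k x) := (exists_P H D k).choose_spec.2 x

lemma P_bdd (H : FreeN p M o F δ) (D : NetData p M o) (k : ℕ) : Bdd (P H D k) := ⟨D.C, P_le H D k⟩

lemma P_P (H : FreeN p M o F δ) (D : NetData p M o) (k : ℕ) (v : F) :
    P H D k (P H D k v) = P H D k v := by
  have : P H D k ∘ₗ P H D k = P H D k := by
    refine H.uniq F H.hom H.complete _ _ ((P_bdd H D k).comp (P_bdd H D k)) (P_bdd H D k) fun x => ?_
    simp only [LinearMap.comp_apply, P_δ]
    rw [D.π_id k _ (D.π_mem k x)]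
  exact congrArg (fun T : F →ₗ[ℝ] F => T v) this

/-- The subspace `E = ⊕ₖ F(B k)` of `ℓ(F)`. -/
noncomputable def Esub [BddSMul F] (H : FreeN p M o F δ) (D : NetData p M o) : Submodule ℝ (Ell F) where
  carrier := {y | ∀ k, P H D k (y k) = y k}
  add_mem' := by
    intro y z hy hz k
    simp only [Set.mem_ofPred_eq] at hy hz
    simp [hy k, hz k]
  zero_mem' := by intro k; simp
  smul_mem' := by
    intro t y hy k
    simp only [Set.mem_ofPred_eq] at hy
    simp [hy k]

lemma mem_Esub [BddSMul F] (H : FreeN p M o F δ) (D : NetData p M o) (y : Ell F) :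
    y ∈ Esub H D ↔ ∀ k, P H D k (y k) = y k := Iff.rfl

lemma Esub_complete [BddSMul F] (H : FreeN p M o F δ) (D : NetData p M o) :
    CompleteSpace (Esub H D) := by
  haveI := H.complete
  have hcl : IsClosed ((Esub H D : Submodule ℝ (Ell F)) : Set (Ell F)) := by
    have : ((Esub H D : Submodule ℝ (Ell F)) : Set (Ell F)) =
        ⋂ k, {y : Ell F | P H D k (Ell.ev k y) = Ell.ev k y} := by
      ext y
      simp [mem_Esub]
    rw [this]
    refine isClosed_iInter fun k => isClosed_eq ?_ ?_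
    · exact (P_bdd H D k).continuous.comp (Ell.ev_bdd k).continuous
    · exact (Ell.ev_bdd k).continuous
  exact hcl.completeSpace_coe

/-- membership of `single k v` -/
lemma single_mem [BddSMul F] (H : FreeN p M o F δ) (D : NetData p M o) (k : ℕ) (v : F)
    (hv : P H D k v = v) : Ell.single k v ∈ Esub H D := by
  intro j
  by_cases h : j = k
  · subst h; simpa using hv
  · rw [Ell.single_ne h, map_zero]

lemma P_smul_δ (H : FreeN p M o F δ) (D : NetData p M o) (k : ℕ) (t : ℝ) (x : M)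
    (h : t ≠ 0 → x ∈ D.B k) : P H D k (t • δ x) = t • δ x := by
  by_cases ht : t = 0
  · simp [ht]
  · rw [map_smul, P_δ, D.π_id k x (h ht)]

section Amap
variable (D : NetData p M o) (hp : 0 < p)
include hp

lemma A_term_zero {k : ℕ} {x : M} (hk : k ≠ D.n x ∧ k ≠ D.n x + 1) : D.ψ k x = 0 := by
  by_contra h
  rcases D.ψ_supp k x h with h1 | h1
  · exact hk.1 h1
  · exact hk.2 h1

lemma A_term_bound (H : FreeN p M o F δ) (k : ℕ) (x y : M) :
    ‖D.ψ k x • δ x - D.ψ k y • δ y‖ ≤ 2 * D.C * dist x y ^ p := by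
  have key : ∀ x y : M, dist y o ≤ dist x o →
      ‖D.ψ k x • δ x - D.ψ k y • δ y‖ ≤ 2 * D.C * dist x y ^ p := by
    intro x y hxy
    have e : D.ψ k x • δ x - D.ψ k y • δ y = (D.ψ k x - D.ψ k y) • δ y + D.ψ k x • (δ x - δ y) := by
      rw [sub_smul, smul_sub]; abel
    rw [e]
    refine (norm_add_le _ _).trans ?_
    rw [H.hom, H.hom, H.norm_δ, H.iso]
    have h1 := D.ψ_lip k x y hxy
    have h2 : |D.ψ k x| ^ p * dist x y ^ p ≤ D.C * dist x y ^ p :=
      mul_le_mul_of_nonneg_right (D.ψ_le k x) (dist_rpow_nonneg _ _ _)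
    linarith
  rcases le_total (dist y o) (dist x o) with h | h
  · exact key x y h
  · rw [norm_sub_rev, dist_comm]
    exact key y x h

lemma A_summable (x : M) : Summable (fun k => ‖D.ψ k x • δ x‖) := by
  refine summable_of_ne_finset_zero (s := {D.n x, D.n x + 1}) fun k hk => ?_
  have : D.ψ k x = 0 := A_term_zero D hp (by simpa [not_or] using hk)
  simp [this]

lemma exists_A (H : FreeN p M o F δ) [BddSMul F] : ∃ T : F →ₗ[ℝ] Esub H D, (∀ v, ‖T v‖ ≤ 8 * D.C * ‖v‖) ∧
    ∀ x k, ((T (δ x) : Esub H D) : Ell F) k = D.ψ k x • δ x := by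
  haveI := H.complete
  have hmem : ∀ x, Ell.mk (fun k => D.ψ k x • δ x) (A_summable D hp x) ∈ Esub H D := by
    intro x k
    exact P_smul_δ H D k _ x (D.ψ_mem k x)
  obtain ⟨T, hT1, hT2⟩ := H.lift (Esub H D) (H.hom.ell.submodule _) (Esub_complete H D)
    (fun x => ⟨Ell.mk (fun k => D.ψ k x • δ x) (A_summable D hp x), hmem x⟩) (8 * D.C)
    (by have := D.C_nonneg; positivity)
    (by
      apply Subtype.ext
      ext k
      show D.ψ k o • δ o = 0
      rw [H.base, smul_zero])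
    (by
      intro x y
      show ‖(Ell.mk (fun k => D.ψ k x • δ x) (A_summable D hp x) -
        Ell.mk (fun k => D.ψ k y • δ y) (A_summable D hp y) : Ell F)‖ ≤ _
      rw [Ell.norm_def]
      have hz : ∀ k ∉ ({D.n x, D.n x + 1, D.n y, D.n y + 1} : Finset ℕ),
          ‖(Ell.mk (fun k => D.ψ k x • δ x) (A_summable D hp x) -
            Ell.mk (fun k => D.ψ k y • δ y) (A_summable D hp y) : Ell F) k‖ = 0 := by
        intro k hk
        simp only [Finset.mem_insert, Finset.mem_singleton, not_or] at hk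
        rw [Ell.sub_apply, Ell.mk_apply, Ell.mk_apply, A_term_zero D hp ⟨hk.1, hk.2.1⟩,
          A_term_zero D hp ⟨hk.2.2.1, hk.2.2.2⟩]
        simp
      rw [tsum_eq_sum hz]
      have hb : ∀ k ∈ ({D.n x, D.n x + 1, D.n y, D.n y + 1} : Finset ℕ),
          ‖(Ell.mk (fun k => D.ψ k x • δ x) (A_summable D hp x) -
            Ell.mk (fun k => D.ψ k y • δ y) (A_summable D hp y) : Ell F) k‖
            ≤ 2 * D.C * dist x y ^ p := fun k _ => A_term_bound D hp H k x y
      have h4 : ({D.n x, D.n x + 1, D.n y, D.n y + 1} : Finset ℕ).card ≤ 4 := Finset.card_le_four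
      calc _ ≤ ({D.n x, D.n x + 1, D.n y, D.n y + 1} : Finset ℕ).card • (2 * D.C * dist x y ^ p) :=
            Finset.sum_le_card_nsmul _ _ _ hb
        _ ≤ 4 • (2 * D.C * dist x y ^ p) := by
            apply nsmul_le_nsmul_left _ h4
            have := D.C_nonneg
            have := dist_rpow_nonneg x y p
            positivity
        _ = 8 * D.C * dist x y ^ p := by rw [nsmul_eq_mul]; push_cast; ring)
  refine ⟨T, hT1, fun x k => ?_⟩
  rw [hT2]
  rfl

end Amap


/-- The sum map `E → F`. -/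
noncomputable def Rmap [BddSMul F] [CompleteSpace F] (H : FreeN p M o F δ) (D : NetData p M o) :
    Esub H D →ₗ[ℝ] F :=
  (Ell.sum (fun _ => (LinearMap.id : F →ₗ[ℝ] F)) 1 (fun _ y => by simp)) ∘ₗ (Esub H D).subtype

lemma Rmap_bdd [BddSMul F] [CompleteSpace F] (H : FreeN p M o F δ) (D : NetData p M o) :
    Bdd (Rmap H D) :=
  ⟨1, fun y => Ell.sum_norm_le (fun _ => (LinearMap.id : F →ₗ[ℝ] F)) 1 (fun _ y => by simp) (y : Ell F)⟩

lemma Rmap_A [BddSMul F] [CompleteSpace F] (H : FreeN p M o F δ) (D : NetData p M o) (hp : 0 < p)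
    (A : F →ₗ[ℝ] Esub H D) (hA : Bdd A)
    (hA' : ∀ x k, ((A (δ x) : Esub H D) : Ell F) k = D.ψ k x • δ x) (v : F) :
    Rmap H D (A v) = v := by
  have : Rmap H D ∘ₗ A = LinearMap.id := by
    refine H.uniq F H.hom H.complete _ _ ((Rmap_bdd H D).comp hA) Bdd.id fun x => ?_
    show ∑' k, ((A (δ x) : Esub H D) : Ell F) k = δ x
    simp only [hA']
    have hz : ∀ k ∉ ({D.n x, D.n x + 1} : Finset ℕ), D.ψ k x • δ x = 0 := by
      intro k hk
      rw [A_term_zero D hp (by simpa [not_or] using hk), zero_smul]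
    rw [tsum_eq_sum hz, Finset.sum_pair (by omega), ← add_smul, D.ψ_sum, one_smul]
  exact congrArg (fun T : F →ₗ[ℝ] F => T v) this

lemma exists_S (H : FreeN p M o F δ) (D : NetData p M o) (hp : 0 < p) (m k : ℕ) :
    ∃ T : F →ₗ[ℝ] F, (∀ v, ‖T v‖ ≤ (D.C * D.C) * ‖v‖) ∧
      ∀ x, T (δ x) = δ (D.ι m k (D.π k x)) - δ (D.ι m k o) :=
  H.lift F H.hom H.complete (fun x => δ (D.ι m k (D.π k x)) - δ (D.ι m k o)) (D.C * D.C)
    (mul_nonneg D.C_nonneg D.C_nonneg)
    (by rw [D.π_id k o (D.o_mem k), sub_self]) (fun x y => by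
      rw [sub_sub_sub_cancel_right, H.iso]
      calc dist (D.ι m k (D.π k x)) (D.ι m k (D.π k y)) ^ p ≤ D.C * dist (D.π k x) (D.π k y) ^ p :=
            D.ι_lip m k _ _
        _ ≤ D.C * (D.C * dist x y ^ p) := mul_le_mul_of_nonneg_left (D.π_lip k x y) D.C_nonneg
        _ = D.C * D.C * dist x y ^ p := by ring)

/-- local embedding maps -/
noncomputable def Smap (H : FreeN p M o F δ) (D : NetData p M o) (hp : 0 < p) (m k : ℕ) :
    F →ₗ[ℝ] F := (exists_S H D hp m k).choose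

lemma Smap_le (H : FreeN p M o F δ) (D : NetData p M o) (hp : 0 < p) (m k : ℕ) (v : F) :
    ‖Smap H D hp m k v‖ ≤ (D.C * D.C) * ‖v‖ := (exists_S H D hp m k).choose_spec.1 v

lemma Smap_δ (H : FreeN p M o F δ) (D : NetData p M o) (hp : 0 < p) (m k : ℕ) (x : M) :
    Smap H D hp m k (δ x) = δ (D.ι m k (D.π k x)) - δ (D.ι m k o) :=
  (exists_S H D hp m k).choose_spec.2 x

section Wmap
variable [BddSMul F] [CompleteSpace F] (H : FreeN p M o F δ) (D : NetData p M o) (hp : 0 < p)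

/-- the local piece `h_{m,k} : M → ℓ(E)` -/
noncomputable def hmk (m k : ℕ) (z : M) : Ell (Esub H D) :=
  Ell.single m ⟨Ell.single k (D.φ m k z • δ (D.ρ m k z)),
    single_mem H D k _ (P_smul_δ H D k _ _ (fun _ => D.ρ_mem m k z))⟩

lemma hmk_apply (m k : ℕ) (z : M) (m' k' : ℕ) :
    ((hmk H D m k z m' : Esub H D) : Ell F) k' =
      if m' = m ∧ k' = k then D.φ m k z • δ (D.ρ m k z) else 0 := by
  unfold hmk
  rw [Ell.single_apply]
  by_cases h : m' = m
  · simp only [h, if_true, true_and]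
    exact Ell.single_apply k k' _
  · simp [h]

lemma norm_esub_single (m k : ℕ) (v : F) (hv : Ell.single k v ∈ Esub H D) :
    ‖(Ell.single m (⟨Ell.single k v, hv⟩ : Esub H D) : Ell (Esub H D))‖ = ‖v‖ := by
  rw [Ell.norm_single]
  exact Ell.norm_single k v

include hp in
lemma hmk_lip (m k : ℕ) (x y : M) : ‖hmk H D m k x - hmk H D m k y‖ ≤ 2 * D.C * dist x y ^ p := by
  have e : hmk H D m k x - hmk H D m k y =
      Ell.single m ⟨Ell.single k (D.φ m k x • δ (D.ρ m k x) - D.φ m k y • δ (D.ρ m k y)), by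
        rw [map_sub]
        exact Submodule.sub_mem _ (single_mem H D k _ (P_smul_δ H D k _ _ (fun _ => D.ρ_mem m k x)))
          (single_mem H D k _ (P_smul_δ H D k _ _ (fun _ => D.ρ_mem m k y)))⟩ := by
    unfold hmk
    rw [← map_sub]
    congr 1
    apply Subtype.ext
    simp
  rw [e, norm_esub_single]
  have e2 : D.φ m k x • δ (D.ρ m k x) - D.φ m k y • δ (D.ρ m k y) =
      (D.φ m k x - D.φ m k y) • δ (D.ρ m k x) + D.φ m k y • (δ (D.ρ m k x) - δ (D.ρ m k y)) := by
    rw [sub_smul, smul_sub]; abel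
  rw [e2]
  refine (norm_add_le _ _).trans ?_
  rw [H.hom, H.hom, H.norm_δ, H.iso]
  have h1 := D.φ_lip m k x y
  have h2 : |D.φ m k y| ^ p * dist (D.ρ m k x) (D.ρ m k y) ^ p ≤ D.C * dist x y ^ p := by
    calc |D.φ m k y| ^ p * dist (D.ρ m k x) (D.ρ m k y) ^ p
        ≤ 1 * dist (D.ρ m k x) (D.ρ m k y) ^ p :=
          mul_le_mul_of_nonneg_right (D.φ_le m k y) (dist_rpow_nonneg _ _ _)
      _ = dist (D.ρ m k x) (D.ρ m k y) ^ p := one_mul _
      _ ≤ D.C * dist x y ^ p := D.ρ_lip m k x y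
  linarith

lemma hmk_zero {m k : ℕ} {z : M} (h : D.φ m k z = 0) : hmk H D m k z = 0 := by
  ext m' k'
  rw [hmk_apply, h]
  simp

open Classical in
/-- the global map `M → ℓ(E)` -/
noncomputable def gW (z : M) : Ell (Esub H D) :=
  if h : ∃ q : ℕ × ℕ, D.φ q.1 q.2 z ≠ 0 then hmk H D h.choose.1 h.choose.2 z else 0

lemma gW_of_ne {m k : ℕ} {z : M} (h : D.φ m k z ≠ 0) : gW H D z = hmk H D m k z := by
  have hex : ∃ q : ℕ × ℕ, D.φ q.1 q.2 z ≠ 0 := ⟨(m, k), h⟩
  unfold gW
  rw [dif_pos hex]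
  obtain ⟨h1, h2⟩ := D.φ_disj _ _ _ _ z hex.choose_spec h
  rw [h1, h2]

lemma gW_of_forall {z : M} (h : ∀ m k, D.φ m k z = 0) : gW H D z = 0 := by
  unfold gW
  rw [dif_neg]
  rintro ⟨q, hq⟩
  exact hq (h _ _)

include hp in
lemma gW_lip (x y : M) : ‖gW H D x - gW H D y‖ ≤ (4 * D.C) * dist x y ^ p := by
  have hC := D.C_nonneg
  have hd := dist_rpow_nonneg x y p
  have hCd : 0 ≤ D.C * dist x y ^ p := mul_nonneg hC hd
  by_cases hx : ∃ q : ℕ × ℕ, D.φ q.1 q.2 x ≠ 0
  · obtain ⟨⟨m, k⟩, hx⟩ := hx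
    simp only at hx
    rw [gW_of_ne H D hx]
    by_cases hy : ∃ q : ℕ × ℕ, D.φ q.1 q.2 y ≠ 0
    · obtain ⟨⟨m', k'⟩, hy⟩ := hy
      simp only at hy
      rw [gW_of_ne H D hy]
      by_cases heq : m = m' ∧ k = k'
      · obtain ⟨rfl, rfl⟩ := heq
        have := hmk_lip H D hp m k x y
        linarith
      · have h1 : D.φ m k y = 0 := by
          by_contra h; exact heq (D.φ_disj _ _ _ _ y h hy)
        have h2 : D.φ m' k' x = 0 := by
          by_contra h; exact heq (D.φ_disj _ _ _ _ x hx h)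
        have e : hmk H D m k x - hmk H D m' k' y =
            (hmk H D m k x - hmk H D m k y) + (hmk H D m' k' x - hmk H D m' k' y) := by
          rw [hmk_zero H D h1, hmk_zero H D h2]; simp [sub_eq_add_neg]
        rw [e]
        refine (norm_add_le _ _).trans ?_
        have a1 := hmk_lip H D hp m k x y
        have a2 := hmk_lip H D hp m' k' x y
        linarith
    · push Not at hy
      rw [gW_of_forall H D (fun m k => hy (m, k)), ← hmk_zero H D (hy (m, k))]
      have := hmk_lip H D hp m k x y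
      linarith
  · push Not at hx
    rw [gW_of_forall H D (fun m k => hx (m, k))]
    by_cases hy : ∃ q : ℕ × ℕ, D.φ q.1 q.2 y ≠ 0
    · obtain ⟨⟨m', k'⟩, hy⟩ := hy
      simp only at hy
      rw [gW_of_ne H D hy, ← hmk_zero H D (hx (m', k'))]
      have := hmk_lip H D hp m' k' x y
      linarith
    · push Not at hy
      rw [gW_of_forall H D (fun m k => hy (m, k))]
      simp only [sub_self, norm_zero]
      linarith

include hp in
lemma exists_W : ∃ T : F →ₗ[ℝ] Ell (Esub H D), (∀ v, ‖T v‖ ≤ (4 * D.C) * ‖v‖) ∧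
    ∀ x, T (δ x) = gW H D x := by
  haveI := Esub_complete H D
  exact H.lift (Ell (Esub H D)) (PHom.ell (H.hom.ell.submodule _)) inferInstance (gW H D) (4 * D.C)
    (by have := D.C_nonneg; positivity) (gW_of_forall H D (fun m k => D.φ_o m k))
    (gW_lip H D hp)

end Wmap

/-- **Main abstract theorem.** -/
theorem FreeN.pIso_ell (H : FreeN p M o F δ) (D : NetData p M o) (hp : 0 < p) [BddSMul F] :
    PIso F (Ell F) := by
  haveI : CompleteSpace F := H.complete
  haveI : CompleteSpace (Esub H D) := Esub_complete H D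
  obtain ⟨A, hA1, hA2⟩ := exists_A D hp H
  obtain ⟨W, hW1, hW2⟩ := exists_W H D hp
  have hA : Bdd A := ⟨_, hA1⟩
  have hW : Bdd W := ⟨_, hW1⟩
  -- the maps `U_m : E → F`
  have hS1 : ∀ m k (v : F), ‖Smap H D hp m k v‖ ≤ (D.C * D.C) * ‖v‖ := fun m k v => Smap_le H D hp m k v
  let Um : ℕ → Esub H D →ₗ[ℝ] F := fun m =>
    (Ell.sum (fun k => Smap H D hp m k) (D.C * D.C) (hS1 m)) ∘ₗ (Esub H D).subtype
  have hUm : ∀ m (y : Esub H D), ‖Um m y‖ ≤ (D.C * D.C) * ‖y‖ := fun m y =>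
    Ell.sum_norm_le _ _ (hS1 m) (y : Ell F)
  let U : Ell (Esub H D) →ₗ[ℝ] F := Ell.sum Um (D.C * D.C) hUm
  have hU : Bdd U := Ell.sum_bdd _ _ _
  refine PIso.pelczynski (Y := Ell (Esub H D)) (Ell.single 0 ∘ₗ A) (Rmap H D ∘ₗ Ell.ev 0)
    ((Ell.single_bdd 0).comp hA) ((Rmap_bdd H D).comp (Ell.ev_bdd 0)) ?_ U W hU hW ?_
    (PIso.ell_ell.symm)
  · intro v
    simp only [LinearMap.comp_apply, Ell.ev_apply, Ell.single_same]
    exact Rmap_A H D hp A hA hA2 v
  · intro y
    -- coordinates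
    ext m' k'
    -- the bounded linear map `v ↦ (W v)_{m', k'}`
    let ev : Ell (Esub H D) →ₗ[ℝ] F := Ell.ev k' ∘ₗ (Esub H D).subtype ∘ₗ Ell.ev m'
    have hev : Bdd ev := (Ell.ev_bdd k').comp (Bdd.comp ⟨1, fun y => by simp⟩ (Ell.ev_bdd m'))
    have hWS : ∀ m k (v : F), ev (W (Smap H D hp m k v)) =
        if m' = m ∧ k' = k then P H D k v else 0 := by
      intro m k v
      by_cases hcase : m' = m ∧ k' = k
      · obtain ⟨rfl, rfl⟩ := hcase
        rw [if_pos ⟨rfl, rfl⟩]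
        have : (ev ∘ₗ W) ∘ₗ Smap H D hp m' k' = P H D k' := by
          refine H.uniq F H.hom H.complete _ _ ((hev.comp hW).comp ⟨_, hS1 m' k'⟩)
            (P_bdd H D k') fun x => ?_
          simp only [LinearMap.comp_apply, Smap_δ, map_sub, hW2, P_δ]
          have hx := D.φ_ι m' k' (D.π k' x) (D.π_mem k' x)
          have ho := D.φ_ι m' k' o (D.o_mem k')
          rw [gW_of_ne H D (m := m') (k := k') (by rw [hx]; exact one_ne_zero),
            gW_of_ne H D (m := m') (k := k') (by rw [ho]; exact one_ne_zero)]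
          have e1 : ∀ z, ev (hmk H D m' k' z) = D.φ m' k' z • δ (D.ρ m' k' z) := by
            intro z
            have := hmk_apply H D m' k' z m' k'
            rw [if_pos ⟨rfl, rfl⟩] at this
            exact this
          rw [e1, e1, hx, ho, one_smul, one_smul, D.ρ_ι m' k' _ (D.π_mem k' x),
            D.ρ_ι m' k' o (D.o_mem k'), H.base, sub_zero]
        exact congrArg (fun T : F →ₗ[ℝ] F => T v) this
      · rw [if_neg hcase]
        have : (ev ∘ₗ W) ∘ₗ Smap H D hp m k = 0 := by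
          refine H.uniq F H.hom H.complete _ _ ((hev.comp hW).comp ⟨_, hS1 m k⟩)
            ⟨0, fun y => by simp⟩ fun x => ?_
          simp only [LinearMap.comp_apply, Smap_δ, map_sub, hW2, LinearMap.zero_apply]
          have hx := D.φ_ι m k (D.π k x) (D.π_mem k x)
          have ho := D.φ_ι m k o (D.o_mem k)
          rw [gW_of_ne H D (m := m) (k := k) (by rw [hx]; exact one_ne_zero),
            gW_of_ne H D (m := m) (k := k) (by rw [ho]; exact one_ne_zero)]
          have e1 : ∀ z, ev (hmk H D m k z) = 0 := by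
            intro z
            have := hmk_apply H D m k z m' k'
            rw [if_neg hcase] at this
            exact this
          rw [e1, e1, sub_zero]
        exact congrArg (fun T : F →ₗ[ℝ] F => T v) this
    have hevW : Bdd (ev ∘ₗ W) := hev.comp hW
    have e2 : ((W (U y) m' : Esub H D) : Ell F) k' = (ev ∘ₗ W) (U y) := rfl
    have e3 : ((y m' : Esub H D) : Ell F) k' = P H D k' (((y m' : Esub H D) : Ell F) k') :=
      ((mem_Esub H D _).1 (y m').2 k').symm
    rw [e2, e3]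
    have e4 : U y = ∑' m, Um m (y m) := rfl
    rw [e4, hevW.map_tsum (Ell.summable_map (fun m => Um m) hUm y).of_norm]
    have e5 : ∀ m, (ev ∘ₗ W) (Um m (y m)) = if m = m' then
        P H D k' (((y m' : Esub H D) : Ell F) k') else 0 := by
      intro m
      have e6 : Um m (y m) = ∑' k, Smap H D hp m k (((y m : Esub H D) : Ell F) k) := rfl
      rw [e6, hevW.map_tsum (Ell.summable_map (fun k => Smap H D hp m k) (hS1 m) _).of_norm]
      simp only [LinearMap.comp_apply, hWS]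
      by_cases hm : m = m'
      · subst hm
        rw [if_pos rfl, tsum_eq_single k']
        · simp
        · intro k hk
          rw [if_neg]
          exact fun h => hk h.2.symm
      · rw [if_neg hm]
        convert tsum_zero using 2
        funext k
        rw [if_neg]
        exact fun h => hm h.1.symm
    rw [tsum_congr e5, tsum_ite_eq]

end main

end Pool.Agent.Helper25.PSpace
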