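import Pool.Agent.Helper25.PSpaceMain

set_option autoImplicit false
set_option linter.unusedSectionVars false

namespace Pool.Agent.Helper25.PSpace

universe u v w

section rad
variable {X : Type u} [NormedAddCommGroup X] [NormedSpace ℝ X]

/-- radial retraction onto the ball of radius `R` -/
noncomputable def rad (R : ℝ) (v : X) : X := (R / max R ‖v‖) • v

lemma rad_norm {R : ℝ} (hR : 0 < R) (v : X) : ‖rad R v‖ ≤ R := by
  have hm : 0 < max R ‖v‖ := lt_max_of_lt_left hR
  rw [rad, norm_smul, Real.norm_eq_abs, abs_of_nonneg (by positivity), div_mul_eq_mul_div,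
    div_le_iff₀ hm]
  exact mul_le_mul_of_nonneg_left (le_max_right _ _) hR.le

lemma rad_of_le {R : ℝ} (hR : 0 < R) {v : X} (h : ‖v‖ ≤ R) : rad R v = v := by
  rw [rad, max_eq_left h, div_self hR.ne', one_smul]

lemma rad_lip {R : ℝ} (hR : 0 < R) (v w : X) : ‖rad R v - rad R w‖ ≤ 2 * ‖v - w‖ := by
  have hα : 0 < max R ‖v‖ := lt_max_of_lt_left hR
  have hβ : 0 < max R ‖w‖ := lt_max_of_lt_left hR
  have e : rad R v - rad R w = (R / max R ‖v‖) • (v - w) + (R / max R ‖v‖ - R / max R ‖w‖) • w := by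
    rw [rad, rad, smul_sub, sub_smul]; abel
  rw [e]
  refine (norm_add_le _ _).trans ?_
  rw [norm_smul, norm_smul, Real.norm_eq_abs, Real.norm_eq_abs, abs_of_nonneg (by positivity)]
  have h1 : R / max R ‖v‖ * ‖v - w‖ ≤ 1 * ‖v - w‖ := by
    apply mul_le_mul_of_nonneg_right _ (norm_nonneg _)
    rw [div_le_one hα]; exact le_max_left _ _
  have h2 : |R / max R ‖v‖ - R / max R ‖w‖| * ‖w‖ ≤ ‖v - w‖ := by
    have e2 : R / max R ‖v‖ - R / max R ‖w‖ =
        (R / max R ‖v‖) * ((max R ‖w‖ - max R ‖v‖) / max R ‖w‖) := by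
      field_simp
    rw [e2, abs_mul, abs_of_nonneg (show 0 ≤ R / max R ‖v‖ by positivity), abs_div, abs_of_pos hβ]
    have h3 : |max R ‖w‖ - max R ‖v‖| ≤ ‖v - w‖ := by
      have := abs_max_sub_max_le_abs ‖w‖ ‖v‖ R
      rw [max_comm R, max_comm R]
      refine this.trans ?_
      rw [norm_sub_rev]
      exact abs_norm_sub_norm_le w v
    have h4 : R / max R ‖v‖ ≤ 1 := by rw [div_le_one hα]; exact le_max_left _ _
    have h5 : ‖w‖ / max R ‖w‖ ≤ 1 := by rw [div_le_one hβ]; exact le_max_right _ _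
    calc R / max R ‖v‖ * (|max R ‖w‖ - max R ‖v‖| / max R ‖w‖) * ‖w‖
        = R / max R ‖v‖ * (|max R ‖w‖ - max R ‖v‖| * (‖w‖ / max R ‖w‖)) := by ring
      _ ≤ 1 * (|max R ‖w‖ - max R ‖v‖| * 1) := by gcongr
      _ ≤ ‖v - w‖ := by linarith
  linarith

end rad

section net
variable {X : Type u} [NormedAddCommGroup X] [NormedSpace ℝ X] {N : Set X} (o : N) {a b : ℝ}

lemma exists_close (ha : 0 < a) (hab : a ≤ b) (hden : ∀ x : X, ∃ y : N, ‖x - y‖ ≤ b)
    {R : ℝ} (hR : 0 < R) (u : X) (hu : ‖u - o‖ ≤ R) :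
    ∃ x : N, ‖(x : X) - o‖ ≤ R ∧ ‖u - x‖ ≤ 2 * b := by
  rcases le_total R b with h | h
  · refine ⟨o, by simpa using hR.le, by linarith⟩
  · obtain ⟨x, hx⟩ := hden (o + (1 - b / R) • (u - o))
    have hbR : b / R ≤ 1 := (div_le_one hR).2 h
    have hbR0 : 0 ≤ b / R := by
      have : 0 ≤ b := ha.le.trans hab
      positivity
    refine ⟨x, ?_, ?_⟩
    · have h1 : ‖(1 - b / R) • (u - (o : X))‖ ≤ R - b := by
        rw [norm_smul, Real.norm_eq_abs, abs_of_nonneg (by linarith)]
        calc (1 - b / R) * ‖u - (o : X)‖ ≤ (1 - b / R) * R :=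
              mul_le_mul_of_nonneg_left hu (by linarith)
          _ = R - b := by field_simp
      have e : (x : X) - o = (1 - b / R) • (u - (o : X)) - ((o : X) + (1 - b / R) • (u - o) - x) := by
        abel
      rw [e]
      refine (norm_sub_le _ _).trans ?_
      linarith
    · have e : u - x = (b / R) • (u - (o : X)) + ((o : X) + (1 - b / R) • (u - o) - x) := by
        rw [sub_smul, one_smul]; abel
      rw [e]
      refine (norm_add_le _ _).trans ?_
      have h1 : ‖(b / R) • (u - (o : X))‖ ≤ b := by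
        rw [norm_smul, Real.norm_eq_abs, abs_of_nonneg hbR0]
        calc (b / R) * ‖u - (o : X)‖ ≤ (b / R) * R :=
              mul_le_mul_of_nonneg_left hu hbR0
          _ = b := by field_simp
      linarith

lemma exists_ret (ha : 0 < a) (hab : a ≤ b) (hden : ∀ x : X, ∃ y : N, ‖x - y‖ ≤ b)
    {R : ℝ} (hR : 0 < R) (w : X) :
    ∃ x : N, ‖(x : X) - o‖ ≤ R ∧ ‖(o : X) + rad R (w - o) - x‖ ≤ 2 * b ∧
      ((∃ x' : N, ‖(x' : X) - o‖ ≤ R ∧ ‖(o : X) + rad R (w - o) - x'‖ < a / 2) →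
        ‖(o : X) + rad R (w - o) - x‖ < a / 2) := by
  by_cases h : ∃ x' : N, ‖(x' : X) - o‖ ≤ R ∧ ‖(o : X) + rad R (w - o) - x'‖ < a / 2
  · obtain ⟨x', h1, h2⟩ := h
    exact ⟨x', h1, by linarith, fun _ => h2⟩
  · obtain ⟨x, h1, h2⟩ := exists_close o ha hab hden hR ((o : X) + rad R (w - o))
      (by rw [add_sub_cancel_left]; exact rad_norm hR _)
    exact ⟨x, h1, h2, fun h' => absurd h' h⟩

/-- retraction of `X` onto the points of the net in the ball of radius `R` -/
lemma exists_rho (ha : 0 < a) (hab : a ≤ b) (hsep : ∀ x y : N, x ≠ y → a ≤ ‖(x : X) - y‖)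
    (hden : ∀ x : X, ∃ y : N, ‖x - y‖ ≤ b) {R : ℝ} (hR : 0 < R) :
    ∃ ρ : X → N, (∀ w, ‖(ρ w : X) - o‖ ≤ R) ∧
      (∀ w w', ‖(ρ w : X) - ρ w'‖ ≤ 4 * b + 2 * ‖w - w'‖) ∧
      (∀ (x : N) (w : X), ‖(x : X) - o‖ ≤ R → ‖w - x‖ < a / 4 → ρ w = x) := by
  choose ρ h1 h2 h3 using exists_ret o ha hab hden hR
  refine ⟨ρ, h1, fun w w' => ?_, fun x w hx hw => ?_⟩
  · have e : (ρ w : X) - ρ w' = (rad R (w - o) - rad R (w' - o)) - ((o : X) + rad R (w - o) - ρ w) +
        ((o : X) + rad R (w' - o) - ρ w') := by abel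
    rw [e]
    have a1 := rad_lip hR (w - o) (w' - o)
    rw [sub_sub_sub_cancel_right] at a1
    have a2 := h2 w
    have a3 := h2 w'
    have a4 := norm_add_le ((rad R (w - o) - rad R (w' - o)) - ((o : X) + rad R (w - o) - ρ w))
      ((o : X) + rad R (w' - o) - ρ w')
    have a5 := norm_sub_le (rad R (w - o) - rad R (w' - o)) ((o : X) + rad R (w - o) - ρ w)
    linarith
  · have b1 : ‖(o : X) + rad R (w - o) - x‖ < a / 2 := by
      have e : (o : X) + rad R (w - o) - x = rad R (w - o) - rad R ((x : X) - o) := by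
        rw [rad_of_le hR hx]; abel
      rw [e]
      have a1 := rad_lip hR (w - o) ((x : X) - o)
      rw [sub_sub_sub_cancel_right] at a1
      linarith
    have b2 := h3 w ⟨x, hx, b1⟩
    by_contra hne
    have b3 := hsep (ρ w) x hne
    have e : (ρ w : X) - x = ((o : X) + rad R (w - o) - x) - ((o : X) + rad R (w - o) - ρ w) := by
      abel
    rw [e] at b3
    have := norm_sub_le ((o : X) + rad R (w - o) - x) ((o : X) + rad R (w - o) - ρ w)
    linarith

/-- tent function: `1` on the ball of radius `R`, `0` outside the ball of radius `2R`. -/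
noncomputable def tent (R : ℝ) (t : ℝ) : ℝ := min 1 (max 0 (2 - t / R))

lemma tent_nonneg (R t : ℝ) : 0 ≤ tent R t := le_min zero_le_one (le_max_left _ _)
lemma tent_le_one (R t : ℝ) : tent R t ≤ 1 := min_le_left _ _
lemma tent_eq_one {R t : ℝ} (hR : 0 < R) (h : t ≤ R) : tent R t = 1 := by
  have : t / R ≤ 1 := (div_le_one hR).2 h
  rw [tent, min_eq_left]
  exact le_max_of_le_right (by linarith)
lemma tent_eq_zero {R t : ℝ} (hR : 0 < R) (h : 2 * R ≤ t) : tent R t = 0 := by
  have : 2 ≤ t / R := (le_div_iff₀ hR).2 h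
  rw [tent, max_eq_left (by linarith), min_eq_right zero_le_one]
lemma tent_lip {R : ℝ} (hR : 0 < R) (s t : ℝ) : |tent R s - tent R t| ≤ |s - t| / R := by
  have h1 : |tent R s - tent R t| ≤ |max 0 (2 - s / R) - max 0 (2 - t / R)| := by
    have := abs_min_sub_min_le_max (1 : ℝ) (max 0 (2 - s / R)) 1 (max 0 (2 - t / R))
    rw [sub_self, abs_zero,
      max_eq_right (abs_nonneg (max 0 (2 - s / R) - max 0 (2 - t / R)))] at this
    exact this
  have h2 : |max 0 (2 - s / R) - max 0 (2 - t / R)| ≤ |(2 - s / R) - (2 - t / R)| := by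
    have := abs_max_sub_max_le_abs (2 - s / R) (2 - t / R) 0
    rwa [max_comm _ (0 : ℝ), max_comm _ (0 : ℝ)] at this
  have h3 : (2 - s / R) - (2 - t / R) = -((s - t) / R) := by ring
  rw [h3, abs_neg, abs_div, abs_of_pos hR] at h2
  exact h1.trans h2

lemma rpow_bound {p A K B : ℝ} (hp : 0 < p) (hA : 0 ≤ A) (hK : 0 ≤ K) (hB : 0 ≤ B)
    (h : A ≤ K * B) : A ^ p ≤ K ^ p * B ^ p := by
  rw [← Real.mul_rpow hK hB]
  exact Real.rpow_le_rpow hA h hp.le

/-- scale functions -/
noncomputable def Theta (k : ℕ) (t : ℝ) : ℝ := tent (2 ^ k / 2) t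

noncomputable def Psi : ℕ → ℝ → ℝ
  | 0, t => Theta 0 t
  | (k + 1), t => Theta (k + 1) t - Theta k t

lemma Theta_eq_one {k : ℕ} {t : ℝ} (h : t ≤ 2 ^ k / 2) : Theta k t = 1 := tent_eq_one (by positivity) h
lemma Theta_eq_zero {k : ℕ} {t : ℝ} (h : 2 ^ k ≤ t) : Theta k t = 0 :=
  tent_eq_zero (by positivity) (by linarith)

lemma Psi_eq_zero_of_ge {k : ℕ} {t : ℝ} (h : 2 ^ k ≤ t) : Psi k t = 0 := by
  cases k with
  | zero => exact Theta_eq_zero h
  | succ k =>
    rw [Psi, Theta_eq_zero h, Theta_eq_zero, sub_zero]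
    refine le_trans ?_ h
    exact pow_le_pow_right₀ (by norm_num) (by omega)

lemma Psi_eq_zero_of_le {k : ℕ} {t : ℝ} (h : t ≤ 2 ^ k / 2) : Psi (k + 1) t = 0 := by
  have : (2 : ℝ) ^ k / 2 ≤ 2 ^ (k + 1) / 2 := by
    have : (2 : ℝ) ^ k ≤ 2 ^ (k + 1) := pow_le_pow_right₀ (by norm_num) (by omega)
    linarith
  rw [Psi, Theta_eq_one h, Theta_eq_one (h.trans this), sub_self]

lemma Psi_abs_le (k : ℕ) (t : ℝ) : |Psi k t| ≤ 1 := by
  cases k with
  | zero =>
    show |tent _ t| ≤ 1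
    rw [abs_of_nonneg (tent_nonneg _ _)]
    exact tent_le_one _ _
  | succ k =>
    rw [Psi, abs_le]
    have h1 := tent_nonneg (2 ^ k / 2) t
    have h2 := tent_nonneg (2 ^ (k + 1) / 2) t
    have h3 := tent_le_one (2 ^ k / 2) t
    have h4 := tent_le_one (2 ^ (k + 1) / 2) t
    unfold Theta
    constructor <;> linarith

lemma Theta_lip (k : ℕ) {s t : ℝ} (hst : t ≤ s) (ht : 0 ≤ t) :
    |Theta k s - Theta k t| * t ≤ 2 * |s - t| := by
  rcases le_total (2 ^ k) t with h | h
  · rw [Theta_eq_zero h, Theta_eq_zero (h.trans hst)]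
    simp
  · have h1 := tent_lip (R := 2 ^ k / 2) (by positivity) s t
    have h2 : |Theta k s - Theta k t| * t ≤ |s - t| / (2 ^ k / 2) * 2 ^ k := by
      unfold Theta
      gcongr
    refine h2.trans (le_of_eq ?_)
    field_simp

lemma Psi_lip (k : ℕ) {s t : ℝ} (hst : t ≤ s) (ht : 0 ≤ t) :
    |Psi k s - Psi k t| * t ≤ 4 * |s - t| := by
  cases k with
  | zero =>
    have := Theta_lip 0 hst ht
    have h2 := abs_nonneg (s - t)
    rw [Psi, Psi]
    linarith
  | succ k =>
    have h1 := Theta_lip k hst ht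
    have h2 := Theta_lip (k + 1) hst ht
    have h3 : |Psi (k + 1) s - Psi (k + 1) t| ≤
        |Theta (k + 1) s - Theta (k + 1) t| + |Theta k s - Theta k t| := by
      have e : Psi (k + 1) s - Psi (k + 1) t = (Theta (k + 1) s - Theta (k + 1) t) -
        (Theta k s - Theta k t) := by rw [Psi, Psi]; ring
      rw [e]
      exact abs_sub _ _
    calc |Psi (k + 1) s - Psi (k + 1) t| * t ≤
        (|Theta (k + 1) s - Theta (k + 1) t| + |Theta k s - Theta k t|) * t :=
          mul_le_mul_of_nonneg_right h3 ht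
      _ ≤ 4 * |s - t| := by linarith

/-- The data for a net. -/
theorem exists_netData {p : ℝ} (hp : 0 < p) [Nontrivial X] (ha : 0 < a) (hab : a ≤ b)
    (hsep : ∀ x y : N, x ≠ y → a ≤ ‖(x : X) - y‖)
    (hden : ∀ x : X, ∃ y : N, ‖x - y‖ ≤ b) : Nonempty (NetData p N o) := by
  classical
  obtain ⟨e, he⟩ := exists_norm_eq X (zero_le_one' ℝ)
  have hb : 0 < b := lt_of_lt_of_le ha hab
  choose ν hν using hden
  have hpow : ∀ k : ℕ, (0 : ℝ) < 2 ^ k := fun k => by positivity
  choose ρ ρ1 ρ2 ρ3 using fun k : ℕ => exists_rho o ha hab hsep (fun x => ⟨ν x, hν x⟩) (hpow k)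
  set lam : ℝ := 4 * b / a + 2 with hlam
  have hba : 1 ≤ b / a := (one_le_div ha).2 hab
  have hlam1 : 6 ≤ lam := by rw [hlam, mul_div_assoc]; linarith
  have hlam0 : 0 < lam := by linarith
  set K : ℝ := lam + 4 * b / a + 4 with hK
  have h4ba : 4 ≤ 4 * b / a := by rw [mul_div_assoc]; linarith
  have hK1 : 1 ≤ K := by rw [hK]; linarith
  have hK0 : 0 ≤ K := by linarith
  have hexn : ∀ x : N, ∃ n : ℕ, ‖(x : X) - o‖ ≤ 2 ^ n := fun x => by
    obtain ⟨n, hn⟩ := pow_unbounded_of_one_lt (‖(x : X) - o‖) (show (1 : ℝ) < 2 by norm_num)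
    exact ⟨n, hn.le⟩
  let c : ℕ → ℕ → X := fun m k => o + (8 * (lam + b) * 2 ^ (Nat.pair m k)) • e
  -- distances in the net
  have hdist : ∀ x y : N, dist x y = ‖(x : X) - y‖ := fun x y => by rw [Subtype.dist_eq, dist_eq_norm]
  have hlarge : ∀ x y : N, x ≠ y → b ≤ b / a * ‖(x : X) - y‖ := by
    intro x y hxy
    rw [div_mul_eq_mul_div, le_div_iff₀ ha]
    exact mul_le_mul_of_nonneg_left (hsep x y hxy) hb.le
  have hRpos : ∀ k : ℕ, 0 < lam * 2 ^ k + b := fun k => by positivity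
  have hcR : ∀ m k : ℕ, lam * 2 ^ k + b ≤ (lam + b) * 2 ^ (Nat.pair m k) := by
    intro m k
    have h1 : (2 : ℝ) ^ k ≤ 2 ^ (Nat.pair m k) := pow_le_pow_right₀ (by norm_num) (Nat.right_le_pair m k)
    have h2 : (1 : ℝ) ≤ 2 ^ (Nat.pair m k) := one_le_pow₀ (by norm_num)
    nlinarith
  have hcnorm : ∀ m k : ℕ, ‖c m k - o‖ = 8 * (lam + b) * 2 ^ (Nat.pair m k) := by
    intro m k
    simp only [c, add_sub_cancel_left, norm_smul, he, mul_one, Real.norm_eq_abs]
    exact abs_of_nonneg (by positivity)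
  -- annuli
  have hann : ∀ m k (z : N), tent (lam * 2 ^ k + b) ‖(z : X) - c m k‖ ≠ 0 →
      6 * (lam + b) * 2 ^ (Nat.pair m k) < ‖(z : X) - o‖ ∧
        ‖(z : X) - o‖ < 10 * (lam + b) * 2 ^ (Nat.pair m k) := by
    intro m k z hz
    have h1 : ‖(z : X) - c m k‖ < 2 * (lam * 2 ^ k + b) := by
      by_contra h
      exact hz (tent_eq_zero (hRpos k) (not_lt.1 h))
    have h2 := hcR m k
    have h3 := hcnorm m k
    have e1 : (z : X) - o = (z - c m k) + (c m k - o) := by abel
    have e2 : c m k - o = ((z : X) - o) - (z - c m k) := by abel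
    constructor
    · have := norm_sub_le ((z : X) - o) (z - c m k)
      rw [← e2] at this
      linarith
    · rw [e1]
      have := norm_add_le ((z : X) - c m k) (c m k - o)
      linarith
  refine ⟨{
    C := K ^ p
    C_nonneg := Real.rpow_nonneg hK0 p
    B := fun k => {x | ‖(x : X) - o‖ ≤ 2 ^ k}
    π := fun k x => ρ k x
    π_mem := fun k x => ρ1 k x
    π_id := fun k x hx => ρ3 k x x hx (by simpa using ha)
    o_mem := fun k => by simp
    π_lip := ?_
    ψ := fun k x => Psi k ‖(x : X) - o‖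
    ψ_mem := ?_
    n := fun x => Nat.find (hexn x)
    ψ_supp := ?_
    ψ_sum := ?_
    ψ_le := ?_
    ψ_lip := ?_
    ι := fun m k x => ν (c m k + lam • ((x : X) - o))
    ι_lip := ?_
    ρ := fun m k z => ρ k (o + lam⁻¹ • ((z : X) - c m k))
    ρ_mem := fun m k z => ρ1 k _
    ρ_ι := ?_
    ρ_lip := ?_
    φ := fun m k z => tent (lam * 2 ^ k + b) ‖(z : X) - c m k‖
    φ_ι := ?_
    φ_o := ?_
    φ_le := ?_
    φ_lip := ?_
    φ_disj := ?_ }⟩
  · -- π_lip
    intro k x y
    refine rpow_bound hp dist_nonneg hK0 dist_nonneg ?_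
    by_cases hxy : x = y
    · subst hxy; simp
    · rw [hdist, hdist]
      have h1 := ρ2 k (x : X) y
      have h2 := hlarge x y hxy
      have h3 := norm_nonneg ((x : X) - y)
      calc ‖(ρ k (x : X) : X) - ρ k (y : X)‖ ≤ 4 * b + 2 * ‖(x : X) - y‖ := h1
        _ ≤ (4 * b / a + 2) * ‖(x : X) - y‖ := by
            have : 4 * b / a = 4 * (b / a) := by ring
            rw [this]; nlinarith
        _ ≤ K * ‖(x : X) - y‖ := by
            apply mul_le_mul_of_nonneg_right _ h3
            rw [hK]; linarith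
  · -- ψ_mem
    intro k x hx
    by_contra h
    exact hx (Psi_eq_zero_of_ge (not_le.1 h).le)
  · -- ψ_supp
    intro k x hx
    by_contra h
    push Not at h
    obtain ⟨h1, h2⟩ := h
    have hn := Nat.find_spec (hexn x)
    rcases lt_or_gt_of_ne h1 with h3 | h3
    · have := Nat.find_min (hexn x) h3
      exact hx (Psi_eq_zero_of_ge (not_le.1 this).le)
    · obtain ⟨j, rfl⟩ : ∃ j, k = (Nat.find (hexn x) + 1 + j) + 1 :=
        ⟨k - Nat.find (hexn x) - 2, by omega⟩
      apply hx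
      apply Psi_eq_zero_of_le
      refine hn.trans ?_
      have : (2 : ℝ) ^ (Nat.find (hexn x) + 1) ≤ 2 ^ (Nat.find (hexn x) + 1 + j) :=
        pow_le_pow_right₀ (by norm_num) (by omega)
      rw [pow_succ] at this
      linarith
  · -- ψ_sum
    intro x
    have hn := Nat.find_spec (hexn x)
    have hmin := fun (m : ℕ) (h : m < Nat.find (hexn x)) => Nat.find_min (hexn x) h
    revert hn hmin
    generalize Nat.find (hexn x) = n
    intro hn hmin
    have h1 : Theta (n + 1) ‖(x : X) - o‖ = 1 := Theta_eq_one (by rw [pow_succ]; linarith)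
    cases n with
    | zero => 
      show Psi 0 _ + Psi 1 _ = 1
      rw [Psi, Psi]
      rw [h1]; ring
    | succ n =>
      have h2 := hmin n (by omega)
      show Psi (n + 1) _ + Psi (n + 1 + 1) _ = 1
      rw [Psi, Psi, h1, Theta_eq_zero (k := n) (not_le.1 h2).le]
      ring
  · -- ψ_le
    intro k x
    calc |Psi k ‖(x : X) - o‖| ^ p ≤ 1 ^ p := Real.rpow_le_rpow (abs_nonneg _) (Psi_abs_le _ _) hp.le
      _ ≤ K ^ p := Real.rpow_le_rpow zero_le_one hK1 hp.le
  · -- ψ_lip
    intro k x y hxy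
    rw [← Real.mul_rpow (abs_nonneg _) dist_nonneg]
    refine rpow_bound hp (mul_nonneg (abs_nonneg _) dist_nonneg) hK0 dist_nonneg ?_
    rw [hdist, hdist] at hxy
    rw [hdist, hdist]
    refine (Psi_lip k hxy (norm_nonneg _)).trans ?_
    have h1 : |‖(x : X) - o‖ - ‖(y : X) - o‖| ≤ ‖(x : X) - y‖ := by
      have := abs_norm_sub_norm_le ((x : X) - o) ((y : X) - o)
      rwa [sub_sub_sub_cancel_right] at this
    have h2 : 4 ≤ K := by rw [hK]; linarith
    have h3 := norm_nonneg ((x : X) - y)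
    nlinarith
  · -- ι_lip
    intro m k x y
    refine rpow_bound hp dist_nonneg hK0 dist_nonneg ?_
    by_cases hxy : x = y
    · subst hxy; simp
    · rw [hdist, hdist]
      have h1 := hν (c m k + lam • ((x : X) - o))
      have h2 := hν (c m k + lam • ((y : X) - o))
      have h3 := hlarge x y hxy
      have h4 := norm_nonneg ((x : X) - y)
      have e1 : (ν (c m k + lam • ((x : X) - o)) : X) - ν (c m k + lam • ((y : X) - o)) =
          lam • ((x : X) - y) - (c m k + lam • ((x : X) - o) - ν (c m k + lam • ((x : X) - o))) +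
          (c m k + lam • ((y : X) - o) - ν (c m k + lam • ((y : X) - o))) := by
        simp only [smul_sub]; abel
      rw [e1]
      have h5 := norm_add_le (lam • ((x : X) - y) - (c m k + lam • ((x : X) - o) - ν (c m k + lam • ((x : X) - o))))
        (c m k + lam • ((y : X) - o) - ν (c m k + lam • ((y : X) - o)))
      have h6 := norm_sub_le (lam • ((x : X) - y)) (c m k + lam • ((x : X) - o) - ν (c m k + lam • ((x : X) - o)))
      rw [norm_smul, Real.norm_eq_abs, abs_of_pos hlam0] at h6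
      have h7 : K * ‖(x : X) - y‖ = lam * ‖(x : X) - y‖ + 4 * (b / a * ‖(x : X) - y‖) + 4 * ‖(x : X) - y‖ := by
        rw [hK]; ring
      rw [h7]
      linarith
  · -- ρ_ι
    intro m k x hx
    apply ρ3 k x _ hx
    have h1 := hν (c m k + lam • ((x : X) - o))
    have e1 : (o : X) + lam⁻¹ • ((ν (c m k + lam • ((x : X) - o)) : X) - c m k) - x =
        lam⁻¹ • (-(c m k + lam • ((x : X) - o) - ν (c m k + lam • ((x : X) - o)))) := by
      generalize (ν (c m k + lam • ((x : X) - o)) : X) = y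
      have h0 : -(c m k + lam • ((x : X) - o) - y) = (y - c m k) - lam • ((x : X) - o) := by abel
      rw [h0, smul_sub lam⁻¹ (y - c m k) (lam • ((x : X) - o)), inv_smul_smul₀ hlam0.ne']
      abel
    rw [e1, norm_smul, norm_neg, Real.norm_eq_abs, abs_of_pos (inv_pos.2 hlam0), inv_mul_lt_iff₀ hlam0]
    have h2 : lam * (a / 4) = b + a / 2 := by rw [hlam]; field_simp; ring
    rw [h2]
    linarith
  · -- ρ_lip
    intro m k x y
    refine rpow_bound hp dist_nonneg hK0 dist_nonneg ?_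
    by_cases hxy : x = y
    · subst hxy; simp
    · rw [hdist, hdist]
      have h1 := ρ2 k (o + lam⁻¹ • ((x : X) - c m k)) (o + lam⁻¹ • ((y : X) - c m k))
      have e1 : (o : X) + lam⁻¹ • ((x : X) - c m k) - (o + lam⁻¹ • ((y : X) - c m k)) =
          lam⁻¹ • ((x : X) - y) := by simp only [smul_sub]; abel
      rw [e1, norm_smul, Real.norm_eq_abs, abs_of_pos (inv_pos.2 hlam0)] at h1
      have h2 := hlarge x y hxy
      have h3 := norm_nonneg ((x : X) - y)
      have h4 : lam⁻¹ ≤ 1 := inv_le_one_of_one_le₀ (by linarith)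
      have h5 : lam⁻¹ * ‖(x : X) - y‖ ≤ 1 * ‖(x : X) - y‖ := mul_le_mul_of_nonneg_right h4 h3
      have h7 : K * ‖(x : X) - y‖ = lam * ‖(x : X) - y‖ + 4 * (b / a * ‖(x : X) - y‖) + 4 * ‖(x : X) - y‖ := by
        rw [hK]; ring
      rw [h7]
      have h8 : 0 ≤ lam * ‖(x : X) - y‖ := by positivity
      linarith
  · -- φ_ι
    intro m k x hx
    apply tent_eq_one (hRpos k)
    have h1 := hν (c m k + lam • ((x : X) - o))
    have e1 : (ν (c m k + lam • ((x : X) - o)) : X) - c m k = lam • ((x : X) - o) -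
        (c m k + lam • ((x : X) - o) - ν (c m k + lam • ((x : X) - o))) := by abel
    rw [e1]
    refine (norm_sub_le _ _).trans ?_
    rw [norm_smul, Real.norm_eq_abs, abs_of_pos hlam0]
    have h2 : lam * ‖(x : X) - o‖ ≤ lam * 2 ^ k := mul_le_mul_of_nonneg_left hx hlam0.le
    linarith
  · -- φ_o
    intro m k
    apply tent_eq_zero (hRpos k)
    rw [norm_sub_rev, hcnorm]
    have := hcR m k
    have h2 : 0 < (lam + b) * 2 ^ (Nat.pair m k) := by positivity
    linarith
  · -- φ_le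
    intro m k z
    rw [abs_of_nonneg (tent_nonneg _ _)]
    calc tent (lam * 2 ^ k + b) ‖(z : X) - c m k‖ ^ p ≤ 1 ^ p :=
          Real.rpow_le_rpow (tent_nonneg _ _) (tent_le_one _ _) hp.le
      _ = 1 := Real.one_rpow p
  · -- φ_lip
    intro m k x y
    rw [← Real.mul_rpow (abs_nonneg _) dist_nonneg]
    refine rpow_bound hp (mul_nonneg (abs_nonneg _) dist_nonneg) hK0 dist_nonneg ?_
    rw [hdist, hdist]
    have h1 := tent_lip (hRpos k) ‖(x : X) - c m k‖ ‖(y : X) - c m k‖
    have h2 : |‖(x : X) - c m k‖ - ‖(y : X) - c m k‖| ≤ ‖(x : X) - y‖ := by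
      have := abs_norm_sub_norm_le ((x : X) - c m k) ((y : X) - c m k)
      rwa [sub_sub_sub_cancel_right] at this
    have h3 := ρ1 k (o + lam⁻¹ • ((x : X) - c m k))
    have h4 : (2 : ℝ) ^ k ≤ lam * 2 ^ k + b := by
      have := hpow k
      nlinarith
    calc |tent (lam * 2 ^ k + b) ‖(x : X) - c m k‖ - tent (lam * 2 ^ k + b) ‖(y : X) - c m k‖| *
        ‖(ρ k (o + lam⁻¹ • ((x : X) - c m k)) : X) - o‖
        ≤ (‖(x : X) - y‖ / (lam * 2 ^ k + b)) * (lam * 2 ^ k + b) := by
          apply mul_le_mul (h1.trans _) (h3.trans h4) (norm_nonneg _) (by positivity)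
          gcongr
      _ = ‖(x : X) - y‖ := by field_simp
      _ ≤ K * ‖(x : X) - y‖ := by
          have := norm_nonneg ((x : X) - y)
          nlinarith
  · -- φ_disj
    intro m k m' k' z h1 h2
    obtain ⟨a1, a2⟩ := hann m k z h1
    obtain ⟨b1, b2⟩ := hann m' k' z h2
    have key : ∀ i j : ℕ, i < j → ¬ (6 * (lam + b) * 2 ^ j < 10 * (lam + b) * 2 ^ i) := by
      intro i j hij
      have h3 : (2 : ℝ) ^ (i + 1) ≤ 2 ^ j := pow_le_pow_right₀ (by norm_num) hij
      rw [pow_succ] at h3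
      have h4 : 0 < lam + b := by positivity
      have h5 := hpow i
      push Not
      nlinarith
    have heq : Nat.pair m k = Nat.pair m' k' := by
      rcases lt_trichotomy (Nat.pair m k) (Nat.pair m' k') with h | h | h
      · exact absurd (b1.trans a2) (key _ _ h)
      · exact h
      · exact absurd (a1.trans b2) (key _ _ h)
    exact Nat.pair_eq_pair.1 heq

end net

end Pool.Agent.Helper25.PSpace
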