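import Mathlib

/-!
Order-preserving actions of groups on linearly ordered sets: powers, hulls, and the blocks of
pretzel type.
-/

set_option autoImplicit false

namespace Pool.Agent.Helper25.Pret

/-- The action preserves the strict order. -/
def Mono (G Ω : Type*) [Group G] [LinearOrder Ω] [MulAction G Ω] : Prop :=
  ∀ (g : G) (a b : Ω), a < b → g • a < g • b

variable {G Ω : Type*} [Group G] [LinearOrder Ω] [MulAction G Ω]

theorem lt_iff (hm : Mono G Ω) (g : G) (a b : Ω) : g • a < g • b ↔ a < b := by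
  constructor
  · intro h
    have := hm g⁻¹ _ _ h
    simpa using this
  · exact hm g a b

theorem le_iff (hm : Mono G Ω) (g : G) (a b : Ω) : g • a ≤ g • b ↔ a ≤ b := by
  rw [← not_lt, ← not_lt, lt_iff hm]

theorem lt_inv (hm : Mono G Ω) (g : G) (a b : Ω) : g • a < b ↔ a < g⁻¹ • b := by
  rw [← lt_iff hm g a, smul_inv_smul]

theorem inv_lt (hm : Mono G Ω) (g : G) (a b : Ω) : g⁻¹ • a < b ↔ a < g • b := by
  rw [lt_inv hm, inv_inv]

theorem le_inv (hm : Mono G Ω) (g : G) (a b : Ω) : g • a ≤ b ↔ a ≤ g⁻¹ • b := by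
  rw [← le_iff hm g a, smul_inv_smul]

theorem inv_le (hm : Mono G Ω) (g : G) (a b : Ω) : g⁻¹ • a ≤ b ↔ a ≤ g • b := by
  rw [le_inv hm, inv_inv]

theorem mono_dual (hm : Mono G Ω) : Mono G Ωᵒᵈ := fun g a b h => hm g b a h

theorem pow_ge (hm : Mono G Ω) {g : G} {a : Ω} (h : a ≤ g • a) (k : ℕ) : a ≤ g ^ k • a := by
  induction k with
  | zero => simp
  | succ k ih =>
    rw [pow_succ', mul_smul]
    exact h.trans ((le_iff hm g _ _).2 ih)

theorem pow_le (hm : Mono G Ω) {g : G} {a : Ω} (h : g • a ≤ a) (k : ℕ) : g ^ k • a ≤ a :=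
  pow_ge (Ω := Ωᵒᵈ) (mono_dual hm) h k

theorem pow_le_smul (hm : Mono G Ω) {g : G} {a : Ω} (h : g • a ≤ a) {k : ℕ} (hk : 0 < k) :
    g ^ k • a ≤ g • a := by
  obtain ⟨m, rfl⟩ : ∃ m, k = m + 1 := ⟨k - 1, by omega⟩
  rw [pow_succ', mul_smul]
  exact (le_iff hm g _ _).2 (pow_le hm h m)

theorem smul_le_pow (hm : Mono G Ω) {g : G} {a : Ω} (h : a ≤ g • a) {k : ℕ} (hk : 0 < k) :
    g • a ≤ g ^ k • a :=
  pow_le_smul (Ω := Ωᵒᵈ) (mono_dual hm) h hk

/-- If a power of `Z` moves a point to the left, then `Z` does. -/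
theorem root_le (hm : Mono G Ω) {Z : G} {a : Ω} {v : ℕ} (hv : 0 < v) (h : Z ^ v • a ≤ a) :
    Z • a ≤ a := by
  by_contra hc
  push Not at hc
  exact absurd (smul_le_pow hm hc.le hv) (not_le.2 (lt_of_le_of_lt h hc))

theorem root_ge (hm : Mono G Ω) {Z : G} {a : Ω} {v : ℕ} (hv : 0 < v) (h : a ≤ Z ^ v • a) :
    a ≤ Z • a :=
  root_le (Ω := Ωᵒᵈ) (mono_dual hm) hv h

/-- Elements `Z` with `Z ^ v = y ^ k`, `k ≥ 0`, move points in the same direction as `y`. -/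
theorem rat_le (hm : Mono G Ω) {y Z : G} {v k : ℕ} (hv : 0 < v) (h : Z ^ v = y ^ k) {t : Ω}
    (ht : y • t ≤ t) : Z • t ≤ t :=
  root_le hm hv (by rw [h]; exact pow_le hm ht k)

theorem rat_ge (hm : Mono G Ω) {y Z : G} {v k : ℕ} (hv : 0 < v) (h : Z ^ v = y ^ k) {t : Ω}
    (ht : t ≤ y • t) : t ≤ Z • t :=
  root_ge hm hv (by rw [h]; exact pow_ge hm ht k)

/-- If `g` moves `s` to the left, then `k ↦ g ^ k • s` is antitone. -/
theorem zpow_anti (hm : Mono G Ω) {g : G} {s : Ω} (h : g • s ≤ s) {m n : ℤ} (hmn : m ≤ n) :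
    g ^ n • s ≤ g ^ m • s := by
  obtain ⟨k, rfl⟩ : ∃ k : ℕ, n = m + k := ⟨(n - m).toNat, by omega⟩
  rw [zpow_add, mul_smul, zpow_natCast]
  exact (le_iff hm _ _ _).2 (pow_le hm h k)

/-- Points between two points of the orbit of `s` are moved to the left if `s` is. -/
theorem hull_left (hm : Mono G Ω) {g : G} {s p : Ω} (hs : g • s < s) {m n : ℤ}
    (h1 : g ^ m • s ≤ p) (h2 : p ≤ g ^ n • s) : g • p < p := by
  by_contra hc
  push Not at hc
  set k := max m n with hk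
  have h3 : g ^ k • s ≤ p := (zpow_anti hm hs.le (le_max_left m n)).trans h1
  obtain ⟨j, hj⟩ : ∃ j : ℕ, k = n + j := ⟨(k - n).toNat, by omega⟩
  have h4 : p ≤ g ^ (j + 1) • p := pow_ge hm hc _
  have h5 : g ^ (j + 1) • p ≤ g ^ (j + 1) • g ^ n • s := (le_iff hm _ _ _).2 h2
  have h6 : g ^ (j + 1) • g ^ n • s = g ^ k • g • s := by
    rw [← mul_smul, ← mul_smul, ← zpow_natCast, ← zpow_add, ← zpow_add_one]
    congr 2
    push_cast
    omega
  have h7 : g ^ k • g • s < g ^ k • s := hm _ _ _ hs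
  exact absurd (h4.trans (h5.trans h6.le)) (not_le.2 (lt_of_lt_of_le h7 h3))

theorem hull_right (hm : Mono G Ω) {g : G} {s p : Ω} (hs : s < g • s) {m n : ℤ}
    (h1 : g ^ m • s ≤ p) (h2 : p ≤ g ^ n • s) : p < g • p :=
  hull_left (Ω := Ωᵒᵈ) (mono_dual hm) hs h2 h1

/-- If `p < q` are moved in opposite directions, then the orbit of `p` stays below `q`. -/
theorem sep (hm : Mono G Ω) {g : G} {p q : Ω} (hpq : p < q)
    (h : (g • p ≤ p ∧ q ≤ g • q) ∨ (p ≤ g • p ∧ g • q ≤ q)) (k : ℤ) : g ^ k • p < q := by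
  obtain ⟨n, hn⟩ : ∃ n : ℕ, k = n ∨ k = -n := ⟨k.natAbs, by omega⟩
  rcases hn with rfl | rfl
  · rw [zpow_natCast]
    rcases h with ⟨h1, _⟩ | ⟨_, h2⟩
    · exact lt_of_le_of_lt (pow_le hm h1 n) hpq
    · exact lt_of_lt_of_le (hm _ _ _ hpq) (pow_le hm h2 n)
  · rw [zpow_neg, zpow_natCast, inv_lt hm]
    rcases h with ⟨_, h2⟩ | ⟨h1, _⟩
    · exact lt_of_lt_of_le hpq (pow_ge hm h2 n)
    · exact lt_of_le_of_lt (pow_ge hm h1 n) (hm _ _ _ hpq)

/-- If `m` is below the orbit of `s` under `y`, then it is below `τ • s` for each root `τ` of a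
power of `y`. -/
theorem below_root (hm : Mono G Ω) {y τ : G} {v : ℕ} {l : ℤ} (hv : 0 < v) (hτ : τ ^ v = y ^ l)
    {m s : Ω} (hb : ∀ k : ℤ, m < y ^ k • s) : m < τ • s := by
  by_contra hc
  push Not at hc
  have h0 : m < s := by simpa using hb 0
  have h1 : τ ^ v • s ≤ τ • s := pow_le_smul hm (hc.trans h0.le) hv
  rw [hτ] at h1
  exact absurd (hb l) (not_lt.2 (h1.trans hc))

theorem above_root (hm : Mono G Ω) {y τ : G} {v : ℕ} {l : ℤ} (hv : 0 < v) (hτ : τ ^ v = y ^ l)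
    {m s : Ω} (hb : ∀ k : ℤ, y ^ k • s < m) : τ • s < m :=
  below_root (Ω := Ωᵒᵈ) (mono_dual hm) hv hτ hb

end Pool.Agent.Helper25.Pret
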