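import Pool.Agent.Helper25.PretAct

/-!
The key comparison for a block of pretzel type: if all the points of the lower surface are below
the mark, then each point of the upper surface is below some point of the lower surface.
-/

set_option autoImplicit false

namespace Pool.Agent.Helper25.Pret

/-- The elements of a block: `X` is a rational power of `x` with exponent `p / q ≥ 1`, and `Y` is a
rational power of `y` with exponent `u / v ≥ -1`. -/
structure IsBlock {G : Type*} [Group G] (x X y Y : G) (p q v : ℕ) (u : ℤ) : Prop where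
  hq : 0 < q
  hpq : q ≤ p
  hX : X ^ q = x ^ p
  cX : X * x = x * X
  hv : 0 < v
  hu : -(v : ℤ) ≤ u
  hY : Y ^ v = y ^ u
  cY : Y * y = y * Y

namespace IsBlock

variable {G Ω : Type*} [Group G] [LinearOrder Ω] [MulAction G Ω]
variable {x X y Y : G} {p q v : ℕ} {u : ℤ}

theorem r_pow (B : IsBlock x X y Y p q v u) : (x * X⁻¹) ^ q = x⁻¹ ^ (p - q) := by
  have h : Commute x X⁻¹ := (show Commute X x from B.cX).symm.inv_right
  rw [h.mul_pow, inv_pow, B.hX]
  have : x ^ p = x ^ q * x ^ (p - q) := by rw [← pow_add]; congr 1; have := B.hpq; omega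
  rw [this, inv_pow]
  group

/-- `r = x * X⁻¹` moves points in the direction of `x⁻¹`. -/
theorem r_ge (B : IsBlock x X y Y p q v u) (hm : Mono G Ω) {t : Ω} (h : x • t ≤ t) :
    t ≤ (x * X⁻¹) • t :=
  rat_ge hm B.hq B.r_pow (by rwa [← le_inv hm])

theorem r_le (B : IsBlock x X y Y p q v u) (hm : Mono G Ω) {t : Ω} (h : t ≤ x • t) :
    (x * X⁻¹) • t ≤ t :=
  B.r_ge (Ω := Ωᵒᵈ) (mono_dual hm) h

theorem X_r (B : IsBlock x X y Y p q v u) : X * (x * X⁻¹) = x := by
  rw [← mul_assoc, B.cX, mul_assoc, mul_inv_cancel, mul_one]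

theorem r_eq (B : IsBlock x X y Y p q v u) : x * X⁻¹ = X⁻¹ * x := by
  have := B.cX
  rw [eq_inv_mul_iff_mul_eq, ← mul_assoc, this, mul_assoc, mul_inv_cancel, mul_one]

theorem T_pow (B : IsBlock x X y Y p q v u) : (y * Y) ^ v = y ^ (v + u).toNat := by
  have h : Commute y Y := (show Commute Y y from B.cY).symm
  rw [h.mul_pow, B.hY, ← zpow_natCast, ← zpow_natCast, ← zpow_add]
  congr 1
  have := B.hu
  omega

/-- `y * Y` moves points in the direction of `y`. -/
theorem T_le (B : IsBlock x X y Y p q v u) (hm : Mono G Ω) {t : Ω} (h : y • t ≤ t) :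
    (y * Y) • t ≤ t :=
  rat_le hm B.hv B.T_pow h

theorem T_ge (B : IsBlock x X y Y p q v u) (hm : Mono G Ω) {t : Ω} (h : t ≤ y • t) :
    t ≤ (y * Y) • t :=
  rat_ge hm B.hv B.T_pow h

theorem S_pow (B : IsBlock x X y Y p q v u) {J : ℕ} (hJ : u ≤ J * v) :
    (Y * y⁻¹ ^ J) ^ v = y⁻¹ ^ ((J * v : ℤ) - u).toNat := by
  have h : Commute Y (y⁻¹ ^ J) := (show Commute Y y from B.cY).inv_right.pow_right J
  rw [h.mul_pow, B.hY, ← zpow_natCast (y⁻¹), ← zpow_natCast _ (((J * v : ℤ) - u).toNat),
    ← zpow_natCast _ v, ← zpow_mul, inv_zpow', inv_zpow', ← zpow_add]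
  congr 1
  have : 0 ≤ (J * v : ℤ) - u := by linarith
  rw [Int.toNat_of_nonneg this]
  ring

/-- If `y` moves `t` to the left, then `Y⁻¹ • t ≤ y ^ (-J) • t`. -/
theorem gamma_le (B : IsBlock x X y Y p q v u) (hm : Mono G Ω) {J : ℕ} (hJ : u ≤ J * v) {t : Ω}
    (h : y • t ≤ t) : Y⁻¹ • t ≤ y⁻¹ ^ J • t := by
  have h1 : t ≤ (Y * y⁻¹ ^ J) • t := rat_ge hm B.hv (B.S_pow hJ) (by rwa [← le_inv hm])
  rw [inv_le hm, ← mul_smul]
  exact h1

theorem y_inv_Y_inv (B : IsBlock x X y Y p q v u) (t : Ω) :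
    y⁻¹ • Y⁻¹ • t = (y * Y)⁻¹ • t := by
  rw [← mul_smul, mul_inv_rev, ← mul_inv_rev, ← mul_inv_rev, B.cY]

/-- The orbit of `X⁻¹ • s` under `g = x X⁻¹ y⁻¹` stays below the hull of `s` under `y`, if it
starts there. -/
theorem below (B : IsBlock x X y Y p q v u) (hm : Mono G Ω) {s : Ω}
    (h0 : ∀ m : ℤ, X⁻¹ • s < y ^ m • s) (k : ℕ) (m : ℤ) :
    (x * X⁻¹ * y⁻¹) ^ k • X⁻¹ • s < y ^ m • s := by
  induction k generalizing m with
  | zero => simpa using h0 m
  | succ k ih =>
    rw [pow_succ', mul_smul, mul_smul]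
    set t := (x * X⁻¹ * y⁻¹) ^ k • X⁻¹ • s with ht
    have h1 : ∀ n : ℤ, y⁻¹ • t < y ^ n • s := fun n => by
      rw [inv_lt hm, ← mul_smul, ← zpow_one_add]
      exact ih _
    rcases le_total (y⁻¹ • t) (x • y⁻¹ • t) with h | h
    · exact lt_of_le_of_lt (B.r_le hm h) (h1 m)
    · have h2 : x • y⁻¹ • t < s := lt_of_le_of_lt h (by simpa using h1 0)
      have h3 : (x * X⁻¹) • y⁻¹ • t = X⁻¹ • x • y⁻¹ • t := by
        rw [B.r_eq, mul_smul]
      rw [h3]
      exact (hm _ _ _ h2).trans (h0 m)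

theorem above (B : IsBlock x X y Y p q v u) (hm : Mono G Ω) {s : Ω}
    (h0 : ∀ m : ℤ, y ^ m • s < X⁻¹ • s) (k : ℕ) (m : ℤ) :
    y ^ m • s < (x * X⁻¹ * y⁻¹) ^ k • X⁻¹ • s :=
  B.below (Ω := Ωᵒᵈ) (mono_dual hm) h0 k m

/-- The points of the upper surface in terms of `g = x X⁻¹ y⁻¹`. -/
theorem w_pow (t : Ω) (j : ℕ) :
    (X⁻¹ * y⁻¹ * x) ^ j • x⁻¹ • t = x⁻¹ • (x * X⁻¹ * y⁻¹) ^ j • t := by
  have h : X⁻¹ * y⁻¹ * x = x⁻¹ * (x * X⁻¹ * y⁻¹) * x⁻¹⁻¹ := by group
  rw [h, conj_pow, inv_inv, mul_smul, mul_smul, smul_inv_smul]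

theorem w_pow' (t : Ω) (j : ℕ) :
    (X⁻¹ * y⁻¹ * x) ^ j • t = x⁻¹ • (x * X⁻¹ * y⁻¹) ^ j • x • t := by
  rw [← w_pow, inv_smul_smul]

/-- The key comparison: if all the points `P` of the lower surface are below `Y⁻¹ • s`, then each
point `Q` of the upper surface satisfies `Q < y⁻¹ • P` for some `P`. -/
theorem key (B : IsBlock x X y Y p q v u) (hm : Mono G Ω) {s : Ω} {J : ℕ} (hJ : u ≤ J * v)
    (hPm : y • x⁻¹ • y • s < Y⁻¹ • s)
    (hP : ∀ i ≤ J, (X⁻¹ * y⁻¹ * x * y⁻¹) ^ i • X⁻¹ • s < Y⁻¹ • s) :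
    (∃ P : Ω, (P = y • x⁻¹ • y • s ∨ ∃ i ≤ J, P = (X⁻¹ * y⁻¹ * x * y⁻¹) ^ i • X⁻¹ • s) ∧
      x⁻¹ • y • x⁻¹ • s < y⁻¹ • P) ∧
    ∀ j ≤ J, ∃ P : Ω,
      (P = y • x⁻¹ • y • s ∨ ∃ i ≤ J, P = (X⁻¹ * y⁻¹ * x * y⁻¹) ^ i • X⁻¹ • s) ∧
      (X⁻¹ * y⁻¹ * x) ^ j • x⁻¹ • X⁻¹ • s < y⁻¹ • P := by
  set r := x * X⁻¹ with hr
  set g := x * X⁻¹ * y⁻¹ with hg
  set α := X⁻¹ • s with hα
  set P : ℕ → Ω := fun i => (X⁻¹ * y⁻¹ * x * y⁻¹) ^ i • α with hPdef
  have hα0 : α < Y⁻¹ • s := by simpa [hPdef] using hP 0 (Nat.zero_le _)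
  have hxα : x • α = r • s := by rw [hα, hr, mul_smul]
  have hg' : ∀ t : Ω, g • t = r • y⁻¹ • t := fun t => by rw [hg, hr, mul_smul]
  -- the step from `P k` to `P (k + 1)`
  have hPstep : ∀ k, P (k + 1) = x⁻¹ • g • x • y⁻¹ • P k := fun k => by
    simp only [hPdef]
    rw [pow_succ', mul_smul, mul_smul]
    have := w_pow' (x := x) (X := X) (y := y) (y⁻¹ • (X⁻¹ * y⁻¹ * x * y⁻¹) ^ k • α) 1
    rw [pow_one, pow_one] at this
    exact this
  have hPstep' : ∀ k, P (k + 1) = (X⁻¹ * y⁻¹ * x) • y⁻¹ • P k := fun k => by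
    simp only [hPdef]
    rw [pow_succ', mul_smul, mul_smul]
  have hrX : ∀ t : Ω, r • t = X⁻¹ • x • t := fun t => by
    rw [hr, B.r_eq, mul_smul]
  rcases lt_or_ge s (x • s) with hxs | hxs
  · -- Case A: `x` moves `s` to the right
    have hrs : r • s ≤ s := B.r_le hm hxs.le
    have hα1 : α ≤ x⁻¹ • s := by rw [← le_inv hm, hxα]; exact hrs
    have hα2 : x⁻¹ • s < s := by rwa [inv_lt hm]
    have hαs : α < s := lt_of_le_of_lt hα1 hα2
    refine ⟨⟨y • x⁻¹ • y • s, Or.inl rfl, ?_⟩, fun j hj => ?_⟩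
    · rw [inv_smul_smul]
      exact hm _ _ _ (hm _ _ _ hα2)
    · by_cases hgj : g ^ j • α < y • s
      · refine ⟨y • x⁻¹ • y • s, Or.inl rfl, ?_⟩
        rw [inv_smul_smul, w_pow]
        exact hm _ _ _ hgj
      · push Not at hgj
        have h1 : y • s < s := by
          by_contra hc
          push Not at hc
          have hclaim : ∀ k : ℕ, g ^ k • α < s := by
            intro k
            induction k with
            | zero => simpa using hαs
            | succ k ih =>
              rw [pow_succ', mul_smul, hg']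
              have h2 : y⁻¹ • g ^ k • α < s := by
                rw [inv_lt hm]
                exact lt_of_lt_of_le ih hc
              exact lt_of_lt_of_le (hm r _ _ h2) hrs
          exact absurd (hclaim j) (not_lt.2 (hc.trans hgj))
        have h2 : ∃ m : ℤ, y ^ m • s ≤ α := by
          by_contra hc
          push Not at hc
          have h3 := B.below hm hc j 1
          rw [zpow_one] at h3
          exact absurd h3 (not_lt.2 hgj)
        obtain ⟨m, hmα⟩ := h2
        have hγ : Y⁻¹ • s ≤ y⁻¹ ^ J • s := B.gamma_le hm hJ h1.le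
        have hmove : ∀ t : Ω, α ≤ t → t < Y⁻¹ • s → y • t < t := fun t ht1 ht2 => by
          refine hull_left hm h1 (hmα.trans ht1) (n := -(J : ℤ)) ?_
          have := ht2.le.trans hγ
          rwa [inv_pow, ← zpow_natCast, ← zpow_neg] at this
        have hxα' : α < x • α := by
          rw [hxα, hrX, hα]
          exact hm _ _ _ hxs
        have hgα : α ≤ g • α := by
          by_contra hc
          push Not at hc
          have h4 : y • s ≤ α := hgj.trans (pow_le hm hc.le j)
          have h5 : r • s ≤ g • α := by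
            rw [hg', le_iff hm]
            rwa [← le_inv hm]
          rw [← hxα] at h5
          exact absurd (lt_of_lt_of_le hxα' h5) (not_lt.2 hc.le)
        have hgx : x • α ≤ g ^ (j + 1) • α := by
          rw [pow_succ', mul_smul, hxα, hg', le_iff hm, ← le_inv hm]
          exact hgj
        have hgα' : α < g • α := by
          rcases hgα.lt_or_eq with h | h
          · exact h
          · exfalso
            have h6 : g ^ (j + 1) • α ≤ α := pow_le hm h.symm.le _
            exact absurd (hgx.trans h6) (not_le.2 hxα')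
        have hgxα : x • α < g • x • α := by
          refine hull_right hm hgα' (m := 0) (n := (j + 1 : ℕ)) ?_ ?_
          · simpa using hxα'.le
          · rw [zpow_natCast]; exact hgx
        have hw : ∀ k : ℕ, α ≤ (X⁻¹ * y⁻¹ * x) ^ k • α := fun k => by
          rw [w_pow', ← le_inv hm]
          exact pow_ge hm hgxα.le k
        have hPk : ∀ k ≤ J, (X⁻¹ * y⁻¹ * x) ^ k • α ≤ P k := by
          intro k
          induction k with
          | zero => intro _; simp [hPdef]
          | succ k ih =>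
            intro hk
            have h7 := ih (by omega)
            have h8 : α ≤ P k := (hw k).trans h7
            have h9 : P k < Y⁻¹ • s := hP k (by omega)
            have h10 : P k ≤ y⁻¹ • P k := by
              rw [← le_inv hm]
              exact (hmove _ h8 h9).le
            rw [hPstep', pow_succ', mul_smul, le_iff hm]
            exact h7.trans h10
        refine ⟨P j, Or.inr ⟨j, hj, rfl⟩, ?_⟩
        have h7 := hPk j hj
        have h8 : α ≤ P j := (hw j).trans h7
        have h9 : P j < Y⁻¹ • s := hP j hj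
        have h10 : P j ≤ y⁻¹ • P j := by
          rw [← le_inv hm]
          exact (hmove _ h8 h9).le
        refine lt_of_lt_of_le ?_ (h7.trans h10)
        refine hm _ _ _ ?_
        rwa [inv_lt hm]
  · -- Case B: `x` moves `s` to the left
    have hs1 : s ≤ x⁻¹ • s := by rwa [← le_inv hm]
    have hrs : s ≤ r • s := B.r_ge hm hxs
    have hα1 : x⁻¹ • s ≤ α := by rw [inv_le hm, hxα]; exact hrs
    have hsα : s ≤ α := hs1.trans hα1
    rcases le_or_gt s (y • s) with hys | hys
    · -- impossible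
      exfalso
      have h1 : y • s ≤ y • x⁻¹ • y • s := by
        rw [le_iff hm]
        exact hs1.trans ((le_iff hm _ _ _).2 hys)
      have h2 : Y⁻¹ • s ≤ y • s := by
        rw [inv_le hm, ← mul_smul, B.cY]
        exact B.T_ge hm hys
      exact absurd (h2.trans h1) (not_le.2 hPm)
    · have hγ : Y⁻¹ • s ≤ y⁻¹ ^ J • s := B.gamma_le hm hJ hys.le
      have hmove : ∀ t : Ω, s ≤ t → t < Y⁻¹ • s → y • t < t := fun t ht1 ht2 => by
        refine hull_left hm hys (m := 0) (n := -(J : ℤ)) (by simpa using ht1) ?_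
        have := ht2.le.trans hγ
        rwa [inv_pow, ← zpow_natCast, ← zpow_neg] at this
      -- the main contradiction
      have hmain : ∀ T : Ω, (∀ t : Ω, s ≤ t → t ≤ T → t < g • t) →
          (∀ i ≤ J, x • y⁻¹ • P i ≤ T) → False := by
        intro T hT hPT
        have hclaim : ∀ k ≤ J, y⁻¹ ^ k • α ≤ P k ∧ α ≤ P k := by
          intro k
          induction k with
          | zero => intro _; simp [hPdef]
          | succ k ih =>
            intro hk
            obtain ⟨h1, h2⟩ := ih (by omega)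
            have h3 : P k < Y⁻¹ • s := hP k (by omega)
            have h4 : P k ≤ y⁻¹ • P k := by
              rw [← le_inv hm]
              exact (hmove _ (hsα.trans h2) h3).le
            have h5 : s ≤ x • y⁻¹ • P k := by
              refine hrs.trans ?_
              rw [← hxα, le_iff hm]
              exact h2.trans h4
            have h6 := hT _ h5 (hPT k (by omega))
            have h7 : y⁻¹ • P k ≤ P (k + 1) := by
              rw [hPstep, ← le_inv hm]
              exact h6.le
            refine ⟨?_, h2.trans (h4.trans h7)⟩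
            rw [pow_succ', mul_smul]
            exact ((le_iff hm _ _ _).2 h1).trans h7
        have h8 := (hclaim J le_rfl).1
        have h9 : y⁻¹ ^ J • s ≤ P J := ((le_iff hm _ _ _).2 hsα).trans h8
        exact absurd (hγ.trans h9) (not_le.2 (hP J le_rfl))
      have hgp : ∀ t : Ω, s ≤ t → t ≤ α → t < g • t := by
        intro t ht1 ht2
        have h1 : y • t < t := hmove t ht1 (lt_of_le_of_lt ht2 hα0)
        have h2 : t < y⁻¹ • t := by rwa [← lt_inv hm]
        rw [hg']
        rcases le_or_gt (x • y⁻¹ • t) (y⁻¹ • t) with h3 | h3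
        · exact lt_of_lt_of_le h2 (B.r_ge hm h3)
        · rw [hrX]
          refine lt_of_le_of_lt ht2 (hm _ _ _ ?_)
          exact lt_of_le_of_lt (ht1.trans h2.le) h3
      constructor
      · by_contra hcon
        push Not at hcon
        refine hmain (y • x⁻¹ • s) ?_ ?_
        · intro t ht1 ht2
          refine hgp t ht1 (ht2.trans ?_)
          have h1 : y • x⁻¹ • s < x⁻¹ • s :=
            hmove _ hs1 (lt_of_le_of_lt hα1 hα0)
          exact h1.le.trans hα1
        · intro i hi
          have := hcon (P i) (Or.inr ⟨i, hi, rfl⟩)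
          rwa [← le_inv hm] at this
      · intro j hj
        by_contra hcon
        push Not at hcon
        refine hmain (g ^ j • α) ?_ ?_
        · intro t ht1 ht2
          rcases le_or_gt t α with h1 | h1
          · exact hgp t ht1 h1
          · refine hull_right hm (hgp α hsα le_rfl) (m := 0) (n := (j : ℕ)) ?_ ?_
            · simpa using h1.le
            · rw [zpow_natCast]; exact ht2
        · intro i hi
          have := hcon (P i) (Or.inr ⟨i, hi, rfl⟩)
          rw [w_pow, ← le_inv hm] at this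
          exact this

end IsBlock

end Pool.Agent.Helper25.Pret
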