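import Pool.Agent.Helper25.PretBlock

/-!
The second comparison for a block of pretzel type: if the points of the upper surface are on both
sides of the mark, then `y` and the curve `z` of the upper surface move the mark in the same
direction as the curve `z` of the lower surface.
-/

set_option autoImplicit false

namespace Pool.Agent.Helper25.Pret

namespace IsBlock

variable {G Ω : Type*} [Group G] [LinearOrder Ω] [MulAction G Ω]
variable {x X y Y : G} {p q v : ℕ} {u : ℤ}

/-- All the points of the upper surface are below the mark. -/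
def Below (x X y Y : G) (s : Ω) : Prop :=
  y • x⁻¹ • s < x • y⁻¹ • Y⁻¹ • s ∧
    ∀ j : ℕ, (x * X⁻¹ * y⁻¹) ^ j • X⁻¹ • s < x • y⁻¹ • Y⁻¹ • s

/-- All the points of the upper surface are above the mark. -/
def Above (x X y Y : G) (s : Ω) : Prop :=
  x • y⁻¹ • Y⁻¹ • s < y • x⁻¹ • s ∧
    ∀ j : ℕ, x • y⁻¹ • Y⁻¹ • s < (x * X⁻¹ * y⁻¹) ^ j • X⁻¹ • s

theorem tau_pow (B : IsBlock x X y Y p q v u) : ((y * Y)⁻¹) ^ v = y ^ (-(v + u)) := by
  rw [inv_pow, B.T_pow, ← zpow_natCast, ← zpow_neg]
  congr 1
  have := B.hu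
  omega

/-- If `X⁻¹ • s` is below the orbit of `s` under `y`, and the other relevant points too, then all
the points of the upper surface are below the mark. -/
theorem side (B : IsBlock x X y Y p q v u) (hm : Mono G Ω) {s : Ω}
    (hz : y • x⁻¹ • y • s ≤ X⁻¹ • s) :
    Below x X y Y s ∨ Above x X y Y s ∨ (y • s ≤ s ∧ y • x⁻¹ • s ≤ X⁻¹ • s) := by
  set r := x * X⁻¹ with hr
  set g := x * X⁻¹ * y⁻¹ with hg
  set α := X⁻¹ • s with hα
  have hxα : x • α = r • s := by rw [hα, hr, mul_smul]
  have hg' : ∀ t : Ω, g • t = r • y⁻¹ • t := fun t => by rw [hg, hr, mul_smul]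
  have hrX : ∀ t : Ω, r • t = X⁻¹ • x • t := fun t => by
    rw [hr, B.r_eq, mul_smul]
  have hτ : y⁻¹ • Y⁻¹ • s = (y * Y)⁻¹ • s := B.y_inv_Y_inv s
  rcases lt_or_ge s (y • s) with hys | hys
  · rcases lt_or_ge s (x • s) with hxs | hxs
    · -- below
      left
      have hrs : r • s ≤ s := B.r_le hm hxs.le
      have hα1 : α ≤ x⁻¹ • s := by rw [← le_inv hm, hxα]; exact hrs
      have hα2 : x⁻¹ • s < s := by rwa [inv_lt hm]
      have hαs : α < s := lt_of_le_of_lt hα1 hα2
      set m := x⁻¹ • y • s with hmdef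
      have hm1 : x⁻¹ • s < m := hm _ _ _ hys
      have hm2 : y • m < m := lt_of_le_of_lt hz (lt_of_le_of_lt hα1 hm1)
      have hm3 : m < s := by
        by_contra hc
        push Not at hc
        have h1 : y • s ≤ s := ((le_iff hm _ _ _).2 hc).trans (hz.trans hαs.le)
        exact absurd hys (not_lt.2 h1)
      have hBm : ∀ k : ℤ, m < y ^ k • s := fun k => by
        have := sep hm hm3 (Or.inl ⟨hm2.le, hys.le⟩) (-k)
        rwa [zpow_neg, inv_lt hm] at this
      have hmτ : m < y⁻¹ • Y⁻¹ • s := by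
        rw [hτ]; exact below_root hm B.hv B.tau_pow hBm
      have hκ : y • s < x • y⁻¹ • Y⁻¹ • s := by
        have := hm x _ _ hmτ
        rwa [hmdef, smul_inv_smul] at this
      have hsκ : s < x • y⁻¹ • Y⁻¹ • s := hys.trans hκ
      have hBα : ∀ k : ℤ, α < y ^ k • s := fun k => (lt_of_le_of_lt hα1 hm1).trans (hBm k)
      constructor
      · have h1 : y • x⁻¹ • s < y • m := hm _ _ _ hm1
        exact h1.trans (lt_of_le_of_lt hz (hαs.trans hsκ))
      · intro j
        have := B.below hm hBα j 0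
        rw [zpow_zero, one_smul] at this
        exact this.trans hsκ
    · -- above
      right; left
      have hs1 : s ≤ x⁻¹ • s := by rwa [← le_inv hm]
      have hτs : y⁻¹ • Y⁻¹ • s ≤ s := by
        rw [hτ, inv_le hm]; exact B.T_ge hm hys.le
      have hκ : x • y⁻¹ • Y⁻¹ • s ≤ s := ((le_iff hm _ _ _).2 hτs).trans hxs
      have h1 : y • s ≤ y • x⁻¹ • s := (le_iff hm _ _ _).2 hs1
      have h2 : α < g • α := by
        rw [hg', hrX]
        have h3 : y • s ≤ x • y⁻¹ • α := by
          rw [← inv_le hm, ← le_inv hm]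
          exact hz
        exact hm _ _ _ (lt_of_lt_of_le hys h3)
      have h4 : s < α := by
        have h5 : s ≤ x⁻¹ • y • s := hs1.trans ((le_iff hm _ _ _).2 hys.le)
        exact lt_of_lt_of_le hys (((le_iff hm y _ _).2 h5).trans hz)
      constructor
      · exact lt_of_le_of_lt hκ (lt_of_lt_of_le hys h1)
      · intro j
        exact lt_of_le_of_lt hκ (lt_of_lt_of_le h4 (pow_ge hm h2.le j))
  · by_cases h : y • x⁻¹ • s ≤ α
    · right; right; exact ⟨hys, h⟩
    · push Not at h
      rcases lt_or_ge s (x • s) with hxs | hxs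
      · -- below
        left
        have hrs : r • s ≤ s := B.r_le hm hxs.le
        have hα1 : α ≤ x⁻¹ • s := by rw [← le_inv hm, hxα]; exact hrs
        have hα2 : x⁻¹ • s < s := by rwa [inv_lt hm]
        have hαs : α < s := lt_of_le_of_lt hα1 hα2
        have h1 : g • y • x⁻¹ • s = α := by
          rw [hg', inv_smul_smul, hrX, smul_inv_smul]
        have h2 : g • α < α := by
          have := hm g _ _ h
          rwa [h1] at this
        have hτs : s ≤ y⁻¹ • Y⁻¹ • s := by
          rw [hτ, ← le_inv hm]; exact B.T_le hm hys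
        have hκ : s < x • y⁻¹ • Y⁻¹ • s := lt_of_lt_of_le hxs ((le_iff hm _ _ _).2 hτs)
        constructor
        · exact (lt_of_lt_of_le (hm y _ _ hα2) hys).trans hκ
        · intro j
          exact lt_of_le_of_lt (pow_le hm h2.le j) (hαs.trans hκ)
      · -- above
        right; left
        have hs1 : s ≤ x⁻¹ • s := by rwa [← le_inv hm]
        have hrs : s ≤ r • s := B.r_ge hm hxs
        have hα1 : x⁻¹ • s ≤ α := by rw [inv_le hm, hxα]; exact hrs
        have h1 : x⁻¹ • s < y • x⁻¹ • s := lt_of_le_of_lt hα1 h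
        have h2 : s < x⁻¹ • s := by
          rcases hs1.lt_or_eq with h3 | h3
          · exact h3
          · rw [← h3] at h1
            exact absurd h1 (not_lt.2 hys)
        have hA : ∀ k : ℤ, y ^ k • s < x⁻¹ • s := sep hm h2 (Or.inl ⟨hys, h1.le⟩)
        have hAα : ∀ k : ℤ, y ^ k • s < α := fun k => lt_of_lt_of_le (hA k) hα1
        have hτx : y⁻¹ • Y⁻¹ • s < x⁻¹ • s := by
          rw [hτ]; exact above_root hm B.hv B.tau_pow hA
        have hκ : x • y⁻¹ • Y⁻¹ • s < s := by rwa [lt_inv hm]
        constructor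
        · exact hκ.trans ((h2.trans h1))
        · intro j
          have := B.above hm hAα j 0
          rw [zpow_zero, one_smul] at this
          exact hκ.trans this

theorem pow_fix {y : G} {s : Ω} (hy : y • s = s) (k : ℤ) : y ^ k • s = s :=
  (MulAction.stabilizer G s).zpow_mem (show y ∈ MulAction.stabilizer G s from hy) k

theorem fix (B : IsBlock x X y Y p q v u) (hm : Mono G Ω) {s : Ω} (hy : y • s = s) :
    Below x X y Y s ∨ Above x X y Y s ∨ x • s = s := by
  have hY : (y * Y)⁻¹ • s = s := by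
    have h1 : (y * Y) • s = s :=
      le_antisymm (B.T_le hm hy.le) (B.T_ge hm hy.ge)
    rw [inv_smul_eq_iff, h1]
  have hτ : y⁻¹ • Y⁻¹ • s = s := by rw [B.y_inv_Y_inv, hY]
  have hyi : y⁻¹ • s = s := by rw [inv_smul_eq_iff, hy]
  rcases lt_trichotomy s (x • s) with hxs | hxs | hxs
  · left
    have hrs : (x * X⁻¹) • s ≤ s := B.r_le hm hxs.le
    have hα1 : X⁻¹ • s ≤ x⁻¹ • s := by rw [← le_inv hm, ← mul_smul]; exact hrs
    have hα2 : x⁻¹ • s < s := by rwa [inv_lt hm]
    have hαs : X⁻¹ • s < s := lt_of_le_of_lt hα1 hα2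
    have hB : ∀ k : ℤ, X⁻¹ • s < y ^ k • s := fun k => by rw [pow_fix hy]; exact hαs
    constructor
    · rw [hτ]
      refine lt_trans ?_ hxs
      have := hm y _ _ hα2
      rwa [hy] at this
    · intro j
      rw [hτ]
      have := B.below hm hB j 0
      rw [zpow_zero, one_smul] at this
      exact this.trans hxs
  · right; right; exact hxs.symm
  · right; left
    have hrs : s ≤ (x * X⁻¹) • s := B.r_ge hm hxs.le
    have hα1 : x⁻¹ • s ≤ X⁻¹ • s := by rw [inv_le hm, ← mul_smul]; exact hrs
    have hα2 : s < x⁻¹ • s := by rwa [← lt_inv hm]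
    have hαs : s < X⁻¹ • s := lt_of_lt_of_le hα2 hα1
    have hB : ∀ k : ℤ, y ^ k • s < X⁻¹ • s := fun k => by rw [pow_fix hy]; exact hαs
    constructor
    · rw [hτ]
      refine hxs.trans ?_
      have := hm y _ _ hα2
      rwa [hy] at this
    · intro j
      rw [hτ]
      have := B.above hm hB j 0
      rw [zpow_zero, one_smul] at this
      exact hxs.trans this

end IsBlock

end Pool.Agent.Helper25.Pret
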